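import Pool.Agent.R871.SG.Comp

/-!
Entire curves of slow growth in affine varieties are limits of polynomial curves.
-/

set_option autoImplicit false

namespace Pool.Agent.R871.SG

open Filter Topology Metric Set MvPolynomial

variable {σ : Type} [Fintype σ] {ι κ : Type}

theorem cont_ev (G : MvPolynomial (σ) ℂ) : Continuous fun x : σ → ℂ => eval x G :=
  MvPolynomial.continuous_eval G

theorem diff_ev {f : ℂ → σ → ℂ} (hf : Differentiable ℂ f)
    (G : MvPolynomial (σ) ℂ) : Differentiable ℂ fun z => eval (f z) G := by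
  induction G using MvPolynomial.induction_on with
  | C a => simp
  | add p q hp hq => simpa only [map_add] using hp.fun_add hq
  | mul_X p i hp => simpa only [map_mul, eval_X] using hp.fun_mul (differentiable_pi.1 hf i)

/-- An entire function which vanishes on a ball vanishes. -/
theorem zero_ball {h : ℂ → ℂ} (hh : Differentiable ℂ h) {w : ℂ} {r : ℝ} (hr : 0 < r)
    (h0 : ∀ z, ‖z - w‖ < r → h z = 0) (z : ℂ) : h z = 0 := by
  have h1 : AnalyticOnNhd ℂ h univ := fun z _ => hh.analyticAt z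
  have h2 : h =ᶠ[𝓝 w] 0 := by
    filter_upwards [ball_mem_nhds w hr] with z hz
    exact h0 z (by simpa [dist_eq_norm] using hz)
  exact h1.eqOn_zero_of_preconnected_of_eventuallyEq_zero isPreconnected_univ (mem_univ w) h2
    (mem_univ z)

/-- The sequences of coefficients in `L m` of power series with values in `{F = 0}`, with constant
term in `K`. -/
def SolA (F : ι → MvPolynomial (σ) ℂ) (L : ℕ → Set (σ → ℂ)) : Set (ℕ → σ → ℂ) :=
  {c | (∀ m, c m ∈ L m) ∧ ∀ z : ℂ, ‖z‖ < 1 → ∀ i, eval (ser c z) (F i) = 0}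

theorem solA_closed (F : ι → MvPolynomial (σ) ℂ) {L : ℕ → Set (σ → ℂ)}
    (hL : ∀ m, IsClosed (L m)) (B : ℝ) : IsClosed (SolA F L ∩ Bd B) := by
  have h : SolA F L ∩ Bd B = (Bd B ∩ ⋂ m, {c | c m ∈ L m}) ∩
      ⋂ z : ball (0 : ℂ) 1, ⋂ i, (Bd B ∩ (fun c => eval (ser c z) (F i)) ⁻¹' {0}) := by
    ext c
    simp only [SolA, mem_inter_iff, mem_ofPred_eq, mem_iInter, mem_preimage, mem_singleton_iff,
      Subtype.forall, mem_ball_zero_iff]
    constructor
    · rintro ⟨⟨h1, h2⟩, h3⟩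
      exact ⟨⟨h3, h1⟩, fun z hz i => ⟨h3, h2 z hz i⟩⟩
    · rintro ⟨⟨h3, h1⟩, h2⟩
      exact ⟨⟨h1, fun z hz i => (h2 z hz i).2⟩, h3⟩
  rw [h]
  refine ((bd_closed B).inter (isClosed_iInter fun m => (hL m).preimage (continuous_apply m))).inter
    (isClosed_iInter fun z => isClosed_iInter fun i => ?_)
  exact ((cont_ev (F i)).comp_continuousOn
      (ser_cont B (mem_ball_zero_iff.1 z.2))).preimage_isClosed_of_isClosed (bd_closed B)
        isClosed_singleton

theorem serA_fin {c : ℕ → σ → ℂ} {D : ℕ} (h : ∀ m, D < m → c m = 0) (z : ℂ) :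
    ser c z = ∑ m ∈ Finset.range (D + 1), z ^ m • c m := by
  refine tsum_eq_sum fun m hm => ?_
  rw [h m (by simpa using hm), smul_zero]

/-- The polynomials with the Taylor coefficients `c m`, `m ≤ D`, at `w`. -/
noncomputable def polA (c : ℕ → σ → ℂ) (D : ℕ) (w : ℂ) (j : σ) : Polynomial ℂ :=
  ∑ m ∈ Finset.range (D + 1), Polynomial.C (c m j) * (Polynomial.X - Polynomial.C w) ^ m

theorem polA_eval {c : ℕ → σ → ℂ} {D : ℕ} (h : ∀ m, D < m → c m = 0) (w z : ℂ) :
    (fun j => (polA c D w j).eval z) = ser c (z - w) := by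
  rw [serA_fin h]
  ext j
  simp only [polA, Polynomial.eval_finsetSum, Polynomial.eval_mul, Polynomial.eval_C,
    Polynomial.eval_pow, Polynomial.eval_sub, Polynomial.eval_X, Finset.sum_apply, Pi.smul_apply,
    smul_eq_mul]
  exact Finset.sum_congr rfl fun m _ => mul_comm _ _

/-- A polynomial curve which lies in `{F = 0}` for parameters near `w` lies in `{F = 0}`. -/
theorem pol_ext {P : σ → Polynomial ℂ} {G : MvPolynomial (σ) ℂ} {w : ℂ} {r : ℝ}
    (hr : 0 < r) (h : ∀ z : ℂ, ‖z - w‖ < r → eval (fun j => (P j).eval z) G = 0) (z : ℂ) :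
    eval (fun j => (P j).eval z) G = 0 :=
  zero_ball (h := fun z => eval (fun j => (P j).eval z) G)
    (diff_ev (differentiable_pi.2 fun j => (P j).differentiable) G) hr h z

theorem coef_zero {f : ℂ → σ → ℂ} (w : ℂ) : coef f w 0 = f w := by
  simp [coef]

theorem ser_coef {f : ℂ → σ → ℂ} (hf : Differentiable ℂ f) (w z : ℂ) :
    ser (coef f w) z = f (w + z) := by
  have := coef_ser hf w z 1
  simpa using this

theorem ser_hasSum {f : ℂ → σ → ℂ} (hf : Differentiable ℂ f) (w z : ℂ) :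
    HasSum (fun m => z ^ m • coef f w m) (f (w + z)) := by
  have h := Complex.hasSum_taylorSeries_of_entire hf w (w + z)
  have e : (fun m => z ^ m • coef f w m) = fun m : ℕ =>
      ((m.factorial : ℂ))⁻¹ • (w + z - w) ^ m • iteratedDeriv m f w := by
    funext m
    rw [coef, add_sub_cancel_left, smul_comm (z ^ m) ((m.factorial : ℂ))⁻¹]
  rw [e]
  exact h

/-- The Taylor series of an entire function converges absolutely. -/
theorem coef_summable {f : ℂ → σ → ℂ} (hf : Differentiable ℂ f) (w : ℂ) {ρ : ℝ} (hρ : 0 ≤ ρ) :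
    Summable fun m => ρ ^ m * ‖coef f w m‖ := by
  obtain ⟨C, hC⟩ := (isCompact_sphere w (2 * ρ + 1)).exists_bound_of_continuousOn
    hf.continuous.continuousOn
  have hb := fun m => coef_le hf w (by positivity : (0 : ℝ) < 2 * ρ + 1) hC m
  have hg : Summable fun m : ℕ => (1 / 2 : ℝ) ^ m * C :=
    (summable_geometric_of_lt_one (by norm_num) (by norm_num)).mul_right C
  have hC0 : 0 ≤ C := by
    have := (norm_nonneg _).trans (hb 0)
    simpa using this
  refine Summable.of_nonneg_of_le (fun m => by positivity) (fun m => ?_) hg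
  calc ρ ^ m * ‖coef f w m‖ ≤ ρ ^ m * (C / (2 * ρ + 1) ^ m) := by gcongr; exact hb m
    _ = (ρ / (2 * ρ + 1)) ^ m * C := by rw [div_pow]; ring
    _ ≤ (1 / 2) ^ m * C := by
      refine mul_le_mul_of_nonneg_right (pow_le_pow_left₀ (by positivity) ?_ m) hC0
      rw [div_le_div_iff₀ (by positivity) (by norm_num)]
      linarith

/-- **Entire curves of slow growth are limits of polynomial curves.** For all polynomials `F` and
closed sets `L m` there is a function `φ` with `φ r / log r → ∞` such that every holomorphic map `f`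
from the plane to `{F = 0}` with Taylor coefficients at `w` in `L m`, and with `log ‖f‖ ≤ φ r` on
discs of arbitrarily large radii `r`, is a limit of polynomial curves in `{F = 0}` with Taylor
coefficients at `w` in `L m`, uniformly on compact sets. -/
theorem approx_poly (F : ι → MvPolynomial (σ) ℂ) (L : ℕ → Set (σ → ℂ))
    (hL : ∀ m, IsClosed (L m)) : ∃ φ : ℝ → ℝ, Grows φ ∧ ∀ (f : ℂ → σ → ℂ) (w : ℂ),
      Differentiable ℂ f → (∀ z i, eval (f z) (F i) = 0) → Slow φ f → (∀ m, coef f w m ∈ L m) →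
      ∀ ρ η : ℝ, 0 < η → ∃ (c : ℕ → σ → ℂ) (D : ℕ), (∀ m, D < m → c m = 0) ∧
        (∀ m, c m ∈ L m) ∧ (∀ z i, eval (ser c z) (F i) = 0) ∧
        ∀ z, ‖z‖ ≤ ρ → ‖ser c z - f (w + z)‖ ≤ η := by
  have h1 : ∀ D : ℕ, ∃ δ > 0, ∀ c ∈ SolA F L, c ∈ Bd ((D : ℝ) + 1) → (∀ m, D < m → ‖c m‖ ≤ δ) →
      ∃ c' ∈ SolA F L, c' ∈ Bd ((D : ℝ) + 1) ∧ (∀ m, D < m → c' m = 0) ∧
        ∀ m ≤ D, ‖c' m - c m‖ < 1 / ((D : ℝ) + 1) ^ (D + 1) := fun D =>
    approx (SolA F L) ((D : ℝ) + 1) D (solA_closed F hL _) (by positivity)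
  choose δ hδ hap using h1
  obtain ⟨φ, hφ, hgr⟩ := growth δ hδ
  refine ⟨φ, hφ, fun f w hf hfF hs hfL ρ η hη => ?_⟩
  set c : ℕ → σ → ℂ := coef f w with hcdef
  have hcS : c ∈ SolA F L := by
    refine ⟨hfL, fun z _ i => ?_⟩
    rw [hcdef, ser_coef hf, hfF]
  obtain ⟨C, hC⟩ := (isCompact_sphere w 1).exists_bound_of_continuousOn hf.continuous.continuousOn
  have hbd : ∀ m, ‖c m‖ ≤ C := by
    intro m
    have := coef_le hf w one_pos hC m
    rwa [one_pow, div_one] at this
  set ρ' : ℝ := max ρ 1 with hρ'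
  have hρ1 : 1 ≤ ρ' := le_max_right _ _
  -- the tail of the Taylor series
  have hsum := coef_summable hf w (by linarith : (0 : ℝ) ≤ ρ')
  have htl : Tendsto (fun D : ℕ => ∑' m, ρ' ^ (m + (D + 1)) * ‖c (m + (D + 1))‖) atTop (𝓝 0) := by
    have := tendsto_sum_nat_add fun m => ρ' ^ m * ‖c m‖
    exact this.comp (tendsto_add_atTop_nat 1)
  have hhd : Tendsto (fun D : ℕ => (1 / 2 : ℝ) ^ D) atTop (𝓝 0) :=
    tendsto_pow_atTop_nhds_zero_of_lt_one (by norm_num) (by norm_num)
  have hev := (htl.eventually_lt_const (half_pos hη)).and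
    ((hhd.eventually_lt_const (half_pos hη)).and
      ((eventually_ge_atTop ⌈C⌉₊).and (eventually_ge_atTop ⌈2 * ρ'⌉₊)))
  obtain ⟨D0, hD0⟩ := eventually_atTop.1 hev
  obtain ⟨D, hD, ht⟩ := hgr f hf hs w 1 D0
  obtain ⟨hD1, hD2, hD3, hD4⟩ := hD0 D hD
  have hDC : C ≤ D := (Nat.le_ceil C).trans (by exact_mod_cast hD3)
  have hDρ : 2 * ρ' ≤ D := (Nat.le_ceil _).trans (by exact_mod_cast hD4)
  have hcB : c ∈ Bd ((D : ℝ) + 1) := fun m => (hbd m).trans (by linarith)
  obtain ⟨c', hc'S, hc'B, hc'0, hc'c⟩ := hap D c hcS hcB fun m hm => by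
    have := ht m hm
    rwa [one_mul] at this
  refine ⟨c', D, hc'0, hc'S.1, fun z i => ?_, fun z hz => ?_⟩
  · have h2 := pol_ext (P := polA c' D 0) (G := F i) (w := 0) one_pos (fun z hz => by
      rw [polA_eval hc'0, sub_zero]
      rw [sub_zero] at hz
      exact hc'S.2 z hz i) z
    rw [polA_eval hc'0, sub_zero] at h2
    exact h2
  · have hz' : ‖z‖ ≤ ρ' := hz.trans (le_max_left _ _)
    have hfs := ser_hasSum hf w z
    have hcs : HasSum (fun m => z ^ m • c' m) (ser c' z) := by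
      rw [serA_fin hc'0]
      exact hasSum_sum_of_ne_finset_zero fun m hm => by
        rw [hc'0 m (by simpa using hm), smul_zero]
    have hdiff := hcs.sub hfs
    have hnb : ∀ m, ‖z ^ m • c' m - z ^ m • coef f w m‖ ≤ ρ' ^ m * ‖c' m - c m‖ := by
      intro m
      rw [← smul_sub, norm_smul, norm_pow]
      gcongr
    have hsplit : Summable fun m => ρ' ^ m * ‖c' m - c m‖ := by
      refine (summable_nat_add_iff (D + 1)).1 ?_
      refine ((summable_nat_add_iff (D + 1)).2 hsum).congr fun m => ?_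
      rw [hc'0 (m + (D + 1)) (by omega), zero_sub, norm_neg]
    have htail : ∑' m, ρ' ^ (m + (D + 1)) * ‖c' (m + (D + 1)) - c (m + (D + 1))‖ =
        ∑' m, ρ' ^ (m + (D + 1)) * ‖c (m + (D + 1))‖ := by
      refine tsum_congr fun m => ?_
      rw [hc'0 (m + (D + 1)) (by omega), zero_sub, norm_neg]
    have hhead : ∑ m ∈ Finset.range (D + 1), ρ' ^ m * ‖c' m - c m‖ ≤ (1 / 2 : ℝ) ^ D := by
      have h3 : ∀ m ∈ Finset.range (D + 1), ρ' ^ m * ‖c' m - c m‖ ≤
          ρ' ^ D * (1 / ((D : ℝ) + 1) ^ (D + 1)) := by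
        intro m hm
        have hm' : m ≤ D := by simpa [Nat.lt_succ_iff] using hm
        have := (hc'c m hm').le
        gcongr
      refine (Finset.sum_le_sum h3).trans ?_
      rw [Finset.sum_const, Finset.card_range, nsmul_eq_mul]
      have h4 : ((D + 1 : ℕ) : ℝ) * (ρ' ^ D * (1 / ((D : ℝ) + 1) ^ (D + 1))) =
          (ρ' / ((D : ℝ) + 1)) ^ D := by
        push_cast
        rw [div_pow]
        field_simp
        ring
      rw [h4]
      refine pow_le_pow_left₀ (by positivity) ?_ D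
      rw [div_le_div_iff₀ (by positivity) (by norm_num)]
      linarith
    have hn : ‖ser c' z - f (w + z)‖ ≤ ∑' m, ρ' ^ m * ‖c' m - c m‖ :=
      hdiff.tsum_eq ▸ tsum_of_norm_bounded hsplit.hasSum hnb
    rw [← hsplit.sum_add_tsum_nat_add (D + 1), htail] at hn
    linarith

end Pool.Agent.R871.SG
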