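import Pool.Agent.R871.SG.Aff

/-!
Entire curves of slow growth in affine varieties, with conditions at several points: a version of
`approx_poly` in which the parameter may be rescaled.
-/

set_option autoImplicit false

namespace Pool.Agent.R871.SG

open Filter Topology Metric Set MvPolynomial

theorem growth2 (δ : ℕ → ℝ) (hδ : ∀ D, 0 < δ D) : ∃ φ : ℝ → ℝ, Grows φ ∧
    ∀ {E : Type} [NormedAddCommGroup E] [NormedSpace ℂ E] [CompleteSpace E] (f : ℂ → E),
      Differentiable ℂ f → Slow φ f → ∀ (w : ℂ) (A : ℝ) (D₀ : ℕ), 0 ≤ A → ∃ D ≥ D₀, ∀ m, D < m →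
        A ^ m * ‖coef f w m‖ ≤ δ D := by
  obtain ⟨ρ, hρ⟩ : ∃ ρ : ℕ → ℝ, ∀ D : ℕ, 2 * (D : ℝ) + 2 ≤ ρ D ∧
      ((2 * (D : ℝ)) ^ (D + 1) / δ D) ^ 2 ≤ ρ D :=
    ⟨fun D => max (2 * (D : ℝ) + 2) (((2 * (D : ℝ)) ^ (D + 1) / δ D) ^ 2), fun D =>
      ⟨le_max_left _ _, le_max_right _ _⟩⟩
  classical
  set N : ℝ → ℕ := fun r => Nat.findGreatest (fun D => ρ D ≤ r) ⌊r⌋₊ with hN
  have hNlim : ∀ D : ℕ, ∀ r, ρ D ≤ r → D ≤ N r ∧ ρ (N r) ≤ r := by
    intro D r hr
    have hD : D ≤ ⌊r⌋₊ := Nat.le_floor (by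
      have := (hρ D).1
      have h0 : (0 : ℝ) ≤ D := D.cast_nonneg
      linarith)
    exact ⟨Nat.le_findGreatest hD hr, Nat.findGreatest_spec (P := fun D => ρ D ≤ r) hD hr⟩
  refine ⟨fun r => (N r + 1 / 2) * Real.log r, ?_, ?_⟩
  · have h1 : Tendsto (fun r => ((N r : ℝ) + 1 / 2)) atTop atTop := by
      refine tendsto_atTop_mono (f := fun r => (N r : ℝ)) (fun r => by linarith) ?_
      refine tendsto_natCast_atTop_atTop.comp ?_
      refine tendsto_atTop.2 fun D => ?_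
      filter_upwards [eventually_ge_atTop (ρ D)] with r hr using (hNlim D r hr).1
    refine h1.congr' ?_
    filter_upwards [eventually_gt_atTop (1 : ℝ)] with r hr
    have := Real.log_pos hr
    field_simp
  · intro E _ _ _ f hf hs w A D₀ hA
    obtain ⟨r, hr, hfr⟩ := hs (max (ρ (max D₀ ⌈A⌉₊)) (2 * ‖w‖ + 2))
    have hr1 : ρ (max D₀ ⌈A⌉₊) ≤ r := (le_max_left _ _).trans hr.le
    have hr2 : 2 * ‖w‖ + 2 ≤ r := (le_max_right _ _).trans hr.le
    have hw0 := norm_nonneg w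
    obtain ⟨hD1, hD2⟩ := hNlim _ _ hr1
    set D := N r with hDdef
    have hr0 : 0 < r := by linarith
    refine ⟨D, (le_max_left _ _).trans hD1, fun m hm => ?_⟩
    have hAD : A ≤ D := (Nat.le_ceil A).trans (by exact_mod_cast (le_max_right _ _).trans hD1)
    have hDr2 : 2 * (D : ℝ) ≤ r := by have := (hρ D).1; linarith
    have hC : ∀ z ∈ sphere w (r / 2), ‖f z‖ ≤ Real.exp (((D : ℝ) + 1 / 2) * Real.log r) := by
      intro z hz
      rw [mem_sphere_iff_norm] at hz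
      have h3 : ‖z‖ ≤ r := by
        have := norm_add_le (z - w) w
        rw [sub_add_cancel] at this
        linarith
      rcases eq_or_lt_of_le (norm_nonneg (f z)) with h4 | h4
      · rw [← h4]; positivity
      · exact (Real.log_le_iff_le_exp h4).1 (hfr z h3)
    have h5 := coef_le hf w (by positivity : (0 : ℝ) < r / 2) hC m
    have hs0 : 0 < Real.sqrt r := Real.sqrt_pos.2 hr0
    have h7 : Real.exp (((D : ℝ) + 1 / 2) * Real.log r) = r ^ D * Real.sqrt r := by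
      rw [add_mul, Real.exp_add, mul_comm (D : ℝ), Real.exp_mul, Real.exp_log hr0,
        Real.rpow_natCast, mul_comm (1 / 2 : ℝ), Real.exp_mul, Real.exp_log hr0,
        Real.sqrt_eq_rpow]
    have hss : Real.sqrt r * Real.sqrt r = r := Real.mul_self_sqrt hr0.le
    have h6 : A ^ m * (Real.exp (((D : ℝ) + 1 / 2) * Real.log r) / (r / 2) ^ m) ≤
        (2 * (D : ℝ)) ^ (D + 1) / Real.sqrt r := by
      rw [h7]
      have e1 : A ^ m * (r ^ D * Real.sqrt r / (r / 2) ^ m) = (2 * A / r) ^ m * (r ^ D * Real.sqrt r) := by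
        rw [div_pow, div_pow, mul_pow]
        field_simp
      rw [e1]
      have h8 : (2 * A / r) ^ m ≤ (2 * A / r) ^ (D + 1) := by
        refine pow_le_pow_of_le_one (by positivity) ?_ hm
        rw [div_le_one hr0]
        linarith
      calc (2 * A / r) ^ m * (r ^ D * Real.sqrt r) ≤ (2 * A / r) ^ (D + 1) * (r ^ D * Real.sqrt r) := by
            gcongr
        _ ≤ (2 * D / r) ^ (D + 1) * (r ^ D * Real.sqrt r) := by gcongr
        _ = (2 * (D : ℝ)) ^ (D + 1) / Real.sqrt r := by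
          rw [div_pow, eq_div_iff hs0.ne', pow_succ r D]
          field_simp
          rw [sq, hss]
    have hDr : (2 * (D : ℝ)) ^ (D + 1) / δ D ≤ Real.sqrt r :=
      Real.le_sqrt_of_sq_le ((hρ D).2.trans hD2)
    have h9 : (2 * (D : ℝ)) ^ (D + 1) / Real.sqrt r ≤ δ D := by
      rw [div_le_iff₀ (hδ D)] at hDr
      rw [div_le_iff₀ hs0]
      linarith
    calc A ^ m * ‖coef f w m‖
        ≤ A ^ m * (Real.exp (((D : ℝ) + 1 / 2) * Real.log r) / (r / 2) ^ m) := by gcongr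
      _ ≤ _ := h6.trans h9

variable {σ : Type} [Fintype σ] {ι κ τ : Type}

/-- The sequences of coefficients in `L m` of power series with values in `{F = 0}`, and with values
in `T t` at the points `p t`. -/
def SolB (F : ι → MvPolynomial σ ℂ) (L : ℕ → Set (σ → ℂ)) (p : τ → ball (0 : ℂ) 1)
    (T : τ → Set (σ → ℂ)) : Set (ℕ → σ → ℂ) :=
  {c | (∀ m, c m ∈ L m) ∧ (∀ z : ℂ, ‖z‖ < 1 → ∀ i, eval (ser c z) (F i) = 0) ∧
    ∀ t, ser c (p t) ∈ T t}

theorem solB_closed (F : ι → MvPolynomial σ ℂ) {L : ℕ → Set (σ → ℂ)}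
    (hL : ∀ m, IsClosed (L m)) (p : τ → ball (0 : ℂ) 1) {T : τ → Set (σ → ℂ)}
    (hT : ∀ t, IsClosed (T t)) (B : ℝ) : IsClosed (SolB F L p T ∩ Bd B) := by
  have h : SolB F L p T ∩ Bd B = (SolA F L ∩ Bd B) ∩
      ⋂ t, (Bd B ∩ (fun c => ser c (p t : ℂ)) ⁻¹' (T t)) := by
    ext c
    simp only [SolB, SolA, mem_inter_iff, mem_ofPred_eq, mem_iInter, mem_preimage]
    constructor
    · rintro ⟨⟨h1, h2, h3⟩, h4⟩
      exact ⟨⟨⟨h1, h2⟩, h4⟩, fun t => ⟨h4, h3 t⟩⟩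
    · rintro ⟨⟨⟨h1, h2⟩, h4⟩, h3⟩
      exact ⟨⟨h1, h2, fun t => (h3 t).2⟩, h4⟩
  rw [h]
  refine (solA_closed F hL B).inter (isClosed_iInter fun t => ?_)
  exact (ser_cont B (mem_ball_zero_iff.1 (p t).2)).preimage_isClosed_of_isClosed (bd_closed B)
        (hT t)

/-- **Entire curves of slow growth are limits of polynomial curves.** A version of `approx_poly` with
conditions at the points `w + a * p t`. -/
theorem approx_poly2 (F : ι → MvPolynomial σ ℂ) (L : ℕ → Set (σ → ℂ))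
    (hL : ∀ m, IsClosed (L m)) (p : τ → ball (0 : ℂ) 1) (T : τ → Set (σ → ℂ))
    (hT : ∀ t, IsClosed (T t)) : ∃ φ : ℝ → ℝ, Grows φ ∧ ∀ (f : ℂ → σ → ℂ) (w a : ℂ),
      Differentiable ℂ f → (∀ z i, eval (f z) (F i) = 0) → Slow φ f →
      (∀ m, a ^ m • coef f w m ∈ L m) → (∀ t, f (w + a * p t) ∈ T t) →
      ∀ ρ η : ℝ, 0 < η → ∃ (c : ℕ → σ → ℂ) (D : ℕ), (∀ m, D < m → c m = 0) ∧
        (∀ m, c m ∈ L m) ∧ (∀ z i, eval (ser c z) (F i) = 0) ∧ (∀ t, ser c (p t) ∈ T t) ∧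
        ∀ z, ‖z‖ ≤ ρ → ‖ser c z - f (w + a * z)‖ ≤ η := by
  have h1 : ∀ D : ℕ, ∃ δ > 0, ∀ c ∈ SolB F L p T, c ∈ Bd ((D : ℝ) + 1) →
      (∀ m, D < m → ‖c m‖ ≤ δ) →
      ∃ c' ∈ SolB F L p T, c' ∈ Bd ((D : ℝ) + 1) ∧ (∀ m, D < m → c' m = 0) ∧
        ∀ m ≤ D, ‖c' m - c m‖ < 1 / ((D : ℝ) + 1) ^ (D + 1) := fun D =>
    approx (SolB F L p T) ((D : ℝ) + 1) D (solB_closed F hL p hT _) (by positivity)
  choose δ hδ hap using h1
  obtain ⟨φ, hφ, hgr⟩ := growth2 δ hδ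
  refine ⟨φ, hφ, fun f w a hf hfF hs hfL hfT ρ η hη => ?_⟩
  set c : ℕ → σ → ℂ := fun m => a ^ m • coef f w m with hcdef
  have hsum0 : ∀ z, HasSum (fun m => z ^ m • c m) (f (w + a * z)) := by
    intro z
    have h := ser_hasSum hf w (a * z)
    have e : (fun m => z ^ m • c m) = fun m => (a * z) ^ m • coef f w m := by
      funext m
      rw [hcdef]
      simp only
      rw [smul_smul, mul_pow, mul_comm]
    rw [e]; exact h
  have hserc : ∀ z, ser c z = f (w + a * z) := fun z => (hsum0 z).tsum_eq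
  have hcS : c ∈ SolB F L p T := by
    refine ⟨hfL, fun z _ i => ?_, fun t => ?_⟩
    · rw [hserc, hfF]
    · rw [hserc]; exact hfT t
  set ρ' : ℝ := max ρ 1 with hρ'
  have hρ1 : 1 ≤ ρ' := le_max_right _ _
  have hcn : ∀ m, ‖c m‖ = ‖a‖ ^ m * ‖coef f w m‖ := fun m => by
    rw [hcdef]; simp only; rw [norm_smul, norm_pow]
  -- the tail of the Taylor series
  have hsum : Summable fun m => ρ' ^ m * ‖c m‖ := by
    have := coef_summable hf w (by positivity : (0 : ℝ) ≤ ρ' * ‖a‖)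
    refine this.congr fun m => ?_
    rw [hcn, mul_pow]; ring
  obtain ⟨C, hC⟩ : ∃ C : ℝ, ∀ m, ‖c m‖ ≤ C := by
    refine ⟨∑' m, ρ' ^ m * ‖c m‖, fun m => ?_⟩
    have h2 := hsum.le_tsum m fun j _ => by positivity
    refine le_trans ?_ h2
    have h3 : 1 ≤ ρ' ^ m := one_le_pow₀ hρ1
    nlinarith [norm_nonneg (c m)]
  have htl : Tendsto (fun D : ℕ => ∑' m, ρ' ^ (m + (D + 1)) * ‖c (m + (D + 1))‖) atTop (𝓝 0) := by
    have := tendsto_sum_nat_add fun m => ρ' ^ m * ‖c m‖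
    exact this.comp (tendsto_add_atTop_nat 1)
  have hhd : Tendsto (fun D : ℕ => (1 / 2 : ℝ) ^ D) atTop (𝓝 0) :=
    tendsto_pow_atTop_nhds_zero_of_lt_one (by norm_num) (by norm_num)
  have hev := (htl.eventually_lt_const (half_pos hη)).and
    ((hhd.eventually_lt_const (half_pos hη)).and
      ((eventually_ge_atTop ⌈C⌉₊).and (eventually_ge_atTop ⌈2 * ρ'⌉₊)))
  obtain ⟨D0, hD0⟩ := eventually_atTop.1 hev
  obtain ⟨D, hD, ht⟩ := hgr f hf hs w ‖a‖ D0 (norm_nonneg a)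
  obtain ⟨hD1, hD2, hD3, hD4⟩ := hD0 D hD
  have hDC : C ≤ D := (Nat.le_ceil C).trans (by exact_mod_cast hD3)
  have hDρ : 2 * ρ' ≤ D := (Nat.le_ceil _).trans (by exact_mod_cast hD4)
  have hcB : c ∈ Bd ((D : ℝ) + 1) := fun m => (hC m).trans (by linarith)
  obtain ⟨c', hc'S, hc'B, hc'0, hc'c⟩ := hap D c hcS hcB fun m hm => by
    rw [hcn]; exact ht m hm
  refine ⟨c', D, hc'0, hc'S.1, fun z i => ?_, hc'S.2.2, fun z hz => ?_⟩
  · have h2 := pol_ext (P := polA c' D 0) (G := F i) (w := 0) one_pos (fun z hz => by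
      rw [polA_eval hc'0, sub_zero]
      rw [sub_zero] at hz
      exact hc'S.2.1 z hz i) z
    rw [polA_eval hc'0, sub_zero] at h2
    exact h2
  · have hz' : ‖z‖ ≤ ρ' := hz.trans (le_max_left _ _)
    have hfs := hsum0 z
    have hcs : HasSum (fun m => z ^ m • c' m) (ser c' z) := by
      rw [serA_fin hc'0]
      exact hasSum_sum_of_ne_finset_zero fun m hm => by
        rw [hc'0 m (by simpa using hm), smul_zero]
    have hdiff := hcs.sub hfs
    have hnb : ∀ m, ‖z ^ m • c' m - z ^ m • c m‖ ≤ ρ' ^ m * ‖c' m - c m‖ := by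
      intro m
      rw [← smul_sub, norm_smul, norm_pow]
      gcongr
    have hsplit : Summable fun m => ρ' ^ m * ‖c' m - c m‖ := by
      refine (summable_nat_add_iff (D + 1)).1 ?_
      refine ((summable_nat_add_iff (D + 1)).2 hsum).congr fun m => ?_
      rw [hc'0 (m + (D + 1)) (by omega), zero_sub, norm_neg]
    have htail : ∑' m, ρ' ^ (m + (D + 1)) * ‖c' (m + (D + 1)) - c (m + (D + 1))‖ =
        ∑' m, ρ' ^ (m + (D + 1)) * ‖c (m + (D + 1))‖ := by
      refine tsum_congr fun m => ?_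
      rw [hc'0 (m + (D + 1)) (by omega), zero_sub, norm_neg]
    have hhead : ∑ m ∈ Finset.range (D + 1), ρ' ^ m * ‖c' m - c m‖ ≤ (1 / 2 : ℝ) ^ D := by
      have h3 : ∀ m ∈ Finset.range (D + 1), ρ' ^ m * ‖c' m - c m‖ ≤
          ρ' ^ D * (1 / ((D : ℝ) + 1) ^ (D + 1)) := by
        intro m hm
        have hm' : m ≤ D := by simpa [Nat.lt_succ_iff] using hm
        have := (hc'c m hm').le
        gcongr
      refine (Finset.sum_le_sum h3).trans ?_
      rw [Finset.sum_const, Finset.card_range, nsmul_eq_mul]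
      have h4 : ((D + 1 : ℕ) : ℝ) * (ρ' ^ D * (1 / ((D : ℝ) + 1) ^ (D + 1))) =
          (ρ' / ((D : ℝ) + 1)) ^ D := by
        push_cast
        rw [div_pow]
        field_simp
        ring
      rw [h4]
      refine pow_le_pow_left₀ (by positivity) ?_ D
      rw [div_le_div_iff₀ (by positivity) (by norm_num)]
      linarith
    have hn : ‖ser c' z - f (w + a * z)‖ ≤ ∑' m, ρ' ^ m * ‖c' m - c m‖ :=
      hdiff.tsum_eq ▸ tsum_of_norm_bounded hsplit.hasSum hnb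
    rw [← hsplit.sum_add_tsum_nat_add (D + 1), htail] at hn
    linarith

end Pool.Agent.R871.SG
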