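import Mathlib

/-!
Irreducible affine varieties over the complex numbers are not countable unions of proper closed
subsets, and large balls meet them in Zariski dense subsets.
-/

set_option autoImplicit false

namespace Pool.Agent.R871.SG

open MvPolynomial

/-- A field which is an algebra of countable dimension over the complex numbers is `ℂ`. -/
theorem surj_of_rank {L : Type} [Field L] [Algebra ℂ L] (h : Module.rank ℂ L ≤ Cardinal.aleph0) :
    Function.Surjective (algebraMap ℂ L) := by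
  have halg : Algebra.IsAlgebraic ℂ L := by
    refine ⟨fun x => ?_⟩
    by_contra hx
    have h1 := (show Transcendental ℂ x from hx).linearIndependent_sub_inv.cardinal_le_rank
    rw [Cardinal.mk_complex] at h1
    exact absurd (h1.trans h) (not_le.2 Cardinal.aleph0_lt_continuum)
  have hint : Algebra.IsIntegral ℂ L := inferInstance
  exact (IsAlgClosed.algebraMap_bijective_of_isIntegral (k := ℂ) (K := L)).2

theorem exists_point {p : ℕ} (I : Ideal (MvPolynomial (Fin p) ℂ)) [hI : I.IsPrime]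
    (F : ℕ → MvPolynomial (Fin p) ℂ) (hF : ∀ k, F k ∉ I) :
    ∃ y : Fin p → ℂ, (∀ g ∈ I, eval y g = 0) ∧ ∀ k, eval y (F k) ≠ 0 := by
  set A := MvPolynomial (Fin p) ℂ ⧸ I with hA
  set K := FractionRing A with hK
  set u : Fin p ⊕ ℕ → K := Sum.elim (fun i => algebraMap A K (Ideal.Quotient.mk I (X i)))
    fun k => (algebraMap A K (Ideal.Quotient.mk I (F k)))⁻¹ with hu
  set ρ : MvPolynomial (Fin p ⊕ ℕ) ℂ →ₐ[ℂ] K := aeval u with hρ
  have hinl : ∀ g : MvPolynomial (Fin p) ℂ, ρ (rename Sum.inl g) =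
      algebraMap A K (Ideal.Quotient.mk I g) := by
    intro g
    rw [hρ, aeval_rename]
    have h1 : (u ∘ Sum.inl) = fun i => algebraMap A K (Ideal.Quotient.mk I (X i)) := rfl
    rw [h1]
    have h2 : (aeval fun i => algebraMap A K (Ideal.Quotient.mk I (X i)) :
        MvPolynomial (Fin p) ℂ →ₐ[ℂ] K) =
        (IsScalarTower.toAlgHom ℂ A K).comp (Ideal.Quotient.mkₐ ℂ I) := by
      apply algHom_ext
      intro i
      simp
      rfl
    rw [h2]
    rfl
  have hker : RingHom.ker ρ ≠ ⊤ := RingHom.ker_ne_top _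
  obtain ⟨m, hm, hle⟩ := Ideal.exists_le_maximal _ hker
  let _ : Field (MvPolynomial (Fin p ⊕ ℕ) ℂ ⧸ m) := Ideal.Quotient.field m
  have hrank : Module.rank ℂ (MvPolynomial (Fin p ⊕ ℕ) ℂ ⧸ m) ≤ Cardinal.aleph0 := by
    have h1 : Module.rank ℂ (MvPolynomial (Fin p ⊕ ℕ) ℂ ⧸ m) ≤
        Module.rank ℂ (MvPolynomial (Fin p ⊕ ℕ) ℂ) :=
      LinearMap.rank_le_of_surjective (Ideal.Quotient.mkₐ ℂ m).toLinearMap
        (Ideal.Quotient.mkₐ_surjective ℂ m)
    refine h1.trans ?_
    rw [← (basisMonomials (Fin p ⊕ ℕ) ℂ).mk_eq_rank'']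
    exact Cardinal.mk_le_aleph0
  have hsurj := surj_of_rank hrank
  choose c hc using hsurj
  set y : Fin p → ℂ := fun i => c (Ideal.Quotient.mk m (X (Sum.inl i))) with hy
  have hval : ∀ g : MvPolynomial (Fin p) ℂ,
      algebraMap ℂ (MvPolynomial (Fin p ⊕ ℕ) ℂ ⧸ m) (eval y g) =
        Ideal.Quotient.mk m (rename Sum.inl g) := by
    intro g
    have h2 : (Algebra.ofId ℂ (MvPolynomial (Fin p ⊕ ℕ) ℂ ⧸ m)).comp (aeval y) =
        (Ideal.Quotient.mkₐ ℂ m).comp (rename Sum.inl) := by
      apply algHom_ext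
      intro i
      simp only [AlgHom.comp_apply, aeval_X, rename_X]
      exact hc _
    have h3 := congrArg (fun q => q g) h2
    simp only [AlgHom.comp_apply] at h3
    rw [aeval_eq_eval] at h3
    exact h3
  refine ⟨y, fun g hg => ?_, fun k h0 => ?_⟩
  · have h1 : rename Sum.inl g ∈ RingHom.ker ρ := by
      rw [RingHom.mem_ker, hinl, Ideal.Quotient.eq_zero_iff_mem.2 hg, map_zero]
    have h2 := hval g
    rw [Ideal.Quotient.eq_zero_iff_mem.2 (hle h1)] at h2
    exact (map_eq_zero _).1 h2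
  · have h1 : rename Sum.inl (F k) * X (Sum.inr k) - 1 ∈ RingHom.ker ρ := by
      rw [RingHom.mem_ker, map_sub, map_mul, hinl, map_one]
      have h3 : ρ (X (Sum.inr k)) = (algebraMap A K (Ideal.Quotient.mk I (F k)))⁻¹ := by
        rw [hρ, aeval_X]
        rfl
      have h4 : algebraMap A K (Ideal.Quotient.mk I (F k)) ≠ 0 := by
        intro h5
        apply hF k
        rw [← Ideal.Quotient.eq_zero_iff_mem]
        exact (map_eq_zero_iff _ (IsFractionRing.injective A K)).1 h5
      rw [h3, mul_inv_cancel₀ h4, sub_self]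
    have h2 := hval (F k)
    rw [h0, map_zero] at h2
    have h3 := Ideal.Quotient.eq_zero_iff_mem.2 (hle h1)
    rw [map_sub, map_mul, ← h2, zero_mul, map_one, zero_sub, neg_eq_zero] at h3
    exact one_ne_zero h3

/-- For an irreducible affine variety there is a ball such that all polynomials which vanish on the
part of the variety in the ball vanish on the whole variety. -/
theorem exists_radius {p : ℕ} (I : Ideal (MvPolynomial (Fin p) ℂ)) [hI : I.IsPrime] :
    ∃ R : ℝ, 0 ≤ R ∧ ∀ g : MvPolynomial (Fin p) ℂ,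
      (∀ y : Fin p → ℂ, (∀ f ∈ I, eval y f = 0) → ‖y‖ ≤ R → eval y g = 0) →
      ∀ y : Fin p → ℂ, (∀ f ∈ I, eval y f = 0) → eval y g = 0 := by
  by_contra hcon
  push Not at hcon
  choose F hF1 y0 hy0 hy1 using fun k : ℕ => hcon (k : ℝ) k.cast_nonneg
  obtain ⟨y, hy, hyk⟩ := exists_point I F fun k hk => hy1 k (hy0 k _ hk)
  obtain ⟨k, hk⟩ := exists_nat_ge ‖y‖
  exact hyk k (hF1 k y hy hk)

end Pool.Agent.R871.SG
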