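import Pool.Agent.R871.SG.MvA
import Pool.Agent.R871.SG.Aff

/-!
Entire maps of several variables and slow growth: approximation by polynomial maps, and the rank.
-/

set_option autoImplicit false

namespace Pool.Agent.R871.SG

open Filter Topology Metric Set MvPolynomial

section growth

variable {E : Type} [NormedAddCommGroup E]

/-- For arbitrarily large `r`, `log ‖f z‖ ≤ φ r` on the polydisc of radius `r`. -/
def SlowM {p : ℕ} (φ : ℝ → ℝ) (f : (Fin p → ℂ) → E) : Prop :=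
  ∀ R : ℝ, ∃ r > R, ∀ z, ‖z‖ ≤ r → Real.log ‖f z‖ ≤ φ r

theorem growthM (δ : ℕ → ℝ) (hδ : ∀ D, 0 < δ D) : ∃ φ : ℝ → ℝ, Grows φ ∧
    ∀ {p : ℕ} {E : Type} [NormedAddCommGroup E] (f : (Fin p → ℂ) → E) (c : (Fin p → ℕ) → E),
      (∀ r C : ℝ, 0 < r → (∀ z, ‖z‖ ≤ r → ‖f z‖ ≤ C) → ∀ α, ‖c α‖ ≤ C / r ^ ord α) →
      SlowM φ f → ∀ (A : ℝ) (D₀ : ℕ), 0 ≤ A → ∃ D ≥ D₀,
        ∀ α, D < ord α → A ^ ord α * ‖c α‖ ≤ δ D := by
  obtain ⟨ρ, hρ⟩ : ∃ ρ : ℕ → ℝ, ∀ D : ℕ, (D : ℝ) + 2 ≤ ρ D ∧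
      ((D : ℝ) ^ (D + 1) / δ D) ^ 2 ≤ ρ D :=
    ⟨fun D => max ((D : ℝ) + 2) (((D : ℝ) ^ (D + 1) / δ D) ^ 2), fun D =>
      ⟨le_max_left _ _, le_max_right _ _⟩⟩
  classical
  set N : ℝ → ℕ := fun r => Nat.findGreatest (fun D => ρ D ≤ r) ⌊r⌋₊ with hN
  have hNlim : ∀ D : ℕ, ∀ r, ρ D ≤ r → D ≤ N r ∧ ρ (N r) ≤ r := by
    intro D r hr
    have hD : D ≤ ⌊r⌋₊ := Nat.le_floor (by
      have := (hρ D).1
      have h0 : (0 : ℝ) ≤ D := D.cast_nonneg
      linarith)
    exact ⟨Nat.le_findGreatest hD hr, Nat.findGreatest_spec (P := fun D => ρ D ≤ r) hD hr⟩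
  refine ⟨fun r => (N r + 1 / 2) * Real.log r, ?_, ?_⟩
  · have h1 : Tendsto (fun r => ((N r : ℝ) + 1 / 2)) atTop atTop := by
      refine tendsto_atTop_mono (f := fun r => (N r : ℝ)) (fun r => by linarith) ?_
      refine tendsto_natCast_atTop_atTop.comp ?_
      refine tendsto_atTop.2 fun D => ?_
      filter_upwards [eventually_ge_atTop (ρ D)] with r hr using (hNlim D r hr).1
    refine h1.congr' ?_
    filter_upwards [eventually_gt_atTop (1 : ℝ)] with r hr
    have := Real.log_pos hr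
    field_simp
  · intro p E _ f c hc hs A D₀ hA
    obtain ⟨r, hr, hfr⟩ := hs (max (ρ (max D₀ ⌈A⌉₊)) 2)
    have hr1 : ρ (max D₀ ⌈A⌉₊) ≤ r := (le_max_left _ _).trans hr.le
    have hr2 : 2 ≤ r := (le_max_right _ _).trans hr.le
    obtain ⟨hD1, hD2⟩ := hNlim _ _ hr1
    set D := N r with hDdef
    have hr0 : 0 < r := by linarith
    refine ⟨D, (le_max_left _ _).trans hD1, fun α hm => ?_⟩
    have hAD : A ≤ D := (Nat.le_ceil A).trans (by exact_mod_cast (le_max_right _ _).trans hD1)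
    have hDr2 : (D : ℝ) ≤ r := by have := (hρ D).1; linarith
    have hC : ∀ z, ‖z‖ ≤ r → ‖f z‖ ≤ Real.exp (((D : ℝ) + 1 / 2) * Real.log r) := by
      intro z h2
      rcases eq_or_lt_of_le (norm_nonneg (f z)) with h4 | h4
      · rw [← h4]; positivity
      · exact (Real.log_le_iff_le_exp h4).1 (hfr z h2)
    have h5 := hc r _ hr0 hC α
    have hs0 : 0 < Real.sqrt r := Real.sqrt_pos.2 hr0
    have h7 : Real.exp (((D : ℝ) + 1 / 2) * Real.log r) = r ^ D * Real.sqrt r := by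
      rw [add_mul, Real.exp_add, mul_comm (D : ℝ), Real.exp_mul, Real.exp_log hr0,
        Real.rpow_natCast, mul_comm (1 / 2 : ℝ), Real.exp_mul, Real.exp_log hr0,
        Real.sqrt_eq_rpow]
    have hss : Real.sqrt r * Real.sqrt r = r := Real.mul_self_sqrt hr0.le
    have h6 : A ^ ord α * (Real.exp (((D : ℝ) + 1 / 2) * Real.log r) / r ^ ord α) ≤
        (D : ℝ) ^ (D + 1) / Real.sqrt r := by
      rw [h7]
      have e1 : A ^ ord α * (r ^ D * Real.sqrt r / r ^ ord α) =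
          (A / r) ^ ord α * (r ^ D * Real.sqrt r) := by
        rw [div_pow]
        field_simp
      rw [e1]
      have h8 : (A / r) ^ ord α ≤ (A / r) ^ (D + 1) := by
        refine pow_le_pow_of_le_one (by positivity) ?_ hm
        rw [div_le_one hr0]
        linarith
      calc (A / r) ^ ord α * (r ^ D * Real.sqrt r) ≤ (A / r) ^ (D + 1) * (r ^ D * Real.sqrt r) := by
            gcongr
        _ ≤ (D / r) ^ (D + 1) * (r ^ D * Real.sqrt r) := by gcongr
        _ = (D : ℝ) ^ (D + 1) / Real.sqrt r := by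
          rw [div_pow, eq_div_iff hs0.ne', pow_succ r D]
          field_simp
          rw [sq, hss]
    have hDr : (D : ℝ) ^ (D + 1) / δ D ≤ Real.sqrt r :=
      Real.le_sqrt_of_sq_le ((hρ D).2.trans hD2)
    have h9 : (D : ℝ) ^ (D + 1) / Real.sqrt r ≤ δ D := by
      rw [div_le_iff₀ (hδ D)] at hDr
      rw [div_le_iff₀ hs0]
      linarith
    calc A ^ ord α * ‖c α‖
        ≤ A ^ ord α * (Real.exp (((D : ℝ) + 1 / 2) * Real.log r) / r ^ ord α) := by gcongr
      _ ≤ _ := h6.trans h9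

end growth

variable {σ : Type} [Fintype σ] {ι κ : Type} {p : ℕ}

/-- The values of polynomials in several variables. -/
noncomputable def mv (P : σ → MvPolynomial (Fin p) ℂ) (z : Fin p → ℂ) : σ → ℂ :=
  fun j => eval z (P j)

theorem mv_analytic (P : σ → MvPolynomial (Fin p) ℂ) : AnalyticOnNhd ℂ (mv P) univ := by
  intro z _
  refine analyticAt_pi_iff.2 fun j => ?_
  simp only [mv]
  induction P j using MvPolynomial.induction_on with
  | C a => simpa using analyticAt_const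
  | add p q hp hq => simpa only [map_add] using hp.fun_add hq
  | mul_X p i hp =>
    simp only [map_mul, eval_X]
    exact hp.fun_mul ((ContinuousLinearMap.proj (R := ℂ) (φ := fun _ : Fin _ => ℂ) i).analyticAt z)

theorem mv_slow {φ : ℝ → ℝ} (hφ : Grows φ) (P : σ → MvPolynomial (Fin p) ℂ) :
    SlowM φ (mv P) := by
  have h1 : ∀ j, ∃ C : ℝ, 0 ≤ C ∧ ∀ r : ℝ, 1 ≤ r → ∀ z : Fin p → ℂ, ‖z‖ ≤ r →
      ‖eval z (P j)‖ ≤ C * r ^ (P j).totalDegree := by
    intro j
    refine ⟨∑ α ∈ (P j).support, ‖(P j).coeff α‖, by positivity, fun r hr z hz => ?_⟩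
    rw [eval_eq, Finset.sum_mul]
    refine (norm_sum_le _ _).trans (Finset.sum_le_sum fun α hα => ?_)
    rw [norm_mul, norm_prod]
    refine mul_le_mul_of_nonneg_left ?_ (norm_nonneg _)
    have h2 : ∏ i ∈ α.support, ‖z i ^ α i‖ ≤ ∏ i ∈ α.support, r ^ α i := by
      refine Finset.prod_le_prod (fun i _ => norm_nonneg _) fun i _ => ?_
      rw [norm_pow]
      exact pow_le_pow_left₀ (norm_nonneg _) ((norm_le_pi_norm z i).trans hz) _
    refine h2.trans ?_
    rw [Finset.prod_pow_eq_pow_sum]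
    exact pow_le_pow_right₀ hr (le_totalDegree hα)
  choose A hA hAb using h1
  set d : ℕ := ∑ j, (P j).totalDegree with hd
  have hC0 : 0 ≤ ∑ j, A j := Finset.sum_nonneg fun j _ => hA j
  have hb : ∀ r : ℝ, 1 ≤ r → ∀ z : Fin p → ℂ, ‖z‖ ≤ r → ‖mv P z‖ ≤ (∑ j, A j) * r ^ d := by
    intro r hr z hz2
    refine (pi_norm_le_iff_of_nonneg (by positivity)).2 fun j => ?_
    refine (hAb j r hr z hz2).trans
      (mul_le_mul (Finset.single_le_sum (f := A) (fun j _ => hA j) (Finset.mem_univ j))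
        (pow_le_pow_right₀ hr ?_) (by positivity) hC0)
    exact Finset.single_le_sum (f := fun j => (P j).totalDegree) (fun j _ => Nat.zero_le _)
      (Finset.mem_univ j)
  intro R
  have h5 : ∀ᶠ r in atTop, ((d : ℝ) + 1) ≤ φ r / Real.log r := hφ.eventually_ge_atTop _
  obtain ⟨r, hr1, hr2, hr3, hr4⟩ := (h5.and ((eventually_gt_atTop R).and
    ((eventually_ge_atTop (∑ j, A j)).and (eventually_gt_atTop (1 : ℝ))))).exists
  refine ⟨r, hr2, fun z hz => ?_⟩
  have hlog : 0 < Real.log r := Real.log_pos hr4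
  rw [le_div_iff₀ hlog] at hr1
  refine le_trans ?_ hr1
  rcases eq_or_lt_of_le (norm_nonneg (mv P z)) with h6 | h6
  · rw [← h6, Real.log_zero]
    positivity
  · rw [Real.log_le_iff_le_exp h6]
    refine (hb r hr4.le z hz).trans ?_
    have h7 : Real.exp (((d : ℝ) + 1) * Real.log r) = r ^ d * r := by
      rw [add_mul, Real.exp_add, mul_comm (d : ℝ), Real.exp_mul, Real.exp_log (by linarith),
        Real.rpow_natCast, one_mul, Real.exp_log (by linarith)]
    rw [h7, mul_comm]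
    gcongr

/-- The polynomials with the coefficients `c`. -/
noncomputable def mpol (c : (Fin p → ℕ) → σ → ℂ) (D : ℕ) (j : σ) : MvPolynomial (Fin p) ℂ :=
  ∑ α ∈ (ord_fin p D).toFinset, MvPolynomial.C (c α j) * ∏ i, MvPolynomial.X i ^ α i

omit [Fintype σ] in
theorem mpol_eval {c : (Fin p → ℕ) → σ → ℂ} {D : ℕ} (h : ∀ α, D < ord α → c α = 0)
    (z : Fin p → ℂ) : HasSum (fun α => mon z α • c α) (mv (mpol c D) z) := by
  have h1 : mv (mpol c D) z = ∑ α ∈ (ord_fin p D).toFinset, mon z α • c α := by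
    ext j
    simp only [mv, mpol, map_sum, map_mul, eval_C, map_prod, map_pow, eval_X, Finset.sum_apply,
      Pi.smul_apply, smul_eq_mul, mon]
    exact Finset.sum_congr rfl fun α _ => mul_comm _ _
  rw [h1]
  refine hasSum_sum_of_ne_finset_zero fun α hα => ?_
  rw [h α, smul_zero]
  simpa using hα

/-- **Entire maps of slow growth are limits of polynomial maps.** -/
theorem approx_mv (p : ℕ) (F : ι → MvPolynomial σ ℂ) : ∃ φ : ℝ → ℝ, Grows φ ∧
    ∀ f : (Fin p → ℂ) → σ → ℂ, AnalyticOnNhd ℂ f univ → (∀ z i, eval (f z) (F i) = 0) →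
      SlowM φ f → ∀ ρ η : ℝ, 0 ≤ ρ → 0 < η → ∃ P : σ → MvPolynomial (Fin p) ℂ,
        (∀ z i, eval (mv P z) (F i) = 0) ∧ ∀ z, ‖z‖ ≤ ρ → ‖mv P z - f z‖ ≤ η := by
  set e : closedBall (0 : Fin p → ℂ) 2 → (Fin p → ℕ) → ℂ := fun z α => mon z.1 α with he
  obtain ⟨δ, hδ, hap⟩ := approx_gen (E := σ → ℂ) (fun α : Fin p → ℕ => ord α) (ord_fin p)
    (ord_summable p) (fun _ => univ) (fun _ => isClosed_univ) e
    (fun t α => mon_le (mem_closedBall_zero_iff.1 t.2) α) (fun _ => {x | ∀ i, eval x (F i) = 0}) (fun t => by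
      have : {x : σ → ℂ | ∀ i, eval x (F i) = 0} = ⋂ i, {x | eval x (F i) = 0} := by
        ext x; simp
      rw [this]
      exact isClosed_iInter fun i => isClosed_eq (cont_ev (F i)) continuous_const)
  obtain ⟨φ, hφ, hgr⟩ := growthM δ hδ
  refine ⟨φ, hφ, fun f hf hfF hs ρ η hρ hη => ?_⟩
  obtain ⟨c, hc1, hc2⟩ := expansion p f hf
  have hcb : ∀ r : ℝ, 0 < r → ∃ C, ∀ α, ‖c α‖ ≤ C / r ^ ord α := by
    intro r hr
    have hcont : Continuous f := continuous_iff_continuousAt.2 fun y =>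
      (hf y (mem_univ y)).continuousAt
    obtain ⟨C, hC⟩ := (isCompact_closedBall (0 : Fin p → ℂ) r).exists_bound_of_continuousOn
      hcont.continuousOn
    exact ⟨C, hc2 r C hr fun y hy => hC y (by simpa using hy)⟩
  obtain ⟨c', D, hc'0, -, hc'C, hc's, hc'η⟩ := hap c (fun _ => mem_univ _) (fun t => by
      have h1 : ∑' α, e t α • c α = f t := (hc1 t.1).tsum_eq
      rw [h1]
      exact fun i => hfF _ i)
    (fun A hA => cauchy_summable hcb hA)
    (fun D₀ => hgr f c hc2 hs 4 D₀ (by norm_num)) ρ η hρ hη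
  refine ⟨mpol c' D, fun z i => ?_, fun z hz => ?_⟩
  · -- along the line through the origin
    have h1 : ∀ y : Fin p → ℂ, ‖y‖ ≤ 2 → eval (mv (mpol c' D) y) (F i) = 0 := by
      intro y hy
      have h2 := hc'C ⟨y, by simpa using hy⟩ i
      have h3 : ∑' α, e ⟨y, by simpa using hy⟩ α • c' α = mv (mpol c' D) y :=
        (mpol_eval hc'0 y).tsum_eq
      rwa [h3] at h2
    have h4 : Differentiable ℂ fun t : ℂ => mv (mpol c' D) (t • z) := by
      intro t
      have h5 : DifferentiableAt ℂ (fun t : ℂ => t • z) t := by fun_prop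
      exact ((mv_analytic (mpol c' D)) _ (mem_univ _)).differentiableAt.comp t h5
    have h6 := zero_ball (h := fun t => eval (mv (mpol c' D) (t • z)) (F i)) (diff_ev h4 (F i))
      (w := 0) (r := 1 / (‖z‖ + 1)) (by positivity) (fun t ht => h1 _ (by
        rw [sub_zero] at ht
        rw [norm_smul]
        have h7 : ‖t‖ * (‖z‖ + 1) < 1 := by
          rwa [lt_div_iff₀ (by positivity)] at ht
        nlinarith [norm_nonneg t])) 1
    simpa using h6
  · have h1 := (mpol_eval hc'0 z).sub (hc1 z)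
    have hb : ∀ α, ‖mon z α • c' α - mon z α • c α‖ ≤ ρ ^ ord α * ‖c' α - c α‖ := by
      intro α
      rw [← smul_sub, norm_smul]
      exact mul_le_mul_of_nonneg_right (mon_le hz α) (norm_nonneg _)
    exact (h1.tsum_eq ▸ tsum_of_norm_bounded hc's.hasSum hb).trans hc'η

/-- At `z`, the vector `f z` and `q` directional derivatives of `f` are linearly independent; so, as a
map to the projective space, `f` has rank at least `q` at `z`. -/
def Rk (f : (Fin p → ℂ) → σ → ℂ) (z : Fin p → ℂ) (q : ℕ) : Prop :=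
  ∃ v : Fin q → Fin p → ℂ,
    LinearIndependent ℂ (Fin.cons (f z) (fun i => fderiv ℂ f z (v i)) : Fin (q + 1) → σ → ℂ)

theorem fderiv_small {u : (Fin p → ℂ) → σ → ℂ} (hu : AnalyticOnNhd ℂ u univ) {z : Fin p → ℂ}
    {η : ℝ} (h : ∀ y, ‖y‖ ≤ ‖z‖ + 1 → ‖u y‖ ≤ η) (v : Fin p → ℂ) :
    ‖fderiv ℂ u z v‖ ≤ η * (‖v‖ + 1) := by
  have h1 : HasDerivAt (fun t : ℂ => z + t • v) v 0 := by
    have := ((hasDerivAt_id (0 : ℂ)).smul_const v).const_add z
    simpa using this
  have h2 : HasDerivAt (fun t : ℂ => u (z + t • v)) (fderiv ℂ u z v) 0 := by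
    have h3 := (hu (z + (0 : ℂ) • v) (mem_univ _)).differentiableAt.hasFDerivAt.comp_hasDerivAt 0 h1
    rw [zero_smul, add_zero] at h3
    exact h3
  have h4 : Differentiable ℂ fun t : ℂ => u (z + t • v) := by
    intro t
    have h5 : DifferentiableAt ℂ (fun t : ℂ => z + t • v) t := by fun_prop
    exact (hu _ (mem_univ _)).differentiableAt.comp t h5
  have h6 := Complex.norm_deriv_le_of_forall_mem_sphere_norm_le (c := (0 : ℂ))
    (R := 1 / (‖v‖ + 1)) (C := η) (f := fun t : ℂ => u (z + t • v)) (by positivity)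
    h4.diffContOnCl (fun t ht => h _ (by
      rw [mem_sphere_zero_iff_norm] at ht
      refine (norm_add_le _ _).trans ?_
      rw [norm_smul, ht]
      have : 1 / (‖v‖ + 1) * ‖v‖ ≤ 1 := by
        rw [one_div, inv_mul_le_iff₀ (by positivity)]
        linarith
      linarith))
  rw [h2.deriv] at h6
  calc ‖fderiv ℂ u z v‖ ≤ η / (1 / (‖v‖ + 1)) := h6
    _ = η * (‖v‖ + 1) := by rw [one_div, div_inv_eq_mul]

/-- **Dominating maps of slow growth.** -/
theorem rank_iff (p : ℕ) (F : ι → MvPolynomial σ ℂ) : ∃ φ : ℝ → ℝ, Grows φ ∧ ∀ q : ℕ,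
    (∃ P : σ → MvPolynomial (Fin p) ℂ, (∀ z i, eval (mv P z) (F i) = 0) ∧ ∃ z, Rk (mv P) z q) ↔
    ∃ f : (Fin p → ℂ) → σ → ℂ, AnalyticOnNhd ℂ f univ ∧ (∀ z i, eval (f z) (F i) = 0) ∧
      SlowM φ f ∧ ∃ z, Rk f z q := by
  obtain ⟨φ, hφ, h⟩ := approx_mv p F
  refine ⟨φ, hφ, fun q => ⟨?_, ?_⟩⟩
  · rintro ⟨P, hP, hr⟩
    exact ⟨mv P, mv_analytic P, hP, mv_slow hφ P, hr⟩
  · rintro ⟨f, hf, hfF, hs, z, v, hv⟩
    have ho : IsOpen {g : Fin (q + 1) → σ → ℂ | LinearIndependent ℂ g} :=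
      isOpen_setOfPred_linearIndependent
    obtain ⟨ε, hε, hball⟩ := Metric.isOpen_iff.1 ho _ hv
    set M : ℝ := ∑ i, ‖v i‖ + 1 with hM
    have hM1 : 1 ≤ M := by
      have : 0 ≤ ∑ i, ‖v i‖ := Finset.sum_nonneg fun i _ => norm_nonneg _
      linarith
    have hMi : ∀ i, ‖v i‖ + 1 ≤ M := fun i => by
      have := Finset.single_le_sum (f := fun i => ‖v i‖) (fun i _ => norm_nonneg _)
        (Finset.mem_univ i)
      linarith
    obtain ⟨P, hP, hPc⟩ := h f hf hfF hs (‖z‖ + 1) (ε / 2 / M) (by positivity) (by positivity)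
    refine ⟨P, hP, z, v, hball ?_⟩
    have hu : AnalyticOnNhd ℂ (fun y => mv P y - f y) univ := fun y hy =>
      (mv_analytic P y hy).fun_sub (hf y hy)
    have hd : ∀ i, fderiv ℂ (fun y => mv P y - f y) z (v i) =
        fderiv ℂ (mv P) z (v i) - fderiv ℂ f z (v i) := by
      intro i
      rw [fderiv_fun_sub (mv_analytic P z (mem_univ _)).differentiableAt
        (hf z (mem_univ _)).differentiableAt]
      rfl
    rw [mem_ball, dist_eq_norm]
    refine lt_of_le_of_lt ((pi_norm_le_iff_of_nonneg (by positivity)).2 fun i => ?_)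
      (half_lt_self hε)
    refine Fin.cases ?_ (fun j => ?_) i
    · simp only [Pi.sub_apply, Fin.cons_zero]
      refine (hPc z (by linarith)).trans ?_
      exact div_le_self (by positivity) hM1
    · simp only [Pi.sub_apply, Fin.cons_succ]
      rw [← hd]
      refine (fderiv_small hu (fun y hy => hPc y hy) (v j)).trans ?_
      calc ε / 2 / M * (‖v j‖ + 1) ≤ ε / 2 / M * M := by gcongr; exact hMi j
        _ = ε / 2 := by field_simp

end Pool.Agent.R871.SG
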