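import Pool.Agent.R871.SG.AlgA
import Pool.Agent.R871.SG.MvB

/-!
Holomorphic maps of slow growth from an affine variety to an affine variety are limits of algebraic
maps.
-/

set_option autoImplicit false

namespace Pool.Agent.R871.SG

open Filter Topology Metric Set MvPolynomial

/-- The zeros of the ideal `I`. -/
def zset {p : ℕ} (I : Ideal (MvPolynomial (Fin p) ℂ)) : Set (Fin p → ℂ) :=
  {z | ∀ g ∈ I, eval z g = 0}

variable {σ : Type} [Fintype σ] {ι κ : Type} {p : ℕ}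

omit [Fintype σ] in
theorem eval_bind (P : σ → MvPolynomial (Fin p) ℂ) (G : MvPolynomial σ ℂ) (z : Fin p → ℂ) :
    eval z (bind₁ P G) = eval (mv P z) G := by
  have h1 := aeval_bind₁ (R := ℂ) (S := ℂ) z P G
  rw [aeval_eq_eval] at h1
  rw [h1, aeval_eq_eval]
  rfl

/-- **Holomorphic maps of slow growth from affine varieties are limits of algebraic maps.** -/
theorem approx_var (I : Ideal (MvPolynomial (Fin p) ℂ)) [I.IsPrime] (F : ι → MvPolynomial σ ℂ)
    (y0 : Fin p → ℂ) {K : Set (σ → ℂ)} (hK : IsClosed K) : ∃ φ : ℝ → ℝ, Grows φ ∧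
    ∀ f : (Fin p → ℂ) → σ → ℂ, AnalyticOnNhd ℂ f univ →
      (∀ z ∈ zset I, ∀ i, eval (f z) (F i) = 0) → f y0 ∈ K →
      SlowM φ f → ∀ ρ η : ℝ, 0 ≤ ρ → 0 < η → ∃ P : σ → MvPolynomial (Fin p) ℂ,
        (∀ z ∈ zset I, ∀ i, eval (mv P z) (F i) = 0) ∧ mv P y0 ∈ K ∧
          ∀ z, ‖z‖ ≤ ρ → ‖mv P z - f z‖ ≤ η := by
  obtain ⟨R0, hR0, hrad⟩ := exists_radius I
  set R : ℝ := max (max R0 ‖y0‖) 1 with hR
  have hR1 : 1 ≤ R := le_max_right _ _
  have hRp : 0 < R := one_pos.trans_le hR1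
  have hRC : (R : ℂ) ≠ 0 := by exact_mod_cast hRp.ne'
  set pt : {z : Fin p → ℂ // z ∈ zset I ∧ ‖z‖ ≤ R} ⊕ Unit → (Fin p → ℂ) :=
    Sum.elim (fun z => z.1) fun _ => y0 with hpt
  have hptR : ∀ t, ‖pt t‖ ≤ R := by
    rintro (z | _)
    · exact z.2.2
    · exact (le_max_right _ _).trans (le_max_left _ _)
  set e : ({z : Fin p → ℂ // z ∈ zset I ∧ ‖z‖ ≤ R} ⊕ Unit) → (Fin p → ℕ) → ℂ := fun t α =>
    mon (pt t) α / (R : ℂ) ^ ord α with he
  have hclX : IsClosed {x : σ → ℂ | ∀ i, eval x (F i) = 0} := by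
    have : {x : σ → ℂ | ∀ i, eval x (F i) = 0} = ⋂ i, {x | eval x (F i) = 0} := by
      ext x; simp
    rw [this]
    exact isClosed_iInter fun i => isClosed_eq (cont_ev (F i)) continuous_const
  have heb : ∀ t α, ‖e t α‖ ≤ 2 ^ ord α := by
    intro t α
    rw [he]
    simp only
    rw [norm_div, norm_pow, Complex.norm_real, Real.norm_of_nonneg hRp.le]
    have h1 : ‖mon (pt t) α‖ / R ^ ord α ≤ 1 :=
      (div_le_one (by positivity)).2 (mon_le (hptR t) α)
    exact h1.trans (one_le_pow₀ (by norm_num))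
  obtain ⟨δ, hδ, hap⟩ := approx_gen (E := σ → ℂ) (fun α : Fin p → ℕ => ord α) (ord_fin p)
    (ord_summable p) (fun _ => univ) (fun _ => isClosed_univ) e heb
    (Sum.elim (fun _ => {x | ∀ i, eval x (F i) = 0}) fun _ => K) (by
      rintro (t | t)
      · exact hclX
      · exact hK)
  obtain ⟨φ, hφ, hgr⟩ := growthM δ hδ
  refine ⟨φ, hφ, fun f hf hfF hfK hs ρ η hρ hη => ?_⟩
  obtain ⟨c, hc1, hc2⟩ := expansion p f hf
  have hcb : ∀ r : ℝ, 0 < r → ∃ C, ∀ α, ‖c α‖ ≤ C / r ^ ord α := by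
    intro r hr
    have hcont : Continuous f := continuous_iff_continuousAt.2 fun y =>
      (hf y (mem_univ y)).continuousAt
    obtain ⟨C, hC⟩ := (isCompact_closedBall (0 : Fin p → ℂ) r).exists_bound_of_continuousOn
      hcont.continuousOn
    exact ⟨C, hc2 r C hr fun y hy => hC y (by simpa using hy)⟩
  -- rescaled coefficients
  set b : (Fin p → ℕ) → σ → ℂ := fun α => ((R : ℂ) ^ ord α) • c α with hb
  have hbn : ∀ α, ‖b α‖ = R ^ ord α * ‖c α‖ := fun α => by
    rw [hb]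
    simp only
    rw [norm_smul, norm_pow, Complex.norm_real, Real.norm_of_nonneg hRp.le]
  have heb' : ∀ (t) (d : (Fin p → ℕ) → σ → ℂ) (α : Fin p → ℕ),
      e t α • (((R : ℂ) ^ ord α) • d α) = mon (pt t) α • d α := by
    intro t d α
    rw [smul_smul, he]
    simp only
    rw [div_mul_cancel₀ _ (pow_ne_zero _ hRC)]
  obtain ⟨b', D, hb'0, -, hb'C, hb's, hb'η⟩ := hap b (fun _ => mem_univ _) (fun t => by
      have h1 : ∑' α, e t α • b α = f (pt t) := by
        rw [← (hc1 (pt t)).tsum_eq]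
        exact tsum_congr fun α => heb' t c α
      rw [h1]
      rcases t with t | t
      · exact fun i => hfF _ t.2.1 i
      · exact hfK)
    (fun A hA => by
      refine (cauchy_summable hcb (A := A * R) (by positivity)).congr fun α => ?_
      rw [hbn, mul_pow]
      ring)
    (fun D₀ => by
      obtain ⟨D, hD, h⟩ := hgr f c hc2 hs (4 * R) D₀ (by positivity)
      refine ⟨D, hD, fun α hα => ?_⟩
      rw [hbn, ← mul_assoc, ← mul_pow]
      exact h α hα) ρ η hρ hη
  set c' : (Fin p → ℕ) → σ → ℂ := fun α => (((R : ℂ) ^ ord α)⁻¹) • b' α with hc'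
  have hbc : ∀ α, b' α = ((R : ℂ) ^ ord α) • c' α := fun α => by
    rw [hc']
    simp only
    rw [smul_smul, mul_inv_cancel₀ (pow_ne_zero _ hRC), one_smul]
  have hc'0 : ∀ α, D < ord α → c' α = 0 := fun α hα => by
    rw [hc']
    simp only
    rw [hb'0 α hα, smul_zero]
  have hval : ∀ t, ∑' α, e t α • b' α = mv (mpol c' D) (pt t) := by
    intro t
    rw [← (mpol_eval hc'0 (pt t)).tsum_eq]
    refine tsum_congr fun α => ?_
    rw [hbc, heb']
  refine ⟨mpol c' D, fun z hz i => ?_, ?_, fun z hz => ?_⟩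
  · have h1 : ∀ y : Fin p → ℂ, (∀ g ∈ I, eval y g = 0) → ‖y‖ ≤ R0 →
        eval y (bind₁ (mpol c' D) (F i)) = 0 := by
      intro y hy hyR
      rw [eval_bind]
      have hyR' : ‖y‖ ≤ R := hyR.trans ((le_max_left _ _).trans (le_max_left _ _))
      have h2 := hb'C (Sum.inl ⟨y, hy, hyR'⟩)
      rw [hval] at h2
      exact h2 i
    have h3 := hrad _ h1 z hz
    rwa [eval_bind] at h3
  · have h2 := hb'C (Sum.inr ())
    rw [hval] at h2
    exact h2
  · have h1 := (mpol_eval hc'0 z).sub (hc1 z)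
    have hdif : ∀ α, ‖mon z α • c' α - mon z α • c α‖ ≤ ρ ^ ord α * ‖b' α - b α‖ := by
      intro α
      rw [← smul_sub, norm_smul]
      have h2 : ‖c' α - c α‖ ≤ ‖b' α - b α‖ := by
        have h3 : b' α - b α = ((R : ℂ) ^ ord α) • (c' α - c α) := by
          rw [hbc, smul_sub]
        rw [h3, norm_smul, norm_pow, Complex.norm_real, Real.norm_of_nonneg hRp.le]
        exact le_mul_of_one_le_left (norm_nonneg _) (one_le_pow₀ hR1)
      exact mul_le_mul (mon_le hz α) h2 (norm_nonneg _) (by positivity)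
    exact (h1.tsum_eq ▸ tsum_of_norm_bounded hb's.hasSum hdif).trans hb'η

end Pool.Agent.R871.SG
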