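import Pool.Agent.R871.SG.AlgB

/-!
Boundedness and pointed finiteness of algebraic maps, and algebraicity of holomorphic maps of slow
growth.
-/

set_option autoImplicit false

namespace Pool.Agent.R871.SG

open Filter Topology Metric Set MvPolynomial

variable {σ : Type} [Fintype σ] {ι κ : Type} {p : ℕ}

/-- The entire map `f` maps the affine variety of the zeros of the ideal `I` to the affine variety
`{F = 0}`. -/
def HolOn (I : Ideal (MvPolynomial (Fin p) ℂ)) (F : ι → MvPolynomial σ ℂ)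
    (f : (Fin p → ℂ) → σ → ℂ) : Prop :=
  AnalyticOnNhd ℂ f univ ∧ ∀ z ∈ zset I, ∀ i, eval (f z) (F i) = 0

/-- Not all values of `f` on the zeros of the ideal `I` are in `{G = 0}`. -/
def Outside (I : Ideal (MvPolynomial (Fin p) ℂ)) (G : κ → MvPolynomial σ ℂ)
    (f : (Fin p → ℂ) → σ → ℂ) : Prop :=
  ∃ z ∈ zset I, ∃ k, eval (f z) (G k) ≠ 0

/-- On the zeros of the ideal `I` the map `f` is given by polynomials of degree at most `D`. -/
def DegLE (I : Ideal (MvPolynomial (Fin p) ℂ)) (D : ℕ) (f : (Fin p → ℂ) → σ → ℂ) : Prop :=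
  ∃ Q : σ → MvPolynomial (Fin p) ℂ, (∀ j, (Q j).totalDegree ≤ D) ∧ ∀ z ∈ zset I, mv Q z = f z

theorem poly_closed (Y : Set (Fin p → ℂ)) (D : ℕ) {g : ℕ → Y → ℂ} {g0 : Y → ℂ}
    (hg : ∀ k, ∃ Q : MvPolynomial (Fin p) ℂ, Q.totalDegree ≤ D ∧ ∀ z : Y, g k z = eval z.1 Q)
    (hlim : ∀ z, Tendsto (fun k => g k z) atTop (𝓝 (g0 z))) :
    ∃ Q : MvPolynomial (Fin p) ℂ, Q.totalDegree ≤ D ∧ ∀ z : Y, g0 z = eval z.1 Q := by
  let L : MvPolynomial (Fin p) ℂ →ₗ[ℂ] (Y → ℂ) :=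
    { toFun := fun Q z => eval z.1 Q
      map_add' := fun a b => by funext z; simp
      map_smul' := fun a b => by funext z; simp [smul_eval] }
  set W : Submodule ℂ (Y → ℂ) := (restrictTotalDegree (Fin p) ℂ D).map L with hW
  have hfin : FiniteDimensional ℂ W := by
    rw [hW]
    infer_instance
  have hcl : IsClosed (W : Set (Y → ℂ)) := Submodule.closed_of_finiteDimensional W
  have h1 : g0 ∈ W := by
    refine hcl.mem_of_tendsto (tendsto_pi_nhds.2 hlim) (Eventually.of_forall fun k => ?_)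
    obtain ⟨Q, hQ, hQ'⟩ := hg k
    exact ⟨Q, (mem_restrictTotalDegree _ _ _).2 hQ, (funext hQ').symm⟩
  obtain ⟨Q, hQ, hQ'⟩ := h1
  exact ⟨Q, (mem_restrictTotalDegree _ _ _).1 hQ, fun z => (congrFun hQ' z).symm⟩

/-- Approximating sequences. -/
theorem approx_seq {I : Ideal (MvPolynomial (Fin p) ℂ)} {F : ι → MvPolynomial σ ℂ}
    {y0 : Fin p → ℂ} {K : Set (σ → ℂ)} {f : (Fin p → ℂ) → σ → ℂ}
    (h : ∀ ρ η : ℝ, 0 ≤ ρ → 0 < η → ∃ P : σ → MvPolynomial (Fin p) ℂ,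
        (∀ z ∈ zset I, ∀ i, eval (mv P z) (F i) = 0) ∧ mv P y0 ∈ K ∧
          ∀ z, ‖z‖ ≤ ρ → ‖mv P z - f z‖ ≤ η) :
    ∃ P : ℕ → σ → MvPolynomial (Fin p) ℂ, (∀ k, HolOn I F (mv (P k))) ∧ (∀ k, mv (P k) y0 ∈ K) ∧
      ∀ z, Tendsto (fun k => mv (P k) z) atTop (𝓝 (f z)) := by
  choose P h1 h2 h3 using fun k : ℕ => h k (1 / ((k : ℝ) + 1)) k.cast_nonneg (by positivity)
  refine ⟨P, fun k => ⟨mv_analytic (P k), h1 k⟩, h2, fun z => ?_⟩
  rw [tendsto_iff_norm_sub_tendsto_zero]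
  refine squeeze_zero' (Eventually.of_forall fun k => norm_nonneg _) ?_
    tendsto_one_div_add_atTop_nhds_zero_nat
  obtain ⟨N, hN⟩ := exists_nat_ge ‖z‖
  filter_upwards [eventually_ge_atTop N] with k hk
  exact h3 k z (hN.trans (by exact_mod_cast hk))

/-- **Bounded algebraic maps and holomorphic maps of slow growth.** -/
theorem bounded_iff (I : Ideal (MvPolynomial (Fin p) ℂ)) [I.IsPrime] (F : ι → MvPolynomial σ ℂ) :
    ∃ φ : ℝ → ℝ, Grows φ ∧ ∀ (κ : Type) (G : κ → MvPolynomial σ ℂ) (D : ℕ),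
      (∀ P : σ → MvPolynomial (Fin p) ℂ, HolOn I F (mv P) → Outside I G (mv P) →
        DegLE I D (mv P)) ↔
      ∀ f, HolOn I F f → SlowM φ f → Outside I G f → DegLE I D f := by
  obtain ⟨φ, hφ, h⟩ := approx_var I F 0 (isClosed_univ (X := σ → ℂ))
  refine ⟨φ, hφ, fun κ G D => ⟨fun hD f hf hs hout => ?_, fun hD P hP hout =>
    hD (mv P) hP (mv_slow hφ P) hout⟩⟩
  obtain ⟨P, hP, -, hlim⟩ := approx_seq (h f hf.1 hf.2 (mem_univ _) hs)
  obtain ⟨z1, hz1, k1, hk1⟩ := hout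
  -- the approximating maps are outside, too
  have hev : ∀ᶠ k in atTop, DegLE I D (mv (P k)) := by
    have h1 : Tendsto (fun k => eval (mv (P k) z1) (G k1)) atTop (𝓝 (eval (f z1) (G k1))) :=
      ((cont_ev (G k1)).tendsto _).comp (hlim z1)
    filter_upwards [h1.eventually_ne hk1] with k hk
    exact hD (P k) (hP k) ⟨z1, hz1, k1, hk⟩
  obtain ⟨N, hN⟩ := eventually_atTop.1 hev
  choose Q hQ1 hQ2 using fun k : ℕ => hN (N + k) (Nat.le_add_right _ _)
  have hlim' : ∀ z, Tendsto (fun k => mv (P (N + k)) z) atTop (𝓝 (f z)) := by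
    intro z
    have h2 : Tendsto (fun k : ℕ => N + k) atTop atTop :=
      tendsto_atTop_mono (fun k => Nat.le_add_left k N) tendsto_id
    exact (hlim z).comp h2
  have h3 : ∀ j, ∃ R : MvPolynomial (Fin p) ℂ, R.totalDegree ≤ D ∧
      ∀ z : zset I, f z.1 j = eval z.1 R := by
    intro j
    refine poly_closed (zset I) D (g := fun k z => mv (P (N + k)) z.1 j) (fun k => ?_) fun z => ?_
    · refine ⟨Q k j, hQ1 k j, fun z => ?_⟩
      rw [← hQ2 k z.1 z.2]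
      rfl
    · exact (tendsto_pi_nhds.1 (hlim' z.1)) j
  choose R hR1 hR2 using h3
  exact ⟨R, hR1, fun z hz => funext fun j => (hR2 j ⟨z, hz⟩).symm⟩

/-- The maps from the zeros of the ideal `I` to `{F = 0}` which are restrictions of polynomial maps
and map `y0` to `x`. -/
def PolMaps (I : Ideal (MvPolynomial (Fin p) ℂ)) (F : ι → MvPolynomial σ ℂ) (y0 : Fin p → ℂ)
    (x : σ → ℂ) : Set (zset I → σ → ℂ) :=
  {g | ∃ P : σ → MvPolynomial (Fin p) ℂ, HolOn I F (mv P) ∧ mv P y0 = x ∧ ∀ z, g z = mv P z.1}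

/-- The maps from the zeros of the ideal `I` to `{F = 0}` which are restrictions of entire maps of
slow growth and map `y0` to `x`. -/
def SlowMaps (φ : ℝ → ℝ) (I : Ideal (MvPolynomial (Fin p) ℂ)) (F : ι → MvPolynomial σ ℂ)
    (y0 : Fin p → ℂ) (x : σ → ℂ) : Set (zset I → σ → ℂ) :=
  {g | ∃ f, HolOn I F f ∧ SlowM φ f ∧ f y0 = x ∧ ∀ z, g z = f z.1}

/-- **Pointed finiteness and holomorphic maps of slow growth.** -/
theorem pointed_finite (I : Ideal (MvPolynomial (Fin p) ℂ)) [I.IsPrime] (F : ι → MvPolynomial σ ℂ)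
    (y0 : Fin p → ℂ) (x : σ → ℂ) : ∃ φ : ℝ → ℝ, Grows φ ∧
      PolMaps I F y0 x ⊆ SlowMaps φ I F y0 x ∧
      ((PolMaps I F y0 x).Finite → SlowMaps φ I F y0 x = PolMaps I F y0 x) := by
  obtain ⟨φ, hφ, h⟩ := approx_var I F y0 (isClosed_singleton (x := x))
  have hsub : PolMaps I F y0 x ⊆ SlowMaps φ I F y0 x := by
    rintro g ⟨P, h1, h2, h3⟩
    exact ⟨mv P, h1, mv_slow hφ P, h2, h3⟩
  refine ⟨φ, hφ, hsub, fun hfin => Subset.antisymm ?_ hsub⟩
  rintro g ⟨f, hf, hs, hx, hg⟩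
  obtain ⟨P, hP, hPx, hlim⟩ := approx_seq (h f hf.1 hf.2 hx hs)
  have hcl : IsClosed (PolMaps I F y0 x) := hfin.isClosed
  refine hcl.mem_of_tendsto (f := fun k : ℕ => fun z : zset I => mv (P k) z.1) (b := atTop) ?_
    (Eventually.of_forall fun k => ⟨P k, hP k, hPx k, fun z => rfl⟩)
  refine tendsto_pi_nhds.2 fun z => ?_
  rw [hg z]
  exact hlim z.1

end Pool.Agent.R871.SG
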