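import Pool.Agent.R871.SG.AlgC

/-!
Degrees of the images of algebraic maps, and holomorphic maps of slow growth.
-/

set_option autoImplicit false

namespace Pool.Agent.R871.SG

open Filter Topology Metric Set MvPolynomial

/-- Limits of linear relations between the values of finitely many functions. -/
theorem limit_relations {Y T : Type} [TopologicalSpace T] {M : ℕ} {b : Fin M → T → ℂ}
    (hb : ∀ i, Continuous (b i)) {x : ℕ → Y → T} {x0 : Y → T}
    (hlim : ∀ z, Tendsto (fun k => x k z) atTop (𝓝 (x0 z)))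
    (h : ∀ k, ∃ c : Fin M → ℂ, c ≠ 0 ∧ ∀ z, ∑ i, c i * b i (x k z) = 0) :
    ∃ c : Fin M → ℂ, c ≠ 0 ∧ ∀ z, ∑ i, c i * b i (x0 z) = 0 := by
  have h1 : ∀ k, ∃ c ∈ sphere (0 : Fin M → ℂ) 1, ∀ z, ∑ i, c i * b i (x k z) = 0 := by
    intro k
    obtain ⟨c, hc, hz⟩ := h k
    have hn : ‖c‖ ≠ 0 := norm_ne_zero_iff.2 hc
    refine ⟨((‖c‖⁻¹ : ℝ) : ℂ) • c, ?_, fun z => ?_⟩
    · rw [mem_sphere_zero_iff_norm, norm_smul, Complex.norm_real, norm_inv, norm_norm,
        inv_mul_cancel₀ hn]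
    · have e : ∀ i, (((‖c‖⁻¹ : ℝ) : ℂ) • c) i * b i (x k z) =
          ((‖c‖⁻¹ : ℝ) : ℂ) * (c i * b i (x k z)) := fun i => by
        rw [Pi.smul_apply, smul_eq_mul, mul_assoc]
      simp only [e]
      rw [← Finset.mul_sum, hz z, mul_zero]
  choose c hc hz using h1
  obtain ⟨c0, hc0, θ, hθ, hlc⟩ := (isCompact_sphere (0 : Fin M → ℂ) 1).tendsto_subseq hc
  refine ⟨c0, fun h0 => ?_, fun z => ?_⟩
  · rw [h0, mem_sphere_zero_iff_norm, norm_zero] at hc0
    exact zero_ne_one hc0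
  · have h2 : Tendsto (fun k => ∑ i, c (θ k) i * b i (x (θ k) z)) atTop
        (𝓝 (∑ i, c0 i * b i (x0 z))) := by
      refine tendsto_finsetSum _ fun i _ => ?_
      refine Tendsto.mul ((tendsto_pi_nhds.1 hlc) i) ?_
      exact ((hb i).tendsto _).comp ((hlim z).comp hθ.tendsto_atTop)
    have h3 : (fun k => ∑ i, c (θ k) i * b i (x (θ k) z)) = fun _ => 0 := funext fun k => hz _ z
    rw [h3] at h2
    exact (tendsto_nhds_unique h2 tendsto_const_nhds)

/-- Limits of polynomial relations of bounded degree. -/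
theorem limit_polys {Y τ : Type} [Finite τ] {B : ℕ} {x : ℕ → Y → τ → ℂ} {x0 : Y → τ → ℂ}
    (hlim : ∀ z, Tendsto (fun k => x k z) atTop (𝓝 (x0 z)))
    (h : ∀ k, ∃ Q : MvPolynomial τ ℂ, Q ≠ 0 ∧ Q.totalDegree ≤ B ∧ ∀ z, eval (x k z) Q = 0) :
    ∃ Q : MvPolynomial τ ℂ, Q ≠ 0 ∧ Q.totalDegree ≤ B ∧ ∀ z, eval (x0 z) Q = 0 := by
  let V := restrictTotalDegree τ ℂ B
  let bs := Module.finBasis ℂ V
  have hval : ∀ (Q : V) (v : τ → ℂ), eval v Q.1 = ∑ i, bs.equivFun Q i * eval v (bs i).1 := by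
    intro Q v
    have h1 := congrArg V.subtype (bs.sum_equivFun Q)
    rw [map_sum] at h1
    have h2 : Q.1 = ∑ i, bs.equivFun Q i • (bs i).1 :=
      h1.symm.trans (Finset.sum_congr rfl fun i _ => by rw [map_smul]; rfl)
    refine (congrArg (eval v) h2).trans ?_
    rw [map_sum]
    exact Finset.sum_congr rfl fun i _ => smul_eval _ _ _
  obtain ⟨c, hc0, hc⟩ := limit_relations (M := Module.finrank ℂ V)
    (b := fun i v => eval v (bs i).1) (fun i => MvPolynomial.continuous_eval _) hlim (fun k => by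
      obtain ⟨Q, hQ0, hQd, hQ⟩ := h k
      let Q' : V := ⟨Q, (mem_restrictTotalDegree _ _ _).2 hQd⟩
      refine ⟨bs.equivFun Q', fun h0 => hQ0 ?_, fun z => ?_⟩
      · have h1 : Q' = 0 := (LinearEquiv.map_eq_zero_iff bs.equivFun).1 h0
        exact congrArg Subtype.val h1
      · rw [← hval Q']
        exact hQ z)
  refine ⟨(bs.equivFun.symm c).1, fun h0 => hc0 ?_, (mem_restrictTotalDegree _ _ _).1
    (bs.equivFun.symm c).2, fun z => ?_⟩
  · have h1 : bs.equivFun.symm c = 0 := Subtype.ext h0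
    exact (LinearEquiv.map_eq_zero_iff _).1 h1
  · rw [hval, LinearEquiv.apply_symm_apply]
    exact hc z

variable {ι κ : Type} {p s : ℕ}

/-- The values of `g` on the zeros of the ideal `I` are in an algebraic curve of degree at most `B`,
or in a point: for every linear map to the plane, the values satisfy an algebraic equation of degree
at most `B`. -/
def InCurve (I : Ideal (MvPolynomial (Fin p) ℂ)) (B : ℕ) (g : (Fin p → ℂ) → Fin s → ℂ) : Prop :=
  ∀ L : (Fin s → ℂ) →ₗ[ℂ] (Fin 2 → ℂ), ∃ Q : MvPolynomial (Fin 2) ℂ,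
    Q ≠ 0 ∧ Q.totalDegree ≤ B ∧ ∀ z ∈ zset I, eval (L (g z)) Q = 0

/-- **Degrees of images, and holomorphic maps of slow growth.** -/
theorem inCurve_iff (I : Ideal (MvPolynomial (Fin p) ℂ)) [I.IsPrime]
    (F : ι → MvPolynomial (Fin s) ℂ) :
    ∃ φ : ℝ → ℝ, Grows φ ∧ ∀ (κ : Type) (G : κ → MvPolynomial (Fin s) ℂ) (B : ℕ),
      (∀ P : Fin s → MvPolynomial (Fin p) ℂ, HolOn I F (mv P) → Outside I G (mv P) →
        InCurve I B (mv P)) ↔
      ∀ f, HolOn I F f → SlowM φ f → Outside I G f → InCurve I B f := by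
  obtain ⟨φ, hφ, h⟩ := approx_var I F 0 (isClosed_univ (X := Fin s → ℂ))
  refine ⟨φ, hφ, fun κ G B => ⟨fun hD f hf hs hout => ?_, fun hD P hP hout =>
    hD (mv P) hP (mv_slow hφ P) hout⟩⟩
  obtain ⟨P, hP, -, hlim⟩ := approx_seq (h f hf.1 hf.2 (mem_univ _) hs)
  obtain ⟨z1, hz1, k1, hk1⟩ := hout
  have hev : ∀ᶠ k in atTop, InCurve I B (mv (P k)) := by
    have h1 : Tendsto (fun k => eval (mv (P k) z1) (G k1)) atTop (𝓝 (eval (f z1) (G k1))) :=
      ((cont_ev (G k1)).tendsto _).comp (hlim z1)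
    filter_upwards [h1.eventually_ne hk1] with k hk
    exact hD (P k) (hP k) ⟨z1, hz1, k1, hk⟩
  obtain ⟨N, hN⟩ := eventually_atTop.1 hev
  have hlim' : ∀ z, Tendsto (fun k => mv (P (N + k)) z) atTop (𝓝 (f z)) := by
    intro z
    have h2 : Tendsto (fun k : ℕ => N + k) atTop atTop :=
      tendsto_atTop_mono (fun k => Nat.le_add_left k N) tendsto_id
    exact (hlim z).comp h2
  intro L
  have hL : Continuous L := L.continuous_of_finiteDimensional
  obtain ⟨Q, hQ0, hQd, hQ⟩ := limit_polys (Y := zset I) (B := B)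
    (x := fun k z => L (mv (P (N + k)) z.1)) (x0 := fun z => L (f z.1))
    (fun z => (hL.tendsto _).comp (hlim' z.1)) (fun k => by
      obtain ⟨Q, h1, h2, h3⟩ := hN (N + k) (Nat.le_add_right _ _) L
      exact ⟨Q, h1, h2, fun z => h3 z.1 z.2⟩)
  exact ⟨Q, hQ0, hQd, fun z hz => hQ ⟨z, hz⟩⟩

end Pool.Agent.R871.SG
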