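import Pool.Agent.R871.SG.AlgD

/-!
Projective targets: boundedness and pointed finiteness of algebraic maps, and holomorphic maps of slow
growth.
-/

set_option autoImplicit false

namespace Pool.Agent.R871.SG

open Filter Topology Metric Set MvPolynomial

/-- Limits of linear relations. -/
theorem limit_lin {Y A : Type} [Fintype A] {v : ℕ → Y → A → ℂ} {v0 : Y → A → ℂ}
    (hlim : ∀ z, Tendsto (fun k => v k z) atTop (𝓝 (v0 z)))
    (h : ∀ k, ∃ c : A → ℂ, c ≠ 0 ∧ ∀ z, ∑ i, c i * v k z i = 0) :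
    ∃ c : A → ℂ, c ≠ 0 ∧ ∀ z, ∑ i, c i * v0 z i = 0 := by
  have h1 : ∀ k, ∃ c ∈ sphere (0 : A → ℂ) 1, ∀ z, ∑ i, c i * v k z i = 0 := by
    intro k
    obtain ⟨c, hc, hz⟩ := h k
    have hn : ‖c‖ ≠ 0 := norm_ne_zero_iff.2 hc
    refine ⟨((‖c‖⁻¹ : ℝ) : ℂ) • c, ?_, fun z => ?_⟩
    · rw [mem_sphere_zero_iff_norm, norm_smul, Complex.norm_real, norm_inv, norm_norm,
        inv_mul_cancel₀ hn]
    · have e : ∀ i, (((‖c‖⁻¹ : ℝ) : ℂ) • c) i * v k z i =
          ((‖c‖⁻¹ : ℝ) : ℂ) * (c i * v k z i) := fun i => by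
        rw [Pi.smul_apply, smul_eq_mul, mul_assoc]
      simp only [e]
      rw [← Finset.mul_sum, hz z, mul_zero]
  choose c hc hz using h1
  obtain ⟨c0, hc0, θ, hθ, hlc⟩ := (isCompact_sphere (0 : A → ℂ) 1).tendsto_subseq hc
  refine ⟨c0, fun h0 => ?_, fun z => ?_⟩
  · rw [h0, mem_sphere_zero_iff_norm, norm_zero] at hc0
    exact zero_ne_one hc0
  · have h2 : Tendsto (fun k => ∑ i, c (θ k) i * v (θ k) z i) atTop
        (𝓝 (∑ i, c0 i * v0 z i)) := by
      refine tendsto_finsetSum _ fun i _ => ?_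
      exact Tendsto.mul ((tendsto_pi_nhds.1 hlc) i)
        ((tendsto_pi_nhds.1 ((hlim z).comp hθ.tendsto_atTop)) i)
    have h3 : (fun k => ∑ i, c (θ k) i * v (θ k) z i) = fun _ => 0 := funext fun k => hz _ z
    rw [h3] at h2
    exact (tendsto_nhds_unique h2 tendsto_const_nhds)

variable {σ : Type} [Fintype σ] {ι κ : Type} {p : ℕ}

/-- On the zeros of the ideal `I` the maps `f` and `g` to the projective space coincide, where both
are defined. -/
def SameOn (I : Ideal (MvPolynomial (Fin p) ℂ)) (f g : (Fin p → ℂ) → σ → ℂ) : Prop :=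
  ∀ z ∈ zset I, ∀ i j, f z i * g z j = f z j * g z i

/-- `f` does not vanish identically on the zeros of the ideal `I`. -/
def NotZero (I : Ideal (MvPolynomial (Fin p) ℂ)) (f : (Fin p → ℂ) → σ → ℂ) : Prop :=
  ∃ z ∈ zset I, f z ≠ 0

/-- On the zeros of the ideal `I` the map `f` to the projective space is given by polynomials of
degree at most `D`, which do not all vanish identically. -/
def ProjDegLE (I : Ideal (MvPolynomial (Fin p) ℂ)) (D : ℕ) (f : (Fin p → ℂ) → σ → ℂ) : Prop :=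
  ∃ Q : σ → MvPolynomial (Fin p) ℂ, (∀ j, (Q j).totalDegree ≤ D) ∧ NotZero I (mv Q) ∧
    SameOn I f (mv Q)

/-- Limits of maps to the projective space of bounded degree. -/
theorem projDeg_closed {I : Ideal (MvPolynomial (Fin p) ℂ)} {D : ℕ}
    {g : ℕ → (Fin p → ℂ) → σ → ℂ} {f : (Fin p → ℂ) → σ → ℂ}
    (hlim : ∀ z ∈ zset I, Tendsto (fun k => g k z) atTop (𝓝 (f z)))
    (h : ∀ k, ProjDegLE I D (g k)) : ProjDegLE I D f := by
  classical
  let L : MvPolynomial (Fin p) ℂ →ₗ[ℂ] (zset I → ℂ) :=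
    { toFun := fun Q z => eval z.1 Q
      map_add' := fun a b => by funext z; simp
      map_smul' := fun a b => by funext z; simp [smul_eval] }
  let W : Submodule ℂ (zset I → ℂ) := (restrictTotalDegree (Fin p) ℂ D).map L
  have hfin : FiniteDimensional ℂ W := by
    change FiniteDimensional ℂ ((restrictTotalDegree (Fin p) ℂ D).map L)
    infer_instance
  let bs := Module.finBasis ℂ W
  have hB : ∀ i, ∃ B : MvPolynomial (Fin p) ℂ, B.totalDegree ≤ D ∧
      ∀ z : zset I, eval z.1 B = (bs i).1 z := by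
    intro i
    obtain ⟨B, hB1, hB2⟩ := (bs i).2
    exact ⟨B, (mem_restrictTotalDegree _ _ _).1 hB1, fun z => congrFun hB2 z⟩
  choose B hB1 hB2 using hB
  have hrep : ∀ Q : MvPolynomial (Fin p) ℂ, Q.totalDegree ≤ D →
      ∃ c : Fin (Module.finrank ℂ W) → ℂ, ∀ z : zset I, eval z.1 Q = ∑ i, c i * (bs i).1 z := by
    intro Q hQ
    let w : W := ⟨L Q, Q, (mem_restrictTotalDegree _ _ _).2 hQ, rfl⟩
    refine ⟨bs.equivFun w, fun z => ?_⟩
    have h1 := congrArg W.subtype (bs.sum_equivFun w)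
    rw [map_sum] at h1
    have h2 := congrFun h1 z
    rw [Finset.sum_apply] at h2
    refine h2.symm.trans (Finset.sum_congr rfl fun i _ => ?_)
    rw [map_smul]
    rfl
  -- the linear relations
  let v : ((Fin p → ℂ) → σ → ℂ) → zset I × σ × σ → Fin (Module.finrank ℂ W) × σ → ℂ :=
    fun g t a => (if a.2 = t.2.2 then g t.1.1 t.2.1 * (bs a.1).1 t.1 else 0) -
      if a.2 = t.2.1 then g t.1.1 t.2.2 * (bs a.1).1 t.1 else 0
  have hsum : ∀ (g : (Fin p → ℂ) → σ → ℂ) (c : Fin (Module.finrank ℂ W) × σ → ℂ)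
      (t : zset I × σ × σ), ∑ a, c a * v g t a =
        g t.1.1 t.2.1 * (∑ i, c (i, t.2.2) * (bs i).1 t.1) -
          g t.1.1 t.2.2 * ∑ i, c (i, t.2.1) * (bs i).1 t.1 := by
    intro g c t
    simp only [v, mul_sub, Finset.sum_sub_distrib, mul_ite, mul_zero]
    rw [Fintype.sum_prod_type, Fintype.sum_prod_type]
    simp only [Finset.sum_ite_eq', Finset.mem_univ, if_true, Finset.mul_sum]
    congr 1
    · exact Finset.sum_congr rfl fun i _ => by ring
    · exact Finset.sum_congr rfl fun i _ => by ring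
  obtain ⟨c, hc0, hc⟩ := limit_lin (v := fun k => v (g k)) (v0 := v f) (fun t => by
    have h1 := hlim t.1.1 t.1.2
    refine tendsto_pi_nhds.2 fun a => ?_
    simp only [v]
    refine Tendsto.sub ?_ ?_
    · split_ifs
      · exact ((tendsto_pi_nhds.1 h1) _).mul_const _
      · exact tendsto_const_nhds
    · split_ifs
      · exact ((tendsto_pi_nhds.1 h1) _).mul_const _
      · exact tendsto_const_nhds) (fun k => by
    obtain ⟨Q, hQ1, ⟨z1, hz1, hQz⟩, hQ3⟩ := h k
    choose c hc using fun j => hrep (Q j) (hQ1 j)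
    refine ⟨fun a => c a.2 a.1, fun h0 => hQz ?_, fun t => ?_⟩
    · funext j
      have h1 := hc j ⟨z1, hz1⟩
      have h2 : ∀ i, c j i = 0 := fun i => congrFun h0 (i, j)
      simp only [h2, zero_mul, Finset.sum_const_zero] at h1
      exact h1
    · rw [hsum]
      simp only
      rw [← hc, ← hc]
      exact sub_eq_zero.2 (hQ3 t.1.1 t.1.2 t.2.1 t.2.2))
  have hval : ∀ (j : σ) (z : zset I),
      eval z.1 (∑ i, c (i, j) • B i) = ∑ i, c (i, j) * (bs i).1 z := by
    intro j z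
    rw [map_sum]
    exact Finset.sum_congr rfl fun i _ => by rw [smul_eval, hB2]
  refine ⟨fun j => ∑ i, c (i, j) • B i, fun j => ?_, ?_, fun z hz i j => ?_⟩
  · refine (totalDegree_finsetSum _ _).trans (Finset.sup_le fun i _ => ?_)
    exact (totalDegree_smul_le _ _).trans (hB1 i)
  · -- not identically zero
    by_contra hcon
    unfold NotZero at hcon
    push Not at hcon
    apply hc0
    funext a
    obtain ⟨i0, j0⟩ := a
    have h1 : ∑ i, c (i, j0) • bs i = 0 := by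
      apply Subtype.ext
      funext z
      have h2 := congrFun (hcon z.1 z.2) j0
      change eval z.1 (∑ i, c (i, j0) • B i) = 0 at h2
      rw [hval] at h2
      have h3 : (∑ i, c (i, j0) • bs i : W).1 = ∑ i, c (i, j0) • (bs i).1 := by
        have := map_sum W.subtype (fun i => c (i, j0) • bs i) Finset.univ
        refine this.trans (Finset.sum_congr rfl fun i _ => ?_)
        rw [map_smul]
        rfl
      rw [h3, Finset.sum_apply]
      exact h2
    exact (Fintype.linearIndependent_iff.1 bs.linearIndependent) (fun i => c (i, j0)) h1 i0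
  · have h1 := hc (⟨z, hz⟩, i, j)
    rw [hsum] at h1
    simp only at h1
    change f z i * eval z (∑ i, c (i, j) • B i) = f z j * eval z (∑ l, c (l, i) • B l)
    rw [hval j ⟨z, hz⟩, hval i ⟨z, hz⟩]
    exact sub_eq_zero.1 h1

/-- **Bounded maps to projective varieties, and holomorphic maps of slow growth.** -/
theorem bounded_iff_proj (I : Ideal (MvPolynomial (Fin p) ℂ)) [I.IsPrime]
    (F : ι → MvPolynomial σ ℂ) :
    ∃ φ : ℝ → ℝ, Grows φ ∧ ∀ (κ : Type) (G : κ → MvPolynomial σ ℂ) (D : ℕ),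
      (∀ P : σ → MvPolynomial (Fin p) ℂ, HolOn I F (mv P) → NotZero I (mv P) →
        Outside I G (mv P) → ProjDegLE I D (mv P)) ↔
      ∀ f, HolOn I F f → SlowM φ f → NotZero I f → Outside I G f → ProjDegLE I D f := by
  obtain ⟨φ, hφ, h⟩ := approx_var I F 0 (isClosed_univ (X := σ → ℂ))
  refine ⟨φ, hφ, fun κ G D => ⟨fun hD f hf hs hnz hout => ?_, fun hD P hP hnz hout =>
    hD (mv P) hP (mv_slow hφ P) hnz hout⟩⟩
  obtain ⟨P, hP, -, hlim⟩ := approx_seq (h f hf.1 hf.2 (mem_univ _) hs)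
  obtain ⟨z1, hz1, k1, hk1⟩ := hout
  obtain ⟨z2, hz2, hf2⟩ := hnz
  have hev : ∀ᶠ k in atTop, ProjDegLE I D (mv (P k)) := by
    have h1 : Tendsto (fun k => eval (mv (P k) z1) (G k1)) atTop (𝓝 (eval (f z1) (G k1))) :=
      ((cont_ev (G k1)).tendsto _).comp (hlim z1)
    filter_upwards [h1.eventually_ne hk1, (hlim z2).eventually_ne hf2] with k hk hk'
    exact hD (P k) (hP k) ⟨z2, hz2, hk'⟩ ⟨z1, hz1, k1, hk⟩
  obtain ⟨N, hN⟩ := eventually_atTop.1 hev
  have hlim' : ∀ z, Tendsto (fun k => mv (P (N + k)) z) atTop (𝓝 (f z)) := by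
    intro z
    have h2 : Tendsto (fun k : ℕ => N + k) atTop atTop :=
      tendsto_atTop_mono (fun k => Nat.le_add_left k N) tendsto_id
    exact (hlim z).comp h2
  exact projDeg_closed (g := fun k => mv (P (N + k))) (fun z _ => hlim' z) fun k =>
    hN (N + k) (Nat.le_add_right _ _)

/-- **Pointed maps to projective varieties, and holomorphic maps of slow growth.** -/
theorem pointed_proj (I : Ideal (MvPolynomial (Fin p) ℂ)) [I.IsPrime] (F : ι → MvPolynomial σ ℂ)
    (y0 : Fin p → ℂ) {x : σ → ℂ} (hx : x ≠ 0) : ∃ φ : ℝ → ℝ, Grows φ ∧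
      ∀ S : Set (σ → MvPolynomial (Fin p) ℂ), S.Finite →
        (∀ P : σ → MvPolynomial (Fin p) ℂ, HolOn I F (mv P) →
          (∃ c : ℂ, c ≠ 0 ∧ mv P y0 = c • x) → ∃ Q ∈ S, SameOn I (mv P) (mv Q)) →
        ∀ f, HolOn I F f → SlowM φ f → (∃ c : ℂ, c ≠ 0 ∧ f y0 = c • x) →
          ∃ Q ∈ S, SameOn I f (mv Q) := by
  have hK : IsClosed ((Submodule.span ℂ {x} : Submodule ℂ (σ → ℂ)) : Set (σ → ℂ)) :=
    Submodule.closed_of_finiteDimensional _
  obtain ⟨φ, hφ, h⟩ := approx_var I F y0 hK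
  refine ⟨φ, hφ, fun S hS hfin f hf hs hfx => ?_⟩
  obtain ⟨c0, hc0, hfx⟩ := hfx
  obtain ⟨P, hP, hPK, hlim⟩ := approx_seq (h f hf.1 hf.2 (by
    rw [hfx]
    exact Submodule.smul_mem _ _ (Submodule.mem_span_singleton_self x)) hs)
  have hfy : f y0 ≠ 0 := by
    rw [hfx]
    exact smul_ne_zero hc0 hx
  have hev : ∀ᶠ k in atTop, ∃ Q ∈ S, SameOn I (mv (P k)) (mv Q) := by
    filter_upwards [(hlim y0).eventually_ne hfy] with k hk
    obtain ⟨c, hc⟩ := Submodule.mem_span_singleton.1 (hPK k)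
    refine hfin (P k) (hP k) ⟨c, ?_, hc.symm⟩
    rintro rfl
    rw [zero_smul] at hc
    exact hk hc.symm
  have hfr : ∃ᶠ k in atTop, ∃ Q ∈ S, SameOn I (mv (P k)) (mv Q) := hev.frequently
  -- one of the finitely many maps occurs infinitely often
  have hcl : ∀ Q : σ → MvPolynomial (Fin p) ℂ,
      (∃ᶠ k in atTop, SameOn I (mv (P k)) (mv Q)) → SameOn I f (mv Q) := by
    intro Q hQ z hz i j
    obtain ⟨θ, hθ, hθQ⟩ := extraction_of_frequently_atTop hQ
    have h1 := (hlim z).comp hθ.tendsto_atTop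
    have h2 : Tendsto (fun k => mv (P (θ k)) z i * mv Q z j) atTop (𝓝 (f z i * mv Q z j)) :=
      ((tendsto_pi_nhds.1 h1) i).mul_const _
    have h3 : Tendsto (fun k => mv (P (θ k)) z j * mv Q z i) atTop (𝓝 (f z j * mv Q z i)) :=
      ((tendsto_pi_nhds.1 h1) j).mul_const _
    exact tendsto_nhds_unique h2 (h3.congr fun k => (hθQ k z hz i j).symm)
  by_contra hcon
  push Not at hcon
  have h4 : ∀ Q ∈ S, ∀ᶠ k in atTop, ¬ SameOn I (mv (P k)) (mv Q) := fun Q hQ =>
    not_frequently.1 fun hfr => hcon Q hQ (hcl Q hfr)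
  have h5 : ∀ᶠ k in atTop, ∀ Q ∈ S, ¬ SameOn I (mv (P k)) (mv Q) :=
    (eventually_all_finite hS).2 h4
  obtain ⟨k, ⟨Q, hQS, hQ⟩, hk⟩ := (hfr.and_eventually h5).exists
  exact hk Q hQS hQ

end Pool.Agent.R871.SG
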