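import Pool.Agent.R871.SG.AlgE

/-!
Holomorphic sections of slow growth of families of varieties over an affine variety are limits of
algebraic sections.
-/

set_option autoImplicit false

namespace Pool.Agent.R871.SG

open Filter Topology Metric Set MvPolynomial

variable {σ : Type} [Fintype σ] {ι κ : Type} {p : ℕ}

/-- The polynomials in the coordinates of the base and of the fibre, with the fibre coordinates
replaced by polynomials on the base. -/
noncomputable def subst (P : σ → MvPolynomial (Fin p) ℂ) (F : MvPolynomial (Fin p ⊕ σ) ℂ) :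
    MvPolynomial (Fin p) ℂ :=
  bind₁ (Sum.elim X P) F

omit [Fintype σ] in
theorem eval_subst (P : σ → MvPolynomial (Fin p) ℂ) (F : MvPolynomial (Fin p ⊕ σ) ℂ)
    (z : Fin p → ℂ) : eval z (subst P F) = eval (Sum.elim z (mv P z)) F := by
  have h1 := aeval_bind₁ (R := ℂ) (S := ℂ) z (Sum.elim X P) F
  rw [aeval_eq_eval] at h1
  rw [subst, h1, aeval_eq_eval]
  have h2 : (fun i => eval z ((Sum.elim X P : Fin p ⊕ σ → MvPolynomial (Fin p) ℂ) i)) =
      Sum.elim z (mv P z) := by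
    funext i
    rcases i with i | i
    · simp
    · simp [mv]
  rw [h2]

omit [Fintype σ] in
theorem cont_sec (F : MvPolynomial (Fin p ⊕ σ) ℂ) (z : Fin p → ℂ) :
    Continuous fun x : σ → ℂ => eval (Sum.elim z x) F := by
  refine (MvPolynomial.continuous_eval F).comp ?_
  refine continuous_pi fun i => ?_
  rcases i with i | i
  · exact continuous_const
  · exact continuous_apply i

/-- **Holomorphic sections of slow growth are limits of algebraic sections.** -/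
theorem approx_sec (I : Ideal (MvPolynomial (Fin p) ℂ)) [I.IsPrime]
    (F : ι → MvPolynomial (Fin p ⊕ σ) ℂ) (y0 : Fin p → ℂ) {K : Set (σ → ℂ)} (hK : IsClosed K) :
    ∃ φ : ℝ → ℝ, Grows φ ∧
    ∀ f : (Fin p → ℂ) → σ → ℂ, AnalyticOnNhd ℂ f univ →
      (∀ z ∈ zset I, ∀ i, eval (Sum.elim z (f z)) (F i) = 0) → f y0 ∈ K →
      SlowM φ f → ∀ ρ η : ℝ, 0 ≤ ρ → 0 < η → ∃ P : σ → MvPolynomial (Fin p) ℂ,
        (∀ z ∈ zset I, ∀ i, eval (Sum.elim z (mv P z)) (F i) = 0) ∧ mv P y0 ∈ K ∧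
          ∀ z, ‖z‖ ≤ ρ → ‖mv P z - f z‖ ≤ η := by
  obtain ⟨R0, hR0, hrad⟩ := exists_radius I
  set R : ℝ := max (max R0 ‖y0‖) 1 with hR
  have hR1 : 1 ≤ R := le_max_right _ _
  have hRp : 0 < R := one_pos.trans_le hR1
  have hRC : (R : ℂ) ≠ 0 := by exact_mod_cast hRp.ne'
  set pt : {z : Fin p → ℂ // z ∈ zset I ∧ ‖z‖ ≤ R} ⊕ Unit → (Fin p → ℂ) :=
    Sum.elim (fun z => z.1) fun _ => y0 with hpt
  have hptR : ∀ t, ‖pt t‖ ≤ R := by
    rintro (z | _)
    · exact z.2.2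
    · exact (le_max_right _ _).trans (le_max_left _ _)
  set e : ({z : Fin p → ℂ // z ∈ zset I ∧ ‖z‖ ≤ R} ⊕ Unit) → (Fin p → ℕ) → ℂ := fun t α =>
    mon (pt t) α / (R : ℂ) ^ ord α with he
  have hclX : ∀ z : Fin p → ℂ, IsClosed {x : σ → ℂ | ∀ i, eval (Sum.elim z x) (F i) = 0} := by
    intro z
    have : {x : σ → ℂ | ∀ i, eval (Sum.elim z x) (F i) = 0} =
        ⋂ i, {x | eval (Sum.elim z x) (F i) = 0} := by
      ext x; simp
    rw [this]
    exact isClosed_iInter fun i => isClosed_eq (cont_sec (F i) z) continuous_const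
  have heb : ∀ t α, ‖e t α‖ ≤ 2 ^ ord α := by
    intro t α
    rw [he]
    simp only
    rw [norm_div, norm_pow, Complex.norm_real, Real.norm_of_nonneg hRp.le]
    have h1 : ‖mon (pt t) α‖ / R ^ ord α ≤ 1 :=
      (div_le_one (by positivity)).2 (mon_le (hptR t) α)
    exact h1.trans (one_le_pow₀ (by norm_num))
  obtain ⟨δ, hδ, hap⟩ := approx_gen (E := σ → ℂ) (fun α : Fin p → ℕ => ord α) (ord_fin p)
    (ord_summable p) (fun _ => univ) (fun _ => isClosed_univ) e heb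
    (Sum.elim (fun z => {x | ∀ i, eval (Sum.elim z.1 x) (F i) = 0}) fun _ => K) (by
      rintro (t | t)
      · exact hclX t.1
      · exact hK)
  obtain ⟨φ, hφ, hgr⟩ := growthM δ hδ
  refine ⟨φ, hφ, fun f hf hfF hfK hs ρ η hρ hη => ?_⟩
  obtain ⟨c, hc1, hc2⟩ := expansion p f hf
  have hcb : ∀ r : ℝ, 0 < r → ∃ C, ∀ α, ‖c α‖ ≤ C / r ^ ord α := by
    intro r hr
    have hcont : Continuous f := continuous_iff_continuousAt.2 fun y =>
      (hf y (mem_univ y)).continuousAt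
    obtain ⟨C, hC⟩ := (isCompact_closedBall (0 : Fin p → ℂ) r).exists_bound_of_continuousOn
      hcont.continuousOn
    exact ⟨C, hc2 r C hr fun y hy => hC y (by simpa using hy)⟩
  set b : (Fin p → ℕ) → σ → ℂ := fun α => ((R : ℂ) ^ ord α) • c α with hb
  have hbn : ∀ α, ‖b α‖ = R ^ ord α * ‖c α‖ := fun α => by
    rw [hb]
    simp only
    rw [norm_smul, norm_pow, Complex.norm_real, Real.norm_of_nonneg hRp.le]
  have heb' : ∀ (t) (d : (Fin p → ℕ) → σ → ℂ) (α : Fin p → ℕ),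
      e t α • (((R : ℂ) ^ ord α) • d α) = mon (pt t) α • d α := by
    intro t d α
    rw [smul_smul, he]
    simp only
    rw [div_mul_cancel₀ _ (pow_ne_zero _ hRC)]
  obtain ⟨b', D, hb'0, -, hb'C, hb's, hb'η⟩ := hap b (fun _ => mem_univ _) (fun t => by
      have h1 : ∑' α, e t α • b α = f (pt t) := by
        rw [← (hc1 (pt t)).tsum_eq]
        exact tsum_congr fun α => heb' t c α
      rw [h1]
      rcases t with t | t
      · exact fun i => hfF _ t.2.1 i
      · exact hfK)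
    (fun A hA => by
      refine (cauchy_summable hcb (A := A * R) (by positivity)).congr fun α => ?_
      rw [hbn, mul_pow]
      ring)
    (fun D₀ => by
      obtain ⟨D, hD, h⟩ := hgr f c hc2 hs (4 * R) D₀ (by positivity)
      refine ⟨D, hD, fun α hα => ?_⟩
      rw [hbn, ← mul_assoc, ← mul_pow]
      exact h α hα) ρ η hρ hη
  set c' : (Fin p → ℕ) → σ → ℂ := fun α => (((R : ℂ) ^ ord α)⁻¹) • b' α with hc'
  have hbc : ∀ α, b' α = ((R : ℂ) ^ ord α) • c' α := fun α => by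
    rw [hc']
    simp only
    rw [smul_smul, mul_inv_cancel₀ (pow_ne_zero _ hRC), one_smul]
  have hc'0 : ∀ α, D < ord α → c' α = 0 := fun α hα => by
    rw [hc']
    simp only
    rw [hb'0 α hα, smul_zero]
  have hval : ∀ t, ∑' α, e t α • b' α = mv (mpol c' D) (pt t) := by
    intro t
    rw [← (mpol_eval hc'0 (pt t)).tsum_eq]
    refine tsum_congr fun α => ?_
    rw [hbc, heb']
  refine ⟨mpol c' D, fun z hz i => ?_, ?_, fun z hz => ?_⟩
  · have h1 : ∀ y : Fin p → ℂ, (∀ g ∈ I, eval y g = 0) → ‖y‖ ≤ R0 →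
        eval y (subst (mpol c' D) (F i)) = 0 := by
      intro y hy hyR
      rw [eval_subst]
      have hyR' : ‖y‖ ≤ R := hyR.trans ((le_max_left _ _).trans (le_max_left _ _))
      have h2 := hb'C (Sum.inl ⟨y, hy, hyR'⟩)
      rw [hval] at h2
      exact h2 i
    have h3 := hrad _ h1 z hz
    rwa [eval_subst] at h3
  · have h2 := hb'C (Sum.inr ())
    rw [hval] at h2
    exact h2
  · have h1 := (mpol_eval hc'0 z).sub (hc1 z)
    have hdif : ∀ α, ‖mon z α • c' α - mon z α • c α‖ ≤ ρ ^ ord α * ‖b' α - b α‖ := by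
      intro α
      rw [← smul_sub, norm_smul]
      have h2 : ‖c' α - c α‖ ≤ ‖b' α - b α‖ := by
        have h3 : b' α - b α = ((R : ℂ) ^ ord α) • (c' α - c α) := by
          rw [hbc, smul_sub]
        rw [h3, norm_smul, norm_pow, Complex.norm_real, Real.norm_of_nonneg hRp.le]
        exact le_mul_of_one_le_left (norm_nonneg _) (one_le_pow₀ hR1)
      exact mul_le_mul (mon_le hz α) h2 (norm_nonneg _) (by positivity)
    exact (h1.tsum_eq ▸ tsum_of_norm_bounded hb's.hasSum hdif).trans hb'η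

/-- The entire map `f` gives on the zeros of the ideal `I` a holomorphic section of the family
`{F = 0}`. -/
def HolSec (I : Ideal (MvPolynomial (Fin p) ℂ)) (F : ι → MvPolynomial (Fin p ⊕ σ) ℂ)
    (f : (Fin p → ℂ) → σ → ℂ) : Prop :=
  AnalyticOnNhd ℂ f univ ∧ ∀ z ∈ zset I, ∀ i, eval (Sum.elim z (f z)) (F i) = 0

/-- The section `f` over the zeros of the ideal `I` is not contained in `{G = 0}`. -/
def OutSec (I : Ideal (MvPolynomial (Fin p) ℂ)) (G : κ → MvPolynomial (Fin p ⊕ σ) ℂ)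
    (f : (Fin p → ℂ) → σ → ℂ) : Prop :=
  ∃ z ∈ zset I, ∃ k, eval (Sum.elim z (f z)) (G k) ≠ 0

theorem approx_seq_sec {I : Ideal (MvPolynomial (Fin p) ℂ)} {F : ι → MvPolynomial (Fin p ⊕ σ) ℂ}
    {y0 : Fin p → ℂ} {K : Set (σ → ℂ)} {f : (Fin p → ℂ) → σ → ℂ}
    (h : ∀ ρ η : ℝ, 0 ≤ ρ → 0 < η → ∃ P : σ → MvPolynomial (Fin p) ℂ,
        (∀ z ∈ zset I, ∀ i, eval (Sum.elim z (mv P z)) (F i) = 0) ∧ mv P y0 ∈ K ∧
          ∀ z, ‖z‖ ≤ ρ → ‖mv P z - f z‖ ≤ η) :
    ∃ P : ℕ → σ → MvPolynomial (Fin p) ℂ, (∀ k, HolSec I F (mv (P k))) ∧ (∀ k, mv (P k) y0 ∈ K) ∧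
      ∀ z, Tendsto (fun k => mv (P k) z) atTop (𝓝 (f z)) := by
  choose P h1 h2 h3 using fun k : ℕ => h k (1 / ((k : ℝ) + 1)) k.cast_nonneg (by positivity)
  refine ⟨P, fun k => ⟨mv_analytic (P k), h1 k⟩, h2, fun z => ?_⟩
  rw [tendsto_iff_norm_sub_tendsto_zero]
  refine squeeze_zero' (Eventually.of_forall fun k => norm_nonneg _) ?_
    tendsto_one_div_add_atTop_nhds_zero_nat
  obtain ⟨N, hN⟩ := exists_nat_ge ‖z‖
  filter_upwards [eventually_ge_atTop N] with k hk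
  exact h3 k z (hN.trans (by exact_mod_cast hk))

omit [Fintype σ] in
/-- Limits of maps of bounded degree. -/
theorem deg_closed {I : Ideal (MvPolynomial (Fin p) ℂ)} {D : ℕ}
    {g : ℕ → (Fin p → ℂ) → σ → ℂ} {f : (Fin p → ℂ) → σ → ℂ}
    (hlim : ∀ z ∈ zset I, Tendsto (fun k => g k z) atTop (𝓝 (f z)))
    (h : ∀ k, DegLE I D (g k)) : DegLE I D f := by
  choose Q hQ1 hQ2 using h
  have h3 : ∀ j, ∃ R : MvPolynomial (Fin p) ℂ, R.totalDegree ≤ D ∧
      ∀ z : zset I, f z.1 j = eval z.1 R := by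
    intro j
    refine poly_closed (zset I) D (g := fun k z => g k z.1 j) (fun k => ?_) fun z => ?_
    · refine ⟨Q k j, hQ1 k j, fun z => ?_⟩
      rw [← hQ2 k z.1 z.2]
      rfl
    · exact (tendsto_pi_nhds.1 (hlim z.1 z.2)) j
  choose R hR1 hR2 using h3
  exact ⟨R, hR1, fun z hz => funext fun j => (hR2 j ⟨z, hz⟩).symm⟩

/-- **Sections of bounded degree: affine and projective families.** -/
theorem sec_iff (I : Ideal (MvPolynomial (Fin p) ℂ)) [I.IsPrime]
    (F : ι → MvPolynomial (Fin p ⊕ σ) ℂ) :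
    ∃ φ : ℝ → ℝ, Grows φ ∧ ∀ (κ : Type) (G : κ → MvPolynomial (Fin p ⊕ σ) ℂ) (D : ℕ),
      ((∀ P : σ → MvPolynomial (Fin p) ℂ, HolSec I F (mv P) → OutSec I G (mv P) →
        DegLE I D (mv P)) ↔
      ∀ f, HolSec I F f → SlowM φ f → OutSec I G f → DegLE I D f) ∧
      ((∀ P : σ → MvPolynomial (Fin p) ℂ, HolSec I F (mv P) → NotZero I (mv P) →
        OutSec I G (mv P) → ProjDegLE I D (mv P)) ↔
      ∀ f, HolSec I F f → SlowM φ f → NotZero I f → OutSec I G f → ProjDegLE I D f) := by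
  obtain ⟨φ, hφ, h⟩ := approx_sec I F 0 (isClosed_univ (X := σ → ℂ))
  -- approximating sequences outside of `{G = 0}`
  have key : ∀ (κ : Type) (G : κ → MvPolynomial (Fin p ⊕ σ) ℂ) (f : (Fin p → ℂ) → σ → ℂ),
      HolSec I F f → SlowM φ f → OutSec I G f → ∃ P : ℕ → σ → MvPolynomial (Fin p) ℂ,
        (∀ k, HolSec I F (mv (P k))) ∧ (∀ k, OutSec I G (mv (P k))) ∧
          ∀ z, Tendsto (fun k => mv (P k) z) atTop (𝓝 (f z)) := by
    intro κ G f hf hs hout
    obtain ⟨P, hP, -, hlim⟩ := approx_seq_sec (h f hf.1 hf.2 (mem_univ _) hs)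
    obtain ⟨z1, hz1, k1, hk1⟩ := hout
    have h1 : Tendsto (fun k => eval (Sum.elim z1 (mv (P k) z1)) (G k1)) atTop
        (𝓝 (eval (Sum.elim z1 (f z1)) (G k1))) :=
      ((cont_sec (G k1) z1).tendsto _).comp (hlim z1)
    obtain ⟨N, hN⟩ := eventually_atTop.1 (h1.eventually_ne hk1)
    refine ⟨fun k => P (N + k), fun k => hP _, fun k =>
      ⟨z1, hz1, k1, hN (N + k) (Nat.le_add_right _ _)⟩, fun z => ?_⟩
    have h2 : Tendsto (fun k : ℕ => N + k) atTop atTop :=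
      tendsto_atTop_mono (fun k => Nat.le_add_left k N) tendsto_id
    exact (hlim z).comp h2
  refine ⟨φ, hφ, fun κ G D => ⟨⟨fun hD f hf hs hout => ?_, fun hD P hP hout =>
    hD (mv P) hP (mv_slow hφ P) hout⟩, ⟨fun hD f hf hs hnz hout => ?_, fun hD P hP hnz hout =>
    hD (mv P) hP (mv_slow hφ P) hnz hout⟩⟩⟩
  · obtain ⟨P, hP, hPo, hlim⟩ := key κ G f hf hs hout
    exact deg_closed (fun z _ => hlim z) fun k => hD (P k) (hP k) (hPo k)
  · obtain ⟨P, hP, hPo, hlim⟩ := key κ G f hf hs hout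
    obtain ⟨z2, hz2, hf2⟩ := hnz
    obtain ⟨N, hN⟩ := eventually_atTop.1 ((hlim z2).eventually_ne hf2)
    have h2 : Tendsto (fun k : ℕ => N + k) atTop atTop :=
      tendsto_atTop_mono (fun k => Nat.le_add_left k N) tendsto_id
    exact projDeg_closed (g := fun k => mv (P (N + k))) (fun z _ => (hlim z).comp h2) fun k =>
      hD (P (N + k)) (hP _) ⟨z2, hz2, hN (N + k) (Nat.le_add_right _ _)⟩ (hPo _)

end Pool.Agent.R871.SG
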