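import Pool.Agent.R871.SG.ProjA

/-!
Entire curves of slow growth and the rational curves of a projective variety: the main statement.
-/

set_option autoImplicit false

namespace Pool.Agent.R871.SG

open Filter Topology Metric Set MvPolynomial

variable {n : ℕ} {ι κ : Type}

/-- Every holomorphic map `f` from the plane to `X = {F = 0}` with `f w ∈ K` which satisfies the
growth condition `Slow φ` is a limit, uniformly on compact sets, of rational curves in `X` which are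
at `w` in `K`. -/
def LimitsOfRational (F : ι → MvPolynomial (Fin (n + 1)) ℂ) (K : Set (Fin (n + 1) → ℂ))
    (φ : ℝ → ℝ) : Prop :=
  ∀ f, HolMap F f → Slow φ f → ∀ w, f w ∈ K → ∀ ρ η : ℝ, 0 < η →
    ∃ (q : Polynomial ℂ) (P : Fin (n + 1) → Polynomial ℂ), HolMap F (pv P) ∧ pv P w ∈ K ∧
      ∀ z, ‖z‖ ≤ ρ → ‖q.eval z • pv P z - f z‖ ≤ η

/-- All rational curves in `X = {F = 0}` which meet `K` lie in `Z = {G = 0}`. -/
def RationalIn (F : ι → MvPolynomial (Fin (n + 1)) ℂ) (K : Set (Fin (n + 1) → ℂ))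
    (G : κ → MvPolynomial (Fin (n + 1)) ℂ) : Prop :=
  ∀ P : Fin (n + 1) → Polynomial ℂ, HolMap F (pv P) → NonConst (pv P) → (∃ w, pv P w ∈ K) →
    ∀ z k, eval (pv P z) (G k) = 0

/-- All nonconstant entire curves in `X = {F = 0}` which meet `K` and satisfy the growth condition
`Slow φ` lie in `Z = {G = 0}`. -/
def SlowIn (F : ι → MvPolynomial (Fin (n + 1)) ℂ) (K : Set (Fin (n + 1) → ℂ)) (φ : ℝ → ℝ)
    (G : κ → MvPolynomial (Fin (n + 1)) ℂ) : Prop :=
  ∀ f, HolMap F f → NonConst f → Slow φ f → (∃ w, f w ∈ K) → ∀ z k, eval (f z) (G k) = 0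

theorem slow_iff {F : ι → MvPolynomial (Fin (n + 1)) ℂ} {K : Set (Fin (n + 1) → ℂ)} {φ : ℝ → ℝ}
    (hφ : Grows φ) (h : LimitsOfRational F K φ) (hKs : ∀ (a : ℂ), ∀ x ∈ K, a • x ∈ K)
    {G : κ → MvPolynomial (Fin (n + 1)) ℂ}
    (hG : ∀ k, ∃ d, (G k).IsHomogeneous d) : RationalIn F K G ↔ SlowIn F K φ G := by
  constructor
  · rintro hR f hf hnc hs ⟨w, hw⟩ z k
    exact closed_of_approx F G hG hf hnc (h f hf hs w hw)
      (fun P hP hPn hPK => hR P hP hPn ⟨w, hPK⟩) z k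
  · rintro hS P hP hPn hPK
    exact hS (pv P) hP hPn (slow_polyn hφ P) hPK

end Pool.Agent.R871.SG
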