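import Pool.Agent.R871.SG.Descent
import Pool.Agent.R871.SG.GGL

/-!
Finiteness of rational points over all finite extensions, and entire curves of slow growth.
-/

set_option autoImplicit false

namespace Pool.Agent.R871.SG

open MvPolynomial
open scoped LinearAlgebra.Projectivization

theorem aeval_smul_form {K L σ : Type} [Field K] [Field L] [Algebra K L] [Fintype σ]
    {G : MvPolynomial σ K} {d : ℕ} (hG : G.IsHomogeneous d) (a : L) (x : σ → L) :
    aeval (a • x) G = a ^ d * aeval x G := by
  classical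
  rw [aeval_def, aeval_def, eval₂_eq', eval₂_eq', Finset.mul_sum]
  refine Finset.sum_congr rfl fun m hm => ?_
  have hd : ∑ i, m i = d := by
    have h := hG (mem_support_iff.1 hm)
    rw [← h, Finsupp.weight_apply, Finsupp.sum_fintype _ _ (by simp)]
    simp
  simp only [Pi.smul_apply, smul_eq_mul, mul_pow, Finset.prod_mul_distrib,
    Finset.prod_pow_eq_pow_sum, hd]
  ring

/-- A nonzero polynomial over a field of characteristic zero has infinitely many integers which are
not roots. -/
theorem int_ne {L : Type} [Field L] [CharZero L] {R : Polynomial L} (hR : R ≠ 0) :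
    {t : ℤ | R.eval (t : L) = 0}.Finite := by
  classical
  have h0 : {z : L | R.eval z = 0}.Finite := by
    refine (R.roots.toFinset.finite_toSet).subset fun z hz => ?_
    simpa [Polynomial.mem_roots hR] using hz
  exact h0.preimage (f := fun t : ℤ => (t : L)) (Int.cast_injective.injOn)

theorem int_ne' {L : Type} [Field L] [CharZero L] {R : Polynomial L} {z : L} (hR : R.eval z ≠ 0) :
    ∃ t : ℤ, R.eval (t : L) ≠ 0 := by
  have h0 : R ≠ 0 := by rintro rfl; simp at hR
  have := (int_ne h0).infinite_compl.nonempty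
  obtain ⟨t, ht⟩ := this
  exact ⟨t, ht⟩

variable {n : ℕ} {ι κ : Type} {K : Type} [Field K]

/-- For every finite extension `L` of `K`, the projective variety `X = {F = 0}` has only finitely many
`L`-rational points outside `Z = {G = 0}`. -/
def FiniteOutside (F : ι → MvPolynomial (Fin (n + 1)) K) (G : κ → MvPolynomial (Fin (n + 1)) K) :
    Prop :=
  ∀ (L : Type) [Field L] [Algebra K L] [FiniteDimensional K L],
    {p : ℙ L (Fin (n + 1) → L) | (∀ i, aeval p.rep (F i) = 0) ∧ ∃ k, aeval p.rep (G k) ≠ 0}.Finite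

/-- A nonconstant polynomial curve gives infinitely many points. -/
theorem infinite_points {L : Type} [Field L] [Algebra K L] [CharZero L]
    (F : ι → MvPolynomial (Fin (n + 1)) K) (hF : ∀ i, ∃ d, (F i).IsHomogeneous d)
    (g : MvPolynomial (Fin (n + 1)) K) (hg : ∃ d, g.IsHomogeneous d)
    (Q : Fin (n + 1) → Polynomial L) (hQ : ∀ (z : ℤ) i, aeval (fun s => (Q s).eval (z : L)) (F i) = 0)
    {ta tb tc : ℤ} {i j : Fin (n + 1)} (hc : aeval (fun s => (Q s).eval (tc : L)) g ≠ 0)
    (hij : (Q i).eval (ta : L) * (Q j).eval (tb : L) - (Q j).eval (ta : L) * (Q i).eval (tb : L) ≠ 0) :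
    ¬ {p : ℙ L (Fin (n + 1) → L) | (∀ i, aeval p.rep (F i) = 0) ∧ aeval p.rep g ≠ 0}.Finite := by
  intro hfin
  set S := {p : ℙ L (Fin (n + 1) → L) | (∀ i, aeval p.rep (F i) = 0) ∧ aeval p.rep g ≠ 0} with hS
  set v : ℤ → Fin (n + 1) → L := fun t s => (Q s).eval (t : L) with hv
  -- the bad integers
  have hg0 : {t : ℤ | aeval (v t) g = 0}.Finite := by
    have hRe : ∀ z : L, (aeval Q g : Polynomial L).eval z = aeval (fun s => (Q s).eval z) g := by
      intro z
      have h3 := comp_aeval (R := K) Q ((Polynomial.aeval z).restrictScalars K : Polynomial L →ₐ[K] L)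
      have h4 := congrArg (fun h => h g) h3
      simpa [Polynomial.coe_aeval_eq_eval] using h4
    have hR0 : (aeval Q g : Polynomial L) ≠ 0 := by
      intro h
      apply hc
      rw [← hRe, h, Polynomial.eval_zero]
    refine (int_ne hR0).subset fun t ht => ?_
    change (aeval Q g : Polynomial L).eval (t : L) = 0
    rw [hRe]; exact ht
  obtain ⟨s, hs⟩ : ∃ s, (Q s).eval (ta : L) ≠ 0 := by
    by_contra h
    push Not at h
    simp [h] at hij
  have hv0 : {t : ℤ | v t = 0}.Finite := by
    refine (int_ne (R := Q s) (by rintro h; simp [h] at hs)).subset fun t ht => ?_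
    exact congrFun (show v t = 0 from ht) s
  set T : Set ℤ := {t | v t ≠ 0 ∧ aeval (v t) g ≠ 0} with hT
  have hTinf : T.Infinite := by
    have : T = ({t : ℤ | v t = 0} ∪ {t : ℤ | aeval (v t) g = 0})ᶜ := by
      ext t; simp [hT]
    rw [this]
    exact (hv0.union hg0).infinite_compl
  -- each point is attained finitely often
  have hfib : ∀ p : ℙ L (Fin (n + 1) → L), {t : ℤ | ∃ h : v t ≠ 0, Projectivization.mk L (v t) h = p}.Finite := by
    intro p
    by_contra hinf
    have hprop : ∀ a b (t : ℤ), (Q a).eval (t : L) * p.rep b - (Q b).eval (t : L) * p.rep a = 0 := by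
      intro a b
      by_contra h
      push Not at h
      obtain ⟨t0, ht0⟩ := h
      refine hinf ((int_ne (R := Q a * Polynomial.C (p.rep b) - Q b * Polynomial.C (p.rep a)) ?_).subset ?_)
      · intro h
        apply ht0
        have := congrArg (Polynomial.eval (t0 : L)) h
        simpa using this
      · rintro t ⟨ht, hp⟩
        obtain ⟨a', ha'⟩ := Projectivization.exists_smul_eq_mk_rep L (v t) ht
        rw [hp] at ha'
        change Polynomial.eval _ _ = 0
        rw [← ha']
        simp only [Polynomial.eval_sub, Polynomial.eval_mul, Polynomial.eval_C, Pi.smul_apply,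
          Units.smul_def, smul_eq_mul, hv]
        ring
    obtain ⟨b, hb⟩ : ∃ b, p.rep b ≠ 0 := by
      by_contra h
      push Not at h
      exact p.rep_nonzero (funext h)
    apply hij
    have h1 := hprop i b ta
    have h2 := hprop j b ta
    have h3 := hprop i b tb
    have h4 := hprop j b tb
    have h5 : ((Q i).eval (ta : L) * (Q j).eval (tb : L) -
        (Q j).eval (ta : L) * (Q i).eval (tb : L)) * (p.rep b * p.rep b) = 0 := by
      linear_combination ((Q j).eval (tb : L) * p.rep b) * h1 - ((Q i).eval (tb : L) * p.rep b) * h2 +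
        ((Q b).eval (ta : L) * p.rep i) * h4 - ((Q b).eval (ta : L) * p.rep j) * h3
    exact (mul_eq_zero.1 h5).resolve_right (mul_ne_zero hb hb)
  refine hTinf ((hfin.biUnion fun p _ => hfib p).subset ?_)
  rintro t ⟨ht1, ht2⟩
  simp only [Set.mem_iUnion]
  refine ⟨Projectivization.mk L (v t) ht1, ?_, ht1, rfl⟩
  obtain ⟨a, ha⟩ := Projectivization.exists_smul_eq_mk_rep L (v t) ht1
  have ha' : (Projectivization.mk L (v t) ht1).rep = (a : L) • v t := ha.symm
  refine ⟨fun i => ?_, ?_⟩
  · obtain ⟨d, hd⟩ := hF i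
    rw [ha', aeval_smul_form hd, hQ t i, mul_zero]
  · obtain ⟨d, hd⟩ := hg
    rw [ha', aeval_smul_form hd]
    exact mul_ne_zero (pow_ne_zero _ a.ne_zero) ht2

theorem rational_in_of_finite [CharZero K] {F : ι → MvPolynomial (Fin (n + 1)) K}
    {G : κ → MvPolynomial (Fin (n + 1)) K} (hF : ∀ i, ∃ d, (F i).IsHomogeneous d)
    (hG : ∀ k, ∃ d, (G k).IsHomogeneous d) (hfin : FiniteOutside F G) (τ : K →+* ℂ) :
    RationalIn (fun i => map τ (F i)) Set.univ (fun k => map τ (G k)) := by
  intro P hP hnc _ z0 k0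
  by_contra h0
  let _ : Algebra K ℂ := τ.toAlgebra
  have hmap : ∀ (x : Fin (n + 1) → ℂ) (f : MvPolynomial (Fin (n + 1)) K),
      eval x (map τ f) = aeval x f := fun x f => by
    rw [eval_map, aeval_def]; rfl
  rw [hmap] at h0
  -- integer points
  obtain ⟨tc, htc⟩ : ∃ t : ℤ, aeval (pv P t) (G k0) ≠ 0 := by
    have hRe : ∀ z : ℂ, (aeval P (G k0) : Polynomial ℂ).eval z = aeval (pv P z) (G k0) := by
      intro z
      have h3 := comp_aeval (R := K) P ((Polynomial.aeval z).restrictScalars K : Polynomial ℂ →ₐ[K] ℂ)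
      have h4 := congrArg (fun h => h (G k0)) h3
      change (aeval P (G k0) : Polynomial ℂ).eval z = aeval (fun j => (P j).eval z) (G k0)
      simpa [Polynomial.coe_aeval_eq_eval] using h4
    obtain ⟨t, ht⟩ := int_ne' (R := (aeval P (G k0) : Polynomial ℂ)) (z := z0) (by rw [hRe]; exact h0)
    exact ⟨t, by rw [← hRe]; exact ht⟩
  obtain ⟨za, zb, hab⟩ := hnc
  obtain ⟨i, j, hij⟩ := minors (hP.2.1 za) hab
  obtain ⟨ta, hta⟩ : ∃ t : ℤ, pv P t i * pv P zb j - pv P t j * pv P zb i ≠ 0 := by
    obtain ⟨t, ht⟩ := int_ne' (R := P i * Polynomial.C (pv P zb j) - P j * Polynomial.C (pv P zb i))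
      (z := za) (by simpa [pv] using hij)
    exact ⟨t, by simpa [pv] using ht⟩
  obtain ⟨tb, htb⟩ : ∃ t : ℤ, pv P ta i * pv P t j - pv P ta j * pv P t i ≠ 0 := by
    obtain ⟨t, ht⟩ := int_ne' (R := Polynomial.C (pv P ta i) * P j - Polynomial.C (pv P ta j) * P i)
      (z := zb) (by simpa [pv] using hta)
    exact ⟨t, by simpa [pv] using ht⟩
  -- descent
  obtain ⟨L, hL, Q, hQF, hQH⟩ := descent (K := K) (A := ℂ) F
    (rename (fun s => ((0 : Fin 3), s)) (G k0) *
      (X ((1 : Fin 3), i) * X ((2 : Fin 3), j) - X ((1 : Fin 3), j) * X ((2 : Fin 3), i)))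
    ![tc, ta, tb] P (fun z i => by
      have := hP.2.2 (z : ℂ) i
      rw [hmap] at this
      exact this) (by
      rw [map_mul, aeval_rename]
      refine mul_ne_zero htc ?_
      simpa [pv] using htb)
  rw [map_mul, aeval_rename] at hQH
  have hQ1 := left_ne_zero_of_mul hQH
  have hQ2 := right_ne_zero_of_mul hQH
  have := hL
  have hfinL := hfin L
  refine infinite_points F hF (G k0) (hG k0) Q (fun z i => hQF z i) (ta := ta) (tb := tb)
    (tc := tc) (i := i) (j := j) ?_ ?_ (hfinL.subset fun p hp => ⟨hp.1, k0, hp.2⟩)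
  · exact hQ1
  · simpa using hQ2

end Pool.Agent.R871.SG
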