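import Pool.Agent.R871.SG.ProjA

/-!
Entire curves of slow growth in varieties which are projective over an affine variety, and algebraic
maps from the affine line.
-/

set_option autoImplicit false

namespace Pool.Agent.R871.SG

open Filter Topology Metric Set MvPolynomial

variable {n m : ℕ} {ι κ : Type}

/-- The polynomials in `x_0, …, x_n` whose coefficients are polynomials in `y_1, …, y_m`. -/
abbrev Pol2 (n m : ℕ) : Type := MvPolynomial (Fin (n + 1)) (MvPolynomial (Fin m) ℂ)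

/-- The value of `F` at `x`, `y`. -/
noncomputable def ev2 (p : (Fin (n + 1) → ℂ) × (Fin m → ℂ)) (F : Pol2 n m) : ℂ :=
  eval p.1 (map (eval p.2) F)

theorem eval_iter (p : (Fin (n + 1) → ℂ) × (Fin m → ℂ)) (F : Pol2 n m) :
    eval (Sum.elim p.1 p.2) (iterToSum ℂ (Fin (n + 1)) (Fin m) F) = ev2 p F := by
  have h : (eval (Sum.elim p.1 p.2)).comp (iterToSum ℂ (Fin (n + 1)) (Fin m)) =
      (eval p.1).comp (map (eval p.2)) := by
    refine MvPolynomial.ringHom_ext' (MvPolynomial.ringHom_ext' ?_ ?_) ?_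
    · ext a
      simp [iterToSum_C_C]
    · intro i
      simp [iterToSum_C_X]
    · intro i
      simp [iterToSum_X]
  exact congrArg (fun g => g F) h

theorem ev2_smul {F : Pol2 n m} {d : ℕ} (hF : F.IsHomogeneous d) (a : ℂ) (x : Fin (n + 1) → ℂ)
    (y : Fin m → ℂ) : ev2 (a • x, y) F = a ^ d * ev2 (x, y) F :=
  eval_smul_form (hF.map _) a x

/-- `f` is a holomorphic map from the plane to the closed subvariety `{F = 0}` of `ℙⁿ × ℂᵐ`: the
components are homogeneous coordinates without common zeros, and affine coordinates. -/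
def HolMap2 (F : ι → Pol2 n m) (f : ℂ → (Fin (n + 1) → ℂ) × (Fin m → ℂ)) : Prop :=
  Differentiable ℂ f ∧ (∀ z, (f z).1 ≠ 0) ∧ ∀ z i, ev2 (f z) (F i) = 0

/-- `f` is not constant as a map to `ℙⁿ × ℂᵐ`. -/
def NonConst2 (f : ℂ → (Fin (n + 1) → ℂ) × (Fin m → ℂ)) : Prop :=
  ∃ z w, (∀ a : ℂ, (f w).1 ≠ a • (f z).1) ∨ (f w).2 ≠ (f z).2

/-- The values of the polynomials `P`, `R`; so this is an algebraic map from the affine line if it is
a holomorphic map. -/
noncomputable def pv2 (P : Fin (n + 1) → Polynomial ℂ) (R : Fin m → Polynomial ℂ) (z : ℂ) :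
    (Fin (n + 1) → ℂ) × (Fin m → ℂ) :=
  (fun j => (P j).eval z, fun j => (R j).eval z)

/-- Every holomorphic map `f` from the plane to `V = {F = 0}` with `f w ∈ K` which satisfies the
growth condition `Slow φ` is a limit, uniformly on compact sets, of algebraic maps from the affine
line to `V` which are at `w` in `K`. -/
def LimitsOfAlg (F : ι → Pol2 n m) (K : Set ((Fin (n + 1) → ℂ) × (Fin m → ℂ))) (φ : ℝ → ℝ) : Prop :=
  ∀ f, HolMap2 F f → Slow φ f → ∀ w, f w ∈ K → ∀ ρ η : ℝ, 0 < η →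
    ∃ (q : Polynomial ℂ) (P : Fin (n + 1) → Polynomial ℂ) (R : Fin m → Polynomial ℂ),
      HolMap2 F (pv2 P R) ∧ pv2 P R w ∈ K ∧
      ∀ z, ‖z‖ ≤ ρ → ‖(q.eval z • (pv2 P R z).1, (pv2 P R z).2) - f z‖ ≤ η

/-- All nonconstant algebraic maps from the affine line to `V = {F = 0}` which meet `K` have their
image in `Z = {G = 0}`. -/
def AlgIn (F : ι → Pol2 n m) (K : Set ((Fin (n + 1) → ℂ) × (Fin m → ℂ))) (G : κ → Pol2 n m) :
    Prop :=
  ∀ P R, HolMap2 F (pv2 P R) → NonConst2 (pv2 P R) → (∃ w, pv2 P R w ∈ K) →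
    ∀ z k, ev2 (pv2 P R z) (G k) = 0

/-- All nonconstant entire curves in `V = {F = 0}` which meet `K` and satisfy the growth condition
`Slow φ` lie in `Z = {G = 0}`. -/
def SlowIn2 (F : ι → Pol2 n m) (K : Set ((Fin (n + 1) → ℂ) × (Fin m → ℂ))) (φ : ℝ → ℝ)
    (G : κ → Pol2 n m) : Prop :=
  ∀ f, HolMap2 F f → NonConst2 f → Slow φ f → (∃ w, f w ∈ K) → ∀ z k, ev2 (f z) (G k) = 0

theorem cont_ev2 (G : Pol2 n m) :
    Continuous fun p : (Fin (n + 1) → ℂ) × (Fin m → ℂ) => ev2 p G := by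
  have h : (fun p : (Fin (n + 1) → ℂ) × (Fin m → ℂ) => ev2 p G) = fun p =>
      eval (Sum.elim p.1 p.2) (iterToSum ℂ (Fin (n + 1)) (Fin m) G) := by
    funext p; rw [eval_iter]
  rw [h]
  refine (MvPolynomial.continuous_eval _).comp (continuous_pi fun s => ?_)
  rcases s with s | s
  · exact (continuous_apply s).comp continuous_fst
  · exact (continuous_apply s).comp continuous_snd

theorem reduce2 (F : ι → Pol2 n m) (hF : ∀ i, ∃ d, (F i).IsHomogeneous d)
    {P : Fin (n + 1) → Polynomial ℂ} {R : Fin m → Polynomial ℂ} (hP : ∃ z, (pv2 P R z).1 ≠ 0)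
    (hPF : ∀ z i, ev2 (pv2 P R z) (F i) = 0) :
    ∃ (q : Polynomial ℂ) (P' : Fin (n + 1) → Polynomial ℂ),
      (∀ z, (pv2 P R z).1 = q.eval z • (pv2 P' R z).1) ∧ HolMap2 F (pv2 P' R) := by
  obtain ⟨q, P', hP', hq, hne⟩ := clear hP
  have hqP : ∀ z, (pv2 P R z).1 = q.eval z • (pv2 P' R z).1 := by
    intro z
    ext j
    simp [pv2, hP' j]
  have hpd : Differentiable ℂ (pv2 P' R) :=
    (differentiable_pi.2 fun j => (P' j).differentiable).prodMk
      (differentiable_pi.2 fun j => (R j).differentiable)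
  refine ⟨q, P', hqP, hpd, hne, fun z i => ?_⟩
  obtain ⟨d, hd⟩ := hF i
  have h1 : ∀ z, q.eval z ≠ 0 → ev2 (pv2 P' R z) (F i) = 0 := by
    intro z hz
    have h2 := hPF z i
    have h3 : pv2 P R z = (q.eval z • (pv2 P' R z).1, (pv2 P' R z).2) := by
      rw [← hqP z]; rfl
    rw [h3, ev2_smul hd] at h2
    exact (mul_eq_zero.1 h2).resolve_left (pow_ne_zero _ hz)
  have hcont : Continuous fun z => ev2 (pv2 P' R z) (F i) :=
    (cont_ev2 (F i)).comp hpd.continuous
  have hdense : Dense {z : ℂ | q.eval z ≠ 0} := by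
    have hfin : {z : ℂ | q.eval z = 0}.Finite := by
      refine (q.roots.toFinset.finite_toSet).subset fun z hz => ?_
      simpa [Polynomial.mem_roots hq] using hz
    have : {z : ℂ | q.eval z ≠ 0} = {z : ℂ | q.eval z = 0}ᶜ := by ext; simp
    rw [this]
    exact hfin.countable.dense_compl ℂ
  have h3 : (fun z => ev2 (pv2 P' R z) (F i)) = fun _ => 0 :=
    hcont.ext_on hdense continuous_const h1
  exact congrFun h3 z

theorem pv2_slow {φ : ℝ → ℝ} (hφ : Grows φ) (P : Fin (n + 1) → Polynomial ℂ)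
    (R : Fin m → Polynomial ℂ) : Slow φ (pv2 P R) := by
  -- all polynomials together
  have e : (n + 1) + m = (n + m) + 1 := by omega
  have h := slow_polyn (n := n + m) hφ fun j => Sum.elim P R (finSumFinEquiv.symm (Fin.cast e.symm j))
  intro T
  obtain ⟨r, hr, hz⟩ := h T
  refine ⟨r, hr, fun z hzr => ?_⟩
  have h1 := hz z hzr
  have h2 : ‖pv2 P R z‖ = ‖pv (n := n + m) (fun j => Sum.elim P R
      (finSumFinEquiv.symm (Fin.cast e.symm j))) z‖ := by
    apply le_antisymm
    · refine (Prod.norm_def _).trans_le (max_le ?_ ?_)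
      · refine (pi_norm_le_iff_of_nonneg (norm_nonneg _)).2 fun j => ?_
        have := norm_le_pi_norm (pv (n := n + m) (fun j => Sum.elim P R
          (finSumFinEquiv.symm (Fin.cast e.symm j))) z) (Fin.cast e (finSumFinEquiv (Sum.inl j)))
        simpa [pv, pv2] using this
      · refine (pi_norm_le_iff_of_nonneg (norm_nonneg _)).2 fun j => ?_
        have := norm_le_pi_norm (pv (n := n + m) (fun j => Sum.elim P R
          (finSumFinEquiv.symm (Fin.cast e.symm j))) z) (Fin.cast e (finSumFinEquiv (Sum.inr j)))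
        simpa [pv, pv2] using this
    · refine (pi_norm_le_iff_of_nonneg (norm_nonneg _)).2 fun j => ?_
      obtain ⟨s, hs⟩ : ∃ s, s = finSumFinEquiv.symm (Fin.cast e.symm j) := ⟨_, rfl⟩
      simp only [pv]
      rw [← hs]
      rcases s with s | s
      · exact (norm_le_pi_norm (pv2 P R z).1 s).trans (norm_fst_le _)
      · exact (norm_le_pi_norm (pv2 P R z).2 s).trans (norm_snd_le _)
  rw [h2]
  exact h1

theorem limits_alg (F : ι → Pol2 n m) (hF : ∀ i, ∃ d, (F i).IsHomogeneous d)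
    {K : Set ((Fin (n + 1) → ℂ) × (Fin m → ℂ))} (hK : IsClosed K)
    (hKs : ∀ (a : ℂ), ∀ p ∈ K, (a • p.1, p.2) ∈ K) : ∃ φ : ℝ → ℝ, Grows φ ∧ LimitsOfAlg F K φ := by
  set K' : Set (Fin (n + 1) ⊕ Fin m → ℂ) :=
    (fun v => ((fun j => v (Sum.inl j), fun j => v (Sum.inr j)) :
      (Fin (n + 1) → ℂ) × (Fin m → ℂ))) ⁻¹' K with hK'
  have hK'c : IsClosed K' := hK.preimage (by fun_prop)
  obtain ⟨φ, hφ, h⟩ := approx_poly (fun i => iterToSum ℂ (Fin (n + 1)) (Fin m) (F i))
    (fun k => if k = 0 then K' else univ) (by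
      intro k
      by_cases hk : k = 0
      · simpa [hk] using hK'c
      · simp [hk])
  refine ⟨φ, hφ, fun f hf hs w hw ρ η hη => ?_⟩
  set g : ℂ → Fin (n + 1) ⊕ Fin m → ℂ := fun z => Sum.elim (f z).1 (f z).2 with hg
  have hgd : Differentiable ℂ g := by
    refine differentiable_pi.2 fun s => ?_
    rcases s with s | s
    · exact differentiable_pi.1 (differentiable_fst.comp hf.1) s
    · exact differentiable_pi.1 (differentiable_snd.comp hf.1) s
  have hgn : ∀ z, ‖g z‖ = ‖f z‖ := by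
    intro z
    apply le_antisymm
    · refine (pi_norm_le_iff_of_nonneg (norm_nonneg _)).2 fun s => ?_
      rcases s with s | s
      · exact (norm_le_pi_norm (f z).1 s).trans (norm_fst_le _)
      · exact (norm_le_pi_norm (f z).2 s).trans (norm_snd_le _)
    · refine (Prod.norm_def _).trans_le (max_le ?_ ?_)
      · exact (pi_norm_le_iff_of_nonneg (norm_nonneg _)).2 fun j =>
          norm_le_pi_norm (g z) (Sum.inl j)
      · exact (pi_norm_le_iff_of_nonneg (norm_nonneg _)).2 fun j =>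
          norm_le_pi_norm (g z) (Sum.inr j)
  have hgs : Slow φ g := by
    intro T
    obtain ⟨r, hr, hz⟩ := hs T
    exact ⟨r, hr, fun z hzr => by rw [hgn]; exact hz z hzr⟩
  have hfw : 0 < ‖(f w).1‖ := norm_pos_iff.2 (hf.2.1 w)
  obtain ⟨c, D, hc0, hcL, hcF, hcc⟩ := h g w hgd (fun z i => by
    rw [hg, eval_iter]; exact hf.2.2 z i) hgs (by
      intro k
      by_cases hk : k = 0
      · subst hk
        rw [coef_zero]
        simpa [hK', hg] using hw
      · simp [hk]) (max (ρ + ‖w‖) 0) (min η (‖(f w).1‖ / 2)) (lt_min hη (by positivity))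
  -- the polynomials
  set P : Fin (n + 1) → Polynomial ℂ := fun j => polA c D w (Sum.inl j) with hP
  set R : Fin m → Polynomial ℂ := fun j => polA c D w (Sum.inr j) with hR
  have hev : ∀ z, Sum.elim (pv2 P R z).1 (pv2 P R z).2 = ser c (z - w) := by
    intro z
    rw [← polA_eval hc0 w z]
    ext s
    rcases s with s | s <;> rfl
  have hcl : ∀ z, ‖pv2 P R z - f z‖ ≤ ‖ser c (z - w) - g z‖ := by
    intro z
    rw [← hev z, hg]
    refine (Prod.norm_def _).trans_le (max_le ?_ ?_)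
    · exact (pi_norm_le_iff_of_nonneg (norm_nonneg _)).2 fun j =>
        norm_le_pi_norm (Sum.elim (pv2 P R z).1 (pv2 P R z).2 - Sum.elim (f z).1 (f z).2) (Sum.inl j)
    · exact (pi_norm_le_iff_of_nonneg (norm_nonneg _)).2 fun j =>
        norm_le_pi_norm (Sum.elim (pv2 P R z).1 (pv2 P R z).2 - Sum.elim (f z).1 (f z).2) (Sum.inr j)
  have hcw : ‖(pv2 P R w).1 - (f w).1‖ ≤ ‖(f w).1‖ / 2 := by
    have h1 := (hcc 0 (by simp)).trans (min_le_right _ _)
    have h2 := hcl w
    rw [sub_self] at h2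
    rw [add_zero] at h1
    exact (norm_fst_le (pv2 P R w - f w)).trans (h2.trans h1)
  have hne : (pv2 P R w).1 ≠ 0 := by
    intro h0
    rw [h0, zero_sub, norm_neg] at hcw
    linarith
  obtain ⟨q, P', hqP, hP'⟩ := reduce2 F hF ⟨w, hne⟩ fun z i => by
    rw [← eval_iter, hev]; exact hcF _ i
  have hqw : q.eval w ≠ 0 := by
    intro h0
    rw [hqP, h0, zero_smul] at hne
    exact hne rfl
  refine ⟨q, P', R, hP', ?_, fun z hz => ?_⟩
  · have h1 : (pv2 P' R w).1 = (q.eval w)⁻¹ • (pv2 P R w).1 := by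
      rw [hqP, smul_smul, inv_mul_cancel₀ hqw, one_smul]
    have h2 : pv2 P' R w = ((q.eval w)⁻¹ • (pv2 P R w).1, (pv2 P R w).2) := by
      rw [← h1]; rfl
    rw [h2]
    refine hKs _ _ ?_
    have h3 : c 0 ∈ K' := by simpa using hcL 0
    have h4 : Sum.elim (pv2 P R w).1 (pv2 P R w).2 = c 0 := by
      rw [hev, sub_self, ser_zero]
    rw [← h4] at h3
    simpa [hK'] using h3
  · rw [← hqP]
    have h2 := hcc (z - w) ((norm_sub_le z w).trans ((by linarith : ‖z‖ + ‖w‖ ≤ ρ + ‖w‖).trans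
      (le_max_left _ _)))
    rw [add_sub_cancel] at h2
    exact (hcl z).trans (h2.trans (min_le_left _ _))

theorem slow_iff2 {F : ι → Pol2 n m} {K : Set ((Fin (n + 1) → ℂ) × (Fin m → ℂ))} {φ : ℝ → ℝ}
    (hφ : Grows φ) (h : LimitsOfAlg F K φ) {G : κ → Pol2 n m}
    (hG : ∀ k, ∃ d, (G k).IsHomogeneous d) : AlgIn F K G ↔ SlowIn2 F K φ G := by
  constructor
  swap
  · intro hS P R hP hPn hPK
    exact hS (pv2 P R) hP hPn (pv2_slow hφ P R) hPK
  rintro hR f hf ⟨za, zb, hab⟩ hs ⟨w, hw⟩ z k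
  obtain ⟨e, he⟩ := hG k
  -- closeness which implies that an approximation is not constant
  obtain ⟨ε, hε, hnb⟩ : ∃ ε > 0, ∀ (q : Polynomial ℂ) (P : Fin (n + 1) → Polynomial ℂ)
      (R : Fin m → Polynomial ℂ),
      ‖(q.eval za • (pv2 P R za).1, (pv2 P R za).2) - f za‖ < ε →
      ‖(q.eval zb • (pv2 P R zb).1, (pv2 P R zb).2) - f zb‖ < ε → NonConst2 (pv2 P R) := by
    rcases hab with hab | hab
    · obtain ⟨i, j, hij⟩ := minors (hf.2.1 za) hab
      have hcont : Continuous fun p : (Fin (n + 1) → ℂ) × (Fin (n + 1) → ℂ) =>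
          p.1 i * p.2 j - p.1 j * p.2 i := by fun_prop
      have hnb := hcont.continuousAt (x := ((f za).1, (f zb).1)) |>.eventually_ne hij
      rw [Metric.eventually_nhds_iff] at hnb
      obtain ⟨ε, hε, hnb⟩ := hnb
      refine ⟨ε, hε, fun q P R h1 h2 => ⟨za, zb, Or.inl fun a ha => ?_⟩⟩
      refine hnb (y := (q.eval za • (pv2 P R za).1, q.eval zb • (pv2 P R zb).1)) ?_ ?_
      · rw [Prod.dist_eq, max_lt_iff, dist_eq_norm, dist_eq_norm]
        exact ⟨(norm_fst_le ((q.eval za • (pv2 P R za).1, (pv2 P R za).2) - f za)).trans_lt h1,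
          (norm_fst_le ((q.eval zb • (pv2 P R zb).1, (pv2 P R zb).2) - f zb)).trans_lt h2⟩
      · simp only [ha, Pi.smul_apply, smul_eq_mul]
        ring
    · have hd : 0 < ‖(f zb).2 - (f za).2‖ := norm_pos_iff.2 (sub_ne_zero.2 hab)
      refine ⟨‖(f zb).2 - (f za).2‖ / 2, by positivity, fun q P R h1 h2 =>
        ⟨za, zb, Or.inr fun ha => ?_⟩⟩
      have h3 := (norm_snd_le ((q.eval za • (pv2 P R za).1, (pv2 P R za).2) - f za)).trans_lt h1
      have h4 := (norm_snd_le ((q.eval zb • (pv2 P R zb).1, (pv2 P R zb).2) - f zb)).trans_lt h2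
      simp only [Prod.snd_sub] at h3 h4
      rw [ha] at h4
      have h5 : (f zb).2 - (f za).2 = ((pv2 P R za).2 - (f za).2) - ((pv2 P R za).2 - (f zb).2) := by
        abel
      have h6 := norm_sub_le ((pv2 P R za).2 - (f za).2) ((pv2 P R za).2 - (f zb).2)
      rw [← h5] at h6
      linarith
  have h3 : ∀ l : ℕ, ∃ x' : (Fin (n + 1) → ℂ) × (Fin m → ℂ), ‖x' - f z‖ ≤ 1 / ((l : ℝ) + 1) ∧
      ev2 x' (G k) = 0 := by
    intro l
    obtain ⟨q, P, R, hP, hPK, hc⟩ := h f hf hs w hw (‖za‖ + ‖zb‖ + ‖z‖)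
      (min (1 / ((l : ℝ) + 1)) (ε / 2)) (lt_min (by positivity) (by positivity))
    have hna := norm_nonneg za
    have hnb' := norm_nonneg zb
    have hnz := norm_nonneg z
    have hca := (hc za (by linarith)).trans (min_le_right _ _)
    have hcb := (hc zb (by linarith)).trans (min_le_right _ _)
    have hncP : NonConst2 (pv2 P R) := hnb q P R (by linarith) (by linarith)
    refine ⟨(q.eval z • (pv2 P R z).1, (pv2 P R z).2), (hc z (by linarith)).trans
      (min_le_left _ _), ?_⟩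
    rw [ev2_smul he, hR P R hP hncP ⟨w, hPK⟩ z k, mul_zero]
  choose x hx1 hx2 using h3
  have h4 : Tendsto x atTop (𝓝 (f z)) := by
    rw [tendsto_iff_norm_sub_tendsto_zero]
    exact squeeze_zero (fun _ => norm_nonneg _) hx1 tendsto_one_div_add_atTop_nhds_zero_nat
  have h5 := ((cont_ev2 (G k)).tendsto _).comp h4
  refine tendsto_nhds_unique h5 ?_
  simp only [Function.comp_def, hx2]
  exact tendsto_const_nhds

end Pool.Agent.R871.SG
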