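import Pool.Agent.R871.SG.Arith
import Pool.Agent.R871.SG.Rel

/-!
Finiteness of integral points over all rings of integers with finitely many inverted primes, and
entire curves of slow growth.
-/

set_option autoImplicit false

namespace Pool.Agent.R871.SG

open MvPolynomial
open scoped LinearAlgebra.Projectivization

variable {n m : ℕ} {ι κ : Type} {K : Type} [Field K]

/-- The polynomials in `x_0, …, x_n` whose coefficients are polynomials in `y_1, …, y_m` over `K`. -/
abbrev PolK (K : Type) [Field K] (n m : ℕ) : Type := MvPolynomial (Fin (n + 1)) (MvPolynomial (Fin m) K)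

/-- The value of `F` at `x`, `y`, with coordinates in an extension field of `K`. -/
noncomputable def evK {L : Type} [Field L] [Algebra K L] (x : Fin (n + 1) → L) (y : Fin m → L)
    (F : PolK K n m) : L := eval₂ (aeval y : MvPolynomial (Fin m) K →ₐ[K] L).toRingHom x F

/-- The elements of `L` which are integral after multiplication by a power of `N`; these are the
`S`-integers of the number field `L`, for the places `S` which divide `N` or are infinite. -/
def SInt {L : Type} [Field L] (N : ℕ) (a : L) : Prop := ∃ k : ℕ, IsIntegral ℤ ((N : L) ^ k * a)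

/-- For every finite extension `L` of `K` and every positive integer `N` there are only finitely many
points `(x, y)` outside of `Z = {G = 0}` of the closed subvariety `V = {F = 0}` of `ℙⁿ × 𝔸ᵐ`, with
`x` in `ℙⁿ(L)` and with coordinates `y_j` in the ring of `S`-integers of `L`, where `S` consists of
the places which divide `N` or are infinite. -/
def FiniteIntegral (F : ι → PolK K n m) (G : κ → PolK K n m) : Prop :=
  ∀ (L : Type) [Field L] [Algebra K L] [FiniteDimensional K L] (N : ℕ), 0 < N →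
    {p : ℙ L (Fin (n + 1) → L) × (Fin m → L) | (∀ j, SInt N (p.2 j)) ∧
      (∀ i, evK p.1.rep p.2 (F i) = 0) ∧ ∃ k, evK p.1.rep p.2 (G k) ≠ 0}.Finite

theorem evK_iter {L : Type} [Field L] [Algebra K L] (x : Fin (n + 1) → L) (y : Fin m → L)
    (F : PolK K n m) : aeval (Sum.elim x y) (iterToSum K (Fin (n + 1)) (Fin m) F) = evK x y F := by
  have h : ((aeval (Sum.elim x y) : MvPolynomial (Fin (n + 1) ⊕ Fin m) K →ₐ[K] L).toRingHom).comp
      (iterToSum K (Fin (n + 1)) (Fin m)) =
      eval₂Hom (aeval y : MvPolynomial (Fin m) K →ₐ[K] L).toRingHom x := by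
    refine MvPolynomial.ringHom_ext' (MvPolynomial.ringHom_ext' ?_ ?_) ?_
    · ext a
      simp [iterToSum_C_C]
    · intro i
      simp [iterToSum_C_X]
    · intro i
      simp [iterToSum_X]
  exact congrArg (fun g => g F) h

theorem evK_smul {L : Type} [Field L] [Algebra K L] {F : PolK K n m} {d : ℕ}
    (hF : F.IsHomogeneous d) (a : L) (x : Fin (n + 1) → L) (y : Fin m → L) :
    evK (a • x) y F = a ^ d * evK x y F := by
  classical
  rw [evK, evK, eval₂_eq', eval₂_eq', Finset.mul_sum]
  refine Finset.sum_congr rfl fun m hm => ?_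
  have hd : ∑ i, m i = d := by
    have h := hF (mem_support_iff.1 hm)
    rw [← h, Finsupp.weight_apply, Finsupp.sum_fintype _ _ (by simp)]
    simp
  simp only [Pi.smul_apply, smul_eq_mul, mul_pow, Finset.prod_mul_distrib,
    Finset.prod_pow_eq_pow_sum, hd]
  ring

theorem evK_C (τ : K →+* ℂ) (p : (Fin (n + 1) → ℂ) × (Fin m → ℂ)) (F : PolK K n m) :
    ev2 p (map (map τ) F) = @evK n m K _ ℂ _ τ.toAlgebra p.1 p.2 F := by
  let _ : Algebra K ℂ := τ.toAlgebra
  rw [ev2, map_map, eval_map]
  change _ = eval₂ (aeval p.2 : MvPolynomial (Fin m) K →ₐ[K] ℂ).toRingHom p.1 F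
  congr 1
  refine MvPolynomial.ringHom_ext' ?_ ?_
  · ext a
    simp
    rfl
  · intro i
    simp

/-- The integral polynomial values have bounded denominators. -/
theorem sInt_poly {L : Type} [Field L] [Algebra K L] [NumberField K] [FiniteDimensional K L]
    [CharZero L] {σ : Type} [Fintype σ] (Q : σ → Polynomial L) :
    ∃ N : ℕ, 0 < N ∧ ∀ (t : ℤ) s, SInt N ((Q s).eval (t : L)) := by
  have halg : Algebra.IsAlgebraic ℚ L := by
    have : Algebra.IsAlgebraic K L := Algebra.IsAlgebraic.of_finite K L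
    have h2 : Algebra.IsAlgebraic ℚ K := inferInstance
    have : IsScalarTower ℚ K L := inferInstance
    exact Algebra.IsAlgebraic.trans ℚ K L
  have halgZ : Algebra.IsAlgebraic ℤ L := by
    exact (IsFractionRing.comap_isAlgebraic_iff (A := ℤ) (K := ℚ) (C := L)).2 halg
  have h1 : ∀ a : L, ∃ N : ℕ, 0 < N ∧ IsIntegral ℤ ((N : L) * a) := by
    intro a
    obtain ⟨y, hy0, hy⟩ := (halgZ.isAlgebraic a).exists_integral_multiple
    refine ⟨y.natAbs, Int.natAbs_pos.2 hy0, ?_⟩
    have h2 : ((y.natAbs : ℕ) : L) = ((y.natAbs : ℤ) : L) := (Int.cast_natCast _).symm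
    rw [h2]
    rcases Int.natAbs_eq y with h | h
    · rw [← h]
      simpa [zsmul_eq_mul] using hy
    · have h3 : (y.natAbs : ℤ) = -y := by omega
      rw [h3]
      have h4 := hy.neg
      simpa [zsmul_eq_mul] using h4
  choose N hN0 hN using h1
  classical
  refine ⟨∏ s, ∏ i ∈ Finset.range ((Q s).natDegree + 1), N ((Q s).coeff i),
    Finset.prod_pos fun s _ => Finset.prod_pos fun i _ => hN0 _, fun t s => ⟨1, ?_⟩⟩
  rw [pow_one, Polynomial.eval_eq_sum_range, Finset.mul_sum]
  refine IsIntegral.sum _ fun i hi => ?_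
  obtain ⟨c, hc⟩ : N ((Q s).coeff i) ∣ ∏ s, ∏ i ∈ Finset.range ((Q s).natDegree + 1),
      N ((Q s).coeff i) :=
    (Finset.dvd_prod_of_mem _ hi).trans (Finset.dvd_prod_of_mem
      (fun s => ∏ i ∈ Finset.range ((Q s).natDegree + 1), N ((Q s).coeff i)) (Finset.mem_univ s))
  rw [hc]
  have h5 : ((N ((Q s).coeff i) * c : ℕ) : L) * ((Q s).coeff i * (t : L) ^ i) =
      ((N ((Q s).coeff i) : L) * (Q s).coeff i) * ((c : L) * (t : L) ^ i) := by
    push_cast; ring
  rw [h5]
  refine (hN _).mul (IsIntegral.mul ?_ (IsIntegral.pow ?_ i))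
  · exact_mod_cast isIntegral_algebraMap (R := ℤ) (A := L) (x := (c : ℤ))
  · exact isIntegral_algebraMap (R := ℤ) (A := L) (x := t)

/-- A nonconstant polynomial curve gives infinitely many points. -/
theorem infinite_points2 {L : Type} [Field L] [Algebra K L] [CharZero L]
    (F : ι → PolK K n m) (hF : ∀ i, ∃ d, (F i).IsHomogeneous d)
    (g : PolK K n m) (hg : ∃ d, g.IsHomogeneous d)
    (Q : Fin (n + 1) ⊕ Fin m → Polynomial L) (N : ℕ) (hN : ∀ (t : ℤ) s, SInt N ((Q s).eval (t : L)))
    (hQ : ∀ (z : ℤ) i, evK (fun s => (Q (Sum.inl s)).eval (z : L))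
      (fun s => (Q (Sum.inr s)).eval (z : L)) (F i) = 0)
    {ta tb tc td : ℤ} {s0 : Fin (n + 1)} (hd : (Q (Sum.inl s0)).eval (td : L) ≠ 0)
    (hc : evK (fun s => (Q (Sum.inl s)).eval (tc : L)) (fun s => (Q (Sum.inr s)).eval (tc : L)) g ≠ 0)
    (hij : (∃ i j : Fin (n + 1), (Q (Sum.inl i)).eval (ta : L) * (Q (Sum.inl j)).eval (tb : L) -
      (Q (Sum.inl j)).eval (ta : L) * (Q (Sum.inl i)).eval (tb : L) ≠ 0) ∨
      ∃ j : Fin m, (Q (Sum.inr j)).eval (ta : L) ≠ (Q (Sum.inr j)).eval (tb : L)) :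
    ¬ {p : ℙ L (Fin (n + 1) → L) × (Fin m → L) | (∀ j, SInt N (p.2 j)) ∧
      (∀ i, evK p.1.rep p.2 (F i) = 0) ∧ evK p.1.rep p.2 g ≠ 0}.Finite := by
  intro hfin
  set v : ℤ → Fin (n + 1) → L := fun t s => (Q (Sum.inl s)).eval (t : L) with hv
  set y : ℤ → Fin m → L := fun t s => (Q (Sum.inr s)).eval (t : L) with hy
  -- the bad integers
  have hg0 : {t : ℤ | evK (v t) (y t) g = 0}.Finite := by
    set g' := iterToSum K (Fin (n + 1)) (Fin m) g with hg'
    have hRe : ∀ z : L, (aeval Q g' : Polynomial L).eval z =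
        evK (fun s => (Q (Sum.inl s)).eval z) (fun s => (Q (Sum.inr s)).eval z) g := by
      intro z
      rw [← evK_iter]
      have h3 := comp_aeval (R := K) Q ((Polynomial.aeval z).restrictScalars K : Polynomial L →ₐ[K] L)
      have h4 := congrArg (fun h => h g') h3
      have h5 : (Sum.elim (fun s => (Q (Sum.inl s)).eval z) (fun s => (Q (Sum.inr s)).eval z)) =
          fun s => (Q s).eval z := by
        funext s; rcases s with s | s <;> rfl
      rw [h5]
      simpa [Polynomial.coe_aeval_eq_eval] using h4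
    have hR0 : (aeval Q g' : Polynomial L) ≠ 0 := by
      intro h
      apply hc
      rw [← hRe, h, Polynomial.eval_zero]
    refine (int_ne hR0).subset fun t ht => ?_
    change (aeval Q g' : Polynomial L).eval (t : L) = 0
    rw [hRe]; exact ht
  have hv0 : {t : ℤ | v t = 0}.Finite := by
    refine (int_ne (R := Q (Sum.inl s0)) (by rintro h; simp [h] at hd)).subset fun t ht => ?_
    exact congrFun (show v t = 0 from ht) s0
  set T : Set ℤ := {t | v t ≠ 0 ∧ evK (v t) (y t) g ≠ 0} with hT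
  have hTinf : T.Infinite := by
    have : T = ({t : ℤ | v t = 0} ∪ {t : ℤ | evK (v t) (y t) g = 0})ᶜ := by
      ext t; simp [hT]
    rw [this]
    exact (hv0.union hg0).infinite_compl
  -- each point is attained finitely often
  have hfib : ∀ p : ℙ L (Fin (n + 1) → L) × (Fin m → L),
      {t : ℤ | y t = p.2 ∧ ∃ h : v t ≠ 0, Projectivization.mk L (v t) h = p.1}.Finite := by
    intro p
    rcases hij with ⟨i, j, hij⟩ | ⟨j, hj⟩
    · by_contra hinf
      have hprop : ∀ a b (t : ℤ), (Q (Sum.inl a)).eval (t : L) * p.1.rep b -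
          (Q (Sum.inl b)).eval (t : L) * p.1.rep a = 0 := by
        intro a b
        by_contra h
        push Not at h
        obtain ⟨t0, ht0⟩ := h
        refine hinf ((int_ne (R := Q (Sum.inl a) * Polynomial.C (p.1.rep b) -
          Q (Sum.inl b) * Polynomial.C (p.1.rep a)) ?_).subset ?_)
        · intro h
          apply ht0
          have := congrArg (Polynomial.eval (t0 : L)) h
          simpa using this
        · rintro t ⟨-, ht, hp⟩
          obtain ⟨a', ha'⟩ := Projectivization.exists_smul_eq_mk_rep L (v t) ht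
          rw [hp] at ha'
          change Polynomial.eval _ _ = 0
          rw [← ha']
          simp only [Polynomial.eval_sub, Polynomial.eval_mul, Polynomial.eval_C, Pi.smul_apply,
            Units.smul_def, smul_eq_mul, hv]
          ring
      obtain ⟨b, hb⟩ : ∃ b, p.1.rep b ≠ 0 := by
        by_contra h
        push Not at h
        exact p.1.rep_nonzero (funext h)
      apply hij
      have h1 := hprop i b ta
      have h2 := hprop j b ta
      have h3 := hprop i b tb
      have h4 := hprop j b tb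
      have h5 : ((Q (Sum.inl i)).eval (ta : L) * (Q (Sum.inl j)).eval (tb : L) -
          (Q (Sum.inl j)).eval (ta : L) * (Q (Sum.inl i)).eval (tb : L)) *
            (p.1.rep b * p.1.rep b) = 0 := by
        linear_combination ((Q (Sum.inl j)).eval (tb : L) * p.1.rep b) * h1 -
          ((Q (Sum.inl i)).eval (tb : L) * p.1.rep b) * h2 +
          ((Q (Sum.inl b)).eval (ta : L) * p.1.rep i) * h4 -
          ((Q (Sum.inl b)).eval (ta : L) * p.1.rep j) * h3
      exact (mul_eq_zero.1 h5).resolve_right (mul_ne_zero hb hb)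
    · refine (int_ne (R := Q (Sum.inr j) - Polynomial.C (p.2 j)) ?_).subset ?_
      · intro h
        apply hj
        have h1 := congrArg (Polynomial.eval (ta : L)) h
        have h2 := congrArg (Polynomial.eval (tb : L)) h
        simp only [Polynomial.eval_sub, Polynomial.eval_C, Polynomial.eval_zero] at h1 h2
        rw [sub_eq_zero.1 h1, sub_eq_zero.1 h2]
      · rintro t ⟨ht, -⟩
        change Polynomial.eval _ _ = 0
        rw [Polynomial.eval_sub, Polynomial.eval_C, ← ht]
        simp [hy]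
  refine hTinf ((hfin.biUnion fun p _ => hfib p).subset ?_)
  rintro t ⟨ht1, ht2⟩
  simp only [Set.mem_iUnion]
  refine ⟨(Projectivization.mk L (v t) ht1, y t), ?_, rfl, ht1, rfl⟩
  obtain ⟨a, ha⟩ := Projectivization.exists_smul_eq_mk_rep L (v t) ht1
  have ha' : (Projectivization.mk L (v t) ht1).rep = (a : L) • v t := ha.symm
  refine ⟨fun j => hN t (Sum.inr j), fun i => ?_, ?_⟩
  · obtain ⟨d, hd⟩ := hF i
    simp only
    rw [ha', evK_smul hd, hQ t i, mul_zero]
  · obtain ⟨d, hd⟩ := hg
    simp only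
    rw [ha', evK_smul hd]
    exact mul_ne_zero (pow_ne_zero _ a.ne_zero) ht2

theorem alg_in_of_finite [NumberField K] {F : ι → PolK K n m} {G : κ → PolK K n m}
    (hF : ∀ i, ∃ d, (F i).IsHomogeneous d)
    (hG : ∀ k, ∃ d, (G k).IsHomogeneous d) (hfin : FiniteIntegral F G) (τ : K →+* ℂ) :
    AlgIn (fun i => map (map τ) (F i)) Set.univ (fun k => map (map τ) (G k)) := by
  intro P R hP hnc _ z0 k0
  by_contra h0
  let _ : Algebra K ℂ := τ.toAlgebra
  rw [evK_C] at h0
  set PR : Fin (n + 1) ⊕ Fin m → Polynomial ℂ := Sum.elim P R with hPR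
  have hel : ∀ z : ℂ, Sum.elim (pv2 P R z).1 (pv2 P R z).2 = fun s => (PR s).eval z := by
    intro z; funext s; rcases s with s | s <;> rfl
  set g' := iterToSum K (Fin (n + 1)) (Fin m) (G k0) with hg'
  -- integer points
  have hRe : ∀ z : ℂ, (aeval PR g' : Polynomial ℂ).eval z = aeval (fun s => (PR s).eval z) g' := by
    intro z
    have h3 := comp_aeval (R := K) PR ((Polynomial.aeval z).restrictScalars K : Polynomial ℂ →ₐ[K] ℂ)
    have h4 := congrArg (fun h => h g') h3
    simpa [Polynomial.coe_aeval_eq_eval] using h4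
  obtain ⟨tc, htc⟩ : ∃ t : ℤ, aeval (fun s => (PR s).eval (t : ℂ)) g' ≠ 0 := by
    obtain ⟨t, ht⟩ := int_ne' (R := (aeval PR g' : Polynomial ℂ)) (z := z0) (by
      rw [hRe, ← hel, hg', evK_iter]; exact h0)
    exact ⟨t, by rw [← hRe]; exact ht⟩
  obtain ⟨s0, hs0⟩ : ∃ s, (pv2 P R 0).1 s ≠ 0 := by
    by_contra h
    push Not at h
    exact hP.2.1 0 (funext h)
  obtain ⟨td, htd⟩ := int_ne' (R := P s0) (z := 0) hs0
  -- the polynomial which is not zero for a nonconstant curve
  obtain ⟨ta, tb, B, hB1, hB2⟩ : ∃ (ta tb : ℤ) (B : MvPolynomial (Fin 4 × (Fin (n + 1) ⊕ Fin m)) K),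
      aeval (fun p : Fin 4 × (Fin (n + 1) ⊕ Fin m) =>
        (PR p.2).eval ((![tc, ta, tb, td] p.1 : ℤ) : ℂ)) B ≠ 0 ∧
      ∀ (L : Type) [Field L] [Algebra K L] (Q : Fin (n + 1) ⊕ Fin m → Polynomial L),
        aeval (fun p : Fin 4 × (Fin (n + 1) ⊕ Fin m) =>
          (Q p.2).eval ((![tc, ta, tb, td] p.1 : ℤ) : L)) B ≠ 0 →
        ((∃ i j : Fin (n + 1), (Q (Sum.inl i)).eval (ta : L) * (Q (Sum.inl j)).eval (tb : L) -
          (Q (Sum.inl j)).eval (ta : L) * (Q (Sum.inl i)).eval (tb : L) ≠ 0) ∨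
          ∃ j : Fin m, (Q (Sum.inr j)).eval (ta : L) ≠ (Q (Sum.inr j)).eval (tb : L)) := by
    obtain ⟨za, zb, hab | hab⟩ := hnc
    · obtain ⟨i, j, hij⟩ := minors (hP.2.1 za) hab
      obtain ⟨ta, hta⟩ : ∃ t : ℤ, (P i).eval (t : ℂ) * (P j).eval zb -
          (P j).eval (t : ℂ) * (P i).eval zb ≠ 0 := by
        obtain ⟨t, ht⟩ := int_ne' (R := P i * Polynomial.C ((P j).eval zb) -
          P j * Polynomial.C ((P i).eval zb)) (z := za) (by simpa [pv2] using hij)
        exact ⟨t, by simpa using ht⟩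
      obtain ⟨tb, htb⟩ : ∃ t : ℤ, (P i).eval (ta : ℂ) * (P j).eval (t : ℂ) -
          (P j).eval (ta : ℂ) * (P i).eval (t : ℂ) ≠ 0 := by
        obtain ⟨t, ht⟩ := int_ne' (R := Polynomial.C ((P i).eval (ta : ℂ)) * P j -
          Polynomial.C ((P j).eval (ta : ℂ)) * P i) (z := zb) (by simpa using hta)
        exact ⟨t, by simpa using ht⟩
      refine ⟨ta, tb, X ((1 : Fin 4), Sum.inl i) * X ((2 : Fin 4), Sum.inl j) -
        X ((1 : Fin 4), Sum.inl j) * X ((2 : Fin 4), Sum.inl i), ?_, ?_⟩
      · simpa [hPR] using htb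
      · intro L _ _ Q hQ
        exact Or.inl ⟨i, j, by simpa using hQ⟩
    · obtain ⟨j, hj⟩ : ∃ j, (R j).eval zb ≠ (R j).eval za := by
        by_contra h
        push Not at h
        exact hab (funext h)
      obtain ⟨ta, hta⟩ : ∃ t : ℤ, (R j).eval zb ≠ (R j).eval (t : ℂ) := by
        obtain ⟨t, ht⟩ := int_ne' (R := Polynomial.C ((R j).eval zb) - R j) (z := za) (by
          simpa [sub_ne_zero] using hj)
        exact ⟨t, by simpa [sub_ne_zero] using ht⟩
      obtain ⟨tb, htb⟩ : ∃ t : ℤ, (R j).eval (t : ℂ) ≠ (R j).eval (ta : ℂ) := by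
        obtain ⟨t, ht⟩ := int_ne' (R := R j - Polynomial.C ((R j).eval (ta : ℂ))) (z := zb) (by
          simpa [sub_ne_zero] using hta)
        exact ⟨t, by simpa [sub_ne_zero] using ht⟩
      refine ⟨ta, tb, X ((1 : Fin 4), Sum.inr j) - X ((2 : Fin 4), Sum.inr j), ?_, ?_⟩
      · simpa [hPR, sub_ne_zero] using htb.symm
      · intro L _ _ Q hQ
        exact Or.inr ⟨j, by simpa [sub_ne_zero] using hQ⟩
  -- descent
  obtain ⟨L, hL, Q, hQF, hQH⟩ := descent (K := K) (A := ℂ)
    (fun i => iterToSum K (Fin (n + 1)) (Fin m) (F i))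
    (rename (fun s => ((0 : Fin 4), s)) g' * B * X ((3 : Fin 4), Sum.inl s0))
    ![tc, ta, tb, td] PR (fun z i => by
      have := hP.2.2 (z : ℂ) i
      rw [evK_C, ← evK_iter, hel] at this
      exact this) (by
      rw [map_mul, map_mul, aeval_rename]
      refine mul_ne_zero (mul_ne_zero htc hB1) ?_
      simpa [hPR] using htd)
  rw [map_mul, map_mul, aeval_rename] at hQH
  have hQ12 := left_ne_zero_of_mul hQH
  have hQ3 := right_ne_zero_of_mul hQH
  have hQ1 := left_ne_zero_of_mul hQ12
  have hQ2 := right_ne_zero_of_mul hQ12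
  have := hL
  have hchar : CharZero L := charZero_of_injective_algebraMap (algebraMap K L).injective
  obtain ⟨N, hN0, hN⟩ := sInt_poly (K := K) Q
  have helQ : ∀ z : L, Sum.elim (fun s => (Q (Sum.inl s)).eval z) (fun s => (Q (Sum.inr s)).eval z) =
      fun s => (Q s).eval z := by
    intro z; funext s; rcases s with s | s <;> rfl
  refine infinite_points2 F hF (G k0) (hG k0) Q N hN (fun z i => ?_) (ta := ta) (tb := tb)
    (tc := tc) (td := td) (s0 := s0) ?_ ?_ (hB2 L Q hQ2)
    ((hfin L N hN0).subset fun p hp => ⟨hp.1, hp.2.1, k0, hp.2.2⟩)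
  · rw [← evK_iter, helQ]
    exact hQF z i
  · simpa using hQ3
  · rw [← evK_iter, helQ]
    exact hQ1

end Pool.Agent.R871.SG
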