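import Pool.Agent.R871.SG.LogH
import Pool.Agent.R871.SG.Arith2

/-!
Finiteness of integral points on affine varieties, of rational points at infinity, and algebraic maps
from the punctured line.
-/

set_option autoImplicit false

namespace Pool.Agent.R871.SG

open MvPolynomial
open scoped LinearAlgebra.Projectivization

section descent

variable {K A : Type} [Field K] [CharZero K] [Field A] [Algebra K A] {σ ι : Type} [Fintype σ]

/-- Descent for equations which depend on the parameter. -/
theorem descent' {r : ℕ} (F : ℤ → ι → MvPolynomial σ K) (H : MvPolynomial (Fin r × σ) K)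
    (t : Fin r → ℤ) (P : σ → Polynomial A)
    (hF : ∀ (z : ℤ) i, aeval (fun s => (P s).eval (z : A)) (F z i) = 0)
    (hH : aeval (fun p : Fin r × σ => (P p.2).eval (t p.1 : A)) H ≠ 0) :
    ∃ L : IntermediateField K (AlgebraicClosure K), FiniteDimensional K L ∧
      ∃ Q : σ → Polynomial L, (∀ (z : ℤ) i, aeval (fun s => (Q s).eval (z : L)) (F z i) = 0) ∧
        aeval (fun p : Fin r × σ => (Q p.2).eval (t p.1 : L)) H ≠ 0 := by
  classical
  set D : ℕ := ∑ s, (P s).natDegree with hD
  have hDs : ∀ s, (P s).natDegree < D + 1 := fun s =>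
    Nat.lt_succ_of_le (Finset.single_le_sum (f := fun s => (P s).natDegree)
      (fun _ _ => Nat.zero_le _) (Finset.mem_univ s))
  set PX : ℤ → σ → MvPolynomial (Fin (D + 1) × σ) K := fun z s =>
    ∑ m : Fin (D + 1), C ((z : K) ^ (m : ℕ)) * X (m, s) with hPX
  set x : Fin (D + 1) × σ → A := fun q => (P q.2).coeff q.1 with hx
  have hxP : ∀ (z : ℤ) s, aeval x (PX z s) = (P s).eval (z : A) := by
    intro z s
    rw [Polynomial.eval_eq_sum_range' (hDs s), Finset.sum_range, hPX]
    simp only [map_sum, map_mul, aeval_C, aeval_X, hx, map_pow, map_intCast]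
    exact Finset.sum_congr rfl fun m _ => mul_comm _ _
  obtain ⟨y, hy1, hy2⟩ := nss (fun p : ℤ × ι => aeval (PX p.1) (F p.1 p.2))
    (aeval (fun p : Fin r × σ => PX (t p.1) p.2) H) x (fun p => by
      rw [← AlgHom.comp_apply, comp_aeval]
      simp only [hxP]
      exact hF p.1 p.2) (by
      rw [← AlgHom.comp_apply, comp_aeval]
      simp only [hxP]
      exact hH)
  set L : IntermediateField K (AlgebraicClosure K) := IntermediateField.adjoin K (Set.range y)
    with hL
  have hfin : FiniteDimensional K L :=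
    IntermediateField.finiteDimensional_adjoin fun a _ =>
      (Algebra.IsAlgebraic.isAlgebraic (R := K) a).isIntegral
  set y' : Fin (D + 1) × σ → L := fun q =>
    ⟨y q, IntermediateField.subset_adjoin K _ (Set.mem_range_self q)⟩ with hy'
  set Q : σ → Polynomial L := fun s =>
    ∑ m : Fin (D + 1), Polynomial.C (y' (m, s)) * Polynomial.X ^ (m : ℕ) with hQ
  have hQe : ∀ (z : ℤ) s, algebraMap L (AlgebraicClosure K) ((Q s).eval (z : L)) =
      aeval y (PX z s) := by
    intro z s
    simp only [hQ, hPX, Polynomial.eval_finsetSum, Polynomial.eval_mul, Polynomial.eval_C,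
      Polynomial.eval_pow, Polynomial.eval_X, map_sum, map_mul, aeval_C, aeval_X, map_pow,
      map_intCast]
    exact Finset.sum_congr rfl fun m _ => mul_comm _ _
  have hinj : Function.Injective (algebraMap L (AlgebraicClosure K)) := (algebraMap L _).injective
  refine ⟨L, hfin, Q, fun z i => ?_, ?_⟩
  · apply hinj
    have h1 := hy1 (z, i)
    simp only at h1
    rw [← AlgHom.comp_apply, comp_aeval] at h1
    rw [map_zero, ← h1]
    have h2 : (fun i => aeval y (PX z i)) = fun i => algebraMap L (AlgebraicClosure K)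
      ((Q i).eval (z : L)) := by
      funext s; rw [hQe]
    rw [h2]
    have h3 := comp_aeval (R := K) (fun s => (Q s).eval (z : L))
      (IsScalarTower.toAlgHom K L (AlgebraicClosure K))
    have h4 := congrArg (fun g => g (F z i)) h3
    simpa using h4
  · intro h0
    apply hy2
    rw [← AlgHom.comp_apply, comp_aeval]
    have h2 : (fun p : Fin r × σ => aeval y (PX (t p.1) p.2)) = fun p =>
        algebraMap L (AlgebraicClosure K) ((Q p.2).eval (t p.1 : L)) := by
      funext p; rw [hQe]
    have h3 := comp_aeval (R := K) (fun p : Fin r × σ => (Q p.2).eval (t p.1 : L))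
      (IsScalarTower.toAlgHom K L (AlgebraicClosure K))
    have h4 := congrArg (fun g => g H) h3
    simp only [AlgHom.coe_comp, Function.comp_apply, h0, map_zero] at h4
    rw [h2]
    simpa using h4.symm

end descent

theorem monomial_of_roots {p : Polynomial ℂ} (hp : ∀ z : ℂ, z ≠ 0 → p.eval z ≠ 0) :
    ∃ (c : ℂ) (m : ℕ), c ≠ 0 ∧ p = Polynomial.C c * Polynomial.X ^ m := by
  have hp0 : p ≠ 0 := by
    rintro rfl
    exact hp 1 one_ne_zero (by simp)
  obtain ⟨q, hq1, hq2⟩ := Polynomial.exists_eq_pow_rootMultiplicity_mul_and_not_dvd p hp0 0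
  rw [Polynomial.C_0, sub_zero] at hq1 hq2
  have hq0 : q.degree = 0 := by
    by_contra hd
    obtain ⟨w, hw⟩ := IsAlgClosed.exists_root q hd
    by_cases hw0 : w = 0
    · subst hw0
      exact hq2 (by simpa using Polynomial.dvd_iff_isRoot.2 hw)
    · apply hp w hw0
      rw [hq1, Polynomial.eval_mul]
      rw [hw, mul_zero]
  obtain ⟨c, hc⟩ : ∃ c, q = Polynomial.C c := ⟨_, Polynomial.eq_C_of_degree_eq_zero hq0⟩
  refine ⟨c, p.rootMultiplicity 0, ?_, ?_⟩
  · rintro rfl
    rw [hc] at hq0
    simp at hq0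
  · conv_lhs => rw [hq1, hc]
    ring

variable {n : ℕ} {ι κ : Type} {K : Type} [Field K]

/-- For every finite extension `L` of `K` and every positive integer `N` the affine variety
`V = {y | F (1, y) = 0}` has only finitely many points outside of `Z = {G = 0}` with coordinates in the
ring of `S`-integers of `L`, where `S` consists of the places which divide `N` or are infinite. -/
def FiniteSPoints (F : ι → MvPolynomial (Fin (n + 1)) K) (G : κ → MvPolynomial (Fin (n + 1)) K) :
    Prop :=
  ∀ (L : Type) [Field L] [Algebra K L] [FiniteDimensional K L] (N : ℕ), 0 < N →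
    {y : Fin n → L | (∀ j, SInt N (y j)) ∧ (∀ i, aeval (Fin.cons 1 y : Fin (n + 1) → L) (F i) = 0) ∧
      ∃ k, aeval (Fin.cons 1 y : Fin (n + 1) → L) (G k) ≠ 0}.Finite

/-- A nonconstant Laurent polynomial curve gives infinitely many points. -/
theorem infinite_SPoints {L : Type} [Field L] [Algebra K L] [CharZero L]
    (F : ι → MvPolynomial (Fin (n + 1)) K) (hF : ∀ i, ∃ d, (F i).IsHomogeneous d)
    (g : MvPolynomial (Fin (n + 1)) K) (hg : ∃ d, g.IsHomogeneous d) (m : ℕ)
    (Q : Fin n → Polynomial L) (N : ℕ) (hN : ∀ (t : ℤ) s, SInt N ((Q s).eval (t : L)))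
    (hQ : ∀ (z : ℤ) i, aeval (Fin.cons ((z : L) ^ m) (fun s => (Q s).eval (z : L)) :
      Fin (n + 1) → L) (F i) = 0)
    {ta tb tc : ℤ} (hc : aeval (Fin.cons ((tc : L) ^ m) (fun s => (Q s).eval (tc : L)) :
      Fin (n + 1) → L) g ≠ 0) {j : Fin n}
    (hj : (ta : L) ^ m * (Q j).eval (tb : L) - (tb : L) ^ m * (Q j).eval (ta : L) ≠ 0) :
    ¬ {y : Fin n → L | (∀ j, SInt (2 * N) (y j)) ∧
      (∀ i, aeval (Fin.cons 1 y : Fin (n + 1) → L) (F i) = 0) ∧
      aeval (Fin.cons 1 y : Fin (n + 1) → L) g ≠ 0}.Finite := by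
  intro hfin
  set u : ℕ → ℤ := fun a => 2 ^ a with hu
  have hui : Function.Injective u := fun a b hab => by
    have h1 : (2 : ℤ) ^ a = 2 ^ b := hab
    exact Int.pow_right_injective (by decide) h1
  have hu0 : ∀ a, ((u a : ℤ) : L) ≠ 0 := fun a => by
    rw [hu]; push_cast; exact pow_ne_zero _ two_ne_zero
  set v : ℤ → Fin (n + 1) → L := fun t => Fin.cons ((t : L) ^ m) (fun s => (Q s).eval (t : L)) with hv
  set y : ℕ → Fin n → L := fun a s => (((u a : ℤ) : L) ^ m)⁻¹ * (Q s).eval ((u a : ℤ) : L) with hy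
  have hvy : ∀ a, v (u a) = (((u a : ℤ) : L) ^ m) • (Fin.cons 1 (y a) : Fin (n + 1) → L) := by
    intro a
    funext s
    refine Fin.cases ?_ (fun s => ?_) s
    · simp [hv]
    · simp only [hv, hy, Fin.cons_succ, Pi.smul_apply, smul_eq_mul]
      rw [← mul_assoc, mul_inv_cancel₀ (pow_ne_zero _ (hu0 a)), one_mul]
  -- the bad integers
  have hg0 : {t : ℤ | aeval (v t) g = 0}.Finite := by
    set PQ : Fin (n + 1) → Polynomial L := Fin.cons (Polynomial.X ^ m) Q with hPQ
    have hRe : ∀ z : ℤ, (aeval PQ g : Polynomial L).eval (z : L) = aeval (v z) g := by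
      intro z
      have h3 := comp_aeval (R := K) PQ
        ((Polynomial.aeval (z : L)).restrictScalars K : Polynomial L →ₐ[K] L)
      have h4 := congrArg (fun h => h g) h3
      have h5 : (fun s => (PQ s).eval (z : L)) = v z := by
        funext s
        refine Fin.cases ?_ (fun s => ?_) s <;> simp [hPQ, hv]
      rw [← h5]
      simpa [Polynomial.coe_aeval_eq_eval] using h4
    have hR0 : (aeval PQ g : Polynomial L) ≠ 0 := by
      intro h
      apply hc
      change aeval (v tc) g = 0
      rw [← hRe, h, Polynomial.eval_zero]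
    refine (int_ne hR0).subset fun t ht => ?_
    change (aeval PQ g : Polynomial L).eval (t : L) = 0
    rw [hRe]; exact ht
  set T : Set ℕ := {a | aeval (v (u a)) g ≠ 0} with hT
  have hTinf : T.Infinite := by
    have : T = (u ⁻¹' {t : ℤ | aeval (v t) g = 0})ᶜ := by
      ext t; simp [hT]
    rw [this]
    exact (hg0.preimage hui.injOn).infinite_compl
  -- each point is attained finitely often
  have hfib : ∀ p : Fin n → L, {a : ℕ | y a = p}.Finite := by
    intro p
    have hne : Q j - Polynomial.C (p j) * Polynomial.X ^ m ≠ 0 := by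
      intro h
      rw [sub_eq_zero] at h
      apply hj
      rw [h]
      simp only [Polynomial.eval_mul, Polynomial.eval_C, Polynomial.eval_pow, Polynomial.eval_X]
      ring
    refine ((int_ne hne).preimage hui.injOn).subset fun a ha => ?_
    change Polynomial.eval ((u a : ℤ) : L) _ = 0
    have h1 : y a j = p j := congrFun ha j
    have h2 : (Q j).eval ((u a : ℤ) : L) = ((u a : ℤ) : L) ^ m * p j := by
      rw [← h1]
      simp only [hy]
      rw [← mul_assoc, mul_inv_cancel₀ (pow_ne_zero _ (hu0 a)), one_mul]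
    rw [Polynomial.eval_sub, Polynomial.eval_mul, Polynomial.eval_C, Polynomial.eval_pow,
      Polynomial.eval_X, h2]
    ring
  refine hTinf ((hfin.biUnion fun p _ => hfib p).subset ?_)
  intro a ha
  simp only [Set.mem_iUnion]
  refine ⟨y a, ⟨fun s => ?_, fun i => ?_, ?_⟩, rfl⟩
  · obtain ⟨k, hk⟩ := hN (u a) s
    refine ⟨k + a * m, ?_⟩
    have e : ((2 * N : ℕ) : L) ^ (k + a * m) * y a s =
        ((2 ^ k * N ^ (a * m) : ℕ) : L) * ((N : L) ^ k * (Q s).eval ((u a : ℤ) : L)) := by
      have h2 : (((u a : ℤ) : L) ^ m) = (2 : L) ^ (a * m) := by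
        rw [hu]; push_cast; rw [pow_mul]
      simp only [hy]
      rw [h2]
      push_cast
      rw [mul_pow, pow_add, pow_add]
      have h3 : (2 : L) ^ (a * m) * ((2 : L) ^ (a * m))⁻¹ = 1 :=
        mul_inv_cancel₀ (pow_ne_zero _ two_ne_zero)
      linear_combination ((2 : L) ^ k * ((N : L) ^ k * (N : L) ^ (a * m)) *
        (Q s).eval ((u a : ℤ) : L)) * h3
    rw [e]
    refine IsIntegral.mul ?_ hk
    exact_mod_cast isIntegral_algebraMap (R := ℤ) (A := L) (x := ((2 ^ k * N ^ (a * m) : ℕ) : ℤ))
  · obtain ⟨d, hd⟩ := hF i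
    have h1 := hQ (u a) i
    change aeval (v (u a)) (F i) = 0 at h1
    rw [hvy, aeval_smul_form hd] at h1
    exact (mul_eq_zero.1 h1).resolve_left (pow_ne_zero _ (pow_ne_zero _ (hu0 a)))
  · obtain ⟨d, hd⟩ := hg
    have h1 : aeval (v (u a)) g ≠ 0 := ha
    rw [hvy, aeval_smul_form hd] at h1
    exact right_ne_zero_of_mul h1

/-- The complex points of the cone of the projective variety `{F = 0}`. -/
def coneOf (F : ι → MvPolynomial (Fin (n + 1)) K) (τ : K →+* ℂ) : Set (Fin (n + 1) → ℂ) :=
  {x | ∀ i, eval x (map τ (F i)) = 0}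

theorem coneOf_closed (F : ι → MvPolynomial (Fin (n + 1)) K) (τ : K →+* ℂ) :
    IsClosed (coneOf F τ) := by
  have : coneOf F τ = ⋂ i, {x | eval x (map τ (F i)) = 0} := by
    ext x; simp [coneOf]
  rw [this]
  exact isClosed_iInter fun i => isClosed_eq (MvPolynomial.continuous_eval _) continuous_const

theorem coneOf_smul (F : ι → MvPolynomial (Fin (n + 1)) K) (hF : ∀ i, ∃ d, (F i).IsHomogeneous d)
    (τ : K →+* ℂ) (a : ℂ) : ∀ x ∈ coneOf F τ, a • x ∈ coneOf F τ := by
  intro x hx i
  obtain ⟨d, hd⟩ := hF i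
  rw [eval_smul_form (hd.map τ), hx i, mul_zero]

theorem eval_aux1 (R : Polynomial ℂ) (u v z : ℂ) (m : ℕ) :
    (Polynomial.X ^ m * Polynomial.C u - Polynomial.C v * R).eval z = z ^ m * u - v * R.eval z := by
  rw [Polynomial.eval_sub, Polynomial.eval_mul, Polynomial.eval_mul, Polynomial.eval_C,
    Polynomial.eval_C, Polynomial.eval_pow, Polynomial.eval_X]

theorem eval_aux2 (R : Polynomial ℂ) (u v z : ℂ) (m : ℕ) :
    (Polynomial.C v * R - Polynomial.X ^ m * Polynomial.C u).eval z = v * R.eval z - z ^ m * u := by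
  rw [Polynomial.eval_sub, Polynomial.eval_mul, Polynomial.eval_mul, Polynomial.eval_C,
    Polynomial.eval_C, Polynomial.eval_pow, Polynomial.eval_X]

theorem curvesIn_of_finite [NumberField K] {F : ι → MvPolynomial (Fin (n + 1)) K}
    {G : κ → MvPolynomial (Fin (n + 1)) K} (hF : ∀ i, ∃ d, (F i).IsHomogeneous d)
    (hG : ∀ k, ∃ d, (G k).IsHomogeneous d) (hfin : FiniteSPoints F G)
    (hinf : FiniteOutside (Sum.elim F (fun _ : Unit => X 0)) G) (τ : K →+* ℂ) (d : ℕ) :
    CurvesIn (coneOf F τ) (coneOf G τ) (X 0) d := by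
  intro P _ hP hdich hnc z0 hz0 k0
  by_contra h0
  let _ : Algebra K ℂ := τ.toAlgebra
  have hmap : ∀ (x : Fin (n + 1) → ℂ) (f : MvPolynomial (Fin (n + 1)) K),
      eval x (map τ f) = aeval x f := fun x f => by
    rw [eval_map, aeval_def]; rfl
  have hpc : Continuous (pv P) := continuous_pi fun j => (P j).continuous
  have hPX : ∀ z, pv P z ∈ coneOf F τ := by
    have hcl : IsClosed {z : ℂ | pv P z ∈ coneOf F τ} := (coneOf_closed F τ).preimage hpc
    have h2 := closure_minimal (s := ({0}ᶜ : Set ℂ)) (fun w hw => (hP w hw).2) hcl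
    rw [(dense_compl_singleton (0 : ℂ)).closure_eq] at h2
    exact fun z => h2 (Set.mem_univ z)
  rcases hdich with hV | hD
  · -- curves in `V`
    have hV' : ∀ z : ℂ, z ≠ 0 → (P 0).eval z ≠ 0 := fun z hz => by
      have := hV z hz
      rwa [eval_X] at this
    obtain ⟨c, m, hc, hP0⟩ := monomial_of_roots hV'
    set Q : Fin n → Polynomial ℂ := fun s => Polynomial.C c⁻¹ * P s.succ with hQ
    have hPQ : ∀ z : ℂ, pv P z = c • (Fin.cons (z ^ m) (fun s => (Q s).eval z) : Fin (n + 1) → ℂ) := by
      intro z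
      funext s
      refine Fin.cases ?_ (fun s => ?_) s
      · simp [pv, hP0]
      · simp only [pv, hQ, Fin.cons_succ, Pi.smul_apply, smul_eq_mul, Polynomial.eval_mul,
          Polynomial.eval_C]
        rw [← mul_assoc, mul_inv_cancel₀ hc, one_mul]
    have hQF : ∀ (z : ℂ) i, aeval (Fin.cons (z ^ m) (fun s => (Q s).eval z) : Fin (n + 1) → ℂ) (F i) = 0 := by
      intro z i
      obtain ⟨e, he⟩ := hF i
      have h1 := hPX z i
      rw [hPQ, hmap, aeval_smul_form he] at h1
      exact (mul_eq_zero.1 h1).resolve_left (pow_ne_zero _ hc)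
    have hQG : aeval (Fin.cons (z0 ^ m) (fun s => (Q s).eval z0) : Fin (n + 1) → ℂ) (G k0) ≠ 0 := by
      obtain ⟨e, he⟩ := hG k0
      rw [hPQ, hmap, aeval_smul_form he] at h0
      exact right_ne_zero_of_mul h0
    -- integer points
    set PQ : Fin (n + 1) → Polynomial ℂ := Fin.cons (Polynomial.X ^ m) Q with hPQd
    have hRe : ∀ z : ℂ, (aeval PQ (G k0) : Polynomial ℂ).eval z =
        aeval (Fin.cons (z ^ m) (fun s => (Q s).eval z) : Fin (n + 1) → ℂ) (G k0) := by
      intro z
      have h3 := comp_aeval (R := K) PQ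
        ((Polynomial.aeval z).restrictScalars K : Polynomial ℂ →ₐ[K] ℂ)
      have h4 := congrArg (fun h => h (G k0)) h3
      have h5 : (fun s => (PQ s).eval z) = Fin.cons (z ^ m) (fun s => (Q s).eval z) := by
        funext s
        refine Fin.cases ?_ (fun s => ?_) s <;> simp [hPQd]
      rw [← h5]
      simpa [Polynomial.coe_aeval_eq_eval] using h4
    obtain ⟨tc, htc⟩ := int_ne' (R := (aeval PQ (G k0) : Polynomial ℂ)) (z := z0) (by
      rw [hRe]; exact hQG)
    rw [hRe] at htc
    obtain ⟨za, zb, hza, hzb, hab⟩ := hnc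
    obtain ⟨j, hj⟩ : ∃ j : Fin n, za ^ m * (Q j).eval zb - zb ^ m * (Q j).eval za ≠ 0 := by
      by_contra hcon
      push Not at hcon
      apply hab (zb ^ m * (za ^ m)⁻¹)
      rw [hPQ, hPQ, smul_comm]
      congr 1
      funext s
      refine Fin.cases ?_ (fun s => ?_) s
      · simp only [Fin.cons_zero, Pi.smul_apply, smul_eq_mul]
        rw [mul_assoc, inv_mul_cancel₀ (pow_ne_zero _ hza), mul_one]
      · simp only [Fin.cons_succ, Pi.smul_apply, smul_eq_mul]
        have h1 := hcon s
        have h2 : za ^ m ≠ 0 := pow_ne_zero _ hza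
        field_simp
        linear_combination h1
    obtain ⟨ta, hta⟩ := int_ne' (R := Polynomial.X ^ m * Polynomial.C ((Q j).eval zb) -
      Polynomial.C (zb ^ m) * Q j) (z := za) (by rw [eval_aux1]; exact hj)
    rw [eval_aux1] at hta
    obtain ⟨tb, htb'⟩ := int_ne' (R := Polynomial.C ((ta : ℂ) ^ m) * Q j -
      Polynomial.X ^ m * Polynomial.C ((Q j).eval (ta : ℂ))) (z := zb) (by rw [eval_aux2]; exact hta)
    rw [eval_aux2] at htb'
    -- descent
    set sub : ℤ → MvPolynomial (Fin (n + 1)) K → MvPolynomial (Fin n) K := fun z f =>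
      aeval (Fin.cons (C ((z : K) ^ m)) X : Fin (n + 1) → MvPolynomial (Fin n) K) f with hsub
    have hsube : ∀ (L : Type) [Field L] [Algebra K L] (y : Fin n → L) (z : ℤ)
        (f : MvPolynomial (Fin (n + 1)) K),
        aeval y (sub z f) = aeval (Fin.cons ((z : L) ^ m) y : Fin (n + 1) → L) f := by
      intro L _ _ y z f
      simp only [hsub]
      rw [← AlgHom.comp_apply, comp_aeval]
      congr 2
      funext s
      refine Fin.cases ?_ (fun s => ?_) s <;> simp
    have hchar : CharZero K := inferInstance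
    obtain ⟨L, hL, Q', hQF', hQH'⟩ := descent' (K := K) (A := ℂ) (fun z i => sub z (F i))
      (rename (fun s => ((0 : Fin 3), s)) (sub tc (G k0)) *
        (C ((ta : K) ^ m) * X ((2 : Fin 3), j) - C ((tb : K) ^ m) * X ((1 : Fin 3), j)))
      ![tc, ta, tb] Q (fun z i => by
        rw [hsube]
        exact hQF (z : ℂ) i) (by
        rw [map_mul, aeval_rename]
        refine mul_ne_zero ?_ ?_
        · have : (fun p : Fin 3 × Fin n => (Q p.2).eval ((![tc, ta, tb] p.1 : ℤ) : ℂ)) ∘
              (fun s => ((0 : Fin 3), s)) = fun s => (Q s).eval (tc : ℂ) := by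
            funext s; simp
          rw [this, hsube]
          exact htc
        · simpa using htb')
    rw [map_mul, aeval_rename] at hQH'
    have hQ1 := left_ne_zero_of_mul hQH'
    have hQ2 := right_ne_zero_of_mul hQH'
    have e1 : (fun p : Fin 3 × Fin n => (Q' p.2).eval ((![tc, ta, tb] p.1 : ℤ) : L)) ∘
        (fun s => ((0 : Fin 3), s)) = fun s => (Q' s).eval (tc : L) := by
      funext s; simp
    rw [e1, hsube] at hQ1
    have := hL
    have hcharL : CharZero L := charZero_of_injective_algebraMap (algebraMap K L).injective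
    obtain ⟨N, hN0, hN⟩ := sInt_poly (K := K) Q'
    refine infinite_SPoints F hF (G k0) (hG k0) m Q' N hN (fun z i => ?_) (ta := ta) (tb := tb)
      (tc := tc) hQ1 (j := j) ?_ ((hfin L (2 * N) (by omega)).subset fun p hp =>
        ⟨hp.1, hp.2.1, k0, hp.2.2⟩)
    · rw [← hsube]
      exact hQF' z i
    · simpa using hQ2
  · -- curves at infinity
    have hD' : ∀ z : ℂ, (P 0).eval z = 0 := by
      have hcl : IsClosed {z : ℂ | (P 0).eval z = 0} :=
        isClosed_eq (P 0).continuous continuous_const
      have h2 := closure_minimal (s := ({0}ᶜ : Set ℂ)) (fun w hw => by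
        have := hD w hw
        rwa [eval_X] at this) hcl
      rw [(dense_compl_singleton (0 : ℂ)).closure_eq] at h2
      exact fun z => h2 (Set.mem_univ z)
    have hF' : ∀ i, ∃ d, ((Sum.elim F (fun _ : Unit => X 0) : ι ⊕ Unit → _) i).IsHomogeneous d := by
      intro i
      rcases i with i | i
      · exact hF i
      · exact ⟨1, isHomogeneous_X _ _⟩
    have hR := rational_in_of_finite (K := K) hF' hG hinf τ
    obtain ⟨q, P', hP', hq, hne⟩ := clear (P := P) ⟨1, (hP 1 one_ne_zero).1⟩
    have hqP : ∀ z, pv P z = q.eval z • pv P' z := by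
      intro z
      ext j
      simp [pv, hP' j]
    have hpc' : Continuous (pv P') := continuous_pi fun j => (P' j).continuous
    have hdense : Dense {z : ℂ | q.eval z ≠ 0} := by
      have hfin : {z : ℂ | q.eval z = 0}.Finite := by
        refine (q.roots.toFinset.finite_toSet).subset fun z hz => ?_
        simpa [Polynomial.mem_roots hq] using hz
      have : {z : ℂ | q.eval z ≠ 0} = {z : ℂ | q.eval z = 0}ᶜ := by ext; simp
      rw [this]
      exact hfin.countable.dense_compl ℂ
    have hkey : ∀ (f : MvPolynomial (Fin (n + 1)) K), (∃ e, f.IsHomogeneous e) →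
        (∀ z, eval (pv P z) (map τ f) = 0) → ∀ z, eval (pv P' z) (map τ f) = 0 := by
      rintro f ⟨e, he⟩ hf
      have hcl : IsClosed {z : ℂ | eval (pv P' z) (map τ f) = 0} :=
        isClosed_eq ((MvPolynomial.continuous_eval _).comp hpc') continuous_const
      have h2 := closure_minimal (s := {z : ℂ | q.eval z ≠ 0}) (fun w hw => by
        have h3 := hf w
        rw [hqP, eval_smul_form (he.map τ)] at h3
        exact (mul_eq_zero.1 h3).resolve_left (pow_ne_zero _ hw)) hcl
      rw [hdense.closure_eq] at h2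
      exact fun z => h2 (Set.mem_univ z)
    have hhol : HolMap (fun i => map τ ((Sum.elim F (fun _ : Unit => X 0) : ι ⊕ Unit → _) i)) (pv P') := by
      refine ⟨differentiable_pi.2 fun j => (P' j).differentiable, hne, fun z i => ?_⟩
      rcases i with i | i
      · exact hkey (F i) (hF i) (fun z => hPX z i) z
      · refine hkey (X 0) ⟨1, isHomogeneous_X _ _⟩ (fun z => ?_) z
        rw [map_X, eval_X]
        exact hD' z
    have hnc' : NonConst (pv P') := by
      obtain ⟨za, zb, hza, hzb, hab⟩ := hnc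
      refine ⟨za, zb, fun a ha => ?_⟩
      have hqa : q.eval za ≠ 0 := by
        intro h
        apply (hP za hza).1
        rw [hqP, h, zero_smul]
      apply hab (q.eval zb * a * (q.eval za)⁻¹)
      rw [hqP za, hqP zb, ha, smul_smul, smul_smul]
      congr 1
      field_simp
    have h1 := hR P' hhol hnc' (by simp) z0 k0
    apply h0
    obtain ⟨e, he⟩ := hG k0
    rw [hqP, eval_smul_form (he.map τ), h1, mul_zero]

end Pool.Agent.R871.SG
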