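import Pool.Agent.R871.SG.DiscC
import Pool.Agent.R871.SG.ArithL

/-!
Finiteness of rational points and holomorphic discs of bounded index.
-/

set_option autoImplicit false

namespace Pool.Agent.R871.SG

open Filter Topology Metric Set MvPolynomial

variable {n : ℕ} {ι κ : Type} {K : Type} [Field K]

theorem linesIn_of_finite [NumberField K] {F : ι → MvPolynomial (Fin (n + 1)) K}
    {G : κ → MvPolynomial (Fin (n + 1)) K} (hF : ∀ i, ∃ d, (F i).IsHomogeneous d)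
    (hG : ∀ k, ∃ d, (G k).IsHomogeneous d) (hfin : FiniteOutside F G) (τ : K →+* ℂ) (d : ℕ) :
    LinesIn (coneOf F τ) (coneOf G τ) d := by
  intro P _ hP hnc z k
  have hR := rational_in_of_finite (K := K) hF hG hfin τ
  exact hR P ⟨differentiable_pi.2 fun j => (P j).differentiable, fun z => (hP z).1,
    fun z i => (hP z).2 i⟩ hnc (by simp) z k

theorem disc_iff {X Z : Set (Fin (n + 1) → ℂ)} (hX : IsClosed X) (hZ : IsClosed Z)
    (hs : ∀ (a : ℂ), ∀ x ∈ X, a • x ∈ X) (hZs : ∀ (a : ℂ), ∀ x ∈ Z, a • x ∈ Z) (d : ℕ) :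
    LinesIn X Z d ↔
      ∀ ε > 0, ∃ C : ℝ, ∀ (r : ℝ) (F : ℂ → Fin (n + 1) → ℂ) (a : ℕ → Fin (n + 1) → ℂ), 0 < r →
        DiscIn X 1 r F a → (∃ j ≤ d, ∀ m, ‖a m‖ * r ^ m ≤ ‖a j‖ * r ^ j) →
        (∀ x ∈ Z, ε * ‖a 0‖ < ‖a 0 - x‖) → (∀ m, ‖a m‖ * r ^ m ≤ C * ‖a 0‖) ∧
          ∀ s t, r * ‖a 0 s * a 1 t - a 0 t * a 1 s‖ ≤ C * ‖a 0‖ ^ 2 := by
  have e1 : {x : Fin (n + 1) → ℂ | x ∈ X ∧ eval x (1 : MvPolynomial (Fin (n + 1)) ℂ) ≠ 0} = X := by
    ext x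
    simp
  have hD : LinesIn {x : Fin (n + 1) → ℂ | x ∈ X ∧ eval x (1 : MvPolynomial (Fin (n + 1)) ℂ) = 0} Z d := by
    intro P _ hP _ z
    have := (hP z).2.2
    simp at this
  have h := disc_tfae hX hZ hs hZs (H := 1) ⟨0, isHomogeneous_one _ _⟩ hD
  have h12 := h.out 0 1
  have h13 := h.out 0 2
  rw [e1] at h12 h13
  constructor
  · intro hL ε hε
    obtain ⟨C1, h1⟩ := h12.1 hL ε hε
    obtain ⟨C2, h2⟩ := h13.1 hL ε hε
    refine ⟨max C1 C2, fun r F a hr hF hj hfar => ⟨fun m => ?_, fun s t => ?_⟩⟩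
    · exact (h1 r F a hr hF hj hfar m).trans (mul_le_mul_of_nonneg_right (le_max_left _ _) (norm_nonneg _))
    · exact (h2 r F a hr hF hj hfar s t).trans
        (mul_le_mul_of_nonneg_right (le_max_right _ _) (by positivity))
  · intro hb
    refine h13.2 fun ε hε => ?_
    obtain ⟨C, hC⟩ := hb ε hε
    exact ⟨C, fun r F a hr hF hj hfar => (hC r F a hr hF hj hfar).2⟩

end Pool.Agent.R871.SG
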