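import Pool.Agent.R871.SG.Arith
import Pool.Agent.R871.SG.DiscD

/-!
Finiteness of points over finitely generated rings, for varieties over the complex numbers.
-/

set_option autoImplicit false

namespace Pool.Agent.R871.SG

open MvPolynomial
open scoped LinearAlgebra.Projectivization

variable {n : ℕ} {ι κ : Type}

/-- Over every subring `A` of `ℂ` which is finitely generated as a ring there are only finitely many
points in `{F = 0}` and not in `{G = 0}` which have homogeneous coordinates in `A` that generate the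
unit ideal of `A`. -/
def ArithOutside (F : ι → MvPolynomial (Fin (n + 1)) ℂ) (G : κ → MvPolynomial (Fin (n + 1)) ℂ) :
    Prop :=
  ∀ s : Finset ℂ, {p : ℙ ℂ (Fin (n + 1) → ℂ) | ∃ (x : Fin (n + 1) → ℂ) (hx : x ≠ 0),
    (∀ j, x j ∈ Subring.closure (s : Set ℂ)) ∧
    (∃ u : Fin (n + 1) → ℂ, (∀ j, u j ∈ Subring.closure (s : Set ℂ)) ∧ ∑ j, u j * x j = 1) ∧
    (∀ i, eval x (F i) = 0) ∧ (∃ k, eval x (G k) ≠ 0) ∧ Projectivization.mk ℂ x hx = p}.Finite

theorem eval_mem_subring {A : Subring ℂ} {p : Polynomial ℂ} (h : ∀ i, p.coeff i ∈ A) (t : ℤ) :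
    p.eval (t : ℂ) ∈ A := by
  rw [Polynomial.eval_eq_sum_range]
  exact A.sum_mem fun i _ => A.mul_mem (h i) (A.pow_mem (intCast_mem A t) i)

theorem bezout_of_ne {P : Fin (n + 1) → Polynomial ℂ} (hne : ∀ z, pv P z ≠ 0) :
    ∃ U : Fin (n + 1) → Polynomial ℂ, ∑ j, U j * P j = 1 := by
  have h1 : (1 : Polynomial ℂ) ∈ Ideal.span (Set.range P) := by
    obtain ⟨q, hq⟩ := (IsPrincipalIdealRing.principal (Ideal.span (Set.range P))).principal
    have h2 : ∀ j, q ∣ P j := by
      intro j
      have : P j ∈ Ideal.span (Set.range P) := Ideal.subset_span (Set.mem_range_self j)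
      rw [hq, Ideal.submodule_span_eq, Ideal.mem_span_singleton] at this
      exact this
    have hdeg : q.degree = 0 := by
      by_contra hcon
      obtain ⟨z, hz⟩ := IsAlgClosed.exists_root q hcon
      apply hne z
      funext j
      obtain ⟨a, ha⟩ := h2 j
      change (P j).eval z = 0
      rw [ha, Polynomial.eval_mul, hz.eq_zero, zero_mul]
    rw [hq, Ideal.submodule_span_eq, Ideal.mem_span_singleton]
    exact (Polynomial.isUnit_iff_degree_eq_zero.2 hdeg).dvd
  obtain ⟨c, hc⟩ := (Ideal.mem_span_range_iff_exists_fun).1 h1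
  exact ⟨c, hc⟩

theorem fib_finite {P : Fin (n + 1) → Polynomial ℂ} (hne : ∀ z, pv P z ≠ 0)
    (hnc : NonConst (pv P)) (p : ℙ ℂ (Fin (n + 1) → ℂ)) :
    {t : ℤ | Projectivization.mk ℂ (pv P t) (hne t) = p}.Finite := by
  by_contra hinf
  have hprop : ∀ a b (z : ℂ), (P a).eval z * p.rep b - (P b).eval z * p.rep a = 0 := by
    intro a b
    by_contra h
    push Not at h
    obtain ⟨t0, ht0⟩ := h
    refine hinf ((int_ne (R := P a * Polynomial.C (p.rep b) - P b * Polynomial.C (p.rep a)) ?_).subset ?_)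
    · intro h
      apply ht0
      have := congrArg (Polynomial.eval t0) h
      simpa using this
    · rintro t hp
      obtain ⟨a', ha'⟩ := Projectivization.exists_smul_eq_mk_rep ℂ (pv P t) (hne t)
      rw [show Projectivization.mk ℂ (pv P t) (hne t) = p from hp] at ha'
      change Polynomial.eval _ _ = 0
      rw [← ha']
      simp only [Polynomial.eval_sub, Polynomial.eval_mul, Polynomial.eval_C, Pi.smul_apply,
        Units.smul_def, smul_eq_mul, pv]
      ring
  obtain ⟨b, hb⟩ : ∃ b, p.rep b ≠ 0 := by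
    by_contra h
    push Not at h
    exact p.rep_nonzero (funext h)
  obtain ⟨z, w, hzw⟩ := hnc
  obtain ⟨i, j, hij⟩ := minors (hne z) hzw
  apply hij
  have h1 := hprop i b z
  have h2 := hprop j b z
  have h3 := hprop i b w
  have h4 := hprop j b w
  have h5 : (pv P z i * pv P w j - pv P z j * pv P w i) * (p.rep b * p.rep b) = 0 := by
    simp only [pv]
    linear_combination ((P j).eval w * p.rep b) * h1 - ((P i).eval w * p.rep b) * h2 +
      ((P b).eval z * p.rep i) * h4 - ((P b).eval z * p.rep j) * h3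
  exact (mul_eq_zero.1 h5).resolve_right (mul_ne_zero hb hb)

/-- If there are only finitely many points over finitely generated rings outside `Z`, then all
nonconstant rational curves are in `Z`. -/
theorem lines_of_arith {F : ι → MvPolynomial (Fin (n + 1)) ℂ}
    {G : κ → MvPolynomial (Fin (n + 1)) ℂ} (h : ArithOutside F G) {P : Fin (n + 1) → Polynomial ℂ}
    (hne : ∀ z, pv P z ≠ 0) (hF : ∀ z i, eval (pv P z) (F i) = 0) (hnc : NonConst (pv P))
    (z : ℂ) (k : κ) : eval (pv P z) (G k) = 0 := by
  classical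
  by_contra h0
  obtain ⟨U, hU⟩ := bezout_of_ne hne
  set s : Finset ℂ := (Finset.univ.biUnion fun j => (P j).coeffs) ∪
    (Finset.univ.biUnion fun j => (U j).coeffs) with hs
  have hmem : ∀ (p : Polynomial ℂ), (∀ c ∈ p.coeffs, c ∈ s) →
      ∀ i, p.coeff i ∈ Subring.closure (s : Set ℂ) := by
    intro p hp i
    by_cases hi : p.coeff i = 0
    · rw [hi]; exact (Subring.closure _).zero_mem
    · exact Subring.subset_closure (hp _ (Polynomial.coeff_mem_coeffs hi))
  have hP : ∀ j i, (P j).coeff i ∈ Subring.closure (s : Set ℂ) := fun j =>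
    hmem (P j) fun c hc => Finset.mem_union_left _ (Finset.mem_biUnion.2 ⟨j, Finset.mem_univ _, hc⟩)
  have hUm : ∀ j i, (U j).coeff i ∈ Subring.closure (s : Set ℂ) := fun j =>
    hmem (U j) fun c hc => Finset.mem_union_right _ (Finset.mem_biUnion.2 ⟨j, Finset.mem_univ _, hc⟩)
  have hfin := h s
  have hg0 : {t : ℤ | eval (pv P t) (G k) = 0}.Finite := by
    have hRe : ∀ z : ℂ, (aeval P (G k) : Polynomial ℂ).eval z = eval (pv P z) (G k) := by
      intro z
      have h3 := comp_aeval (R := ℂ) P (Polynomial.aeval z : Polynomial ℂ →ₐ[ℂ] ℂ)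
      have h4 := congrArg (fun h => h (G k)) h3
      change (aeval P (G k) : Polynomial ℂ).eval z = eval (fun i => (P i).eval z) (G k)
      simpa [Polynomial.coe_aeval_eq_eval] using h4
    have hR0 : (aeval P (G k) : Polynomial ℂ) ≠ 0 := by
      intro h
      apply h0
      rw [← hRe, h, Polynomial.eval_zero]
    refine (int_ne hR0).subset fun t ht => ?_
    change (aeval P (G k) : Polynomial ℂ).eval (t : ℂ) = 0
    rw [hRe]; exact ht
  refine hg0.infinite_compl ((hfin.biUnion fun p _ => fib_finite hne hnc p).subset ?_)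
  intro t ht
  simp only [Set.mem_iUnion]
  refine ⟨Projectivization.mk ℂ (pv P t) (hne t), ⟨pv P t, hne t, fun j =>
    eval_mem_subring (hP j) t, ⟨fun j => (U j).eval (t : ℂ), fun j => eval_mem_subring (hUm j) t, ?_⟩,
    hF t, ⟨k, ht⟩, rfl⟩, rfl⟩
  have h1 := congrArg (Polynomial.eval (t : ℂ)) hU
  rw [Polynomial.eval_finsetSum, Polynomial.eval_one] at h1
  simp only [Polynomial.eval_mul] at h1
  exact h1

end Pool.Agent.R871.SG
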