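import Pool.Agent.R871.SG.UniC

/-!
Entire curves of slow growth in the members of a family of varieties, with one growth condition for all
members.
-/

set_option autoImplicit false

namespace Pool.Agent.R871.SG

open Filter Topology Metric Set MvPolynomial

variable {q s : ℕ} {ι κ : Type}

/-- The values of polynomials. -/
noncomputable def pc (P : Fin s → Polynomial ℂ) (z : ℂ) : Fin s → ℂ := fun j => (P j).eval z

/-- The curve `f` lies in the member with the parameter `t` of the family `{F = 0}`. -/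
def InFib (F : ι → MvPolynomial (Fin q ⊕ Fin s) ℂ) (t : Fin q → ℂ) (f : ℂ → Fin s → ℂ) : Prop :=
  ∀ z i, eval (Sum.elim t (f z)) (F i) = 0

/-- The curve `f` in the projective space is not constant: two vectors of coordinates are linearly
independent. -/
def NonConstLine (f : ℂ → Fin s → ℂ) : Prop :=
  ∃ z z' i j, f z i * f z' j ≠ f z j * f z' i

theorem cont_fib (F : MvPolynomial (Fin q ⊕ Fin s) ℂ) :
    Continuous fun p : (Fin q → ℂ) × (Fin s → ℂ) => eval (Sum.elim p.1 p.2) F := by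
  refine (MvPolynomial.continuous_eval F).comp (continuous_pi fun i => ?_)
  rcases i with i | i
  · exact (continuous_apply i).comp continuous_fst
  · exact (continuous_apply i).comp continuous_snd

theorem fib_tendsto {T : Type} {l : Filter T} {t : T → Fin q → ℂ} {t0 : Fin q → ℂ}
    (h1 : Tendsto t l (𝓝 t0)) {v : T → Fin s → ℂ} {v0 : Fin s → ℂ} (h2 : Tendsto v l (𝓝 v0))
    (F : MvPolynomial (Fin q ⊕ Fin s) ℂ) :
    Tendsto (fun k => eval (Sum.elim (t k) (v k)) F) l (𝓝 (eval (Sum.elim t0 v0) F)) := by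
  refine ((MvPolynomial.continuous_eval F).tendsto _).comp (tendsto_pi_nhds.2 fun i => ?_)
  rcases i with i | i
  · exact tendsto_pi_nhds.1 h1 i
  · exact tendsto_pi_nhds.1 h2 i

theorem pc_diff (P : Fin s → Polynomial ℂ) : Differentiable ℂ (pc P) :=
  differentiable_pi.2 fun j => (P j).differentiable

theorem pc_slow {φ : ℝ → ℝ} (hφ : Grows φ) (P : Fin s → Polynomial ℂ) : Slow φ (pc P) := by
  have h1 := pe_slow hφ (d := 1) fun _ => P
  intro R
  obtain ⟨r, hr, h⟩ := h1 R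
  refine ⟨r, hr, fun z hz => ?_⟩
  have h2 := h z hz
  have h3 : ‖pe (d := 1) (fun _ => P) z‖ = ‖pc P z‖ := by
    refine le_antisymm ((pi_norm_le_iff_of_nonneg (norm_nonneg _)).2 fun _ => le_rfl) ?_
    exact norm_le_pi_norm (pe (d := 1) (fun _ => P) z) 0
  rwa [h3] at h2

theorem min_delta1 (δ : ℕ → ℕ → ℝ) (h : ∀ j D, 0 < δ j D) : ∃ ε : ℕ → ℝ,
    (∀ D, 0 < ε D) ∧ ∀ j D, j ≤ D → ε D ≤ δ j D := by
  obtain ⟨ε, h1, h2⟩ := min_delta (fun j _ D => δ j D) fun j _ D => h j D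
  exact ⟨ε, h1, fun j D hj => h2 j 0 D hj (Nat.zero_le _)⟩

theorem eq_of_ball {F : MvPolynomial (Fin q ⊕ Fin s) ℂ} {t : Fin q → ℂ} {P : Fin s → Polynomial ℂ}
    (h : ∀ z, ‖z‖ < 1 → eval (Sum.elim t (pc P z)) F = 0) (z : ℂ) :
    eval (Sum.elim t (pc P z)) F = 0 := by
  have hd : Differentiable ℂ fun z => eval (Sum.elim t (pc P z)) F := by
    have h1 : Differentiable ℂ fun z => (Sum.elim t (pc P z) : Fin q ⊕ Fin s → ℂ) := by
      refine differentiable_pi.2 fun i => ?_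
      rcases i with i | i
      · exact differentiable_const _
      · exact (P i).differentiable
    exact diff_ev h1 F
  exact zero_ball hd (w := 0) (r := 1) one_pos (fun x hx => h x (by rwa [sub_zero] at hx)) z

/-- **Entire curves of slow growth in the members of a family are limits of polynomial curves in
members of the family.** -/
theorem approx_members (F : ι → MvPolynomial (Fin q ⊕ Fin s) ℂ) (K : ℕ → Set (Fin q → ℂ))
    (hK : ∀ l, IsClosed (K l)) : ∃ φ : ℝ → ℝ, Grows φ ∧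
    ∀ (l : ℕ), ∀ t ∈ K l, ∀ f : ℂ → Fin s → ℂ, Differentiable ℂ f → InFib F t f → Slow φ f →
      ∀ ρ η : ℝ, 0 ≤ ρ → 0 < η → ∃ t' ∈ K l, ∃ P : Fin s → Polynomial ℂ,
        InFib F t' (pc P) ∧ ‖t' - t‖ ≤ η ∧ ∀ x, ‖x‖ ≤ ρ → ‖pc P x - f x‖ ≤ η := by
  set L : ℕ → ℕ → Set ((Fin q → ℂ) × (Fin s → ℂ)) :=
    fun l k => {p | (k = 0 → p.1 ∈ K l) ∧ (k ≠ 0 → p.1 = 0)} with hL
  set e : {x : ℂ // ‖x‖ ≤ 1} → ℕ → ℂ := fun t k => t.1 ^ k with he
  set Z : Set ((Fin q → ℂ) × (Fin s → ℂ)) := {p | ∀ i, eval (Sum.elim p.1 p.2) (F i) = 0} with hZ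
  have hZc : IsClosed Z := by
    have : Z = ⋂ i, {p | eval (Sum.elim p.1 p.2) (F i) = 0} := by
      ext x; simp [hZ]
    rw [this]
    exact isClosed_iInter fun i => isClosed_eq (cont_fib (F i)) continuous_const
  have hsum : Summable fun k : ℕ => (1 / 2 : ℝ) ^ k := summable_geometric_two
  have key : ∀ l : ℕ, ∃ δ : ℕ → ℝ, (∀ D, 0 < δ D) ∧
      ∀ c : ℕ → (Fin q → ℂ) × (Fin s → ℂ), (∀ j, c j ∈ L l j) →
      (∀ t : {x : ℂ // ‖x‖ ≤ 1}, ∑' j, e t j • c j ∈ Z) →
      (∀ A : ℝ, 0 ≤ A → Summable fun j => A ^ j * ‖c j‖) →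
      (∀ D₀, ∃ D ≥ D₀, ∀ j, D < j → 4 ^ j * ‖c j‖ ≤ δ D) → ∀ ρ η : ℝ, 0 ≤ ρ → 0 < η →
      ∃ (c' : ℕ → (Fin q → ℂ) × (Fin s → ℂ)) (D : ℕ),
        (∀ j, D < j → c' j = 0) ∧ (∀ j, c' j ∈ L l j) ∧
        (∀ t : {x : ℂ // ‖x‖ ≤ 1}, ∑' j, e t j • c' j ∈ Z) ∧
        (Summable fun j => ρ ^ j * ‖c' j - c j‖) ∧ ∑' j, ρ ^ j * ‖c' j - c j‖ ≤ η := by
    intro l
    refine approx_gen (J := ℕ) (fun k => k) (fun D => Set.finite_le_nat D) hsum (L l) (fun k => ?_)
      e (fun t k => ?_) (fun _ => Z) fun t => hZc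
    · by_cases hk : k = 0
      · have : L l k = Prod.fst ⁻¹' (K l) := by
          ext p
          simp [hL, hk]
        rw [this]
        exact (hK l).preimage continuous_fst
      · have : L l k = Prod.fst ⁻¹' {0} := by
          ext p
          simp [hL, hk]
        rw [this]
        exact isClosed_singleton.preimage continuous_fst
    · rw [he]
      simp only
      rw [norm_pow]
      exact (pow_le_one₀ (norm_nonneg _) t.2).trans (one_le_pow₀ (by norm_num))
  choose δ hδ hap using key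
  obtain ⟨ε, hε, hεδ⟩ := min_delta1 δ hδ
  obtain ⟨φ, hφ, hgr⟩ := growth1 ε hε
  refine ⟨φ, hφ, fun l t0 ht0 f hf hfF hs ρ η hρ hη => ?_⟩
  set b : ℕ → (Fin q → ℂ) × (Fin s → ℂ) := fun k => (if k = 0 then t0 else 0, coef f 0 k) with hb
  have hbn : ∀ k, ‖b k‖ ≤ (if k = 0 then ‖t0‖ else 0) + ‖coef f 0 k‖ := by
    intro k
    rw [hb]
    simp only [Prod.norm_mk]
    by_cases hk : k = 0
    · simp only [hk, if_true]
      exact max_le (le_add_of_nonneg_right (norm_nonneg _)) (le_add_of_nonneg_left (norm_nonneg _))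
    · simp [hk]
  have hbs : ∀ x : ℂ, HasSum (fun k => x ^ k • b k) (t0, f x) := by
    intro x
    have h1 : HasSum (fun k : ℕ => x ^ k • (if k = 0 then t0 else 0)) t0 := by
      have h2 := hasSum_single (f := fun k : ℕ => x ^ k • (if k = 0 then t0 else 0)) 0
        (fun k hk => by simp [hk])
      simpa using h2
    have h2 := ser_hasSumU hf 0 x
    rw [zero_add] at h2
    exact h1.prodMk h2
  obtain ⟨b', D, hb'0, hb'L, hb'C, hb's, hb'η⟩ := hap l b
    (fun k => ⟨fun hk => by simpa [hb, hk] using ht0, fun hk => by simp [hb, hk]⟩)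
    (fun t => by
      have h1 : ∑' j, e t j • b j = (t0, f t.1) := (hbs t.1).tsum_eq
      rw [h1]
      exact hfF t.1)
    (fun A hA => by
      have h1 : Summable fun k : ℕ => A ^ k * (if k = 0 then ‖t0‖ else 0) :=
        summable_of_ne_finset_zero (s := {0}) fun k hk => by
          have : k ≠ 0 := by simpa using hk
          simp [this]
      refine Summable.of_nonneg_of_le (fun k => by positivity) (fun k => ?_)
        (h1.add (coef_summableU hf hA))
      rw [← mul_add]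
      exact mul_le_mul_of_nonneg_left (hbn k) (by positivity))
    (fun D₀ => by
      obtain ⟨D, hD, h⟩ := hgr f hf hs 4 (max D₀ l) (by norm_num)
      refine ⟨D, (le_max_left _ _).trans hD, fun j hj => ?_⟩
      have hj0 : j ≠ 0 := by omega
      have h1 : ‖b j‖ ≤ ‖coef f 0 j‖ := by
        have := hbn j
        rwa [if_neg hj0, zero_add] at this
      have h2 : ε D ≤ δ l D := hεδ l D ((le_max_right _ _).trans hD)
      exact ((mul_le_mul_of_nonneg_left h1 (by positivity)).trans (h j hj)).trans h2) ρ η hρ hη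
  set P : Fin s → Polynomial ℂ := fun j =>
    ∑ k ∈ Finset.range (D + 1), Polynomial.C ((b' k).2 j) * Polynomial.X ^ k with hP
  have hPe : ∀ x, pc P x = ∑ k ∈ Finset.range (D + 1), x ^ k • (b' k).2 := by
    intro x
    funext j
    simp only [pc, hP, Polynomial.eval_finsetSum, Polynomial.eval_mul, Polynomial.eval_C,
      Polynomial.eval_pow, Polynomial.eval_X, Finset.sum_apply, Pi.smul_apply, smul_eq_mul]
    exact Finset.sum_congr rfl fun k _ => mul_comm _ _
  have hb's' : ∀ x : ℂ, HasSum (fun k => x ^ k • b' k) ((b' 0).1, pc P x) := by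
    intro x
    have h1 : HasSum (fun k => x ^ k • b' k) (∑ k ∈ Finset.range (D + 1), x ^ k • b' k) :=
      hasSum_sum_of_ne_finset_zero fun k hk => by
        rw [hb'0 k (by simpa using hk), smul_zero]
    have h2 : ∑ k ∈ Finset.range (D + 1), x ^ k • b' k = ((b' 0).1, pc P x) := by
      refine Prod.ext ?_ ?_
      · rw [Prod.fst_sum, Finset.sum_eq_single 0]
        · simp
        · intro k _ hk
          rw [Prod.smul_fst, (hb'L k).2 hk, smul_zero]
        · intro h; simp at h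
      · rw [Prod.snd_sum, hPe]
        rfl
    rwa [h2] at h1
  refine ⟨(b' 0).1, (hb'L 0).1 rfl, P, ?_, ?_, fun x hx => ?_⟩
  · intro z i
    refine eq_of_ball (fun x hx => ?_) z
    have h2 := hb'C ⟨x, hx.le⟩
    have h3 : ∑' j, e ⟨x, hx.le⟩ j • b' j = ((b' 0).1, pc P x) := (hb's' x).tsum_eq
    rw [h3] at h2
    exact h2 i
  · have h1 : ‖(b' 0).1 - t0‖ ≤ ‖b' 0 - b 0‖ := by
      have h2 : (b' 0 - b 0).1 = (b' 0).1 - t0 := by simp [hb]
      rw [← h2]
      exact norm_fst_le _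
    have h2 : ρ ^ 0 * ‖b' 0 - b 0‖ ≤ ∑' j, ρ ^ j * ‖b' j - b j‖ :=
      hb's.le_tsum 0 fun j _ => by positivity
    rw [pow_zero, one_mul] at h2
    exact (h1.trans h2).trans hb'η
  · have h1 := (hb's' x).sub (hbs x)
    have hdif : ∀ k, ‖x ^ k • b' k - x ^ k • b k‖ ≤ ρ ^ k * ‖b' k - b k‖ := by
      intro k
      rw [← smul_sub, norm_smul, norm_pow]
      gcongr
    have h2 : ‖(((b' 0).1, pc P x) : (Fin q → ℂ) × (Fin s → ℂ)) - (t0, f x)‖ ≤ η :=
      (h1.tsum_eq ▸ tsum_of_norm_bounded hb's.hasSum hdif).trans hb'η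
    exact (norm_snd_le _).trans h2

/-- **One growth condition for all members of a family.** -/
theorem members_iff (F : ι → MvPolynomial (Fin q ⊕ Fin s) ℂ) (K : ℕ → Set (Fin q → ℂ))
    (hK : ∀ l, IsClosed (K l)) : ∃ φ : ℝ → ℝ, Grows φ ∧
    ∀ (κ : Type) (G : κ → MvPolynomial (Fin q ⊕ Fin s) ℂ),
      (∀ t ∈ ⋃ l, K l, ∀ P : Fin s → Polynomial ℂ, InFib F t (pc P) → NonConstLine (pc P) →
        InFib G t (pc P)) ↔
      ∀ t ∈ ⋃ l, K l, ∀ f : ℂ → Fin s → ℂ, Differentiable ℂ f → Slow φ f → InFib F t f →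
        NonConstLine f → InFib G t f := by
  obtain ⟨φ, hφ, h⟩ := approx_members F K hK
  refine ⟨φ, hφ, fun κ G => ⟨fun hD t ht f hf hs hF hnc z k0 => ?_, fun hD t ht P hP hnc =>
    hD t ht (pc P) (pc_diff P) (pc_slow hφ P) hP hnc⟩⟩
  obtain ⟨l, hl⟩ := mem_iUnion.1 ht
  by_contra hzk
  obtain ⟨a, a', i, j, hij⟩ := hnc
  choose t' ht' P hP hcl hlim using fun k : ℕ => h l t hl f hf hF hs ((k : ℝ) + (‖a‖ + ‖a'‖ + ‖z‖))
    (1 / ((k : ℝ) + 1)) (by positivity) (by positivity)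
  have h0 : Tendsto (fun k : ℕ => 1 / ((k : ℝ) + 1)) atTop (𝓝 0) :=
    tendsto_one_div_add_atTop_nhds_zero_nat
  have hlim' : ∀ x, ‖x‖ ≤ ‖a‖ + ‖a'‖ + ‖z‖ → Tendsto (fun k => pc (P k) x) atTop (𝓝 (f x)) := by
    intro x hx
    rw [tendsto_iff_norm_sub_tendsto_zero]
    exact squeeze_zero (fun k => norm_nonneg _) (fun k => hlim k x (by
      have := k.cast_nonneg (α := ℝ); linarith)) h0
  have ht'' : Tendsto t' atTop (𝓝 t) := by
    rw [tendsto_iff_norm_sub_tendsto_zero]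
    exact squeeze_zero (fun k => norm_nonneg _) hcl h0
  have ha := tendsto_pi_nhds.1 (hlim' a (by linarith [norm_nonneg a', norm_nonneg z]))
  have ha' := tendsto_pi_nhds.1 (hlim' a' (by linarith [norm_nonneg a, norm_nonneg z]))
  have hz := hlim' z (by linarith [norm_nonneg a, norm_nonneg a'])
  have h1 := ((ha i).mul (ha' j)).sub ((ha j).mul (ha' i))
  have h2 : Tendsto (fun k => eval (Sum.elim (t' k) (pc (P k) z)) (G k0)) atTop
      (𝓝 (eval (Sum.elim t (f z)) (G k0))) := fib_tendsto ht'' hz (G k0)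
  obtain ⟨k, hk1, hk2⟩ := ((h1.eventually_ne (sub_ne_zero.2 hij)).and (h2.eventually_ne hzk)).exists
  exact hk2 (hD (t' k) (mem_iUnion.2 ⟨l, ht' k⟩) (P k) (hP k) ⟨a, a', i, j, sub_ne_zero.1 hk1⟩ z k0)

end Pool.Agent.R871.SG
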