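import Pool.Agent.R871.SG.Arith
import Pool.Agent.R871.SG.FamA

/-!
Families of projective varieties: finiteness of the points over finitely generated rings of the members
over an algebraically closed field, and entire curves of slow growth in all complex members.
-/

set_option autoImplicit false

namespace Pool.Agent.R871.SG

open MvPolynomial
open scoped LinearAlgebra.Projectivization

/-- A system of polynomial equations and one inequation over an algebraically closed field `K` with a
solution in an extension field has a solution in `K`. -/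
theorem nss_closed {K A : Type} [Field K] [IsAlgClosed K] [Field A] [Algebra K A] {M J : Type}
    [Finite M] (E : J → MvPolynomial M K) (H : MvPolynomial M K) (x : M → A)
    (hE : ∀ j, aeval x (E j) = 0) (hH : aeval x H ≠ 0) :
    ∃ y : M → K, (∀ j, aeval y (E j) = 0) ∧ aeval y H ≠ 0 := by
  by_contra hcon
  push Not at hcon
  set I : Ideal (MvPolynomial M K) := Ideal.span (Set.range E) with hI
  have h1 : H ∈ vanishingIdeal K (zeroLocus K I) := by
    rw [mem_vanishingIdeal_iff]
    intro y hy
    rw [mem_zeroLocus_iff] at hy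
    exact hcon y fun j => hy (E j) (Ideal.subset_span (Set.mem_range_self j))
  rw [vanishingIdeal_zeroLocus_eq_radical] at h1
  obtain ⟨N, hN⟩ := h1
  have h2 : I ≤ RingHom.ker (aeval x : MvPolynomial M K →ₐ[K] A) := by
    rw [hI, Ideal.span_le]
    rintro _ ⟨j, rfl⟩
    exact hE j
  have h3 := h2 hN
  rw [RingHom.mem_ker, map_pow] at h3
  exact hH (eq_zero_of_pow_eq_zero h3)

variable {k : Type} [Field k] {q n : ℕ} {ι κ : Type}

/-- The polynomial is homogeneous of degree `d` in the second group of variables. -/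
def HomFib (F : MvPolynomial (Fin q ⊕ Fin (n + 1)) k) (d : ℕ) : Prop :=
  F.IsWeightedHomogeneous (Sum.elim (fun _ => 0) fun _ => 1 : Fin q ⊕ Fin (n + 1) → ℕ) d

theorem eval_smul_fib {F : MvPolynomial (Fin q ⊕ Fin (n + 1)) k} {d : ℕ} (h : HomFib F d)
    (t : Fin q → k) (a : k) (x : Fin (n + 1) → k) :
    eval (Sum.elim t (a • x)) F = a ^ d * eval (Sum.elim t x) F := by
  classical
  rw [eval_eq', eval_eq', Finset.mul_sum]
  refine Finset.sum_congr rfl fun m hm => ?_
  have hd : ∑ j : Fin (n + 1), m (Sum.inr j) = d := by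
    have h1 := h (mem_support_iff.1 hm)
    rw [← h1, Finsupp.weight_apply, Finsupp.sum_fintype _ _ (by simp)]
    simp [Fintype.sum_sum_type]
  simp only [Fintype.prod_sum_type, Sum.elim_inl, Sum.elim_inr, Pi.smul_apply, smul_eq_mul, mul_pow,
    Finset.prod_mul_distrib, Finset.prod_pow_eq_pow_sum, hd]
  ring

/-- Over every subring `A` of `k` which is finitely generated as a ring there are only finitely many
points in the member `{F(t, ·) = 0}` of the family and not in `{G(t, ·) = 0}` which have homogeneous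
coordinates in `A` that generate the unit ideal of `A`. -/
def ArithFib (F : ι → MvPolynomial (Fin q ⊕ Fin (n + 1)) k)
    (G : κ → MvPolynomial (Fin q ⊕ Fin (n + 1)) k) (t : Fin q → k) : Prop :=
  ∀ s : Finset k, {p : ℙ k (Fin (n + 1) → k) | ∃ (x : Fin (n + 1) → k) (hx : x ≠ 0),
    (∀ j, x j ∈ Subring.closure (s : Set k)) ∧
    (∃ u : Fin (n + 1) → k, (∀ j, u j ∈ Subring.closure (s : Set k)) ∧ ∑ j, u j * x j = 1) ∧
    (∀ i, eval (Sum.elim t x) (F i) = 0) ∧ (∃ l, eval (Sum.elim t x) (G l) ≠ 0) ∧
      Projectivization.mk k x hx = p}.Finite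

theorem eval_mem_sub {A : Subring k} {p : Polynomial k} (h : ∀ i, p.coeff i ∈ A) (t : ℤ) :
    p.eval (t : k) ∈ A := by
  rw [Polynomial.eval_eq_sum_range]
  exact A.sum_mem fun i _ => A.mul_mem (h i) (A.pow_mem (intCast_mem A t) i)

/-- The values of polynomials over `k`. -/
def pk (P : Fin (n + 1) → Polynomial k) (z : k) : Fin (n + 1) → k := fun j => (P j).eval z

theorem exists_reduced {P : Fin (n + 1) → Polynomial k} {j0 : Fin (n + 1)} (h0 : P j0 ≠ 0) :
    ∃ (g : Polynomial k) (R U : Fin (n + 1) → Polynomial k), g ≠ 0 ∧ (∀ j, P j = g * R j) ∧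
      ∑ j, U j * R j = 1 := by
  obtain ⟨g, hg⟩ := (IsPrincipalIdealRing.principal (Ideal.span (Set.range P))).principal
  have h2 : ∀ j, g ∣ P j := by
    intro j
    have : P j ∈ Ideal.span (Set.range P) := Ideal.subset_span (Set.mem_range_self j)
    rw [hg, Ideal.submodule_span_eq, Ideal.mem_span_singleton] at this
    exact this
  choose R hR using h2
  have hg0 : g ≠ 0 := by
    rintro rfl
    exact h0 (by rw [hR j0, zero_mul])
  have h3 : g ∈ Ideal.span (Set.range P) := by
    rw [hg, Ideal.submodule_span_eq]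
    exact Ideal.mem_span_singleton_self g
  obtain ⟨U, hU⟩ := (Ideal.mem_span_range_iff_exists_fun).1 h3
  refine ⟨g, R, U, hg0, hR, mul_left_cancel₀ hg0 ?_⟩
  rw [mul_one, Finset.mul_sum]
  refine (Finset.sum_congr rfl fun j _ => ?_).trans hU
  rw [hR j]
  ring

theorem fib_finite_k [CharZero k] {R : Fin (n + 1) → Polynomial k} (hne : ∀ z : ℤ, pk R z ≠ 0)
    {ta tb : ℤ} {i j : Fin (n + 1)}
    (hij : pk R ta i * pk R tb j - pk R ta j * pk R tb i ≠ 0) (p : ℙ k (Fin (n + 1) → k)) :
    {t : ℤ | Projectivization.mk k (pk R t) (hne t) = p}.Finite := by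
  by_contra hinf
  have hprop : ∀ a b (z : k), (R a).eval z * p.rep b - (R b).eval z * p.rep a = 0 := by
    intro a b
    by_contra h
    push Not at h
    obtain ⟨t0, ht0⟩ := h
    refine hinf ((int_ne (R := R a * Polynomial.C (p.rep b) - R b * Polynomial.C (p.rep a)) ?_).subset ?_)
    · intro h
      apply ht0
      have := congrArg (Polynomial.eval t0) h
      simpa using this
    · rintro t hp
      obtain ⟨a', ha'⟩ := Projectivization.exists_smul_eq_mk_rep k (pk R t) (hne t)
      rw [show Projectivization.mk k (pk R t) (hne t) = p from hp] at ha'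
      change Polynomial.eval _ _ = 0
      rw [← ha']
      simp only [Polynomial.eval_sub, Polynomial.eval_mul, Polynomial.eval_C, Pi.smul_apply,
        Units.smul_def, smul_eq_mul, pk]
      ring
  obtain ⟨b, hb⟩ : ∃ b, p.rep b ≠ 0 := by
    by_contra h
    push Not at h
    exact p.rep_nonzero (funext h)
  apply hij
  have h1 := hprop i b ta
  have h2 := hprop j b ta
  have h3 := hprop i b tb
  have h4 := hprop j b tb
  have h5 : (pk R ta i * pk R tb j - pk R ta j * pk R tb i) * (p.rep b * p.rep b) = 0 := by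
    simp only [pk]
    linear_combination ((R j).eval (tb : k) * p.rep b) * h1 - ((R i).eval (tb : k) * p.rep b) * h2 +
      ((R b).eval (ta : k) * p.rep i) * h4 - ((R b).eval (ta : k) * p.rep j) * h3
  exact (mul_eq_zero.1 h5).resolve_right (mul_ne_zero hb hb)

/-- A nonconstant polynomial curve in a member gives infinitely many points over a finitely generated
ring. -/
theorem not_arith [CharZero k] {F : ι → MvPolynomial (Fin q ⊕ Fin (n + 1)) k}
    {G : κ → MvPolynomial (Fin q ⊕ Fin (n + 1)) k} (hF : ∀ i, ∃ d, HomFib (F i) d)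
    (hG : ∀ l, ∃ d, HomFib (G l) d) {t : Fin q → k} {P : Fin (n + 1) → Polynomial k}
    (hP : ∀ (z : ℤ) i, eval (Sum.elim t (pk P z)) (F i) = 0) {ta tb tc : ℤ} {i j : Fin (n + 1)}
    {l : κ} (hc : eval (Sum.elim t (pk P tc)) (G l) ≠ 0)
    (hij : pk P ta i * pk P tb j - pk P ta j * pk P tb i ≠ 0) : ¬ ArithFib F G t := by
  classical
  intro h
  obtain ⟨j0, hj0⟩ : ∃ j0, P j0 ≠ 0 := by
    by_contra hcon
    push Not at hcon
    simp [pk, hcon] at hij
  obtain ⟨g, R, U, hg, hR, hU⟩ := exists_reduced hj0
  have hPR : ∀ z : k, pk P z = g.eval z • pk R z := by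
    intro z
    funext a
    simp [pk, hR a]
  have hUz : ∀ z : k, ∑ a, (U a).eval z * (R a).eval z = 1 := by
    intro z
    have h1 := congrArg (Polynomial.eval z) hU
    rw [Polynomial.eval_finsetSum, Polynomial.eval_one] at h1
    simpa only [Polynomial.eval_mul] using h1
  have hne : ∀ z : ℤ, pk R z ≠ 0 := by
    intro z h0
    have h1 := hUz z
    have h2 : ∀ a, (R a).eval (z : k) = 0 := fun a => congrFun h0 a
    simp [h2] at h1
  have hRij : pk R ta i * pk R tb j - pk R ta j * pk R tb i ≠ 0 := by
    intro h0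
    apply hij
    rw [hPR, hPR]
    simp only [Pi.smul_apply, smul_eq_mul]
    linear_combination g.eval (ta : k) * g.eval (tb : k) * h0
  obtain ⟨e, he⟩ := hG l
  have hRc : eval (Sum.elim t (pk R tc)) (G l) ≠ 0 := by
    intro h0
    apply hc
    rw [hPR, eval_smul_fib he, h0, mul_zero]
  set s : Finset k := (Finset.univ.biUnion fun a => (R a).coeffs) ∪
    (Finset.univ.biUnion fun a => (U a).coeffs) with hs
  have hmem : ∀ (p : Polynomial k), (∀ c ∈ p.coeffs, c ∈ s) →
      ∀ a, p.coeff a ∈ Subring.closure (s : Set k) := by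
    intro p hp a
    by_cases ha : p.coeff a = 0
    · rw [ha]; exact (Subring.closure _).zero_mem
    · exact Subring.subset_closure (hp _ (Polynomial.coeff_mem_coeffs ha))
  have hRm : ∀ b a, (R b).coeff a ∈ Subring.closure (s : Set k) := fun b =>
    hmem (R b) fun c hc => Finset.mem_union_left _ (Finset.mem_biUnion.2 ⟨b, Finset.mem_univ _, hc⟩)
  have hUm : ∀ b a, (U b).coeff a ∈ Subring.closure (s : Set k) := fun b =>
    hmem (U b) fun c hc => Finset.mem_union_right _ (Finset.mem_biUnion.2 ⟨b, Finset.mem_univ _, hc⟩)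
  have hg0 : {z : ℤ | g.eval (z : k) = 0}.Finite := int_ne hg
  have hG0 : {z : ℤ | eval (Sum.elim t (pk R z)) (G l) = 0}.Finite := by
    set S : Polynomial k := aeval (Sum.elim (fun a => Polynomial.C (t a)) R) (G l) with hS
    have hSe : ∀ z : k, S.eval z = eval (Sum.elim t (pk R z)) (G l) := by
      intro z
      have h3 := comp_aeval (R := k) (Sum.elim (fun a => Polynomial.C (t a)) R)
        (Polynomial.aeval z : Polynomial k →ₐ[k] k)
      have h4 := congrArg (fun h => h (G l)) h3
      have h5 : (fun i => (Polynomial.aeval z : Polynomial k →ₐ[k] k)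
          (Sum.elim (fun a => Polynomial.C (t a)) R i)) = Sum.elim t (pk R z) := by
        funext i
        rcases i with i | i
        · simp
        · simp [pk, Polynomial.coe_aeval_eq_eval]
      rw [h5] at h4
      simpa [Polynomial.coe_aeval_eq_eval] using h4
    have hS0 : S ≠ 0 := by
      intro h
      apply hRc
      rw [← hSe, h, Polynomial.eval_zero]
    refine (int_ne hS0).subset fun z hz => ?_
    change S.eval (z : k) = 0
    rw [hSe]; exact hz
  refine (hg0.union hG0).infinite_compl (((h s).biUnion fun p _ => fib_finite_k hne hRij p).subset ?_)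
  intro z hz
  simp only [Set.mem_compl_iff, Set.mem_union, Set.mem_ofPred_eq, not_or] at hz
  simp only [Set.mem_iUnion]
  refine ⟨Projectivization.mk k (pk R z) (hne z), ⟨pk R z, hne z, fun a => eval_mem_sub (hRm a) z,
    ⟨fun a => (U a).eval (z : k), fun a => eval_mem_sub (hUm a) z, hUz z⟩, fun a => ?_, ⟨l, hz.2⟩,
    rfl⟩, rfl⟩
  obtain ⟨d, hd⟩ := hF a
  have h1 := hP z a
  rw [hPR, eval_smul_fib hd] at h1
  exact (mul_eq_zero.1 h1).resolve_left (pow_ne_zero _ hz.1)

end Pool.Agent.R871.SG
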