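import Pool.Agent.R871.SG.ArithF

/-!
Arithmetic hyperbolicity of the members of a family over an algebraically closed subfield of the
complex numbers and entire curves of slow growth in all complex members.
-/

set_option autoImplicit false

namespace Pool.Agent.R871.SG

open MvPolynomial Set
open scoped LinearAlgebra.Projectivization

variable {k : Type} [Field k] {q n : ℕ} {ι κ : Type}

/-- The point `t` with coordinates in the `k`-algebra `A` is in the union of the locally closed subsets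
`{E l = 0, H l ≠ 0}` of the affine space, which are defined over `k`. -/
def InT {A : Type} [CommRing A] [Algebra k A] (E : ℕ → Set (MvPolynomial (Fin q) k))
    (H : ℕ → MvPolynomial (Fin q) k) (t : Fin q → A) : Prop :=
  ∃ l, (∀ e ∈ E l, aeval t e = 0) ∧ aeval t (H l) ≠ 0

theorem aeval_comp {A M N : Type} [CommRing A] [Algebra k A] (y : N → A)
    (v : M → MvPolynomial N k) (f : MvPolynomial M k) :
    aeval y (aeval v f) = aeval (fun i => aeval y (v i)) f := by
  rw [← AlgHom.comp_apply, comp_aeval]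

/-- **Specialization of polynomial curves** from complex members to members over `k`. -/
theorem specialize_curve [IsAlgClosed k] [Algebra k ℂ] {F : ι → MvPolynomial (Fin q ⊕ Fin (n + 1)) k}
    {g : MvPolynomial (Fin q ⊕ Fin (n + 1)) k}
    {E : Set (MvPolynomial (Fin q) k)} {H : MvPolynomial (Fin q) k} {t : Fin q → ℂ}
    (hE : ∀ e ∈ E, aeval t e = 0) (hH : aeval t H ≠ 0) {P : Fin (n + 1) → Polynomial ℂ}
    (hP : ∀ (z : ℤ) i, aeval (Sum.elim t (pc P z)) (F i) = 0) {ta tb tc : ℤ} {i j : Fin (n + 1)}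
    (hc : aeval (Sum.elim t (pc P tc)) g ≠ 0)
    (hij : pc P ta i * pc P tb j - pc P ta j * pc P tb i ≠ 0) :
    ∃ (t' : Fin q → k) (Q : Fin (n + 1) → Polynomial k), (∀ e ∈ E, aeval t' e = 0) ∧
      aeval t' H ≠ 0 ∧ (∀ (z : ℤ) i, eval (Sum.elim t' (pk Q z)) (F i) = 0) ∧
      eval (Sum.elim t' (pk Q tc)) g ≠ 0 ∧ pk Q ta i * pk Q tb j - pk Q ta j * pk Q tb i ≠ 0 := by
  classical
  set D : ℕ := ∑ s, (P s).natDegree with hD
  have hDs : ∀ s, (P s).natDegree < D + 1 := fun s =>
    Nat.lt_succ_of_le (Finset.single_le_sum (f := fun s => (P s).natDegree)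
      (fun _ _ => Nat.zero_le _) (Finset.mem_univ s))
  set PX : ℤ → Fin (n + 1) → MvPolynomial (Fin q ⊕ (Fin (D + 1) × Fin (n + 1))) k := fun z s =>
    ∑ m : Fin (D + 1), C ((z : k) ^ (m : ℕ)) * X (Sum.inr (m, s)) with hPX
  set TX : Fin q → MvPolynomial (Fin q ⊕ (Fin (D + 1) × Fin (n + 1))) k := fun a => X (Sum.inl a)
    with hTX
  set x : Fin q ⊕ (Fin (D + 1) × Fin (n + 1)) → ℂ := Sum.elim t fun p => (P p.2).coeff p.1 with hx
  have hxP : ∀ (z : ℤ) s, aeval x (PX z s) = pc P z s := by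
    intro z s
    rw [pc, Polynomial.eval_eq_sum_range' (hDs s), Finset.sum_range, hPX]
    simp only [map_sum, map_mul, aeval_C, aeval_X, hx, map_pow, map_intCast, Sum.elim_inr]
    exact Finset.sum_congr rfl fun m _ => mul_comm _ _
  have hxT : ∀ a, aeval x (TX a) = t a := by
    intro a
    simp [hTX, hx]
  have hxS : ∀ z : ℤ, (fun a => aeval x (Sum.elim TX (PX z) a)) = Sum.elim t (pc P z) := by
    intro z
    funext a
    rcases a with a | a
    · exact hxT a
    · exact hxP z a
  obtain ⟨y, hy1, hy2⟩ := nss_closed (A := ℂ)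
    (fun p : E ⊕ (ℤ × ι) => Sum.elim (fun e => aeval TX e.1)
      (fun p : ℤ × ι => aeval (Sum.elim TX (PX p.1)) (F p.2)) p)
    (aeval TX H * aeval (Sum.elim TX (PX tc)) g * (PX ta i * PX tb j - PX ta j * PX tb i)) x
    (fun p => by
      rcases p with e | p
      · simp only [Sum.elim_inl]
        rw [aeval_comp]
        simp only [hxT]
        exact hE e.1 e.2
      · simp only [Sum.elim_inr]
        rw [aeval_comp, hxS]
        exact hP p.1 p.2) (by
      rw [map_mul, map_mul, aeval_comp, aeval_comp, hxS, map_sub, map_mul, map_mul, hxP, hxP, hxP, hxP]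
      simp only [hxT]
      exact mul_ne_zero (mul_ne_zero hH hc) hij)
  set t' : Fin q → k := fun a => y (Sum.inl a) with ht'
  set Q : Fin (n + 1) → Polynomial k := fun s =>
    ∑ m : Fin (D + 1), Polynomial.C (y (Sum.inr (m, s))) * Polynomial.X ^ (m : ℕ) with hQ
  have hyP : ∀ (z : ℤ) s, aeval y (PX z s) = pk Q z s := by
    intro z s
    simp only [pk, hQ, hPX, Polynomial.eval_finsetSum, Polynomial.eval_mul, Polynomial.eval_C,
      Polynomial.eval_pow, Polynomial.eval_X, map_sum, map_mul, aeval_C, aeval_X, map_pow,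
      map_intCast]
    exact Finset.sum_congr rfl fun m _ => mul_comm _ _
  have hyT : ∀ a, aeval y (TX a) = t' a := by
    intro a
    simp [hTX, ht']
  have hyS : ∀ z : ℤ, (fun a => aeval y (Sum.elim TX (PX z) a)) = Sum.elim t' (pk Q z) := by
    intro z
    funext a
    rcases a with a | a
    · exact hyT a
    · exact hyP z a
  have hev : ∀ (v : Fin q ⊕ Fin (n + 1) → k) (f : MvPolynomial (Fin q ⊕ Fin (n + 1)) k),
      aeval v f = eval v f := fun v f => DFunLike.congr_fun (coe_aeval_eq_eval v) f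
  rw [map_mul, map_mul, aeval_comp, aeval_comp, hyS, map_sub, map_mul, map_mul, hyP, hyP, hyP, hyP,
    hev] at hy2
  simp only [hyT] at hy2
  refine ⟨t', Q, fun e he => ?_, left_ne_zero_of_mul (left_ne_zero_of_mul hy2), fun z a => ?_,
    right_ne_zero_of_mul (left_ne_zero_of_mul hy2), right_ne_zero_of_mul hy2⟩
  · have h1 := hy1 (Sum.inl ⟨e, he⟩)
    simp only [Sum.elim_inl] at h1
    rw [aeval_comp] at h1
    simpa only [hyT] using h1
  · have h1 := hy1 (Sum.inr (z, a))
    simp only [Sum.elim_inr] at h1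
    rwa [aeval_comp, hyS, hev] at h1

/-- **Arithmetic hyperbolicity of the members over `k` and entire curves in all complex members.** -/
theorem arith_members [IsAlgClosed k] [Algebra k ℂ] (F : ι → MvPolynomial (Fin q ⊕ Fin (n + 1)) k)
    (hF : ∀ i, ∃ d, HomFib (F i) d) (E : ℕ → Set (MvPolynomial (Fin q) k))
    (H : ℕ → MvPolynomial (Fin q) k) : ∃ φ : ℝ → ℝ, Grows φ ∧
    ∀ (κ : Type) (G : κ → MvPolynomial (Fin q ⊕ Fin (n + 1)) k), (∀ l, ∃ d, HomFib (G l) d) →
      (∀ t : Fin q → k, InT E H t → ArithFib F G t) →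
      ∀ t : Fin q → ℂ, InT E H t → ∀ f : ℂ → Fin (n + 1) → ℂ, Differentiable ℂ f → Slow φ f →
        InFib (fun i => map (algebraMap k ℂ) (F i)) t f → NonConstLine f →
          InFib (fun l => map (algebraMap k ℂ) (G l)) t f := by
  have hch : CharZero k := (algebraMap k ℂ).charZero
  set K : ℕ → Set (Fin q → ℂ) := fun m => {t | (∀ e ∈ E m.unpair.1, aeval t e = 0) ∧
    1 / ((m.unpair.2 : ℝ) + 1) ≤ ‖aeval t (H m.unpair.1)‖} with hK
  have hcont : ∀ e : MvPolynomial (Fin q) k, Continuous fun t : Fin q → ℂ => aeval t e := by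
    intro e
    have : (fun t : Fin q → ℂ => aeval t e) = fun t => eval t (map (algebraMap k ℂ) e) := by
      funext t
      rw [eval_map, aeval_def]
    rw [this]
    exact MvPolynomial.continuous_eval _
  have hKc : ∀ m, IsClosed (K m) := by
    intro m
    have : K m = (⋂ e ∈ E m.unpair.1, {t | aeval t e = 0}) ∩
        {t | 1 / ((m.unpair.2 : ℝ) + 1) ≤ ‖aeval t (H m.unpair.1)‖} := by
      ext t
      simp [hK]
    rw [this]
    exact (isClosed_biInter fun e _ => isClosed_eq (hcont e) continuous_const).inter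
      (isClosed_le continuous_const (hcont _).norm)
  have hKT : ∀ t : Fin q → ℂ, t ∈ ⋃ m, K m ↔ InT E H t := by
    intro t
    rw [mem_iUnion]
    constructor
    · rintro ⟨m, h1, h2⟩
      refine ⟨m.unpair.1, h1, fun h3 => ?_⟩
      rw [h3, norm_zero] at h2
      have : (0 : ℝ) < 1 / ((m.unpair.2 : ℝ) + 1) := by positivity
      linarith
    · rintro ⟨l, h1, h2⟩
      obtain ⟨m, hm⟩ := exists_nat_one_div_lt (norm_pos_iff.2 h2)
      refine ⟨Nat.pair l m, ?_, ?_⟩
      · simpa [Nat.unpair_pair] using h1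
      · simpa [Nat.unpair_pair] using hm.le
  have hmap : ∀ (v : Fin q ⊕ Fin (n + 1) → ℂ) (f : MvPolynomial (Fin q ⊕ Fin (n + 1)) k),
      eval v (map (algebraMap k ℂ) f) = aeval v f := fun v f => by
    rw [eval_map, aeval_def]
  obtain ⟨φ, hφ, h⟩ := members_iff (fun i => map (algebraMap k ℂ) (F i)) K hKc
  refine ⟨φ, hφ, fun κ G hG har t ht f hf hs hfF hnc => ?_⟩
  refine (h κ fun l => map (algebraMap k ℂ) (G l)).1 ?_ t ((hKT t).2 ht) f hf hs hfF hnc
  intro t ht P hP hnc z0 l
  obtain ⟨m, hE, hH⟩ := (hKT t).1 ht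
  by_contra h0
  rw [hmap] at h0
  -- integer points
  obtain ⟨tc, htc⟩ : ∃ z : ℤ, aeval (Sum.elim t (pc P z)) (G l) ≠ 0 := by
    set S : Polynomial ℂ := aeval (Sum.elim (fun a => Polynomial.C (t a)) P) (G l) with hS
    have hSe : ∀ z : ℂ, S.eval z = aeval (Sum.elim t (pc P z)) (G l) := by
      intro z
      have h3 := comp_aeval (R := k) (Sum.elim (fun a => Polynomial.C (t a)) P)
        ((Polynomial.aeval z).restrictScalars k : Polynomial ℂ →ₐ[k] ℂ)
      have h4 := congrArg (fun h => h (G l)) h3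
      have h5 : (fun i => ((Polynomial.aeval z).restrictScalars k : Polynomial ℂ →ₐ[k] ℂ)
          (Sum.elim (fun a => Polynomial.C (t a)) P i)) = Sum.elim t (pc P z) := by
        funext i
        rcases i with i | i
        · simp
        · simp [pc, Polynomial.coe_aeval_eq_eval]
      rw [h5] at h4
      simpa [Polynomial.coe_aeval_eq_eval] using h4
    obtain ⟨z, hz⟩ := int_ne' (R := S) (z := z0) (by rw [hSe]; exact h0)
    exact ⟨z, by rw [← hSe]; exact hz⟩
  obtain ⟨za, zb, i, j, hij⟩ := hnc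
  obtain ⟨ta, hta⟩ : ∃ z : ℤ, pc P z i * pc P zb j - pc P z j * pc P zb i ≠ 0 := by
    obtain ⟨z, hz⟩ := int_ne' (R := P i * Polynomial.C (pc P zb j) - P j * Polynomial.C (pc P zb i))
      (z := za) (by simpa [pc] using sub_ne_zero.2 hij)
    exact ⟨z, by simpa [pc] using hz⟩
  obtain ⟨tb, htb⟩ : ∃ z : ℤ, pc P ta i * pc P z j - pc P ta j * pc P z i ≠ 0 := by
    obtain ⟨z, hz⟩ := int_ne' (R := Polynomial.C (pc P ta i) * P j - Polynomial.C (pc P ta j) * P i)
      (z := zb) (by simpa [pc] using hta)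
    exact ⟨z, by simpa [pc] using hz⟩
  obtain ⟨t', Q, hQE, hQH, hQF, hQG, hQij⟩ := specialize_curve hE hH (F := F) (P := P)
    (fun z i => by
      have h1 := hP (z : ℂ) i
      rwa [hmap] at h1) htc htb
  exact not_arith hF hG hQF hQG hQij (har t' ⟨m, hQE, hQH⟩)

end Pool.Agent.R871.SG
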