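import Pool.Agent.R871.SG.WinB

/-!
Entire curves whose coefficients `a j`, `D < j ≤ d D`, are very small for infinitely many `D`: the
position with respect to closed subsets.
-/

set_option autoImplicit false

namespace Pool.Agent.R871.SG

open Filter Topology Metric Set MvPolynomial

variable {q s : ℕ} {ι κ : Type}

/-- For arbitrarily large `D` the coefficients `a j` with `D < j ≤ d D` are at most `ε D`. -/
def Windows (d : ℕ) (ε : ℕ → ℝ) (a : ℕ → Fin s → ℂ) : Prop :=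
  ∀ D₀, ∃ D ≥ D₀, ∀ j, D < j → j ≤ d * D → ‖a j‖ ≤ ε D

/-- `f` is the entire map with the power series `∑ a j z ^ j`. -/
def IsSeries (f : ℂ → Fin s → ℂ) (a : ℕ → Fin s → ℂ) : Prop :=
  ∀ z : ℂ, HasSum (fun j => z ^ j • a j) (f z)

theorem pc_series (P : Fin s → Polynomial ℂ) : IsSeries (pc P) fun k j => (P j).coeff k := by
  classical
  intro z
  set N : ℕ := ∑ j, (P j).natDegree with hN
  have hNs : ∀ j, (P j).natDegree < N + 1 := fun j =>
    Nat.lt_succ_of_le (Finset.single_le_sum (f := fun j => (P j).natDegree)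
      (fun _ _ => Nat.zero_le _) (Finset.mem_univ j))
  have h1 : pc P z = ∑ k ∈ Finset.range (N + 1), z ^ k • fun j => (P j).coeff k := by
    funext j
    rw [pc, Polynomial.eval_eq_sum_range' (hNs j), Finset.sum_apply]
    refine Finset.sum_congr rfl fun k _ => ?_
    simp [mul_comm]
  rw [h1]
  refine hasSum_sum_of_ne_finset_zero fun k hk => ?_
  have : (fun j => (P j).coeff k) = 0 := by
    funext j
    have h2 : N + 1 ≤ k := by simpa using hk
    exact Polynomial.coeff_eq_zero_of_natDegree_lt (lt_of_lt_of_le (hNs j) h2)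
  simp only [this, smul_zero]

theorem pc_windows {ε : ℕ → ℝ} (hε : ∀ D, 0 < ε D) (d : ℕ) (P : Fin s → Polynomial ℂ) :
    Windows d ε fun k j => (P j).coeff k := by
  classical
  intro D₀
  set N : ℕ := ∑ j, (P j).natDegree with hN
  have hNs : ∀ j, (P j).natDegree ≤ N := fun j =>
    Finset.single_le_sum (f := fun j => (P j).natDegree) (fun _ _ => Nat.zero_le _)
      (Finset.mem_univ j)
  refine ⟨max D₀ N, le_max_left _ _, fun k hk _ => ?_⟩
  have : (fun j => (P j).coeff k) = 0 := by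
    funext j
    exact Polynomial.coeff_eq_zero_of_natDegree_lt
      ((hNs j).trans_lt ((le_max_right _ _).trans_lt hk))
  simp only [this, norm_zero]
  exact (hε _).le

theorem windows_iff {F : ι → MvPolynomial (Fin q ⊕ Fin s) ℂ} {d : ℕ} (hF : ∀ i, DegFib (F i) d)
    (K : ℕ → Set (Fin q → ℂ)) (hK : ∀ l, IsClosed (K l)) : ∃ ε : ℕ → ℝ, (∀ D, 0 < ε D) ∧
    ∀ (κ : Type) (G : κ → MvPolynomial (Fin q ⊕ Fin s) ℂ),
      (∀ t ∈ ⋃ l, K l, ∀ P : Fin s → Polynomial ℂ, InFib F t (pc P) → NonConstLine (pc P) →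
        InFib G t (pc P)) ↔
      ∀ t ∈ ⋃ l, K l, ∀ (f : ℂ → Fin s → ℂ) (a : ℕ → Fin s → ℂ), IsSeries f a → Windows d ε a →
        InFib F t f → NonConstLine f → InFib G t f := by
  obtain ⟨ε, hε, h⟩ := approx_window hF K hK
  refine ⟨ε, hε, fun κ G => ⟨fun hD t ht f a hfa hw hfF hnc z k0 => ?_, fun hD t ht P hP hnc =>
    hD t ht (pc P) _ (pc_series P) (pc_windows hε d P) hP hnc⟩⟩
  obtain ⟨l, hl⟩ := mem_iUnion.1 ht
  by_contra hzk
  obtain ⟨b, b', i, j, hij⟩ := hnc
  choose t' ht' P hP hcl hlim using fun k : ℕ => h l t hl f a hfa hfF hw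
    ((k : ℝ) + (‖b‖ + ‖b'‖ + ‖z‖)) (1 / ((k : ℝ) + 1)) (by positivity) (by positivity)
  have h0 : Tendsto (fun k : ℕ => 1 / ((k : ℝ) + 1)) atTop (𝓝 0) :=
    tendsto_one_div_add_atTop_nhds_zero_nat
  have hlim' : ∀ x, ‖x‖ ≤ ‖b‖ + ‖b'‖ + ‖z‖ → Tendsto (fun k => pc (P k) x) atTop (𝓝 (f x)) := by
    intro x hx
    rw [tendsto_iff_norm_sub_tendsto_zero]
    exact squeeze_zero (fun k => norm_nonneg _) (fun k => hlim k x (by
      have := k.cast_nonneg (α := ℝ); linarith)) h0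
  have ht'' : Tendsto t' atTop (𝓝 t) := by
    rw [tendsto_iff_norm_sub_tendsto_zero]
    exact squeeze_zero (fun k => norm_nonneg _) hcl h0
  have hb := tendsto_pi_nhds.1 (hlim' b (by linarith [norm_nonneg b', norm_nonneg z]))
  have hb' := tendsto_pi_nhds.1 (hlim' b' (by linarith [norm_nonneg b, norm_nonneg z]))
  have hz := hlim' z (by linarith [norm_nonneg b, norm_nonneg b'])
  have h1 := ((hb i).mul (hb' j)).sub ((hb j).mul (hb' i))
  have h2 : Tendsto (fun k => eval (Sum.elim (t' k) (pc (P k) z)) (G k0)) atTop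
      (𝓝 (eval (Sum.elim t (f z)) (G k0))) := fib_tendsto ht'' hz (G k0)
  obtain ⟨k, hk1, hk2⟩ := ((h1.eventually_ne (sub_ne_zero.2 hij)).and (h2.eventually_ne hzk)).exists
  exact hk2 (hD (t' k) (mem_iUnion.2 ⟨l, ht' k⟩) (P k) (hP k) ⟨b, b', i, j, sub_ne_zero.1 hk1⟩ z k0)

end Pool.Agent.R871.SG
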