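import Pool.Agent.R871.SG.ArithG
import Pool.Agent.R871.SG.WinC

/-!
Arithmetic hyperbolicity of the members of a family over an algebraically closed subfield of the
complex numbers and entire curves with windows of very small coefficients in all complex members.
-/

set_option autoImplicit false

namespace Pool.Agent.R871.SG

open MvPolynomial Set
open scoped LinearAlgebra.Projectivization

variable {k : Type} [Field k] {q n : ℕ} {ι κ : Type}

theorem degFib_of_hom [Algebra k ℂ] {F : MvPolynomial (Fin q ⊕ Fin (n + 1)) k} {e d : ℕ}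
    (hF : HomFib F e) (hed : e ≤ d) : DegFib (map (algebraMap k ℂ) F) d := by
  intro m hm
  have h0 : coeff m F ≠ 0 := by
    intro h
    rw [mem_support_iff, coeff_map, h, map_zero] at hm
    exact hm rfl
  have h1 := hF h0
  rw [Finsupp.weight_apply, Finsupp.sum_fintype _ _ (by simp)] at h1
  have h2 : ∑ j : Fin (n + 1), m (Sum.inr j) = e := by
    rw [← h1]
    simp [Fintype.sum_sum_type]
  omega

/-- **Arithmetic hyperbolicity of the members over `k` and entire curves in all complex members.** -/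
theorem arith_windows [IsAlgClosed k] [Algebra k ℂ] (F : ι → MvPolynomial (Fin q ⊕ Fin (n + 1)) k)
    {d : ℕ} (hF : ∀ i, ∃ e ≤ d, HomFib (F i) e) (E : ℕ → Set (MvPolynomial (Fin q) k))
    (H : ℕ → MvPolynomial (Fin q) k) : ∃ ε : ℕ → ℝ, (∀ D, 0 < ε D) ∧
    ∀ (κ : Type) (G : κ → MvPolynomial (Fin q ⊕ Fin (n + 1)) k), (∀ l, ∃ d, HomFib (G l) d) →
      (∀ t : Fin q → k, InT E H t → ArithFib F G t) →
      ∀ t : Fin q → ℂ, InT E H t → ∀ (f : ℂ → Fin (n + 1) → ℂ) (a : ℕ → Fin (n + 1) → ℂ),
        IsSeries f a → Windows d ε a →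
        InFib (fun i => map (algebraMap k ℂ) (F i)) t f → NonConstLine f →
          InFib (fun l => map (algebraMap k ℂ) (G l)) t f := by
  have hch : CharZero k := (algebraMap k ℂ).charZero
  set K : ℕ → Set (Fin q → ℂ) := fun m => {t | (∀ e ∈ E m.unpair.1, aeval t e = 0) ∧
    1 / ((m.unpair.2 : ℝ) + 1) ≤ ‖aeval t (H m.unpair.1)‖} with hK
  have hcont : ∀ e : MvPolynomial (Fin q) k, Continuous fun t : Fin q → ℂ => aeval t e := by
    intro e
    have : (fun t : Fin q → ℂ => aeval t e) = fun t => eval t (map (algebraMap k ℂ) e) := by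
      funext t
      rw [eval_map, aeval_def]
    rw [this]
    exact MvPolynomial.continuous_eval _
  have hKc : ∀ m, IsClosed (K m) := by
    intro m
    have : K m = (⋂ e ∈ E m.unpair.1, {t | aeval t e = 0}) ∩
        {t | 1 / ((m.unpair.2 : ℝ) + 1) ≤ ‖aeval t (H m.unpair.1)‖} := by
      ext t
      simp [hK]
    rw [this]
    exact (isClosed_biInter fun e _ => isClosed_eq (hcont e) continuous_const).inter
      (isClosed_le continuous_const (hcont _).norm)
  have hKT : ∀ t : Fin q → ℂ, t ∈ ⋃ m, K m ↔ InT E H t := by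
    intro t
    rw [mem_iUnion]
    constructor
    · rintro ⟨m, h1, h2⟩
      refine ⟨m.unpair.1, h1, fun h3 => ?_⟩
      rw [h3, norm_zero] at h2
      have : (0 : ℝ) < 1 / ((m.unpair.2 : ℝ) + 1) := by positivity
      linarith
    · rintro ⟨l, h1, h2⟩
      obtain ⟨m, hm⟩ := exists_nat_one_div_lt (norm_pos_iff.2 h2)
      refine ⟨Nat.pair l m, ?_, ?_⟩
      · simpa [Nat.unpair_pair] using h1
      · simpa [Nat.unpair_pair] using hm.le
  have hmap : ∀ (v : Fin q ⊕ Fin (n + 1) → ℂ) (f : MvPolynomial (Fin q ⊕ Fin (n + 1)) k),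
      eval v (map (algebraMap k ℂ) f) = aeval v f := fun v f => by
    rw [eval_map, aeval_def]
  have hF' : ∀ i, ∃ e, HomFib (F i) e := fun i => by
    obtain ⟨e, _, he⟩ := hF i
    exact ⟨e, he⟩
  obtain ⟨ε, hε, h⟩ := windows_iff (F := fun i => map (algebraMap k ℂ) (F i)) (d := d)
    (fun i => by
      obtain ⟨e, hed, he⟩ := hF i
      exact degFib_of_hom he hed) K hKc
  refine ⟨ε, hε, fun κ G hG har t ht f a hfa hw hfF hnc => ?_⟩
  refine (h κ fun l => map (algebraMap k ℂ) (G l)).1 ?_ t ((hKT t).2 ht) f a hfa hw hfF hnc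
  intro t ht P hP hnc z0 l
  obtain ⟨m, hE, hH⟩ := (hKT t).1 ht
  by_contra h0
  rw [hmap] at h0
  -- integer points
  obtain ⟨tc, htc⟩ : ∃ z : ℤ, aeval (Sum.elim t (pc P z)) (G l) ≠ 0 := by
    set S : Polynomial ℂ := aeval (Sum.elim (fun a => Polynomial.C (t a)) P) (G l) with hS
    have hSe : ∀ z : ℂ, S.eval z = aeval (Sum.elim t (pc P z)) (G l) := by
      intro z
      have h3 := comp_aeval (R := k) (Sum.elim (fun a => Polynomial.C (t a)) P)
        ((Polynomial.aeval z).restrictScalars k : Polynomial ℂ →ₐ[k] ℂ)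
      have h4 := congrArg (fun h => h (G l)) h3
      have h5 : (fun i => ((Polynomial.aeval z).restrictScalars k : Polynomial ℂ →ₐ[k] ℂ)
          (Sum.elim (fun a => Polynomial.C (t a)) P i)) = Sum.elim t (pc P z) := by
        funext i
        rcases i with i | i
        · simp
        · simp [pc, Polynomial.coe_aeval_eq_eval]
      rw [h5] at h4
      simpa [Polynomial.coe_aeval_eq_eval] using h4
    obtain ⟨z, hz⟩ := int_ne' (R := S) (z := z0) (by rw [hSe]; exact h0)
    exact ⟨z, by rw [← hSe]; exact hz⟩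
  obtain ⟨za, zb, i, j, hij⟩ := hnc
  obtain ⟨ta, hta⟩ : ∃ z : ℤ, pc P z i * pc P zb j - pc P z j * pc P zb i ≠ 0 := by
    obtain ⟨z, hz⟩ := int_ne' (R := P i * Polynomial.C (pc P zb j) - P j * Polynomial.C (pc P zb i))
      (z := za) (by simpa [pc] using sub_ne_zero.2 hij)
    exact ⟨z, by simpa [pc] using hz⟩
  obtain ⟨tb, htb⟩ : ∃ z : ℤ, pc P ta i * pc P z j - pc P ta j * pc P z i ≠ 0 := by
    obtain ⟨z, hz⟩ := int_ne' (R := Polynomial.C (pc P ta i) * P j - Polynomial.C (pc P ta j) * P i)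
      (z := zb) (by simpa [pc] using hta)
    exact ⟨z, by simpa [pc] using hz⟩
  obtain ⟨t', Q, hQE, hQH, hQF, hQG, hQij⟩ := specialize_curve hE hH (F := F) (P := P)
    (fun z i => by
      have h1 := hP (z : ℂ) i
      rwa [hmap] at h1) htc htb
  exact not_arith hF' hG hQF hQG hQij (har t' ⟨m, hQE, hQH⟩)

end Pool.Agent.R871.SG
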