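import Pool.Agent.R871.SG.Comp

/-!
Bubbles: holomorphic maps to a closed cone without zeros, with a limit which has a zero, give
nonconstant polynomial curves in the cone, of degree at most the multiplicity of the zero.
-/

set_option autoImplicit false

namespace Pool.Agent.R871.SG

open Filter Topology Metric Set

variable {E : Type} [NormedAddCommGroup E] [NormedSpace ℂ E]

/-- All polynomial curves of degree at most `d` in the cone `X` are constant as curves in the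
projective space: their coefficients are multiples of one vector. -/
def NoRat (X : Set E) (d : ℕ) : Prop :=
  ∀ b : ℕ → E, (∀ z : ℂ, ∑ i ∈ Finset.range (d + 1), z ^ i • b i ∈ X) →
    ∃ v : E, ∀ i ≤ d, ∃ a : ℂ, b i = a • v

/-- A holomorphic function near a polynomial with a zero at the origin has a zero near the origin. -/
theorem zero_near {q : Polynomial ℂ} (hq0 : q ≠ 0) (hq : q.eval 0 = 0) {ρ r : ℝ} (hρ : 0 < ρ)
    (hr : 0 < r) : ∃ ε > 0, ∀ h : ℂ → ℂ, DifferentiableOn ℂ h (ball 0 ρ) →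
      (∀ z ∈ ball (0 : ℂ) ρ, ‖h z - q.eval z‖ ≤ ε) → ∃ ζ : ℂ, ‖ζ‖ < r ∧ ζ ∈ ball (0 : ℂ) ρ ∧ h ζ = 0 := by
  -- a circle without zeros of `q`
  obtain ⟨s, hs0, hsr, hsρ, hs⟩ : ∃ s : ℝ, 0 < s ∧ s < r ∧ s < ρ ∧ ∀ z ∈ sphere (0 : ℂ) s, q.eval z ≠ 0 := by
    have hfin : {t : ℝ | ∃ z : ℂ, q.eval z = 0 ∧ ‖z‖ = t}.Finite := by
      have h1 : {z : ℂ | q.eval z = 0}.Finite := by
        classical
        refine (q.roots.toFinset.finite_toSet).subset fun z hz => ?_
        simpa [Polynomial.mem_roots hq0] using hz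
      refine (h1.image fun z => ‖z‖).subset ?_
      rintro t ⟨z, hz, rfl⟩
      exact ⟨z, hz, rfl⟩
    have h2 : (Ioo (0 : ℝ) (min r ρ)).Infinite := Ioo_infinite (lt_min hr hρ)
    obtain ⟨s, hs, hs2⟩ := (h2.sdiff hfin).nonempty
    refine ⟨s, hs.1, hs.2.trans_le (min_le_left _ _), hs.2.trans_le (min_le_right _ _), fun z hz h => hs2 ?_⟩
    exact ⟨z, h, by simpa using hz⟩
  obtain ⟨c, hc0, hc⟩ : ∃ c > 0, ∀ z ∈ sphere (0 : ℂ) s, c ≤ ‖q.eval z‖ := by
    obtain ⟨z1, hz1, hmin⟩ := (isCompact_sphere (0 : ℂ) s).exists_isMinOn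
      (NormedSpace.sphere_nonempty.2 hs0.le) (q.continuous.norm.continuousOn (s := sphere (0 : ℂ) s))
    exact ⟨‖q.eval z1‖, norm_pos_iff.2 (hs z1 hz1), fun z hz => hmin hz⟩
  refine ⟨c / 3, by positivity, fun h hh hhq => ?_⟩
  by_contra hcon
  push Not at hcon
  have hne : ∀ z ∈ closedBall (0 : ℂ) s, h z ≠ 0 := by
    intro z hz
    have hz' : ‖z‖ ≤ s := by simpa using hz
    exact hcon z (hz'.trans_lt hsr) (by simpa using hz'.trans_lt hsρ)
  have hsub : closedBall (0 : ℂ) s ⊆ ball 0 ρ := closedBall_subset_ball hsρ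
  have hd : DiffContOnCl ℂ (fun z => (h z)⁻¹) (ball (0 : ℂ) s) := by
    refine DifferentiableOn.diffContOnCl ?_
    rw [closure_ball _ hs0.ne']
    exact (hh.mono hsub).fun_inv hne
  have hb := Complex.norm_le_of_forall_mem_frontier_norm_le isBounded_ball hd (C := 3 / (2 * c))
    (fun z hz => by
      rw [frontier_ball _ hs0.ne'] at hz
      have h1 := hhq z (hsub (sphere_subset_closedBall hz))
      have h2 := hc z hz
      have h3 : 2 * c / 3 ≤ ‖h z‖ := by
        have := norm_sub_norm_le (q.eval z) (h z)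
        rw [norm_sub_rev] at this
        linarith
      rw [norm_inv]
      calc ‖h z‖⁻¹ ≤ (2 * c / 3)⁻¹ := by gcongr
        _ = 3 / (2 * c) := by rw [inv_div]) (z := 0) (subset_closure (mem_ball_self hs0))
  have h0 := hhq 0 (mem_ball_self hρ)
  rw [hq, sub_zero] at h0
  have h0' : 0 < ‖h 0‖ := norm_pos_iff.2 (hne 0 (mem_closedBall_self hs0.le))
  rw [norm_inv] at hb
  have h4 : (c / 3)⁻¹ ≤ ‖h 0‖⁻¹ := by gcongr
  have h5 : (c / 3)⁻¹ ≤ 3 / (2 * c) := h4.trans hb
  rw [inv_div, div_le_div_iff₀ hc0 (by positivity)] at h5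
  linarith

/-- The Taylor coefficients at the origin of a bounded function on a disc. -/
theorem tcoef_le [CompleteSpace E] {e : ℂ → E} {ρ ε : ℝ} (hρ : 0 < ρ)
    (he : DifferentiableOn ℂ e (ball 0 (2 * ρ))) (hb : ∀ z ∈ ball (0 : ℂ) (2 * ρ), ‖e z‖ ≤ ε) (j : ℕ) :
    ‖coef e 0 j‖ ≤ ε * (1 / ρ) ^ j := by
  have hsub : closedBall (0 : ℂ) ρ ⊆ ball 0 (2 * ρ) := closedBall_subset_ball (by linarith)
  have hd : DiffContOnCl ℂ e (ball (0 : ℂ) ρ) := by
    refine DifferentiableOn.diffContOnCl ?_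
    rw [closure_ball _ hρ.ne']
    exact he.mono hsub
  have h1 := Complex.norm_iteratedDeriv_le_of_forall_mem_sphere_norm_le j hρ hd
    (fun z hz => hb z (hsub (sphere_subset_closedBall hz)))
  have hm : (0 : ℝ) < j.factorial := by exact_mod_cast j.factorial_pos
  rw [coef, norm_smul, norm_inv, Complex.norm_natCast]
  calc ((j.factorial : ℝ))⁻¹ * ‖iteratedDeriv j e 0‖
      ≤ ((j.factorial : ℝ))⁻¹ * (j.factorial * ε / ρ ^ j) := by gcongr
    _ = ε * (1 / ρ) ^ j := by rw [one_div, inv_pow]; field_simp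

theorem tcoef_hasSum [CompleteSpace E] {e : ℂ → E} {ρ : ℝ}
    (he : DifferentiableOn ℂ e (ball 0 ρ)) {z : ℂ} (hz : z ∈ ball (0 : ℂ) ρ) :
    HasSum (fun j => z ^ j • coef e 0 j) (e z) := by
  have h := Complex.hasSum_taylorSeries_on_ball he hz
  have e1 : (fun m => z ^ m • coef e 0 m) = fun m : ℕ =>
      ((m.factorial : ℂ))⁻¹ • (z - 0) ^ m • iteratedDeriv m e 0 := by
    funext m
    rw [coef, sub_zero, smul_comm (z ^ m) ((m.factorial : ℂ))⁻¹]
  rw [e1]
  exact h

end Pool.Agent.R871.SG
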