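import Pool.Agent.R871.SG.BubA

/-!
Bubbles: the main lemma.
-/

set_option autoImplicit false

namespace Pool.Agent.R871.SG

open Filter Topology Metric Set

variable {E : Type} [NormedAddCommGroup E] [NormedSpace ℂ E]

omit [NormedSpace ℂ E] in
/-- The rescaling factor. -/
theorem exists_scale (μ : ℕ) (hμ : 1 ≤ μ) (c : ℕ → E) (h0 : c 0 ≠ 0) :
    ∃ δ : ℝ, 0 < δ ∧ (∀ j < μ, ‖c j‖ ≤ δ ^ (μ - j)) ∧ (∃ j < μ, ‖c j‖ = δ ^ (μ - j)) ∧
      δ ≤ ∑ j ∈ Finset.range μ, ‖c j‖ ^ ((1 : ℝ) / ((μ - j : ℕ) : ℝ)) := by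
  obtain ⟨j0, hj0, hmax⟩ := Finset.exists_max_image (Finset.range μ)
    (fun j => ‖c j‖ ^ ((1 : ℝ) / ((μ - j : ℕ) : ℝ))) ⟨0, Finset.mem_range.2 (by omega)⟩
  have hpow : ∀ j < μ, (‖c j‖ ^ ((1 : ℝ) / ((μ - j : ℕ) : ℝ))) ^ (μ - j) = ‖c j‖ := by
    intro j hj
    rw [one_div, Real.rpow_inv_natCast_pow (norm_nonneg _) (by omega)]
  have hnn : ∀ j, 0 ≤ ‖c j‖ ^ ((1 : ℝ) / ((μ - j : ℕ) : ℝ)) := fun j =>
    Real.rpow_nonneg (norm_nonneg _) _
  refine ⟨‖c j0‖ ^ ((1 : ℝ) / ((μ - j0 : ℕ) : ℝ)), ?_, fun j hj => ?_,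
    ⟨j0, Finset.mem_range.1 hj0, (hpow j0 (Finset.mem_range.1 hj0)).symm⟩, ?_⟩
  · have h1 : 0 < ‖c 0‖ ^ ((1 : ℝ) / ((μ - 0 : ℕ) : ℝ)) := Real.rpow_pos_of_pos (norm_pos_iff.2 h0) _
    exact h1.trans_le (hmax 0 (Finset.mem_range.2 (by omega)))
  · rw [← hpow j hj]
    exact pow_le_pow_left₀ (hnn j) (hmax j (Finset.mem_range.2 hj)) _
  · exact Finset.single_le_sum (f := fun j => ‖c j‖ ^ ((1 : ℝ) / ((μ - j : ℕ) : ℝ)))
      (fun j _ => hnn j) hj0

omit [NormedSpace ℂ E] in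
theorem compact_unit [ProperSpace E] (μ : ℕ) :
    IsCompact {β : Fin μ → E | (∀ j, ‖β j‖ ≤ 1) ∧ ∃ j, ‖β j‖ = 1} := by
  refine Metric.isCompact_of_isClosed_isBounded ?_ ?_
  · have : {β : Fin μ → E | (∀ j, ‖β j‖ ≤ 1) ∧ ∃ j, ‖β j‖ = 1} =
        (⋂ j, {β : Fin μ → E | ‖β j‖ ≤ 1}) ∩ ⋃ j, {β : Fin μ → E | ‖β j‖ = 1} := by
      ext β
      simp
    rw [this]
    refine IsClosed.inter (isClosed_iInter fun j => ?_) (isClosed_iUnion_of_finite fun j => ?_)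
    · exact isClosed_le (continuous_apply j).norm continuous_const
    · exact isClosed_eq (continuous_apply j).norm continuous_const
  · refine (isBounded_closedBall (x := (0 : Fin μ → E)) (r := 1)).subset fun β hβ => ?_
    rw [mem_closedBall_zero_iff, pi_norm_le_iff_of_nonneg zero_le_one]
    exact hβ.1

/-- The power series after rescaling. -/
theorem rescale_est [CompleteSpace E] {μ : ℕ} {c : ℕ → E} {C R1 δ R : ℝ} (hR1 : 0 < R1)
    (hδ : 0 < δ) (hR : 0 ≤ R) (hC : ∀ j, ‖c j‖ ≤ C * (1 / R1) ^ j) (hsmall : R * δ / R1 ≤ 1 / 2)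
    {w : ℂ} (hw : ‖w‖ ≤ R) {y : E} (hy : HasSum (fun j => ((δ : ℂ) * w) ^ j • c j) y) :
    ‖((δ : ℂ) ^ μ)⁻¹ • y - (∑ j ∈ Finset.range μ, w ^ j • (((δ : ℂ) ^ (μ - j))⁻¹ • c j) +
      w ^ μ • c μ)‖ ≤ 2 * (C * (R / R1) ^ (μ + 1) * δ) := by
  have hδ0 : (δ : ℂ) ≠ 0 := by exact_mod_cast hδ.ne'
  have hC0 : 0 ≤ C := by
    have := (norm_nonneg _).trans (hC 0)
    simpa using this
  set F : ℕ → E := fun j => w ^ j • ((((δ : ℂ) ^ μ)⁻¹ * (δ : ℂ) ^ j) • c j) with hF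
  have h1 : HasSum F (((δ : ℂ) ^ μ)⁻¹ • y) := by
    have h := hy.const_smul (((δ : ℂ) ^ μ)⁻¹)
    have e : F = fun j => ((δ : ℂ) ^ μ)⁻¹ • (((δ : ℂ) * w) ^ j • c j) := by
      funext j
      rw [hF]
      simp only
      rw [smul_smul, smul_smul, mul_pow]
      congr 1
      ring
    rw [e]; exact h
  have h2 : ∑ j ∈ Finset.range (μ + 1), F j =
      ∑ j ∈ Finset.range μ, w ^ j • (((δ : ℂ) ^ (μ - j))⁻¹ • c j) + w ^ μ • c μ := by
    rw [Finset.sum_range_succ]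
    congr 1
    · refine Finset.sum_congr rfl fun j hj => ?_
      have hj' : j < μ := Finset.mem_range.1 hj
      have e2 : (δ : ℂ) ^ μ = (δ : ℂ) ^ (μ - j) * (δ : ℂ) ^ j := by
        rw [← pow_add]; congr 1; omega
      rw [hF]
      simp only
      rw [e2, mul_inv, mul_assoc, inv_mul_cancel₀ (pow_ne_zero _ hδ0), mul_one]
    · rw [hF]
      simp only
      rw [inv_mul_cancel₀ (pow_ne_zero _ hδ0), one_smul]
  have h3 := h1.summable.sum_add_tsum_nat_add (μ + 1)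
  rw [h1.tsum_eq, h2] at h3
  rw [← h3, add_sub_cancel_left]
  set A : ℝ := C * (R / R1) ^ (μ + 1) * δ with hA
  have hA0 : 0 ≤ A := by positivity
  have hg : HasSum (fun m : ℕ => (1 / 2 : ℝ) ^ m * A) (2 * A) := by
    have := hasSum_geometric_two.mul_right A
    simpa using this
  refine tsum_of_norm_bounded hg fun m => ?_
  rw [hF]
  simp only
  rw [norm_smul, norm_smul, norm_mul, norm_inv, norm_pow, norm_pow, norm_pow, Complex.norm_real,
    Real.norm_of_nonneg hδ.le]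
  have e3 : (δ ^ μ)⁻¹ * δ ^ (m + (μ + 1)) = δ ^ (m + 1) := by
    have : δ ^ (m + (μ + 1)) = δ ^ μ * δ ^ (m + 1) := by rw [← pow_add]; congr 1; omega
    rw [this, ← mul_assoc, inv_mul_cancel₀ (pow_ne_zero _ hδ.ne'), one_mul]
  rw [e3]
  calc ‖w‖ ^ (m + (μ + 1)) * (δ ^ (m + 1) * ‖c (m + (μ + 1))‖)
      ≤ R ^ (m + (μ + 1)) * (δ ^ (m + 1) * (C * (1 / R1) ^ (m + (μ + 1)))) := by
        gcongr
        exact hC _
    _ = (R * δ / R1) ^ m * A := by
        rw [hA]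
        simp only [div_pow, one_pow, mul_pow, pow_add, pow_one]
        field_simp
    _ ≤ (1 / 2) ^ m * A := by
        gcongr

theorem taylor_hasSum (q : Polynomial ℂ) (ζ w : ℂ) (v : E) :
    HasSum (fun j => w ^ j • ((Polynomial.taylor ζ q).coeff j • v)) (q.eval (ζ + w) • v) := by
  have h1 : (Polynomial.taylor ζ q).eval w = q.eval (ζ + w) := by
    rw [Polynomial.taylor_eval, add_comm]
  rw [← h1, Polynomial.eval_eq_sum_range, Finset.sum_smul]
  have h2 : ∀ j, w ^ j • ((Polynomial.taylor ζ q).coeff j • v) =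
      ((Polynomial.taylor ζ q).coeff j * w ^ j) • v := fun j => by
    rw [smul_smul, mul_comm]
  simp only [h2]
  refine hasSum_sum_of_ne_finset_zero fun j hj => ?_
  rw [Finset.mem_range, not_lt] at hj
  rw [Polynomial.coeff_eq_zero_of_natDegree_lt (by omega), zero_mul, zero_smul]

theorem taylor_tendsto (q : Polynomial ℂ) (j : ℕ) {ζ : ℕ → ℂ} (hζ : Tendsto ζ atTop (𝓝 0)) :
    Tendsto (fun i => (Polynomial.taylor (ζ i) q).coeff j) atTop (𝓝 (q.coeff j)) := by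
  have h1 : ∀ i, (Polynomial.taylor (ζ i) q).coeff j = (Polynomial.hasseDeriv j q).eval (ζ i) :=
    fun i => Polynomial.taylor_coeff _ _ _
  have h2 : q.coeff j = (Polynomial.hasseDeriv j q).eval 0 := by
    rw [← Polynomial.taylor_coeff, Polynomial.taylor_zero]
  simp only [h1]
  rw [h2]
  exact ((Polynomial.hasseDeriv j q).continuous.tendsto 0).comp hζ

/-- The recentred functions near the zero. -/
theorem recentre [CompleteSpace E] {X : Set E} (μ : ℕ) (hμ : 1 ≤ μ) (v : E) (q : Polynomial ℂ)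
    (ρ : ℝ) (g : E →L[ℂ] ℂ) (hg1 : ‖g‖ = 1) (hgv : g v ≠ 0) (hρ : 0 < ρ)
    (hqj : ∀ j < μ, q.coeff j = 0) (hqμ : q.coeff μ ≠ 0)
    (h : ∀ ε > 0, ∃ f : ℂ → E, DifferentiableOn ℂ f (ball 0 ρ) ∧
      (∀ z ∈ ball (0 : ℂ) ρ, f z ≠ 0 ∧ f z ∈ X) ∧ ∀ z ∈ ball (0 : ℂ) ρ, ‖f z - q.eval z • v‖ ≤ ε) :
    ∃ (F : ℕ → ℂ → E) (c : ℕ → ℕ → E) (C : ℝ), (∀ i, DifferentiableOn ℂ (F i) (ball 0 (ρ / 2))) ∧
      (∀ i, ∀ w ∈ ball (0 : ℂ) (ρ / 2), F i w ≠ 0 ∧ F i w ∈ X ∧ HasSum (fun j => w ^ j • c i j) (F i w)) ∧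
      (∀ i, c i 0 ≠ 0 ∧ g (c i 0) = 0) ∧ (∀ j, Tendsto (fun i => c i j) atTop (𝓝 (q.coeff j • v))) ∧
      ∀ i j, ‖c i j‖ ≤ C * (1 / (ρ / 4)) ^ j := by
  have hq0 : q ≠ 0 := by rintro rfl; simp at hqμ
  have h1 : ∀ i : ℕ, ∃ (f : ℂ → E) (ζ : ℂ), DifferentiableOn ℂ f (ball 0 ρ) ∧
      (∀ z ∈ ball (0 : ℂ) ρ, f z ≠ 0 ∧ f z ∈ X) ∧
      (∀ z ∈ ball (0 : ℂ) ρ, ‖f z - q.eval z • v‖ ≤ 1 / ((i : ℝ) + 1)) ∧
      ‖ζ‖ < min (1 / ((i : ℝ) + 1)) (ρ / 2) ∧ g (f ζ) = 0 := by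
    intro i
    obtain ⟨ε, hε, hz⟩ := zero_near (q := Polynomial.C (g v) * q)
      (mul_ne_zero (Polynomial.C_ne_zero.2 hgv) hq0)
      (by rw [Polynomial.eval_mul, ← Polynomial.coeff_zero_eq_eval_zero q, hqj 0 hμ, mul_zero]) hρ
      (r := min (1 / ((i : ℝ) + 1)) (ρ / 2)) (lt_min (by positivity) (by positivity))
    obtain ⟨f, hf1, hf2, hf3⟩ := h (min ε (1 / ((i : ℝ) + 1))) (lt_min hε (by positivity))
    obtain ⟨ζ, hζ1, hζ2, hζ3⟩ := hz (fun z => g (f z))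
      (g.differentiable.comp_differentiableOn hf1) (fun z hz => by
        have e1 : g (f z) - (Polynomial.C (g v) * q).eval z = g (f z - q.eval z • v) := by
          rw [map_sub, map_smul, Polynomial.eval_mul, Polynomial.eval_C, smul_eq_mul, mul_comm (g v)]
        rw [e1]
        refine (g.le_opNorm _).trans ?_
        rw [hg1, one_mul]
        exact (hf3 z hz).trans (min_le_left _ _))
    exact ⟨f, ζ, hf1, hf2, fun z hz => (hf3 z hz).trans (min_le_right _ _), hζ1, hζ3⟩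
  choose f ζ hfd hfX hfq hζ1 hζ0 using h1
  have hζρ : ∀ i, ‖ζ i‖ < ρ / 2 := fun i => (hζ1 i).trans_le (min_le_right _ _)
  have hζi : ∀ i, ‖ζ i‖ ≤ 1 / ((i : ℝ) + 1) := fun i => ((hζ1 i).trans_le (min_le_left _ _)).le
  have hζt : Tendsto ζ atTop (𝓝 0) :=
    squeeze_zero_norm hζi tendsto_one_div_add_atTop_nhds_zero_nat
  have hmem : ∀ i, ∀ w ∈ ball (0 : ℂ) (ρ / 2), ζ i + w ∈ ball (0 : ℂ) ρ := by
    intro i w hw
    rw [mem_ball_zero_iff] at hw ⊢
    have := norm_add_le (ζ i) w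
    have := hζρ i
    linarith
  have hFd : ∀ i, DifferentiableOn ℂ (fun w => f i (ζ i + w)) (ball 0 (ρ / 2)) := fun i =>
    (hfd i).comp ((differentiable_const _).add differentiable_id).differentiableOn (hmem i)
  set e : ℕ → ℂ → E := fun i w => f i (ζ i + w) - q.eval (ζ i + w) • v with he
  have hed : ∀ i, DifferentiableOn ℂ (e i) (ball 0 (ρ / 2)) := by
    intro i
    refine (hFd i).fun_sub (Differentiable.differentiableOn ?_)
    exact (q.differentiable.comp ((differentiable_const _).add differentiable_id)).smul_const v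
  have heb : ∀ i, ∀ w ∈ ball (0 : ℂ) (ρ / 2), ‖e i w‖ ≤ 1 / ((i : ℝ) + 1) := fun i w hw =>
    hfq i _ (hmem i w hw)
  have hρ4 : 2 * (ρ / 4) = ρ / 2 := by ring
  have ht : ∀ i j, ‖coef (e i) 0 j‖ ≤ 1 / ((i : ℝ) + 1) * (1 / (ρ / 4)) ^ j := fun i j =>
    tcoef_le (by positivity) (by rw [hρ4]; exact hed i) (by rw [hρ4]; exact heb i) j
  have htt : ∀ j, Tendsto (fun i => coef (e i) 0 j) atTop (𝓝 0) := by
    intro j
    refine squeeze_zero_norm (fun i => ht i j) ?_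
    have := tendsto_one_div_add_atTop_nhds_zero_nat.mul_const ((1 / (ρ / 4)) ^ j)
    simpa using this
  have hct : ∀ j, Tendsto (fun i => (Polynomial.taylor (ζ i) q).coeff j • v + coef (e i) 0 j) atTop
      (𝓝 (q.coeff j • v)) := by
    intro j
    have := ((taylor_tendsto q j hζt).smul_const v).add (htt j)
    simpa using this
  -- a bound for the coefficients
  have hbd : ∀ j, ∃ B : ℝ, ∀ i, ‖(Polynomial.taylor (ζ i) q).coeff j • v + coef (e i) 0 j‖ ≤ B := by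
    intro j
    obtain ⟨B, hB⟩ := (hct j).norm.bddAbove_range
    exact ⟨B, fun i => hB (mem_range_self i)⟩
  choose B hB using hbd
  have hB0 : ∀ j, 0 ≤ B j := fun j => (norm_nonneg _).trans (hB j 0)
  have hsum : ∀ i, ∀ w ∈ ball (0 : ℂ) (ρ / 2), HasSum (fun j => w ^ j •
      ((Polynomial.taylor (ζ i) q).coeff j • v + coef (e i) 0 j)) (f i (ζ i + w)) := by
    intro i w hw
    have := (taylor_hasSum q (ζ i) w v).add (tcoef_hasSum (hed i) hw)
    simp only [smul_add]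
    rw [he] at this
    simpa using this
  refine ⟨fun i w => f i (ζ i + w), fun i j => (Polynomial.taylor (ζ i) q).coeff j • v + coef (e i) 0 j,
    1 + ∑ j ∈ Finset.range (q.natDegree + 1), B j * (ρ / 4) ^ j, hFd, fun i w hw =>
      ⟨(hfX i _ (hmem i w hw)).1, (hfX i _ (hmem i w hw)).2, hsum i w hw⟩, fun i => ?_, hct,
      fun i j => ?_⟩
  · have h0 : (0 : ℂ) ∈ ball (0 : ℂ) (ρ / 2) := mem_ball_self (by positivity)
    have e2 := (hsum i 0 h0).tsum_eq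
    rw [tsum_eq_single 0 (fun j hj => by rw [zero_pow hj, zero_smul]), pow_zero, one_smul,
      add_zero] at e2
    beta_reduce
    rw [e2]
    have h3 := (hfX i _ (hmem i 0 h0)).1
    rw [add_zero] at h3
    exact ⟨h3, hζ0 i⟩
  · have hC0 : 0 ≤ ∑ j ∈ Finset.range (q.natDegree + 1), B j * (ρ / 4) ^ j :=
      Finset.sum_nonneg fun j _ => mul_nonneg (hB0 j) (by positivity)
    by_cases hj : j < q.natDegree + 1
    · have h4 := Finset.single_le_sum (f := fun j => B j * (ρ / 4) ^ j)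
        (fun j _ => mul_nonneg (hB0 j) (by positivity)) (Finset.mem_range.2 hj)
      calc _ ≤ B j := hB j i
        _ = (B j * (ρ / 4) ^ j) * (1 / (ρ / 4)) ^ j := by
          rw [mul_assoc, ← mul_pow, mul_one_div_cancel (by positivity), one_pow, mul_one]
        _ ≤ _ := by gcongr; linarith
    · have h5 : (Polynomial.taylor (ζ i) q).coeff j = 0 := by
        refine Polynomial.coeff_eq_zero_of_natDegree_lt ?_
        rw [Polynomial.natDegree_taylor]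
        omega
      simp only [h5, zero_smul, zero_add]
      refine (ht i j).trans ?_
      gcongr
      have : 1 / ((i : ℝ) + 1) ≤ 1 := by
        rw [div_le_one (by positivity)]
        linarith [(Nat.cast_nonneg i : (0 : ℝ) ≤ i)]
      linarith

end Pool.Agent.R871.SG
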