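import Pool.Agent.R871.SG.BubB

/-!
Bubbles: a closed cone without nonconstant polynomial curves of degree at most `d` contains no
sequence of holomorphic discs without zeros whose limit has a zero of multiplicity at most `d`.
-/

set_option autoImplicit false

namespace Pool.Agent.R871.SG

open Filter Topology Metric Set

variable {E : Type} [NormedAddCommGroup E] [NormedSpace ℂ E]

theorem bubble [ProperSpace E] [CompleteSpace E] {X : Set E} (hX : IsClosed X)
    (hs : ∀ (a : ℂ), ∀ x ∈ X, a • x ∈ X) {d : ℕ} (hR : NoRat X d) :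
    ∀ μ : ℕ, 1 ≤ μ → μ ≤ d → ∀ (v : E) (q : Polynomial ℂ) (ρ : ℝ), v ≠ 0 → 0 < ρ →
      (∀ j < μ, q.coeff j = 0) → q.coeff μ ≠ 0 →
      ¬ ∀ ε > 0, ∃ f : ℂ → E, DifferentiableOn ℂ f (ball 0 ρ) ∧
        (∀ z ∈ ball (0 : ℂ) ρ, f z ≠ 0 ∧ f z ∈ X) ∧
        ∀ z ∈ ball (0 : ℂ) ρ, ‖f z - q.eval z • v‖ ≤ ε := by
  intro μ
  induction μ using Nat.strong_induction_on with
  | _ μ ih =>
  intro hμ hμd v q ρ hv hρ hqj hqμ h
  obtain ⟨g, hg1, hg2⟩ := exists_dual_vector ℂ v (norm_ne_zero_iff.2 hv)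
  have hgv : g v ≠ 0 := by
    rw [hg2]
    simpa using hv
  obtain ⟨F, c, C, hFd, hF, hc0, hct, hcC⟩ := recentre (X := X) μ hμ v q ρ g hg1 hgv hρ hqj hqμ h
  choose δ hδ0 hδ1 hδ2 hδ3 using fun i => exists_scale μ hμ (c i) (hc0 i).1
  -- the rescaling factors tend to zero
  have hδt : Tendsto δ atTop (𝓝 0) := by
    refine squeeze_zero (fun i => (hδ0 i).le) hδ3 ?_
    have h1 : ∀ j ∈ Finset.range μ, Tendsto (fun i => ‖c i j‖ ^ ((1 : ℝ) / ((μ - j : ℕ) : ℝ))) atTop
        (𝓝 0) := by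
      intro j hj
      have hj' := Finset.mem_range.1 hj
      have h2 : Tendsto (fun i => ‖c i j‖) atTop (𝓝 0) := by
        have := (hct j).norm
        rwa [hqj j hj', zero_smul, norm_zero] at this
      have hp : 0 < (1 : ℝ) / ((μ - j : ℕ) : ℝ) := by
        have : 0 < μ - j := by omega
        positivity
      have := h2.rpow_const (p := (1 : ℝ) / ((μ - j : ℕ) : ℝ)) (Or.inr hp.le)
      rwa [Real.zero_rpow hp.ne'] at this
    simpa using tendsto_finsetSum _ h1
  -- the rescaled coefficients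
  have hδC : ∀ i, (δ i : ℂ) ≠ 0 := fun i => by exact_mod_cast (hδ0 i).ne'
  set β : ℕ → Fin μ → E := fun i j => ((δ i : ℂ) ^ (μ - (j : ℕ)))⁻¹ • c i j with hβ
  have hβn : ∀ i j, ‖β i j‖ = ‖c i j‖ / (δ i) ^ (μ - (j : ℕ)) := by
    intro i j
    rw [hβ]
    simp only
    rw [norm_smul, norm_inv, norm_pow, Complex.norm_real, Real.norm_of_nonneg (hδ0 i).le,
      inv_mul_eq_div]
  have hβK : ∀ i, β i ∈ {β : Fin μ → E | (∀ j, ‖β j‖ ≤ 1) ∧ ∃ j, ‖β j‖ = 1} := by
    intro i
    refine ⟨fun j => ?_, ?_⟩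
    · rw [hβn, div_le_one (pow_pos (hδ0 i) _)]
      exact hδ1 i j j.2
    · obtain ⟨j, hj, hj2⟩ := hδ2 i
      refine ⟨⟨j, hj⟩, ?_⟩
      rw [hβn]
      simp only
      rw [hj2, div_self (pow_pos (hδ0 i) _).ne']
  obtain ⟨b0, hb0, φ, hφ, hφl⟩ := (compact_unit (E := E) μ).tendsto_subseq hβK
  have hφa := hφ.tendsto_atTop
  have hb0j : ∀ j, Tendsto (fun i => β (φ i) j) atTop (𝓝 (b0 j)) := fun j => tendsto_pi_nhds.1 hφl j
  set b : ℕ → E := fun j => if hj : j < μ then b0 ⟨j, hj⟩ else if j = μ then q.coeff μ • v else 0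
    with hb
  have hbμ : b μ = q.coeff μ • v := by simp [hb]
  have hbj : ∀ j (hj : j < μ), b j = b0 ⟨j, hj⟩ := fun j hj => by simp [hb, hj]
  have hbl : ∀ j, μ < j → b j = 0 := fun j hj => by
    have h1 : ¬ j < μ := by omega
    have h2 : j ≠ μ := by omega
    simp [hb, h1, h2]
  -- the rescaled functions
  set H : ℕ → ℂ → E := fun i w => ((δ i : ℂ) ^ μ)⁻¹ • F i ((δ i : ℂ) * w) with hH
  have hest : ∀ R : ℝ, 0 < R → ∀ ε > 0, ∀ᶠ i in atTop, ∀ w : ℂ, ‖w‖ ≤ R →
      (δ (φ i) : ℂ) * w ∈ ball (0 : ℂ) (ρ / 2) ∧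
      ‖H (φ i) w - ∑ j ∈ Finset.range (μ + 1), w ^ j • b j‖ ≤ ε := by
    intro R hR0 ε hε
    have hδφ : Tendsto (fun i => δ (φ i)) atTop (𝓝 0) := hδt.comp hφa
    have e1 : ∀ᶠ i in atTop, R * δ (φ i) / (ρ / 4) < 1 / 2 := by
      have := (hδφ.const_mul R).div_const (ρ / 4)
      rw [mul_zero, zero_div] at this
      exact this.eventually_lt_const (by norm_num)
    have e2 : ∀ᶠ i in atTop, 2 * (C * (R / (ρ / 4)) ^ (μ + 1) * δ (φ i)) < ε / 2 := by
      have := (hδφ.const_mul (C * (R / (ρ / 4)) ^ (μ + 1))).const_mul 2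
      rw [mul_zero, mul_zero] at this
      exact this.eventually_lt_const (half_pos hε)
    have e3 : ∀ᶠ i in atTop, ∑ j : Fin μ, R ^ (j : ℕ) * ‖β (φ i) j - b0 j‖ +
        R ^ μ * ‖c (φ i) μ - q.coeff μ • v‖ < ε / 2 := by
      have h1 : Tendsto (fun i => ∑ j : Fin μ, R ^ (j : ℕ) * ‖β (φ i) j - b0 j‖ +
          R ^ μ * ‖c (φ i) μ - q.coeff μ • v‖) atTop (𝓝 0) := by
        have h2 : ∀ j : Fin μ, Tendsto (fun i => R ^ (j : ℕ) * ‖β (φ i) j - b0 j‖) atTop (𝓝 0) := by
          intro j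
          have := ((hb0j j).sub_const (b0 j)).norm.const_mul (R ^ (j : ℕ))
          rwa [sub_self, norm_zero, mul_zero] at this
        have h3 : Tendsto (fun i => R ^ μ * ‖c (φ i) μ - q.coeff μ • v‖) atTop (𝓝 0) := by
          have := (((hct μ).comp hφa).sub_const (q.coeff μ • v)).norm.const_mul (R ^ μ)
          rwa [sub_self, norm_zero, mul_zero] at this
        have := (tendsto_finsetSum Finset.univ fun j _ => h2 j).add h3
        simpa using this
      exact h1.eventually_lt_const (half_pos hε)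
    filter_upwards [e1, e2, e3] with i h1 h2 h3 w hw
    have hδi := hδ0 (φ i)
    have hmem : (δ (φ i) : ℂ) * w ∈ ball (0 : ℂ) (ρ / 2) := by
      rw [mem_ball_zero_iff, norm_mul, Complex.norm_real, Real.norm_of_nonneg hδi.le]
      rw [div_lt_iff₀ (by positivity)] at h1
      have : δ (φ i) * ‖w‖ ≤ R * δ (φ i) := by
        rw [mul_comm]; gcongr
      linarith
    refine ⟨hmem, ?_⟩
    have h4 := rescale_est (μ := μ) (c := c (φ i)) (C := C) (by positivity : (0 : ℝ) < ρ / 4) hδi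
      hR0.le (hcC (φ i)) h1.le hw (hF (φ i) _ hmem).2.2
    have h5 : ∑ j ∈ Finset.range (μ + 1), w ^ j • b j =
        ∑ j ∈ Finset.range μ, w ^ j • b j + w ^ μ • b μ := Finset.sum_range_succ _ _
    have h6 : ‖(∑ j ∈ Finset.range μ, w ^ j • (((δ (φ i) : ℂ) ^ (μ - j))⁻¹ • c (φ i) j) +
        w ^ μ • c (φ i) μ) - ∑ j ∈ Finset.range (μ + 1), w ^ j • b j‖ ≤ ε / 2 := by
      rw [h5, add_sub_add_comm, ← Finset.sum_sub_distrib, ← smul_sub, hbμ]
      refine (norm_add_le _ _).trans (le_trans (add_le_add ?_ ?_) h3.le)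
      · refine (norm_sum_le _ _).trans ?_
        rw [Finset.sum_range]
        refine Finset.sum_le_sum fun j _ => ?_
        rw [hbj j j.2, ← smul_sub, norm_smul, norm_pow]
        exact mul_le_mul_of_nonneg_right (pow_le_pow_left₀ (norm_nonneg _) hw _) (norm_nonneg _)
      · rw [norm_smul, norm_pow]
        exact mul_le_mul_of_nonneg_right (pow_le_pow_left₀ (norm_nonneg _) hw _) (norm_nonneg _)
    have h7 := norm_sub_le_norm_sub_add_norm_sub (H (φ i) w)
      (∑ j ∈ Finset.range μ, w ^ j • (((δ (φ i) : ℂ) ^ (μ - j))⁻¹ • c (φ i) j) + w ^ μ • c (φ i) μ)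
      (∑ j ∈ Finset.range (μ + 1), w ^ j • b j)
    refine h7.trans ?_
    have h8 : ‖H (φ i) w - (∑ j ∈ Finset.range μ, w ^ j • (((δ (φ i) : ℂ) ^ (μ - j))⁻¹ • c (φ i) j) +
        w ^ μ • c (φ i) μ)‖ ≤ ε / 2 := h4.trans h2.le
    linarith
  -- the limit lies in the cone
  have hQX : ∀ w : ℂ, ∑ j ∈ Finset.range (μ + 1), w ^ j • b j ∈ X := by
    intro w
    have ht : Tendsto (fun i => H (φ i) w) atTop (𝓝 (∑ j ∈ Finset.range (μ + 1), w ^ j • b j)) := by
      rw [Metric.tendsto_atTop]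
      intro ε hε
      obtain ⟨N, hN⟩ := eventually_atTop.1 (hest (‖w‖ + 1) (by positivity) (ε / 2) (half_pos hε))
      refine ⟨N, fun i hi => ?_⟩
      rw [dist_eq_norm]
      exact ((hN i hi w (by linarith)).2).trans_lt (half_lt_self hε)
    refine hX.mem_of_tendsto ht ?_
    filter_upwards [hest (‖w‖ + 1) (by positivity) 1 one_pos] with i hi
    exact hs _ _ (hF (φ i) _ (hi w (by linarith)).1).2.1
  obtain ⟨v', hv'⟩ := hR b fun z => by
    have : ∑ i ∈ Finset.range (d + 1), z ^ i • b i = ∑ j ∈ Finset.range (μ + 1), z ^ j • b j := by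
      refine (Finset.sum_subset (Finset.range_subset_range.2 (by omega)) fun j _ hj => ?_).symm
      rw [Finset.mem_range, not_lt] at hj
      rw [hbl j (by omega), smul_zero]
    rw [this]
    exact hQX z
  choose! a ha using hv'
  have hbμ0 : b μ ≠ 0 := by rw [hbμ]; exact smul_ne_zero hqμ hv
  have haμ : a μ ≠ 0 := by
    intro h0
    apply hbμ0
    rw [ha μ hμd, h0, zero_smul]
  have hv'0 : v' ≠ 0 := by
    rintro rfl
    apply hbμ0
    rw [ha μ hμd, smul_zero]
  have hgv' : g v' ≠ 0 := by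
    intro h0
    have h1 := ha μ hμd
    rw [hbμ] at h1
    have h2 := congrArg g h1
    rw [map_smul, map_smul, h0, smul_zero, smul_eq_mul, mul_eq_zero] at h2
    exact h2.elim hqμ hgv
  have ha0 : a 0 = 0 := by
    have h1 : g (b 0) = 0 := by
      rw [hbj 0 (by omega)]
      have h2 := (g.continuous.tendsto _).comp (hb0j ⟨0, by omega⟩)
      refine tendsto_nhds_unique h2 ?_
      have h3 : ∀ i, (g ∘ fun i => β (φ i) ⟨0, by omega⟩) i = 0 := by
        intro i
        simp only [Function.comp, hβ]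
        rw [map_smul, (hc0 (φ i)).2, smul_zero]
      rw [show (g ∘ fun i => β (φ i) ⟨0, by omega⟩) = fun _ => 0 from funext h3]
      exact tendsto_const_nhds
    rw [ha 0 (by omega), map_smul, smul_eq_mul, mul_eq_zero] at h1
    exact h1.resolve_right hgv'
  -- the new polynomial
  set q' : Polynomial ℂ := ∑ j ∈ Finset.range (μ + 1), Polynomial.C (a j) * Polynomial.X ^ j with hq'
  have hq'c : ∀ j ≤ μ, q'.coeff j = a j := by
    intro j hj
    rw [hq', Polynomial.finsetSum_coeff]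
    simp only [Polynomial.coeff_C_mul, Polynomial.coeff_X_pow, mul_ite, mul_one, mul_zero]
    rw [Finset.sum_ite_eq]
    simp [Nat.lt_succ_iff.2 hj]
  have hq'e : ∀ w, q'.eval w • v' = ∑ j ∈ Finset.range (μ + 1), w ^ j • b j := by
    intro w
    rw [hq', Polynomial.eval_finsetSum, Finset.sum_smul]
    refine Finset.sum_congr rfl fun j hj => ?_
    have hj' : j ≤ d := by
      have := Finset.mem_range.1 hj
      omega
    rw [ha j hj', smul_smul, Polynomial.eval_mul, Polynomial.eval_C, Polynomial.eval_pow,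
      Polynomial.eval_X, mul_comm]
  obtain ⟨j1, hj1⟩ := hb0.2
  have haj1 : q'.coeff j1 ≠ 0 := by
    rw [hq'c j1 j1.2.le]
    intro h0
    have h1 := ha j1 (by have := j1.2; omega)
    rw [h0, zero_smul, hbj j1 j1.2] at h1
    have h2 : b0 j1 = 0 := h1
    rw [h2, norm_zero] at hj1
    exact zero_ne_one hj1
  classical
  have hex : ∃ j, q'.coeff j ≠ 0 := ⟨j1, haj1⟩
  have hlt : Nat.find hex < μ := (Nat.find_min' hex haj1).trans_lt j1.2
  have hge : 1 ≤ Nat.find hex := by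
    rw [Nat.one_le_iff_ne_zero]
    intro h0
    have := Nat.find_spec hex
    rw [h0, hq'c 0 (by omega)] at this
    exact this ha0
  refine ih (Nat.find hex) hlt hge (by omega) v' q' 1 hv'0 one_pos
    (fun j hj => not_not.1 (Nat.find_min hex hj)) (Nat.find_spec hex) fun ε hε => ?_
  obtain ⟨i, hi⟩ := (hest 1 one_pos ε hε).exists
  refine ⟨H (φ i), ?_, fun z hz => ?_, fun z hz => ?_⟩
  · refine DifferentiableOn.fun_const_smul ?_ _
    refine (hFd (φ i)).comp ((differentiable_id.const_mul _).differentiableOn) fun z hz => ?_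
    rw [mem_ball_zero_iff] at hz
    exact (hi z hz.le).1
  · rw [mem_ball_zero_iff] at hz
    have h1 := hF (φ i) _ (hi z hz.le).1
    exact ⟨smul_ne_zero (inv_ne_zero (pow_ne_zero _ (hδC _))) h1.1, hs _ _ h1.2.1⟩
  · rw [mem_ball_zero_iff] at hz
    rw [hq'e]
    exact (hi z hz.le).2

end Pool.Agent.R871.SG
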