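import Pool.Agent.R871.SG.BubC

/-!
Isolated terms of the Taylor series of entire curves in closed cones without rational curves of small
degree.
-/

set_option autoImplicit false

namespace Pool.Agent.R871.SG

open Filter Topology Metric Set

variable {E : Type} [NormedAddCommGroup E] [NormedSpace ℂ E]

/-- On the circle of radius `r` the term of index `j` of the power series with the coefficients `a`
dominates all other terms, by the factor `δ` to the power of the difference of the indices. -/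
def Isolated (a : ℕ → E) (δ : ℝ) (j : ℕ) (r : ℝ) : Prop :=
  a j ≠ 0 ∧ ∀ m, m ≠ j → ‖a m‖ * r ^ m ≤ δ ^ ((m - j) + (j - m)) * (‖a j‖ * r ^ j)

omit [NormedSpace ℂ E] in
/-- The dominant index grows with the radius. -/
theorem isolated_lt {a : ℕ → E} {δ r ρ : ℝ} {j k : ℕ} (hδ0 : 0 < δ) (hδ : δ < 1) (hr : 0 < r)
    (hrρ : r < ρ) (hj : Isolated a δ j r) (hk : Isolated a δ k ρ) (hjk : k ≠ j) : j < k := by
  by_contra hcon
  have hkj : k < j := by omega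
  have hA : 0 < ‖a j‖ := norm_pos_iff.2 hj.1
  have hB : 0 < ‖a k‖ := norm_pos_iff.2 hk.1
  have hρ : 0 < ρ := hr.trans hrρ
  have h1 := hj.2 k hjk
  have h2 := hk.2 j hjk.symm
  have e1 : δ ^ ((k - j) + (j - k)) ≤ 1 := pow_le_one₀ hδ0.le hδ.le
  have e2 : δ ^ ((j - k) + (k - j)) < 1 := pow_lt_one₀ hδ0.le hδ (by omega)
  have e3 : r ^ j = r ^ (j - k) * r ^ k := by rw [← pow_add]; congr 1; omega
  have e4 : ρ ^ j = ρ ^ (j - k) * ρ ^ k := by rw [← pow_add]; congr 1; omega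
  have h3 : ‖a k‖ ≤ ‖a j‖ * r ^ (j - k) := by
    have : ‖a k‖ * r ^ k ≤ (‖a j‖ * r ^ (j - k)) * r ^ k := by
      calc _ ≤ _ := h1
        _ ≤ 1 * (‖a j‖ * r ^ j) := by gcongr
        _ = _ := by rw [e3]; ring
    exact le_of_mul_le_mul_right this (by positivity)
  have h4 : ‖a j‖ * ρ ^ (j - k) < ‖a k‖ := by
    have : (‖a j‖ * ρ ^ (j - k)) * ρ ^ k < ‖a k‖ * ρ ^ k := by
      calc _ = ‖a j‖ * ρ ^ j := by rw [e4]; ring
        _ ≤ _ := h2
        _ < 1 * (‖a k‖ * ρ ^ k) := by gcongr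
        _ = _ := one_mul _
    exact lt_of_mul_lt_mul_right this (by positivity)
  have h5 : r ^ (j - k) ≤ ρ ^ (j - k) := pow_le_pow_left₀ hr.le hrρ.le _
  have h6 : ‖a j‖ * r ^ (j - k) ≤ ‖a j‖ * ρ ^ (j - k) := by gcongr
  linarith

theorem geom_low (x : ℝ) (h0 : 0 ≤ x) (h1 : x ≤ 1 / 2) (j : ℕ) :
    ∑ m ∈ Finset.range j, x ^ (j - m) ≤ 2 * x := by
  induction j with
  | zero => simp; exact h0
  | succ j ih =>
    rw [Finset.sum_range_succ]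
    have e : ∀ m ∈ Finset.range j, x ^ (j + 1 - m) = x * x ^ (j - m) := by
      intro m hm
      have := Finset.mem_range.1 hm
      rw [← pow_succ']; congr 1; omega
    rw [Finset.sum_congr rfl e, ← Finset.mul_sum, show j + 1 - j = 1 by omega, pow_one]
    nlinarith

omit [NormedSpace ℂ E] in
/-- The scale of a cluster. -/
theorem cluster_scale {a : ℕ → E} {δ r ρ : ℝ} {j e : ℕ} (he : 1 ≤ e) (hδ0 : 0 < δ) (hr : 0 < r)
    (hrρ : r < ρ) (hj : Isolated a δ j r) (hk : Isolated a δ (j + e) ρ) :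
    ∃ s : ℝ, 0 < s ∧ (∀ l, 1 ≤ l → l ≤ e → ‖a (j + l)‖ * s ^ l ≤ ‖a j‖) ∧
      (∃ l, 1 ≤ l ∧ l ≤ e ∧ ‖a (j + l)‖ * s ^ l = ‖a j‖) ∧
      (∀ m < j, ‖a m‖ ≤ ‖a j‖ * s ^ (j - m) * (δ ^ 2) ^ (j - m)) ∧
      (∀ m, j + e < m → ‖a m‖ * s ^ (m - j) ≤ ‖a j‖ * (δ ^ 2) ^ (m - (j + e))) := by
  have hA : 0 < ‖a j‖ := norm_pos_iff.2 hj.1
  have hB : 0 < ‖a (j + e)‖ := norm_pos_iff.2 hk.1
  have hρ : 0 < ρ := hr.trans hrρ
  set f : ℕ → ℝ := fun l => (‖a (j + l)‖ / ‖a j‖) ^ ((l : ℝ)⁻¹) with hf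
  have hf0 : ∀ l, 0 ≤ f l := fun l => Real.rpow_nonneg (by positivity) _
  have hfp : ∀ l, 1 ≤ l → f l ^ l = ‖a (j + l)‖ / ‖a j‖ := fun l hl =>
    Real.rpow_inv_natCast_pow (by positivity) (by omega)
  obtain ⟨l0, hl0, hmax⟩ := Finset.exists_max_image (Finset.Icc 1 e) f ⟨e, Finset.mem_Icc.2 ⟨he, le_rfl⟩⟩
  obtain ⟨hl1, hl2⟩ := Finset.mem_Icc.1 hl0
  set σ := f l0 with hσ
  have hfe : 0 < f e := Real.rpow_pos_of_pos (by positivity) _
  have hσ0 : 0 < σ := hfe.trans_le (hmax e (Finset.mem_Icc.2 ⟨he, le_rfl⟩))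
  -- bounds for the scale
  have hσr : σ * r ≤ δ := by
    have h1 := hj.2 (j + l0) (by omega)
    rw [show (j + l0 - j) + (j - (j + l0)) = l0 by omega, pow_add] at h1
    have h2 : ‖a (j + l0)‖ * r ^ l0 ≤ δ ^ l0 * ‖a j‖ := by
      have : (‖a (j + l0)‖ * r ^ l0) * r ^ j ≤ (δ ^ l0 * ‖a j‖) * r ^ j := by
        calc _ = ‖a (j + l0)‖ * (r ^ j * r ^ l0) := by ring
          _ ≤ _ := h1
          _ = _ := by ring
      exact le_of_mul_le_mul_right this (by positivity)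
    have h3 : (σ * r) ^ l0 ≤ δ ^ l0 := by
      rw [mul_pow, hσ, hfp l0 hl1, div_mul_eq_mul_div, div_le_iff₀ hA]
      exact h2
    exact le_of_pow_le_pow_left₀ (by omega) hδ0.le h3
  have hσρ : 1 ≤ δ * ρ * σ := by
    have h1 := hk.2 j (by omega)
    rw [show (j - (j + e)) + (j + e - j) = e by omega, pow_add] at h1
    have h2 : ‖a j‖ ≤ δ ^ e * ‖a (j + e)‖ * ρ ^ e := by
      have : ‖a j‖ * ρ ^ j ≤ (δ ^ e * ‖a (j + e)‖ * ρ ^ e) * ρ ^ j := by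
        calc _ ≤ _ := h1
          _ = _ := by ring
      exact le_of_mul_le_mul_right this (by positivity)
    have h3 : ‖a (j + e)‖ / ‖a j‖ ≤ σ ^ e := by
      rw [← hfp e he]
      exact pow_le_pow_left₀ (hf0 e) (hmax e (Finset.mem_Icc.2 ⟨he, le_rfl⟩)) _
    have h4 : 1 ≤ (δ * ρ * σ) ^ e := by
      have h5 : 1 ≤ δ ^ e * ρ ^ e * (‖a (j + e)‖ / ‖a j‖) := by
        rw [← mul_div_assoc, le_div_iff₀ hA]
        calc 1 * ‖a j‖ = ‖a j‖ := one_mul _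
          _ ≤ _ := h2
          _ = _ := by ring
      calc 1 ≤ δ ^ e * ρ ^ e * (‖a (j + e)‖ / ‖a j‖) := h5
        _ ≤ δ ^ e * ρ ^ e * σ ^ e := by gcongr
        _ = _ := by rw [mul_pow, mul_pow]
    by_contra hcon
    push Not at hcon
    exact absurd h4 (not_le.2 (pow_lt_one₀ (by positivity) hcon (by omega)))
  have hs1 : r ≤ δ * σ⁻¹ := by
    rw [← div_eq_mul_inv, le_div_iff₀ hσ0, mul_comm]
    exact hσr
  have hs2 : σ⁻¹ ≤ δ * ρ := by
    rw [inv_le_iff_one_le_mul₀ hσ0]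
    exact hσρ
  have hwin : ∀ l, 1 ≤ l → l ≤ e → ‖a (j + l)‖ * σ⁻¹ ^ l ≤ ‖a j‖ := by
    intro l h1 h2
    have h3 : ‖a (j + l)‖ / ‖a j‖ ≤ σ ^ l := by
      rw [← hfp l h1]
      exact pow_le_pow_left₀ (hf0 l) (hmax l (Finset.mem_Icc.2 ⟨h1, h2⟩)) _
    rw [inv_pow, ← div_eq_mul_inv, div_le_iff₀ (by positivity), mul_comm]
    exact (div_le_iff₀ hA).1 h3
  refine ⟨σ⁻¹, inv_pos.2 hσ0, hwin, ⟨l0, hl1, hl2, ?_⟩, fun m hm => ?_, fun m hm => ?_⟩
  · have h3 := hfp l0 hl1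
    rw [eq_div_iff hA.ne'] at h3
    rw [inv_pow, ← div_eq_mul_inv, div_eq_iff (by positivity), mul_comm ‖a j‖]
    exact h3.symm
  · have h1 := hj.2 m (by omega)
    rw [show (m - j) + (j - m) = j - m by omega] at h1
    have e1 : r ^ j = r ^ (j - m) * r ^ m := by rw [← pow_add]; congr 1; omega
    have h2 : ‖a m‖ ≤ δ ^ (j - m) * ‖a j‖ * r ^ (j - m) := by
      have : ‖a m‖ * r ^ m ≤ (δ ^ (j - m) * ‖a j‖ * r ^ (j - m)) * r ^ m := by
        calc _ ≤ _ := h1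
          _ = _ := by rw [e1]; ring
      exact le_of_mul_le_mul_right this (by positivity)
    calc ‖a m‖ ≤ δ ^ (j - m) * ‖a j‖ * r ^ (j - m) := h2
      _ ≤ δ ^ (j - m) * ‖a j‖ * (δ * σ⁻¹) ^ (j - m) := by gcongr
      _ = _ := by rw [mul_pow, ← pow_mul, two_mul, pow_add]; ring
  · have h1 := hk.2 m (by omega)
    rw [show (m - (j + e)) + (j + e - m) = m - (j + e) by omega] at h1
    have e1 : ρ ^ m = ρ ^ (m - (j + e)) * ρ ^ (j + e) := by rw [← pow_add]; congr 1; omega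
    have h2 : ‖a m‖ * ρ ^ (m - (j + e)) ≤ δ ^ (m - (j + e)) * ‖a (j + e)‖ := by
      have : (‖a m‖ * ρ ^ (m - (j + e))) * ρ ^ (j + e) ≤
          (δ ^ (m - (j + e)) * ‖a (j + e)‖) * ρ ^ (j + e) := by
        calc _ = ‖a m‖ * ρ ^ m := by rw [e1]; ring
          _ ≤ _ := h1
          _ = _ := by ring
      exact le_of_mul_le_mul_right this (by positivity)
    have e2 : m - j = (m - (j + e)) + e := by omega
    have h3 := hwin e he le_rfl
    calc ‖a m‖ * σ⁻¹ ^ (m - j) = (‖a m‖ * σ⁻¹ ^ (m - (j + e))) * σ⁻¹ ^ e := by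
          rw [e2, pow_add]; ring
      _ ≤ (‖a m‖ * (δ * ρ) ^ (m - (j + e))) * σ⁻¹ ^ e := by gcongr
      _ = (‖a m‖ * ρ ^ (m - (j + e))) * (δ ^ (m - (j + e)) * σ⁻¹ ^ e) := by rw [mul_pow]; ring
      _ ≤ (δ ^ (m - (j + e)) * ‖a (j + e)‖) * (δ ^ (m - (j + e)) * σ⁻¹ ^ e) := by gcongr
      _ = (‖a (j + e)‖ * σ⁻¹ ^ e) * (δ ^ 2) ^ (m - (j + e)) := by
          rw [← pow_mul, two_mul, pow_add]; ring
      _ ≤ ‖a j‖ * (δ ^ 2) ^ (m - (j + e)) := by gcongr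

end Pool.Agent.R871.SG
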