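import Pool.Agent.R871.SG.BubD

/-!
Isolated terms of the Taylor series of entire curves in closed cones without rational curves of small
degree: the main theorem.
-/

set_option autoImplicit false

namespace Pool.Agent.R871.SG

open Filter Topology Metric Set

variable {E : Type} [NormedAddCommGroup E] [NormedSpace ℂ E]

theorem coef_hasSum [CompleteSpace E] {F : ℂ → E} (hF : Differentiable ℂ F) (z : ℂ) :
    HasSum (fun m => z ^ m • coef F 0 m) (F z) := by
  have h := Complex.hasSum_taylorSeries_of_entire hF 0 z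
  have e : (fun m => z ^ m • coef F 0 m) = fun m : ℕ =>
      ((m.factorial : ℂ))⁻¹ • (z - 0) ^ m • iteratedDeriv m F 0 := by
    funext m
    rw [coef, sub_zero, smul_comm (z ^ m) ((m.factorial : ℂ))⁻¹]
  rw [e]
  exact h

/-- The function near a cluster of terms. -/
theorem cluster_fun [CompleteSpace E] {X : Set E} (hs : ∀ (a : ℂ), ∀ x ∈ X, a • x ∈ X) {F : ℂ → E}
    (hF : Differentiable ℂ F) (hFX : ∀ z, F z ≠ 0 ∧ F z ∈ X) {δ r ρ : ℝ} {j e d : ℕ} (he : 1 ≤ e)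
    (hed : e ≤ d) (hδ0 : 0 < δ) (hδ : δ ≤ 1) (hr : 0 < r) (hrρ : r < ρ)
    (hj : Isolated (coef F 0) δ j r) (hk : Isolated (coef F 0) δ (j + e) ρ) :
    ∃ (G : ℂ → E) (b : ℕ → E), DifferentiableOn ℂ G {w | w ≠ 0} ∧
      (∀ w, w ≠ 0 → G w ≠ 0 ∧ G w ∈ X) ∧ ‖b 0‖ = 1 ∧ (∀ l ≤ d, ‖b l‖ ≤ 1) ∧
      (∃ l, 1 ≤ l ∧ l ≤ d ∧ ‖b l‖ = 1) ∧
      ∀ R : ℝ, 1 ≤ R → R * δ ^ 2 ≤ 1 / 2 → ∀ w : ℂ, 1 / R ≤ ‖w‖ → ‖w‖ ≤ R →
        ‖G w - ∑ l ∈ Finset.range (d + 1), w ^ l • b l‖ ≤ 4 * R ^ (d + 1) * δ ^ 2 := by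
  obtain ⟨s, hs0, hwin, ⟨l0, hl1, hl2, hl3⟩, hlow, hup⟩ := cluster_scale he hδ0 hr hrρ hj hk
  set a := coef F 0 with ha
  have hA : 0 < ‖a j‖ := norm_pos_iff.2 hj.1
  have hbn : ∀ l, ‖((s ^ l / ‖a j‖ : ℝ) : ℂ) • a (j + l)‖ = ‖a (j + l)‖ * s ^ l / ‖a j‖ := by
    intro l
    rw [norm_smul, Complex.norm_real, Real.norm_of_nonneg (by positivity)]
    ring
  refine ⟨fun w => ((‖a j‖ * s ^ j : ℝ) : ℂ)⁻¹ • (w ^ j)⁻¹ • F ((s : ℂ) * w),
    fun l => ((s ^ l / ‖a j‖ : ℝ) : ℂ) • a (j + l), ?_, fun w hw => ⟨?_, ?_⟩, ?_, fun l hl => ?_,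
    ⟨l0, hl1, hl2.trans hed, ?_⟩, fun R hR1 hRδ w hw1 hw2 => ?_⟩
  · refine DifferentiableOn.fun_const_smul ?_ _
    refine DifferentiableOn.fun_smul ?_ ?_
    · exact (differentiable_id.pow j).differentiableOn.fun_inv fun w hw => pow_ne_zero _ hw
    · exact (hF.comp (differentiable_id.const_mul _)).differentiableOn
  · refine smul_ne_zero (inv_ne_zero ?_) (smul_ne_zero (inv_ne_zero (pow_ne_zero _ hw)) (hFX _).1)
    exact_mod_cast (by positivity : 0 < ‖a j‖ * s ^ j).ne'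
  · exact hs _ _ (hs _ _ (hFX _).2)
  · rw [hbn, pow_zero, mul_one, add_zero, div_self hA.ne']
  · rw [hbn, div_le_one hA]
    rcases Nat.eq_zero_or_pos l with rfl | hl0
    · simp
    · rcases le_or_gt l e with h1 | h1
      · exact hwin l hl0 h1
      · have := hup (j + l) (by omega)
        rw [show j + l - j = l by omega] at this
        refine this.trans ?_
        have h2 : (δ ^ 2) ^ (j + l - (j + e)) ≤ 1 :=
          pow_le_one₀ (by positivity) (pow_le_one₀ hδ0.le hδ)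
        nlinarith
  · rw [hbn, hl3, div_self hA.ne']
  · have hR0 : 0 < R := by linarith
    have hw0 : 0 < ‖w‖ := lt_of_lt_of_le (by positivity) hw1
    have hwne : w ≠ 0 := norm_pos_iff.1 hw0
    have hsC : (s : ℂ) ≠ 0 := by exact_mod_cast hs0.ne'
    have hAC : ((‖a j‖ : ℝ) : ℂ) ≠ 0 := by exact_mod_cast hA.ne'
    set u : ℕ → E := fun m => ((‖a j‖ * s ^ j : ℝ) : ℂ)⁻¹ • (w ^ j)⁻¹ • ((s : ℂ) * w) ^ m • a m with hu
    have h1 : HasSum u (((‖a j‖ * s ^ j : ℝ) : ℂ)⁻¹ • (w ^ j)⁻¹ • F ((s : ℂ) * w)) :=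
      ((coef_hasSum hF ((s : ℂ) * w)).const_smul _).const_smul _
    have hun : ∀ m, ‖u m‖ = (‖a j‖ * s ^ j)⁻¹ * ((‖w‖ ^ j)⁻¹ * ((s * ‖w‖) ^ m * ‖a m‖)) := by
      intro m
      rw [hu]
      simp only
      rw [norm_smul, norm_smul, norm_smul, norm_inv, norm_inv, norm_pow, norm_pow, norm_mul,
        Complex.norm_real, Complex.norm_real, Real.norm_of_nonneg hs0.le,
        Real.norm_of_nonneg (by positivity : 0 ≤ ‖a j‖ * s ^ j)]
    have h2 := h1.summable.sum_add_tsum_nat_add (j + (d + 1))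
    rw [h1.tsum_eq, Finset.sum_range_add] at h2
    -- the middle terms
    have hmid : ∀ l, u (j + l) = w ^ l • (((s ^ l / ‖a j‖ : ℝ) : ℂ) • a (j + l)) := by
      intro l
      rw [hu]
      simp only
      rw [smul_smul, smul_smul, smul_smul]
      congr 1
      push_cast
      rw [mul_pow, pow_add, pow_add]
      field_simp
    have hlowb : ‖∑ m ∈ Finset.range j, u m‖ ≤ 2 * (R * δ ^ 2) := by
      refine (norm_sum_le _ _).trans (le_trans (Finset.sum_le_sum fun m hm => ?_)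
        (geom_low (R * δ ^ 2) (by positivity) hRδ j))
      have hm' : m < j := Finset.mem_range.1 hm
      rw [hun]
      have e1 : ‖w‖ ^ j = ‖w‖ ^ (j - m) * ‖w‖ ^ m := by rw [← pow_add]; congr 1; omega
      have e2 : s ^ j = s ^ (j - m) * s ^ m := by rw [← pow_add]; congr 1; omega
      calc (‖a j‖ * s ^ j)⁻¹ * ((‖w‖ ^ j)⁻¹ * ((s * ‖w‖) ^ m * ‖a m‖))
          ≤ (‖a j‖ * s ^ j)⁻¹ * ((‖w‖ ^ j)⁻¹ * ((s * ‖w‖) ^ m *
            (‖a j‖ * s ^ (j - m) * (δ ^ 2) ^ (j - m)))) := by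
            gcongr
            exact hlow m hm'
        _ = (‖w‖⁻¹ * δ ^ 2) ^ (j - m) := by
            rw [e1, e2, mul_pow, mul_pow ‖w‖⁻¹, inv_pow]
            field_simp
        _ ≤ (R * δ ^ 2) ^ (j - m) := by
            gcongr
            rw [inv_le_comm₀ hw0 hR0]
            simpa using hw1
    have hupb : ‖∑' m, u (m + (j + (d + 1)))‖ ≤ 2 * (R ^ (d + 1) * δ ^ 2) := by
      have hg : HasSum (fun m : ℕ => (1 / 2 : ℝ) ^ m * (R ^ (d + 1) * δ ^ 2))
          (2 * (R ^ (d + 1) * δ ^ 2)) := by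
        have := hasSum_geometric_two.mul_right (R ^ (d + 1) * δ ^ 2)
        simpa using this
      refine tsum_of_norm_bounded hg fun m => ?_
      rw [hun]
      set m' := m + (j + (d + 1)) with hm'
      have e1 : ‖w‖ ^ m' = ‖w‖ ^ (m' - j) * ‖w‖ ^ j := by rw [← pow_add]; congr 1; omega
      have e2 : s ^ m' = s ^ (m' - j) * s ^ j := by rw [← pow_add]; congr 1; omega
      have e3 : m' - j = (m' - (j + e)) + e := by omega
      have e4 : m' - (j + e) = m + (d + 1 - e) := by omega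
      calc (‖a j‖ * s ^ j)⁻¹ * ((‖w‖ ^ j)⁻¹ * ((s * ‖w‖) ^ m' * ‖a m'‖))
          = ‖a j‖⁻¹ * ‖w‖ ^ (m' - j) * (‖a m'‖ * s ^ (m' - j)) := by
            rw [mul_pow, e1, e2]
            field_simp
        _ ≤ ‖a j‖⁻¹ * R ^ (m' - j) * (‖a j‖ * (δ ^ 2) ^ (m' - (j + e))) := by
            refine mul_le_mul ?_ (hup m' (by omega)) (by positivity) (by positivity)
            gcongr
        _ = R ^ e * (R * δ ^ 2) ^ (m' - (j + e)) := by
            rw [e3, mul_pow, pow_add]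
            have : m' - (j + e) + e - e = m' - (j + e) := by omega
            field_simp
        _ ≤ R ^ d * (R * δ ^ 2) ^ (m + 1) := by
            gcongr ?_ * ?_
            · exact pow_le_pow_right₀ hR1 hed
            · exact pow_le_pow_of_le_one (by positivity) (by linarith) (by omega)
        _ = (R * δ ^ 2) ^ m * (R ^ (d + 1) * δ ^ 2) := by
            rw [pow_succ, pow_succ R]; ring
        _ ≤ (1 / 2) ^ m * (R ^ (d + 1) * δ ^ 2) := by gcongr
    have h3 : ((‖a j‖ * s ^ j : ℝ) : ℂ)⁻¹ • (w ^ j)⁻¹ • F ((s : ℂ) * w) -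
        ∑ l ∈ Finset.range (d + 1), w ^ l • (((s ^ l / ‖a j‖ : ℝ) : ℂ) • a (j + l)) =
        ∑ m ∈ Finset.range j, u m + ∑' m, u (m + (j + (d + 1))) := by
      rw [← h2]
      simp only [hmid]
      abel
    beta_reduce
    rw [h3]
    refine (norm_add_le _ _).trans ((add_le_add hlowb hupb).trans ?_)
    have h4 : R ≤ R ^ (d + 1) := by
      calc R = R ^ 1 := (pow_one R).symm
        _ ≤ R ^ (d + 1) := pow_le_pow_right₀ hR1 (by omega)
    have h5 : R * δ ^ 2 ≤ R ^ (d + 1) * δ ^ 2 := by gcongr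
    linarith

omit [NormedSpace ℂ E] in
theorem compact_window [ProperSpace E] (d : ℕ) :
    IsCompact {β : Fin (d + 1) → E | ((∀ j, ‖β j‖ ≤ 1) ∧ ‖β 0‖ = 1) ∧ ∃ j, j ≠ 0 ∧ ‖β j‖ = 1} := by
  refine Metric.isCompact_of_isClosed_isBounded ?_ ?_
  · have : {β : Fin (d + 1) → E | ((∀ j, ‖β j‖ ≤ 1) ∧ ‖β 0‖ = 1) ∧ ∃ j, j ≠ 0 ∧ ‖β j‖ = 1} =
        ((⋂ j, {β : Fin (d + 1) → E | ‖β j‖ ≤ 1}) ∩ {β | ‖β 0‖ = 1}) ∩
          ⋃ j : {j : Fin (d + 1) // j ≠ 0}, {β : Fin (d + 1) → E | ‖β j‖ = 1} := by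
      ext β
      simp
    rw [this]
    refine IsClosed.inter (IsClosed.inter (isClosed_iInter fun j => ?_) ?_)
      (isClosed_iUnion_of_finite fun j => ?_)
    · exact isClosed_le (continuous_apply j).norm continuous_const
    · exact isClosed_eq (continuous_apply (A := fun _ => E) 0).norm continuous_const
    · exact isClosed_eq (continuous_apply (A := fun _ => E) (j : Fin (d + 1))).norm continuous_const
  · refine (isBounded_closedBall (x := (0 : Fin (d + 1) → E)) (r := 1)).subset fun β hβ => ?_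
    rw [mem_closedBall_zero_iff, pi_norm_le_iff_of_nonneg zero_le_one]
    exact hβ.1.1

/-- **Isolated terms are far apart.** Let `X` be a closed cone without nonconstant rational curves of
degree at most `d`. There is `δ > 0` such that for every entire curve in `X`, the indices of two
different `δ`-isolated terms of its Taylor series differ by more than `d`. -/
theorem isolated_apart [ProperSpace E] [CompleteSpace E] {X : Set E} (hX : IsClosed X)
    (hs : ∀ (a : ℂ), ∀ x ∈ X, a • x ∈ X) {d : ℕ} (hR : NoRat X d) :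
    ∃ δ : ℝ, 0 < δ ∧ ∀ F : ℂ → E, Differentiable ℂ F → (∀ z, F z ≠ 0 ∧ F z ∈ X) →
      ∀ (j k : ℕ) (r ρ : ℝ), 0 < r → r < ρ → Isolated (coef F 0) δ j r →
        Isolated (coef F 0) δ k ρ → k = j ∨ j + d < k := by
  by_contra hcon
  push Not at hcon
  have h1 : ∀ i : ℕ, ∃ (G : ℂ → E) (b : ℕ → E), DifferentiableOn ℂ G {w | w ≠ 0} ∧
      (∀ w, w ≠ 0 → G w ≠ 0 ∧ G w ∈ X) ∧ ‖b 0‖ = 1 ∧ (∀ l ≤ d, ‖b l‖ ≤ 1) ∧
      (∃ l, 1 ≤ l ∧ l ≤ d ∧ ‖b l‖ = 1) ∧
      ∀ R : ℝ, 1 ≤ R → R * (1 / ((i : ℝ) + 2)) ^ 2 ≤ 1 / 2 → ∀ w : ℂ, 1 / R ≤ ‖w‖ → ‖w‖ ≤ R →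
        ‖G w - ∑ l ∈ Finset.range (d + 1), w ^ l • b l‖ ≤
          4 * R ^ (d + 1) * (1 / ((i : ℝ) + 2)) ^ 2 := by
    intro i
    have hi : (0 : ℝ) ≤ i := i.cast_nonneg
    obtain ⟨F, hF, hFX, j, k, r, ρ, hr, hrρ, hj, hk, hkj, hkd⟩ := hcon (1 / ((i : ℝ) + 2)) (by positivity)
    have hlt : (1 : ℝ) / ((i : ℝ) + 2) < 1 := by
      rw [div_lt_one (by positivity)]
      linarith
    have hjk := isolated_lt (by positivity) hlt hr hrρ hj hk hkj
    obtain ⟨e, rfl⟩ : ∃ e, k = j + e := ⟨k - j, by omega⟩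
    exact cluster_fun hs hF hFX (by omega) (by omega) (by positivity) hlt.le hr hrρ hj hk
  choose G b hGd hG hb0 hb1 hb2 hest using h1
  -- the limit
  obtain ⟨β, hβ, φ, hφ, hφl⟩ := (compact_window (E := E) d).tendsto_subseq
    (x := fun i (l : Fin (d + 1)) => b i l) fun i => by
      refine ⟨⟨fun l => hb1 i l (by have := l.2; omega), hb0 i⟩, ?_⟩
      obtain ⟨l, h1, h2, h3⟩ := hb2 i
      refine ⟨⟨l, by omega⟩, ?_, h3⟩
      intro h
      have := congrArg Fin.val h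
      simp only [Fin.val_zero] at this
      omega
  have hφa := hφ.tendsto_atTop
  have hβl : ∀ l, Tendsto (fun i => b (φ i) (l : Fin (d + 1))) atTop (𝓝 (β l)) := fun l =>
    tendsto_pi_nhds.1 hφl l
  set b' : ℕ → E := fun l => if hl : l < d + 1 then β ⟨l, hl⟩ else 0 with hb'
  have hb'l : ∀ l (hl : l < d + 1), b' l = β ⟨l, hl⟩ := fun l hl => dif_pos hl
  set Q : ℂ → E := fun w => ∑ l ∈ Finset.range (d + 1), w ^ l • b' l with hQ
  have hconv : ∀ R : ℝ, 1 ≤ R → ∀ ε > 0, ∀ᶠ i in atTop, ∀ w : ℂ, 1 / R ≤ ‖w‖ → ‖w‖ ≤ R →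
      ‖G (φ i) w - Q w‖ ≤ ε := by
    intro R hR1 ε hε
    have hR0 : 0 < R := by linarith
    have hδt : Tendsto (fun i : ℕ => (1 / (((φ i : ℕ) : ℝ) + 2)) ^ 2) atTop (𝓝 0) := by
      have h2 : Tendsto (fun i : ℕ => (1 : ℝ) / ((i : ℝ) + 2)) atTop (𝓝 0) :=
        tendsto_const_nhds.div_atTop (tendsto_atTop_add_const_right _ _ tendsto_natCast_atTop_atTop)
      have := (h2.comp hφa).pow 2
      simpa using this
    have e1 : ∀ᶠ i in atTop, R * (1 / (((φ i : ℕ) : ℝ) + 2)) ^ 2 < 1 / 2 := by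
      have := hδt.const_mul R
      rw [mul_zero] at this
      exact this.eventually_lt_const (by norm_num)
    have e2 : ∀ᶠ i in atTop, 4 * R ^ (d + 1) * (1 / (((φ i : ℕ) : ℝ) + 2)) ^ 2 < ε / 2 := by
      have := hδt.const_mul (4 * R ^ (d + 1))
      rw [mul_zero] at this
      exact this.eventually_lt_const (half_pos hε)
    have e3 : ∀ᶠ i in atTop, ∑ l : Fin (d + 1), R ^ (l : ℕ) * ‖b (φ i) l - β l‖ < ε / 2 := by
      have h2 : ∀ l : Fin (d + 1), Tendsto (fun i => R ^ (l : ℕ) * ‖b (φ i) l - β l‖) atTop (𝓝 0) := by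
        intro l
        have := ((hβl l).sub_const (β l)).norm.const_mul (R ^ (l : ℕ))
        rwa [sub_self, norm_zero, mul_zero] at this
      have h3 := tendsto_finsetSum Finset.univ fun l _ => h2 l
      rw [Finset.sum_const_zero] at h3
      exact h3.eventually_lt_const (half_pos hε)
    filter_upwards [e1, e2, e3] with i h1 h2 h3 w hw1 hw2
    have h4 := hest (φ i) R hR1 h1.le w hw1 hw2
    have h5 : ‖∑ l ∈ Finset.range (d + 1), w ^ l • b (φ i) l - Q w‖ ≤ ε / 2 := by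
      rw [hQ]
      simp only
      rw [← Finset.sum_sub_distrib]
      refine ((norm_sum_le _ _).trans ?_).trans h3.le
      rw [Finset.sum_range]
      refine Finset.sum_le_sum fun l _ => ?_
      rw [hb'l l l.2, ← smul_sub, norm_smul, norm_pow]
      exact mul_le_mul_of_nonneg_right (pow_le_pow_left₀ (norm_nonneg _) hw2 _) (norm_nonneg _)
    have h6 := norm_sub_le_norm_sub_add_norm_sub (G (φ i) w)
      (∑ l ∈ Finset.range (d + 1), w ^ l • b (φ i) l) (Q w)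
    linarith
  -- the limit lies in the cone
  have hQc : Continuous Q := by
    rw [hQ]
    exact continuous_finsetSum _ fun l _ => (continuous_id.pow l).smul continuous_const
  have hRw : ∀ w : ℂ, w ≠ 0 → 1 ≤ max 1 (max ‖w‖ ‖w‖⁻¹) ∧ 1 / max 1 (max ‖w‖ ‖w‖⁻¹) ≤ ‖w‖ ∧
      ‖w‖ ≤ max 1 (max ‖w‖ ‖w‖⁻¹) := by
    intro w hw
    have hw0 : 0 < ‖w‖ := norm_pos_iff.2 hw
    refine ⟨le_max_left _ _, ?_, (le_max_left _ _).trans (le_max_right _ _)⟩
    rw [one_div]
    exact inv_le_of_inv_le₀ hw0 ((le_max_right _ _).trans (le_max_right _ _))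
  have hQX0 : ∀ w : ℂ, w ≠ 0 → Q w ∈ X := by
    intro w hw
    obtain ⟨hR1, hR2, hR3⟩ := hRw w hw
    have ht : Tendsto (fun i => G (φ i) w) atTop (𝓝 (Q w)) := by
      rw [Metric.tendsto_atTop]
      intro ε hε
      obtain ⟨N, hN⟩ := eventually_atTop.1 (hconv _ hR1 (ε / 2) (half_pos hε))
      refine ⟨N, fun i hi => ?_⟩
      rw [dist_eq_norm]
      exact (hN i hi w hR2 hR3).trans_lt (half_lt_self hε)
    exact hX.mem_of_tendsto ht (Eventually.of_forall fun i => (hG (φ i) w hw).2)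
  have hQX : ∀ w : ℂ, Q w ∈ X := by
    have hcl : IsClosed {w | Q w ∈ X} := hX.preimage hQc
    have hsub : ({0}ᶜ : Set ℂ) ⊆ {w | Q w ∈ X} := fun w hw => hQX0 w hw
    have hd := (dense_compl_singleton (0 : ℂ)).closure_eq
    intro w
    have := closure_minimal hsub hcl
    rw [hd] at this
    exact this (mem_univ w)
  obtain ⟨v, hv⟩ := hR b' hQX
  choose! a ha using hv
  have hv0 : v ≠ 0 := by
    rintro rfl
    have h2 := ha 0 (by omega)
    rw [smul_zero, hb'l 0 (by omega)] at h2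
    have h3 := hβ.1.2
    have h4 : β 0 = 0 := h2
    rw [h4, norm_zero] at h3
    exact zero_ne_one h3
  set q : Polynomial ℂ := ∑ l ∈ Finset.range (d + 1), Polynomial.C (a l) * Polynomial.X ^ l with hq
  have hqc : ∀ l ≤ d, q.coeff l = a l := by
    intro l hl
    rw [hq, Polynomial.finsetSum_coeff]
    simp only [Polynomial.coeff_C_mul, Polynomial.coeff_X_pow, mul_ite, mul_one, mul_zero]
    rw [Finset.sum_ite_eq]
    simp [Nat.lt_succ_iff.2 hl]
  have hqdeg : q.natDegree ≤ d := by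
    rw [hq]
    refine Polynomial.natDegree_sum_le_of_forall_le _ _ fun l hl => ?_
    have := Finset.mem_range.1 hl
    exact (Polynomial.natDegree_C_mul_X_pow_le _ _).trans (by omega)
  have hqe : ∀ w, q.eval w • v = Q w := by
    intro w
    rw [hq, Polynomial.eval_finsetSum, Finset.sum_smul, hQ]
    refine Finset.sum_congr rfl fun l hl => ?_
    have hl' : l ≤ d := by
      have := Finset.mem_range.1 hl
      omega
    rw [ha l hl', smul_smul, Polynomial.eval_mul, Polynomial.eval_C, Polynomial.eval_pow,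
      Polynomial.eval_X, mul_comm]
  have ha0 : a 0 ≠ 0 := by
    intro h0
    have h2 := ha 0 (by omega)
    rw [h0, zero_smul, hb'l 0 (by omega)] at h2
    have h3 := hβ.1.2
    have h4 : β 0 = 0 := h2
    rw [h4, norm_zero] at h3
    exact zero_ne_one h3
  obtain ⟨l1, hl10, hl1⟩ := hβ.2
  have hal1 : q.coeff l1 ≠ 0 := by
    rw [hqc l1 (by have := l1.2; omega)]
    intro h0
    have h2 := ha l1 (by have := l1.2; omega)
    rw [h0, zero_smul, hb'l l1 l1.2] at h2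
    have h4 : β l1 = 0 := h2
    rw [h4, norm_zero] at hl1
    exact zero_ne_one hl1
  have hl1' : (l1 : ℕ) ≠ 0 := fun h => hl10 (Fin.ext h)
  have hdeg : q.degree ≠ 0 := by
    intro h0
    rw [Polynomial.eq_C_of_degree_eq_zero h0, Polynomial.coeff_C, if_neg hl1'] at hal1
    exact hal1 rfl
  obtain ⟨w0, hw0⟩ := IsAlgClosed.exists_root q hdeg
  have hw0' : q.eval w0 = 0 := hw0
  have hw00 : w0 ≠ 0 := by
    rintro rfl
    rw [← Polynomial.coeff_zero_eq_eval_zero, hqc 0 (by omega)] at hw0'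
    exact ha0 hw0'
  have hq0 : q ≠ 0 := by rintro h; rw [h] at hal1; simp at hal1
  have htq : Polynomial.taylor w0 q ≠ 0 := by
    intro h
    exact hq0 ((Polynomial.taylor_eq_zero _ _).1 h)
  classical
  have hex : ∃ l, (Polynomial.taylor w0 q).coeff l ≠ 0 := by
    by_contra h
    push Not at h
    exact htq (Polynomial.ext fun l => by simpa using h l)
  have hge : 1 ≤ Nat.find hex := by
    rw [Nat.one_le_iff_ne_zero]
    intro h0
    have := Nat.find_spec hex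
    rw [h0, Polynomial.taylor_coeff_zero] at this
    exact this hw0'
  have hle : Nat.find hex ≤ d := by
    have h2 := Polynomial.le_natDegree_of_ne_zero (Nat.find_spec hex)
    rw [Polynomial.natDegree_taylor] at h2
    omega
  have hw0n : 0 < ‖w0‖ := norm_pos_iff.2 hw00
  refine bubble hX hs hR (Nat.find hex) hge hle v (Polynomial.taylor w0 q) (‖w0‖ / 2) hv0 (by positivity)
    (fun l hl => not_not.1 (Nat.find_min hex hl)) (Nat.find_spec hex) fun ε hε => ?_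
  obtain ⟨R, hR1, hR2, hR3⟩ : ∃ R : ℝ, 1 ≤ R ∧ 2 * ‖w0‖ ≤ R ∧ 2 * ‖w0‖⁻¹ ≤ R :=
    ⟨max 1 (max (2 * ‖w0‖) (2 * ‖w0‖⁻¹)), le_max_left _ _, (le_max_left _ _).trans (le_max_right _ _),
      (le_max_right _ _).trans (le_max_right _ _)⟩
  obtain ⟨i, hi⟩ := (hconv R hR1 ε hε).exists
  have hmem : ∀ z ∈ ball (0 : ℂ) (‖w0‖ / 2), w0 + z ≠ 0 ∧ 1 / R ≤ ‖w0 + z‖ ∧ ‖w0 + z‖ ≤ R := by
    intro z hz
    rw [mem_ball_zero_iff] at hz
    have h2 : ‖w0‖ / 2 ≤ ‖w0 + z‖ := by
      have := norm_sub_le_norm_add w0 z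
      linarith
    have h3 : ‖w0 + z‖ ≤ R := by
      have := norm_add_le w0 z
      linarith
    refine ⟨norm_pos_iff.1 (by linarith), le_trans ?_ h2, h3⟩
    have hR0 : 0 < R := by linarith
    rw [one_div, inv_le_comm₀ hR0 (by positivity), inv_div]
    rw [div_eq_mul_inv]
    exact hR3
  refine ⟨fun z => G (φ i) (w0 + z), ?_, fun z hz => hG (φ i) _ (hmem z hz).1, fun z hz => ?_⟩
  · exact (hGd (φ i)).comp ((differentiable_const _).add differentiable_id).differentiableOn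
      fun z hz => (hmem z hz).1
  · rw [Polynomial.taylor_eval, add_comm z w0, hqe]
    exact hi _ (hmem z hz).2.1 (hmem z hz).2.2

end Pool.Agent.R871.SG
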