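import Pool.Agent.R871.SG.BubE

/-!
The central index of entire curves in closed cones without rational curves of small degree.
-/

set_option autoImplicit false

namespace Pool.Agent.R871.SG

open Filter Topology Metric Set

variable {E : Type} [NormedAddCommGroup E]

/-- The term of index `j` is a maximal term of the power series with the coefficients `a` on the
circle of radius `r`. -/
def MaxTerm (a : ℕ → E) (j : ℕ) (r : ℝ) : Prop := ∀ m, ‖a m‖ * r ^ m ≤ ‖a j‖ * r ^ j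

/-- The central index: the smallest index of a maximal term on the circle of radius `r`. -/
noncomputable def centralIndex (a : ℕ → E) (r : ℝ) : ℕ := sInf {j | MaxTerm a j r}

theorem exists_maxTerm {a : ℕ → E} {r : ℝ} (hr : 0 < r) (hs : Summable fun m => r ^ m * ‖a m‖) :
    ∃ j, MaxTerm a j r := by
  by_cases h0 : ∀ m, ‖a m‖ * r ^ m = 0
  · exact ⟨0, fun m => by rw [h0 m, h0 0]⟩
  push Not at h0
  obtain ⟨m0, hm0⟩ := h0
  have hp : 0 < ‖a m0‖ * r ^ m0 := lt_of_le_of_ne (by positivity) (Ne.symm hm0)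
  have ht := hs.tendsto_atTop_zero
  obtain ⟨N, hN⟩ := eventually_atTop.1 (ht.eventually_lt_const hp)
  obtain ⟨j, hj, hmax⟩ := Finset.exists_max_image (Finset.range (max N m0 + 1))
    (fun m => ‖a m‖ * r ^ m) ⟨0, by simp⟩
  refine ⟨j, fun m => ?_⟩
  by_cases hm : m < max N m0 + 1
  · exact hmax m (Finset.mem_range.2 hm)
  · have h1 := hN m (by omega)
    have h2 := hmax m0 (Finset.mem_range.2 (by omega))
    have h3 : r ^ m * ‖a m‖ = ‖a m‖ * r ^ m := mul_comm _ _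
    linarith

theorem centralIndex_spec {a : ℕ → E} {r : ℝ} (h : ∃ j, MaxTerm a j r) :
    MaxTerm a (centralIndex a r) r := Nat.sInf_mem (s := {j | MaxTerm a j r}) h

theorem maxTerm_ne {a : ℕ → E} {j : ℕ} {r : ℝ} (h0 : a 0 ≠ 0) (hj : MaxTerm a j r) :
    a j ≠ 0 := by
  intro h
  have h1 := hj 0
  rw [h, norm_zero, zero_mul, pow_zero, mul_one] at h1
  exact h0 (norm_le_zero_iff.1 h1)

theorem maxTerm_mono {a : ℕ → E} {j k : ℕ} {r ρ : ℝ} (hr : 0 < r) (hrρ : r < ρ) (h0 : a 0 ≠ 0)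
    (hj : MaxTerm a j r) (hk : MaxTerm a k ρ) : j ≤ k := by
  by_contra hcon
  push Not at hcon
  have hA : 0 < ‖a j‖ := norm_pos_iff.2 (maxTerm_ne h0 hj)
  have hρ : 0 < ρ := hr.trans hrρ
  have e3 : r ^ j = r ^ (j - k) * r ^ k := by rw [← pow_add]; congr 1; omega
  have e4 : ρ ^ j = ρ ^ (j - k) * ρ ^ k := by rw [← pow_add]; congr 1; omega
  have h1 := hj k
  have h2 := hk j
  have h3 : ‖a k‖ ≤ ‖a j‖ * r ^ (j - k) := by
    have : ‖a k‖ * r ^ k ≤ (‖a j‖ * r ^ (j - k)) * r ^ k := by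
      calc _ ≤ _ := h1
        _ = _ := by rw [e3]; ring
    exact le_of_mul_le_mul_right this (by positivity)
  have h4 : ‖a j‖ * ρ ^ (j - k) ≤ ‖a k‖ := by
    have : (‖a j‖ * ρ ^ (j - k)) * ρ ^ k ≤ ‖a k‖ * ρ ^ k := by
      calc _ = ‖a j‖ * ρ ^ j := by rw [e4]; ring
        _ ≤ _ := h2
    exact le_of_mul_le_mul_right this (by positivity)
  have h5 : r ^ (j - k) < ρ ^ (j - k) := pow_lt_pow_left₀ hrρ hr.le (by omega)
  have h6 : ‖a j‖ * r ^ (j - k) < ‖a j‖ * ρ ^ (j - k) := by gcongr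
  linarith

/-- A term which is maximal on two circles is isolated on the circle between them. -/
theorem maxTerm_isolated {a : ℕ → E} {j : ℕ} {r δ : ℝ} (hr : 0 < r) (hδ0 : 0 < δ)
    (h0 : a 0 ≠ 0) (h1 : MaxTerm a j r) (h2 : MaxTerm a j (r * (δ ^ 2)⁻¹)) :
    Isolated a δ j (r * δ⁻¹) := by
  refine ⟨maxTerm_ne h0 h1, fun m hm => ?_⟩
  rcases lt_or_gt_of_ne hm with h | h
  · rw [show (m - j) + (j - m) = j - m by omega]
    have h3 := h1 m
    have e1 : δ ^ (j - m) * (δ⁻¹) ^ j = (δ⁻¹) ^ m := by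
      have : (δ⁻¹) ^ j = (δ⁻¹) ^ (j - m) * (δ⁻¹) ^ m := by rw [← pow_add]; congr 1; omega
      rw [this, ← mul_assoc, ← mul_pow, mul_inv_cancel₀ hδ0.ne', one_pow, one_mul]
    calc ‖a m‖ * (r * δ⁻¹) ^ m = (‖a m‖ * r ^ m) * (δ⁻¹) ^ m := by rw [mul_pow]; ring
      _ ≤ (‖a j‖ * r ^ j) * (δ⁻¹) ^ m := by gcongr
      _ = δ ^ (j - m) * (‖a j‖ * (r * δ⁻¹) ^ j) := by rw [← e1, mul_pow]; ring
  · rw [show (m - j) + (j - m) = m - j by omega]
    have h3 := h2 m
    have e0 : r * (δ ^ 2)⁻¹ = (r * δ⁻¹) * δ⁻¹ := by rw [sq, mul_inv]; ring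
    rw [e0, mul_pow, mul_pow (r * δ⁻¹)] at h3
    have e1 : (δ⁻¹) ^ m = (δ⁻¹) ^ (m - j) * (δ⁻¹) ^ j := by rw [← pow_add]; congr 1; omega
    have h4 : (‖a m‖ * (r * δ⁻¹) ^ m * (δ⁻¹) ^ (m - j)) * (δ⁻¹) ^ j ≤
        (‖a j‖ * (r * δ⁻¹) ^ j) * (δ⁻¹) ^ j := by
      calc _ = ‖a m‖ * ((r * δ⁻¹) ^ m * (δ⁻¹) ^ m) := by rw [e1]; ring
        _ ≤ _ := h3
        _ = _ := by ring
    have h5 := le_of_mul_le_mul_right h4 (by positivity)
    calc ‖a m‖ * (r * δ⁻¹) ^ m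
        = δ ^ (m - j) * (‖a m‖ * (r * δ⁻¹) ^ m * (δ⁻¹) ^ (m - j)) := by
          have : δ ^ (m - j) * (δ⁻¹) ^ (m - j) = 1 := by
            rw [← mul_pow, mul_inv_cancel₀ hδ0.ne', one_pow]
          linear_combination (-(‖a m‖ * (r * δ⁻¹) ^ m)) * this
      _ ≤ δ ^ (m - j) * (‖a j‖ * (r * δ⁻¹) ^ j) := by gcongr

/-- In a window in which the central index increases by at most `d` there is an isolated term. -/
theorem window_isolated {a : ℕ → E} {δ x : ℝ} {d : ℕ} (hδ0 : 0 < δ) (hδ1 : δ < 1) (hx : 0 < x)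
    (h0 : a 0 ≠ 0) (hs : ∀ r, 0 < r → ∃ j, MaxTerm a j r)
    (hd : centralIndex a (x * ((δ ^ 2)⁻¹) ^ (d + 1)) ≤ centralIndex a x + d) :
    ∃ (j : ℕ) (ρ : ℝ), x < ρ ∧ ρ < x * ((δ ^ 2)⁻¹) ^ (d + 1) ∧ Isolated a δ j ρ ∧
      centralIndex a x ≤ j ∧ j ≤ centralIndex a (x * ((δ ^ 2)⁻¹) ^ (d + 1)) := by
  set q : ℝ := (δ ^ 2)⁻¹ with hq
  have hq1 : 1 < q := by
    rw [hq]
    refine (one_lt_inv₀ (by positivity)).2 (pow_lt_one₀ hδ0.le hδ1 (by norm_num))
  have hq0 : 0 < q := by linarith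
  set ν : ℕ → ℕ := fun i => centralIndex a (x * q ^ i) with hν
  have hpos : ∀ i, 0 < x * q ^ i := fun i => by positivity
  have hspec : ∀ i, MaxTerm a (ν i) (x * q ^ i) := fun i => centralIndex_spec (hs _ (hpos i))
  have hlt : ∀ i, x * q ^ i < x * q ^ (i + 1) := fun i => by
    have : q ^ i < q ^ (i + 1) := pow_lt_pow_right₀ hq1 (by omega)
    gcongr
  have hstep : ∀ i, ν i ≤ ν (i + 1) := fun i => maxTerm_mono (hpos i) (hlt i) h0 (hspec i) (hspec _)
  have hmono : Monotone ν := monotone_nat_of_le_succ hstep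
  have hν0 : ν 0 = centralIndex a x := by simp [hν]
  obtain ⟨i, hi, hieq⟩ : ∃ i ≤ d, ν i = ν (i + 1) := by
    by_contra hcon
    push Not at hcon
    have h3 : ∀ i ≤ d + 1, ν 0 + i ≤ ν i := by
      intro i
      induction i with
      | zero => intro _; simp
      | succ i ih =>
        intro hi
        have h4 := ih (by omega)
        have h5 := hcon i (by omega)
        have h6 := hstep i
        omega
    have h7 := h3 (d + 1) le_rfl
    rw [hν0] at h7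
    have h8 : ν (d + 1) ≤ centralIndex a x + d := hd
    omega
  refine ⟨ν i, x * q ^ i * δ⁻¹, ?_, ?_, ?_, ?_, ?_⟩
  · have h1 : 1 < δ⁻¹ := (one_lt_inv₀ hδ0).2 hδ1
    have h2 : 1 ≤ q ^ i := one_le_pow₀ hq1.le
    calc x = x * 1 * 1 := by ring
      _ < x * q ^ i * δ⁻¹ := by
        refine mul_lt_mul' (by gcongr) h1 zero_le_one (by positivity)
  · have h1 : δ⁻¹ < q := by
      rw [hq]
      refine inv_strictAnti₀ (by positivity) ?_
      nlinarith
    have h2 : q ^ (i + 1) ≤ q ^ (d + 1) := pow_le_pow_right₀ hq1.le (by omega)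
    calc x * q ^ i * δ⁻¹ < x * q ^ i * q := by gcongr
      _ = x * q ^ (i + 1) := by rw [pow_succ]; ring
      _ ≤ x * q ^ (d + 1) := by gcongr
  · refine maxTerm_isolated (hpos i) hδ0 h0 (hspec i) ?_
    have h3 := hspec (i + 1)
    rw [← hieq] at h3
    have e : x * q ^ i * (δ ^ 2)⁻¹ = x * q ^ (i + 1) := by rw [← hq, pow_succ]; ring
    rw [e]
    exact h3
  · rw [← hν0]
    exact hmono (by omega)
  · exact hmono (by omega)

variable [NormedSpace ℂ E]

theorem coef_summable0 [CompleteSpace E] {F : ℂ → E} (hF : Differentiable ℂ F) {r : ℝ} (hr : 0 < r) :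
    Summable fun m => r ^ m * ‖coef F 0 m‖ := by
  have hb : ∀ z ∈ ball (0 : ℂ) (2 * (2 * r)), ‖F z‖ ≤ ‖F z‖ := fun _ _ => le_rfl
  obtain ⟨C, hC⟩ := (isCompact_closedBall (0 : ℂ) (2 * (2 * r))).exists_bound_of_continuousOn
    hF.continuous.continuousOn
  have h1 := fun m => tcoef_le (by positivity : (0 : ℝ) < 2 * r) hF.differentiableOn
    (fun z hz => hC z (ball_subset_closedBall hz)) m
  have hg : Summable fun m : ℕ => C * (1 / 2 : ℝ) ^ m :=
    (summable_geometric_of_lt_one (by norm_num) (by norm_num)).mul_left C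
  refine Summable.of_nonneg_of_le (fun m => by positivity) (fun m => ?_) hg
  calc r ^ m * ‖coef F 0 m‖ ≤ r ^ m * (C * (1 / (2 * r)) ^ m) := by gcongr; exact h1 m
    _ = C * (r * (1 / (2 * r))) ^ m := by rw [mul_pow]; ring
    _ = C * (1 / 2) ^ m := by
      congr 2
      field_simp

/-- **The central index.** Let `X` be a closed cone without nonconstant rational curves of degree at
most `d`. There is `R > 1` such that for every entire curve in `X` which is not a polynomial, the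
central index increases by more than `d` between the radii `r` and `R r`, for arbitrarily large `r`. -/
theorem central_index [ProperSpace E] [CompleteSpace E] {X : Set E} {d : ℕ} {δ : ℝ} (hδ0 : 0 < δ)
    (h : ∀ F : ℂ → E, Differentiable ℂ F → (∀ z, F z ≠ 0 ∧ F z ∈ X) →
      ∀ (j k : ℕ) (r ρ : ℝ), 0 < r → r < ρ → Isolated (coef F 0) δ j r →
        Isolated (coef F 0) δ k ρ → k = j ∨ j + d < k) (hδ1 : δ < 1) :
    ∃ R : ℝ, 1 < R ∧ ∀ F : ℂ → E, Differentiable ℂ F → (∀ z, F z ≠ 0 ∧ F z ∈ X) →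
      (∀ D, ∃ m, D < m ∧ coef F 0 m ≠ 0) → ∀ r0 : ℝ, ∃ r > r0,
        centralIndex (coef F 0) r + d < centralIndex (coef F 0) (R * r) := by
  set q : ℝ := (δ ^ 2)⁻¹ with hq
  have hq1 : 1 < q := by
    rw [hq]
    refine (one_lt_inv₀ (by positivity)).2 (pow_lt_one₀ hδ0.le hδ1 (by norm_num))
  set Q : ℝ := q ^ (d + 1) with hQ
  have hQ1 : 1 < Q := one_lt_pow₀ hq1 (by omega)
  have hQ0 : 0 < Q := by linarith
  refine ⟨Q * Q, by nlinarith, fun F hF hFX htr r0 => ?_⟩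
  by_contra hcon
  push Not at hcon
  set a := coef F 0 with ha
  have h0 : a 0 ≠ 0 := by
    have : a 0 = F 0 := by simp [ha, coef]
    rw [this]
    exact (hFX 0).1
  have hs : ∀ r, 0 < r → ∃ j, MaxTerm a j r := fun r hr => exists_maxTerm hr (coef_summable0 hF hr)
  have hmono : ∀ r ρ, 0 < r → r < ρ → centralIndex a r ≤ centralIndex a ρ := fun r ρ hr hrρ =>
    maxTerm_mono hr hrρ h0 (centralIndex_spec (hs r hr)) (centralIndex_spec (hs ρ (hr.trans hrρ)))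
  set r1 : ℝ := max r0 1 + 1 with hr1
  have hr10 : 0 < r1 := by have := le_max_right r0 1; linarith
  have hr11 : r0 < r1 := by have := le_max_left r0 1; linarith
  have hxpos : ∀ t : ℕ, 0 < r1 * Q ^ t := fun t => by positivity
  have hxr : ∀ t : ℕ, r0 < r1 * Q ^ t := fun t => by
    have : 1 ≤ Q ^ t := one_le_pow₀ hQ1.le
    nlinarith
  have hstep : ∀ t : ℕ, r1 * Q ^ t < r1 * Q ^ (t + 1) := fun t => by
    have : Q ^ t < Q ^ (t + 1) := pow_lt_pow_right₀ hQ1 (by omega)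
    gcongr
  have hbd : ∀ t : ℕ, centralIndex a (r1 * Q ^ (t + 2)) ≤ centralIndex a (r1 * Q ^ t) + d := by
    intro t
    have h1 := hcon (r1 * Q ^ t) (hxr t)
    have e : Q * Q * (r1 * Q ^ t) = r1 * Q ^ (t + 2) := by ring
    rw [e] at h1
    exact h1
  have hw : ∀ t : ℕ, ∃ (j : ℕ) (ρ : ℝ), r1 * Q ^ t < ρ ∧ ρ < r1 * Q ^ (t + 1) ∧ Isolated a δ j ρ ∧
      centralIndex a (r1 * Q ^ t) ≤ j ∧ j ≤ centralIndex a (r1 * Q ^ (t + 1)) := by
    intro t
    have e : r1 * Q ^ (t + 1) = r1 * Q ^ t * ((δ ^ 2)⁻¹) ^ (d + 1) := by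
      rw [← hq, ← hQ, pow_succ]; ring
    rw [e]
    refine window_isolated hδ0 hδ1 (hxpos t) h0 hs ?_
    rw [← e]
    exact (hmono _ _ (hxpos _) (hstep (t + 1))).trans (hbd t)
  choose j ρ hρ1 hρ2 hiso hj1 hj2 using hw
  have hjj : ∀ t, j (t + 1) = j t := by
    intro t
    have hlt : ρ t < ρ (t + 1) := (hρ2 t).trans (hρ1 (t + 1))
    rcases h F hF hFX (j t) (j (t + 1)) (ρ t) (ρ (t + 1)) ((hxpos t).trans (hρ1 t)) hlt (hiso t)
      (hiso (t + 1)) with h1 | h1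
    · exact h1
    · exfalso
      have h2 : j (t + 1) ≤ centralIndex a (r1 * Q ^ (t + 2)) := hj2 (t + 1)
      have h3 := hbd t
      have h4 := hj1 t
      omega
  have hjc : ∀ t, j t = j 0 := by
    intro t
    induction t with
    | zero => rfl
    | succ t ih => rw [hjj, ih]
  obtain ⟨m, hm, hm0⟩ := htr (j 0)
  -- the term of index `m` exceeds the term of index `j 0` for large radii
  have hA : 0 < ‖a m‖ := norm_pos_iff.2 hm0
  have hρt : Tendsto ρ atTop atTop := by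
    refine tendsto_atTop_mono (fun t => (hρ1 t).le) ?_
    exact (tendsto_pow_atTop_atTop_of_one_lt hQ1).const_mul_atTop hr10
  have hρp : ∀ t, 0 < ρ t := fun t => (hxpos t).trans (hρ1 t)
  obtain ⟨t, ht1, ht2⟩ := ((hρt.eventually_gt_atTop (‖a (j 0)‖ / ‖a m‖)).and
    (hρt.eventually_ge_atTop 1)).exists
  have h5 := (hiso t).2 m (by rw [hjc t]; omega)
  rw [hjc t] at h5
  have h6 : δ ^ ((m - j 0) + (j 0 - m)) ≤ 1 := pow_le_one₀ hδ0.le hδ1.le
  have h7 : ‖a m‖ * ρ t ^ m ≤ ‖a (j 0)‖ * ρ t ^ j 0 := by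
    refine h5.trans ?_
    have : 0 ≤ ‖a (j 0)‖ * ρ t ^ j 0 := by have := hρp t; positivity
    nlinarith
  have e5 : ρ t ^ m = ρ t ^ (m - j 0) * ρ t ^ j 0 := by rw [← pow_add]; congr 1; omega
  have h8 : ‖a m‖ * ρ t ^ (m - j 0) ≤ ‖a (j 0)‖ := by
    have : (‖a m‖ * ρ t ^ (m - j 0)) * ρ t ^ j 0 ≤ ‖a (j 0)‖ * ρ t ^ j 0 := by
      calc _ = ‖a m‖ * ρ t ^ m := by rw [e5]; ring
        _ ≤ _ := h7
    exact le_of_mul_le_mul_right this (pow_pos (hρp t) _)
  have h9 : ρ t ≤ ρ t ^ (m - j 0) := by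
    calc ρ t = ρ t ^ 1 := (pow_one _).symm
      _ ≤ _ := pow_le_pow_right₀ ht2 (by omega)
  rw [div_lt_iff₀ hA] at ht1
  have h10 : ‖a m‖ * ρ t ≤ ‖a m‖ * ρ t ^ (m - j 0) := by gcongr
  linarith

end Pool.Agent.R871.SG
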