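import Pool.Agent.R871.SG.BubF
import Pool.Agent.R871.SG.Arith

/-!
Isolated terms and the central index of entire curves in closed subsets of the projective space which
contain no rational curves of small degree.
-/

set_option autoImplicit false

namespace Pool.Agent.R871.SG

open Filter Topology Metric Set MvPolynomial
open scoped LinearAlgebra.Projectivization

variable {n : ℕ}

/-- `f` consists of homogeneous coordinates, without common zeros, of a holomorphic map from the plane
to the subset of `ℙⁿ` with the cone `X`. -/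
def HolIn (X : Set (Fin (n + 1) → ℂ)) (f : ℂ → Fin (n + 1) → ℂ) : Prop :=
  Differentiable ℂ f ∧ ∀ z, f z ≠ 0 ∧ f z ∈ X

/-- The subset of `ℙⁿ` with the cone `X` contains no nonconstant rational curve of degree at most
`d`. -/
def RatFree (X : Set (Fin (n + 1) → ℂ)) (d : ℕ) : Prop :=
  ∀ P : Fin (n + 1) → Polynomial ℂ, (∀ j, (P j).natDegree ≤ d) → HolIn X (pv P) → ¬ NonConst (pv P)

theorem noRat_of_ratFree {X : Set (Fin (n + 1) → ℂ)} (hX : IsClosed X)
    (hs : ∀ (a : ℂ), ∀ x ∈ X, a • x ∈ X) {d : ℕ} (h : RatFree X d) : NoRat X d := by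
  intro b hb
  set P : Fin (n + 1) → Polynomial ℂ := fun s =>
    ∑ i ∈ Finset.range (d + 1), Polynomial.C (b i s) * Polynomial.X ^ i with hP
  have hPv : ∀ z, pv P z = ∑ i ∈ Finset.range (d + 1), z ^ i • b i := by
    intro z
    ext s
    simp only [pv, hP, Polynomial.eval_finsetSum, Polynomial.eval_mul, Polynomial.eval_C,
      Polynomial.eval_pow, Polynomial.eval_X, Finset.sum_apply, Pi.smul_apply, smul_eq_mul]
    exact Finset.sum_congr rfl fun i _ => mul_comm _ _
  have hPd : ∀ s, (P s).natDegree ≤ d := by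
    intro s
    refine Polynomial.natDegree_sum_le_of_forall_le _ _ fun l hl => ?_
    have := Finset.mem_range.1 hl
    exact (Polynomial.natDegree_C_mul_X_pow_le _ _).trans (by omega)
  have hPc : ∀ s, ∀ i ≤ d, (P s).coeff i = b i s := by
    intro s i hi
    rw [hP]
    simp only
    rw [Polynomial.finsetSum_coeff]
    simp only [Polynomial.coeff_C_mul, Polynomial.coeff_X_pow, mul_ite, mul_one, mul_zero]
    rw [Finset.sum_ite_eq]
    simp [Nat.lt_succ_iff.2 hi]
  by_cases h0 : ∃ z, pv P z ≠ 0
  · obtain ⟨q, P', hP', hq, hne⟩ := clear h0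
    have hqP : ∀ z, pv P z = q.eval z • pv P' z := by
      intro z
      ext j
      simp [pv, hP' j]
    have hd' : ∀ j, (P' j).natDegree ≤ d := by
      intro j
      by_cases hj : P' j = 0
      · rw [hj]; simp
      · have h1 := Polynomial.natDegree_mul hq hj
        rw [← hP' j] at h1
        have := hPd j
        omega
    have hcl : IsClosed {z : ℂ | pv P' z ∈ X} :=
      hX.preimage (continuous_pi fun j => (P' j).continuous)
    have hin : ∀ z, q.eval z ≠ 0 → pv P' z ∈ X := by
      intro z hz
      have h1 : pv P' z = (q.eval z)⁻¹ • pv P z := by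
        rw [hqP z, smul_smul, inv_mul_cancel₀ hz, one_smul]
      rw [h1, hPv z]
      exact hs _ _ (hb z)
    have hdense : Dense {z : ℂ | q.eval z ≠ 0} := by
      have hfin : {z : ℂ | q.eval z = 0}.Finite := by
        refine (q.roots.toFinset.finite_toSet).subset fun z hz => ?_
        simpa [Polynomial.mem_roots hq] using hz
      have : {z : ℂ | q.eval z ≠ 0} = {z : ℂ | q.eval z = 0}ᶜ := by ext; simp
      rw [this]
      exact hfin.countable.dense_compl ℂ
    have hall : ∀ z, pv P' z ∈ X := by
      intro z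
      have h1 := closure_minimal (s := {z : ℂ | q.eval z ≠ 0}) (fun w hw => hin w hw) hcl
      rw [hdense.closure_eq] at h1
      exact h1 (mem_univ z)
    have hnc := h P' hd' ⟨differentiable_pi.2 fun j => (P' j).differentiable, fun z => ⟨hne z, hall z⟩⟩
    unfold NonConst at hnc
    push Not at hnc
    set v := pv P' 0 with hv
    obtain ⟨t, ht⟩ : ∃ t, v t ≠ 0 := by
      by_contra hcon
      push Not at hcon
      exact hne 0 (funext hcon)
    refine ⟨v, fun i hi => ⟨b i t / v t, ?_⟩⟩
    have hpol : ∀ s, P s * Polynomial.C (v t) = P t * Polynomial.C (v s) := by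
      intro s
      refine Polynomial.funext fun z => ?_
      obtain ⟨c, hc⟩ := hnc 0 z
      have e1 : ∀ s, (P s).eval z = q.eval z * (c * v s) := by
        intro s
        have h1 := congrFun (hqP z) s
        rw [hc] at h1
        exact h1
      rw [Polynomial.eval_mul, Polynomial.eval_mul, Polynomial.eval_C, Polynomial.eval_C, e1, e1]
      ring
    ext s
    have h1 := congrArg (fun p => Polynomial.coeff p i) (hpol s)
    simp only [Polynomial.coeff_mul_C] at h1
    rw [hPc s i hi, hPc t i hi] at h1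
    simp only [Pi.smul_apply, smul_eq_mul]
    field_simp
    linear_combination h1
  · push Not at h0
    refine ⟨0, fun i hi => ⟨0, ?_⟩⟩
    ext s
    have h1 : P s = 0 := Polynomial.funext fun z => by
      have := congrFun (h0 z) s
      simpa [pv] using this
    rw [← hPc s i hi, h1]
    simp

theorem coef_shift (f : ℂ → Fin (n + 1) → ℂ) (w : ℂ) : coef (fun z => f (w + z)) 0 = coef f w := by
  funext m
  have h := congrFun (iteratedDeriv_comp_const_add m f w) 0
  simp only [coef]
  rw [h, add_zero]

theorem holIn_shift {X : Set (Fin (n + 1) → ℂ)} {f : ℂ → Fin (n + 1) → ℂ} (hf : HolIn X f) (w : ℂ) :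
    HolIn X fun z => f (w + z) :=
  ⟨hf.1.comp ((differentiable_const _).add differentiable_id), fun z => hf.2 (w + z)⟩

theorem coef_ne {f : ℂ → Fin (n + 1) → ℂ} (hf : Differentiable ℂ f)
    (h : ¬ ∃ P : Fin (n + 1) → Polynomial ℂ, f = pv P) (w : ℂ) (D : ℕ) : ∃ m, D < m ∧ coef f w m ≠ 0 := by
  by_contra hcon
  push Not at hcon
  refine h ⟨polA (coef f w) D w, ?_⟩
  funext z
  have h1 := polA_eval (c := coef f w) (D := D) hcon w z
  rw [ser_coef hf, add_sub_cancel] at h1
  exact h1.symm

/-- **Isolated terms and the central index.** Let `X` be a closed subset of `ℙⁿ` which contains no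
nonconstant rational curve of degree at most `d`. (1) There is `δ > 0` such that for every holomorphic
map from the plane to `X` the indices of different `δ`-isolated terms of its Taylor series differ by
more than `d`. (2) There is `R > 1` such that for every such map which is not given by polynomials the
central index increases by more than `d` between the radii `r` and `R r`, for arbitrarily large `r`. -/
theorem terms_apart {X : Set (Fin (n + 1) → ℂ)} (hX : IsClosed X)
    (hs : ∀ (a : ℂ), ∀ x ∈ X, a • x ∈ X) {d : ℕ} (h : RatFree X d) :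
    (∃ δ : ℝ, 0 < δ ∧ ∀ f, HolIn X f → ∀ (w : ℂ) (j k : ℕ) (r ρ : ℝ), 0 < r → r < ρ →
      Isolated (coef f w) δ j r → Isolated (coef f w) δ k ρ → k = j ∨ j + d < k) ∧
    ∃ R : ℝ, 1 < R ∧ ∀ f, HolIn X f → (¬ ∃ P : Fin (n + 1) → Polynomial ℂ, f = pv P) →
      ∀ (w : ℂ) (r₀ : ℝ), ∃ r > r₀,
        centralIndex (coef f w) r + d < centralIndex (coef f w) (R * r) := by
  obtain ⟨δ, hδ, hap⟩ := isolated_apart hX hs (noRat_of_ratFree hX hs h)
  refine ⟨⟨δ, hδ, fun f hf w j k r ρ hr hrρ hj hk => ?_⟩, ?_⟩
  · rw [← coef_shift f w] at hj hk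
    exact hap _ (holIn_shift hf w).1 (holIn_shift hf w).2 j k r ρ hr hrρ hj hk
  · -- a smaller `δ` below one
    have hδ' : 0 < min δ (1 / 2) := lt_min hδ (by norm_num)
    have hap' : ∀ F : ℂ → Fin (n + 1) → ℂ, Differentiable ℂ F → (∀ z, F z ≠ 0 ∧ F z ∈ X) →
        ∀ (j k : ℕ) (r ρ : ℝ), 0 < r → r < ρ → Isolated (coef F 0) (min δ (1 / 2)) j r →
          Isolated (coef F 0) (min δ (1 / 2)) k ρ → k = j ∨ j + d < k := by
      intro F hF hFX j k r ρ hr hrρ hj hk
      have hmono : ∀ (j : ℕ) (r : ℝ), 0 < r → Isolated (coef F 0) (min δ (1 / 2)) j r →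
          Isolated (coef F 0) δ j r := by
        intro j r hr hj
        refine ⟨hj.1, fun m hm => (hj.2 m hm).trans ?_⟩
        gcongr
        exact min_le_left _ _
      exact hap F hF hFX j k r ρ hr hrρ (hmono j r hr hj) (hmono k ρ (hr.trans hrρ) hk)
    obtain ⟨R, hR1, hR⟩ := central_index hδ' hap' ((min_le_right _ _).trans_lt (by norm_num))
    refine ⟨R, hR1, fun f hf hP w r0 => ?_⟩
    rw [← coef_shift f w]
    refine hR _ (holIn_shift hf w).1 (holIn_shift hf w).2 (fun D => ?_) r0
    rw [coef_shift f w]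
    exact coef_ne hf.1 hP w D

section arith

variable {ι : Type} {K : Type} [Field K]

/-- The projective variety `X = {F = 0}` over `K` has only finitely many points with coordinates in
`L`, for every finite extension `L` of `K`. -/
def FinitePoints (F : ι → MvPolynomial (Fin (n + 1)) K) : Prop :=
  ∀ (L : Type) [Field L] [Algebra K L] [FiniteDimensional K L],
    {p : ℙ L (Fin (n + 1) → L) | ∀ i, aeval p.rep (F i) = 0}.Finite

theorem ratFree_of_finite [CharZero K] {F : ι → MvPolynomial (Fin (n + 1)) K}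
    (hF : ∀ i, ∃ d, (F i).IsHomogeneous d) (hfin : FinitePoints F) (τ : K →+* ℂ) (d : ℕ) :
    RatFree {x : Fin (n + 1) → ℂ | ∀ i, eval x (map τ (F i)) = 0} d := by
  intro P _ hP hnc
  have h1 : FiniteOutside F (fun _ : Unit => (1 : MvPolynomial (Fin (n + 1)) K)) := by
    intro L _ _ _
    exact (hfin L).subset fun p hp => hp.1
  have h2 := rational_in_of_finite hF (fun _ => ⟨0, isHomogeneous_one _ _⟩) h1 τ P
    ⟨hP.1, fun z => (hP.2 z).1, fun z i => (hP.2 z).2 i⟩ hnc ⟨0, mem_univ _⟩ 0 ()
  simp at h2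

theorem cone_closed (F : ι → MvPolynomial (Fin (n + 1)) ℂ) :
    IsClosed {x : Fin (n + 1) → ℂ | ∀ i, eval x (F i) = 0} := by
  have : {x : Fin (n + 1) → ℂ | ∀ i, eval x (F i) = 0} = ⋂ i, {x | eval x (F i) = 0} := by
    ext x; simp
  rw [this]
  exact isClosed_iInter fun i => isClosed_singleton.preimage (cont_ev (F i))

theorem cone_smul {F : ι → MvPolynomial (Fin (n + 1)) ℂ} (hF : ∀ i, ∃ d, (F i).IsHomogeneous d)
    (a : ℂ) (x : Fin (n + 1) → ℂ) (hx : x ∈ {x : Fin (n + 1) → ℂ | ∀ i, eval x (F i) = 0}) :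
    a • x ∈ {x : Fin (n + 1) → ℂ | ∀ i, eval x (F i) = 0} := by
  intro i
  obtain ⟨d, hd⟩ := hF i
  rw [eval_smul_form hd, hx i, mul_zero]

end arith

end Pool.Agent.R871.SG
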