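import Pool.Agent.R871.SG.BubG

/-!
Strongly logarithmically concave sequences of coefficients have isolated terms.
-/

set_option autoImplicit false

namespace Pool.Agent.R871.SG

open Filter Topology Metric Set

variable {E : Type} [NormedAddCommGroup E]

theorem isolated_of_slopes {a : ℕ → E} (ha : ∀ m, a m ≠ 0) {δ : ℝ} (hδ : 0 < δ) {j : ℕ}
    {S T : ℝ} (hS : 0 < S) (hlow : ∀ i < j, ‖a i‖ ≤ S * ‖a (i + 1)‖)
    (hup : ∀ i, j ≤ i → T * ‖a (i + 1)‖ ≤ ‖a i‖) (hST : S ≤ δ ^ 2 * T) :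
    Isolated a δ j (S / δ) := by
  have hT : 0 < T := by
    by_contra h
    push Not at h
    have : δ ^ 2 * T ≤ 0 := mul_nonpos_of_nonneg_of_nonpos (by positivity) h
    linarith
  have h1 : ∀ t ≤ j, ‖a (j - t)‖ ≤ S ^ t * ‖a j‖ := by
    intro t
    induction t with
    | zero => intro _; simp
    | succ t ih =>
      intro ht
      have h2 := ih (by omega)
      have h3 := hlow (j - (t + 1)) (by omega)
      rw [show j - (t + 1) + 1 = j - t by omega] at h3
      calc _ ≤ _ := h3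
        _ ≤ S * (S ^ t * ‖a j‖) := by gcongr
        _ = _ := by rw [pow_succ]; ring
  have h4 : ∀ t, T ^ t * ‖a (j + t)‖ ≤ ‖a j‖ := by
    intro t
    induction t with
    | zero => simp
    | succ t ih =>
      have h3 := hup (j + t) (by omega)
      calc T ^ (t + 1) * ‖a (j + (t + 1))‖ = T ^ t * (T * ‖a (j + t + 1)‖) := by
            rw [pow_succ, ← add_assoc]; ring
        _ ≤ T ^ t * ‖a (j + t)‖ := by gcongr
        _ ≤ _ := ih
  refine ⟨ha j, fun m hm => ?_⟩
  rcases lt_or_gt_of_ne hm with h | h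
  · rw [show (m - j) + (j - m) = j - m by omega]
    have h5 := h1 (j - m) (by omega)
    rw [show j - (j - m) = m by omega] at h5
    have e1 : (S / δ) ^ j = (S / δ) ^ (j - m) * (S / δ) ^ m := by rw [← pow_add]; congr 1; omega
    have e2 : S ^ (j - m) = δ ^ (j - m) * (S / δ) ^ (j - m) := by
      rw [← mul_pow, mul_div_cancel₀ _ hδ.ne']
    calc ‖a m‖ * (S / δ) ^ m ≤ (S ^ (j - m) * ‖a j‖) * (S / δ) ^ m := by gcongr
      _ = δ ^ (j - m) * (‖a j‖ * (S / δ) ^ j) := by rw [e1, e2]; ring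
  · rw [show (m - j) + (j - m) = m - j by omega]
    have h5 := h4 (m - j)
    rw [show j + (m - j) = m by omega] at h5
    have e1 : (S / δ) ^ m = (S / δ) ^ (m - j) * (S / δ) ^ j := by rw [← pow_add]; congr 1; omega
    have h6 : S / δ ≤ δ * T := by
      rw [div_le_iff₀ hδ]
      calc S ≤ δ ^ 2 * T := hST
        _ = δ * T * δ := by ring
    calc ‖a m‖ * (S / δ) ^ m = ‖a m‖ * (S / δ) ^ (m - j) * (S / δ) ^ j := by rw [e1]; ring
      _ ≤ ‖a m‖ * (δ * T) ^ (m - j) * (S / δ) ^ j := by gcongr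
      _ = δ ^ (m - j) * ((T ^ (m - j) * ‖a m‖) * (S / δ) ^ j) := by rw [mul_pow]; ring
      _ ≤ δ ^ (m - j) * (‖a j‖ * (S / δ) ^ j) := by gcongr

theorem isolated_of_ratio {a : ℕ → E} (ha : ∀ m, a m ≠ 0)
    (ht : Tendsto (fun m => ‖a m‖ * ‖a (m + 2)‖ / ‖a (m + 1)‖ ^ 2) atTop (𝓝 0)) {δ : ℝ} (hδ : 0 < δ) :
    ∃ (j : ℕ) (r ρ : ℝ), 0 < r ∧ r < ρ ∧ Isolated a δ j r ∧ Isolated a δ (j + 1) ρ := by
  have hp : ∀ m, 0 < ‖a m‖ := fun m => norm_pos_iff.2 (ha m)
  set s : ℕ → ℝ := fun m => ‖a m‖ / ‖a (m + 1)‖ with hs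
  have hsp : ∀ m, 0 < s m := fun m => div_pos (hp m) (hp (m + 1))
  have hsa : ∀ m, ‖a m‖ = s m * ‖a (m + 1)‖ := fun m => by
    rw [hs]
    exact (div_mul_cancel₀ _ (hp (m + 1)).ne').symm
  set ε : ℝ := min (δ ^ 2) (1 / 2) with hε
  have hε0 : 0 < ε := lt_min (by positivity) (by norm_num)
  obtain ⟨M, hM⟩ := eventually_atTop.1 (ht.eventually_lt_const hε0)
  have hstep : ∀ m, M ≤ m → s m ≤ ε * s (m + 1) := by
    intro m hm
    have h1 := (hM m hm).le
    rw [div_le_iff₀ (pow_pos (hp (m + 1)) 2)] at h1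
    rw [hs]
    simp only
    rw [← mul_div_assoc, div_le_div_iff₀ (hp (m + 1)) (hp (m + 1 + 1))]
    calc _ ≤ _ := h1
      _ = _ := by ring
  have hstep2 : ∀ m, M ≤ m → 2 * s m ≤ s (m + 1) := by
    intro m hm
    have h1 := hstep m hm
    have h2 : ε ≤ 1 / 2 := min_le_right _ _
    have h3 := hsp (m + 1)
    nlinarith
  have hgrow : ∀ t, 2 ^ t * s M ≤ s (M + t) := by
    intro t
    induction t with
    | zero => simp
    | succ t ih =>
      have := hstep2 (M + t) (by omega)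
      calc (2 : ℝ) ^ (t + 1) * s M = 2 * (2 ^ t * s M) := by rw [pow_succ]; ring
        _ ≤ 2 * s (M + t) := by gcongr
        _ ≤ _ := this
  have hmono : ∀ i m, M ≤ i → i ≤ m → s i ≤ s m := by
    intro i m hi him
    obtain ⟨t, rfl⟩ : ∃ t, m = i + t := ⟨m - i, by omega⟩
    clear him
    induction t with
    | zero => exact le_rfl
    | succ t ih =>
      have h1 := hstep2 (i + t) (by omega)
      have h2 := hsp (i + t)
      calc s i ≤ s (i + t) := ih
        _ ≤ s (i + t + 1) := by linarith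
  -- a bound for the first slopes
  obtain ⟨B, hB⟩ : ∃ B : ℝ, ∀ i < M, s i ≤ B := by
    refine ⟨∑ i ∈ Finset.range M, s i, fun i hi => ?_⟩
    exact Finset.single_le_sum (f := s) (fun i _ => (hsp i).le) (Finset.mem_range.2 hi)
  have hinf : Tendsto (fun t : ℕ => (2 : ℝ) ^ t * s M) atTop atTop :=
    (tendsto_pow_atTop_atTop_of_one_lt (by norm_num)).atTop_mul_const (hsp M)
  obtain ⟨t, ht1⟩ := (hinf.eventually_ge_atTop B).exists
  have hlow : ∀ j, M + t ≤ j → ∀ i ≤ j, s i ≤ s j := by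
    intro j hj i hi
    by_cases h : i < M
    · calc s i ≤ B := hB i h
        _ ≤ _ := ht1
        _ ≤ s (M + t) := hgrow t
        _ ≤ s j := hmono _ _ (by omega) hj
    · exact hmono _ _ (by omega) hi
  have hiso : ∀ j, M + t + 1 ≤ j → Isolated a δ j (s (j - 1) / δ) := by
    intro j hj
    refine isolated_of_slopes ha hδ (hsp _) (T := s j) (fun i hi => ?_) (fun i hi => ?_) ?_
    · rw [hsa i]
      have := hlow (j - 1) (by omega) i (by omega)
      gcongr
    · rw [hsa i]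
      have := hmono j i (by omega) hi
      gcongr
    · have h1 := hstep (j - 1) (by omega)
      rw [show j - 1 + 1 = j by omega] at h1
      refine h1.trans ?_
      have : ε ≤ δ ^ 2 := min_le_left _ _
      have := hsp j
      gcongr
  refine ⟨M + t + 1, s (M + t + 1 - 1) / δ, s (M + t + 1 + 1 - 1) / δ, div_pos (hsp _) hδ, ?_,
    hiso _ le_rfl, hiso _ (by omega)⟩
  have h1 := hstep2 (M + t) (by omega)
  have h2 := hsp (M + t)
  have e1 : M + t + 1 - 1 = M + t := by omega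
  have e2 : M + t + 1 + 1 - 1 = M + t + 1 := by omega
  rw [e1, e2]
  gcongr
  linarith

end Pool.Agent.R871.SG
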