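import Mathlib

/-!
Power series with small tails which satisfy closed conditions are close to polynomials which satisfy
these conditions; a growth condition which gives small tails.
-/

set_option autoImplicit false

namespace Pool.Agent.R871.SG

open Filter Topology Metric Set

section comp

variable {E : Type} [NormedAddCommGroup E] [NormedSpace ℂ E]

/-- The sum of the power series with the coefficients `c m`. -/
noncomputable def ser (c : ℕ → E) (z : ℂ) : E := ∑' m, z ^ m • c m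

/-- The sequences with all terms of norm at most `B`. -/
def Bd (B : ℝ) : Set (ℕ → E) := {c | ∀ m, ‖c m‖ ≤ B}

omit [NormedSpace ℂ E] in
theorem bd_eq (B : ℝ) : (Bd B : Set (ℕ → E)) = Set.univ.pi fun _ : ℕ => closedBall (0 : E) B := by
  ext c
  simp [Bd, Set.mem_pi]

theorem bd_compact [ProperSpace E] (B : ℝ) : IsCompact (Bd B : Set (ℕ → E)) := by
  rw [bd_eq]
  exact isCompact_univ_pi (fun _ : ℕ => isCompact_closedBall (0 : E) B)

theorem bd_closed (B : ℝ) : IsClosed (Bd B : Set (ℕ → E)) := by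
  rw [bd_eq]
  exact isClosed_set_pi fun _ _ => isClosed_closedBall

theorem approx [ProperSpace E] (S : Set (ℕ → E)) (B : ℝ) (D : ℕ) (hS : IsClosed (S ∩ Bd B)) {ε : ℝ}
    (hε : 0 < ε) : ∃ δ > 0, ∀ c ∈ S, c ∈ Bd B → (∀ m, D < m → ‖c m‖ ≤ δ) →
      ∃ c' ∈ S, c' ∈ Bd B ∧ (∀ m, D < m → c' m = 0) ∧ ∀ m ≤ D, ‖c' m - c m‖ < ε := by
  by_contra hcon
  push Not at hcon
  have h1 : ∀ k : ℕ, ∃ c ∈ S, c ∈ Bd B ∧ (∀ m, D < m → ‖c m‖ ≤ 1 / ((k : ℝ) + 1)) ∧
      ∀ c' ∈ S, c' ∈ Bd B → (∀ m, D < m → c' m = 0) → ∃ m ≤ D, ε ≤ ‖c' m - c m‖ := fun k =>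
    hcon (1 / ((k : ℝ) + 1)) (by positivity)
  choose c hc hB ht hn using h1
  obtain ⟨a, ha, φ, hφ, hl⟩ := ((bd_compact B).of_isClosed_subset hS inter_subset_right).tendsto_subseq
    (x := c) fun k => ⟨hc k, hB k⟩
  have hl' : ∀ m, Tendsto (fun k => c (φ k) m) atTop (𝓝 (a m)) := fun m => tendsto_pi_nhds.1 hl m
  have ha0 : ∀ m, D < m → a m = 0 := by
    intro m hm
    have h2 : Tendsto (fun k => ‖c (φ k) m‖) atTop (𝓝 ‖a m‖) := (hl' m).norm
    have h3 : Tendsto (fun k : ℕ => 1 / ((φ k : ℝ) + 1)) atTop (𝓝 0) :=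
      tendsto_one_div_add_atTop_nhds_zero_nat.comp hφ.tendsto_atTop
    have h4 : ‖a m‖ ≤ 0 := le_of_tendsto_of_tendsto' h2 h3 fun k => ht (φ k) m hm
    exact norm_le_zero_iff.1 h4
  have h5 : ∀ᶠ k in atTop, ∀ m ∈ Finset.range (D + 1), ‖a m - c (φ k) m‖ < ε := by
    refine (Finset.range (D + 1)).eventually_all.2 fun m _ => ?_
    have h6 : Tendsto (fun k => ‖a m - c (φ k) m‖) atTop (𝓝 0) := by
      have := (tendsto_const_nhds (x := a m)).sub (hl' m)
      simpa using this.norm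
    exact h6.eventually_lt_const hε
  obtain ⟨k, hk⟩ := h5.exists
  obtain ⟨m, hm, hm2⟩ := hn (φ k) a ha.1 ha.2 ha0
  exact absurd (hk m (Finset.mem_range.2 (by omega))) (not_lt.2 hm2)

variable [CompleteSpace E]

theorem ser_cont (B : ℝ) {z : ℂ} (hz : ‖z‖ < 1) :
    ContinuousOn (fun c : ℕ → E => ser c z) (Bd B) := by
  refine continuousOn_tsum (u := fun m => ‖z‖ ^ m * B) (fun m => ?_)
    ((summable_geometric_of_lt_one (norm_nonneg z) hz).mul_right B) (fun m c hc => ?_)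
  · exact ((continuous_apply m).const_smul _).continuousOn
  · rw [norm_smul, norm_pow]
    exact mul_le_mul_of_nonneg_left (hc m) (by positivity)

theorem ser_summable {B : ℝ} {c : ℕ → E} (hc : c ∈ Bd B) {z : ℂ} (hz : ‖z‖ < 1) :
    Summable fun m => z ^ m • c m := by
  refine Summable.of_norm_bounded
    ((summable_geometric_of_lt_one (norm_nonneg z) hz).mul_right B) fun m => ?_
  rw [norm_smul, norm_pow]
  exact mul_le_mul_of_nonneg_left (hc m) (by positivity)

theorem ser_close {B η : ℝ} {c c' : ℕ → E} (hc : c ∈ Bd B) (hc' : c' ∈ Bd B)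
    (h : ∀ m, ‖c' m - c m‖ ≤ η) {z : ℂ} (hz : ‖z‖ ≤ 1 / 2) : ‖ser c' z - ser c z‖ ≤ 2 * η := by
  have hz1 : ‖z‖ < 1 := by linarith
  have h1 : ser c' z - ser c z = ∑' m, z ^ m • (c' m - c m) := by
    rw [ser, ser, ← (ser_summable hc' hz1).tsum_sub (ser_summable hc hz1)]
    exact tsum_congr fun m => (smul_sub _ _ _).symm
  have hη : 0 ≤ η := (norm_nonneg _).trans (h 0)
  have hg : HasSum (fun m : ℕ => (1 / 2 : ℝ) ^ m * η) (2 * η) := by
    have := hasSum_geometric_two.mul_right η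
    simpa using this
  rw [h1]
  refine tsum_of_norm_bounded hg fun m => ?_
  rw [norm_smul, norm_pow]
  exact mul_le_mul (pow_le_pow_left₀ (norm_nonneg z) hz m) (h m) (norm_nonneg _) (by positivity)

omit [CompleteSpace E] in
theorem ser_zero (c : ℕ → E) : ser c 0 = c 0 := by
  rw [ser, tsum_eq_single 0]
  · simp
  · intro m hm
    simp [hm]

end comp

section growth

/-- `φ r / log r` tends to infinity. -/
def Grows (φ : ℝ → ℝ) : Prop := Tendsto (fun r => φ r / Real.log r) atTop atTop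

variable {E : Type} [NormedAddCommGroup E] [NormedSpace ℂ E]

/-- For arbitrarily large `r`, `log ‖f z‖ ≤ φ r` on the disc of radius `r`. -/
def Slow (φ : ℝ → ℝ) (f : ℂ → E) : Prop :=
  ∀ R : ℝ, ∃ r > R, ∀ z, ‖z‖ ≤ r → Real.log ‖f z‖ ≤ φ r

/-- The Taylor coefficients of `f` at `w`. -/
noncomputable def coef (f : ℂ → E) (w : ℂ) (m : ℕ) : E := ((m.factorial : ℂ))⁻¹ • iteratedDeriv m f w

theorem coef_le [CompleteSpace E] {f : ℂ → E} (hf : Differentiable ℂ f) (w : ℂ) {R C : ℝ}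
    (hR : 0 < R) (h : ∀ z ∈ sphere w R, ‖f z‖ ≤ C) (m : ℕ) : ‖coef f w m‖ ≤ C / R ^ m := by
  have h1 := Complex.norm_iteratedDeriv_le_of_forall_mem_sphere_norm_le m hR hf.diffContOnCl h
  have hm : (0 : ℝ) < m.factorial := by exact_mod_cast m.factorial_pos
  rw [coef, norm_smul, norm_inv, Complex.norm_natCast]
  calc ((m.factorial : ℝ))⁻¹ * ‖iteratedDeriv m f w‖
      ≤ ((m.factorial : ℝ))⁻¹ * (m.factorial * C / R ^ m) := by gcongr
    _ = C / R ^ m := by field_simp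

theorem coef_ser [CompleteSpace E] {f : ℂ → E} (hf : Differentiable ℂ f) (w z : ℂ) (a : ℂ) :
    ser (fun m => a • coef f w m) z = a • f (w + z) := by
  have h := (Complex.hasSum_taylorSeries_of_entire hf w (w + z)).const_smul a
  rw [ser, ← h.tsum_eq]
  refine tsum_congr fun m => ?_
  simp only [coef, add_sub_cancel_left]
  rw [smul_comm (z ^ m) a, smul_comm (z ^ m) ((m.factorial : ℂ))⁻¹]

theorem growth (δ : ℕ → ℝ) (hδ : ∀ D, 0 < δ D) : ∃ φ : ℝ → ℝ, Grows φ ∧
    ∀ {E : Type} [NormedAddCommGroup E] [NormedSpace ℂ E] [CompleteSpace E] (f : ℂ → E),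
      Differentiable ℂ f → Slow φ f → ∀ (w : ℂ) (A : ℝ) (D₀ : ℕ), ∃ D ≥ D₀, ∀ m, D < m →
        A * ‖coef f w m‖ ≤ δ D := by
  obtain ⟨ρ, hρ⟩ : ∃ ρ : ℕ → ℝ, ∀ D : ℕ, (D : ℝ) + 2 ≤ ρ D ∧
      ((D : ℝ) * 2 ^ (D + 1) / δ D) ^ 2 ≤ ρ D :=
    ⟨fun D => max ((D : ℝ) + 2) (((D : ℝ) * 2 ^ (D + 1) / δ D) ^ 2), fun D =>
      ⟨le_max_left _ _, le_max_right _ _⟩⟩
  classical
  set N : ℝ → ℕ := fun r => Nat.findGreatest (fun D => ρ D ≤ r) ⌊r⌋₊ with hN
  have hNlim : ∀ D : ℕ, ∀ r, ρ D ≤ r → D ≤ N r ∧ ρ (N r) ≤ r := by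
    intro D r hr
    have hD : D ≤ ⌊r⌋₊ := Nat.le_floor (by linarith [(hρ D).1])
    exact ⟨Nat.le_findGreatest hD hr, Nat.findGreatest_spec (P := fun D => ρ D ≤ r) hD hr⟩
  refine ⟨fun r => (N r + 1 / 2) * Real.log r, ?_, ?_⟩
  · have h1 : Tendsto (fun r => ((N r : ℝ) + 1 / 2)) atTop atTop := by
      refine tendsto_atTop_mono (f := fun r => (N r : ℝ)) (fun r => by linarith) ?_
      refine tendsto_natCast_atTop_atTop.comp ?_
      refine tendsto_atTop.2 fun D => ?_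
      filter_upwards [eventually_ge_atTop (ρ D)] with r hr using (hNlim D r hr).1
    refine h1.congr' ?_
    filter_upwards [eventually_gt_atTop (1 : ℝ)] with r hr
    have := Real.log_pos hr
    field_simp
  · intro E _ _ _ f hf hs w A D₀
    obtain ⟨r, hr, hfr⟩ := hs (max (ρ (max D₀ ⌈A⌉₊)) (2 * ‖w‖ + 2))
    have hr1 : ρ (max D₀ ⌈A⌉₊) ≤ r := (le_max_left _ _).trans hr.le
    have hr2 : 2 * ‖w‖ + 2 ≤ r := (le_max_right _ _).trans hr.le
    have hw0 := norm_nonneg w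
    obtain ⟨hD1, hD2⟩ := hNlim _ _ hr1
    set D := N r with hDdef
    have hr0 : 0 < r := by linarith
    have hr1' : 2 ≤ r := by linarith
    refine ⟨D, (le_max_left _ _).trans hD1, fun m hm => ?_⟩
    have hAD : A ≤ D := (Nat.le_ceil A).trans (by exact_mod_cast (le_max_right _ _).trans hD1)
    have hC : ∀ z ∈ sphere w (r / 2), ‖f z‖ ≤ Real.exp (((D : ℝ) + 1 / 2) * Real.log r) := by
      intro z hz
      rw [mem_sphere_iff_norm] at hz
      have h3 : ‖z‖ ≤ r := by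
        have := norm_add_le (z - w) w
        rw [sub_add_cancel] at this
        linarith
      rcases eq_or_lt_of_le (norm_nonneg (f z)) with h4 | h4
      · rw [← h4]; positivity
      · exact (Real.log_le_iff_le_exp h4).1 (hfr z h3)
    have h5 := coef_le hf w (by positivity : (0 : ℝ) < r / 2) hC m
    have h6 : Real.exp (((D : ℝ) + 1 / 2) * Real.log r) / (r / 2) ^ m ≤ 2 ^ (D + 1) / Real.sqrt r := by
      have h7 : Real.exp (((D : ℝ) + 1 / 2) * Real.log r) = r ^ D * Real.sqrt r := by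
        rw [add_mul, Real.exp_add, mul_comm (D : ℝ), Real.exp_mul, Real.exp_log hr0,
          Real.rpow_natCast, mul_comm (1 / 2 : ℝ), Real.exp_mul, Real.exp_log hr0,
          Real.sqrt_eq_rpow]
      have hs0 : 0 < Real.sqrt r := Real.sqrt_pos.2 hr0
      have hss : Real.sqrt r * Real.sqrt r = r := Real.mul_self_sqrt hr0.le
      rw [h7]
      have h8 : (r / 2) ^ (D + 1) ≤ (r / 2) ^ m := pow_le_pow_right₀ (by linarith) hm
      calc r ^ D * Real.sqrt r / (r / 2) ^ m ≤ r ^ D * Real.sqrt r / (r / 2) ^ (D + 1) := by gcongr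
        _ = 2 ^ (D + 1) / Real.sqrt r := by
          rw [div_pow, div_eq_div_iff (by positivity) hs0.ne']
          rw [pow_succ r D]
          field_simp
          nlinarith [hss]
    have hDr : (D : ℝ) * 2 ^ (D + 1) / δ D ≤ Real.sqrt r := by
      refine Real.le_sqrt_of_sq_le ((hρ D).2.trans hD2)
    have hs0 : 0 < Real.sqrt r := Real.sqrt_pos.2 hr0
    have h9 : (D : ℝ) * (2 ^ (D + 1) / Real.sqrt r) ≤ δ D := by
      rw [div_le_iff₀ (hδ D)] at hDr
      rw [← mul_div_assoc, div_le_iff₀ hs0]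
      linarith
    calc A * ‖coef f w m‖ ≤ D * ‖coef f w m‖ := by gcongr
      _ ≤ D * (2 ^ (D + 1) / Real.sqrt r) := by gcongr; exact h5.trans h6
      _ ≤ δ D := h9

end growth

end Pool.Agent.R871.SG
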