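import Mathlib

/-!
Descent of polynomial curves from the complex numbers to finite extensions of the field of definition.
-/

set_option autoImplicit false

namespace Pool.Agent.R871.SG

open MvPolynomial

/-- A system of polynomial equations and one inequation over `K` with a solution in an extension field
has a solution in the algebraic closure of `K`. -/
theorem nss {K A : Type} [Field K] [Field A] [Algebra K A] {M J : Type} [Finite M]
    (E : J → MvPolynomial M K) (H : MvPolynomial M K) (x : M → A) (hE : ∀ j, aeval x (E j) = 0)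
    (hH : aeval x H ≠ 0) : ∃ y : M → AlgebraicClosure K, (∀ j, aeval y (E j) = 0) ∧ aeval y H ≠ 0 := by
  by_contra hcon
  push Not at hcon
  set I : Ideal (MvPolynomial M K) := Ideal.span (Set.range E) with hI
  have h1 : H ∈ vanishingIdeal K (zeroLocus (AlgebraicClosure K) I) := by
    rw [mem_vanishingIdeal_iff]
    intro y hy
    rw [mem_zeroLocus_iff] at hy
    exact hcon y fun j => hy (E j) (Ideal.subset_span (Set.mem_range_self j))
  rw [vanishingIdeal_zeroLocus_eq_radical] at h1
  obtain ⟨N, hN⟩ := h1
  have h2 : I ≤ RingHom.ker (aeval x : MvPolynomial M K →ₐ[K] A) := by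
    rw [hI, Ideal.span_le]
    rintro _ ⟨j, rfl⟩
    exact hE j
  have h3 := h2 hN
  rw [RingHom.mem_ker, map_pow] at h3
  exact hH (eq_zero_of_pow_eq_zero h3)

variable {K A : Type} [Field K] [CharZero K] [Field A] [Algebra K A] {σ ι : Type} [Fintype σ]

/-- A vector of polynomials over `A` with `F i (P) = 0` and `H (P (t 1), …, P (t r)) ≠ 0`, where `F i`
and `H` are defined over `K`, gives such a vector over a finite extension of `K`. -/
theorem descent {r : ℕ} (F : ι → MvPolynomial σ K) (H : MvPolynomial (Fin r × σ) K) (t : Fin r → ℤ)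
    (P : σ → Polynomial A) (hF : ∀ (z : ℤ) i, aeval (fun s => (P s).eval (z : A)) (F i) = 0)
    (hH : aeval (fun p : Fin r × σ => (P p.2).eval (t p.1 : A)) H ≠ 0) :
    ∃ L : IntermediateField K (AlgebraicClosure K), FiniteDimensional K L ∧
      ∃ Q : σ → Polynomial L, (∀ z i, aeval (fun s => (Q s).eval z) (F i) = 0) ∧
        aeval (fun p : Fin r × σ => (Q p.2).eval (t p.1 : L)) H ≠ 0 := by
  classical
  set D : ℕ := ∑ s, (P s).natDegree with hD
  have hDs : ∀ s, (P s).natDegree < D + 1 := fun s =>
    Nat.lt_succ_of_le (Finset.single_le_sum (f := fun s => (P s).natDegree)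
      (fun _ _ => Nat.zero_le _) (Finset.mem_univ s))
  -- the generic polynomial
  set PX : ℤ → σ → MvPolynomial (Fin (D + 1) × σ) K := fun z s =>
    ∑ m : Fin (D + 1), C ((z : K) ^ (m : ℕ)) * X (m, s) with hPX
  set x : Fin (D + 1) × σ → A := fun q => (P q.2).coeff q.1 with hx
  have hxP : ∀ (z : ℤ) s, aeval x (PX z s) = (P s).eval (z : A) := by
    intro z s
    rw [Polynomial.eval_eq_sum_range' (hDs s), Finset.sum_range, hPX]
    simp only [map_sum, map_mul, aeval_C, aeval_X, hx, map_pow, map_intCast]
    exact Finset.sum_congr rfl fun m _ => mul_comm _ _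
  obtain ⟨y, hy1, hy2⟩ := nss (fun p : ℤ × ι => aeval (PX p.1) (F p.2))
    (aeval (fun p : Fin r × σ => PX (t p.1) p.2) H) x (fun p => by
      rw [← AlgHom.comp_apply, comp_aeval]
      simp only [hxP]
      exact hF p.1 p.2) (by
      rw [← AlgHom.comp_apply, comp_aeval]
      simp only [hxP]
      exact hH)
  set L : IntermediateField K (AlgebraicClosure K) := IntermediateField.adjoin K (Set.range y)
    with hL
  have hfin : FiniteDimensional K L :=
    IntermediateField.finiteDimensional_adjoin fun a _ =>
      (Algebra.IsAlgebraic.isAlgebraic (R := K) a).isIntegral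
  set y' : Fin (D + 1) × σ → L := fun q =>
    ⟨y q, IntermediateField.subset_adjoin K _ (Set.mem_range_self q)⟩ with hy'
  set Q : σ → Polynomial L := fun s =>
    ∑ m : Fin (D + 1), Polynomial.C (y' (m, s)) * Polynomial.X ^ (m : ℕ) with hQ
  have hQe : ∀ (z : ℤ) s, algebraMap L (AlgebraicClosure K) ((Q s).eval (z : L)) =
      aeval y (PX z s) := by
    intro z s
    simp only [hQ, hPX, Polynomial.eval_finsetSum, Polynomial.eval_mul, Polynomial.eval_C,
      Polynomial.eval_pow, Polynomial.eval_X, map_sum, map_mul, aeval_C, aeval_X, map_pow,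
      map_intCast]
    exact Finset.sum_congr rfl fun m _ => mul_comm _ _
  have hinj : Function.Injective (algebraMap L (AlgebraicClosure K)) := (algebraMap L _).injective
  have hkey : ∀ (z : ℤ) i, aeval (fun s => (Q s).eval (z : L)) (F i) = 0 := by
    intro z i
    apply hinj
    have h1 := hy1 (z, i)
    simp only at h1
    rw [← AlgHom.comp_apply, comp_aeval] at h1
    rw [map_zero, ← h1]
    have h2 : (fun i => aeval y (PX z i)) = fun i => algebraMap L (AlgebraicClosure K)
      ((Q i).eval (z : L)) := by
      funext s; rw [hQe]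
    rw [h2]
    have h3 := comp_aeval (R := K) (fun s => (Q s).eval (z : L))
      (IsScalarTower.toAlgHom K L (AlgebraicClosure K))
    have h4 := congrArg (fun g => g (F i)) h3
    simpa using h4
  refine ⟨L, hfin, Q, fun z i => ?_, ?_⟩
  · -- a polynomial identity
    set R : Polynomial L := aeval Q (F i) with hR
    have hRe : ∀ z : L, R.eval z = aeval (fun s => (Q s).eval z) (F i) := by
      intro z
      have h3 := comp_aeval (R := K) Q ((Polynomial.aeval z).restrictScalars K : Polynomial L →ₐ[K] L)
      have h4 := congrArg (fun g => g (F i)) h3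
      simpa [Polynomial.coe_aeval_eq_eval] using h4
    have hR0 : R = 0 := by
      refine Polynomial.eq_zero_of_infinite_isRoot _ (Set.Infinite.mono
        (s := Set.range fun z : ℤ => (z : L)) ?_ (Set.infinite_range_of_injective Int.cast_injective))
      rintro _ ⟨z, rfl⟩
      change R.eval (z : L) = 0
      rw [hRe]
      exact hkey z i
    rw [← hRe, hR0, Polynomial.eval_zero]
  · intro h0
    apply hy2
    rw [← AlgHom.comp_apply, comp_aeval]
    have h2 : (fun p : Fin r × σ => aeval y (PX (t p.1) p.2)) = fun p =>
        algebraMap L (AlgebraicClosure K) ((Q p.2).eval (t p.1 : L)) := by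
      funext p; rw [hQe]
    have h3 := comp_aeval (R := K) (fun p : Fin r × σ => (Q p.2).eval (t p.1 : L))
      (IsScalarTower.toAlgHom K L (AlgebraicClosure K))
    have h4 := congrArg (fun g => g H) h3
    simp only [AlgHom.coe_comp, Function.comp_apply, h0, map_zero] at h4
    rw [h2]
    simpa using h4.symm

end Pool.Agent.R871.SG
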