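import Pool.Agent.R871.SG.LogE

/-!
Bubbles and discs: holomorphic discs in `X ∖ D` of bounded index.
-/

set_option autoImplicit false

namespace Pool.Agent.R871.SG

open Filter Topology Metric Set

section bubble

open MvPolynomial

variable {n : ℕ}

/-- All polynomial curves of degree at most `d` in the cone `X` which lie in the hypersurface
`{H = 0}`, or which do not meet it, are constant (as curves in the projective space) or lie in the
cone `Z`. -/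
def LineFree (X Z : Set (Fin (n + 1) → ℂ)) (H : MvPolynomial (Fin (n + 1)) ℂ) (d : ℕ) : Prop :=
  ∀ b : ℕ → Fin (n + 1) → ℂ, (∀ z : ℂ, ∑ i ∈ Finset.range (d + 1), z ^ i • b i ∈ X) →
    ((∀ z : ℂ, eval (∑ i ∈ Finset.range (d + 1), z ^ i • b i) H = 0) ∨
      ∀ z : ℂ, eval (∑ i ∈ Finset.range (d + 1), z ^ i • b i) H ≠ 0) →
    (∃ v : Fin (n + 1) → ℂ, ∀ i ≤ d, ∃ a : ℂ, b i = a • v) ∨
      ∀ z : ℂ, ∑ i ∈ Finset.range (d + 1), z ^ i • b i ∈ Z

theorem bubble3 {X Z : Set (Fin (n + 1) → ℂ)} (hX : IsClosed X) (hZ : IsClosed Z)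
    (hs : ∀ (a : ℂ), ∀ x ∈ X, a • x ∈ X) (hZs : ∀ (a : ℂ), ∀ x ∈ Z, a • x ∈ Z)
    {H : MvPolynomial (Fin (n + 1)) ℂ} (hH : ∃ e, H.IsHomogeneous e) {d : ℕ}
    (hR : LineFree X Z H d) :
    ∀ μ : ℕ, 1 ≤ μ → μ ≤ d → ∀ (v : Fin (n + 1) → ℂ) (q : Polynomial ℂ) (ρ : ℝ), v ≠ 0 → 0 < ρ →
      (∀ j < μ, q.coeff j = 0) → q.coeff μ ≠ 0 →
      (∀ ε > 0, ∃ f : ℂ → Fin (n + 1) → ℂ, DifferentiableOn ℂ f (ball 0 ρ) ∧
        (∀ z ∈ ball (0 : ℂ) ρ, f z ≠ 0 ∧ f z ∈ {x | x ∈ X ∧ eval x H ≠ 0}) ∧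
        ∀ z ∈ ball (0 : ℂ) ρ, ‖f z - q.eval z • v‖ ≤ ε) → v ∈ Z := by
  intro μ
  induction μ using Nat.strong_induction_on with
  | _ μ ih =>
  intro hμ hμd v q ρ hv hρ hqj hqμ h
  obtain ⟨g, hg1, hg2⟩ := exists_dual_vector ℂ v (norm_ne_zero_iff.2 hv)
  have hgv : g v ≠ 0 := by
    rw [hg2]
    simpa using hv
  have hYs : ∀ (a : ℂ), a ≠ 0 → ∀ x ∈ {x : Fin (n + 1) → ℂ | x ∈ X ∧ eval x H ≠ 0},
      a • x ∈ {x : Fin (n + 1) → ℂ | x ∈ X ∧ eval x H ≠ 0} := by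
    intro a ha x hx
    obtain ⟨e, he⟩ := hH
    refine ⟨hs a x hx.1, ?_⟩
    rw [eval_smul_form he]
    exact mul_ne_zero (pow_ne_zero _ ha) hx.2
  obtain ⟨b, hbμ, hbl, hgb, ⟨j1, hj1, hj1n⟩, hconv⟩ :=
    bubble_step hYs μ hμ v q ρ g hg1 hgv hρ hqj hqμ h
  have hsum : ∀ z : ℂ, ∑ i ∈ Finset.range (d + 1), z ^ i • b i =
      ∑ j ∈ Finset.range (μ + 1), z ^ j • b j := by
    intro z
    refine (Finset.sum_subset (Finset.range_subset_range.2 (by omega)) fun j _ hj => ?_).symm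
    rw [Finset.mem_range, not_lt] at hj
    rw [hbl j (by omega), smul_zero]
  -- the limit lies in the cone
  have hQX : ∀ w : ℂ, ∑ j ∈ Finset.range (μ + 1), w ^ j • b j ∈ X := by
    intro w
    refine hX.closure_subset (Metric.mem_closure_iff.2 fun ε hε => ?_)
    obtain ⟨f, _, hf2, hf3⟩ := hconv (‖w‖ + 1) (by positivity) (ε / 2) (half_pos hε)
    have hw : w ∈ ball (0 : ℂ) (‖w‖ + 1) := by
      rw [mem_ball_zero_iff]; linarith
    refine ⟨f w, (hf2 w hw).2.1, ?_⟩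
    rw [dist_comm, dist_eq_norm]
    exact (hf3 w hw).trans_lt (half_lt_self hε)
  have hdich : (∀ z : ℂ, eval (∑ i ∈ Finset.range (d + 1), z ^ i • b i) H = 0) ∨
      ∀ z : ℂ, eval (∑ i ∈ Finset.range (d + 1), z ^ i • b i) H ≠ 0 := by
    by_cases h0 : ∀ z : ℂ, eval (∑ i ∈ Finset.range (d + 1), z ^ i • b i) H = 0
    · exact Or.inl h0
    right
    intro z
    rcases hurwitz H b d z one_pos (fun ε hε => by
      obtain ⟨f, hf1, hf2, hf3⟩ := hconv (‖z‖ + 2) (by positivity) ε hε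
      have hsub : ball z 1 ⊆ ball (0 : ℂ) (‖z‖ + 2) := by
        intro y hy
        rw [mem_ball_iff_norm] at hy
        rw [mem_ball_zero_iff]
        have := norm_le_norm_add_norm_sub' y z
        linarith
      exact ⟨f, hf1.mono hsub, fun y hy => (hf2 y (hsub hy)).2.2, fun y hy => by
        rw [hsum]; exact hf3 y (hsub hy)⟩) with h1 | h1
    · exact absurd h1 h0
    · exact h1
  rcases hR b (fun z => by rw [hsum]; exact hQX z) hdich with ⟨v', hv'⟩ | hQZ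
  · choose! a ha using hv'
    have hbμ0 : b μ ≠ 0 := by rw [hbμ]; exact smul_ne_zero hqμ hv
    have haμ : a μ ≠ 0 := by
      intro h0
      apply hbμ0
      rw [ha μ hμd, h0, zero_smul]
    have hv'0 : v' ≠ 0 := by
      rintro rfl
      apply hbμ0
      rw [ha μ hμd, smul_zero]
    have hgv' : g v' ≠ 0 := by
      intro h0
      have h1 := ha μ hμd
      rw [hbμ] at h1
      have h2 := congrArg g h1
      rw [map_smul, map_smul, h0, smul_zero, smul_eq_mul, mul_eq_zero] at h2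
      exact h2.elim hqμ hgv
    have ha0 : a 0 = 0 := by
      rw [ha 0 (by omega), map_smul, smul_eq_mul, mul_eq_zero] at hgb
      exact hgb.resolve_right hgv'
    -- the new polynomial
    set q' : Polynomial ℂ := ∑ j ∈ Finset.range (μ + 1), Polynomial.C (a j) * Polynomial.X ^ j with hq'
    have hq'c : ∀ j ≤ μ, q'.coeff j = a j := by
      intro j hj
      rw [hq', Polynomial.finsetSum_coeff]
      simp only [Polynomial.coeff_C_mul, Polynomial.coeff_X_pow, mul_ite, mul_one, mul_zero]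
      rw [Finset.sum_ite_eq]
      simp [Nat.lt_succ_iff.2 hj]
    have hq'e : ∀ w, q'.eval w • v' = ∑ j ∈ Finset.range (μ + 1), w ^ j • b j := by
      intro w
      rw [hq', Polynomial.eval_finsetSum, Finset.sum_smul]
      refine Finset.sum_congr rfl fun j hj => ?_
      have hj' : j ≤ d := by
        have := Finset.mem_range.1 hj
        omega
      rw [ha j hj', smul_smul, Polynomial.eval_mul, Polynomial.eval_C, Polynomial.eval_pow,
        Polynomial.eval_X, mul_comm]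
    have haj1 : q'.coeff j1 ≠ 0 := by
      rw [hq'c j1 hj1.le]
      intro h0
      have h1 := ha j1 (by omega)
      rw [h0, zero_smul] at h1
      rw [h1, norm_zero] at hj1n
      exact zero_ne_one hj1n
    classical
    have hex : ∃ j, q'.coeff j ≠ 0 := ⟨j1, haj1⟩
    have hlt : Nat.find hex < μ := (Nat.find_min' hex haj1).trans_lt hj1
    have hge : 1 ≤ Nat.find hex := by
      rw [Nat.one_le_iff_ne_zero]
      intro h0
      have := Nat.find_spec hex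
      rw [h0, hq'c 0 (by omega)] at this
      exact this ha0
    have hv'Z : v' ∈ Z := ih (Nat.find hex) hlt hge (by omega) v' q' 1 hv'0 one_pos
      (fun j hj => not_not.1 (Nat.find_min hex hj)) (Nat.find_spec hex) fun ε hε => by
        obtain ⟨f, hf1, hf2, hf3⟩ := hconv 1 one_pos ε hε
        exact ⟨f, hf1, hf2, fun z hz => by rw [hq'e]; exact hf3 z hz⟩
    have hv : v = ((q.coeff μ)⁻¹ * a μ) • v' := by
      rw [mul_smul, ← ha μ hμd, hbμ, smul_smul, inv_mul_cancel₀ hqμ, one_smul]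
    rw [hv]
    exact hZs _ _ hv'Z
  · -- the leading coefficient of a curve in `Z`
    have h1 : ∀ w : ℂ, w ≠ 0 → (w ^ μ)⁻¹ • ∑ j ∈ Finset.range (μ + 1), w ^ j • b j ∈ Z := by
      intro w _
      have := hQZ w
      rw [hsum] at this
      exact hZs _ _ this
    have h2 : Tendsto (fun k : ℕ => ((((k : ℂ) + 1)) ^ μ)⁻¹ •
        ∑ j ∈ Finset.range (μ + 1), ((k : ℂ) + 1) ^ j • b j) atTop (𝓝 (b μ)) := by
      have h3 : ∀ k : ℕ, (((k : ℂ) + 1) ^ μ)⁻¹ • ∑ j ∈ Finset.range (μ + 1), ((k : ℂ) + 1) ^ j • b j =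
          ∑ j ∈ Finset.range μ, (((k : ℂ) + 1)⁻¹ ^ (μ - j)) • b j + b μ := by
        intro k
        have hk : (k : ℂ) + 1 ≠ 0 := by exact_mod_cast Nat.succ_ne_zero k
        rw [Finset.sum_range_succ, smul_add, smul_smul, inv_mul_cancel₀ (pow_ne_zero _ hk), one_smul,
          Finset.smul_sum]
        congr 1
        refine Finset.sum_congr rfl fun j hj => ?_
        have hj' : j < μ := Finset.mem_range.1 hj
        rw [smul_smul]
        congr 1
        have e2 : ((k : ℂ) + 1) ^ μ = ((k : ℂ) + 1) ^ (μ - j) * ((k : ℂ) + 1) ^ j := by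
          rw [← pow_add]; congr 1; omega
        rw [e2, mul_inv, mul_assoc, inv_mul_cancel₀ (pow_ne_zero _ hk), mul_one, inv_pow]
      simp only [h3]
      have h4 : Tendsto (fun k : ℕ => ((k : ℂ) + 1)⁻¹) atTop (𝓝 0) := by
        have h5 := (tendsto_one_div_add_atTop_nhds_zero_nat (𝕜 := ℂ))
        simpa [one_div] using h5
      have h6 : ∀ j ∈ Finset.range μ, Tendsto (fun k : ℕ => (((k : ℂ) + 1)⁻¹ ^ (μ - j)) • b j) atTop
          (𝓝 0) := by
        intro j hj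
        have hj' : j < μ := Finset.mem_range.1 hj
        have h7 := (h4.pow (μ - j)).smul_const (b j)
        rwa [zero_pow (by omega), zero_smul] at h7
      have h8 := (tendsto_finsetSum _ h6).add_const (b μ)
      simpa using h8
    have h9 : b μ ∈ Z := hZ.mem_of_tendsto h2 (Eventually.of_forall fun k =>
      h1 _ (by exact_mod_cast Nat.succ_ne_zero k))
    rw [hbμ] at h9
    have h10 := hZs (q.coeff μ)⁻¹ _ h9
    rwa [smul_smul, inv_mul_cancel₀ hqμ, one_smul] at h10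

end bubble

section disc

variable {E : Type} [NormedAddCommGroup E] [NormedSpace ℂ E]

/-- The function near a centre with a small value. -/
theorem disc_fun [CompleteSpace E] {a : ℕ → E} {F : ℂ → E} {N : ℝ} {j d : ℕ}
    (hsum : ∀ z : ℂ, ‖z‖ < 1 → HasSum (fun m : ℕ => z ^ m • a m) (F z)) (hj : j ≤ d)
    (hmax : ∀ m, ‖a m‖ ≤ ‖a j‖) (h0 : a 0 ≠ 0) (hN : 2 ≤ N) (hN2 : N ^ d * ‖a 0‖ < ‖a j‖) :
    ∃ (s : ℝ) (b : ℕ → E), 0 < s ∧ s < 1 / N ∧ b 0 = ((‖a 0‖⁻¹ : ℝ) : ℂ) • a 0 ∧ ‖b 0‖ = 1 ∧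
      (∀ l ≤ d, ‖b l‖ ≤ 1) ∧ (∃ l, 1 ≤ l ∧ l ≤ d ∧ ‖b l‖ = 1) ∧
      ∀ R : ℝ, 1 ≤ R → R * (1 / N) ≤ 1 / 2 → ∀ w : ℂ, ‖w‖ ≤ R → ‖(s : ℂ) * w‖ < 1 ∧
        ‖((‖a 0‖⁻¹ : ℝ) : ℂ) • F ((s : ℂ) * w) - ∑ l ∈ Finset.range (d + 1), w ^ l • b l‖ ≤
          2 * R ^ (d + 1) * (1 / N) := by
  have hN0 : 0 < N := by linarith
  have hA : 0 < ‖a 0‖ := norm_pos_iff.2 h0
  have hNd : 1 ≤ N ^ d := one_le_pow₀ (by linarith)
  have hj1 : 1 ≤ j := by
    rcases Nat.eq_zero_or_pos j with h | h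
    · subst h
      nlinarith
    · exact h
  have hB : 0 < ‖a j‖ := by nlinarith
  set f : ℕ → ℝ := fun l => (‖a l‖ / ‖a 0‖) ^ ((l : ℝ)⁻¹) with hf
  have hf0 : ∀ l, 0 ≤ f l := fun l => Real.rpow_nonneg (by positivity) _
  have hfp : ∀ l, 1 ≤ l → f l ^ l = ‖a l‖ / ‖a 0‖ := fun l hl =>
    Real.rpow_inv_natCast_pow (by positivity) (by omega)
  obtain ⟨l0, hl0, hmx⟩ := Finset.exists_max_image (Finset.Icc 1 d) f ⟨j, Finset.mem_Icc.2 ⟨hj1, hj⟩⟩
  obtain ⟨hl1, hl2⟩ := Finset.mem_Icc.1 hl0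
  set σ := f l0 with hσ
  have hfj : 0 < f j := Real.rpow_pos_of_pos (by positivity) _
  have hσ0 : 0 < σ := hfj.trans_le (hmx j (Finset.mem_Icc.2 ⟨hj1, hj⟩))
  have hwin : ∀ l : ℕ, 1 ≤ l → l ≤ d → ‖a l‖ * σ⁻¹ ^ l ≤ ‖a 0‖ := by
    intro l h1 h2
    have h3 : ‖a l‖ / ‖a 0‖ ≤ σ ^ l := by
      rw [← hfp l h1]
      exact pow_le_pow_left₀ (hf0 l) (hmx l (Finset.mem_Icc.2 ⟨h1, h2⟩)) _
    rw [inv_pow, ← div_eq_mul_inv, div_le_iff₀ (by positivity), mul_comm]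
    exact (div_le_iff₀ hA).1 h3
  have heq : ‖a l0‖ * σ⁻¹ ^ l0 = ‖a 0‖ := by
    have h3 := hfp l0 hl1
    rw [eq_div_iff hA.ne'] at h3
    rw [inv_pow, ← div_eq_mul_inv, div_eq_iff (by positivity), mul_comm ‖a 0‖]
    exact h3.symm
  set s : ℝ := σ⁻¹ with hs
  have hs0 : 0 < s := inv_pos.2 hσ0
  have hsN : s < 1 / N := by
    have h1 := hwin j hj1 hj
    have h2 : s ^ j < (1 / N) ^ j := by
      have h3 : (N ^ d * s ^ j) * ‖a 0‖ < 1 * ‖a 0‖ := by
        calc (N ^ d * s ^ j) * ‖a 0‖ = (N ^ d * ‖a 0‖) * s ^ j := by ring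
          _ < ‖a j‖ * s ^ j := by gcongr
          _ ≤ ‖a 0‖ := h1
          _ = _ := (one_mul _).symm
      have h4 : N ^ d * s ^ j < 1 := lt_of_mul_lt_mul_right h3 hA.le
      have h5 : N ^ j * s ^ j ≤ N ^ d * s ^ j := by
        have : N ^ j ≤ N ^ d := pow_le_pow_right₀ (by linarith) hj
        gcongr
      rw [one_div_pow, lt_div_iff₀ (pow_pos hN0 j), mul_comm (s ^ j)]
      linarith
    exact lt_of_pow_lt_pow_left₀ j (by positivity) h2
  have hs1 : s ≤ 1 := by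
    have : 1 / N ≤ 1 := by
      rw [div_le_one hN0]; linarith
    linarith
  -- the higher terms
  have hhigh : ∀ m : ℕ, d < m → ‖a m‖ * s ^ m ≤ ‖a 0‖ * s ^ (m - d) := by
    intro m hm
    have h1 := hwin j hj1 hj
    calc ‖a m‖ * s ^ m ≤ ‖a j‖ * s ^ m := by gcongr; exact hmax m
      _ = (‖a j‖ * s ^ j) * s ^ (m - j) := by
          rw [mul_assoc, ← pow_add]; congr 2; omega
      _ ≤ ‖a 0‖ * s ^ (m - j) := by gcongr
      _ ≤ ‖a 0‖ * s ^ (m - d) := by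
          have : s ^ (m - j) ≤ s ^ (m - d) := pow_le_pow_of_le_one hs0.le hs1 (by omega)
          gcongr
  have hbn : ∀ l : ℕ, ‖((s ^ l / ‖a 0‖ : ℝ) : ℂ) • a l‖ = ‖a l‖ * s ^ l / ‖a 0‖ := by
    intro l
    rw [norm_smul, Complex.norm_real, Real.norm_of_nonneg (by positivity)]
    ring
  refine ⟨s, fun l => ((s ^ l / ‖a 0‖ : ℝ) : ℂ) • a l, hs0, hsN, ?_, ?_, fun l hl => ?_,
    ⟨l0, hl1, hl2, ?_⟩, fun R hR1 hRN w hw => ?_⟩
  · simp only [pow_zero, one_div]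
  · rw [hbn, pow_zero, mul_one, div_self hA.ne']
  · rw [hbn, div_le_one hA]
    rcases Nat.eq_zero_or_pos l with rfl | hl0
    · simp
    · exact hwin l hl0 hl
  · rw [hbn, heq, div_self hA.ne']
  have hRs : R * s ≤ 1 / 2 := by
    have : R * s ≤ R * (1 / N) := by gcongr
    linarith
  have hR0 : 0 < R := by linarith
  have hswn : ‖(s : ℂ) * w‖ = s * ‖w‖ := by
    rw [norm_mul, Complex.norm_real, Real.norm_of_nonneg hs0.le]
  have hsw : ‖(s : ℂ) * w‖ < 1 := by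
    rw [hswn]
    have : s * ‖w‖ ≤ s * R := by gcongr
    linarith
  refine ⟨hsw, ?_⟩
  set u : ℕ → E := fun t => ((‖a 0‖⁻¹ : ℝ) : ℂ) • (((s : ℂ) * w) ^ t • a t) with hu
  have h1 : HasSum u (((‖a 0‖⁻¹ : ℝ) : ℂ) • F ((s : ℂ) * w)) := (hsum _ hsw).const_smul _
  have hmid : ∑ t ∈ Finset.range (d + 1), u t =
      ∑ l ∈ Finset.range (d + 1), w ^ l • (((s ^ l / ‖a 0‖ : ℝ) : ℂ) • a l) := by
    refine Finset.sum_congr rfl fun l _ => ?_
    rw [hu]
    simp only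
    rw [smul_smul, smul_smul]
    congr 1
    push_cast
    rw [mul_pow]
    ring
  have h2 : HasSum (fun t => u (t + (d + 1)))
      (((‖a 0‖⁻¹ : ℝ) : ℂ) • F ((s : ℂ) * w) - ∑ t ∈ Finset.range (d + 1), u t) :=
    (hasSum_nat_add_iff' (d + 1)).2 h1
  have hun : ∀ t : ℕ, ‖u (t + (d + 1))‖ ≤ (R ^ (d + 1) * s) * (1 / 2) ^ t := by
    intro t
    have h3 := hhigh (t + (d + 1)) (by omega)
    rw [hu]
    simp only
    rw [norm_smul, norm_smul, Complex.norm_real, norm_pow, hswn, Real.norm_of_nonneg (by positivity)]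
    calc ‖a 0‖⁻¹ * ((s * ‖w‖) ^ (t + (d + 1)) * ‖a (t + (d + 1))‖)
        = ‖a 0‖⁻¹ * (‖w‖ ^ (t + (d + 1)) * (‖a (t + (d + 1))‖ * s ^ (t + (d + 1)))) := by
          rw [mul_pow]; ring
      _ ≤ ‖a 0‖⁻¹ * (‖w‖ ^ (t + (d + 1)) * (‖a 0‖ * s ^ (t + (d + 1) - d))) := by gcongr
      _ = ‖w‖ ^ (t + (d + 1)) * s ^ (t + 1) := by
          rw [show t + (d + 1) - d = t + 1 by omega]
          field_simp
      _ ≤ R ^ (t + (d + 1)) * s ^ (t + 1) := by gcongr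
      _ = (R ^ (d + 1) * s) * (R * s) ^ t := by
          rw [mul_pow, pow_add R, pow_succ s]
          ring
      _ ≤ (R ^ (d + 1) * s) * (1 / 2) ^ t := by gcongr
  have hgeo : HasSum (fun t : ℕ => (R ^ (d + 1) * s) * (1 / 2) ^ t) ((R ^ (d + 1) * s) * 2) := by
    have := hasSum_geometric_two
    exact this.mul_left _
  have h3 := tsum_of_norm_bounded hgeo hun
  rw [h2.tsum_eq, hmid] at h3
  refine h3.trans ?_
  calc (R ^ (d + 1) * s) * 2 ≤ (R ^ (d + 1) * (1 / N)) * 2 := by gcongr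
    _ = _ := by ring

end disc

end Pool.Agent.R871.SG
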