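import Pool.Agent.R871.SG.DiscA

/-!
Holomorphic discs of bounded index in `X ∖ D`: the main theorem.
-/

set_option autoImplicit false

namespace Pool.Agent.R871.SG

open Filter Topology Metric Set MvPolynomial

variable {n : ℕ}

/-- `F` is given on the disc of radius `r` by the power series with coefficients `a`; it is holomorphic
there, has no zeros, has values in `X` and does not meet `{H = 0}`. -/
def DiscIn (X : Set (Fin (n + 1) → ℂ)) (H : MvPolynomial (Fin (n + 1)) ℂ) (r : ℝ)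
    (F : ℂ → Fin (n + 1) → ℂ) (a : ℕ → Fin (n + 1) → ℂ) : Prop :=
  DifferentiableOn ℂ F (ball 0 r) ∧
    ∀ z : ℂ, ‖z‖ < r → HasSum (fun m : ℕ => z ^ m • a m) (F z) ∧ F z ≠ 0 ∧ F z ∈ X ∧
      eval (F z) H ≠ 0

theorem discIn_zero {X : Set (Fin (n + 1) → ℂ)} {H : MvPolynomial (Fin (n + 1)) ℂ} {r : ℝ}
    {F : ℂ → Fin (n + 1) → ℂ} {a : ℕ → Fin (n + 1) → ℂ} (h : DiscIn X H r F a) (hr : 0 < r) :
    F 0 = a 0 := by
  have h1 := (h.2 0 (by simpa using hr)).1
  have h2 : HasSum (fun m : ℕ => (0 : ℂ) ^ m • a m) (a 0) := by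
    have := hasSum_single (f := fun m : ℕ => (0 : ℂ) ^ m • a m) 0 (fun m hm => by
      rw [zero_pow hm, zero_smul])
    simpa using this
  exact h1.unique h2

theorem disc_bound1 {X Z : Set (Fin (n + 1) → ℂ)} (hX : IsClosed X) (hZ : IsClosed Z)
    (hs : ∀ (a : ℂ), ∀ x ∈ X, a • x ∈ X) (hZs : ∀ (a : ℂ), ∀ x ∈ Z, a • x ∈ Z)
    {H : MvPolynomial (Fin (n + 1)) ℂ} (hH : ∃ e, H.IsHomogeneous e) {d : ℕ}
    (hR : LineFree X Z H d) {ε : ℝ} (hε : 0 < ε) :
    ∃ C : ℝ, 0 < C ∧ ∀ (F : ℂ → Fin (n + 1) → ℂ) (a : ℕ → Fin (n + 1) → ℂ), DiscIn X H 1 F a →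
      ∀ j ≤ d, (∀ m, ‖a m‖ ≤ ‖a j‖) → (∀ x ∈ Z, ε * ‖a 0‖ < ‖a 0 - x‖) → ‖a j‖ ≤ C * ‖a 0‖ := by
  by_contra hcon
  push Not at hcon
  have h1 : ∀ i : ℕ, ∃ (G : ℂ → Fin (n + 1) → ℂ) (b : ℕ → Fin (n + 1) → ℂ) (U : Set ℂ), IsOpen U ∧
      DifferentiableOn ℂ G U ∧ (∀ w ∈ U, G w ≠ 0 ∧ G w ∈ X ∧ eval (G w) H ≠ 0) ∧
      (∀ x ∈ Z, ε < ‖b 0 - x‖) ∧ ‖b 0‖ = 1 ∧ (∀ l ≤ d, ‖b l‖ ≤ 1) ∧
      (∃ l, 1 ≤ l ∧ l ≤ d ∧ ‖b l‖ = 1) ∧
      ∀ R : ℝ, 1 ≤ R → R * (1 / ((i : ℝ) + 2)) ≤ 1 / 2 → ∀ w : ℂ, ‖w‖ ≤ R → w ∈ U ∧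
        ‖G w - ∑ l ∈ Finset.range (d + 1), w ^ l • b l‖ ≤ 2 * R ^ (d + 1) * (1 / ((i : ℝ) + 2)) := by
    intro i
    have hi : (0 : ℝ) ≤ i := i.cast_nonneg
    obtain ⟨F, a, hF, j, hj, hmax, hfar, hbig⟩ := hcon (((i : ℝ) + 2) ^ d) (by positivity)
    have hF0 := discIn_zero hF one_pos
    have ha0 : a 0 ≠ 0 := by
      rw [← hF0]
      exact (hF.2 0 (by simp)).2.1
    have hA : ‖a 0‖ ≠ 0 := norm_ne_zero_iff.2 ha0
    have hAC : (((‖a 0‖⁻¹ : ℝ)) : ℂ) ≠ 0 := by exact_mod_cast inv_ne_zero hA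
    obtain ⟨s, b, hs0, hsN, hb0e, hb0, hb1, hb2, hest⟩ := disc_fun (fun z hz => (hF.2 z hz).1) hj hmax
      ha0 (by linarith) hbig
    have hsC : (s : ℂ) ≠ 0 := by exact_mod_cast hs0.ne'
    refine ⟨fun w => ((‖a 0‖⁻¹ : ℝ) : ℂ) • F ((s : ℂ) * w), b,
      (fun w : ℂ => (s : ℂ) * w) ⁻¹' (ball 0 1), ?_, ?_, ?_, ?_, hb0, hb1, hb2, ?_⟩
    · exact isOpen_ball.preimage (continuous_const.mul continuous_id)
    · refine DifferentiableOn.fun_const_smul ?_ _
      exact hF.1.comp (differentiable_id.const_mul _).differentiableOn fun w hw => hw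
    · intro w hw
      have h2 := hF.2 _ (by simpa using hw : ‖(s : ℂ) * w‖ < 1)
      refine ⟨smul_ne_zero hAC h2.2.1, hs _ _ h2.2.2.1, ?_⟩
      obtain ⟨e', he'⟩ := hH
      rw [eval_smul_form he']
      exact mul_ne_zero (pow_ne_zero _ hAC) h2.2.2.2
    · intro x hx
      have h2 := hfar ((‖a 0‖ : ℂ) • x) (hZs _ _ hx)
      have h3 : a 0 - (‖a 0‖ : ℂ) • x = (‖a 0‖ : ℂ) • (b 0 - x) := by
        rw [smul_sub, hb0e, smul_smul]
        congr 1
        rw [← Complex.ofReal_mul, mul_inv_cancel₀ hA, Complex.ofReal_one, one_smul]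
      rw [h3, norm_smul, Complex.norm_real, norm_norm, mul_comm ε] at h2
      exact lt_of_mul_lt_mul_left h2 (norm_nonneg _)
    · intro R hR1' h2 w hw
      obtain ⟨h4, h5⟩ := hest R hR1' h2 w hw
      exact ⟨by simpa using h4, h5⟩
  choose G b U hUo hGd hG hbZ hb0 hb1 hb2 hest using h1
  -- the limit
  obtain ⟨β, hβ, φ, hφ, hφl⟩ := (compact_window (E := Fin (n + 1) → ℂ) d).tendsto_subseq
    (x := fun i (l : Fin (d + 1)) => b i l) fun i => by
      refine ⟨⟨fun l => hb1 i l (by have := l.2; omega), hb0 i⟩, ?_⟩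
      obtain ⟨l, h1, h2, h3⟩ := hb2 i
      refine ⟨⟨l, by omega⟩, ?_, h3⟩
      intro h
      have := congrArg Fin.val h
      simp only [Fin.val_zero] at this
      omega
  have hφa := hφ.tendsto_atTop
  have hβl : ∀ l, Tendsto (fun i => b (φ i) (l : Fin (d + 1))) atTop (𝓝 (β l)) := fun l =>
    tendsto_pi_nhds.1 hφl l
  set b' : ℕ → Fin (n + 1) → ℂ := fun l => if hl : l < d + 1 then β ⟨l, hl⟩ else 0 with hb'
  have hb'l : ∀ l (hl : l < d + 1), b' l = β ⟨l, hl⟩ := fun l hl => dif_pos hl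
  have hb'0 : b' 0 = β 0 := hb'l 0 (by omega)
  set Q : ℂ → Fin (n + 1) → ℂ := fun w => ∑ l ∈ Finset.range (d + 1), w ^ l • b' l with hQ
  have hconv : ∀ R : ℝ, 1 ≤ R → ∀ ε > 0, ∀ᶠ i in atTop, ∀ w : ℂ, ‖w‖ ≤ R →
      w ∈ U (φ i) ∧ ‖G (φ i) w - Q w‖ ≤ ε := by
    intro R hR1 ε hε
    have hR0 : 0 < R := by linarith
    have h2 : Tendsto (fun i : ℕ => (1 : ℝ) / ((i : ℝ) + 2)) atTop (𝓝 0) :=
      tendsto_const_nhds.div_atTop (tendsto_atTop_add_const_right _ _ tendsto_natCast_atTop_atTop)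
    have hδt1 : Tendsto (fun i : ℕ => (1 / (((φ i : ℕ) : ℝ) + 2))) atTop (𝓝 0) := h2.comp hφa
    have e0 : ∀ᶠ i in atTop, R * (1 / (((φ i : ℕ) : ℝ) + 2)) < 1 / 2 := by
      have := hδt1.const_mul R
      rw [mul_zero] at this
      exact this.eventually_lt_const (by norm_num)
    have e2 : ∀ᶠ i in atTop, 2 * R ^ (d + 1) * (1 / (((φ i : ℕ) : ℝ) + 2)) < ε / 2 := by
      have := hδt1.const_mul (2 * R ^ (d + 1))
      rw [mul_zero] at this
      exact this.eventually_lt_const (half_pos hε)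
    have e3 : ∀ᶠ i in atTop, ∑ l : Fin (d + 1), R ^ (l : ℕ) * ‖b (φ i) l - β l‖ < ε / 2 := by
      have h2 : ∀ l : Fin (d + 1), Tendsto (fun i => R ^ (l : ℕ) * ‖b (φ i) l - β l‖) atTop (𝓝 0) := by
        intro l
        have := ((hβl l).sub_const (β l)).norm.const_mul (R ^ (l : ℕ))
        rwa [sub_self, norm_zero, mul_zero] at this
      have h3 := tendsto_finsetSum Finset.univ fun l _ => h2 l
      rw [Finset.sum_const_zero] at h3
      exact h3.eventually_lt_const (half_pos hε)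
    filter_upwards [e0, e2, e3] with i h0 h2 h3 w hw2
    obtain ⟨hU, h4⟩ := hest (φ i) R hR1 h0.le w hw2
    refine ⟨hU, ?_⟩
    have h5 : ‖∑ l ∈ Finset.range (d + 1), w ^ l • b (φ i) l - Q w‖ ≤ ε / 2 := by
      rw [hQ]
      simp only
      rw [← Finset.sum_sub_distrib]
      refine ((norm_sum_le _ _).trans ?_).trans h3.le
      rw [Finset.sum_range]
      refine Finset.sum_le_sum fun l _ => ?_
      rw [hb'l l l.2, ← smul_sub, norm_smul, norm_pow]
      exact mul_le_mul_of_nonneg_right (pow_le_pow_left₀ (norm_nonneg _) hw2 _) (norm_nonneg _)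
    have h6 := norm_sub_le_norm_sub_add_norm_sub (G (φ i) w)
      (∑ l ∈ Finset.range (d + 1), w ^ l • b (φ i) l) (Q w)
    linarith
  -- neighbourhoods of the points
  have hnear : ∀ w0 : ℂ, ∀ ε > 0, ∃ g : ℂ → Fin (n + 1) → ℂ,
      DifferentiableOn ℂ g (ball w0 1) ∧
      (∀ w ∈ ball w0 1, g w ≠ 0 ∧ g w ∈ X ∧ eval (g w) H ≠ 0) ∧
      ∀ w ∈ ball w0 1, ‖g w - Q w‖ ≤ ε := by
    intro w0 ε hε
    obtain ⟨i, hi⟩ := (hconv (‖w0‖ + 1) (by have := norm_nonneg w0; linarith) ε hε).exists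
    have hmem : ∀ w ∈ ball w0 1, ‖w‖ ≤ ‖w0‖ + 1 := by
      intro w hw
      rw [mem_ball_iff_norm] at hw
      have := norm_sub_norm_le w w0
      linarith
    exact ⟨G (φ i), (hGd (φ i)).mono fun w hw => (hi w (hmem w hw)).1,
      fun w hw => hG (φ i) w (hi w (hmem w hw)).1, fun w hw => (hi w (hmem w hw)).2⟩
  have hQX : ∀ w : ℂ, Q w ∈ X := by
    intro w
    refine hX.closure_subset (Metric.mem_closure_iff.2 fun ε hε => ?_)
    obtain ⟨g, _, hg2, hg3⟩ := hnear w (ε / 2) (half_pos hε)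
    have hw' : w ∈ ball w 1 := mem_ball_self one_pos
    refine ⟨g w, (hg2 w hw').2.1, ?_⟩
    rw [dist_comm, dist_eq_norm]
    exact (hg3 w hw').trans_lt (half_lt_self hε)
  have hdich : (∀ z : ℂ, eval (∑ i ∈ Finset.range (d + 1), z ^ i • b' i) H = 0) ∨
      ∀ z : ℂ, eval (∑ i ∈ Finset.range (d + 1), z ^ i • b' i) H ≠ 0 := by
    by_cases h0 : ∀ z : ℂ, eval (∑ i ∈ Finset.range (d + 1), z ^ i • b' i) H = 0
    · exact Or.inl h0
    right
    intro z
    rcases hurwitz H b' d z (ρ := 1) one_pos (fun ε hε => by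
      obtain ⟨g, hg1, hg2, hg3⟩ := hnear z ε hε
      exact ⟨g, hg1, fun w hw => (hg2 w hw).2.2, hg3⟩) with h1 | h1
    · exact absurd h1 h0
    · exact h1
  -- the first coefficient of the limit is not in `Z`
  have hβZ : b' 0 ∉ Z := by
    intro hmem
    have h2 : ∀ i, ε < ‖b (φ i) 0 - β 0‖ := fun i => hbZ (φ i) (β 0) (by rw [← hb'0]; exact hmem)
    have h3 : Tendsto (fun i => ‖b (φ i) 0 - β 0‖) atTop (𝓝 0) := by
      have := ((hβl 0).sub_const (β 0)).norm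
      rwa [sub_self, norm_zero] at this
    obtain ⟨i, hi⟩ := (h3.eventually_lt_const hε).exists
    exact absurd hi (not_lt.2 (h2 i).le)
  have hb'0n : b' 0 ≠ 0 := by
    rw [hb'0, ← norm_ne_zero_iff, hβ.1.2]
    exact one_ne_zero
  rcases hR b' hQX hdich with ⟨v, hv⟩ | hQZ
  · choose! a ha using hv
    have hv0 : v ≠ 0 := by
      rintro rfl
      apply hb'0n
      rw [ha 0 (by omega), smul_zero]
    set q : Polynomial ℂ := ∑ l ∈ Finset.range (d + 1), Polynomial.C (a l) * Polynomial.X ^ l with hq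
    have hqc : ∀ l ≤ d, q.coeff l = a l := by
      intro l hl
      rw [hq, Polynomial.finsetSum_coeff]
      simp only [Polynomial.coeff_C_mul, Polynomial.coeff_X_pow, mul_ite, mul_one, mul_zero]
      rw [Finset.sum_ite_eq]
      simp [Nat.lt_succ_iff.2 hl]
    have hqdeg : q.natDegree ≤ d := by
      rw [hq]
      refine Polynomial.natDegree_sum_le_of_forall_le _ _ fun l hl => ?_
      have := Finset.mem_range.1 hl
      exact (Polynomial.natDegree_C_mul_X_pow_le _ _).trans (by omega)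
    have hqe : ∀ w, q.eval w • v = Q w := by
      intro w
      rw [hq, Polynomial.eval_finsetSum, Finset.sum_smul, hQ]
      refine Finset.sum_congr rfl fun l hl => ?_
      have hl' : l ≤ d := by
        have := Finset.mem_range.1 hl
        omega
      rw [ha l hl', smul_smul, Polynomial.eval_mul, Polynomial.eval_C, Polynomial.eval_pow,
        Polynomial.eval_X, mul_comm]
    have ha0 : a 0 ≠ 0 := by
      intro h0
      apply hb'0n
      rw [ha 0 (by omega), h0, zero_smul]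
    obtain ⟨l1, hl10, hl1⟩ := hβ.2
    have hal1 : q.coeff l1 ≠ 0 := by
      rw [hqc l1 (by have := l1.2; omega)]
      intro h0
      have h2 := ha l1 (by have := l1.2; omega)
      rw [h0, zero_smul, hb'l l1 l1.2] at h2
      have h4 : β l1 = 0 := h2
      rw [h4, norm_zero] at hl1
      exact zero_ne_one hl1
    have hl1' : (l1 : ℕ) ≠ 0 := fun h => hl10 (Fin.ext h)
    have hdeg : q.degree ≠ 0 := by
      intro h0
      rw [Polynomial.eq_C_of_degree_eq_zero h0, Polynomial.coeff_C, if_neg hl1'] at hal1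
      exact hal1 rfl
    obtain ⟨w0, hw0⟩ := IsAlgClosed.exists_root q hdeg
    have hw0' : q.eval w0 = 0 := hw0
    have hq0 : q ≠ 0 := by rintro h; rw [h] at hal1; simp at hal1
    have htq : Polynomial.taylor w0 q ≠ 0 := by
      intro h
      exact hq0 ((Polynomial.taylor_eq_zero _ _).1 h)
    classical
    have hex : ∃ l, (Polynomial.taylor w0 q).coeff l ≠ 0 := by
      by_contra h
      push Not at h
      exact htq (Polynomial.ext fun l => by simpa using h l)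
    have hge : 1 ≤ Nat.find hex := by
      rw [Nat.one_le_iff_ne_zero]
      intro h0
      have := Nat.find_spec hex
      rw [h0, Polynomial.taylor_coeff_zero] at this
      exact this hw0'
    have hle : Nat.find hex ≤ d := by
      have h2 := Polynomial.le_natDegree_of_ne_zero (Nat.find_spec hex)
      rw [Polynomial.natDegree_taylor] at h2
      omega
    have hvZ := bubble3 hX hZ hs hZs hH hR (Nat.find hex) hge hle v (Polynomial.taylor w0 q)
      1 hv0 one_pos (fun l hl => not_not.1 (Nat.find_min hex hl)) (Nat.find_spec hex)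
      fun ε hε => by
        obtain ⟨g, hg1, hg2, hg3⟩ := hnear w0 ε hε
        have hmem : ∀ z ∈ ball (0 : ℂ) 1, w0 + z ∈ ball w0 1 := by
          intro z hz
          rw [mem_ball_zero_iff] at hz
          rw [mem_ball_iff_norm, add_sub_cancel_left]
          exact hz
        refine ⟨fun z => g (w0 + z), ?_, fun z hz => hg2 _ (hmem z hz), fun z hz => ?_⟩
        · exact hg1.comp ((differentiable_const _).add differentiable_id).differentiableOn hmem
        · rw [Polynomial.taylor_eval, add_comm z w0, hqe]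
          exact hg3 _ (hmem z hz)
    apply hβZ
    rw [ha 0 (by omega)]
    exact hZs _ _ hvZ
  · apply hβZ
    have h2 := hQZ 0
    rw [Finset.sum_eq_single 0 (fun l _ hl => by rw [zero_pow hl, zero_smul])
      (fun h => absurd (Finset.mem_range.2 (by omega)) h), pow_zero, one_smul] at h2
    exact h2

/-- **Discs of bounded index.** -/
theorem disc_bound {X Z : Set (Fin (n + 1) → ℂ)} (hX : IsClosed X) (hZ : IsClosed Z)
    (hs : ∀ (a : ℂ), ∀ x ∈ X, a • x ∈ X) (hZs : ∀ (a : ℂ), ∀ x ∈ Z, a • x ∈ Z)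
    {H : MvPolynomial (Fin (n + 1)) ℂ} (hH : ∃ e, H.IsHomogeneous e) {d : ℕ}
    (hR : LineFree X Z H d) {ε : ℝ} (hε : 0 < ε) :
    ∃ C : ℝ, 0 < C ∧ ∀ (r : ℝ) (F : ℂ → Fin (n + 1) → ℂ) (a : ℕ → Fin (n + 1) → ℂ), 0 < r →
      DiscIn X H r F a → (∃ j ≤ d, ∀ m, ‖a m‖ * r ^ m ≤ ‖a j‖ * r ^ j) →
      (∀ x ∈ Z, ε * ‖a 0‖ < ‖a 0 - x‖) → ∀ m, ‖a m‖ * r ^ m ≤ C * ‖a 0‖ := by
  obtain ⟨C, hC, h⟩ := disc_bound1 hX hZ hs hZs hH hR hε
  refine ⟨C, hC, fun r F a hr hF hj hfar m => ?_⟩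
  obtain ⟨j, hj, hmax⟩ := hj
  have hrC : (r : ℂ) ≠ 0 := by exact_mod_cast hr.ne'
  have hn : ∀ m, ‖(r : ℂ) ^ m • a m‖ = ‖a m‖ * r ^ m := fun m => by
    rw [norm_smul, norm_pow, Complex.norm_real, Real.norm_of_nonneg hr.le, mul_comm]
  have hrn : ∀ z : ℂ, ‖z‖ < 1 → ‖(r : ℂ) * z‖ < r := fun z hz => by
    rw [norm_mul, Complex.norm_real, Real.norm_of_nonneg hr.le]
    nlinarith
  have h1 := h (fun z => F ((r : ℂ) * z)) (fun m => (r : ℂ) ^ m • a m) ⟨?_, fun z hz => ?_⟩ j hj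
    (fun m => by rw [hn, hn]; exact hmax m) (by simpa using hfar)
  · rw [hn] at h1
    simp only [pow_zero, one_smul] at h1
    exact (hmax m).trans h1
  · refine hF.1.comp (differentiable_id.const_mul _).differentiableOn fun z hz => ?_
    rw [mem_ball_zero_iff] at hz
    simpa using hrn z hz
  · obtain ⟨h2, h3⟩ := hF.2 _ (hrn z hz)
    refine ⟨?_, h3⟩
    have e : (fun m : ℕ => z ^ m • (r : ℂ) ^ m • a m) = fun m : ℕ => ((r : ℂ) * z) ^ m • a m := by
      funext m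
      rw [smul_smul, mul_pow, mul_comm]
    rw [e]
    exact h2

end Pool.Agent.R871.SG
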