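import Pool.Agent.R871.SG.DiscB
import Pool.Agent.R871.SG.BubG

/-!
Holomorphic discs of bounded index in `X ∖ D`: geometric form and converse.
-/

set_option autoImplicit false

namespace Pool.Agent.R871.SG

open Filter Topology Metric Set MvPolynomial

variable {n : ℕ}

/-- Every nonconstant algebraic map from the affine line to the subset of `ℙⁿ` with the cone `Y`,
given by polynomials of degree at most `d` without common zeros, has its image in `Z`. -/
def LinesIn (Y Z : Set (Fin (n + 1) → ℂ)) (d : ℕ) : Prop :=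
  ∀ P : Fin (n + 1) → Polynomial ℂ, (∀ s, (P s).natDegree ≤ d) → (∀ z : ℂ, pv P z ≠ 0 ∧ pv P z ∈ Y) →
    NonConst (pv P) → ∀ z : ℂ, pv P z ∈ Z

theorem lineFree_of_linesIn {X Z : Set (Fin (n + 1) → ℂ)} (hX : IsClosed X)
    (hs : ∀ (a : ℂ), ∀ x ∈ X, a • x ∈ X) (hZs : ∀ (a : ℂ), ∀ x ∈ Z, a • x ∈ Z)
    {H : MvPolynomial (Fin (n + 1)) ℂ} (hH : ∃ e, H.IsHomogeneous e) {d : ℕ}
    (hV : LinesIn {x | x ∈ X ∧ eval x H ≠ 0} Z d) (hD : LinesIn {x | x ∈ X ∧ eval x H = 0} Z d) :
    LineFree X Z H d := by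
  intro b hb hdich
  set P : Fin (n + 1) → Polynomial ℂ := fun s =>
    ∑ i ∈ Finset.range (d + 1), Polynomial.C (b i s) * Polynomial.X ^ i with hP
  have hPv : ∀ z, pv P z = ∑ i ∈ Finset.range (d + 1), z ^ i • b i := by
    intro z
    ext s
    simp only [pv, hP, Polynomial.eval_finsetSum, Polynomial.eval_mul, Polynomial.eval_C,
      Polynomial.eval_pow, Polynomial.eval_X, Finset.sum_apply, Pi.smul_apply, smul_eq_mul]
    exact Finset.sum_congr rfl fun i _ => mul_comm _ _
  have hPd : ∀ s, (P s).natDegree ≤ d := by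
    intro s
    refine Polynomial.natDegree_sum_le_of_forall_le _ _ fun l hl => ?_
    have := Finset.mem_range.1 hl
    exact (Polynomial.natDegree_C_mul_X_pow_le _ _).trans (by omega)
  have hPc : ∀ s, ∀ i ≤ d, (P s).coeff i = b i s := by
    intro s i hi
    rw [hP]
    simp only
    rw [Polynomial.finsetSum_coeff]
    simp only [Polynomial.coeff_C_mul, Polynomial.coeff_X_pow, mul_ite, mul_one, mul_zero]
    rw [Finset.sum_ite_eq]
    simp [Nat.lt_succ_iff.2 hi]
  by_cases h0 : ∃ z, pv P z ≠ 0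
  · obtain ⟨q, P', hP', hq, hne⟩ := clear h0
    have hqP : ∀ z, pv P z = q.eval z • pv P' z := by
      intro z
      ext j
      simp [pv, hP' j]
    have hd' : ∀ j, (P' j).natDegree ≤ d := by
      intro j
      by_cases hj : P' j = 0
      · rw [hj]; simp
      · have h1 := Polynomial.natDegree_mul hq hj
        rw [← hP' j] at h1
        have := hPd j
        omega
    have hdense : Dense {z : ℂ | q.eval z ≠ 0} := by
      have hfin : {z : ℂ | q.eval z = 0}.Finite := by
        refine (q.roots.toFinset.finite_toSet).subset fun z hz => ?_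
        simpa [Polynomial.mem_roots hq] using hz
      have : {z : ℂ | q.eval z ≠ 0} = {z : ℂ | q.eval z = 0}ᶜ := by ext; simp
      rw [this]
      exact hfin.countable.dense_compl ℂ
    have hpc : Continuous (pv P') := continuous_pi fun j => (P' j).continuous
    have hcl : IsClosed {z : ℂ | pv P' z ∈ X} := hX.preimage hpc
    have hin : ∀ z, q.eval z ≠ 0 → pv P' z ∈ X := by
      intro z hz
      have h1 : pv P' z = (q.eval z)⁻¹ • pv P z := by
        rw [hqP z, smul_smul, inv_mul_cancel₀ hz, one_smul]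
      rw [h1, hPv z]
      exact hs _ _ (hb z)
    have hall : ∀ z, pv P' z ∈ X := by
      intro z
      have h1 := closure_minimal (s := {z : ℂ | q.eval z ≠ 0}) (fun w hw => hin w hw) hcl
      rw [hdense.closure_eq] at h1
      exact h1 (mem_univ z)
    obtain ⟨e, he⟩ := hH
    have hHP : ∀ z, eval (pv P z) H = q.eval z ^ e * eval (pv P' z) H := fun z => by
      rw [hqP z, eval_smul_form he]
    by_cases hnc : NonConst (pv P')
    · right
      have hZ' : ∀ z, pv P' z ∈ Z := by
        rcases hdich with h1 | h1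
        · refine hD P' hd' (fun z => ⟨hne z, hall z, ?_⟩) hnc
          have hcl2 : IsClosed {z : ℂ | eval (pv P' z) H = 0} :=
            isClosed_eq ((MvPolynomial.continuous_eval H).comp hpc) continuous_const
          have h2 := closure_minimal (s := {z : ℂ | q.eval z ≠ 0}) (fun w hw => by
            have h3 := h1 w
            rw [← hPv, hHP] at h3
            exact (mul_eq_zero.1 h3).resolve_left (pow_ne_zero _ hw)) hcl2
          rw [hdense.closure_eq] at h2
          exact h2 (mem_univ z)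
        · refine hV P' hd' (fun z => ⟨hne z, hall z, ?_⟩) hnc
          have h3 := h1 z
          rw [← hPv, hHP] at h3
          exact right_ne_zero_of_mul h3
      intro z
      rw [← hPv, hqP]
      exact hZs _ _ (hZ' z)
    · left
      unfold NonConst at hnc
      push Not at hnc
      set v := pv P' 0 with hv
      obtain ⟨t, ht⟩ : ∃ t, v t ≠ 0 := by
        by_contra hcon
        push Not at hcon
        exact hne 0 (funext hcon)
      refine ⟨v, fun i hi => ⟨b i t / v t, ?_⟩⟩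
      have hpol : ∀ s, P s * Polynomial.C (v t) = P t * Polynomial.C (v s) := by
        intro s
        refine Polynomial.funext fun z => ?_
        obtain ⟨c, hc⟩ := hnc 0 z
        have e1 : ∀ s, (P s).eval z = q.eval z * (c * v s) := by
          intro s
          have h1 := congrFun (hqP z) s
          rw [hc] at h1
          exact h1
        rw [Polynomial.eval_mul, Polynomial.eval_mul, Polynomial.eval_C, Polynomial.eval_C, e1, e1]
        ring
      ext s
      have h1 := congrArg (fun p => Polynomial.coeff p i) (hpol s)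
      simp only [Polynomial.coeff_mul_C] at h1
      rw [hPc s i hi, hPc t i hi] at h1
      simp only [Pi.smul_apply, smul_eq_mul]
      field_simp
      linear_combination h1
  · push Not at h0
    left
    refine ⟨0, fun i hi => ⟨0, ?_⟩⟩
    ext s
    have h1 : P s = 0 := Polynomial.funext fun z => by
      have := congrFun (h0 z) s
      simpa [pv] using this
    rw [← hPc s i hi, h1]
    simp

theorem proportional_of_wronskian {A B : Polynomial ℂ} (hB : B ≠ 0)
    (h : A * Polynomial.derivative B = B * Polynomial.derivative A) :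
    ∃ c : ℂ, A = Polynomial.C c * B := by
  obtain ⟨z0, hz0⟩ : ∃ z, B.eval z ≠ 0 := by
    by_contra hcon
    push Not at hcon
    exact hB (Polynomial.funext fun z => by rw [hcon z, Polynomial.eval_zero])
  refine ⟨A.eval z0 / B.eval z0, ?_⟩
  set R := A - Polynomial.C (A.eval z0 / B.eval z0) * B with hR
  have hRB : R * Polynomial.derivative B = B * Polynomial.derivative R := by
    rw [hR, Polynomial.derivative_sub, Polynomial.derivative_C_mul]
    linear_combination h
  have hR0 : R.eval z0 = 0 := by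
    rw [hR, Polynomial.eval_sub, Polynomial.eval_mul, Polynomial.eval_C, div_mul_cancel₀ _ hz0, sub_self]
  have hRz : R = 0 := by
    by_contra hRne
    have hroot : R.IsRoot z0 := hR0
    have hk : 0 < R.rootMultiplicity z0 := (Polynomial.rootMultiplicity_pos hRne).2 hroot
    have hder : (Polynomial.derivative R).rootMultiplicity z0 = R.rootMultiplicity z0 - 1 :=
      Polynomial.derivative_rootMultiplicity_of_root hroot
    have hR' : Polynomial.derivative R ≠ 0 := by
      intro h0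
      have h1 := Polynomial.derivative_eq_zero.1 h0
      rw [Polynomial.eq_C_of_natDegree_eq_zero h1, Polynomial.eval_C] at hR0
      apply hRne
      rw [Polynomial.eq_C_of_natDegree_eq_zero h1, hR0, Polynomial.C_0]
    have hne : B * Polynomial.derivative R ≠ 0 := mul_ne_zero hB hR'
    have h1 := Polynomial.rootMultiplicity_mul (x := z0) hne
    have h2 := Polynomial.rootMultiplicity_mul (x := z0) (p := R) (q := Polynomial.derivative B)
      (by rw [hRB]; exact hne)
    have h3 : B.rootMultiplicity z0 = 0 := Polynomial.rootMultiplicity_eq_zero hz0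
    rw [hRB] at h2
    omega
  exact sub_eq_zero.1 hRz

theorem exists_wronskian {P : Fin (n + 1) → Polynomial ℂ} (hne : ∀ z, pv P z ≠ 0)
    (hnc : NonConst (pv P)) :
    ∃ s t, P s * Polynomial.derivative (P t) - P t * Polynomial.derivative (P s) ≠ 0 := by
  by_contra hcon
  push Not at hcon
  obtain ⟨t, ht⟩ : ∃ t, pv P 0 t ≠ 0 := by
    by_contra h
    push Not at h
    exact hne 0 (funext h)
  have hPt : P t ≠ 0 := by
    intro h
    apply ht
    simp [pv, h]
  have h1 : ∀ s, ∃ c : ℂ, P s = Polynomial.C c * P t := fun s =>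
    proportional_of_wronskian hPt (sub_eq_zero.1 (hcon s t))
  choose c hc using h1
  have h2 : ∀ z, pv P z = (P t).eval z • c := by
    intro z
    ext s
    simp only [pv, Pi.smul_apply, smul_eq_mul]
    conv_lhs => rw [hc s]
    rw [Polynomial.eval_mul, Polynomial.eval_C, mul_comm]
  obtain ⟨z, w, hzw⟩ := hnc
  have hz : (P t).eval z ≠ 0 := by
    intro h
    apply hne z
    rw [h2, h, zero_smul]
  apply hzw ((P t).eval w * ((P t).eval z)⁻¹)
  rw [h2 w, h2 z, smul_smul, mul_assoc, inv_mul_cancel₀ hz, mul_one]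

/-- The bound for the derivatives of discs of bounded index excludes polynomial curves. -/
theorem linesIn_of_bound {X Z : Set (Fin (n + 1) → ℂ)} (hZ : IsClosed Z)
    {H : MvPolynomial (Fin (n + 1)) ℂ} {d : ℕ}
    (h : ∀ ε > 0, ∃ C : ℝ, ∀ (r : ℝ) (F : ℂ → Fin (n + 1) → ℂ) (a : ℕ → Fin (n + 1) → ℂ), 0 < r →
      DiscIn X H r F a → (∃ j ≤ d, ∀ m, ‖a m‖ * r ^ m ≤ ‖a j‖ * r ^ j) →
      (∀ x ∈ Z, ε * ‖a 0‖ < ‖a 0 - x‖) → ∀ s t, r * ‖a 0 s * a 1 t - a 0 t * a 1 s‖ ≤ C * ‖a 0‖ ^ 2) :
    LinesIn {x | x ∈ X ∧ eval x H ≠ 0} Z d := by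
  intro P hPd hP hnc z1
  by_contra hz1
  obtain ⟨s, t, hst⟩ := exists_wronskian (fun z => (hP z).1) hnc
  set W := P s * Polynomial.derivative (P t) - P t * Polynomial.derivative (P s) with hW
  have hpc : Continuous (pv P) := continuous_pi fun j => (P j).continuous
  -- a good point
  obtain ⟨z0, hz0, hWz0⟩ : ∃ z0, pv P z0 ∉ Z ∧ W.eval z0 ≠ 0 := by
    have ho : IsOpen {z : ℂ | pv P z ∉ Z} := (hZ.isOpen_compl).preimage hpc
    have hfin : {z : ℂ | W.eval z = 0}.Finite := by
      refine (W.roots.toFinset.finite_toSet).subset fun z hz => ?_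
      simpa [Polynomial.mem_roots hst] using hz
    have hd : Dense {z : ℂ | W.eval z ≠ 0} := by
      have : {z : ℂ | W.eval z ≠ 0} = {z : ℂ | W.eval z = 0}ᶜ := by ext; simp
      rw [this]
      exact hfin.countable.dense_compl ℂ
    obtain ⟨z0, h1, h2⟩ := hd.inter_open_nonempty _ ho ⟨z1, hz1⟩
    exact ⟨z0, h1, h2⟩
  have ha0 : pv P z0 ≠ 0 := (hP z0).1
  have hA : 0 < ‖pv P z0‖ := norm_pos_iff.2 ha0
  -- the distance to `Z`
  obtain ⟨ε, hε, hfar⟩ : ∃ ε > 0, ∀ x ∈ Z, ε * ‖pv P z0‖ < ‖pv P z0 - x‖ := by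
    have ho : IsOpen Zᶜ := hZ.isOpen_compl
    obtain ⟨η, hη, hball⟩ := Metric.isOpen_iff.1 ho (pv P z0) hz0
    refine ⟨η / (2 * ‖pv P z0‖), by positivity, fun x hx => ?_⟩
    have h1 : η ≤ ‖pv P z0 - x‖ := by
      by_contra hlt
      push Not at hlt
      refine hball ?_ hx
      rw [mem_ball_iff_norm, norm_sub_rev]
      exact hlt
    have h2 : η / (2 * ‖pv P z0‖) * ‖pv P z0‖ = η / 2 := by field_simp
    rw [h2]
    linarith
  obtain ⟨C, hC⟩ := h ε hε
  -- the Taylor coefficients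
  set a : ℕ → Fin (n + 1) → ℂ := fun m s => (Polynomial.taylor z0 (P s)).coeff m with ha
  have ham : ∀ m, d < m → a m = 0 := by
    intro m hm
    ext s
    simp only [ha, Pi.zero_apply]
    refine Polynomial.coeff_eq_zero_of_natDegree_lt ?_
    rw [Polynomial.natDegree_taylor]
    exact (hPd s).trans_lt hm
  have hsum : ∀ z : ℂ, HasSum (fun m : ℕ => z ^ m • a m) (pv P (z0 + z)) := by
    intro z
    have h1 : HasSum (fun m : ℕ => z ^ m • a m) (∑ m ∈ Finset.range (d + 1), z ^ m • a m) :=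
      hasSum_sum_of_ne_finset_zero fun m hm => by
        rw [Finset.mem_range, not_lt] at hm
        rw [ham m (by omega), smul_zero]
    have h2 : ∑ m ∈ Finset.range (d + 1), z ^ m • a m = pv P (z0 + z) := by
      ext s
      rw [Finset.sum_apply]
      have h3 : (Polynomial.taylor z0 (P s)).eval z = (P s).eval (z0 + z) := by
        rw [Polynomial.taylor_eval, add_comm]
      change _ = (P s).eval (z0 + z)
      rw [← h3, Polynomial.eval_eq_sum_range' (n := d + 1) (by
        rw [Polynomial.natDegree_taylor]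
        exact Nat.lt_succ_of_le (hPd s))]
      exact Finset.sum_congr rfl fun m _ => by simp [ha, mul_comm]
    rwa [h2] at h1
  have ha0e : a 0 = pv P z0 := by
    ext s
    simp [ha, pv]
  have ha1e : ∀ s, a 1 s = (Polynomial.derivative (P s)).eval z0 := by
    intro s
    simp only [ha]
    rw [Polynomial.taylor_coeff_one]
  have hWe : a 0 s * a 1 t - a 0 t * a 1 s = W.eval z0 := by
    rw [ha0e, ha1e, ha1e, hW]
    simp [pv]
  have hWn : 0 < ‖W.eval z0‖ := norm_pos_iff.2 hWz0
  have hdisc : ∀ r : ℝ, DiscIn X H r (fun z => pv P (z0 + z)) a := by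
    intro r
    refine ⟨?_, fun z _ => ⟨hsum z, (hP _).1, (hP _).2⟩⟩
    exact ((differentiable_pi.2 fun j => (P j).differentiable).comp
      ((differentiable_const _).add differentiable_id)).differentiableOn
  have hind : ∀ r : ℝ, 0 < r → ∃ j ≤ d, ∀ m, ‖a m‖ * r ^ m ≤ ‖a j‖ * r ^ j := by
    intro r hr
    obtain ⟨j, hj, hmax⟩ := Finset.exists_max_image (Finset.range (d + 1))
      (fun m => ‖a m‖ * r ^ m) ⟨0, by simp⟩
    refine ⟨j, by have := Finset.mem_range.1 hj; omega, fun m => ?_⟩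
    by_cases hm : m ≤ d
    · exact hmax m (Finset.mem_range.2 (by omega))
    · rw [ham m (by omega), norm_zero, zero_mul]
      positivity
  have hb : ∀ r : ℝ, 0 < r → r * ‖W.eval z0‖ ≤ C * ‖a 0‖ ^ 2 := by
    intro r hr
    have := hC r _ a hr (hdisc r) (hind r hr) (by rw [ha0e]; exact hfar) s t
    rwa [hWe] at this
  have h1 := hb (|C * ‖a 0‖ ^ 2| / ‖W.eval z0‖ + 1) (by positivity)
  rw [add_mul, one_mul, div_mul_cancel₀ _ hWn.ne'] at h1
  have h2 := le_abs_self (C * ‖a 0‖ ^ 2)
  linarith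

/-- **Discs of bounded index and polynomial curves.** -/
theorem disc_tfae {X Z : Set (Fin (n + 1) → ℂ)} (hX : IsClosed X) (hZ : IsClosed Z)
    (hs : ∀ (a : ℂ), ∀ x ∈ X, a • x ∈ X) (hZs : ∀ (a : ℂ), ∀ x ∈ Z, a • x ∈ Z)
    {H : MvPolynomial (Fin (n + 1)) ℂ} (hH : ∃ e, H.IsHomogeneous e) {d : ℕ}
    (hD : LinesIn {x | x ∈ X ∧ eval x H = 0} Z d) :
    List.TFAE [
      LinesIn {x | x ∈ X ∧ eval x H ≠ 0} Z d,
      ∀ ε > 0, ∃ C : ℝ, ∀ (r : ℝ) (F : ℂ → Fin (n + 1) → ℂ) (a : ℕ → Fin (n + 1) → ℂ), 0 < r →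
        DiscIn X H r F a → (∃ j ≤ d, ∀ m, ‖a m‖ * r ^ m ≤ ‖a j‖ * r ^ j) →
        (∀ x ∈ Z, ε * ‖a 0‖ < ‖a 0 - x‖) → ∀ m, ‖a m‖ * r ^ m ≤ C * ‖a 0‖,
      ∀ ε > 0, ∃ C : ℝ, ∀ (r : ℝ) (F : ℂ → Fin (n + 1) → ℂ) (a : ℕ → Fin (n + 1) → ℂ), 0 < r →
        DiscIn X H r F a → (∃ j ≤ d, ∀ m, ‖a m‖ * r ^ m ≤ ‖a j‖ * r ^ j) →
        (∀ x ∈ Z, ε * ‖a 0‖ < ‖a 0 - x‖) →
        ∀ s t, r * ‖a 0 s * a 1 t - a 0 t * a 1 s‖ ≤ C * ‖a 0‖ ^ 2] := by
  tfae_have 1 → 2 := by
    intro hV ε hε
    obtain ⟨C, _, hC⟩ := disc_bound hX hZ hs hZs hH (lineFree_of_linesIn hX hs hZs hH hV hD) hε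
    exact ⟨C, hC⟩
  tfae_have 2 → 3 := by
    intro h ε hε
    obtain ⟨C, hC⟩ := h ε hε
    refine ⟨2 * C, fun r F a hr hF hj hfar s t => ?_⟩
    have h1 := hC r F a hr hF hj hfar 1
    rw [pow_one] at h1
    have h2 : ‖a 0 s * a 1 t - a 0 t * a 1 s‖ ≤ ‖a 0‖ * ‖a 1‖ + ‖a 0‖ * ‖a 1‖ := by
      refine (norm_sub_le _ _).trans (add_le_add ?_ ?_)
      · rw [norm_mul]
        exact mul_le_mul (norm_le_pi_norm _ _) (norm_le_pi_norm _ _) (norm_nonneg _) (norm_nonneg _)
      · rw [norm_mul]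
        exact mul_le_mul (norm_le_pi_norm _ _) (norm_le_pi_norm _ _) (norm_nonneg _) (norm_nonneg _)
    calc r * ‖a 0 s * a 1 t - a 0 t * a 1 s‖ ≤ r * (‖a 0‖ * ‖a 1‖ + ‖a 0‖ * ‖a 1‖) := by gcongr
      _ = 2 * ‖a 0‖ * (‖a 1‖ * r) := by ring
      _ ≤ 2 * ‖a 0‖ * (C * ‖a 0‖) := by gcongr
      _ = _ := by ring
  tfae_have 3 → 1 := fun h => linesIn_of_bound hZ h
  tfae_finish

end Pool.Agent.R871.SG
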