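import Pool.Agent.R871.SG.Comp

/-!
Families of coefficients, indexed by any countable set, with small tails and with closed conditions
are close to finite families which satisfy these conditions.
-/

set_option autoImplicit false

namespace Pool.Agent.R871.SG

open Filter Topology Metric Set

variable {J E : Type} [NormedAddCommGroup E] [NormedSpace ℂ E]

/-- The families bounded by `b`. -/
def BdJ (b : J → ℝ) : Set (J → E) := {c | ∀ j, ‖c j‖ ≤ b j}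

omit [NormedSpace ℂ E] in
theorem bdJ_eq (b : J → ℝ) : (BdJ b : Set (J → E)) = Set.univ.pi fun j => closedBall (0 : E) (b j) := by
  ext c
  simp [BdJ, Set.mem_pi]

omit [NormedSpace ℂ E] in
theorem bdJ_compact [ProperSpace E] (b : J → ℝ) : IsCompact (BdJ b : Set (J → E)) := by
  rw [bdJ_eq]
  exact isCompact_univ_pi fun j => isCompact_closedBall (0 : E) (b j)

omit [NormedSpace ℂ E] in
theorem bdJ_closed (b : J → ℝ) : IsClosed (BdJ b : Set (J → E)) := by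
  rw [bdJ_eq]
  exact isClosed_set_pi fun _ _ => isClosed_closedBall

omit [NormedSpace ℂ E] in
theorem approxJ [ProperSpace E] [Countable J] (S : Set (J → E)) (b w : J → ℝ) (T : Finset J)
    (hS : IsClosed (S ∩ BdJ b)) {ε : ℝ} (hε : 0 < ε) : ∃ δ > 0, ∀ c ∈ S, c ∈ BdJ b →
      (∀ j ∉ T, ‖c j‖ ≤ δ * w j) →
      ∃ c' ∈ S, c' ∈ BdJ b ∧ (∀ j ∉ T, c' j = 0) ∧ ∀ j ∈ T, ‖c' j - c j‖ < ε := by
  by_contra hcon
  push Not at hcon
  have h1 : ∀ k : ℕ, ∃ c ∈ S, c ∈ BdJ b ∧ (∀ j ∉ T, ‖c j‖ ≤ 1 / ((k : ℝ) + 1) * w j) ∧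
      ∀ c' ∈ S, c' ∈ BdJ b → (∀ j ∉ T, c' j = 0) → ∃ j ∈ T, ε ≤ ‖c' j - c j‖ := fun k =>
    hcon (1 / ((k : ℝ) + 1)) (by positivity)
  choose c hc hB ht hn using h1
  obtain ⟨a, ha, φ, hφ, hl⟩ := ((bdJ_compact b).of_isClosed_subset hS inter_subset_right).tendsto_subseq
    (x := c) fun k => ⟨hc k, hB k⟩
  have hl' : ∀ j, Tendsto (fun k => c (φ k) j) atTop (𝓝 (a j)) := fun j => tendsto_pi_nhds.1 hl j
  have ha0 : ∀ j ∉ T, a j = 0 := by
    intro j hj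
    have h2 : Tendsto (fun k => ‖c (φ k) j‖) atTop (𝓝 ‖a j‖) := (hl' j).norm
    have h3 : Tendsto (fun k : ℕ => 1 / ((φ k : ℝ) + 1) * w j) atTop (𝓝 (0 * w j)) :=
      (tendsto_one_div_add_atTop_nhds_zero_nat.comp hφ.tendsto_atTop).mul_const _
    rw [zero_mul] at h3
    have h4 : ‖a j‖ ≤ 0 := le_of_tendsto_of_tendsto' h2 h3 fun k => ht (φ k) j hj
    exact norm_le_zero_iff.1 h4
  have h5 : ∀ᶠ k in atTop, ∀ j ∈ T, ‖a j - c (φ k) j‖ < ε := by
    refine T.eventually_all.2 fun j _ => ?_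
    have h6 : Tendsto (fun k => ‖a j - c (φ k) j‖) atTop (𝓝 0) := by
      have := (tendsto_const_nhds (x := a j)).sub (hl' j)
      simpa using this.norm
    exact h6.eventually_lt_const hε
  obtain ⟨k, hk⟩ := h5.exists
  obtain ⟨j, hj, hj2⟩ := hn (φ k) a ha.1 ha.2 ha0
  exact absurd (hk j hj) (not_lt.2 hj2)

/-- The families with members in `L j` for which certain sums are in the sets `C t`. -/
def SolJ {P : Type} (L : J → Set E) (e : P → J → ℂ) (C : P → Set E) : Set (J → E) :=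
  {c | (∀ j, c j ∈ L j) ∧ ∀ t, ∑' j, e t j • c j ∈ C t}

theorem solJ_closed [CompleteSpace E] {P : Type} {L : J → Set E} (hL : ∀ j, IsClosed (L j))
    {e : P → J → ℂ} {C : P → Set E} (hC : ∀ t, IsClosed (C t)) {b : J → ℝ}
    (hb : ∀ t, Summable fun j => ‖e t j‖ * b j) : IsClosed (SolJ L e C ∩ BdJ b) := by
  have h : SolJ L e C ∩ BdJ b = (BdJ b ∩ ⋂ j, {c | c j ∈ L j}) ∩
      ⋂ t, (BdJ b ∩ (fun c => ∑' j, e t j • c j) ⁻¹' (C t)) := by
    ext c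
    simp only [SolJ, mem_inter_iff, mem_ofPred_eq, mem_iInter, mem_preimage]
    constructor
    · rintro ⟨⟨h1, h2⟩, h3⟩
      exact ⟨⟨h3, h1⟩, fun t => ⟨h3, h2 t⟩⟩
    · rintro ⟨⟨h3, h1⟩, h2⟩
      exact ⟨⟨h1, fun t => (h2 t).2⟩, h3⟩
  rw [h]
  refine ((bdJ_closed b).inter (isClosed_iInter fun j => (hL j).preimage (continuous_apply j))).inter
    (isClosed_iInter fun t => ?_)
  have hc : ContinuousOn (fun c : J → E => ∑' j, e t j • c j) (BdJ b) := by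
    refine continuousOn_tsum (fun j => ?_) (hb t) fun j c hc => ?_
    · exact ((continuous_apply j).const_smul _).continuousOn
    · rw [norm_smul]
      exact mul_le_mul_of_nonneg_left (hc j) (norm_nonneg _)
  exact hc.preimage_isClosed_of_isClosed (bdJ_closed b) (hC t)

/-- **Families with small tails are limits of finite families.** -/
theorem approx_gen [ProperSpace E] [Countable J] (nm : J → ℕ) (hfin : ∀ D, {j | nm j ≤ D}.Finite)
    (hsum : Summable fun j => (1 / 2 : ℝ) ^ nm j) {P : Type} (L : J → Set E)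
    (hL : ∀ j, IsClosed (L j)) (e : P → J → ℂ) (he : ∀ t j, ‖e t j‖ ≤ 2 ^ nm j) (C : P → Set E)
    (hC : ∀ t, IsClosed (C t)) : ∃ δ : ℕ → ℝ, (∀ D, 0 < δ D) ∧ ∀ c : J → E, (∀ j, c j ∈ L j) →
      (∀ t, ∑' j, e t j • c j ∈ C t) → (∀ A : ℝ, 0 ≤ A → Summable fun j => A ^ nm j * ‖c j‖) →
      (∀ D₀, ∃ D ≥ D₀, ∀ j, D < nm j → 4 ^ nm j * ‖c j‖ ≤ δ D) → ∀ ρ η : ℝ, 0 ≤ ρ → 0 < η →
      ∃ (c' : J → E) (D : ℕ), (∀ j, D < nm j → c' j = 0) ∧ (∀ j, c' j ∈ L j) ∧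
        (∀ t, ∑' j, e t j • c' j ∈ C t) ∧ (Summable fun j => ρ ^ nm j * ‖c' j - c j‖) ∧
        ∑' j, ρ ^ nm j * ‖c' j - c j‖ ≤ η := by
  classical
  have hEs : CompleteSpace E := inferInstance
  set T : ℕ → Finset J := fun D => (hfin D).toFinset with hT
  have hmT : ∀ D j, j ∈ T D ↔ nm j ≤ D := fun D j => by simp [hT]
  have hb : ∀ (D : ℕ) (t : P), Summable fun j => ‖e t j‖ * (((D : ℝ) + 1) * (1 / 4) ^ nm j) := by
    intro D t
    refine Summable.of_nonneg_of_le (fun j => by positivity) (fun j => ?_)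
      (hsum.mul_left ((D : ℝ) + 1))
    calc ‖e t j‖ * (((D : ℝ) + 1) * (1 / 4) ^ nm j)
        ≤ 2 ^ nm j * (((D : ℝ) + 1) * (1 / 4) ^ nm j) := by gcongr; exact he t j
      _ = ((D : ℝ) + 1) * (1 / 2) ^ nm j := by
        rw [mul_left_comm, ← mul_pow]; norm_num
  set ε : ℕ → ℝ := fun D => 1 / (((D : ℝ) + 1) * (1 + ∑ j ∈ T D, ((D : ℝ) + 1) ^ nm j)) with hε
  have hεp : ∀ D, 0 < ε D := fun D => by
    have : 0 ≤ ∑ j ∈ T D, ((D : ℝ) + 1) ^ nm j := Finset.sum_nonneg fun j _ => by positivity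
    rw [hε]; positivity
  have h1 : ∀ D : ℕ, ∃ δ > 0, ∀ c ∈ SolJ L e C, c ∈ BdJ (fun j => ((D : ℝ) + 1) * (1 / 4) ^ nm j) →
      (∀ j ∉ T D, ‖c j‖ ≤ δ * (1 / 4) ^ nm j) →
      ∃ c' ∈ SolJ L e C, c' ∈ BdJ (fun j => ((D : ℝ) + 1) * (1 / 4) ^ nm j) ∧
        (∀ j ∉ T D, c' j = 0) ∧ ∀ j ∈ T D, ‖c' j - c j‖ < ε D := fun D =>
    approxJ (SolJ L e C) _ _ (T D) (solJ_closed hL hC (hb D)) (hεp D)
  choose δ hδ hap using h1
  refine ⟨δ, hδ, fun c hcL hcC hcs hct ρ η hρ hη => ?_⟩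
  set ρ' : ℝ := max ρ 1 with hρ'
  have hρ1 : 1 ≤ ρ' := le_max_right _ _
  -- a bound for the members
  obtain ⟨B, hB⟩ : ∃ B : ℝ, ∀ j, 4 ^ nm j * ‖c j‖ ≤ B :=
    ⟨∑' j, 4 ^ nm j * ‖c j‖, fun j => (hcs 4 (by norm_num)).le_tsum j fun i _ => by positivity⟩
  have hg := hcs ρ' (by linarith)
  have htl := tendsto_tsum_compl_atTop_zero fun j => ρ' ^ nm j * ‖c j‖
  have hev1 := htl.eventually_lt_const (half_pos hη)
  obtain ⟨s, hs⟩ := eventually_atTop.1 hev1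
  have hhd : Tendsto (fun D : ℕ => 1 / ((D : ℝ) + 1)) atTop (𝓝 0) :=
    tendsto_one_div_add_atTop_nhds_zero_nat
  have hev := (hhd.eventually_lt_const (half_pos hη)).and ((eventually_ge_atTop ⌈B⌉₊).and
    ((eventually_ge_atTop ⌈ρ'⌉₊).and (eventually_ge_atTop (s.sup nm))))
  obtain ⟨D0, hD0⟩ := eventually_atTop.1 hev
  obtain ⟨D, hD, ht⟩ := hct D0
  obtain ⟨hD1, hD2, hD3, hD4⟩ := hD0 D hD
  have hDB : B ≤ D := (Nat.le_ceil B).trans (by exact_mod_cast hD2)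
  have hDρ : ρ' ≤ D := (Nat.le_ceil ρ').trans (by exact_mod_cast hD3)
  have hsT : s ≤ T D := fun j hj => (hmT D j).2 ((Finset.le_sup (f := nm) hj).trans hD4)
  have h4 : ∀ j, ‖c j‖ = (4 ^ nm j * ‖c j‖) * (1 / 4) ^ nm j := fun j => by
    rw [mul_right_comm, ← mul_pow]; norm_num
  obtain ⟨c', hc'S, hc'B, hc'0, hc'c⟩ := hap D c ⟨hcL, hcC⟩ (fun j => (h4 j).trans_le
    (mul_le_mul_of_nonneg_right ((hB j).trans (by linarith)) (by positivity)))
    (fun j hj => (h4 j).trans_le (mul_le_mul_of_nonneg_right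
      (ht j (not_le.1 fun h => hj ((hmT D j).2 h))) (by positivity)))
  have hsplit : Summable fun j => ρ' ^ nm j * ‖c' j - c j‖ := by
    refine hg.of_norm_bounded_eventually ?_
    have : {j | ¬ ‖ρ' ^ nm j * ‖c' j - c j‖‖ ≤ ρ' ^ nm j * ‖c j‖} ⊆ T D := by
      intro j hj
      by_contra hjT
      refine hj ?_
      rw [hc'0 j hjT, zero_sub, norm_neg, Real.norm_of_nonneg (by positivity)]
    exact (T D).finite_toSet.subset this
  have hle : ∀ j, ρ ^ nm j * ‖c' j - c j‖ ≤ ρ' ^ nm j * ‖c' j - c j‖ := fun j => by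
    gcongr
    exact le_max_left _ _
  have hsm : Summable fun j => ρ ^ nm j * ‖c' j - c j‖ :=
    Summable.of_nonneg_of_le (fun j => by positivity) hle hsplit
  refine ⟨c', D, fun j hj => hc'0 j (by rw [hmT]; omega), hc'S.1, hc'S.2, hsm, ?_⟩
  refine (hsm.tsum_le_tsum hle hsplit).trans ?_
  have htail : ∑' j : {x // x ∉ T D}, ρ' ^ nm j.1 * ‖c' j.1 - c j.1‖ =
      ∑' j : {x // x ∉ T D}, ρ' ^ nm j.1 * ‖c j.1‖ := by
    refine tsum_congr fun j => ?_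
    rw [hc'0 j.1 j.2, zero_sub, norm_neg]
  have hhead : ∑ j ∈ T D, ρ' ^ nm j * ‖c' j - c j‖ ≤ 1 / ((D : ℝ) + 1) := by
    have h3 : ∀ j ∈ T D, ρ' ^ nm j * ‖c' j - c j‖ ≤ ((D : ℝ) + 1) ^ nm j * ε D := by
      intro j hj
      have := (hc'c j hj).le
      gcongr
      linarith
    refine (Finset.sum_le_sum h3).trans ?_
    rw [← Finset.sum_mul]
    have h5 : 0 ≤ ∑ j ∈ T D, ((D : ℝ) + 1) ^ nm j := Finset.sum_nonneg fun j _ => by positivity
    have h8 : (0 : ℝ) < (D : ℝ) + 1 := by positivity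
    have h9 : ε D = 1 / (((D : ℝ) + 1) * (1 + ∑ j ∈ T D, ((D : ℝ) + 1) ^ nm j)) := rfl
    rw [h9]
    generalize (∑ j ∈ T D, ((D : ℝ) + 1) ^ nm j) = s at h5
    rw [mul_one_div, div_le_div_iff₀ (mul_pos h8 (by linarith)) h8]
    nlinarith
  have h6 := hs (T D) hsT
  have h7 := hsplit.sum_add_tsum_subtype_compl (T D)
  rw [← h7, htail]
  linarith

end Pool.Agent.R871.SG
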