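import Mathlib

/-!
Lacunary power series over an infinite field: relations of bounded degree.
-/

set_option autoImplicit false

namespace Pool.Agent.R871.SG.LF

open MvPolynomial

variable {K : Type} [Field K] {s : ℕ}

/-- Substitution of `z ^ N` in a polynomial whose coefficients have degree less than `N`. -/
theorem kron_zero {N : ℕ} : ∀ (k : ℕ) (A : Polynomial (Polynomial K)), A.natDegree ≤ k →
    (∀ e, (A.coeff e).natDegree < N) → A.eval (Polynomial.X ^ N) = 0 → A = 0 := by
  have key : ∀ A : Polynomial (Polynomial K), (∀ e, (A.coeff e).natDegree < N) →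
      A.eval (Polynomial.X ^ N) = 0 → A.coeff 0 = 0 ∧ A.divX.eval (Polynomial.X ^ N) = 0 := by
    intro A hA h
    have h1 := congrArg (Polynomial.eval (Polynomial.X ^ N)) (Polynomial.divX_mul_X_add A)
    rw [Polynomial.eval_add, Polynomial.eval_mul, Polynomial.eval_X, Polynomial.eval_C, h] at h1
    have h2 : A.coeff 0 = 0 := by
      by_contra h0
      have h3 : Polynomial.X ^ N ∣ A.coeff 0 := by
        refine ⟨-A.divX.eval (Polynomial.X ^ N), ?_⟩
        linear_combination h1
      have h4 := Polynomial.natDegree_le_of_dvd h3 h0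
      rw [Polynomial.natDegree_X_pow] at h4
      exact absurd (hA 0) (not_lt.2 h4)
    rw [h2, add_zero] at h1
    exact ⟨h2, (mul_eq_zero.1 h1).resolve_right (pow_ne_zero _ Polynomial.X_ne_zero)⟩
  intro k
  induction k with
  | zero =>
    intro A hk hA h
    have h1 := Polynomial.eq_C_of_natDegree_le_zero hk
    rw [h1, (key A hA h).1, map_zero]
  | succ k ih =>
    intro A hk hA h
    obtain ⟨h1, h2⟩ := key A hA h
    have h3 : A.divX = 0 := by
      refine ih A.divX ?_ (fun e => ?_) h2
      · rw [Polynomial.natDegree_divX_eq_natDegree_tsub_one]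
        omega
      · rw [Polynomial.coeff_divX]
        exact hA _
    rw [← Polynomial.divX_mul_X_add A, h3, h1]
    simp

/-- The coefficients have degree at most `k`. -/
def BD (k : ℕ) (A : Polynomial (Polynomial K)) : Prop := ∀ e, (A.coeff e).natDegree ≤ k

theorem BD_mul {k l : ℕ} {A B : Polynomial (Polynomial K)} (hA : BD k A) (hB : BD l B) :
    BD (k + l) (A * B) := by
  intro e
  rw [Polynomial.coeff_mul]
  refine Polynomial.natDegree_sum_le_of_forall_le _ _ fun p _ => ?_
  exact Polynomial.natDegree_mul_le.trans (add_le_add (hA _) (hB _))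

theorem BD_mono {k l : ℕ} {A : Polynomial (Polynomial K)} (hA : BD k A) (hkl : k ≤ l) : BD l A :=
  fun e => (hA e).trans hkl

theorem BD_one : BD 0 (1 : Polynomial (Polynomial K)) := by
  intro e
  rw [Polynomial.coeff_one]
  split_ifs <;> simp

theorem BD_pow {k : ℕ} {A : Polynomial (Polynomial K)} (hA : BD k A) (n : ℕ) :
    BD (n * k) (A ^ n) := by
  induction n with
  | zero => simpa using BD_one
  | succ n ih =>
    rw [pow_succ, add_mul, one_mul]
    exact BD_mul ih hA

theorem BD_sum {σ : Type} {k : ℕ} (S : Finset σ) (A : σ → Polynomial (Polynomial K))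
    (h : ∀ i ∈ S, BD k (A i)) : BD k (∑ i ∈ S, A i) := by
  intro e
  rw [Polynomial.finsetSum_coeff]
  exact Polynomial.natDegree_sum_le_of_forall_le _ _ fun i hi => h i hi e

theorem BD_prod {σ : Type} (S : Finset σ) (k : σ → ℕ) (A : σ → Polynomial (Polynomial K))
    (h : ∀ i ∈ S, BD (k i) (A i)) : BD (∑ i ∈ S, k i) (∏ i ∈ S, A i) := by
  classical
  induction S using Finset.induction_on with
  | empty => simpa using BD_one
  | insert a S ha ih =>
    rw [Finset.sum_insert ha, Finset.prod_insert ha]
    exact BD_mul (h a (Finset.mem_insert_self a S)) (ih fun i hi => h i (Finset.mem_insert_of_mem hi))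

theorem deg_sum {F : MvPolynomial (Fin s) K} {d : ℕ} (hF : F.totalDegree ≤ d) {m : Fin s →₀ ℕ}
    (hm : m ∈ F.support) : ∑ j : Fin s, m j ≤ d := by
  have h3 := le_totalDegree hm
  rw [Finsupp.sum_fintype _ _ (fun _ => rfl)] at h3
  exact h3.trans hF

theorem BD_aeval {F : MvPolynomial (Fin s) K} {d D : ℕ} (hF : F.totalDegree ≤ d)
    {w : Fin s → Polynomial (Polynomial K)} (hw : ∀ j, BD D (w j)) : BD (d * D) (aeval w F) := by
  classical
  rw [aeval_def, eval₂_eq']
  refine BD_sum _ _ fun m hm => ?_
  have h1 : BD 0 (algebraMap K (Polynomial (Polynomial K)) (coeff m F)) := by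
    intro e
    have : algebraMap K (Polynomial (Polynomial K)) (coeff m F) =
        Polynomial.C (Polynomial.C (coeff m F)) := rfl
    rw [this, Polynomial.coeff_C]
    split_ifs <;> simp
  have h2 : BD (∑ j : Fin s, m j * D) (∏ j : Fin s, (w j) ^ m j) :=
    BD_prod _ _ _ fun j _ => BD_pow (hw j) (m j)
  refine BD_mono (BD_mul h1 h2) ?_
  rw [zero_add, ← Finset.sum_mul]
  exact Nat.mul_le_mul_right _ (deg_sum hF hm)

theorem deg_aeval {F : MvPolynomial (Fin s) K} {d D : ℕ} (hF : F.totalDegree ≤ d)
    {P : Fin s → Polynomial K} (hP : ∀ j, (P j).natDegree ≤ D) :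
    (aeval P F).natDegree ≤ d * D := by
  classical
  rw [aeval_def, eval₂_eq']
  refine Polynomial.natDegree_sum_le_of_forall_le _ _ fun m hm => ?_
  have h1 : (algebraMap K (Polynomial K) (coeff m F)).natDegree ≤ 0 := by
    rw [Polynomial.algebraMap_eq, Polynomial.natDegree_C]
  have h2 : (∏ j : Fin s, (P j) ^ m j).natDegree ≤ d * D := by
    refine (Polynomial.natDegree_prod_le _ _).trans ?_
    refine (Finset.sum_le_sum fun j _ => (Polynomial.natDegree_pow_le (n := m j))).trans ?_
    refine (Finset.sum_le_sum fun j _ => Nat.mul_le_mul_left _ (hP j)).trans ?_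
    rw [← Finset.sum_mul]
    exact Nat.mul_le_mul_right _ (deg_sum hF hm)
  have h3 := Polynomial.natDegree_mul_le (p := algebraMap K (Polynomial K) (coeff m F))
    (q := ∏ j : Fin s, (P j) ^ m j)
  omega

/-- **The step.** -/
theorem lac_step {F : MvPolynomial (Fin s) K} {d D N : ℕ} (hF : F.totalDegree ≤ d)
    {Q : Fin s → Polynomial K} (hQ : ∀ j, (Q j).natDegree ≤ D) (hN : d * D < N) (u : Fin s → K)
    (h : aeval (fun j => Q j + Polynomial.X ^ N * Polynomial.C (u j)) F = 0) (c : Polynomial K) :
    aeval (fun j => Q j + c * Polynomial.C (u j)) F = 0 := by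
  set w : Fin s → Polynomial (Polynomial K) := fun j =>
    Polynomial.C (Q j) + Polynomial.X * Polynomial.C (Polynomial.C (u j)) with hw
  have hwB : ∀ j, BD D (w j) := by
    intro j e
    simp only [hw, Polynomial.coeff_add, Polynomial.coeff_C]
    refine (Polynomial.natDegree_add_le _ _).trans (max_le ?_ ?_)
    · split_ifs
      · exact hQ j
      · simp
    · rcases e with _ | e
      · simp
      · rw [Polynomial.coeff_X_mul, Polynomial.coeff_C]
        split_ifs <;> simp
  have hev : ∀ c : Polynomial K, (aeval w F).eval c =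
      aeval (fun j => Q j + c * Polynomial.C (u j)) F := by
    intro c
    have h3 := comp_aeval (R := K) w
      ((Polynomial.aeval c).restrictScalars K : Polynomial (Polynomial K) →ₐ[K] Polynomial K)
    have h4 := congrArg (fun h => h F) h3
    have h5 : (fun i => ((Polynomial.aeval c).restrictScalars K :
        Polynomial (Polynomial K) →ₐ[K] Polynomial K) (w i)) =
        fun j => Q j + c * Polynomial.C (u j) := by
      funext j
      simp [hw]
      ring
    rw [h5] at h4
    simpa [Polynomial.coe_aeval_eq_eval] using h4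
  have hA : aeval w F = 0 := by
    refine kron_zero _ _ le_rfl (fun e => (BD_aeval hF hwB e).trans_lt hN) ?_
    rw [hev]
    exact h
  rw [← hev, hA, Polynomial.eval_zero]

/-- Translation. -/
theorem translate (F : MvPolynomial (Fin s) K) (c : Fin s → K) :
    ∃ F' : MvPolynomial (Fin s) K, F'.totalDegree ≤ F.totalDegree ∧
      ∀ x : Fin s → Polynomial K,
        aeval x F' = aeval (fun j => x j + Polynomial.C (c j)) F := by
  classical
  refine ⟨aeval (fun j => X j + C (c j)) F, ?_, fun x => ?_⟩
  · rw [aeval_def, eval₂_eq']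
    refine totalDegree_finsetSum_le fun m hm => ?_
    have h1 : (algebraMap K (MvPolynomial (Fin s) K) (coeff m F)).totalDegree ≤ 0 := by
      rw [algebraMap_eq, totalDegree_C]
    have h2 : (∏ j : Fin s, (X j + C (c j) : MvPolynomial (Fin s) K) ^ m j).totalDegree ≤
        ∑ j : Fin s, m j := by
      refine (totalDegree_finsetProd _ _).trans (Finset.sum_le_sum fun j _ => ?_)
      refine (totalDegree_pow _ _).trans ?_
      have h3 : (X j + C (c j) : MvPolynomial (Fin s) K).totalDegree ≤ 1 := by
        refine (totalDegree_add _ _).trans ?_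
        rw [totalDegree_X, totalDegree_C]
        exact le_rfl
      calc m j * _ ≤ m j * 1 := Nat.mul_le_mul_left _ h3
        _ = m j := mul_one _
    have h4 := deg_sum le_rfl hm
    have h5 := totalDegree_mul (algebraMap K (MvPolynomial (Fin s) K) (coeff m F))
      (∏ j : Fin s, (X j + C (c j) : MvPolynomial (Fin s) K) ^ m j)
    omega
  · have h3 := comp_aeval (R := K) (fun j => (X j + C (c j) : MvPolynomial (Fin s) K))
      (aeval x : MvPolynomial (Fin s) K →ₐ[K] Polynomial K)
    have h4 := congrArg (fun h => h F) h3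
    have h5 : (fun i => (aeval x : MvPolynomial (Fin s) K →ₐ[K] Polynomial K) (X i + C (c i))) =
        fun j => x j + Polynomial.C (c j) := by
      funext j
      simp
    rw [h5] at h4
    exact h4

/-- The partial sum up to `z ^ N` of a vector of power series. -/
noncomputable def tr (f : Fin s → PowerSeries K) (N : ℕ) : Fin s → Polynomial K := fun j =>
  PowerSeries.trunc (N + 1) (f j)

/-- The exponents satisfy `n (j + 1) > d * n j`, and the coefficients of `f` with index `m > n 0`
vanish, except for those with `m = n j`. -/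
def Lacunary (d : ℕ) (n : ℕ → ℕ) (f : Fin s → PowerSeries K) : Prop :=
  (∀ j, d * n j < n (j + 1)) ∧
    ∀ m, n 0 < m → (∀ j, m ≠ n j) → ∀ i, PowerSeries.coeff m (f i) = 0

theorem tr_coeff (f : Fin s → PowerSeries K) (N m : ℕ) (j : Fin s) :
    (tr f N j).coeff m = if m < N + 1 then PowerSeries.coeff m (f j) else 0 := by
  rw [tr, PowerSeries.coeff_trunc]

theorem tr_degree (f : Fin s → PowerSeries K) (N : ℕ) (j : Fin s) : (tr f N j).natDegree ≤ N := by
  refine Polynomial.natDegree_le_iff_coeff_eq_zero.2 fun m hm => ?_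
  rw [tr_coeff, if_neg (by omega)]

theorem lac_mono {d : ℕ} (hd : 0 < d) {n : ℕ → ℕ} (h : ∀ j, d * n j < n (j + 1)) : StrictMono n := by
  refine strictMono_nat_of_lt_succ fun j => ?_
  exact (Nat.le_mul_of_pos_left _ hd).trans_lt (h j)

theorem lac_gap {d : ℕ} (hd : 0 < d) {n : ℕ → ℕ} {f : Fin s → PowerSeries K} (h : Lacunary d n f)
    {J m : ℕ} (h1 : n J < m) (h2 : m < n (J + 1)) (i : Fin s) : PowerSeries.coeff m (f i) = 0 := by
  have hm := lac_mono hd h.1
  refine h.2 m ((hm.monotone (Nat.zero_le J)).trans_lt h1) (fun j hj => ?_) i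
  rw [hj] at h1 h2
  have h3 := hm.lt_iff_lt.1 h1
  have h4 := hm.lt_iff_lt.1 h2
  omega

theorem tr_ext {d : ℕ} (hd : 0 < d) {n : ℕ → ℕ} {f : Fin s → PowerSeries K} (hn : Lacunary d n f)
    {J N : ℕ} (h1 : n J ≤ N) (h2 : N < n (J + 1)) : tr f N = tr f (n J) := by
  funext j
  refine Polynomial.ext fun m => ?_
  rw [tr_coeff, tr_coeff]
  by_cases hm : m < n J + 1
  · rw [if_pos hm, if_pos (by omega)]
  · rw [if_neg hm]
    split_ifs with h
    · exact lac_gap hd hn (J := J) (by omega) (by omega) j
    · rfl

/-- Power series with the same partial sum. -/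
theorem cong (f : Fin s → PowerSeries K) (N : ℕ) (G : MvPolynomial (Fin s) K) :
    (PowerSeries.X : PowerSeries K) ^ (N + 1) ∣
      aeval f G - ((aeval (tr f N) G : Polynomial K) : PowerSeries K) := by
  set I : Ideal (PowerSeries K) := Ideal.span {(PowerSeries.X : PowerSeries K) ^ (N + 1)} with hI
  have h1 : ((aeval (tr f N) G : Polynomial K) : PowerSeries K) =
      aeval (fun j => ((tr f N j : Polynomial K) : PowerSeries K)) G := by
    have h3 := comp_aeval (R := K) (tr f N) (Polynomial.coeToPowerSeries.algHom K)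
    have h4 := congrArg (fun h => h G) h3
    simpa using h4
  have h2 : ∀ w : Fin s → PowerSeries K,
      Ideal.Quotient.mk I (aeval w G) = aeval (fun j => Ideal.Quotient.mk I (w j)) G := by
    intro w
    have h3 := comp_aeval (R := K) w (Ideal.Quotient.mkₐ K I)
    have h4 := congrArg (fun h => h G) h3
    simpa using h4
  rw [← Ideal.mem_span_singleton, ← hI, ← Ideal.Quotient.eq, h1, h2, h2]
  congr 2
  funext j
  rw [Ideal.Quotient.eq, hI, Ideal.mem_span_singleton, PowerSeries.X_pow_dvd_iff]
  intro m hm
  rw [map_sub, Polynomial.coeff_coe, tr_coeff, if_pos hm, sub_self]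

end Pool.Agent.R871.SG.LF
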