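import Pool.Agent.R871.SG.LacF

/-!
Lacunary power series over an infinite field: the main result.
-/

set_option autoImplicit false

namespace Pool.Agent.R871.SG.LF

open MvPolynomial

variable {K : Type} [Field K] {s : ℕ}

/-- The coefficient vector of index `m`. -/
noncomputable def cv (f : Fin s → PowerSeries K) (m : ℕ) : Fin s → K := fun i =>
  PowerSeries.coeff m (f i)

/-- The partial sums satisfy all relations of degree at most `d`. -/
theorem lac_partial {d : ℕ} (hd : 0 < d) {f : Fin s → PowerSeries K} {n : ℕ → ℕ}
    (hn : Lacunary d n f) {G : MvPolynomial (Fin s) K} (hG : G.totalDegree ≤ d)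
    (h : aeval f G = 0) (J : ℕ) : aeval (tr f (n J)) G = 0 := by
  have hNJ : n J ≤ d * n J := Nat.le_mul_of_pos_left _ hd
  have h1 := cong f (d * n J) G
  rw [h, zero_sub, dvd_neg, tr_ext hd hn hNJ (hn.1 J)] at h1
  refine Polynomial.ext fun m => ?_
  rw [Polynomial.coeff_zero]
  by_cases hm : m ≤ d * n J
  · have h2 := (PowerSeries.X_pow_dvd_iff.1 h1) m (by omega)
    rwa [Polynomial.coeff_coe] at h2
  · exact Polynomial.coeff_eq_zero_of_natDegree_lt
      ((deg_aeval hG (tr_degree f (n J))).trans_lt (not_le.1 hm))

theorem lac_succ {d : ℕ} (hd : 0 < d) {n : ℕ → ℕ} {f : Fin s → PowerSeries K} (hn : Lacunary d n f)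
    (J : ℕ) : tr f (n (J + 1)) = fun i => tr f (n J) i +
      Polynomial.X ^ n (J + 1) * Polynomial.C (cv f (n (J + 1)) i) := by
  have h0 : n J < n (J + 1) := lac_mono hd hn.1 (Nat.lt_add_one J)
  funext i
  refine Polynomial.ext fun m => ?_
  rw [Polynomial.coeff_add, tr_coeff, tr_coeff, Polynomial.coeff_mul_C, Polynomial.coeff_X_pow]
  rcases lt_trichotomy m (n (J + 1)) with hm | hm | hm
  · rw [if_pos (by omega), if_neg (by omega : ¬ m = n (J + 1)), zero_mul, add_zero]
    split_ifs with h
    · rfl
    · exact lac_gap hd hn (J := J) (by omega) hm i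
  · rw [if_pos (by omega), if_neg (by omega), if_pos hm, one_mul, zero_add, hm]
    rfl
  · rw [if_neg (by omega), if_neg (by omega), if_neg (by omega), zero_mul, add_zero]

theorem lac_all {d : ℕ} (hd : 0 < d) {n : ℕ → ℕ} {f : Fin s → PowerSeries K} (hn : Lacunary d n f)
    (c : ℕ → K) : ∀ (J : ℕ) (G : MvPolynomial (Fin s) K), G.totalDegree ≤ d →
      aeval (tr f (n J)) G = 0 →
      aeval (fun i => tr f (n 0) i +
        Polynomial.C ((∑ j ∈ Finset.range J, c j • cv f (n (j + 1))) i)) G = 0 := by
  intro J
  induction J with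
  | zero =>
    intro G _ h
    simpa using h
  | succ J ih =>
    intro G hG h
    rw [lac_succ hd hn] at h
    have h1 := lac_step hG (tr_degree f (n J)) (hn.1 J) (cv f (n (J + 1))) h (Polynomial.C (c J))
    obtain ⟨G', hG'd, hG'⟩ := translate G (c J • cv f (n (J + 1)))
    have h2 := ih G' (hG'd.trans hG) (by
      rw [hG', ← h1]
      congr 2
      funext i
      simp)
    rw [hG'] at h2
    rw [← h2]
    congr 2
    funext i
    rw [Finset.sum_range_succ, Pi.add_apply, Polynomial.C_add, add_assoc]

/-- **Relations of lacunary power series.** -/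
theorem lacunary_iff [Infinite K] {d : ℕ} (hd : 0 < d) {f : Fin s → PowerSeries K} {n : ℕ → ℕ}
    (hn : Lacunary d n f) {G : MvPolynomial (Fin s) K} (hG : G.totalDegree ≤ d) :
    aeval f G = 0 ↔ ∀ z : K, ∀ v ∈ Submodule.span K (Set.range fun j => cv f (n (j + 1))),
      eval ((fun i => (tr f (n 0) i).eval z) + v) G = 0 := by
  classical
  have hx : ∀ (P : Fin s → Polynomial K) (z : K),
      (aeval P G : Polynomial K).eval z = eval (fun i => (P i).eval z) G := by
    intro P z
    have h3 := comp_aeval (R := K) P (Polynomial.aeval z : Polynomial K →ₐ[K] K)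
    have h4 := congrArg (fun h => h G) h3
    simpa [Polynomial.coe_aeval_eq_eval] using h4
  constructor
  · intro h z v hv
    obtain ⟨c, hc⟩ := (Finsupp.mem_span_range_iff_exists_finsupp).1 hv
    set J : ℕ := c.support.sup id + 1 with hJ
    have h1 : ∑ j ∈ Finset.range J, c j • cv f (n (j + 1)) = v := by
      rw [← hc, Finsupp.sum]
      refine (Finset.sum_subset (fun j hj => ?_) fun j _ hj => ?_).symm
      · have : j ≤ c.support.sup id := Finset.le_sup (f := id) hj
        exact Finset.mem_range.2 (by omega)
      · rw [Finsupp.notMem_support_iff.1 hj, zero_smul]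
    have h2 := lac_all hd hn c J G hG (lac_partial hd hn hG h J)
    rw [h1] at h2
    have h3 := hx (fun i => tr f (n 0) i + Polynomial.C (v i)) z
    rw [h2, Polynomial.eval_zero] at h3
    rw [h3]
    congr 2
    funext i
    simp
  · intro h
    have hT : ∀ J : ℕ, aeval (tr f (n J)) G = 0 := by
      intro J
      refine Polynomial.funext fun z => ?_
      rw [hx, Polynomial.eval_zero]
      have h1 : (fun i => (tr f (n J) i).eval z) - (fun i => (tr f (n 0) i).eval z) ∈
          Submodule.span K (Set.range fun j => cv f (n (j + 1))) := by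
        induction J with
        | zero => rw [sub_self]; exact Submodule.zero_mem _
        | succ J ih =>
          have h2 : (fun i => (tr f (n (J + 1)) i).eval z) - (fun i => (tr f (n 0) i).eval z) =
              ((fun i => (tr f (n J) i).eval z) - fun i => (tr f (n 0) i).eval z) +
                z ^ n (J + 1) • cv f (n (J + 1)) := by
            rw [lac_succ hd hn]
            funext i
            simp
            ring
          rw [h2]
          exact Submodule.add_mem _ ih (Submodule.smul_mem _ _ (Submodule.subset_span ⟨J, rfl⟩))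
      have h2 := h z _ h1
      rwa [add_sub_cancel] at h2
    refine PowerSeries.ext fun m => ?_
    have hm := lac_mono hd hn.1
    have h1 := cong f (n m) G
    rw [hT m, Polynomial.coe_zero, sub_zero] at h1
    exact (PowerSeries.X_pow_dvd_iff.1 h1) m (by have := hm.le_apply (x := m); omega)

end Pool.Agent.R871.SG.LF
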