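import Pool.Agent.R871.SG.GenA

/-!
Laurent series of holomorphic functions on the punctured plane.
-/

set_option autoImplicit false

namespace Pool.Agent.R871.SG

open Filter Topology Metric Set Complex
open scoped Real

variable {E : Type} [NormedAddCommGroup E] [NormedSpace ℂ E]

/-- The Laurent coefficients. -/
noncomputable def lc (f : ℂ → E) (m : ℤ) : E :=
  (2 * π * I : ℂ)⁻¹ • ∮ z in C(0, 1), z ^ (-m - 1) • f z

theorem lc_diff {f : ℂ → E} (hf : DifferentiableOn ℂ f {0}ᶜ) (m : ℤ) :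
    DifferentiableOn ℂ (fun z => z ^ (-m - 1) • f z) {0}ᶜ := by
  refine DifferentiableOn.smul ?_ hf
  intro z hz
  exact (differentiableAt_zpow.2 (Or.inl hz)).differentiableWithinAt

theorem lc_eq [CompleteSpace E] {f : ℂ → E} (hf : DifferentiableOn ℂ f {0}ᶜ) (m : ℤ) {r : ℝ}
    (hr : 0 < r) :
    (2 * π * I : ℂ)⁻¹ • (∮ z in C(0, r), z ^ (-m - 1) • f z) = lc f m := by
  have hd := lc_diff hf m
  have hsub : ∀ a b : ℝ, 0 < a → closedBall (0 : ℂ) b \ ball 0 a ⊆ {0}ᶜ := by
    intro a b ha z hz h0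
    rw [mem_singleton_iff] at h0
    rw [h0] at hz
    exact hz.2 (mem_ball_self ha)
  have hsub2 : ∀ a b : ℝ, 0 < a → ∀ z ∈ (ball (0 : ℂ) b \ closedBall 0 a) \ (∅ : Set ℂ),
      DifferentiableAt ℂ (fun z => z ^ (-m - 1) • f z) z := by
    intro a b ha z hz
    refine (hd z ?_).differentiableAt (isOpen_compl_singleton.mem_nhds ?_) <;>
    · intro h0
      rw [mem_singleton_iff] at h0
      rw [h0] at hz
      exact hz.1.2 (mem_closedBall_self ha.le)
  rw [lc]
  congr 1
  rcases le_total r 1 with h | h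
  · exact (Complex.circleIntegral_eq_of_differentiable_on_annulus_off_countable hr h
      countable_empty (hd.continuousOn.mono (hsub r 1 hr)) (hsub2 r 1 hr)).symm
  · exact Complex.circleIntegral_eq_of_differentiable_on_annulus_off_countable one_pos h
      countable_empty (hd.continuousOn.mono (hsub 1 r one_pos)) (hsub2 1 r one_pos)

theorem lc_le [CompleteSpace E] {f : ℂ → E} (hf : DifferentiableOn ℂ f {0}ᶜ) {r C : ℝ} (hr : 0 < r)
    (h : ∀ z : ℂ, ‖z‖ = r → ‖f z‖ ≤ C) (m : ℤ) : ‖lc f m‖ ≤ C * r ^ (-m) := by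
  rw [← lc_eq hf m hr]
  refine (circleIntegral.norm_two_pi_i_inv_smul_integral_le_of_norm_le_const hr.le
    (C := r ^ (-m - 1) * C) fun z hz => ?_).trans_eq ?_
  · rw [mem_sphere_zero_iff_norm] at hz
    rw [norm_smul, norm_zpow, hz]
    exact mul_le_mul_of_nonneg_left (h z hz) (by positivity)
  · rw [zpow_sub_one₀ hr.ne']
    field_simp

theorem lc_abs_le [CompleteSpace E] {f : ℂ → E} (hf : DifferentiableOn ℂ f {0}ᶜ) {r C : ℝ}
    (hr : 1 ≤ r) (h : ∀ z : ℂ, r⁻¹ ≤ ‖z‖ → ‖z‖ ≤ r → ‖f z‖ ≤ C) (m : ℤ) :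
    ‖lc f m‖ ≤ C / r ^ m.natAbs := by
  have hr0 : 0 < r := by linarith
  have hri : r⁻¹ ≤ r := (inv_le_one_of_one_le₀ hr).trans hr
  rcases le_total 0 m with hm | hm
  · have h1 := lc_le hf hr0 (fun z hz => h z (hz ▸ hri) hz.le) m
    obtain ⟨k, rfl⟩ := Int.eq_ofNat_of_zero_le hm
    rw [zpow_neg] at h1
    simpa [div_eq_mul_inv] using h1
  · have h1 := lc_le hf (inv_pos.2 hr0) (fun z hz => h z hz.ge (hz ▸ hri)) m
    obtain ⟨k, hk⟩ := Int.eq_ofNat_of_zero_le (neg_nonneg.2 hm)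
    obtain rfl : m = -(k : ℤ) := by omega
    rw [neg_neg, zpow_natCast, inv_pow] at h1
    simpa [div_eq_mul_inv] using h1

/-- The Laurent series converges absolutely. -/
theorem lc_summable [CompleteSpace E] {f : ℂ → E} (hf : DifferentiableOn ℂ f {0}ᶜ) {A : ℝ}
    (hA : 0 ≤ A) : Summable fun m : ℤ => A ^ m.natAbs * ‖lc f m‖ := by
  have hc : IsCompact {z : ℂ | (2 * A + 1)⁻¹ ≤ ‖z‖ ∧ ‖z‖ ≤ 2 * A + 1} := by
    refine (isCompact_closedBall (0 : ℂ) (2 * A + 1)).of_isClosed_subset ?_ fun z hz => ?_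
    · exact (isClosed_le continuous_const continuous_norm).inter
        (isClosed_le continuous_norm continuous_const)
    · simpa using hz.2
  obtain ⟨C, hC⟩ := hc.exists_bound_of_continuousOn (hf.continuousOn.mono (by
    intro z hz h0
    rw [mem_singleton_iff] at h0
    have h1 := hz.1
    rw [h0, norm_zero] at h1
    have h2 : (0 : ℝ) < (2 * A + 1)⁻¹ := by positivity
    linarith))
  have hb := fun m => lc_abs_le hf (by linarith : (1 : ℝ) ≤ 2 * A + 1)
    (fun z h1 h2 => hC z ⟨h1, h2⟩) m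
  have hC0 : 0 ≤ C := (norm_nonneg _).trans (hC 1 ⟨by
    rw [norm_one]
    exact inv_le_one_of_one_le₀ (by linarith), by rw [norm_one]; linarith⟩)
  have hg : Summable fun m : ℤ => (1 / 2 : ℝ) ^ m.natAbs * C := by
    refine Summable.mul_right C ?_
    refine Summable.of_nat_of_neg ?_ ?_
    · simpa using summable_geometric_of_lt_one (by norm_num : (0 : ℝ) ≤ 1 / 2) (by norm_num)
    · simpa using summable_geometric_of_lt_one (by norm_num : (0 : ℝ) ≤ 1 / 2) (by norm_num)
  refine Summable.of_nonneg_of_le (fun m => by positivity) (fun m => ?_) hg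
  calc A ^ m.natAbs * ‖lc f m‖ ≤ A ^ m.natAbs * (C / (2 * A + 1) ^ m.natAbs) := by
        gcongr; exact hb m
    _ = (A / (2 * A + 1)) ^ m.natAbs * C := by rw [div_pow]; ring
    _ ≤ (1 / 2) ^ m.natAbs * C := by
      refine mul_le_mul_of_nonneg_right (pow_le_pow_left₀ (by positivity) ?_ _) hC0
      rw [div_le_div_iff₀ (by positivity) (by norm_num)]
      linarith

instance fact_two_pi : Fact (0 < 2 * π) := ⟨Real.two_pi_pos⟩

theorem lc_fourier {f : ℂ → ℂ} (hf : DifferentiableOn ℂ f {0}ᶜ) {r : ℝ} (hr : 0 < r)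
    (F : C(AddCircle (2 * π), ℂ)) (hF : ∀ x, F x = f (r * fourier 1 x)) (m : ℤ) :
    fourierCoeff F m = (r : ℂ) ^ m * lc f m := by
  have hr' : (r : ℂ) ≠ 0 := by exact_mod_cast hr.ne'
  rw [fourierCoeff_eq_intervalIntegral F m 0, ← lc_eq hf m hr, circleIntegral, zero_add]
  have h1 : ∀ θ : ℝ, deriv (circleMap 0 r) θ • (circleMap 0 r θ) ^ (-m - 1) • f (circleMap 0 r θ) =
      (I * (r : ℂ) ^ (-m)) • (fourier (-m) (θ : AddCircle (2 * π)) • F θ) := by
    intro θ
    have e1 : fourier 1 (θ : AddCircle (2 * π)) = Complex.exp (θ * I) := by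
      rw [fourier_coe_apply]
      congr 1
      have : (π : ℂ) ≠ 0 := by exact_mod_cast Real.pi_ne_zero
      push_cast
      field_simp
    have e2 : fourier (-m) (θ : AddCircle (2 * π)) = (Complex.exp (θ * I)) ^ (-m) := by
      rw [fourier_coe_apply, ← Complex.exp_int_mul]
      congr 1
      have : (π : ℂ) ≠ 0 := by exact_mod_cast Real.pi_ne_zero
      push_cast
      field_simp
    have e3 : circleMap 0 r θ = r * Complex.exp (θ * I) := by simp [circleMap]
    have h0 : circleMap 0 r θ ≠ 0 := by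
      rw [e3]; exact mul_ne_zero hr' (Complex.exp_ne_zero _)
    rw [hF, deriv_circleMap, e1, e2, zpow_sub_one₀ h0, ← e3, smul_eq_mul, smul_eq_mul, smul_eq_mul,
      smul_eq_mul]
    have e4 : (circleMap 0 r θ) ^ (-m) = (r : ℂ) ^ (-m) * (Complex.exp (θ * I)) ^ (-m) := by
      rw [e3, mul_zpow]
    rw [e4]
    field_simp
  simp_rw [h1]
  rw [intervalIntegral.integral_smul, smul_eq_mul, smul_eq_mul, Complex.real_smul]
  have e5 : (r : ℂ) ^ m * (r : ℂ) ^ (-m) = 1 := by
    rw [← zpow_add₀ hr', add_neg_cancel, zpow_zero]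
  push_cast
  have hI : I ≠ 0 := Complex.I_ne_zero
  have hp : (π : ℂ) ≠ 0 := by exact_mod_cast Real.pi_ne_zero
  field_simp
  linear_combination -(∫ θ in (0 : ℝ)..2 * π, fourier (-m) (θ : AddCircle (2 * π)) * F θ) * e5

/-- Laurent expansion of a complex valued function. -/
theorem lc_hasSum1 {f : ℂ → ℂ} (hf : DifferentiableOn ℂ f {0}ᶜ) {z : ℂ} (hz : z ≠ 0) :
    HasSum (fun m : ℤ => z ^ m * lc f m) (f z) := by
  have hr : 0 < ‖z‖ := norm_pos_iff.2 hz
  have hr' : (‖z‖ : ℂ) ≠ 0 := by exact_mod_cast hr.ne'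
  have hne : ∀ x : AddCircle (2 * π), (‖z‖ : ℂ) * fourier 1 x ≠ 0 := by
    intro x h0
    rcases mul_eq_zero.1 h0 with h | h
    · exact hr' h
    · have h2 : ‖(fourier 1 x : ℂ)‖ = 1 := by
        rw [fourier_apply]
        exact Circle.norm_coe _
      rw [h, norm_zero] at h2
      exact zero_ne_one h2
  set F : C(AddCircle (2 * π), ℂ) := ⟨fun x => f (‖z‖ * fourier 1 x),
    hf.continuousOn.comp_continuous (by fun_prop) fun x => hne x⟩ with hFdef
  have hF : ∀ x, F x = f (‖z‖ * fourier 1 x) := fun x => rfl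
  have hco := lc_fourier hf hr F hF
  have hs : Summable (fourierCoeff F) := by
    have h1 := lc_summable hf (le_max_right ‖z‖ ‖z‖⁻¹ |>.trans' (by positivity) : (0 : ℝ) ≤ max ‖z‖ ‖z‖⁻¹)
    refine Summable.of_norm_bounded h1 fun m => ?_
    rw [hco, norm_mul, norm_zpow, Complex.norm_real, norm_norm]
    refine mul_le_mul_of_nonneg_right ?_ (norm_nonneg _)
    rcases le_total 0 m with hm | hm
    · obtain ⟨k, rfl⟩ := Int.eq_ofNat_of_zero_le hm
      simp only [zpow_natCast, Int.natAbs_natCast]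
      exact pow_le_pow_left₀ hr.le (le_max_left _ _) k
    · obtain ⟨k, hk⟩ := Int.eq_ofNat_of_zero_le (neg_nonneg.2 hm)
      obtain rfl : m = -(k : ℤ) := by omega
      rw [zpow_neg, zpow_natCast, Int.natAbs_neg, Int.natAbs_natCast, ← inv_pow]
      exact pow_le_pow_left₀ (by positivity) (le_max_right _ _) k
  have hps := has_pointwise_sum_fourier_series_of_summable hs (Complex.arg z : AddCircle (2 * π))
  have e1 : (‖z‖ : ℂ) * fourier 1 ((Complex.arg z : ℝ) : AddCircle (2 * π)) = z := by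
    have : fourier 1 ((Complex.arg z : ℝ) : AddCircle (2 * π)) = Complex.exp (Complex.arg z * I) := by
      rw [fourier_coe_apply]
      congr 1
      have : (π : ℂ) ≠ 0 := by exact_mod_cast Real.pi_ne_zero
      push_cast
      field_simp
    rw [this, Complex.norm_mul_exp_arg_mul_I]
  rw [hF, e1] at hps
  have he : (fun m : ℤ => z ^ m * lc f m) = fun m : ℤ => fourierCoeff F m •
      fourier m ((Complex.arg z : ℝ) : AddCircle (2 * π)) := by
    funext m
    have e2 : fourier m ((Complex.arg z : ℝ) : AddCircle (2 * π)) =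
        (Complex.exp (Complex.arg z * I)) ^ m := by
      rw [fourier_coe_apply, ← Complex.exp_int_mul]
      congr 1
      have : (π : ℂ) ≠ 0 := by exact_mod_cast Real.pi_ne_zero
      push_cast
      field_simp
    rw [hco, e2, smul_eq_mul, mul_right_comm, ← mul_zpow, Complex.norm_mul_exp_arg_mul_I]
  rw [he]
  exact hps

theorem lc_apply {σ : Type} [Fintype σ] {f : ℂ → σ → ℂ} (hf : DifferentiableOn ℂ f {0}ᶜ) (m : ℤ)
    (s : σ) : lc f m s = lc (fun z => f z s) m := by
  rw [lc, lc, Pi.smul_apply]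
  congr 1
  have h1 : ContinuousOn (fun z => z ^ (-m - 1) • f z) (sphere (0 : ℂ) |1|) :=
    (lc_diff hf m).continuousOn.mono fun z hz h0 => by
      rw [mem_singleton_iff] at h0
      rw [h0] at hz
      simp at hz
  have h2 : CircleIntegrable (fun z => z ^ (-m - 1) • f z) 0 1 := h1.circleIntegrable'
  simp only [circleIntegral]
  have h3 := h2.out
  have := (ContinuousLinearMap.proj (R := ℂ) (φ := fun _ : σ => ℂ) s).intervalIntegral_comp_comm h3
  simpa using this.symm

/-- Laurent expansion. -/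
theorem lc_hasSum {σ : Type} [Fintype σ] {f : ℂ → σ → ℂ} (hf : DifferentiableOn ℂ f {0}ᶜ) {z : ℂ}
    (hz : z ≠ 0) : HasSum (fun m : ℤ => z ^ m • lc f m) (f z) := by
  refine Pi.hasSum.2 fun s => ?_
  have h := lc_hasSum1 (f := fun z => f z s) (differentiableOn_pi.1 hf s) hz
  have he : (fun m : ℤ => (z ^ m • lc f m) s) = fun m : ℤ => z ^ m * lc (fun z => f z s) m := by
    funext m
    rw [Pi.smul_apply, lc_apply hf, smul_eq_mul]
  rw [he]
  exact h

end Pool.Agent.R871.SG
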