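import Pool.Agent.R871.SG.LaurA
import Pool.Agent.R871.SG.Aff

/-!
Holomorphic maps of slow growth from the punctured plane to affine varieties are limits of maps given
by Laurent polynomials.
-/

set_option autoImplicit false

namespace Pool.Agent.R871.SG

open Filter Topology Metric Set MvPolynomial

section growth

variable {E : Type} [NormedAddCommGroup E] [NormedSpace ℂ E]

/-- For arbitrarily large `r`, `log ‖f z‖ ≤ φ r` on the annulus `1 / r ≤ ‖z‖ ≤ r`. -/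
def SlowL (φ : ℝ → ℝ) (f : ℂ → E) : Prop :=
  ∀ R : ℝ, ∃ r > R, ∀ z, r⁻¹ ≤ ‖z‖ → ‖z‖ ≤ r → Real.log ‖f z‖ ≤ φ r

theorem growthL (δ : ℕ → ℝ) (hδ : ∀ D, 0 < δ D) : ∃ φ : ℝ → ℝ, Grows φ ∧
    ∀ {E : Type} [NormedAddCommGroup E] [NormedSpace ℂ E] [CompleteSpace E] (f : ℂ → E),
      DifferentiableOn ℂ f {0}ᶜ → SlowL φ f → ∀ (A : ℝ) (D₀ : ℕ), 0 ≤ A → ∃ D ≥ D₀,
        ∀ m : ℤ, D < m.natAbs → A ^ m.natAbs * ‖lc f m‖ ≤ δ D := by
  obtain ⟨ρ, hρ⟩ : ∃ ρ : ℕ → ℝ, ∀ D : ℕ, (D : ℝ) + 2 ≤ ρ D ∧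
      ((D : ℝ) ^ (D + 1) / δ D) ^ 2 ≤ ρ D :=
    ⟨fun D => max ((D : ℝ) + 2) (((D : ℝ) ^ (D + 1) / δ D) ^ 2), fun D =>
      ⟨le_max_left _ _, le_max_right _ _⟩⟩
  classical
  set N : ℝ → ℕ := fun r => Nat.findGreatest (fun D => ρ D ≤ r) ⌊r⌋₊ with hN
  have hNlim : ∀ D : ℕ, ∀ r, ρ D ≤ r → D ≤ N r ∧ ρ (N r) ≤ r := by
    intro D r hr
    have hD : D ≤ ⌊r⌋₊ := Nat.le_floor (by
      have := (hρ D).1
      have h0 : (0 : ℝ) ≤ D := D.cast_nonneg
      linarith)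
    exact ⟨Nat.le_findGreatest hD hr, Nat.findGreatest_spec (P := fun D => ρ D ≤ r) hD hr⟩
  refine ⟨fun r => (N r + 1 / 2) * Real.log r, ?_, ?_⟩
  · have h1 : Tendsto (fun r => ((N r : ℝ) + 1 / 2)) atTop atTop := by
      refine tendsto_atTop_mono (f := fun r => (N r : ℝ)) (fun r => by linarith) ?_
      refine tendsto_natCast_atTop_atTop.comp ?_
      refine tendsto_atTop.2 fun D => ?_
      filter_upwards [eventually_ge_atTop (ρ D)] with r hr using (hNlim D r hr).1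
    refine h1.congr' ?_
    filter_upwards [eventually_gt_atTop (1 : ℝ)] with r hr
    have := Real.log_pos hr
    field_simp
  · intro E _ _ _ f hf hs A D₀ hA
    obtain ⟨r, hr, hfr⟩ := hs (max (ρ (max D₀ ⌈A⌉₊)) 2)
    have hr1 : ρ (max D₀ ⌈A⌉₊) ≤ r := (le_max_left _ _).trans hr.le
    have hr2 : 2 ≤ r := (le_max_right _ _).trans hr.le
    obtain ⟨hD1, hD2⟩ := hNlim _ _ hr1
    set D := N r with hDdef
    have hr0 : 0 < r := by linarith
    refine ⟨D, (le_max_left _ _).trans hD1, fun m hm => ?_⟩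
    have hAD : A ≤ D := (Nat.le_ceil A).trans (by exact_mod_cast (le_max_right _ _).trans hD1)
    have hDr2 : (D : ℝ) ≤ r := by have := (hρ D).1; linarith
    have hC : ∀ z, r⁻¹ ≤ ‖z‖ → ‖z‖ ≤ r → ‖f z‖ ≤ Real.exp (((D : ℝ) + 1 / 2) * Real.log r) := by
      intro z h1 h2
      rcases eq_or_lt_of_le (norm_nonneg (f z)) with h4 | h4
      · rw [← h4]; positivity
      · exact (Real.log_le_iff_le_exp h4).1 (hfr z h1 h2)
    have h5 := lc_abs_le hf (by linarith : 1 ≤ r) hC m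
    have hs0 : 0 < Real.sqrt r := Real.sqrt_pos.2 hr0
    have h7 : Real.exp (((D : ℝ) + 1 / 2) * Real.log r) = r ^ D * Real.sqrt r := by
      rw [add_mul, Real.exp_add, mul_comm (D : ℝ), Real.exp_mul, Real.exp_log hr0,
        Real.rpow_natCast, mul_comm (1 / 2 : ℝ), Real.exp_mul, Real.exp_log hr0,
        Real.sqrt_eq_rpow]
    have hss : Real.sqrt r * Real.sqrt r = r := Real.mul_self_sqrt hr0.le
    have h6 : A ^ m.natAbs * (Real.exp (((D : ℝ) + 1 / 2) * Real.log r) / r ^ m.natAbs) ≤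
        (D : ℝ) ^ (D + 1) / Real.sqrt r := by
      rw [h7]
      have e1 : A ^ m.natAbs * (r ^ D * Real.sqrt r / r ^ m.natAbs) =
          (A / r) ^ m.natAbs * (r ^ D * Real.sqrt r) := by
        rw [div_pow]
        field_simp
      rw [e1]
      have h8 : (A / r) ^ m.natAbs ≤ (A / r) ^ (D + 1) := by
        refine pow_le_pow_of_le_one (by positivity) ?_ hm
        rw [div_le_one hr0]
        linarith
      calc (A / r) ^ m.natAbs * (r ^ D * Real.sqrt r) ≤ (A / r) ^ (D + 1) * (r ^ D * Real.sqrt r) := by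
            gcongr
        _ ≤ (D / r) ^ (D + 1) * (r ^ D * Real.sqrt r) := by gcongr
        _ = (D : ℝ) ^ (D + 1) / Real.sqrt r := by
          rw [div_pow, eq_div_iff hs0.ne', pow_succ r D]
          field_simp
          rw [sq, hss]
    have hDr : (D : ℝ) ^ (D + 1) / δ D ≤ Real.sqrt r :=
      Real.le_sqrt_of_sq_le ((hρ D).2.trans hD2)
    have h9 : (D : ℝ) ^ (D + 1) / Real.sqrt r ≤ δ D := by
      rw [div_le_iff₀ (hδ D)] at hDr
      rw [div_le_iff₀ hs0]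
      linarith
    calc A ^ m.natAbs * ‖lc f m‖
        ≤ A ^ m.natAbs * (Real.exp (((D : ℝ) + 1 / 2) * Real.log r) / r ^ m.natAbs) := by gcongr
      _ ≤ _ := h6.trans h9

end growth

variable {σ : Type} [Fintype σ] {ι κ : Type}

/-- The value at `z` of the Laurent polynomial with the coefficients `c`. -/
noncomputable def lp (c : ℤ → σ → ℂ) (D : ℕ) (z : ℂ) : σ → ℂ :=
  ∑ m ∈ Finset.Icc (-(D : ℤ)) D, z ^ m • c m

omit [Fintype σ] in
theorem lp_eq {c : ℤ → σ → ℂ} {D : ℕ} (h : ∀ m : ℤ, D < m.natAbs → c m = 0) (z : ℂ) :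
    ∑' m : ℤ, z ^ m • c m = lp c D z := by
  refine tsum_eq_sum fun m hm => ?_
  rw [h m, smul_zero]
  rw [Finset.mem_Icc] at hm
  omega

omit [Fintype σ] in
theorem lp_hasSum {c : ℤ → σ → ℂ} {D : ℕ} (h : ∀ m : ℤ, D < m.natAbs → c m = 0) (z : ℂ) :
    HasSum (fun m : ℤ => z ^ m • c m) (lp c D z) := by
  refine hasSum_sum_of_ne_finset_zero fun m hm => ?_
  rw [h m, smul_zero]
  rw [Finset.mem_Icc] at hm
  omega

theorem lp_diff (c : ℤ → σ → ℂ) (D : ℕ) : DifferentiableOn ℂ (lp c D) {0}ᶜ := by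
  unfold lp
  refine DifferentiableOn.fun_sum fun m _ => DifferentiableOn.smul_const ?_ _
  intro z hz
  exact (differentiableAt_zpow.2 (Or.inl hz)).differentiableWithinAt

omit [Fintype σ] in
theorem diffOn_ev {f : ℂ → σ → ℂ} {U : Set ℂ} (hf : DifferentiableOn ℂ f U)
    (G : MvPolynomial σ ℂ) : DifferentiableOn ℂ (fun z => eval (f z) G) U := by
  induction G using MvPolynomial.induction_on with
  | C a => simp
  | add p q hp hq => simpa only [map_add] using hp.fun_add hq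
  | mul_X p i hp => simpa only [map_mul, eval_X] using hp.fun_mul (differentiableOn_pi.1 hf i)

/-- A holomorphic function on the punctured plane which vanishes on an annulus vanishes. -/
theorem zero_annulus {h : ℂ → ℂ} (hh : DifferentiableOn ℂ h {0}ᶜ)
    (h0 : ∀ z : ℂ, 1 / 2 ≤ ‖z‖ → ‖z‖ ≤ 2 → h z = 0) {z : ℂ} (hz : z ≠ 0) : h z = 0 := by
  have h1 : AnalyticOnNhd ℂ h {0}ᶜ := hh.analyticOnNhd isOpen_compl_singleton
  have h2 : h =ᶠ[𝓝 1] 0 := by
    filter_upwards [ball_mem_nhds (1 : ℂ) (by norm_num : (0 : ℝ) < 1 / 2)] with z hz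
    rw [mem_ball, dist_eq_norm] at hz
    have h3 := norm_sub_norm_le (1 : ℂ) z
    have h4 := norm_sub_norm_le z 1
    rw [norm_sub_rev] at h3
    rw [norm_one] at h3 h4
    exact h0 z (by linarith) (by linarith)
  have h3 : IsPreconnected ({0}ᶜ : Set ℂ) :=
    (isConnected_compl_singleton_of_one_lt_rank (by simp) (0 : ℂ)).isPreconnected
  exact h1.eqOn_zero_of_preconnected_of_eventuallyEq_zero h3 (by simp) h2 hz

/-- **Holomorphic maps of slow growth on the punctured plane are limits of Laurent polynomials.** -/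
theorem approx_laur (F : ι → MvPolynomial σ ℂ) (K : Set (σ → ℂ)) (hK : IsClosed K) :
    ∃ φ : ℝ → ℝ, Grows φ ∧ ∀ (f : ℂ → σ → ℂ) (w : ℂ), DifferentiableOn ℂ f {0}ᶜ →
      (∀ z, z ≠ 0 → ∀ i, eval (f z) (F i) = 0) → SlowL φ f → w ≠ 0 → f w ∈ K →
      ∀ ρ η : ℝ, 0 < ρ → 0 < η → ∃ (c : ℤ → σ → ℂ) (D : ℕ), (∀ z, z ≠ 0 → ∀ i, eval (lp c D z) (F i) = 0) ∧
        lp c D w ∈ K ∧ ∀ z, ρ⁻¹ ≤ ‖z‖ → ‖z‖ ≤ ρ → ‖lp c D z - f z‖ ≤ η := by
  have hfin : ∀ D : ℕ, {m : ℤ | m.natAbs ≤ D}.Finite := fun D => by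
    refine (Finset.Icc (-(D : ℤ)) D).finite_toSet.subset fun m hm => ?_
    simp only [Finset.coe_Icc, mem_Icc]
    have : m.natAbs ≤ D := hm
    omega
  have hsum : Summable fun m : ℤ => (1 / 2 : ℝ) ^ m.natAbs := by
    refine Summable.of_nat_of_neg ?_ ?_
    · simpa using summable_geometric_of_lt_one (by norm_num : (0 : ℝ) ≤ 1 / 2) (by norm_num)
    · simpa using summable_geometric_of_lt_one (by norm_num : (0 : ℝ) ≤ 1 / 2) (by norm_num)
  -- powers
  have hpow : ∀ (R : ℝ), 1 ≤ R → ∀ z : ℂ, R⁻¹ ≤ ‖z‖ → ‖z‖ ≤ R → ∀ m : ℤ, ‖z ^ m‖ ≤ R ^ m.natAbs := by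
    intro R hR z h1 h2 m
    have hz : 0 < ‖z‖ := lt_of_lt_of_le (by positivity) h1
    rw [norm_zpow]
    rcases le_total 0 m with hm | hm
    · obtain ⟨k, rfl⟩ := Int.eq_ofNat_of_zero_le hm
      simp only [zpow_natCast, Int.natAbs_natCast]
      exact pow_le_pow_left₀ hz.le h2 k
    · obtain ⟨k, hk⟩ := Int.eq_ofNat_of_zero_le (neg_nonneg.2 hm)
      obtain rfl : m = -(k : ℤ) := by omega
      rw [zpow_neg, zpow_natCast, Int.natAbs_neg, Int.natAbs_natCast, ← inv_pow]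
      exact pow_le_pow_left₀ (by positivity) (inv_le_of_inv_le₀ (by positivity) h1) k
  set e : {z : ℂ // 1 / 2 ≤ ‖z‖ ∧ ‖z‖ ≤ 2} → ℤ → ℂ := fun z m => (z : ℂ) ^ m with he
  have he2 : ∀ t m, ‖e t m‖ ≤ 2 ^ m.natAbs := fun t m =>
    hpow 2 (by norm_num) t.1 (by simpa using t.2.1) t.2.2 m
  obtain ⟨δ, hδ, hap⟩ := approx_gen (E := σ → ℂ) (fun m : ℤ => m.natAbs) hfin hsum
    (fun _ => univ) (fun _ => isClosed_univ) e he2
    (fun t => {x | (∀ i, eval x (F i) = 0) ∧ ((t : ℂ) = 1 → x ∈ K)}) (fun t => by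
      have : {x : σ → ℂ | (∀ i, eval x (F i) = 0) ∧ ((t : ℂ) = 1 → x ∈ K)} =
          (⋂ i, {x | eval x (F i) = 0}) ∩ {x | (t : ℂ) = 1 → x ∈ K} := by
        ext x; simp
      rw [this]
      refine (isClosed_iInter fun i => isClosed_eq (cont_ev (F i)) continuous_const).inter ?_
      by_cases ht : (t : ℂ) = 1
      · simpa [ht] using hK
      · simp [ht])
  obtain ⟨φ, hφ, hgr⟩ := growthL δ hδ
  refine ⟨φ, hφ, fun f w hf hfF hs hw hfw ρ η hρ0 hη => ?_⟩
  have hw0 : 0 < ‖w‖ := norm_pos_iff.2 hw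
  set W : ℝ := max ‖w‖ ‖w‖⁻¹ with hW
  have hW1 : 1 ≤ W := by
    rcases le_total 1 ‖w‖ with h | h
    · exact h.trans (le_max_left _ _)
    · exact ((one_le_inv₀ hw0).2 h).trans (le_max_right _ _)
  have hWi : W⁻¹ ≤ ‖w‖ := inv_le_of_inv_le₀ hw0 (le_max_right _ _)
  set c : ℤ → σ → ℂ := fun m => w ^ m • lc f m with hc
  have hcn : ∀ m, ‖c m‖ ≤ W ^ m.natAbs * ‖lc f m‖ := fun m => by
    rw [hc]
    simp only
    rw [norm_smul]
    exact mul_le_mul_of_nonneg_right (hpow W hW1 w hWi (le_max_left _ _) m) (norm_nonneg _)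
  have hcs : ∀ z, z ≠ 0 → HasSum (fun m => z ^ m • c m) (f (w * z)) := by
    intro z hz
    have h := lc_hasSum hf (mul_ne_zero hw hz)
    have e : (fun m : ℤ => z ^ m • c m) = fun m : ℤ => (w * z) ^ m • lc f m := by
      funext m
      rw [hc]
      simp only
      rw [smul_smul, mul_zpow, mul_comm]
    rw [e]; exact h
  have htn : ∀ t : {z : ℂ // 1 / 2 ≤ ‖z‖ ∧ ‖z‖ ≤ 2}, (t : ℂ) ≠ 0 := by
    intro t h0
    have := t.2.1
    rw [h0, norm_zero] at this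
    norm_num at this
  set ρ1 : ℝ := max ρ 1 * W with hρ1
  have hρ1' : 1 ≤ ρ1 := by
    rw [hρ1]
    have := le_max_right ρ 1
    nlinarith
  obtain ⟨c', D, hc'0, -, hc'C, hc's, hc'η⟩ := hap c (fun _ => mem_univ _) (fun t => by
      have h1 : ∑' m, e t m • c m = f (w * t) := (hcs t (htn t)).tsum_eq
      rw [h1]
      refine ⟨fun i => hfF _ (mul_ne_zero hw (htn t)) i, fun ht => ?_⟩
      rw [ht, mul_one]
      exact hfw)
    (fun A hA => Summable.of_nonneg_of_le (fun m => by positivity) (fun m => by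
      calc A ^ m.natAbs * ‖c m‖ ≤ A ^ m.natAbs * (W ^ m.natAbs * ‖lc f m‖) := by
            gcongr; exact hcn m
        _ = (A * W) ^ m.natAbs * ‖lc f m‖ := by rw [mul_pow]; ring)
      (lc_summable hf (by positivity : 0 ≤ A * W)))
    (fun D₀ => by
      obtain ⟨D, hD, h⟩ := hgr f hf hs (4 * W) D₀ (by positivity)
      refine ⟨D, hD, fun m hm => le_trans ?_ (h m hm)⟩
      calc 4 ^ m.natAbs * ‖c m‖ ≤ 4 ^ m.natAbs * (W ^ m.natAbs * ‖lc f m‖) := by
            gcongr; exact hcn m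
        _ = (4 * W) ^ m.natAbs * ‖lc f m‖ := by rw [mul_pow]; ring)
    ρ1 η (by linarith) hη
  -- the Laurent polynomial
  have hev : ∀ z, lp (fun m => w⁻¹ ^ m • c' m) D z = lp c' D (z / w) := by
    intro z
    unfold lp
    refine Finset.sum_congr rfl fun m _ => ?_
    rw [smul_smul, ← mul_zpow, div_eq_mul_inv]
  refine ⟨fun m => w⁻¹ ^ m • c' m, D, fun z hz i => ?_, ?_, fun z hz1 hz2 => ?_⟩
  · rw [hev]
    have hz' : z / w ≠ 0 := div_ne_zero hz hw
    exact zero_annulus (h := fun z => eval (lp c' D z) (F i)) (diffOn_ev (lp_diff c' D) (F i))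
      (fun z h1 h2 => by
        have h3 := (hc'C ⟨z, h1, h2⟩).1 i
        have h4 : ∑' m, e ⟨z, h1, h2⟩ m • c' m = lp c' D z := lp_eq hc'0 z
        rwa [h4] at h3) hz'
  · rw [hev, div_self hw]
    have h3 := (hc'C ⟨1, by rw [norm_one]; norm_num, by rw [norm_one]; norm_num⟩).2 rfl
    have h4 : ∑' m, e ⟨1, by rw [norm_one]; norm_num, by rw [norm_one]; norm_num⟩ m • c' m =
        lp c' D 1 := lp_eq hc'0 1
    rwa [h4] at h3
  · rw [hev]
    have hz0 : z ≠ 0 := by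
      intro h0
      rw [h0, norm_zero] at hz1
      have : 0 < ρ⁻¹ := by positivity
      linarith
    have hz' : z / w ≠ 0 := div_ne_zero hz0 hw
    have h1 := (lp_hasSum hc'0 (z / w)).sub (hcs (z / w) hz')
    rw [mul_div_cancel₀ z hw] at h1
    have hb : ∀ m : ℤ, ‖(z / w) ^ m • c' m - (z / w) ^ m • c m‖ ≤ ρ1 ^ m.natAbs * ‖c' m - c m‖ := by
      intro m
      rw [← smul_sub, norm_smul]
      refine mul_le_mul_of_nonneg_right (hpow ρ1 hρ1' (z / w) ?_ ?_ m) (norm_nonneg _)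
      · rw [norm_div, hρ1, mul_inv, div_eq_mul_inv]
        have h2 : (max ρ 1)⁻¹ ≤ ρ⁻¹ := inv_anti₀ hρ0 (le_max_left _ _)
        have h3 : W⁻¹ ≤ ‖w‖⁻¹ := inv_anti₀ hw0 (le_max_left _ _)
        exact mul_le_mul (h2.trans hz1) h3 (by positivity) (norm_nonneg z)
      · rw [norm_div, hρ1, div_eq_mul_inv]
        exact mul_le_mul (hz2.trans (le_max_left _ _)) (le_max_right _ _) (by positivity)
          (by positivity)
    exact (h1.tsum_eq ▸ tsum_of_norm_bounded hc's.hasSum hb).trans hc'η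

end Pool.Agent.R871.SG
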