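import Pool.Agent.R871.SG.LaurB
import Pool.Agent.R871.SG.Rel

/-!
Holomorphic maps of slow growth from the punctured plane to varieties which are projective over an
affine variety, and algebraic maps from the multiplicative group.
-/

set_option autoImplicit false

namespace Pool.Agent.R871.SG

open Filter Topology Metric Set MvPolynomial

variable {n m : ℕ} {ι κ : Type}

/-- `f` is a holomorphic map from the punctured plane to the closed subvariety `{F = 0}` of
`ℙⁿ × ℂᵐ`: the components are homogeneous coordinates without common zeros, and affine coordinates. -/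
def HolMapL (F : ι → Pol2 n m) (f : ℂ → (Fin (n + 1) → ℂ) × (Fin m → ℂ)) : Prop :=
  DifferentiableOn ℂ f {0}ᶜ ∧ (∀ z, z ≠ 0 → (f z).1 ≠ 0) ∧ ∀ z, z ≠ 0 → ∀ i, ev2 (f z) (F i) = 0

/-- `f` is not constant as a map from the punctured plane to `ℙⁿ × ℂᵐ`. -/
def NonConstL (f : ℂ → (Fin (n + 1) → ℂ) × (Fin m → ℂ)) : Prop :=
  ∃ z w, z ≠ 0 ∧ w ≠ 0 ∧ ((∀ a : ℂ, (f w).1 ≠ a • (f z).1) ∨ (f w).2 ≠ (f z).2)

/-- The values of the polynomials `P` and of the Laurent polynomials `R / z ^ k`; so this is an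
algebraic map from the multiplicative group if it is a holomorphic map. -/
noncomputable def pvL (P : Fin (n + 1) → Polynomial ℂ) (R : Fin m → Polynomial ℂ) (k : ℕ) (z : ℂ) :
    (Fin (n + 1) → ℂ) × (Fin m → ℂ) :=
  (fun j => (P j).eval z, fun j => (R j).eval z / z ^ k)

/-- Every holomorphic map `f` from the punctured plane to `V = {F = 0}` with `f w ∈ K` which
satisfies the growth condition `SlowL φ` is a limit, uniformly on compact sets, of algebraic maps
from the multiplicative group to `V` which are at `w` in `K`. -/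
def LimitsOfAlgL (F : ι → Pol2 n m) (K : Set ((Fin (n + 1) → ℂ) × (Fin m → ℂ))) (φ : ℝ → ℝ) :
    Prop :=
  ∀ f, HolMapL F f → SlowL φ f → ∀ w, w ≠ 0 → f w ∈ K → ∀ ρ η : ℝ, 0 < ρ → 0 < η →
    ∃ (q : Polynomial ℂ) (l : ℕ) (P : Fin (n + 1) → Polynomial ℂ) (R : Fin m → Polynomial ℂ) (k : ℕ),
      HolMapL F (pvL P R k) ∧ pvL P R k w ∈ K ∧
      ∀ z, ρ⁻¹ ≤ ‖z‖ → ‖z‖ ≤ ρ →
        ‖((q.eval z / z ^ l) • (pvL P R k z).1, (pvL P R k z).2) - f z‖ ≤ η

/-- All nonconstant algebraic maps from the multiplicative group to `V = {F = 0}` which meet `K` have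
their image in `Z = {G = 0}`. -/
def AlgInL (F : ι → Pol2 n m) (K : Set ((Fin (n + 1) → ℂ) × (Fin m → ℂ))) (G : κ → Pol2 n m) :
    Prop :=
  ∀ P R k, HolMapL F (pvL P R k) → NonConstL (pvL P R k) → (∃ w, w ≠ 0 ∧ pvL P R k w ∈ K) →
    ∀ z, z ≠ 0 → ∀ k', ev2 (pvL P R k z) (G k') = 0

/-- All nonconstant holomorphic maps from the punctured plane to `V = {F = 0}` which meet `K` and
satisfy the growth condition `SlowL φ` have their image in `Z = {G = 0}`. -/
def SlowInL (F : ι → Pol2 n m) (K : Set ((Fin (n + 1) → ℂ) × (Fin m → ℂ))) (φ : ℝ → ℝ)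
    (G : κ → Pol2 n m) : Prop :=
  ∀ f, HolMapL F f → NonConstL f → SlowL φ f → (∃ w, w ≠ 0 ∧ f w ∈ K) →
    ∀ z, z ≠ 0 → ∀ k, ev2 (f z) (G k) = 0

theorem pvL_diff (P : Fin (n + 1) → Polynomial ℂ) (R : Fin m → Polynomial ℂ) (k : ℕ) :
    DifferentiableOn ℂ (pvL P R k) {0}ᶜ := by
  refine DifferentiableOn.prodMk ?_ ?_
  · exact (differentiable_pi.2 fun j => (P j).differentiable).differentiableOn
  · refine differentiableOn_pi.2 fun j => ?_
    refine (R j).differentiable.differentiableOn.div (by fun_prop) fun z hz => pow_ne_zero k hz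

theorem reduceL (F : ι → Pol2 n m) (hF : ∀ i, ∃ d, (F i).IsHomogeneous d)
    {P : Fin (n + 1) → Polynomial ℂ} {R : Fin m → Polynomial ℂ} {k : ℕ}
    (hP : ∃ z, (pvL P R k z).1 ≠ 0)
    (hPF : ∀ z, z ≠ 0 → ∀ i, ev2 (pvL P R k z) (F i) = 0) :
    ∃ (q : Polynomial ℂ) (P' : Fin (n + 1) → Polynomial ℂ),
      (∀ z, (pvL P R k z).1 = q.eval z • (pvL P' R k z).1) ∧ HolMapL F (pvL P' R k) := by
  obtain ⟨q, P', hP', hq, hne⟩ := clear hP
  have hqP : ∀ z, (pvL P R k z).1 = q.eval z • (pvL P' R k z).1 := by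
    intro z
    ext j
    simp [pvL, hP' j]
  refine ⟨q, P', hqP, pvL_diff P' R k, fun z _ => hne z, fun z0 hz0 i => ?_⟩
  obtain ⟨d, hd⟩ := hF i
  have h1 : ∀ z, z ≠ 0 → q.eval z ≠ 0 → ev2 (pvL P' R k z) (F i) = 0 := by
    intro z hz0 hz
    have h2 := hPF z hz0 i
    have h3 : pvL P R k z = (q.eval z • (pvL P' R k z).1, (pvL P' R k z).2) := by
      rw [← hqP z]; rfl
    rw [h3, ev2_smul hd] at h2
    exact (mul_eq_zero.1 h2).resolve_left (pow_ne_zero _ hz)
  by_contra hcon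
  have hcont : ContinuousAt (fun z => ev2 (pvL P' R k z) (F i)) z0 :=
    (cont_ev2 (F i)).continuousAt.comp ((pvL_diff P' R k).continuousOn.continuousAt
      (isOpen_compl_singleton.mem_nhds hz0))
  have hdense : Dense {z : ℂ | z ≠ 0 ∧ q.eval z ≠ 0} := by
    have hfin : {z : ℂ | z = 0 ∨ q.eval z = 0}.Finite := by
      refine ((finite_singleton (0 : ℂ)).union (q.roots.toFinset.finite_toSet)).subset fun z hz => ?_
      rcases hz with hz | hz
      · exact Or.inl hz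
      · exact Or.inr (by simpa [Polynomial.mem_roots hq] using hz)
    have : {z : ℂ | z ≠ 0 ∧ q.eval z ≠ 0} = {z : ℂ | z = 0 ∨ q.eval z = 0}ᶜ := by
      ext; simp [not_or]
    rw [this]
    exact hfin.countable.dense_compl ℂ
  obtain ⟨z, hz1, hz2⟩ := hdense.inter_nhds_nonempty (hcont.eventually_ne hcon)
  exact hz2 (h1 z hz1.1 hz1.2)

theorem pow_slowL {E : Type} [NormedAddCommGroup E] {φ : ℝ → ℝ} (hφ : Grows φ) {f : ℂ → E} {C : ℝ}
    {d : ℕ} (hb : ∀ r : ℝ, 1 ≤ r → ∀ z : ℂ, r⁻¹ ≤ ‖z‖ → ‖z‖ ≤ r → ‖f z‖ ≤ C * r ^ d) :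
    SlowL φ f := by
  intro R
  have h5 : ∀ᶠ r in atTop, ((d : ℝ) + 1) ≤ φ r / Real.log r := hφ.eventually_ge_atTop _
  obtain ⟨r, hr1, hr2, hr3, hr4⟩ := (h5.and ((eventually_gt_atTop R).and
    ((eventually_ge_atTop C).and (eventually_gt_atTop (1 : ℝ))))).exists
  refine ⟨r, hr2, fun z hz1 hz => ?_⟩
  have hlog : 0 < Real.log r := Real.log_pos hr4
  rw [le_div_iff₀ hlog] at hr1
  refine le_trans ?_ hr1
  rcases eq_or_lt_of_le (norm_nonneg (f z)) with h6 | h6
  · rw [← h6, Real.log_zero]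
    positivity
  · rw [Real.log_le_iff_le_exp h6]
    refine (hb r hr4.le z hz1 hz).trans ?_
    have h7 : Real.exp (((d : ℝ) + 1) * Real.log r) = r ^ d * r := by
      rw [add_mul, Real.exp_add, mul_comm (d : ℝ), Real.exp_mul, Real.exp_log (by linarith),
        Real.rpow_natCast, one_mul, Real.exp_log (by linarith)]
    rw [h7, mul_comm]
    gcongr

theorem poly_bd (p : Polynomial ℂ) : ∃ C : ℝ, 0 ≤ C ∧ ∀ r : ℝ, 1 ≤ r → ∀ z : ℂ, ‖z‖ ≤ r →
    ‖p.eval z‖ ≤ C * r ^ p.natDegree := by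
  refine ⟨∑ i ∈ Finset.range (p.natDegree + 1), ‖p.coeff i‖, by positivity, fun r hr z hz => ?_⟩
  rw [Polynomial.eval_eq_sum_range, Finset.sum_mul]
  refine (norm_sum_le _ _).trans (Finset.sum_le_sum fun i hi => ?_)
  rw [norm_mul, norm_pow]
  refine mul_le_mul_of_nonneg_left ?_ (norm_nonneg _)
  calc ‖z‖ ^ i ≤ r ^ i := pow_le_pow_left₀ (norm_nonneg z) hz i
    _ ≤ r ^ p.natDegree := pow_le_pow_right₀ hr (by simp at hi; omega)

theorem pvL_slow {φ : ℝ → ℝ} (hφ : Grows φ) (P : Fin (n + 1) → Polynomial ℂ)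
    (R : Fin m → Polynomial ℂ) (k : ℕ) : SlowL φ (pvL P R k) := by
  choose A hA hAb using fun j => poly_bd (P j)
  choose B hB hBb using fun j => poly_bd (R j)
  set d : ℕ := ∑ j, (P j).natDegree + ∑ j, (R j).natDegree + k with hd
  have hA1 : ∀ j, A j ≤ ∑ j, A j + ∑ j, B j := fun j => by
    have h1 := Finset.single_le_sum (f := A) (fun j _ => hA j) (Finset.mem_univ j)
    have h2 := Finset.sum_nonneg (s := Finset.univ) (f := B) fun j _ => hB j
    linarith
  have hB1 : ∀ j, B j ≤ ∑ j, A j + ∑ j, B j := fun j => by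
    have h1 := Finset.single_le_sum (f := B) (fun j _ => hB j) (Finset.mem_univ j)
    have h2 := Finset.sum_nonneg (s := Finset.univ) (f := A) fun j _ => hA j
    linarith
  have hC0 : 0 ≤ ∑ j, A j + ∑ j, B j :=
    add_nonneg (Finset.sum_nonneg fun j _ => hA j) (Finset.sum_nonneg fun j _ => hB j)
  refine pow_slowL (C := ∑ j, A j + ∑ j, B j) (d := d) hφ fun r hr z hz1 hz2 => ?_
  have hr0 : 0 < r := by linarith
  refine (Prod.norm_def _).trans_le (max_le ?_ ?_)
  · refine (pi_norm_le_iff_of_nonneg (by positivity)).2 fun j => ?_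
    refine (hAb j r hr z hz2).trans (mul_le_mul (hA1 j) (pow_le_pow_right₀ hr ?_) (by positivity) hC0)
    have := Finset.single_le_sum (f := fun j => (P j).natDegree) (fun j _ => Nat.zero_le _)
      (Finset.mem_univ j)
    omega
  · refine (pi_norm_le_iff_of_nonneg (by positivity)).2 fun j => ?_
    have h1 := hBb j r hr z hz2
    have hz0 : 0 < ‖z‖ := lt_of_lt_of_le (by positivity) hz1
    have h2 : (‖z‖ ^ k)⁻¹ ≤ r ^ k := by
      rw [← inv_pow]
      exact pow_le_pow_left₀ (by positivity) (inv_le_of_inv_le₀ hr0 hz1) k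
    have h3 : ‖(R j).eval z / z ^ k‖ ≤ B j * r ^ (R j).natDegree * r ^ k := by
      rw [norm_div, norm_pow, div_eq_mul_inv]
      exact mul_le_mul h1 h2 (by positivity) (mul_nonneg (hB j) (by positivity))
    refine h3.trans ?_
    rw [mul_assoc, ← pow_add]
    refine mul_le_mul (hB1 j) (pow_le_pow_right₀ hr ?_) (by positivity) hC0
    have := Finset.single_le_sum (f := fun j => (R j).natDegree) (fun j _ => Nat.zero_le _)
      (Finset.mem_univ j)
    omega

/-- The Laurent polynomials times `z ^ D` as polynomials. -/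
noncomputable def lpoly {σ : Type} (c : ℤ → σ → ℂ) (D : ℕ) (s : σ) : Polynomial ℂ :=
  ∑ i ∈ Finset.range (2 * D + 1), Polynomial.C (c ((i : ℤ) - D) s) * Polynomial.X ^ i

theorem lpoly_eval {σ : Type} (c : ℤ → σ → ℂ) (D : ℕ) (s : σ) {z : ℂ} (hz : z ≠ 0) :
    (lpoly c D s).eval z = z ^ D * lp c D z s := by
  have h1 : lp c D z s = ∑ i ∈ Finset.range (2 * D + 1), z ^ ((i : ℤ) - D) * c ((i : ℤ) - D) s := by
    unfold lp
    rw [Finset.sum_apply]
    simp only [Pi.smul_apply, smul_eq_mul]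
    refine Finset.sum_bij' (fun m _ => (m + D).toNat) (fun i _ => (i : ℤ) - D) ?_ ?_ ?_ ?_ ?_
    · intro m hm
      rw [Finset.mem_Icc] at hm
      rw [Finset.mem_range]
      omega
    · intro i hi
      rw [Finset.mem_range] at hi
      rw [Finset.mem_Icc]
      omega
    · intro m hm
      rw [Finset.mem_Icc] at hm
      omega
    · intro i hi
      omega
    · intro m hm
      rw [Finset.mem_Icc] at hm
      have : (((m + D).toNat : ℕ) : ℤ) - D = m := by omega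
      rw [this]
  rw [h1, lpoly, Polynomial.eval_finsetSum, Finset.mul_sum]
  refine Finset.sum_congr rfl fun i _ => ?_
  rw [Polynomial.eval_mul, Polynomial.eval_C, Polynomial.eval_pow, Polynomial.eval_X,
    zpow_sub₀ hz, zpow_natCast, zpow_natCast]
  field_simp

theorem limits_algL (F : ι → Pol2 n m) (hF : ∀ i, ∃ d, (F i).IsHomogeneous d)
    {K : Set ((Fin (n + 1) → ℂ) × (Fin m → ℂ))} (hK : IsClosed K)
    (hKs : ∀ (a : ℂ), ∀ p ∈ K, (a • p.1, p.2) ∈ K) : ∃ φ : ℝ → ℝ, Grows φ ∧ LimitsOfAlgL F K φ := by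
  set K' : Set (Fin (n + 1) ⊕ Fin m → ℂ) :=
    (fun v => ((fun j => v (Sum.inl j), fun j => v (Sum.inr j)) :
      (Fin (n + 1) → ℂ) × (Fin m → ℂ))) ⁻¹' K with hK'
  have hK'c : IsClosed K' := hK.preimage (by fun_prop)
  obtain ⟨φ, hφ, h⟩ := approx_laur (fun i => iterToSum ℂ (Fin (n + 1)) (Fin m) (F i)) K' hK'c
  refine ⟨φ, hφ, fun f hf hs w hw0 hw ρ η hρ hη => ?_⟩
  set g : ℂ → Fin (n + 1) ⊕ Fin m → ℂ := fun z => Sum.elim (f z).1 (f z).2 with hg
  have hgd : DifferentiableOn ℂ g {0}ᶜ := by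
    refine differentiableOn_pi.2 fun s => ?_
    rcases s with s | s
    · exact differentiableOn_pi.1 (differentiable_fst.comp_differentiableOn hf.1) s
    · exact differentiableOn_pi.1 (differentiable_snd.comp_differentiableOn hf.1) s
  have hgn : ∀ z, ‖g z‖ = ‖f z‖ := by
    intro z
    apply le_antisymm
    · refine (pi_norm_le_iff_of_nonneg (norm_nonneg _)).2 fun s => ?_
      rcases s with s | s
      · exact (norm_le_pi_norm (f z).1 s).trans (norm_fst_le _)
      · exact (norm_le_pi_norm (f z).2 s).trans (norm_snd_le _)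
    · refine (Prod.norm_def _).trans_le (max_le ?_ ?_)
      · exact (pi_norm_le_iff_of_nonneg (norm_nonneg _)).2 fun j =>
          norm_le_pi_norm (g z) (Sum.inl j)
      · exact (pi_norm_le_iff_of_nonneg (norm_nonneg _)).2 fun j =>
          norm_le_pi_norm (g z) (Sum.inr j)
  have hgs : SlowL φ g := by
    intro T
    obtain ⟨r, hr, hz⟩ := hs T
    exact ⟨r, hr, fun z hz1 hz2 => by rw [hgn]; exact hz z hz1 hz2⟩
  have hfw : 0 < ‖(f w).1‖ := norm_pos_iff.2 (hf.2.1 w hw0)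
  have hwn : 0 < ‖w‖ := norm_pos_iff.2 hw0
  set ρ1 : ℝ := max ρ (max ‖w‖ ‖w‖⁻¹) with hρ1
  have hρ1p : 0 < ρ1 := hρ.trans_le (le_max_left _ _)
  obtain ⟨c, D, hcF, hcK, hcc⟩ := h g w hgd (fun z hz i => by
    rw [hg, eval_iter]; exact hf.2.2 z hz i) hgs hw0 (by simpa [hK', hg] using hw) ρ1
      (min η (‖(f w).1‖ / 2)) hρ1p (lt_min hη (by positivity))
  -- the polynomials
  set P : Fin (n + 1) → Polynomial ℂ := fun j => lpoly c D (Sum.inl j) with hP
  set R : Fin m → Polynomial ℂ := fun j => lpoly c D (Sum.inr j) with hR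
  have hev : ∀ z, z ≠ 0 → lp c D z = Sum.elim ((z ^ D)⁻¹ • (pvL P R D z).1) (pvL P R D z).2 := by
    intro z hz
    have hzD : z ^ D ≠ 0 := pow_ne_zero D hz
    ext s
    rcases s with s | s
    · simp only [Sum.elim_inl, Pi.smul_apply, smul_eq_mul, pvL, hP]
      rw [lpoly_eval c D _ hz]
      field_simp
    · simp only [Sum.elim_inr, pvL, hR]
      rw [lpoly_eval c D _ hz]
      field_simp
  have hcl : ∀ z, z ≠ 0 → ‖((z ^ D)⁻¹ • (pvL P R D z).1, (pvL P R D z).2) - f z‖ ≤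
      ‖lp c D z - g z‖ := by
    intro z hz
    rw [hev z hz, hg]
    refine (Prod.norm_def _).trans_le (max_le ?_ ?_)
    · exact (pi_norm_le_iff_of_nonneg (norm_nonneg _)).2 fun j =>
        norm_le_pi_norm (Sum.elim ((z ^ D)⁻¹ • (pvL P R D z).1) (pvL P R D z).2 -
          Sum.elim (f z).1 (f z).2) (Sum.inl j)
    · exact (pi_norm_le_iff_of_nonneg (norm_nonneg _)).2 fun j =>
        norm_le_pi_norm (Sum.elim ((z ^ D)⁻¹ • (pvL P R D z).1) (pvL P R D z).2 -
          Sum.elim (f z).1 (f z).2) (Sum.inr j)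
  have hww : ρ1⁻¹ ≤ ‖w‖ := inv_le_of_inv_le₀ hwn ((le_max_right _ _).trans (le_max_right _ _))
  have hcw : ‖(w ^ D)⁻¹ • (pvL P R D w).1 - (f w).1‖ ≤ ‖(f w).1‖ / 2 := by
    have h1 := (hcc w hww ((le_max_left _ _).trans (le_max_right _ _))).trans (min_le_right _ _)
    have h2 := hcl w hw0
    exact (norm_fst_le (((w ^ D)⁻¹ • (pvL P R D w).1, (pvL P R D w).2) - f w)).trans (h2.trans h1)
  have hne : (pvL P R D w).1 ≠ 0 := by
    intro h0
    rw [h0, smul_zero, zero_sub, norm_neg] at hcw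
    linarith
  have hPF : ∀ z, z ≠ 0 → ∀ i, ev2 (pvL P R D z) (F i) = 0 := by
    intro z hz i
    obtain ⟨d, hd⟩ := hF i
    have h1 := hcF z hz i
    rw [hev z hz] at h1
    have h2 := eval_iter ((z ^ D)⁻¹ • (pvL P R D z).1, (pvL P R D z).2) (F i)
    rw [h2, ev2_smul hd] at h1
    exact (mul_eq_zero.1 h1).resolve_left (pow_ne_zero _ (inv_ne_zero (pow_ne_zero D hz)))
  obtain ⟨q, P', hqP, hP'⟩ := reduceL F hF ⟨w, hne⟩ hPF
  have hqw : q.eval w ≠ 0 := by
    intro h0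
    rw [hqP, h0, zero_smul] at hne
    exact hne rfl
  refine ⟨q, D, P', R, D, hP', ?_, fun z hz1 hz2 => ?_⟩
  · have h1 : (pvL P' R D w).1 = (w ^ D * (q.eval w)⁻¹) • ((w ^ D)⁻¹ • (pvL P R D w).1) := by
      have h0 := pow_ne_zero D hw0
      rw [hqP, smul_smul, smul_smul]
      have : w ^ D * (Polynomial.eval w q)⁻¹ * (w ^ D)⁻¹ * Polynomial.eval w q = 1 := by
        field_simp
      rw [this, one_smul]
    have h2 : pvL P' R D w = ((w ^ D * (q.eval w)⁻¹) • ((w ^ D)⁻¹ • (pvL P R D w).1),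
        (pvL P R D w).2) := by
      rw [← h1]; rfl
    rw [h2]
    have h3 : lp c D w ∈ K' := hcK
    rw [hev w hw0] at h3
    have h4 : (((w ^ D)⁻¹ • (pvL P R D w).1, (pvL P R D w).2) :
      (Fin (n + 1) → ℂ) × (Fin m → ℂ)) ∈ K := h3
    exact hKs _ _ h4
  · have hz0 : z ≠ 0 := by
      intro h0
      rw [h0, norm_zero] at hz1
      have : 0 < ρ⁻¹ := by positivity
      linarith
    have h2 := hcc z ((inv_anti₀ hρ (le_max_left _ _)).trans hz1) (hz2.trans (le_max_left _ _))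
    have h3 : (q.eval z / z ^ D) • (pvL P' R D z).1 = (z ^ D)⁻¹ • (pvL P R D z).1 := by
      rw [hqP, smul_smul, div_eq_mul_inv, mul_comm]
    rw [h3]
    exact (hcl z hz0).trans (h2.trans (min_le_left _ _))

theorem slow_iffL {F : ι → Pol2 n m} {K : Set ((Fin (n + 1) → ℂ) × (Fin m → ℂ))} {φ : ℝ → ℝ}
    (hφ : Grows φ) (h : LimitsOfAlgL F K φ) {G : κ → Pol2 n m}
    (hG : ∀ k, ∃ d, (G k).IsHomogeneous d) : AlgInL F K G ↔ SlowInL F K φ G := by
  constructor
  swap
  · intro hS P R k hP hPn hPK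
    exact hS (pvL P R k) hP hPn (pvL_slow hφ P R k) hPK
  rintro hR f hf ⟨za, zb, hza, hzb, hab⟩ hs ⟨w, hw0, hw⟩ z hz k
  obtain ⟨e, he⟩ := hG k
  -- closeness which implies that an approximation is not constant
  obtain ⟨ε, hε, hnb⟩ : ∃ ε > 0, ∀ (g : ℂ → (Fin (n + 1) → ℂ) × (Fin m → ℂ)) (a b : ℂ),
      ‖(a • (g za).1, (g za).2) - f za‖ < ε → ‖(b • (g zb).1, (g zb).2) - f zb‖ < ε →
      NonConstL g := by
    rcases hab with hab | hab
    · obtain ⟨i, j, hij⟩ := minors (hf.2.1 za hza) hab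
      have hcont : Continuous fun p : (Fin (n + 1) → ℂ) × (Fin (n + 1) → ℂ) =>
          p.1 i * p.2 j - p.1 j * p.2 i := by fun_prop
      have hnb := hcont.continuousAt (x := ((f za).1, (f zb).1)) |>.eventually_ne hij
      rw [Metric.eventually_nhds_iff] at hnb
      obtain ⟨ε, hε, hnb⟩ := hnb
      refine ⟨ε, hε, fun g a b h1 h2 => ⟨za, zb, hza, hzb, Or.inl fun t ht => ?_⟩⟩
      refine hnb (y := (a • (g za).1, b • (g zb).1)) ?_ ?_
      · rw [Prod.dist_eq, max_lt_iff, dist_eq_norm, dist_eq_norm]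
        exact ⟨(norm_fst_le ((a • (g za).1, (g za).2) - f za)).trans_lt h1,
          (norm_fst_le ((b • (g zb).1, (g zb).2) - f zb)).trans_lt h2⟩
      · simp only [ht, Pi.smul_apply, smul_eq_mul]
        ring
    · have hd : 0 < ‖(f zb).2 - (f za).2‖ := norm_pos_iff.2 (sub_ne_zero.2 hab)
      refine ⟨‖(f zb).2 - (f za).2‖ / 2, by positivity, fun g a b h1 h2 =>
        ⟨za, zb, hza, hzb, Or.inr fun ha => ?_⟩⟩
      have h3 := (norm_snd_le ((a • (g za).1, (g za).2) - f za)).trans_lt h1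
      have h4 := (norm_snd_le ((b • (g zb).1, (g zb).2) - f zb)).trans_lt h2
      simp only [Prod.snd_sub] at h3 h4
      rw [ha] at h4
      have h5 : (f zb).2 - (f za).2 = ((g za).2 - (f za).2) - ((g za).2 - (f zb).2) := by
        abel
      have h6 := norm_sub_le ((g za).2 - (f za).2) ((g za).2 - (f zb).2)
      rw [← h5] at h6
      linarith
  -- a radius
  obtain ⟨ρ, hρ, hin⟩ : ∃ ρ : ℝ, 0 < ρ ∧ ∀ y, y = za ∨ y = zb ∨ y = z → ρ⁻¹ ≤ ‖y‖ ∧ ‖y‖ ≤ ρ := by
    have ha := norm_pos_iff.2 hza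
    have hb := norm_pos_iff.2 hzb
    have hc := norm_pos_iff.2 hz
    refine ⟨‖za‖ + ‖zb‖ + ‖z‖ + ‖za‖⁻¹ + ‖zb‖⁻¹ + ‖z‖⁻¹, by positivity, fun y hy => ?_⟩
    have h1 := inv_pos.2 ha
    have h2 := inv_pos.2 hb
    have h3 := inv_pos.2 hc
    rcases hy with rfl | rfl | rfl
    · exact ⟨inv_le_of_inv_le₀ ha (by linarith), by linarith⟩
    · exact ⟨inv_le_of_inv_le₀ hb (by linarith), by linarith⟩
    · exact ⟨inv_le_of_inv_le₀ hc (by linarith), by linarith⟩
  have h3 : ∀ l : ℕ, ∃ x' : (Fin (n + 1) → ℂ) × (Fin m → ℂ), ‖x' - f z‖ ≤ 1 / ((l : ℝ) + 1) ∧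
      ev2 x' (G k) = 0 := by
    intro l
    obtain ⟨q, l', P, R, k', hP, hPK, hc⟩ := h f hf hs w hw0 hw ρ
      (min (1 / ((l : ℝ) + 1)) (ε / 2)) hρ (lt_min (by positivity) (by positivity))
    have hca := (hc za (hin za (Or.inl rfl)).1 (hin za (Or.inl rfl)).2).trans (min_le_right _ _)
    have hcb := (hc zb (hin zb (Or.inr (Or.inl rfl))).1 (hin zb (Or.inr (Or.inl rfl))).2).trans
      (min_le_right _ _)
    have hncP : NonConstL (pvL P R k') := hnb (pvL P R k') _ _ (by linarith) (by linarith)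
    refine ⟨((q.eval z / z ^ l') • (pvL P R k' z).1, (pvL P R k' z).2),
      (hc z (hin z (Or.inr (Or.inr rfl))).1 (hin z (Or.inr (Or.inr rfl))).2).trans
        (min_le_left _ _), ?_⟩
    rw [ev2_smul he, hR P R k' hP hncP ⟨w, hw0, hPK⟩ z hz k, mul_zero]
  choose x hx1 hx2 using h3
  have h4 : Tendsto x atTop (𝓝 (f z)) := by
    rw [tendsto_iff_norm_sub_tendsto_zero]
    exact squeeze_zero (fun _ => norm_nonneg _) hx1 tendsto_one_div_add_atTop_nhds_zero_nat
  have h5 := ((cont_ev2 (G k)).tendsto _).comp h4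
  refine tendsto_nhds_unique h5 ?_
  simp only [Function.comp_def, hx2]
  exact tendsto_const_nhds

end Pool.Agent.R871.SG
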