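import Pool.Agent.R871.SG.DiscC

/-!
The set of the points on algebraic images of the affine line of bounded degree is closed.
-/

set_option autoImplicit false

namespace Pool.Agent.R871.SG

open Filter Topology Metric Set MvPolynomial

variable {n : ℕ}

/-- The cone over the union of the images of all nonconstant algebraic maps from the affine line to
the subset of `ℙⁿ` with the cone `Y`, given by polynomials of degree at most `d` without common
zeros. -/
def lineSet (Y : Set (Fin (n + 1) → ℂ)) (d : ℕ) : Set (Fin (n + 1) → ℂ) :=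
  {x | ∃ P : Fin (n + 1) → Polynomial ℂ, (∀ s, (P s).natDegree ≤ d) ∧
    (∀ z : ℂ, pv P z ≠ 0 ∧ pv P z ∈ Y) ∧ NonConst (pv P) ∧ ∃ z a : ℂ, x = a • pv P z}

theorem lineSet_smul {Y : Set (Fin (n + 1) → ℂ)} {d : ℕ} (a : ℂ) :
    ∀ x ∈ lineSet Y d, a • x ∈ lineSet Y d := by
  rintro x ⟨P, h1, h2, h3, z, c, rfl⟩
  exact ⟨P, h1, h2, h3, z, a * c, smul_smul _ _ _⟩

theorem curve_of_coeffs {X : Set (Fin (n + 1) → ℂ)} (hX : IsClosed X)
    (hs : ∀ (a : ℂ), ∀ x ∈ X, a • x ∈ X) {H : MvPolynomial (Fin (n + 1)) ℂ}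
    (hH : ∃ e, H.IsHomogeneous e) {d : ℕ} {b : ℕ → Fin (n + 1) → ℂ}
    (hb : ∀ z : ℂ, ∑ i ∈ Finset.range (d + 1), z ^ i • b i ∈ X)
    (hbH : ∀ z : ℂ, eval (∑ i ∈ Finset.range (d + 1), z ^ i • b i) H ≠ 0) (hb0 : b 0 ≠ 0)
    (hnc : ¬ ∃ v : Fin (n + 1) → ℂ, ∀ i ≤ d, ∃ a : ℂ, b i = a • v) :
    b 0 ∈ lineSet {x | x ∈ X ∧ eval x H ≠ 0} d := by
  set P : Fin (n + 1) → Polynomial ℂ := fun s =>
    ∑ i ∈ Finset.range (d + 1), Polynomial.C (b i s) * Polynomial.X ^ i with hP
  have hPv : ∀ z, pv P z = ∑ i ∈ Finset.range (d + 1), z ^ i • b i := by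
    intro z
    ext s
    simp only [pv, hP, Polynomial.eval_finsetSum, Polynomial.eval_mul, Polynomial.eval_C,
      Polynomial.eval_pow, Polynomial.eval_X, Finset.sum_apply, Pi.smul_apply, smul_eq_mul]
    exact Finset.sum_congr rfl fun i _ => mul_comm _ _
  have hP0 : pv P 0 = b 0 := by
    rw [hPv, Finset.sum_eq_single 0 (fun l _ hl => by rw [zero_pow hl, zero_smul])
      (fun h => absurd (Finset.mem_range.2 (by omega)) h), pow_zero, one_smul]
  have hPd : ∀ s, (P s).natDegree ≤ d := by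
    intro s
    refine Polynomial.natDegree_sum_le_of_forall_le _ _ fun l hl => ?_
    have := Finset.mem_range.1 hl
    exact (Polynomial.natDegree_C_mul_X_pow_le _ _).trans (by omega)
  have hPc : ∀ s, ∀ i ≤ d, (P s).coeff i = b i s := by
    intro s i hi
    rw [hP]
    simp only
    rw [Polynomial.finsetSum_coeff]
    simp only [Polynomial.coeff_C_mul, Polynomial.coeff_X_pow, mul_ite, mul_one, mul_zero]
    rw [Finset.sum_ite_eq]
    simp [Nat.lt_succ_iff.2 hi]
  obtain ⟨q, P', hP', hq, hne⟩ := clear (P := P) ⟨0, by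
    change pv P 0 ≠ 0
    rw [hP0]; exact hb0⟩
  have hqP : ∀ z, pv P z = q.eval z • pv P' z := by
    intro z
    ext j
    simp [pv, hP' j]
  have hd' : ∀ j, (P' j).natDegree ≤ d := by
    intro j
    by_cases hj : P' j = 0
    · rw [hj]; simp
    · have h1 := Polynomial.natDegree_mul hq hj
      rw [← hP' j] at h1
      have := hPd j
      omega
  have hdense : Dense {z : ℂ | q.eval z ≠ 0} := by
    have hfin : {z : ℂ | q.eval z = 0}.Finite := by
      refine (q.roots.toFinset.finite_toSet).subset fun z hz => ?_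
      simpa [Polynomial.mem_roots hq] using hz
    have : {z : ℂ | q.eval z ≠ 0} = {z : ℂ | q.eval z = 0}ᶜ := by ext; simp
    rw [this]
    exact hfin.countable.dense_compl ℂ
  have hpc : Continuous (pv P') := continuous_pi fun j => (P' j).continuous
  have hcl : IsClosed {z : ℂ | pv P' z ∈ X} := hX.preimage hpc
  have hin : ∀ z, q.eval z ≠ 0 → pv P' z ∈ X := by
    intro z hz
    have h1 : pv P' z = (q.eval z)⁻¹ • pv P z := by
      rw [hqP z, smul_smul, inv_mul_cancel₀ hz, one_smul]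
    rw [h1, hPv z]
    exact hs _ _ (hb z)
  have hall : ∀ z, pv P' z ∈ X := by
    intro z
    have h1 := closure_minimal (s := {z : ℂ | q.eval z ≠ 0}) (fun w hw => hin w hw) hcl
    rw [hdense.closure_eq] at h1
    exact h1 (mem_univ z)
  obtain ⟨e, he⟩ := hH
  refine ⟨P', hd', fun z => ⟨hne z, hall z, ?_⟩, ?_, 0, q.eval 0, ?_⟩
  · have h3 := hbH z
    rw [← hPv, hqP, eval_smul_form he] at h3
    exact right_ne_zero_of_mul h3
  · by_contra hcon
    apply hnc
    unfold NonConst at hcon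
    push Not at hcon
    set v := pv P' 0 with hv
    obtain ⟨t, ht⟩ : ∃ t, v t ≠ 0 := by
      by_contra hcon
      push Not at hcon
      exact hne 0 (funext hcon)
    refine ⟨v, fun i hi => ⟨b i t / v t, ?_⟩⟩
    have hpol : ∀ s, P s * Polynomial.C (v t) = P t * Polynomial.C (v s) := by
      intro s
      refine Polynomial.funext fun z => ?_
      obtain ⟨c, hc⟩ := hcon 0 z
      have e1 : ∀ s, (P s).eval z = q.eval z * (c * v s) := by
        intro s
        have h1 := congrFun (hqP z) s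
        rw [hc] at h1
        exact h1
      rw [Polynomial.eval_mul, Polynomial.eval_mul, Polynomial.eval_C, Polynomial.eval_C, e1, e1]
      ring
    ext s
    have h1 := congrArg (fun p => Polynomial.coeff p i) (hpol s)
    simp only [Polynomial.coeff_mul_C] at h1
    rw [hPc s i hi, hPc t i hi] at h1
    simp only [Pi.smul_apply, smul_eq_mul]
    field_simp
    linear_combination h1
  · rw [← hqP, hP0]

/-- A bubble in a closed cone: there is a nonconstant rational curve through the point `v`. -/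
theorem bubble4 {X : Set (Fin (n + 1) → ℂ)} (hX : IsClosed X) (hs : ∀ (a : ℂ), ∀ x ∈ X, a • x ∈ X)
    {H : MvPolynomial (Fin (n + 1)) ℂ} (hH : H.IsHomogeneous 0) {d : ℕ} :
    ∀ μ : ℕ, 1 ≤ μ → μ ≤ d → ∀ (v : Fin (n + 1) → ℂ) (q : Polynomial ℂ) (ρ : ℝ), v ≠ 0 → 0 < ρ →
      (∀ j < μ, q.coeff j = 0) → q.coeff μ ≠ 0 →
      (∀ ε > 0, ∃ f : ℂ → Fin (n + 1) → ℂ, DifferentiableOn ℂ f (ball 0 ρ) ∧
        (∀ z ∈ ball (0 : ℂ) ρ, f z ≠ 0 ∧ f z ∈ {x | x ∈ X ∧ eval x H ≠ 0}) ∧
        ∀ z ∈ ball (0 : ℂ) ρ, ‖f z - q.eval z • v‖ ≤ ε) →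
      v ∈ lineSet {x | x ∈ X ∧ eval x H ≠ 0} d := by
  intro μ
  induction μ using Nat.strong_induction_on with
  | _ μ ih =>
  intro hμ hμd v q ρ hv hρ hqj hqμ h
  have hH0 : ∀ x y : Fin (n + 1) → ℂ, eval x H = eval y H := by
    intro x y
    have h1 : ∀ x : Fin (n + 1) → ℂ, eval x H = eval 0 H := by
      intro x
      have := eval_smul_form hH 0 x
      rw [pow_zero, one_mul, zero_smul] at this
      exact this.symm
    rw [h1 x, h1 y]
  obtain ⟨g, hg1, hg2⟩ := exists_dual_vector ℂ v (norm_ne_zero_iff.2 hv)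
  have hgv : g v ≠ 0 := by
    rw [hg2]
    simpa using hv
  have hYs : ∀ (a : ℂ), a ≠ 0 → ∀ x ∈ {x : Fin (n + 1) → ℂ | x ∈ X ∧ eval x H ≠ 0},
      a • x ∈ {x : Fin (n + 1) → ℂ | x ∈ X ∧ eval x H ≠ 0} := by
    intro a ha x hx
    exact ⟨hs a x hx.1, by rw [hH0 (a • x) x]; exact hx.2⟩
  have hHne : ∀ x : Fin (n + 1) → ℂ, eval x H ≠ 0 := by
    intro x
    obtain ⟨f, _, hf2, _⟩ := h 1 one_pos
    rw [hH0 x (f 0)]
    exact (hf2 0 (mem_ball_self hρ)).2.2
  obtain ⟨b, hbμ, hbl, hgb, ⟨j1, hj1, hj1n⟩, hconv⟩ :=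
    bubble_step hYs μ hμ v q ρ g hg1 hgv hρ hqj hqμ h
  have hbμ0 : b μ ≠ 0 := by rw [hbμ]; exact smul_ne_zero hqμ hv
  -- the limit lies in the cone
  have hQX : ∀ w : ℂ, ∑ j ∈ Finset.range (μ + 1), w ^ j • b j ∈ X := by
    intro w
    refine hX.closure_subset (Metric.mem_closure_iff.2 fun ε hε => ?_)
    obtain ⟨f, _, hf2, hf3⟩ := hconv (‖w‖ + 1) (by positivity) (ε / 2) (half_pos hε)
    have hw : w ∈ ball (0 : ℂ) (‖w‖ + 1) := by
      rw [mem_ball_zero_iff]; linarith
    refine ⟨f w, (hf2 w hw).2.1, ?_⟩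
    rw [dist_comm, dist_eq_norm]
    exact (hf3 w hw).trans_lt (half_lt_self hε)
  by_cases hconst : ∃ v' : Fin (n + 1) → ℂ, ∀ i ≤ μ, ∃ a : ℂ, b i = a • v'
  · obtain ⟨v', hv'⟩ := hconst
    choose! a ha using hv'
    have haμ : a μ ≠ 0 := by
      intro h0
      apply hbμ0
      rw [ha μ le_rfl, h0, zero_smul]
    have hv'0 : v' ≠ 0 := by
      rintro rfl
      apply hbμ0
      rw [ha μ le_rfl, smul_zero]
    have hgv' : g v' ≠ 0 := by
      intro h0
      have h1 := ha μ le_rfl
      rw [hbμ] at h1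
      have h2 := congrArg g h1
      rw [map_smul, map_smul, h0, smul_zero, smul_eq_mul, mul_eq_zero] at h2
      exact h2.elim hqμ hgv
    have ha0 : a 0 = 0 := by
      rw [ha 0 (by omega), map_smul, smul_eq_mul, mul_eq_zero] at hgb
      exact hgb.resolve_right hgv'
    -- the new polynomial
    set q' : Polynomial ℂ := ∑ j ∈ Finset.range (μ + 1), Polynomial.C (a j) * Polynomial.X ^ j with hq'
    have hq'c : ∀ j ≤ μ, q'.coeff j = a j := by
      intro j hj
      rw [hq', Polynomial.finsetSum_coeff]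
      simp only [Polynomial.coeff_C_mul, Polynomial.coeff_X_pow, mul_ite, mul_one, mul_zero]
      rw [Finset.sum_ite_eq]
      simp [Nat.lt_succ_iff.2 hj]
    have hq'e : ∀ w, q'.eval w • v' = ∑ j ∈ Finset.range (μ + 1), w ^ j • b j := by
      intro w
      rw [hq', Polynomial.eval_finsetSum, Finset.sum_smul]
      refine Finset.sum_congr rfl fun j hj => ?_
      have hj' : j ≤ μ := by
        have := Finset.mem_range.1 hj
        omega
      rw [ha j hj', smul_smul, Polynomial.eval_mul, Polynomial.eval_C, Polynomial.eval_pow,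
        Polynomial.eval_X, mul_comm]
    have haj1 : q'.coeff j1 ≠ 0 := by
      rw [hq'c j1 hj1.le]
      intro h0
      have h1 := ha j1 hj1.le
      rw [h0, zero_smul] at h1
      rw [h1, norm_zero] at hj1n
      exact zero_ne_one hj1n
    classical
    have hex : ∃ j, q'.coeff j ≠ 0 := ⟨j1, haj1⟩
    have hlt : Nat.find hex < μ := (Nat.find_min' hex haj1).trans_lt hj1
    have hge : 1 ≤ Nat.find hex := by
      rw [Nat.one_le_iff_ne_zero]
      intro h0
      have := Nat.find_spec hex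
      rw [h0, hq'c 0 (by omega)] at this
      exact this ha0
    have hv'Z := ih (Nat.find hex) hlt hge (by omega) v' q' 1 hv'0 one_pos
      (fun j hj => not_not.1 (Nat.find_min hex hj)) (Nat.find_spec hex) fun ε hε => by
        obtain ⟨f, hf1, hf2, hf3⟩ := hconv 1 one_pos ε hε
        exact ⟨f, hf1, hf2, fun z hz => by rw [hq'e]; exact hf3 z hz⟩
    have hv : v = ((q.coeff μ)⁻¹ * a μ) • v' := by
      rw [mul_smul, ← ha μ le_rfl, hbμ, smul_smul, inv_mul_cancel₀ hqμ, one_smul]
    rw [hv]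
    exact lineSet_smul _ _ hv'Z
  · -- the reversed curve
    set b' : ℕ → Fin (n + 1) → ℂ := fun i => if i ≤ μ then b (μ - i) else 0 with hb'
    have hb'0 : b' 0 = b μ := by simp [hb']
    have hsum : ∀ z : ℂ, ∑ i ∈ Finset.range (d + 1), z ^ i • b' i =
        ∑ i ∈ Finset.range (μ + 1), z ^ i • b (μ - i) := by
      intro z
      rw [← Finset.sum_subset (Finset.range_subset_range.2 (show μ + 1 ≤ d + 1 by omega))
        fun j _ hj => ?_]
      · refine Finset.sum_congr rfl fun i hi => ?_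
        have := Finset.mem_range.1 hi
        simp only [hb']
        rw [if_pos (by omega)]
      · rw [Finset.mem_range, not_lt] at hj
        simp only [hb']
        rw [if_neg (by omega), smul_zero]
    have hrev : ∀ z : ℂ, z ≠ 0 → ∑ i ∈ Finset.range (μ + 1), z ^ i • b (μ - i) =
        z ^ μ • ∑ j ∈ Finset.range (μ + 1), (z⁻¹) ^ j • b j := by
      intro z hz
      rw [Finset.smul_sum, ← Finset.sum_range_reflect]
      refine Finset.sum_congr rfl fun i hi => ?_
      have hi' := Finset.mem_range.1 hi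
      rw [show μ + 1 - 1 - i = μ - i by omega, show μ - (μ - i) = i by omega, smul_smul]
      congr 1
      have : z ^ μ = z ^ (μ - i) * z ^ i := by rw [← pow_add]; congr 1; omega
      rw [this, mul_assoc, ← mul_pow, mul_inv_cancel₀ hz, one_pow, mul_one]
    have hin : ∀ z : ℂ, ∑ i ∈ Finset.range (d + 1), z ^ i • b' i ∈ X := by
      have hc : Continuous fun z : ℂ => ∑ i ∈ Finset.range (d + 1), z ^ i • b' i :=
        continuous_finsetSum _ fun l _ => (continuous_id.pow l).smul continuous_const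
      have hcl : IsClosed {z : ℂ | ∑ i ∈ Finset.range (d + 1), z ^ i • b' i ∈ X} := hX.preimage hc
      have h2 := closure_minimal (s := ({0}ᶜ : Set ℂ)) (fun w hw => by
        have hw' : w ≠ 0 := hw
        change ∑ i ∈ Finset.range (d + 1), w ^ i • b' i ∈ X
        rw [hsum, hrev w hw']
        exact hs _ _ (hQX _)) hcl
      rw [(dense_compl_singleton (0 : ℂ)).closure_eq] at h2
      exact fun z => h2 (mem_univ z)
    have h3 := curve_of_coeffs hX hs ⟨0, hH⟩ hin (fun z => hHne _) (by rw [hb'0]; exact hbμ0)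
      (fun ⟨v', hv'⟩ => hconst ⟨v', fun i hi => by
        have h4 := hv' (μ - i) (by omega)
        simp only [hb'] at h4
        rw [if_pos (by omega), show μ - (μ - i) = i by omega] at h4
        exact h4⟩)
    rw [hb'0, hbμ] at h3
    have h4 := lineSet_smul (q.coeff μ)⁻¹ _ h3
    rwa [smul_smul, inv_mul_cancel₀ hqμ, one_smul] at h4

end Pool.Agent.R871.SG
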