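import Pool.Agent.R871.SG.LineA

/-!
The locus of the algebraic images of the affine line of bounded degree, and the discs of bounded
index.
-/

set_option autoImplicit false

namespace Pool.Agent.R871.SG

open Filter Topology Metric Set MvPolynomial

variable {n : ℕ}

theorem poly_scale {E : Type} [NormedAddCommGroup E] {c : ℕ → E} {d : ℕ} (h0 : c 0 ≠ 0)
    (h1 : ∃ l, 1 ≤ l ∧ l ≤ d ∧ c l ≠ 0) :
    ∃ s : ℝ, 0 < s ∧ (∀ l : ℕ, 1 ≤ l → l ≤ d → ‖c l‖ * s ^ l ≤ ‖c 0‖) ∧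
      ∃ l : ℕ, 1 ≤ l ∧ l ≤ d ∧ ‖c l‖ * s ^ l = ‖c 0‖ := by
  obtain ⟨j, hj1, hjd, hj⟩ := h1
  have hA : 0 < ‖c 0‖ := norm_pos_iff.2 h0
  have hB : 0 < ‖c j‖ := norm_pos_iff.2 hj
  set f : ℕ → ℝ := fun l => (‖c l‖ / ‖c 0‖) ^ ((l : ℝ)⁻¹) with hf
  have hf0 : ∀ l, 0 ≤ f l := fun l => Real.rpow_nonneg (by positivity) _
  have hfp : ∀ l, 1 ≤ l → f l ^ l = ‖c l‖ / ‖c 0‖ := fun l hl =>
    Real.rpow_inv_natCast_pow (by positivity) (by omega)
  obtain ⟨l0, hl0, hmx⟩ := Finset.exists_max_image (Finset.Icc 1 d) f ⟨j, Finset.mem_Icc.2 ⟨hj1, hjd⟩⟩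
  obtain ⟨hl1, hl2⟩ := Finset.mem_Icc.1 hl0
  set σ := f l0 with hσ
  have hfj : 0 < f j := Real.rpow_pos_of_pos (by positivity) _
  have hσ0 : 0 < σ := hfj.trans_le (hmx j (Finset.mem_Icc.2 ⟨hj1, hjd⟩))
  refine ⟨σ⁻¹, inv_pos.2 hσ0, fun l h1 h2 => ?_, l0, hl1, hl2, ?_⟩
  · have h3 : ‖c l‖ / ‖c 0‖ ≤ σ ^ l := by
      rw [← hfp l h1]
      exact pow_le_pow_left₀ (hf0 l) (hmx l (Finset.mem_Icc.2 ⟨h1, h2⟩)) _
    rw [inv_pow, ← div_eq_mul_inv, div_le_iff₀ (by positivity), mul_comm]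
    exact (div_le_iff₀ hA).1 h3
  · have h3 := hfp l0 hl1
    rw [eq_div_iff hA.ne'] at h3
    rw [inv_pow, ← div_eq_mul_inv, div_eq_iff (by positivity), mul_comm ‖c 0‖]
    exact h3.symm

/-- The Taylor expansion of a polynomial curve. -/
theorem curve_taylor {P : Fin (n + 1) → Polynomial ℂ} {d : ℕ} (hPd : ∀ s, (P s).natDegree ≤ d)
    (z0 z : ℂ) : ∑ m ∈ Finset.range (d + 1), z ^ m • (fun s => (Polynomial.taylor z0 (P s)).coeff m :
      Fin (n + 1) → ℂ) = pv P (z0 + z) := by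
  ext s
  rw [Finset.sum_apply]
  have h3 : (Polynomial.taylor z0 (P s)).eval z = (P s).eval (z0 + z) := by
    rw [Polynomial.taylor_eval, add_comm]
  change _ = (P s).eval (z0 + z)
  rw [← h3, Polynomial.eval_eq_sum_range' (n := d + 1) (by
    rw [Polynomial.natDegree_taylor]
    exact Nat.lt_succ_of_le (hPd s))]
  exact Finset.sum_congr rfl fun m _ => by simp [mul_comm]

/-- A normalized curve through a given point. -/
theorem normal_curve {X : Set (Fin (n + 1) → ℂ)} (hs : ∀ (a : ℂ), ∀ x ∈ X, a • x ∈ X)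
    {H : MvPolynomial (Fin (n + 1)) ℂ} (hH : ∃ e, H.IsHomogeneous e) {d : ℕ}
    {x : Fin (n + 1) → ℂ} (hx : x ∈ lineSet {x | x ∈ X ∧ eval x H ≠ 0} d) :
    ∃ (b : ℕ → Fin (n + 1) → ℂ) (κ : ℂ), x = κ • b 0 ∧ ‖b 0‖ = 1 ∧ (∀ l ≤ d, ‖b l‖ ≤ 1) ∧
      (∃ l, 1 ≤ l ∧ l ≤ d ∧ ‖b l‖ = 1) ∧
      ∀ w : ℂ, ∑ l ∈ Finset.range (d + 1), w ^ l • b l ≠ 0 ∧
        ∑ l ∈ Finset.range (d + 1), w ^ l • b l ∈ X ∧
        eval (∑ l ∈ Finset.range (d + 1), w ^ l • b l) H ≠ 0 := by
  obtain ⟨P, hPd, hP, hnc, z0, a, rfl⟩ := hx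
  set c : ℕ → Fin (n + 1) → ℂ := fun m s => (Polynomial.taylor z0 (P s)).coeff m with hc
  have hsum : ∀ z, ∑ m ∈ Finset.range (d + 1), z ^ m • c m = pv P (z0 + z) := curve_taylor hPd z0
  have hc0 : c 0 = pv P z0 := by
    ext s
    simp [hc, pv]
  have hc0' : c 0 ≠ 0 := by rw [hc0]; exact (hP z0).1
  have hA : 0 < ‖c 0‖ := norm_pos_iff.2 hc0'
  have hex : ∃ l, 1 ≤ l ∧ l ≤ d ∧ c l ≠ 0 := by
    by_contra hcon
    push Not at hcon
    have hconst : ∀ z, pv P (z0 + z) = c 0 := by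
      intro z
      rw [← hsum, Finset.sum_eq_single 0 (fun l hl hl0 => by
        rw [hcon l (by omega) (by have := Finset.mem_range.1 hl; omega), smul_zero])
        (fun h => absurd (Finset.mem_range.2 (by omega)) h), pow_zero, one_smul]
    obtain ⟨z, w, hzw⟩ := hnc
    apply hzw 1
    have h1 := hconst (z - z0)
    have h2 := hconst (w - z0)
    rw [add_sub_cancel] at h1 h2
    rw [h1, h2, one_smul]
  obtain ⟨s, hs0, hwin, l0, hl1, hl2, hl3⟩ := poly_scale hc0' hex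
  have hbn : ∀ l : ℕ, ‖((s ^ l / ‖c 0‖ : ℝ) : ℂ) • c l‖ = ‖c l‖ * s ^ l / ‖c 0‖ := by
    intro l
    rw [norm_smul, Complex.norm_real, Real.norm_of_nonneg (by positivity)]
    ring
  have hAC : (‖c 0‖ : ℂ) ≠ 0 := by exact_mod_cast hA.ne'
  have hval : ∀ w : ℂ, ∑ l ∈ Finset.range (d + 1), w ^ l • (((s ^ l / ‖c 0‖ : ℝ) : ℂ) • c l) =
      (‖c 0‖ : ℂ)⁻¹ • pv P (z0 + (s : ℂ) * w) := by
    intro w
    rw [← hsum, Finset.smul_sum]
    refine Finset.sum_congr rfl fun l _ => ?_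
    rw [smul_smul, smul_smul]
    congr 1
    push_cast
    rw [mul_pow]
    ring
  refine ⟨fun l => ((s ^ l / ‖c 0‖ : ℝ) : ℂ) • c l, a * ‖c 0‖, ?_, ?_, fun l hl => ?_,
    ⟨l0, hl1, hl2, ?_⟩, fun w => ?_⟩
  · rw [← hc0, smul_smul]
    congr 1
    push_cast
    rw [pow_zero]
    field_simp
  · rw [hbn, pow_zero, mul_one, div_self hA.ne']
  · rw [hbn, div_le_one hA]
    rcases Nat.eq_zero_or_pos l with rfl | hl0
    · simp
    · exact hwin l hl0 hl
  · rw [hbn, hl3, div_self hA.ne']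
  · rw [hval]
    have h1 := hP (z0 + (s : ℂ) * w)
    obtain ⟨e, he⟩ := hH
    refine ⟨smul_ne_zero (inv_ne_zero hAC) h1.1, hs _ _ h1.2.1, ?_⟩
    rw [eval_smul_form he]
    exact mul_ne_zero (pow_ne_zero _ (inv_ne_zero hAC)) h1.2.2

/-- **Closedness.** The set of the points of `X` which lie in `D = X ∩ {H = 0}` or on the image of a
nonconstant algebraic map of degree at most `d` from the affine line to `X ∖ D` is closed. -/
theorem lineSet_closed {X : Set (Fin (n + 1) → ℂ)} (hX : IsClosed X)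
    (hs : ∀ (a : ℂ), ∀ x ∈ X, a • x ∈ X) {H : MvPolynomial (Fin (n + 1)) ℂ}
    (hH : ∃ e, H.IsHomogeneous e) (d : ℕ) :
    IsClosed ({x | x ∈ X ∧ eval x H = 0} ∪ lineSet {x | x ∈ X ∧ eval x H ≠ 0} d) := by
  have hsub : lineSet {x | x ∈ X ∧ eval x H ≠ 0} d ⊆ X := by
    rintro x ⟨P, _, hP, _, z, a, rfl⟩
    exact hs _ _ (hP z).2.1
  refine IsSeqClosed.isClosed fun x x0 hx hx0 => ?_
  have hxX : x0 ∈ X := hX.mem_of_tendsto hx0 (Eventually.of_forall fun i => by
    rcases hx i with h | h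
    · exact h.1
    · exact hsub h)
  by_cases hH0 : eval x0 H = 0
  · exact Or.inl ⟨hxX, hH0⟩
  right
  have hev : ∀ᶠ i in atTop, eval (x i) H ≠ 0 :=
    (((MvPolynomial.continuous_eval H).tendsto x0).comp hx0).eventually_ne hH0
  have hev2 : ∀ᶠ i in atTop, ‖x i‖ < ‖x0‖ + 1 := hx0.norm.eventually_lt_const (by linarith)
  obtain ⟨N, hN⟩ := eventually_atTop.1 (hev.and hev2)
  have hline : ∀ i, x (i + N) ∈ lineSet {x | x ∈ X ∧ eval x H ≠ 0} d := by
    intro i
    rcases hx (i + N) with h | h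
    · exact absurd h.2 (hN (i + N) (by omega)).1
    · exact h
  by_cases hx00 : x0 = 0
  · rw [hx00, ← zero_smul ℂ (x (0 + N))]
    exact lineSet_smul _ _ (hline 0)
  choose b κ hκ hb0 hb1 hb2 hbV using fun i => normal_curve hs hH (hline i)
  have hκn : ∀ i, κ i ∈ closedBall (0 : ℂ) (‖x0‖ + 1) := by
    intro i
    rw [mem_closedBall_zero_iff]
    have h1 : ‖x (i + N)‖ = ‖κ i‖ := by
      conv_lhs => rw [hκ i]
      rw [norm_smul, hb0, mul_one]
    rw [← h1]
    exact (hN (i + N) (by omega)).2.le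
  obtain ⟨⟨κ0, β⟩, hκβ, φ, hφ, hφl⟩ := ((isCompact_closedBall (0 : ℂ) (‖x0‖ + 1)).prod
    (compact_window (E := Fin (n + 1) → ℂ) d)).tendsto_subseq
    (x := fun i => (κ i, fun (l : Fin (d + 1)) => b i l)) fun i => by
      refine ⟨hκn i, ⟨fun l => hb1 i l (by have := l.2; omega), hb0 i⟩, ?_⟩
      obtain ⟨l, h1, h2, h3⟩ := hb2 i
      refine ⟨⟨l, by omega⟩, ?_, h3⟩
      intro h
      have := congrArg Fin.val h
      simp only [Fin.val_zero] at this
      omega
  have hφa := hφ.tendsto_atTop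
  have hβ : ((∀ j, ‖β j‖ ≤ 1) ∧ ‖β 0‖ = 1) ∧ ∃ j, j ≠ 0 ∧ ‖β j‖ = 1 := hκβ.2
  have hκl : Tendsto (fun i => κ (φ i)) atTop (𝓝 κ0) := (continuous_fst.tendsto _).comp hφl
  have hβl : ∀ l, Tendsto (fun i => b (φ i) (l : Fin (d + 1))) atTop (𝓝 (β l)) := fun l =>
    tendsto_pi_nhds.1 ((continuous_snd.tendsto _).comp hφl) l
  set b' : ℕ → Fin (n + 1) → ℂ := fun l => if hl : l < d + 1 then β ⟨l, hl⟩ else 0 with hb'
  have hb'l : ∀ l (hl : l < d + 1), b' l = β ⟨l, hl⟩ := fun l hl => dif_pos hl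
  have hb'0 : b' 0 = β 0 := hb'l 0 (by omega)
  have hx0e : x0 = κ0 • b' 0 := by
    have h1 : Tendsto (fun i => κ (φ i) • b (φ i) 0) atTop (𝓝 (κ0 • b' 0)) := by
      rw [hb'0]
      exact hκl.smul (hβl 0)
    have h2 : Tendsto (fun i => κ (φ i) • b (φ i) 0) atTop (𝓝 x0) := by
      have h3 : (fun i => κ (φ i) • b (φ i) 0) = fun i => x (φ i + N) := by
        funext i
        exact (hκ (φ i)).symm
      rw [h3]
      exact hx0.comp ((tendsto_add_atTop_nat N).comp hφa)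
    exact tendsto_nhds_unique h2 h1
  rw [hx0e]
  refine lineSet_smul _ _ ?_
  set Q : ℂ → Fin (n + 1) → ℂ := fun w => ∑ l ∈ Finset.range (d + 1), w ^ l • b' l with hQ
  have hQ0 : Q 0 = b' 0 := by
    rw [hQ]
    simp only
    rw [Finset.sum_eq_single 0 (fun l _ hl => by rw [zero_pow hl, zero_smul])
      (fun h => absurd (Finset.mem_range.2 (by omega)) h), pow_zero, one_smul]
  have hconv : ∀ R : ℝ, 1 ≤ R → ∀ ε > 0, ∀ᶠ i in atTop, ∀ w : ℂ, ‖w‖ ≤ R →
      ‖∑ l ∈ Finset.range (d + 1), w ^ l • b (φ i) l - Q w‖ ≤ ε := by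
    intro R hR1 ε hε
    have hR0 : 0 < R := by linarith
    have e3 : ∀ᶠ i in atTop, ∑ l : Fin (d + 1), R ^ (l : ℕ) * ‖b (φ i) l - β l‖ < ε := by
      have h2 : ∀ l : Fin (d + 1), Tendsto (fun i => R ^ (l : ℕ) * ‖b (φ i) l - β l‖) atTop (𝓝 0) := by
        intro l
        have := ((hβl l).sub_const (β l)).norm.const_mul (R ^ (l : ℕ))
        rwa [sub_self, norm_zero, mul_zero] at this
      have h3 := tendsto_finsetSum Finset.univ fun l _ => h2 l
      rw [Finset.sum_const_zero] at h3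
      exact h3.eventually_lt_const hε
    filter_upwards [e3] with i h3 w hw2
    rw [hQ]
    simp only
    rw [← Finset.sum_sub_distrib]
    refine ((norm_sum_le _ _).trans ?_).trans h3.le
    rw [Finset.sum_range]
    refine Finset.sum_le_sum fun l _ => ?_
    rw [hb'l l l.2, ← smul_sub, norm_smul, norm_pow]
    exact mul_le_mul_of_nonneg_right (pow_le_pow_left₀ (norm_nonneg _) hw2 _) (norm_nonneg _)
  have hpd : ∀ i, Differentiable ℂ fun w : ℂ => ∑ l ∈ Finset.range (d + 1), w ^ l • b i l := by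
    intro i
    refine Differentiable.fun_sum fun l _ => ?_
    exact (differentiable_id.pow l).smul_const _
  have hnear : ∀ w0 : ℂ, ∀ ε > 0, ∃ g : ℂ → Fin (n + 1) → ℂ,
      DifferentiableOn ℂ g (ball w0 1) ∧
      (∀ w ∈ ball w0 1, g w ≠ 0 ∧ g w ∈ X ∧ eval (g w) H ≠ 0) ∧
      ∀ w ∈ ball w0 1, ‖g w - Q w‖ ≤ ε := by
    intro w0 ε hε
    obtain ⟨i, hi⟩ := (hconv (‖w0‖ + 1) (by have := norm_nonneg w0; linarith) ε hε).exists
    have hmem : ∀ w ∈ ball w0 1, ‖w‖ ≤ ‖w0‖ + 1 := by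
      intro w hw
      rw [mem_ball_iff_norm] at hw
      have := norm_sub_norm_le w w0
      linarith
    exact ⟨fun w => ∑ l ∈ Finset.range (d + 1), w ^ l • b (φ i) l, (hpd _).differentiableOn,
      fun w _ => hbV (φ i) w, fun w hw => hi w (hmem w hw)⟩
  have hQX : ∀ w : ℂ, Q w ∈ X := by
    intro w
    refine hX.closure_subset (Metric.mem_closure_iff.2 fun ε hε => ?_)
    obtain ⟨g, _, hg2, hg3⟩ := hnear w (ε / 2) (half_pos hε)
    have hw' : w ∈ ball w 1 := mem_ball_self one_pos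
    refine ⟨g w, (hg2 w hw').2.1, ?_⟩
    rw [dist_comm, dist_eq_norm]
    exact (hg3 w hw').trans_lt (half_lt_self hε)
  obtain ⟨e, he⟩ := hH
  have hHb0 : eval (b' 0) H ≠ 0 := by
    intro h
    apply hH0
    rw [hx0e, eval_smul_form he, h, mul_zero]
  have hQH : ∀ w : ℂ, eval (Q w) H ≠ 0 := by
    intro w
    rcases hurwitz H b' d w (ρ := 1) one_pos (fun ε hε => by
      obtain ⟨g, hg1, hg2, hg3⟩ := hnear w ε hε
      exact ⟨g, hg1, fun w hw => (hg2 w hw).2.2, hg3⟩) with h1 | h1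
    · have h2 := h1 0
      change eval (Q 0) H = 0 at h2
      rw [hQ0] at h2
      exact absurd h2 hHb0
    · exact h1
  have hb'0n : b' 0 ≠ 0 := by
    rw [hb'0, ← norm_ne_zero_iff, hβ.1.2]
    exact one_ne_zero
  by_cases hconst : ∃ v : Fin (n + 1) → ℂ, ∀ i ≤ d, ∃ a : ℂ, b' i = a • v
  · obtain ⟨v, hv⟩ := hconst
    choose! a ha using hv
    have hv0 : v ≠ 0 := by
      rintro rfl
      apply hb'0n
      rw [ha 0 (by omega), smul_zero]
    set q : Polynomial ℂ := ∑ l ∈ Finset.range (d + 1), Polynomial.C (a l) * Polynomial.X ^ l with hq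
    have hqc : ∀ l ≤ d, q.coeff l = a l := by
      intro l hl
      rw [hq, Polynomial.finsetSum_coeff]
      simp only [Polynomial.coeff_C_mul, Polynomial.coeff_X_pow, mul_ite, mul_one, mul_zero]
      rw [Finset.sum_ite_eq]
      simp [Nat.lt_succ_iff.2 hl]
    have hqdeg : q.natDegree ≤ d := by
      rw [hq]
      refine Polynomial.natDegree_sum_le_of_forall_le _ _ fun l hl => ?_
      have := Finset.mem_range.1 hl
      exact (Polynomial.natDegree_C_mul_X_pow_le _ _).trans (by omega)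
    have hqe : ∀ w, q.eval w • v = Q w := by
      intro w
      rw [hq, Polynomial.eval_finsetSum, Finset.sum_smul, hQ]
      refine Finset.sum_congr rfl fun l hl => ?_
      have hl' : l ≤ d := by
        have := Finset.mem_range.1 hl
        omega
      rw [ha l hl', smul_smul, Polynomial.eval_mul, Polynomial.eval_C, Polynomial.eval_pow,
        Polynomial.eval_X, mul_comm]
    obtain ⟨l1, hl10, hl1⟩ := hβ.2
    have hal1 : q.coeff l1 ≠ 0 := by
      rw [hqc l1 (by have := l1.2; omega)]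
      intro h0
      have h2 := ha l1 (by have := l1.2; omega)
      rw [h0, zero_smul, hb'l l1 l1.2] at h2
      have h4 : β l1 = 0 := h2
      rw [h4, norm_zero] at hl1
      exact zero_ne_one hl1
    have hl1' : (l1 : ℕ) ≠ 0 := fun h => hl10 (Fin.ext h)
    have hdeg : q.degree ≠ 0 := by
      intro h0
      rw [Polynomial.eq_C_of_degree_eq_zero h0, Polynomial.coeff_C, if_neg hl1'] at hal1
      exact hal1 rfl
    obtain ⟨w0, hw0⟩ := IsAlgClosed.exists_root q hdeg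
    have hw0' : q.eval w0 = 0 := hw0
    have hq0 : q ≠ 0 := by rintro h; rw [h] at hal1; simp at hal1
    -- the form `H` has degree zero
    have he0 : e = 0 := by
      by_contra hne
      have h1 := hQH w0
      rw [← hqe, hw0', zero_smul] at h1
      have h2 := eval_smul_form he (0 : ℂ) (0 : Fin (n + 1) → ℂ)
      rw [zero_smul, zero_pow hne, zero_mul] at h2
      exact h1 h2
    subst he0
    have htq : Polynomial.taylor w0 q ≠ 0 := by
      intro h
      exact hq0 ((Polynomial.taylor_eq_zero _ _).1 h)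
    classical
    have hex : ∃ l, (Polynomial.taylor w0 q).coeff l ≠ 0 := by
      by_contra h
      push Not at h
      exact htq (Polynomial.ext fun l => by simpa using h l)
    have hge : 1 ≤ Nat.find hex := by
      rw [Nat.one_le_iff_ne_zero]
      intro h0
      have := Nat.find_spec hex
      rw [h0, Polynomial.taylor_coeff_zero] at this
      exact this hw0'
    have hle : Nat.find hex ≤ d := by
      have h2 := Polynomial.le_natDegree_of_ne_zero (Nat.find_spec hex)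
      rw [Polynomial.natDegree_taylor] at h2
      omega
    have hvZ := bubble4 hX hs he (Nat.find hex) hge hle v (Polynomial.taylor w0 q)
      1 hv0 one_pos (fun l hl => not_not.1 (Nat.find_min hex hl)) (Nat.find_spec hex)
      fun ε hε => by
        obtain ⟨g, hg1, hg2, hg3⟩ := hnear w0 ε hε
        have hmem : ∀ z ∈ ball (0 : ℂ) 1, w0 + z ∈ ball w0 1 := by
          intro z hz
          rw [mem_ball_zero_iff] at hz
          rw [mem_ball_iff_norm, add_sub_cancel_left]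
          exact hz
        refine ⟨fun z => g (w0 + z), ?_, fun z hz => hg2 _ (hmem z hz), fun z hz => ?_⟩
        · exact hg1.comp ((differentiable_const _).add differentiable_id).differentiableOn hmem
        · rw [Polynomial.taylor_eval, add_comm z w0, hqe]
          exact hg3 _ (hmem z hz)
    rw [ha 0 (by omega)]
    exact lineSet_smul _ _ hvZ
  · exact curve_of_coeffs hX hs ⟨e, he⟩ hQX hQH hb'0n hconst

end Pool.Agent.R871.SG
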