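import Pool.Agent.R871.SG.LineB

/-!
The metric of discs of bounded index is locally bounded from below exactly off the algebraic images of
the affine line of bounded degree.
-/

set_option autoImplicit false

namespace Pool.Agent.R871.SG

open Filter Topology Metric Set MvPolynomial

variable {n : ℕ}

/-- The term of index `j`, for some `j ≤ d`, is a maximal term of the power series with the
coefficients `a` on the circle of radius `r`. -/
def IndexLE {E : Type} [NormedAddCommGroup E] (a : ℕ → E) (d : ℕ) (r : ℝ) : Prop :=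
  ∃ j ≤ d, ∀ m, ‖a m‖ * r ^ m ≤ ‖a j‖ * r ^ j

/-- Near the point `x` the metric of discs of index at most `d` in `X ∖ {H = 0}` is bounded from
below: the derivatives at the centre of the holomorphic discs `f` of radius `r` and index at most `d`
with `f 0` near `x` are at most `C / r`. -/
def IndexBoundNear (X : Set (Fin (n + 1) → ℂ)) (H : MvPolynomial (Fin (n + 1)) ℂ) (d : ℕ)
    (x : Fin (n + 1) → ℂ) : Prop :=
  ∃ η > 0, ∃ C : ℝ, ∀ (r : ℝ) (f : ℂ → Fin (n + 1) → ℂ) (a : ℕ → Fin (n + 1) → ℂ), 0 < r →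
    DiscIn X H r f a → IndexLE a d r → ‖a 0 - x‖ < η →
    ∀ s t, r * ‖a 0 s * a 1 t - a 0 t * a 1 s‖ ≤ C * ‖a 0‖ ^ 2

theorem bound_off_lines {X : Set (Fin (n + 1) → ℂ)} (hX : IsClosed X)
    (hs : ∀ (a : ℂ), ∀ x ∈ X, a • x ∈ X) {H : MvPolynomial (Fin (n + 1)) ℂ}
    (hH : ∃ e, H.IsHomogeneous e) (d : ℕ) {ε : ℝ} (hε : 0 < ε) :
    ∃ C : ℝ, ∀ (r : ℝ) (f : ℂ → Fin (n + 1) → ℂ) (a : ℕ → Fin (n + 1) → ℂ), 0 < r →
      DiscIn X H r f a → IndexLE a d r →
      (∀ x ∈ {x | x ∈ X ∧ eval x H = 0} ∪ lineSet {x | x ∈ X ∧ eval x H ≠ 0} d,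
        ε * ‖a 0‖ < ‖a 0 - x‖) → (∀ m, ‖a m‖ * r ^ m ≤ C * ‖a 0‖) ∧
        ∀ s t, r * ‖a 0 s * a 1 t - a 0 t * a 1 s‖ ≤ C * ‖a 0‖ ^ 2 := by
  set Z := {x | x ∈ X ∧ eval x H = 0} ∪ lineSet {x | x ∈ X ∧ eval x H ≠ 0} d with hZd
  have hZ : IsClosed Z := lineSet_closed hX hs hH d
  have hZs : ∀ (a : ℂ), ∀ x ∈ Z, a • x ∈ Z := by
    intro a x hx
    rcases hx with hx | hx
    · left
      obtain ⟨e, he⟩ := hH
      exact ⟨hs _ _ hx.1, by rw [eval_smul_form he, hx.2, mul_zero]⟩
    · exact Or.inr (lineSet_smul _ _ hx)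
  have hV : LinesIn {x | x ∈ X ∧ eval x H ≠ 0} Z d := by
    intro P hPd hP hnc z
    exact Or.inr ⟨P, hPd, hP, hnc, z, 1, (one_smul _ _).symm⟩
  have hD : LinesIn {x | x ∈ X ∧ eval x H = 0} Z d := fun P _ hP _ z => Or.inl (hP z).2
  have h := disc_tfae hX hZ hs hZs hH hD
  have h12 := h.out 0 1
  have h13 := h.out 0 2
  obtain ⟨C1, h1⟩ := h12.1 hV ε hε
  obtain ⟨C2, h2⟩ := h13.1 hV ε hε
  refine ⟨max C1 C2, fun r F a hr hF hj hfar => ⟨fun m => ?_, fun s t => ?_⟩⟩
  · exact (h1 r F a hr hF hj hfar m).trans (mul_le_mul_of_nonneg_right (le_max_left _ _) (norm_nonneg _))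
  · exact (h2 r F a hr hF hj hfar s t).trans
      (mul_le_mul_of_nonneg_right (le_max_right _ _) (by positivity))

theorem indexBoundNear_iff {X : Set (Fin (n + 1) → ℂ)} (hX : IsClosed X)
    (hs : ∀ (a : ℂ), ∀ x ∈ X, a • x ∈ X) {H : MvPolynomial (Fin (n + 1)) ℂ}
    (hH : ∃ e, H.IsHomogeneous e) (d : ℕ) {x : Fin (n + 1) → ℂ} (hx0 : x ≠ 0)
    (hxH : eval x H ≠ 0) :
    IndexBoundNear X H d x ↔ x ∉ lineSet {x | x ∈ X ∧ eval x H ≠ 0} d := by
  constructor
  · rintro ⟨η, hη, C, hC⟩ ⟨P, hPd, hP, hnc, z1, c, hx⟩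
    have hc : c ≠ 0 := by
      rintro rfl
      rw [zero_smul] at hx
      exact hx0 hx
    obtain ⟨s, t, hst⟩ := exists_wronskian (fun z => (hP z).1) hnc
    set W := P s * Polynomial.derivative (P t) - P t * Polynomial.derivative (P s) with hW
    have hpc : Continuous (pv P) := continuous_pi fun j => (P j).continuous
    obtain ⟨z0, hz0, hWz0⟩ : ∃ z0, ‖c • pv P z0 - x‖ < η ∧ W.eval z0 ≠ 0 := by
      have hcont : Continuous fun z : ℂ => ‖c • pv P z - x‖ :=
        ((hpc.const_smul c).sub continuous_const).norm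
      have ho : IsOpen {z : ℂ | ‖c • pv P z - x‖ < η} := isOpen_lt hcont continuous_const
      have hfin : {z : ℂ | W.eval z = 0}.Finite := by
        refine (W.roots.toFinset.finite_toSet).subset fun z hz => ?_
        simpa [Polynomial.mem_roots hst] using hz
      have hd : Dense {z : ℂ | W.eval z ≠ 0} := by
        have : {z : ℂ | W.eval z ≠ 0} = {z : ℂ | W.eval z = 0}ᶜ := by ext; simp
        rw [this]
        exact hfin.countable.dense_compl ℂ
      obtain ⟨z0, h1, h2⟩ := hd.inter_open_nonempty _ ho ⟨z1, by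
        change ‖c • pv P z1 - x‖ < η
        rw [hx, sub_self, norm_zero]
        exact hη⟩
      exact ⟨z0, h1, h2⟩
    set a : ℕ → Fin (n + 1) → ℂ := fun m => c • (fun s => (Polynomial.taylor z0 (P s)).coeff m :
      Fin (n + 1) → ℂ) with ha
    have ham : ∀ m, d < m → a m = 0 := by
      intro m hm
      ext s
      simp only [ha, Pi.zero_apply, Pi.smul_apply, smul_eq_mul, mul_eq_zero]
      right
      refine Polynomial.coeff_eq_zero_of_natDegree_lt ?_
      rw [Polynomial.natDegree_taylor]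
      exact (hPd s).trans_lt hm
    have hsum : ∀ z : ℂ, HasSum (fun m : ℕ => z ^ m • a m) (c • pv P (z0 + z)) := by
      intro z
      have h1 : HasSum (fun m : ℕ => z ^ m • a m) (∑ m ∈ Finset.range (d + 1), z ^ m • a m) :=
        hasSum_sum_of_ne_finset_zero fun m hm => by
          rw [Finset.mem_range, not_lt] at hm
          rw [ham m (by omega), smul_zero]
      have h2 : ∑ m ∈ Finset.range (d + 1), z ^ m • a m = c • pv P (z0 + z) := by
        rw [← curve_taylor hPd z0 z, Finset.smul_sum]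
        exact Finset.sum_congr rfl fun m _ => smul_comm _ _ _
      rwa [h2] at h1
    have ha0e : a 0 = c • pv P z0 := by
      ext s
      simp [ha, pv]
    have ha1e : ∀ s, a 1 s = c * (Polynomial.derivative (P s)).eval z0 := by
      intro s
      simp only [ha, Pi.smul_apply, smul_eq_mul]
      rw [Polynomial.taylor_coeff_one]
    have hWe : a 0 s * a 1 t - a 0 t * a 1 s = c ^ 2 * W.eval z0 := by
      rw [ha0e, ha1e, ha1e, hW]
      simp [pv]
      ring
    have hWn : 0 < ‖c ^ 2 * W.eval z0‖ := norm_pos_iff.2 (mul_ne_zero (pow_ne_zero _ hc) hWz0)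
    obtain ⟨e, he⟩ := hH
    have hdisc : ∀ r : ℝ, DiscIn X H r (fun z => c • pv P (z0 + z)) a := by
      intro r
      refine ⟨?_, fun z _ => ⟨hsum z, smul_ne_zero hc (hP _).1, hs _ _ (hP _).2.1, ?_⟩⟩
      · exact (((differentiable_pi.2 fun j => (P j).differentiable).comp
          ((differentiable_const _).add differentiable_id)).fun_const_smul c).differentiableOn
      · rw [eval_smul_form he]
        exact mul_ne_zero (pow_ne_zero _ hc) (hP _).2.2
    have hind : ∀ r : ℝ, 0 < r → IndexLE a d r := by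
      intro r hr
      obtain ⟨j, hj, hmax⟩ := Finset.exists_max_image (Finset.range (d + 1))
        (fun m => ‖a m‖ * r ^ m) ⟨0, by simp⟩
      refine ⟨j, by have := Finset.mem_range.1 hj; omega, fun m => ?_⟩
      by_cases hm : m ≤ d
      · exact hmax m (Finset.mem_range.2 (by omega))
      · rw [ham m (by omega), norm_zero, zero_mul]
        positivity
    have hb : ∀ r : ℝ, 0 < r → r * ‖c ^ 2 * W.eval z0‖ ≤ C * ‖a 0‖ ^ 2 := by
      intro r hr
      have := hC r _ a hr (hdisc r) (hind r hr) (by rw [ha0e]; exact hz0) s t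
      rwa [hWe] at this
    have h1 := hb (|C * ‖a 0‖ ^ 2| / ‖c ^ 2 * W.eval z0‖ + 1) (by positivity)
    rw [add_mul, one_mul, div_mul_cancel₀ _ hWn.ne'] at h1
    have h2 := le_abs_self (C * ‖a 0‖ ^ 2)
    linarith
  · intro hx
    have hZ := lineSet_closed hX hs hH d
    set Z := {x | x ∈ X ∧ eval x H = 0} ∪ lineSet {x | x ∈ X ∧ eval x H ≠ 0} d with hZd
    have hxZ : x ∉ Z := by
      rintro (h | h)
      · exact hxH h.2
      · exact hx h
    obtain ⟨η, hη, hball⟩ := Metric.isOpen_iff.1 hZ.isOpen_compl x hxZ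
    have hA : 0 < ‖x‖ := norm_pos_iff.2 hx0
    obtain ⟨C, hC⟩ := bound_off_lines hX hs hH d (ε := η / (4 * (‖x‖ + η))) (by positivity)
    refine ⟨η / 2, by positivity, C, fun r f a hr hf hind hnear s t =>
      (hC r f a hr hf hind (fun y hy => ?_)).2 s t⟩
    have h1 : η ≤ ‖y - x‖ := by
      by_contra hlt
      push Not at hlt
      exact hball (by rw [mem_ball_iff_norm]; exact hlt) hy
    have h2 : ‖y - x‖ ≤ ‖a 0 - y‖ + ‖a 0 - x‖ := by
      have := norm_sub_le_norm_sub_add_norm_sub y (a 0) x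
      rw [norm_sub_rev y (a 0)] at this
      exact this
    have h3 : ‖a 0‖ ≤ ‖x‖ + η := by
      have := norm_sub_norm_le (a 0) x
      linarith
    have h4 : η / (4 * (‖x‖ + η)) * ‖a 0‖ ≤ η / 4 := by
      calc η / (4 * (‖x‖ + η)) * ‖a 0‖ ≤ η / (4 * (‖x‖ + η)) * (‖x‖ + η) := by gcongr
        _ = η / 4 := by field_simp
    linarith

end Pool.Agent.R871.SG
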