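import Pool.Agent.R871.SG.BubB
import Pool.Agent.R871.SG.Aff

/-!
Bubbles for holomorphic maps to a closed cone `X` which avoid a hypersurface: they lie in a closed
cone `Z` which contains the curves of small degree.
-/

set_option autoImplicit false

namespace Pool.Agent.R871.SG

open Filter Topology Metric Set

section step

variable {E : Type} [NormedAddCommGroup E] [NormedSpace ℂ E]

/-- One rescaling step near a zero of the limit. The set `Y` is stable under nonzero scalars. -/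
theorem bubble_step [ProperSpace E] [CompleteSpace E] {Y : Set E}
    (hs : ∀ (a : ℂ), a ≠ 0 → ∀ x ∈ Y, a • x ∈ Y) (μ : ℕ) (hμ : 1 ≤ μ) (v : E) (q : Polynomial ℂ)
    (ρ : ℝ) (g : E →L[ℂ] ℂ) (hg1 : ‖g‖ = 1) (hgv : g v ≠ 0) (hρ : 0 < ρ)
    (hqj : ∀ j < μ, q.coeff j = 0) (hqμ : q.coeff μ ≠ 0)
    (h : ∀ ε > 0, ∃ f : ℂ → E, DifferentiableOn ℂ f (ball 0 ρ) ∧
      (∀ z ∈ ball (0 : ℂ) ρ, f z ≠ 0 ∧ f z ∈ Y) ∧ ∀ z ∈ ball (0 : ℂ) ρ, ‖f z - q.eval z • v‖ ≤ ε) :
    ∃ b : ℕ → E, b μ = q.coeff μ • v ∧ (∀ l, μ < l → b l = 0) ∧ g (b 0) = 0 ∧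
      (∃ j < μ, ‖b j‖ = 1) ∧ ∀ R : ℝ, 0 < R → ∀ ε > 0, ∃ f : ℂ → E, DifferentiableOn ℂ f (ball 0 R) ∧
        (∀ z ∈ ball (0 : ℂ) R, f z ≠ 0 ∧ f z ∈ Y) ∧
        ∀ z ∈ ball (0 : ℂ) R, ‖f z - ∑ j ∈ Finset.range (μ + 1), z ^ j • b j‖ ≤ ε := by
  obtain ⟨F, c, C, hFd, hF, hc0, hct, hcC⟩ := recentre (X := Y) μ hμ v q ρ g hg1 hgv hρ hqj hqμ h
  choose δ hδ0 hδ1 hδ2 hδ3 using fun i => exists_scale μ hμ (c i) (hc0 i).1
  -- the rescaling factors tend to zero
  have hδt : Tendsto δ atTop (𝓝 0) := by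
    refine squeeze_zero (fun i => (hδ0 i).le) hδ3 ?_
    have h1 : ∀ j ∈ Finset.range μ, Tendsto (fun i => ‖c i j‖ ^ ((1 : ℝ) / ((μ - j : ℕ) : ℝ))) atTop
        (𝓝 0) := by
      intro j hj
      have hj' := Finset.mem_range.1 hj
      have h2 : Tendsto (fun i => ‖c i j‖) atTop (𝓝 0) := by
        have := (hct j).norm
        rwa [hqj j hj', zero_smul, norm_zero] at this
      have hp : 0 < (1 : ℝ) / ((μ - j : ℕ) : ℝ) := by
        have : 0 < μ - j := by omega
        positivity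
      have := h2.rpow_const (p := (1 : ℝ) / ((μ - j : ℕ) : ℝ)) (Or.inr hp.le)
      rwa [Real.zero_rpow hp.ne'] at this
    simpa using tendsto_finsetSum _ h1
  -- the rescaled coefficients
  have hδC : ∀ i, (δ i : ℂ) ≠ 0 := fun i => by exact_mod_cast (hδ0 i).ne'
  set β : ℕ → Fin μ → E := fun i j => ((δ i : ℂ) ^ (μ - (j : ℕ)))⁻¹ • c i j with hβ
  have hβn : ∀ i j, ‖β i j‖ = ‖c i j‖ / (δ i) ^ (μ - (j : ℕ)) := by
    intro i j
    rw [hβ]
    simp only
    rw [norm_smul, norm_inv, norm_pow, Complex.norm_real, Real.norm_of_nonneg (hδ0 i).le,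
      inv_mul_eq_div]
  have hβK : ∀ i, β i ∈ {β : Fin μ → E | (∀ j, ‖β j‖ ≤ 1) ∧ ∃ j, ‖β j‖ = 1} := by
    intro i
    refine ⟨fun j => ?_, ?_⟩
    · rw [hβn, div_le_one (pow_pos (hδ0 i) _)]
      exact hδ1 i j j.2
    · obtain ⟨j, hj, hj2⟩ := hδ2 i
      refine ⟨⟨j, hj⟩, ?_⟩
      rw [hβn]
      simp only
      rw [hj2, div_self (pow_pos (hδ0 i) _).ne']
  obtain ⟨b0, hb0, φ, hφ, hφl⟩ := (compact_unit (E := E) μ).tendsto_subseq hβK
  have hφa := hφ.tendsto_atTop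
  have hb0j : ∀ j, Tendsto (fun i => β (φ i) j) atTop (𝓝 (b0 j)) := fun j => tendsto_pi_nhds.1 hφl j
  set b : ℕ → E := fun j => if hj : j < μ then b0 ⟨j, hj⟩ else if j = μ then q.coeff μ • v else 0
    with hb
  have hbμ : b μ = q.coeff μ • v := by simp [hb]
  have hbj : ∀ j (hj : j < μ), b j = b0 ⟨j, hj⟩ := fun j hj => by simp [hb, hj]
  have hbl : ∀ j, μ < j → b j = 0 := fun j hj => by
    have h1 : ¬ j < μ := by omega
    have h2 : j ≠ μ := by omega
    simp [hb, h1, h2]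
  -- the rescaled functions
  set H : ℕ → ℂ → E := fun i w => ((δ i : ℂ) ^ μ)⁻¹ • F i ((δ i : ℂ) * w) with hH
  have hest : ∀ R : ℝ, 0 < R → ∀ ε > 0, ∀ᶠ i in atTop, ∀ w : ℂ, ‖w‖ ≤ R →
      (δ (φ i) : ℂ) * w ∈ ball (0 : ℂ) (ρ / 2) ∧
      ‖H (φ i) w - ∑ j ∈ Finset.range (μ + 1), w ^ j • b j‖ ≤ ε := by
    intro R hR0 ε hε
    have hδφ : Tendsto (fun i => δ (φ i)) atTop (𝓝 0) := hδt.comp hφa
    have e1 : ∀ᶠ i in atTop, R * δ (φ i) / (ρ / 4) < 1 / 2 := by
      have := (hδφ.const_mul R).div_const (ρ / 4)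
      rw [mul_zero, zero_div] at this
      exact this.eventually_lt_const (by norm_num)
    have e2 : ∀ᶠ i in atTop, 2 * (C * (R / (ρ / 4)) ^ (μ + 1) * δ (φ i)) < ε / 2 := by
      have := (hδφ.const_mul (C * (R / (ρ / 4)) ^ (μ + 1))).const_mul 2
      rw [mul_zero, mul_zero] at this
      exact this.eventually_lt_const (half_pos hε)
    have e3 : ∀ᶠ i in atTop, ∑ j : Fin μ, R ^ (j : ℕ) * ‖β (φ i) j - b0 j‖ +
        R ^ μ * ‖c (φ i) μ - q.coeff μ • v‖ < ε / 2 := by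
      have h1 : Tendsto (fun i => ∑ j : Fin μ, R ^ (j : ℕ) * ‖β (φ i) j - b0 j‖ +
          R ^ μ * ‖c (φ i) μ - q.coeff μ • v‖) atTop (𝓝 0) := by
        have h2 : ∀ j : Fin μ, Tendsto (fun i => R ^ (j : ℕ) * ‖β (φ i) j - b0 j‖) atTop (𝓝 0) := by
          intro j
          have := ((hb0j j).sub_const (b0 j)).norm.const_mul (R ^ (j : ℕ))
          rwa [sub_self, norm_zero, mul_zero] at this
        have h3 : Tendsto (fun i => R ^ μ * ‖c (φ i) μ - q.coeff μ • v‖) atTop (𝓝 0) := by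
          have := (((hct μ).comp hφa).sub_const (q.coeff μ • v)).norm.const_mul (R ^ μ)
          rwa [sub_self, norm_zero, mul_zero] at this
        have := (tendsto_finsetSum Finset.univ fun j _ => h2 j).add h3
        simpa using this
      exact h1.eventually_lt_const (half_pos hε)
    filter_upwards [e1, e2, e3] with i h1 h2 h3 w hw
    have hδi := hδ0 (φ i)
    have hmem : (δ (φ i) : ℂ) * w ∈ ball (0 : ℂ) (ρ / 2) := by
      rw [mem_ball_zero_iff, norm_mul, Complex.norm_real, Real.norm_of_nonneg hδi.le]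
      rw [div_lt_iff₀ (by positivity)] at h1
      have : δ (φ i) * ‖w‖ ≤ R * δ (φ i) := by
        rw [mul_comm]; gcongr
      linarith
    refine ⟨hmem, ?_⟩
    have h4 := rescale_est (μ := μ) (c := c (φ i)) (C := C) (by positivity : (0 : ℝ) < ρ / 4) hδi
      hR0.le (hcC (φ i)) h1.le hw (hF (φ i) _ hmem).2.2
    have h5 : ∑ j ∈ Finset.range (μ + 1), w ^ j • b j =
        ∑ j ∈ Finset.range μ, w ^ j • b j + w ^ μ • b μ := Finset.sum_range_succ _ _
    have h6 : ‖(∑ j ∈ Finset.range μ, w ^ j • (((δ (φ i) : ℂ) ^ (μ - j))⁻¹ • c (φ i) j) +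
        w ^ μ • c (φ i) μ) - ∑ j ∈ Finset.range (μ + 1), w ^ j • b j‖ ≤ ε / 2 := by
      rw [h5, add_sub_add_comm, ← Finset.sum_sub_distrib, ← smul_sub, hbμ]
      refine (norm_add_le _ _).trans (le_trans (add_le_add ?_ ?_) h3.le)
      · refine (norm_sum_le _ _).trans ?_
        rw [Finset.sum_range]
        refine Finset.sum_le_sum fun j _ => ?_
        rw [hbj j j.2, ← smul_sub, norm_smul, norm_pow]
        exact mul_le_mul_of_nonneg_right (pow_le_pow_left₀ (norm_nonneg _) hw _) (norm_nonneg _)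
      · rw [norm_smul, norm_pow]
        exact mul_le_mul_of_nonneg_right (pow_le_pow_left₀ (norm_nonneg _) hw _) (norm_nonneg _)
    have h7 := norm_sub_le_norm_sub_add_norm_sub (H (φ i) w)
      (∑ j ∈ Finset.range μ, w ^ j • (((δ (φ i) : ℂ) ^ (μ - j))⁻¹ • c (φ i) j) + w ^ μ • c (φ i) μ)
      (∑ j ∈ Finset.range (μ + 1), w ^ j • b j)
    refine h7.trans ?_
    have h8 : ‖H (φ i) w - (∑ j ∈ Finset.range μ, w ^ j • (((δ (φ i) : ℂ) ^ (μ - j))⁻¹ • c (φ i) j) +
        w ^ μ • c (φ i) μ)‖ ≤ ε / 2 := h4.trans h2.le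
    linarith
  refine ⟨b, hbμ, hbl, ?_, ?_, fun R hR ε hε => ?_⟩
  · rw [hbj 0 (by omega)]
    have h2 := (g.continuous.tendsto _).comp (hb0j ⟨0, by omega⟩)
    refine tendsto_nhds_unique h2 ?_
    have h3 : ∀ i, (g ∘ fun i => β (φ i) ⟨0, by omega⟩) i = 0 := by
      intro i
      simp only [Function.comp, hβ]
      rw [map_smul, (hc0 (φ i)).2, smul_zero]
    rw [show (g ∘ fun i => β (φ i) ⟨0, by omega⟩) = fun _ => 0 from funext h3]
    exact tendsto_const_nhds
  · obtain ⟨j1, hj1⟩ := hb0.2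
    exact ⟨j1, j1.2, by rw [hbj j1 j1.2]; exact hj1⟩
  · obtain ⟨i, hi⟩ := (hest R hR ε hε).exists
    refine ⟨H (φ i), ?_, fun z hz => ?_, fun z hz => ?_⟩
    · refine DifferentiableOn.fun_const_smul ?_ _
      refine (hFd (φ i)).comp ((differentiable_id.const_mul _).differentiableOn) fun z hz => ?_
      rw [mem_ball_zero_iff] at hz
      exact (hi z hz.le).1
    · rw [mem_ball_zero_iff] at hz
      have h1 := hF (φ i) _ (hi z hz.le).1
      have h2 : ((δ (φ i) : ℂ) ^ μ)⁻¹ ≠ 0 := inv_ne_zero (pow_ne_zero _ (hδC _))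
      exact ⟨smul_ne_zero h2 h1.1, hs _ h2 _ h1.2.1⟩
    · rw [mem_ball_zero_iff] at hz
      exact (hi z hz.le).2

end step

section hurwitz

open MvPolynomial

variable {σ : Type} [Fintype σ]

omit [Fintype σ] in
theorem diffOn_ev [Finite σ] {f : ℂ → σ → ℂ} {U : Set ℂ} (hf : DifferentiableOn ℂ f U)
    (G : MvPolynomial σ ℂ) : DifferentiableOn ℂ (fun z => eval (f z) G) U := by
  induction G using MvPolynomial.induction_on with
  | C a => simp only [eval_C]; exact differentiableOn_const a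
  | add p q hp hq => simpa only [map_add] using hp.fun_add hq
  | mul_X p i hp => simpa only [map_mul, eval_X] using hp.fun_mul (differentiableOn_pi.1 hf i)

omit [Fintype σ] in
/-- The values of a polynomial on a polynomial curve are the values of a polynomial. -/
theorem exists_pol (H : MvPolynomial σ ℂ) (b : ℕ → σ → ℂ) (d : ℕ) :
    ∃ p : Polynomial ℂ, ∀ z : ℂ, p.eval z = eval (∑ i ∈ Finset.range (d + 1), z ^ i • b i) H := by
  refine ⟨MvPolynomial.aeval (fun s => ∑ i ∈ Finset.range (d + 1),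
    Polynomial.C (b i s) * Polynomial.X ^ i) H, fun z => ?_⟩
  have h3 := comp_aeval (R := ℂ) (fun s => ∑ i ∈ Finset.range (d + 1),
    Polynomial.C (b i s) * Polynomial.X ^ i) (Polynomial.aeval z : Polynomial ℂ →ₐ[ℂ] ℂ)
  have h4 := congrArg (fun g => g H) h3
  rw [AlgHom.comp_apply, Polynomial.coe_aeval_eq_eval] at h4
  rw [h4, MvPolynomial.aeval_eq_eval]
  have e : (fun s => Polynomial.eval z (∑ i ∈ Finset.range (d + 1),
      Polynomial.C (b i s) * Polynomial.X ^ i)) = ∑ i ∈ Finset.range (d + 1), z ^ i • b i := by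
    ext s
    rw [Polynomial.eval_finsetSum, Finset.sum_apply]
    refine Finset.sum_congr rfl fun i _ => ?_
    simp only [Polynomial.eval_mul, Polynomial.eval_C, Polynomial.eval_pow, Polynomial.eval_X,
      Pi.smul_apply, smul_eq_mul]
    exact mul_comm _ _
  rw [e]

/-- Limits of functions without zeros. -/
theorem hurwitz (H : MvPolynomial σ ℂ) (b : ℕ → σ → ℂ) (d : ℕ) (w0 : ℂ) {ρ : ℝ} (hρ : 0 < ρ)
    (h : ∀ ε > 0, ∃ g : ℂ → σ → ℂ, DifferentiableOn ℂ g (ball w0 ρ) ∧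
      (∀ z ∈ ball w0 ρ, eval (g z) H ≠ 0) ∧
      ∀ z ∈ ball w0 ρ, ‖g z - ∑ i ∈ Finset.range (d + 1), z ^ i • b i‖ ≤ ε) :
    (∀ z : ℂ, eval (∑ i ∈ Finset.range (d + 1), z ^ i • b i) H = 0) ∨
      eval (∑ i ∈ Finset.range (d + 1), w0 ^ i • b i) H ≠ 0 := by
  by_contra hcon
  push Not at hcon
  obtain ⟨⟨z1, hz1⟩, hw0⟩ := hcon
  obtain ⟨p, hp⟩ := exists_pol H b d
  have hp0 : p ≠ 0 := by
    rintro rfl
    rw [← hp, Polynomial.eval_zero] at hz1
    exact hz1 rfl
  set q := Polynomial.taylor w0 p with hq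
  have hq0 : q ≠ 0 := fun h => hp0 ((Polynomial.taylor_eq_zero _ _).1 h)
  have hqe : ∀ z, q.eval z = p.eval (w0 + z) := fun z => by
    rw [hq, Polynomial.taylor_eval, add_comm]
  obtain ⟨ε, hε, hz⟩ := zero_near hq0 (by rw [hqe, add_zero, hp, hw0]) hρ hρ
  -- uniform continuity
  set Q : ℂ → σ → ℂ := fun z => ∑ i ∈ Finset.range (d + 1), z ^ i • b i with hQ
  have hQc : Continuous Q := by
    rw [hQ]
    exact continuous_finsetSum _ fun l _ => (continuous_id.pow l).smul continuous_const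
  obtain ⟨B, hB⟩ := (isCompact_closedBall w0 ρ).exists_bound_of_continuousOn hQc.continuousOn
  have huc := (isCompact_closedBall (0 : σ → ℂ) (B + 1)).uniformContinuousOn_of_continuous
    (cont_ev H).continuousOn
  rw [Metric.uniformContinuousOn_iff] at huc
  obtain ⟨η, hη, hη2⟩ := huc ε hε
  obtain ⟨g, hg1, hg2, hg3⟩ := h (min (η / 2) 1) (lt_min (half_pos hη) one_pos)
  have hmem : ∀ z ∈ ball (0 : ℂ) ρ, w0 + z ∈ ball w0 ρ := by
    intro z hz
    rw [mem_ball_zero_iff] at hz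
    rw [mem_ball_iff_norm, add_sub_cancel_left]
    exact hz
  obtain ⟨ζ, hζ1, hζ2, hζ3⟩ := hz (fun z => eval (g (w0 + z)) H)
    ((diffOn_ev hg1 H).comp ((differentiable_const _).add differentiable_id).differentiableOn hmem)
    (fun z hz => by
      have hm := hmem z hz
      have h1 := hg3 _ hm
      have h2 := hB _ (ball_subset_closedBall hm)
      have h3 : ‖g (w0 + z)‖ ≤ B + 1 := by
        have h4 := norm_le_norm_add_norm_sub' (g (w0 + z)) (Q (w0 + z))
        have h5 := h1.trans (min_le_right _ _)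
        linarith
      have h4 := hη2 (g (w0 + z)) (mem_closedBall_zero_iff.2 h3) (Q (w0 + z))
        (mem_closedBall_zero_iff.2 (by linarith)) (by
          rw [dist_eq_norm]
          exact (h1.trans (min_le_left _ _)).trans_lt (half_lt_self hη))
      rw [dist_eq_norm] at h4
      rw [hqe, hp]
      exact h4.le)
  exact hg2 _ (hmem ζ hζ2) hζ3

end hurwitz

end Pool.Agent.R871.SG
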