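import Pool.Agent.R871.SG.Comp

/-!
Entire curves of slow growth in projective varieties, and rational curves.
-/

set_option autoImplicit false

namespace Pool.Agent.R871.SG

open Filter Topology Metric Set MvPolynomial

variable {n : ℕ} {ι κ : Type}

/-- `f` consists of homogeneous coordinates of an entire curve, i.e. of a nonconstant holomorphic map
from the plane to the projective variety `{F = 0}` in `ℙⁿ`. -/
def EntireCurve (F : ι → MvPolynomial (Fin (n + 1)) ℂ) (f : ℂ → Fin (n + 1) → ℂ) : Prop :=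
  Differentiable ℂ f ∧ (∀ z, f z ≠ 0) ∧ (∀ z i, eval (f z) (F i) = 0) ∧
    ∃ z w, ∀ a : ℂ, f w ≠ a • f z

/-- The homogeneous coordinates `f` are polynomials, so an entire curve `f` is a morphism from the
projective line. -/
def Polyn (f : ℂ → Fin (n + 1) → ℂ) : Prop :=
  ∃ P : Fin (n + 1) → Polynomial ℂ, ∀ z j, f z j = (P j).eval z

theorem cont_eval (G : MvPolynomial (Fin (n + 1)) ℂ) : Continuous fun x : Fin (n + 1) → ℂ => eval x G :=
  MvPolynomial.continuous_eval G

theorem diff_eval {f : ℂ → Fin (n + 1) → ℂ} (hf : Differentiable ℂ f)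
    (G : MvPolynomial (Fin (n + 1)) ℂ) : Differentiable ℂ fun z => eval (f z) G := by
  induction G using MvPolynomial.induction_on with
  | C a => simp
  | add p q hp hq => simpa only [map_add] using hp.fun_add hq
  | mul_X p i hp => simpa only [map_mul, eval_X] using hp.fun_mul (differentiable_pi.1 hf i)

/-- An entire function which vanishes on a ball vanishes. -/
theorem zero_of_ball {h : ℂ → ℂ} (hh : Differentiable ℂ h) {w : ℂ} {r : ℝ} (hr : 0 < r)
    (h0 : ∀ z, ‖z - w‖ < r → h z = 0) (z : ℂ) : h z = 0 := by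
  have h1 : AnalyticOnNhd ℂ h univ := fun z _ => hh.analyticAt z
  have h2 : h =ᶠ[𝓝 w] 0 := by
    filter_upwards [ball_mem_nhds w hr] with z hz
    exact h0 z (by simpa [dist_eq_norm] using hz)
  exact h1.eqOn_zero_of_preconnected_of_eventuallyEq_zero isPreconnected_univ (mem_univ w) h2
    (mem_univ z)

theorem clear {P : Fin (n + 1) → Polynomial ℂ} (hP : ∃ z, (fun j => (P j).eval z) ≠ 0) :
    ∃ (q : Polynomial ℂ) (P' : Fin (n + 1) → Polynomial ℂ), (∀ j, P j = q * P' j) ∧ q ≠ 0 ∧
      ∀ z, (fun j => (P' j).eval z) ≠ 0 := by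
  obtain ⟨q, hq⟩ := (IsPrincipalIdealRing.principal (Ideal.span (range P))).principal
  have h1 : ∀ j, ∃ a, P j = q * a := by
    intro j
    have : P j ∈ Ideal.span (range P) := Ideal.subset_span (mem_range_self j)
    rw [hq, Ideal.submodule_span_eq, Ideal.mem_span_singleton] at this
    exact this
  choose P' hP' using h1
  have hq0 : q ≠ 0 := by
    rintro rfl
    obtain ⟨z, hz⟩ := hP
    exact hz (by ext j; simp [hP' j])
  have h2 : q ∈ Ideal.span (range P) := by
    rw [hq, Ideal.submodule_span_eq]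
    exact Ideal.mem_span_singleton_self q
  obtain ⟨a, ha⟩ := (Ideal.mem_span_range_iff_exists_fun (R := Polynomial ℂ)).1 h2
  refine ⟨q, P', hP', hq0, fun z hz => ?_⟩
  have h3 : q * ∑ j, a j * P' j = q * 1 := by
    rw [mul_one, Finset.mul_sum]
    conv_rhs => rw [← ha]
    refine Finset.sum_congr rfl fun j _ => ?_
    rw [hP' j]; ring
  have h4 := mul_left_cancel₀ hq0 h3
  have h5 := congrArg (Polynomial.eval z) h4
  rw [Polynomial.eval_finsetSum] at h5
  have h6 : ∀ j, (P' j).eval z = 0 := fun j => congrFun hz j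
  simp [h6] at h5

theorem eval_smul_form {G : MvPolynomial (Fin (n + 1)) ℂ} {d : ℕ} (hG : G.IsHomogeneous d) (a : ℂ)
    (x : Fin (n + 1) → ℂ) : eval (a • x) G = a ^ d * eval x G := by
  rw [eval_eq', eval_eq', Finset.mul_sum]
  refine Finset.sum_congr rfl fun m hm => ?_
  have hd : ∑ i, m i = d := by
    have h := hG (mem_support_iff.1 hm)
    rw [← h, Finsupp.weight_apply, Finsupp.sum_fintype _ _ (by simp)]
    simp
  simp only [Pi.smul_apply, smul_eq_mul, mul_pow, Finset.prod_mul_distrib,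
    Finset.prod_pow_eq_pow_sum, hd]
  ring

/-- The sequences of coefficients of power series with values in the cone over `{F = 0}`, with a
constant term of norm one in `K`. -/
def Sol (F : ι → MvPolynomial (Fin (n + 1)) ℂ) (K : Set (Fin (n + 1) → ℂ)) :
    Set (ℕ → Fin (n + 1) → ℂ) :=
  {c | (c 0 ∈ K ∧ ‖c 0‖ = 1) ∧ ∀ z : ℂ, ‖z‖ < 1 → ∀ i, eval (ser c z) (F i) = 0}

theorem sol_closed (F : ι → MvPolynomial (Fin (n + 1)) ℂ) {K : Set (Fin (n + 1) → ℂ)}
    (hK : IsClosed K) (B : ℝ) : IsClosed (Sol F K ∩ Bd B) := by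
  have h : Sol F K ∩ Bd B = (Bd B ∩ {c | c 0 ∈ K ∧ ‖c 0‖ = 1}) ∩
      ⋂ z : ball (0 : ℂ) 1, ⋂ i, (Bd B ∩ (fun c => eval (ser c z) (F i)) ⁻¹' {0}) := by
    ext c
    simp only [Sol, mem_inter_iff, mem_ofPred_eq, mem_iInter, mem_preimage, mem_singleton_iff,
      Subtype.forall, mem_ball_zero_iff]
    constructor
    · rintro ⟨⟨h1, h2⟩, h3⟩
      exact ⟨⟨h3, h1⟩, fun z hz i => ⟨h3, h2 z hz i⟩⟩
    · rintro ⟨⟨h3, h1⟩, h2⟩
      exact ⟨⟨h1, fun z hz i => (h2 z hz i).2⟩, h3⟩
  rw [h]
  refine ((bd_closed B).inter ?_).inter (isClosed_iInter fun z => isClosed_iInter fun i => ?_)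
  · exact (hK.preimage (continuous_apply 0)).inter
      (isClosed_singleton.preimage (continuous_apply (A := fun _ => Fin (n + 1) → ℂ) 0).norm)
  · exact ((cont_eval (F i)).comp_continuousOn
      (ser_cont B (mem_ball_zero_iff.1 z.2))).preimage_isClosed_of_isClosed (bd_closed B)
        isClosed_singleton

theorem ser_fin {c : ℕ → Fin (n + 1) → ℂ} {D : ℕ} (h : ∀ m, D < m → c m = 0) (z : ℂ) :
    ser c z = ∑ m ∈ Finset.range (D + 1), z ^ m • c m := by
  refine tsum_eq_sum fun m hm => ?_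
  rw [h m (by simpa using hm), smul_zero]

/-- The polynomials with the coefficients `c m`, `m ≤ D`. -/
noncomputable def pol (c : ℕ → Fin (n + 1) → ℂ) (D : ℕ) (j : Fin (n + 1)) : Polynomial ℂ :=
  ∑ m ∈ Finset.range (D + 1), Polynomial.C (c m j) * Polynomial.X ^ m

theorem pol_eval {c : ℕ → Fin (n + 1) → ℂ} {D : ℕ} (h : ∀ m, D < m → c m = 0) (z : ℂ) :
    (fun j => (pol c D j).eval z) = ser c z := by
  rw [ser_fin h z]
  ext j
  simp only [pol, Polynomial.eval_finsetSum, Polynomial.eval_mul, Polynomial.eval_C,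
    Polynomial.eval_pow, Polynomial.eval_X, Finset.sum_apply, Pi.smul_apply, smul_eq_mul]
  exact Finset.sum_congr rfl fun m _ => mul_comm _ _

/-- Polynomial solutions near a power series which is not constant as a map to the projective space
have all values in `{G = 0}` if the rational curves in question have. -/
theorem exact_in (F : ι → MvPolynomial (Fin (n + 1)) ℂ) (G : κ → MvPolynomial (Fin (n + 1)) ℂ)
    (hF : ∀ i, ∃ d, (F i).IsHomogeneous d) (hG : ∀ k, ∃ d, (G k).IsHomogeneous d)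
    {K : Set (Fin (n + 1) → ℂ)} (hKs : ∀ (a : ℂ), ∀ x ∈ K, a • x ∈ K)
    (hR : ∀ f, EntireCurve F f → Polyn f → (∃ z, f z ∈ K) → ∀ z k, eval (f z) (G k) = 0)
    {c : ℕ → Fin (n + 1) → ℂ} {D : ℕ} (hc : c ∈ Sol F K) (h0 : ∀ m, D < m → c m = 0)
    {z1 : ℂ} {i j : Fin (n + 1)} (hne : ser c z1 i * c 0 j - ser c z1 j * c 0 i ≠ 0)
    (z : ℂ) (k : κ) : eval (ser c z) (G k) = 0 := by
  have hev := fun z => pol_eval h0 z
  have hne0 : (fun j => (pol c D j).eval 0) ≠ 0 := by
    rw [hev, ser_zero]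
    intro h
    have := hc.1.2
    rw [h, norm_zero] at this
    exact zero_ne_one this
  obtain ⟨q, P, hP, hq, hPne⟩ := clear ⟨0, hne0⟩
  have hqP : ∀ z, ser c z = q.eval z • fun j => (P j).eval z := by
    intro z
    rw [← hev z]
    ext j
    simp [hP j]
  have hq0 : q.eval 0 ≠ 0 := by
    intro h
    apply hne0
    rw [hev, hqP, h, zero_smul]
  -- the reduced curve lies in `{F = 0}`
  have hFP : ∀ z i, eval (fun j => (P j).eval z) (F i) = 0 := by
    intro z i
    obtain ⟨d, hd⟩ := hF i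
    set Q : Polynomial ℂ := MvPolynomial.aeval P (F i) with hQ
    have hQe : ∀ z, Q.eval z = eval (fun j => (P j).eval z) (F i) := by
      intro z
      have := MvPolynomial.eval₂_comp_left (Polynomial.evalRingHom z) (algebraMap ℂ (Polynomial ℂ)) P
        (F i)
      rw [hQ, MvPolynomial.aeval_def]
      refine (this.trans ?_)
      rw [MvPolynomial.eval, coe_eval₂Hom]
      congr 1
      ext x
      simp
    have hz : ∀ z : ℂ, ‖z‖ < 1 → (q ^ d * Q).eval z = 0 := by
      intro z hz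
      rw [Polynomial.eval_mul, Polynomial.eval_pow, hQe, ← eval_smul_form hd, ← hqP z]
      exact hc.2 z hz i
    have hinf : (q ^ d * Q) = 0 := by
      refine Polynomial.eq_zero_of_infinite_isRoot _ (Set.Infinite.mono (s := ball (0 : ℂ) 1) ?_ ?_)
      · intro z hz'
        exact hz z (mem_ball_zero_iff.1 hz')
      · exact (infinite_of_mem_nhds (0 : ℂ) (ball_mem_nhds 0 one_pos))
    have hQ0 : Q = 0 := (mul_eq_zero.1 hinf).resolve_left (pow_ne_zero d hq)
    rw [← hQe, hQ0, Polynomial.eval_zero]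
  have hent : EntireCurve F fun z j => (P j).eval z := by
    refine ⟨differentiable_pi.2 fun j => (P j).differentiable, hPne, hFP, 0, z1, fun a ha => hne ?_⟩
    have h1 : ser c z1 = (q.eval z1 * a / q.eval 0) • c 0 := by
      rw [hqP z1, ← ser_zero c, hqP 0]
      simp only [ha, smul_smul]
      congr 1
      field_simp
    rw [h1]
    simp only [Pi.smul_apply, smul_eq_mul]
    ring
  have hK0 : (fun j => (P j).eval 0) ∈ K := by
    have h1 : (fun j => (P j).eval 0) = (q.eval 0)⁻¹ • c 0 := by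
      rw [← ser_zero c, hqP 0, smul_smul, inv_mul_cancel₀ hq0, one_smul]
    rw [h1]
    exact hKs _ _ hc.1.1
  have h2 := hR _ hent ⟨P, fun _ _ => rfl⟩ ⟨0, hK0⟩ z k
  obtain ⟨e, he⟩ := hG k
  rw [hqP z, eval_smul_form he, h2, mul_zero]

end Pool.Agent.R871.SG
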