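import Pool.Agent.R871.SG.LogA
import Pool.Agent.R871.SG.Proj

/-!
Bubbles in the complement of a hypersurface, and clusters of terms of Laurent series.
-/

set_option autoImplicit false

namespace Pool.Agent.R871.SG

open Filter Topology Metric Set

section bubble

open MvPolynomial

variable {n : ℕ}

/-- All polynomial curves of degree at most `d` in the cone `X` which lie in the hypersurface
`{H = 0}`, or which do not meet it for nonzero values of the parameter, are constant (as curves in the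
projective space) or lie in the cone `Z`. -/
def LogFree (X Z : Set (Fin (n + 1) → ℂ)) (H : MvPolynomial (Fin (n + 1)) ℂ) (d : ℕ) : Prop :=
  ∀ b : ℕ → Fin (n + 1) → ℂ, (∀ z : ℂ, ∑ i ∈ Finset.range (d + 1), z ^ i • b i ∈ X) →
    ((∀ z : ℂ, eval (∑ i ∈ Finset.range (d + 1), z ^ i • b i) H = 0) ∨
      ∀ z : ℂ, z ≠ 0 → eval (∑ i ∈ Finset.range (d + 1), z ^ i • b i) H ≠ 0) →
    (∃ v : Fin (n + 1) → ℂ, ∀ i ≤ d, ∃ a : ℂ, b i = a • v) ∨
      ∀ z : ℂ, ∑ i ∈ Finset.range (d + 1), z ^ i • b i ∈ Z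

theorem bubble2 {X Z : Set (Fin (n + 1) → ℂ)} (hX : IsClosed X) (hZ : IsClosed Z)
    (hs : ∀ (a : ℂ), ∀ x ∈ X, a • x ∈ X) (hZs : ∀ (a : ℂ), ∀ x ∈ Z, a • x ∈ Z)
    {H : MvPolynomial (Fin (n + 1)) ℂ} (hH : ∃ e, H.IsHomogeneous e) {d : ℕ}
    (hR : LogFree X Z H d) :
    ∀ μ : ℕ, 1 ≤ μ → μ ≤ d → ∀ (v : Fin (n + 1) → ℂ) (q : Polynomial ℂ) (ρ : ℝ), v ≠ 0 → 0 < ρ →
      (∀ j < μ, q.coeff j = 0) → q.coeff μ ≠ 0 →
      (∀ ε > 0, ∃ f : ℂ → Fin (n + 1) → ℂ, DifferentiableOn ℂ f (ball 0 ρ) ∧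
        (∀ z ∈ ball (0 : ℂ) ρ, f z ≠ 0 ∧ f z ∈ {x | x ∈ X ∧ eval x H ≠ 0}) ∧
        ∀ z ∈ ball (0 : ℂ) ρ, ‖f z - q.eval z • v‖ ≤ ε) → v ∈ Z := by
  intro μ
  induction μ using Nat.strong_induction_on with
  | _ μ ih =>
  intro hμ hμd v q ρ hv hρ hqj hqμ h
  obtain ⟨g, hg1, hg2⟩ := exists_dual_vector ℂ v (norm_ne_zero_iff.2 hv)
  have hgv : g v ≠ 0 := by
    rw [hg2]
    simpa using hv
  have hYs : ∀ (a : ℂ), a ≠ 0 → ∀ x ∈ {x : Fin (n + 1) → ℂ | x ∈ X ∧ eval x H ≠ 0},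
      a • x ∈ {x : Fin (n + 1) → ℂ | x ∈ X ∧ eval x H ≠ 0} := by
    intro a ha x hx
    obtain ⟨e, he⟩ := hH
    refine ⟨hs a x hx.1, ?_⟩
    rw [eval_smul_form he]
    exact mul_ne_zero (pow_ne_zero _ ha) hx.2
  obtain ⟨b, hbμ, hbl, hgb, ⟨j1, hj1, hj1n⟩, hconv⟩ :=
    bubble_step hYs μ hμ v q ρ g hg1 hgv hρ hqj hqμ h
  have hsum : ∀ z : ℂ, ∑ i ∈ Finset.range (d + 1), z ^ i • b i =
      ∑ j ∈ Finset.range (μ + 1), z ^ j • b j := by
    intro z
    refine (Finset.sum_subset (Finset.range_subset_range.2 (by omega)) fun j _ hj => ?_).symm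
    rw [Finset.mem_range, not_lt] at hj
    rw [hbl j (by omega), smul_zero]
  -- the limit lies in the cone
  have hQX : ∀ w : ℂ, ∑ j ∈ Finset.range (μ + 1), w ^ j • b j ∈ X := by
    intro w
    refine hX.closure_subset (Metric.mem_closure_iff.2 fun ε hε => ?_)
    obtain ⟨f, _, hf2, hf3⟩ := hconv (‖w‖ + 1) (by positivity) (ε / 2) (half_pos hε)
    have hw : w ∈ ball (0 : ℂ) (‖w‖ + 1) := by
      rw [mem_ball_zero_iff]; linarith
    refine ⟨f w, (hf2 w hw).2.1, ?_⟩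
    rw [dist_comm, dist_eq_norm]
    exact (hf3 w hw).trans_lt (half_lt_self hε)
  have hdich : (∀ z : ℂ, eval (∑ i ∈ Finset.range (d + 1), z ^ i • b i) H = 0) ∨
      ∀ z : ℂ, z ≠ 0 → eval (∑ i ∈ Finset.range (d + 1), z ^ i • b i) H ≠ 0 := by
    by_cases h0 : ∀ z : ℂ, eval (∑ i ∈ Finset.range (d + 1), z ^ i • b i) H = 0
    · exact Or.inl h0
    right
    intro z _
    rcases hurwitz H b d z one_pos (fun ε hε => by
      obtain ⟨f, hf1, hf2, hf3⟩ := hconv (‖z‖ + 2) (by positivity) ε hε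
      have hsub : ball z 1 ⊆ ball (0 : ℂ) (‖z‖ + 2) := by
        intro y hy
        rw [mem_ball_iff_norm] at hy
        rw [mem_ball_zero_iff]
        have := norm_le_norm_add_norm_sub' y z
        linarith
      exact ⟨f, hf1.mono hsub, fun y hy => (hf2 y (hsub hy)).2.2, fun y hy => by
        rw [hsum]; exact hf3 y (hsub hy)⟩) with h1 | h1
    · exact absurd h1 h0
    · exact h1
  rcases hR b (fun z => by rw [hsum]; exact hQX z) hdich with ⟨v', hv'⟩ | hQZ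
  · choose! a ha using hv'
    have hbμ0 : b μ ≠ 0 := by rw [hbμ]; exact smul_ne_zero hqμ hv
    have haμ : a μ ≠ 0 := by
      intro h0
      apply hbμ0
      rw [ha μ hμd, h0, zero_smul]
    have hv'0 : v' ≠ 0 := by
      rintro rfl
      apply hbμ0
      rw [ha μ hμd, smul_zero]
    have hgv' : g v' ≠ 0 := by
      intro h0
      have h1 := ha μ hμd
      rw [hbμ] at h1
      have h2 := congrArg g h1
      rw [map_smul, map_smul, h0, smul_zero, smul_eq_mul, mul_eq_zero] at h2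
      exact h2.elim hqμ hgv
    have ha0 : a 0 = 0 := by
      rw [ha 0 (by omega), map_smul, smul_eq_mul, mul_eq_zero] at hgb
      exact hgb.resolve_right hgv'
    -- the new polynomial
    set q' : Polynomial ℂ := ∑ j ∈ Finset.range (μ + 1), Polynomial.C (a j) * Polynomial.X ^ j with hq'
    have hq'c : ∀ j ≤ μ, q'.coeff j = a j := by
      intro j hj
      rw [hq', Polynomial.finsetSum_coeff]
      simp only [Polynomial.coeff_C_mul, Polynomial.coeff_X_pow, mul_ite, mul_one, mul_zero]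
      rw [Finset.sum_ite_eq]
      simp [Nat.lt_succ_iff.2 hj]
    have hq'e : ∀ w, q'.eval w • v' = ∑ j ∈ Finset.range (μ + 1), w ^ j • b j := by
      intro w
      rw [hq', Polynomial.eval_finsetSum, Finset.sum_smul]
      refine Finset.sum_congr rfl fun j hj => ?_
      have hj' : j ≤ d := by
        have := Finset.mem_range.1 hj
        omega
      rw [ha j hj', smul_smul, Polynomial.eval_mul, Polynomial.eval_C, Polynomial.eval_pow,
        Polynomial.eval_X, mul_comm]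
    have haj1 : q'.coeff j1 ≠ 0 := by
      rw [hq'c j1 hj1.le]
      intro h0
      have h1 := ha j1 (by omega)
      rw [h0, zero_smul] at h1
      rw [h1, norm_zero] at hj1n
      exact zero_ne_one hj1n
    classical
    have hex : ∃ j, q'.coeff j ≠ 0 := ⟨j1, haj1⟩
    have hlt : Nat.find hex < μ := (Nat.find_min' hex haj1).trans_lt hj1
    have hge : 1 ≤ Nat.find hex := by
      rw [Nat.one_le_iff_ne_zero]
      intro h0
      have := Nat.find_spec hex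
      rw [h0, hq'c 0 (by omega)] at this
      exact this ha0
    have hv'Z : v' ∈ Z := ih (Nat.find hex) hlt hge (by omega) v' q' 1 hv'0 one_pos
      (fun j hj => not_not.1 (Nat.find_min hex hj)) (Nat.find_spec hex) fun ε hε => by
        obtain ⟨f, hf1, hf2, hf3⟩ := hconv 1 one_pos ε hε
        exact ⟨f, hf1, hf2, fun z hz => by rw [hq'e]; exact hf3 z hz⟩
    have hv : v = ((q.coeff μ)⁻¹ * a μ) • v' := by
      rw [mul_smul, ← ha μ hμd, hbμ, smul_smul, inv_mul_cancel₀ hqμ, one_smul]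
    rw [hv]
    exact hZs _ _ hv'Z
  · -- the leading coefficient of a curve in `Z`
    have h1 : ∀ w : ℂ, w ≠ 0 → (w ^ μ)⁻¹ • ∑ j ∈ Finset.range (μ + 1), w ^ j • b j ∈ Z := by
      intro w _
      have := hQZ w
      rw [hsum] at this
      exact hZs _ _ this
    have h2 : Tendsto (fun k : ℕ => ((((k : ℂ) + 1)) ^ μ)⁻¹ •
        ∑ j ∈ Finset.range (μ + 1), ((k : ℂ) + 1) ^ j • b j) atTop (𝓝 (b μ)) := by
      have h3 : ∀ k : ℕ, (((k : ℂ) + 1) ^ μ)⁻¹ • ∑ j ∈ Finset.range (μ + 1), ((k : ℂ) + 1) ^ j • b j =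
          ∑ j ∈ Finset.range μ, (((k : ℂ) + 1)⁻¹ ^ (μ - j)) • b j + b μ := by
        intro k
        have hk : (k : ℂ) + 1 ≠ 0 := by exact_mod_cast Nat.succ_ne_zero k
        rw [Finset.sum_range_succ, smul_add, smul_smul, inv_mul_cancel₀ (pow_ne_zero _ hk), one_smul,
          Finset.smul_sum]
        congr 1
        refine Finset.sum_congr rfl fun j hj => ?_
        have hj' : j < μ := Finset.mem_range.1 hj
        rw [smul_smul]
        congr 1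
        have e2 : ((k : ℂ) + 1) ^ μ = ((k : ℂ) + 1) ^ (μ - j) * ((k : ℂ) + 1) ^ j := by
          rw [← pow_add]; congr 1; omega
        rw [e2, mul_inv, mul_assoc, inv_mul_cancel₀ (pow_ne_zero _ hk), mul_one, inv_pow]
      simp only [h3]
      have h4 : Tendsto (fun k : ℕ => ((k : ℂ) + 1)⁻¹) atTop (𝓝 0) := by
        have h5 := (tendsto_one_div_add_atTop_nhds_zero_nat (𝕜 := ℂ))
        simpa [one_div] using h5
      have h6 : ∀ j ∈ Finset.range μ, Tendsto (fun k : ℕ => (((k : ℂ) + 1)⁻¹ ^ (μ - j)) • b j) atTop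
          (𝓝 0) := by
        intro j hj
        have hj' : j < μ := Finset.mem_range.1 hj
        have h7 := (h4.pow (μ - j)).smul_const (b j)
        rwa [zero_pow (by omega), zero_smul] at h7
      have h8 := (tendsto_finsetSum _ h6).add_const (b μ)
      simpa using h8
    have h9 : b μ ∈ Z := hZ.mem_of_tendsto h2 (Eventually.of_forall fun k =>
      h1 _ (by exact_mod_cast Nat.succ_ne_zero k))
    rw [hbμ] at h9
    have h10 := hZs (q.coeff μ)⁻¹ _ h9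
    rwa [smul_smul, inv_mul_cancel₀ hqμ, one_smul] at h10

end bubble

section laurent

variable {E : Type} [NormedAddCommGroup E]

/-- On the circle of radius `r` the term of index `j` of the Laurent series with the coefficients `a`
dominates all other terms, by the factor `δ` to the power of the difference of the indices. -/
def IsolatedZ (a : ℤ → E) (δ : ℝ) (j : ℤ) (r : ℝ) : Prop :=
  a j ≠ 0 ∧ ∀ m, m ≠ j → ‖a m‖ * r ^ m ≤ δ ^ (m - j).natAbs * (‖a j‖ * r ^ j)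

/-- The scale of a cluster. -/
theorem zcluster_scale {a : ℤ → E} {δ r ρ : ℝ} {j : ℤ} {e : ℕ} (he : 1 ≤ e) (hδ0 : 0 < δ)
    (hr : 0 < r) (hrρ : r < ρ) (hj : IsolatedZ a δ j r) (hk : IsolatedZ a δ (j + e) ρ) :
    ∃ s : ℝ, 0 < s ∧ r ≤ δ * s ∧ s ≤ δ * ρ ∧
      (∀ l : ℕ, 1 ≤ l → l ≤ e → ‖a (j + l)‖ * s ^ l ≤ ‖a j‖) ∧
      (∃ l : ℕ, 1 ≤ l ∧ l ≤ e ∧ ‖a (j + l)‖ * s ^ l = ‖a j‖) ∧
      (∀ t : ℕ, 1 ≤ t → ‖a (j - t)‖ ≤ ‖a j‖ * s ^ t * (δ ^ 2) ^ t) ∧
      (∀ t : ℕ, 1 ≤ t → ‖a (j + (e + t : ℕ))‖ * s ^ (e + t) ≤ ‖a j‖ * (δ ^ 2) ^ t) := by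
  have hA : 0 < ‖a j‖ := norm_pos_iff.2 hj.1
  have hB : 0 < ‖a (j + e)‖ := norm_pos_iff.2 hk.1
  have hρ : 0 < ρ := hr.trans hrρ
  set f : ℕ → ℝ := fun l => (‖a (j + l)‖ / ‖a j‖) ^ ((l : ℝ)⁻¹) with hf
  have hf0 : ∀ l, 0 ≤ f l := fun l => Real.rpow_nonneg (by positivity) _
  have hfp : ∀ l, 1 ≤ l → f l ^ l = ‖a (j + l)‖ / ‖a j‖ := fun l hl =>
    Real.rpow_inv_natCast_pow (by positivity) (by omega)
  obtain ⟨l0, hl0, hmax⟩ := Finset.exists_max_image (Finset.Icc 1 e) f ⟨e, Finset.mem_Icc.2 ⟨he, le_rfl⟩⟩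
  obtain ⟨hl1, hl2⟩ := Finset.mem_Icc.1 hl0
  set σ := f l0 with hσ
  have hfe : 0 < f e := Real.rpow_pos_of_pos (by positivity) _
  have hσ0 : 0 < σ := hfe.trans_le (hmax e (Finset.mem_Icc.2 ⟨he, le_rfl⟩))
  -- terms after `j`, at `r`
  have hjr : ∀ l : ℕ, 1 ≤ l → ‖a (j + l)‖ * r ^ l ≤ δ ^ l * ‖a j‖ := by
    intro l hl
    have h1 := hj.2 (j + l) (by omega)
    rw [show (j + (l : ℤ) - j).natAbs = l by omega, zpow_add₀ hr.ne', zpow_natCast] at h1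
    have : (‖a (j + l)‖ * r ^ l) * r ^ j ≤ (δ ^ l * ‖a j‖) * r ^ j := by
      calc _ = ‖a (j + l)‖ * (r ^ j * r ^ l) := by ring
        _ ≤ _ := h1
        _ = _ := by ring
    exact le_of_mul_le_mul_right this (by positivity)
  have hσr : σ * r ≤ δ := by
    have h3 : (σ * r) ^ l0 ≤ δ ^ l0 := by
      rw [mul_pow, hσ, hfp l0 hl1, div_mul_eq_mul_div, div_le_iff₀ hA]
      exact hjr l0 hl1
    exact le_of_pow_le_pow_left₀ (by omega) hδ0.le h3
  have hσρ : 1 ≤ δ * ρ * σ := by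
    have h1 := hk.2 j (by omega)
    rw [show (j - (j + (e : ℤ))).natAbs = e by omega, zpow_add₀ hρ.ne', zpow_natCast] at h1
    have h2 : ‖a j‖ ≤ δ ^ e * ‖a (j + e)‖ * ρ ^ e := by
      have : ‖a j‖ * ρ ^ j ≤ (δ ^ e * ‖a (j + e)‖ * ρ ^ e) * ρ ^ j := by
        calc _ ≤ _ := h1
          _ = _ := by ring
      exact le_of_mul_le_mul_right this (by positivity)
    have h3 : ‖a (j + e)‖ / ‖a j‖ ≤ σ ^ e := by
      rw [← hfp e he]
      exact pow_le_pow_left₀ (hf0 e) (hmax e (Finset.mem_Icc.2 ⟨he, le_rfl⟩)) _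
    have h4 : 1 ≤ (δ * ρ * σ) ^ e := by
      have h5 : 1 ≤ δ ^ e * ρ ^ e * (‖a (j + e)‖ / ‖a j‖) := by
        rw [← mul_div_assoc, le_div_iff₀ hA]
        calc 1 * ‖a j‖ = ‖a j‖ := one_mul _
          _ ≤ _ := h2
          _ = _ := by ring
      calc 1 ≤ δ ^ e * ρ ^ e * (‖a (j + e)‖ / ‖a j‖) := h5
        _ ≤ δ ^ e * ρ ^ e * σ ^ e := by gcongr
        _ = _ := by rw [mul_pow, mul_pow]
    by_contra hcon
    push Not at hcon
    exact absurd h4 (not_le.2 (pow_lt_one₀ (by positivity) hcon (by omega)))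
  have hs1 : r ≤ δ * σ⁻¹ := by
    rw [← div_eq_mul_inv, le_div_iff₀ hσ0, mul_comm]
    exact hσr
  have hs2 : σ⁻¹ ≤ δ * ρ := by
    rw [inv_le_iff_one_le_mul₀ hσ0]
    exact hσρ
  have hwin : ∀ l : ℕ, 1 ≤ l → l ≤ e → ‖a (j + l)‖ * σ⁻¹ ^ l ≤ ‖a j‖ := by
    intro l h1 h2
    have h3 : ‖a (j + l)‖ / ‖a j‖ ≤ σ ^ l := by
      rw [← hfp l h1]
      exact pow_le_pow_left₀ (hf0 l) (hmax l (Finset.mem_Icc.2 ⟨h1, h2⟩)) _
    rw [inv_pow, ← div_eq_mul_inv, div_le_iff₀ (by positivity), mul_comm]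
    exact (div_le_iff₀ hA).1 h3
  refine ⟨σ⁻¹, inv_pos.2 hσ0, hs1, hs2, hwin, ⟨l0, hl1, hl2, ?_⟩, fun t ht => ?_, fun t ht => ?_⟩
  · have h3 := hfp l0 hl1
    rw [eq_div_iff hA.ne'] at h3
    rw [inv_pow, ← div_eq_mul_inv, div_eq_iff (by positivity), mul_comm ‖a j‖]
    exact h3.symm
  · have h1 := hj.2 (j - t) (by omega)
    rw [show (j - (t : ℤ) - j).natAbs = t by omega, zpow_sub₀ hr.ne', zpow_natCast] at h1
    have h2 : ‖a (j - t)‖ ≤ δ ^ t * ‖a j‖ * r ^ t := by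
      have h3 : ‖a (j - t)‖ * (r ^ j / r ^ t) = (‖a (j - t)‖ / r ^ t) * r ^ j := by ring
      rw [h3] at h1
      have h4 : ‖a (j - t)‖ / r ^ t ≤ δ ^ t * ‖a j‖ := by
        have : ‖a (j - t)‖ / r ^ t * r ^ j ≤ δ ^ t * ‖a j‖ * r ^ j := by
          calc _ ≤ _ := h1
            _ = _ := by ring
        exact le_of_mul_le_mul_right this (by positivity)
      rwa [div_le_iff₀ (by positivity)] at h4
    calc ‖a (j - t)‖ ≤ δ ^ t * ‖a j‖ * r ^ t := h2
      _ ≤ δ ^ t * ‖a j‖ * (δ * σ⁻¹) ^ t := by gcongr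
      _ = _ := by rw [mul_pow, ← pow_mul, two_mul, pow_add]; ring
  · have h1 := hk.2 (j + (e + t : ℕ)) (by push_cast; omega)
    rw [show (j + ((e + t : ℕ) : ℤ) - (j + (e : ℤ))).natAbs = t by push_cast; omega] at h1
    have e1 : ρ ^ (j + ((e + t : ℕ) : ℤ)) = ρ ^ t * ρ ^ (j + (e : ℤ)) := by
      rw [← zpow_natCast ρ t, ← zpow_add₀ hρ.ne']
      congr 1
      push_cast
      ring
    rw [e1] at h1
    have h2 : ‖a (j + (e + t : ℕ))‖ * ρ ^ t ≤ δ ^ t * ‖a (j + e)‖ := by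
      have : (‖a (j + (e + t : ℕ))‖ * ρ ^ t) * ρ ^ (j + (e : ℤ)) ≤
          (δ ^ t * ‖a (j + e)‖) * ρ ^ (j + (e : ℤ)) := by
        calc _ = ‖a (j + (e + t : ℕ))‖ * (ρ ^ t * ρ ^ (j + (e : ℤ))) := by ring
          _ ≤ _ := h1
          _ = _ := by ring
      exact le_of_mul_le_mul_right this (by positivity)
    have h3 := hwin e he le_rfl
    calc ‖a (j + (e + t : ℕ))‖ * σ⁻¹ ^ (e + t) = (‖a (j + (e + t : ℕ))‖ * σ⁻¹ ^ t) * σ⁻¹ ^ e := by
          rw [pow_add]; ring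
      _ ≤ (‖a (j + (e + t : ℕ))‖ * (δ * ρ) ^ t) * σ⁻¹ ^ e := by gcongr
      _ = (‖a (j + (e + t : ℕ))‖ * ρ ^ t) * (δ ^ t * σ⁻¹ ^ e) := by rw [mul_pow]; ring
      _ ≤ (δ ^ t * ‖a (j + e)‖) * (δ ^ t * σ⁻¹ ^ e) := by gcongr
      _ = (‖a (j + e)‖ * σ⁻¹ ^ e) * (δ ^ 2) ^ t := by
          rw [← pow_mul, two_mul, pow_add]; ring
      _ ≤ ‖a j‖ * (δ ^ 2) ^ t := by gcongr

end laurent

end Pool.Agent.R871.SG
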