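import Pool.Agent.R871.SG.LogB
import Pool.Agent.R871.SG.BubE

/-!
Clusters of terms of Laurent series.
-/

set_option autoImplicit false

namespace Pool.Agent.R871.SG

open Filter Topology Metric Set

variable {E : Type} [NormedAddCommGroup E] [NormedSpace ℂ E]

/-- The function near a cluster of terms. -/
theorem zcluster_fun [CompleteSpace E] {a : ℤ → E} {F : ℂ → E} {R0 R1 δ r ρ : ℝ} {j : ℤ} {e d : ℕ}
    (hsum : ∀ z : ℂ, R0 < ‖z‖ → ‖z‖ < R1 → HasSum (fun m : ℤ => z ^ m • a m) (F z)) (he : 1 ≤ e)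
    (hed : e ≤ d) (hδ0 : 0 < δ) (hδ : δ ≤ 1) (hr : 0 < r) (hrρ : r < ρ) (hR0 : R0 < r) (hR1 : ρ < R1)
    (hj : IsolatedZ a δ j r) (hk : IsolatedZ a δ (j + e) ρ) :
    ∃ (s : ℝ) (b : ℕ → E), 0 < s ∧ r ≤ δ * s ∧ s ≤ δ * ρ ∧ b 0 = ((‖a j‖⁻¹ : ℝ) : ℂ) • a j ∧
      ‖b 0‖ = 1 ∧ (∀ l ≤ d, ‖b l‖ ≤ 1) ∧
      (∃ l, 1 ≤ l ∧ l ≤ d ∧ ‖b l‖ = 1) ∧
      ∀ R : ℝ, 1 ≤ R → R * δ < 1 → R * δ ^ 2 ≤ 1 / 2 → ∀ w : ℂ, 1 / R ≤ ‖w‖ → ‖w‖ ≤ R →
        (R0 < ‖(s : ℂ) * w‖ ∧ ‖(s : ℂ) * w‖ < R1) ∧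
        ‖((‖a j‖ : ℂ)⁻¹ * (((s : ℂ) * w) ^ j)⁻¹) • F ((s : ℂ) * w) -
          ∑ l ∈ Finset.range (d + 1), w ^ l • b l‖ ≤ 4 * R ^ (d + 1) * δ ^ 2 := by
  obtain ⟨s, hs0, hs1, hs2, hwin, ⟨l0, hl1, hl2, hl3⟩, hlow, hup⟩ := zcluster_scale he hδ0 hr hrρ hj hk
  have hA : 0 < ‖a j‖ := norm_pos_iff.2 hj.1
  have hbn : ∀ l : ℕ, ‖((s ^ l / ‖a j‖ : ℝ) : ℂ) • a (j + l)‖ = ‖a (j + l)‖ * s ^ l / ‖a j‖ := by
    intro l
    rw [norm_smul, Complex.norm_real, Real.norm_of_nonneg (by positivity)]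
    ring
  refine ⟨s, fun l => ((s ^ l / ‖a j‖ : ℝ) : ℂ) • a (j + l), hs0, hs1, hs2, ?_, ?_, fun l hl => ?_,
    ⟨l0, hl1, hl2.trans hed, ?_⟩, fun R hR1' hRδ1 hRδ w hw1 hw2 => ?_⟩
  · simp only [pow_zero, Nat.cast_zero, add_zero, one_div]
  · rw [hbn, pow_zero, mul_one, Nat.cast_zero, add_zero, div_self hA.ne']
  · rw [hbn, div_le_one hA]
    rcases Nat.eq_zero_or_pos l with rfl | hl0
    · simp
    · rcases le_or_gt l e with h1 | h1
      · exact hwin l hl0 h1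
      · have := hup (l - e) (by omega)
        rw [show e + (l - e) = l by omega] at this
        refine this.trans ?_
        have h2 : (δ ^ 2) ^ (l - e) ≤ 1 :=
          pow_le_one₀ (by positivity) (pow_le_one₀ hδ0.le hδ)
        nlinarith
  · rw [hbn, hl3, div_self hA.ne']
  have hR0' : 0 < R := by linarith
  have hw0 : 0 < ‖w‖ := lt_of_lt_of_le (by positivity) hw1
  have hwne : w ≠ 0 := norm_pos_iff.1 hw0
  have hsC : (s : ℂ) ≠ 0 := by exact_mod_cast hs0.ne'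
  have hswn : ‖(s : ℂ) * w‖ = s * ‖w‖ := by
    rw [norm_mul, Complex.norm_real, Real.norm_of_nonneg hs0.le]
  have hann : R0 < ‖(s : ℂ) * w‖ ∧ ‖(s : ℂ) * w‖ < R1 := by
    rw [hswn]
    constructor
    · have h1 : r ≤ s * ‖w‖ := by
        have h2 : 1 ≤ ‖w‖ * R := by rwa [div_le_iff₀ hR0'] at hw1
        calc r ≤ δ * s := hs1
          _ ≤ δ * s * (‖w‖ * R) := le_mul_of_one_le_right (by positivity) h2
          _ = (R * δ) * (s * ‖w‖) := by ring
          _ ≤ 1 * (s * ‖w‖) := by gcongr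
          _ = _ := one_mul _
      linarith
    · have h1 : s * ‖w‖ ≤ ρ := by
        have hρ : 0 < ρ := hr.trans hrρ
        calc s * ‖w‖ ≤ (δ * ρ) * R := by gcongr
          _ = (R * δ) * ρ := by ring
          _ ≤ 1 * ρ := by gcongr
          _ = _ := one_mul _
      linarith
  refine ⟨hann, ?_⟩
  have hswne : (s : ℂ) * w ≠ 0 := mul_ne_zero hsC hwne
  -- the terms, with the index shifted by `j`
  set u : ℤ → E := fun t => ((‖a j‖ : ℂ)⁻¹ * ((s : ℂ) * w) ^ t) • a (j + t) with hu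
  have h1 : HasSum u (((‖a j‖ : ℂ)⁻¹ * (((s : ℂ) * w) ^ j)⁻¹) • F ((s : ℂ) * w)) := by
    have h2 := (hsum _ hann.1 hann.2).const_smul ((‖a j‖ : ℂ)⁻¹ * (((s : ℂ) * w) ^ j)⁻¹)
    have h3 := (Equiv.addLeft j).hasSum_iff.2 h2
    have h4 : ((fun m : ℤ => ((‖a j‖ : ℂ)⁻¹ * (((s : ℂ) * w) ^ j)⁻¹) •
        (((s : ℂ) * w) ^ m • a m)) ∘ (Equiv.addLeft j)) = u := by
      funext t
      simp only [Function.comp, Equiv.coe_addLeft, hu]
      rw [smul_smul, zpow_add₀ hswne]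
      congr 1
      field_simp
    rw [h4] at h3
    exact h3
  have hun : ∀ t : ℤ, ‖u t‖ = ‖a j‖⁻¹ * ((s * ‖w‖) ^ t * ‖a (j + t)‖) := by
    intro t
    rw [hu]
    simp only
    rw [norm_smul, norm_mul, norm_inv, Complex.norm_real, norm_norm, norm_zpow, hswn]
    ring
  -- remove the middle terms
  set T : Finset ℤ := (Finset.range (d + 1)).map Nat.castEmbedding with hT
  have hTm : ∀ t : ℤ, t ∈ T ↔ 0 ≤ t ∧ t ≤ d := by
    intro t
    rw [hT, Finset.mem_map]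
    constructor
    · rintro ⟨l, hl, rfl⟩
      have := Finset.mem_range.1 hl
      simp only [Nat.castEmbedding_apply]
      omega
    · rintro ⟨h0, h1⟩
      exact ⟨t.toNat, Finset.mem_range.2 (by omega), by simp [Int.toNat_of_nonneg h0]⟩
  have hmid : ∑ t ∈ T, u t = ∑ l ∈ Finset.range (d + 1), w ^ l • (((s ^ l / ‖a j‖ : ℝ) : ℂ) • a (j + l)) := by
    rw [hT, Finset.sum_map]
    refine Finset.sum_congr rfl fun l _ => ?_
    rw [hu]
    simp only [Nat.castEmbedding_apply]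
    rw [smul_smul, zpow_natCast]
    congr 1
    push_cast
    rw [mul_pow]
    ring
  have h5 : HasSum (fun t => if t ∈ T then 0 else u t)
      (((‖a j‖ : ℂ)⁻¹ * (((s : ℂ) * w) ^ j)⁻¹) • F ((s : ℂ) * w) - ∑ t ∈ T, u t) := by
    have h6 : HasSum (fun t => if t ∈ T then u t else 0) (∑ t ∈ T, u t) := by
      have h7 : HasSum (fun t => if t ∈ T then u t else 0) (∑ t ∈ T, if t ∈ T then u t else 0) :=
        hasSum_sum_of_ne_finset_zero fun t ht => if_neg ht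
      have h8 : ∑ t ∈ T, (if t ∈ T then u t else 0) = ∑ t ∈ T, u t :=
        Finset.sum_congr rfl fun t ht => if_pos ht
      rwa [h8] at h7
    have h9 := h1.sub h6
    have h10 : (fun t => u t - if t ∈ T then u t else 0) = fun t => if t ∈ T then 0 else u t := by
      funext t
      by_cases ht : t ∈ T
      · rw [if_pos ht, if_pos ht, sub_self]
      · rw [if_neg ht, if_neg ht, sub_zero]
    rwa [h10] at h9
  -- the majorant
  set v : ℤ → ℝ := fun t => if t < 0 then R * δ ^ 2 * (1 / 2) ^ (t.natAbs - 1) else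
    if t ≤ d then 0 else R ^ (d + 1) * δ ^ 2 * (1 / 2) ^ (t.natAbs - (d + 1)) with hv
  have hgeo : HasSum (fun n : ℕ => ((1 : ℝ) / 2) ^ n) 2 := by
    have := hasSum_geometric_two
    simpa using this
  have hvneg : HasSum (fun n : ℕ => v (-(n + 1))) (R * δ ^ 2 * 2) := by
    have h6 := hgeo.mul_left (R * δ ^ 2)
    have h7 : (fun n : ℕ => v (-(n + 1))) = fun n : ℕ => R * δ ^ 2 * (1 / 2) ^ n := by
      funext n
      have h8 : (-((n : ℤ) + 1)) < 0 := by omega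
      have h9 : (-((n : ℤ) + 1)).natAbs - 1 = n := by omega
      simp only [hv]
      rw [if_pos h8, h9]
    rw [h7]
    exact h6
  have hvpos : HasSum (fun n : ℕ => v n) (R ^ (d + 1) * δ ^ 2 * 2) := by
    have h6 := hgeo.mul_left (R ^ (d + 1) * δ ^ 2)
    have h7 : (fun n : ℕ => v ((n + (d + 1) : ℕ))) = fun n : ℕ => R ^ (d + 1) * δ ^ 2 * (1 / 2) ^ n := by
      funext n
      have h8 : ¬ (((n + (d + 1) : ℕ) : ℤ) < 0) := by omega
      have h9 : ¬ (((n + (d + 1) : ℕ) : ℤ) ≤ d) := by omega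
      have h10 : (((n + (d + 1) : ℕ) : ℤ)).natAbs - (d + 1) = n := by omega
      simp only [hv]
      rw [if_neg h8, if_neg h9, h10]
    rw [← h7] at h6
    have h8 := (hasSum_nat_add_iff (f := fun n : ℕ => v n) (d + 1)).1 h6
    have h9 : ∑ i ∈ Finset.range (d + 1), v i = 0 := by
      refine Finset.sum_eq_zero fun i hi => ?_
      have hi' := Finset.mem_range.1 hi
      have h10 : ¬ ((i : ℤ) < 0) := by omega
      have h11 : ((i : ℤ) ≤ d) := by omega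
      simp only [hv]
      rw [if_neg h10, if_pos h11]
    rwa [h9, add_zero] at h8
  have hvs : HasSum v (R ^ (d + 1) * δ ^ 2 * 2 + R * δ ^ 2 * 2) := hvpos.of_nat_of_neg_add_one hvneg
  have hb : ∀ t, ‖(if t ∈ T then 0 else u t : E)‖ ≤ v t := by
    intro t
    by_cases ht0 : t < 0
    · have hnT : t ∉ T := fun h => by
        have := (hTm t).1 h
        omega
      rw [if_neg hnT]
      simp only [hv]
      rw [if_pos ht0]
      obtain ⟨n, rfl⟩ : ∃ n : ℕ, t = -((n + 1 : ℕ) : ℤ) := ⟨t.natAbs - 1, by omega⟩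
      have h6 : (-((n + 1 : ℕ) : ℤ)).natAbs - 1 = n := by omega
      rw [h6, hun]
      have h7 := hlow (n + 1) (by omega)
      have h8 : (s * ‖w‖) ^ (-((n + 1 : ℕ) : ℤ)) = ((s * ‖w‖) ^ (n + 1))⁻¹ := by
        rw [zpow_neg, zpow_natCast]
      rw [h8, show j + (-((n + 1 : ℕ) : ℤ)) = j - ((n + 1 : ℕ) : ℤ) by ring]
      have h9 : (‖w‖ ^ (n + 1))⁻¹ ≤ R ^ (n + 1) := by
        rw [← inv_pow]
        refine pow_le_pow_left₀ (by positivity) ?_ _
        rw [inv_le_comm₀ hw0 hR0', ← one_div]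
        exact hw1
      calc ‖a j‖⁻¹ * (((s * ‖w‖) ^ (n + 1))⁻¹ * ‖a (j - ((n + 1 : ℕ) : ℤ))‖)
          ≤ ‖a j‖⁻¹ * (((s * ‖w‖) ^ (n + 1))⁻¹ * (‖a j‖ * s ^ (n + 1) * (δ ^ 2) ^ (n + 1))) := by
            gcongr
        _ = (‖w‖ ^ (n + 1))⁻¹ * (δ ^ 2) ^ (n + 1) := by
            rw [mul_pow]
            field_simp
        _ ≤ R ^ (n + 1) * (δ ^ 2) ^ (n + 1) := by gcongr
        _ = (R * δ ^ 2) * (R * δ ^ 2) ^ n := by rw [← mul_pow, pow_succ]; ring
        _ ≤ (R * δ ^ 2) * (1 / 2) ^ n := by gcongr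
    · by_cases htd : t ≤ d
      · have hT' : t ∈ T := (hTm t).2 ⟨by omega, htd⟩
        rw [if_pos hT', norm_zero]
        simp only [hv]
        rw [if_neg ht0, if_pos htd]
      · have hnT : t ∉ T := fun h => by
          have := (hTm t).1 h
          omega
        rw [if_neg hnT]
        simp only [hv]
        rw [if_neg ht0, if_neg htd]
        obtain ⟨n, rfl⟩ : ∃ n : ℕ, t = ((e + ((d - e) + 1 + n) : ℕ) : ℤ) :=
          ⟨t.natAbs - (d + 1), by omega⟩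
        have h6 : (((e + ((d - e) + 1 + n) : ℕ) : ℤ)).natAbs - (d + 1) = n := by omega
        rw [h6, hun, zpow_natCast]
        have h7 := hup ((d - e) + 1 + n) (by omega)
        set t' := (d - e) + 1 + n with ht'
        calc ‖a j‖⁻¹ * ((s * ‖w‖) ^ (e + t') * ‖a (j + ((e + t' : ℕ) : ℤ))‖)
            = ‖a j‖⁻¹ * (‖w‖ ^ (e + t') * (‖a (j + ((e + t' : ℕ) : ℤ))‖ * s ^ (e + t'))) := by
              rw [mul_pow]; ring
          _ ≤ ‖a j‖⁻¹ * (‖w‖ ^ (e + t') * (‖a j‖ * (δ ^ 2) ^ t')) := by gcongr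
          _ = ‖w‖ ^ (e + t') * (δ ^ 2) ^ t' := by field_simp
          _ ≤ R ^ (e + t') * (δ ^ 2) ^ t' := by gcongr
          _ = (R ^ (d + 1) * (δ ^ 2) ^ ((d - e) + 1)) * (R * δ ^ 2) ^ n := by
              rw [show e + t' = (d + 1) + n by omega, ht', pow_add R, pow_add (δ ^ 2), mul_pow]
              ring
          _ ≤ (R ^ (d + 1) * δ ^ 2) * (1 / 2) ^ n := by
              have h8 : (δ ^ 2) ^ ((d - e) + 1) ≤ δ ^ 2 := by
                rw [pow_succ]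
                have h9 : (δ ^ 2) ^ (d - e) ≤ 1 := pow_le_one₀ (by positivity) (pow_le_one₀ hδ0.le hδ)
                calc (δ ^ 2) ^ (d - e) * δ ^ 2 ≤ 1 * δ ^ 2 := by gcongr
                  _ = _ := one_mul _
              gcongr
  have h6 := tsum_of_norm_bounded hvs hb
  rw [h5.tsum_eq, hmid] at h6
  refine h6.trans ?_
  have h7 : R ≤ R ^ (d + 1) := le_self_pow₀ hR1' (by omega)
  have h8 : R * δ ^ 2 ≤ R ^ (d + 1) * δ ^ 2 := by gcongr
  linarith

end Pool.Agent.R871.SG
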