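import Pool.Agent.R871.SG.LogC

/-!
Isolated terms of Laurent series of holomorphic maps to a closed cone which avoid a hypersurface: the
main theorem.
-/

set_option autoImplicit false

namespace Pool.Agent.R871.SG

open Filter Topology Metric Set MvPolynomial

variable {n : ℕ}

/-- `F` is given on the annulus `R0 < |z| < R1` by the Laurent series with coefficients `a`; it is
holomorphic there, has no zeros, has values in `X` and does not meet `{H = 0}`. -/
def LaurentIn (X : Set (Fin (n + 1) → ℂ)) (H : MvPolynomial (Fin (n + 1)) ℂ) (R0 R1 : ℝ)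
    (F : ℂ → Fin (n + 1) → ℂ) (a : ℤ → Fin (n + 1) → ℂ) : Prop :=
  DifferentiableOn ℂ F {z | R0 < ‖z‖ ∧ ‖z‖ < R1} ∧
    ∀ z : ℂ, R0 < ‖z‖ → ‖z‖ < R1 → HasSum (fun m : ℤ => z ^ m • a m) (F z) ∧ F z ≠ 0 ∧ F z ∈ X ∧
      eval (F z) H ≠ 0

theorem isOpen_annulus (R0 R1 : ℝ) : IsOpen {z : ℂ | R0 < ‖z‖ ∧ ‖z‖ < R1} :=
  (isOpen_lt continuous_const continuous_norm).inter (isOpen_lt continuous_norm continuous_const)

theorem log_low {X Z : Set (Fin (n + 1) → ℂ)} (hX : IsClosed X) (hZ : IsClosed Z)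
    (hs : ∀ (a : ℂ), ∀ x ∈ X, a • x ∈ X) (hZs : ∀ (a : ℂ), ∀ x ∈ Z, a • x ∈ Z)
    {H : MvPolynomial (Fin (n + 1)) ℂ} (hH : ∃ e, H.IsHomogeneous e) {d : ℕ}
    (hR : LogFree X Z H d) {ε : ℝ} (hε : 0 < ε) :
    ∃ δ : ℝ, 0 < δ ∧ ∀ (R0 R1 : ℝ) (F : ℂ → Fin (n + 1) → ℂ) (a : ℤ → Fin (n + 1) → ℂ),
      LaurentIn X H R0 R1 F a → ∀ (j : ℤ) (e : ℕ) (r ρ : ℝ), 1 ≤ e → e ≤ d → 0 < r → r < ρ →
        R0 < r → ρ < R1 → IsolatedZ a δ j r → IsolatedZ a δ (j + e) ρ →
        ∃ x ∈ Z, ‖a j - x‖ ≤ ε * ‖a j‖ := by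
  by_contra hcon
  push Not at hcon
  have h1 : ∀ i : ℕ, ∃ (G : ℂ → Fin (n + 1) → ℂ) (b : ℕ → Fin (n + 1) → ℂ) (U : Set ℂ), IsOpen U ∧
      DifferentiableOn ℂ G U ∧ (∀ w ∈ U, G w ≠ 0 ∧ G w ∈ X ∧ eval (G w) H ≠ 0) ∧
      (∀ x ∈ Z, ε < ‖b 0 - x‖) ∧ ‖b 0‖ = 1 ∧ (∀ l ≤ d, ‖b l‖ ≤ 1) ∧
      (∃ l, 1 ≤ l ∧ l ≤ d ∧ ‖b l‖ = 1) ∧
      ∀ R : ℝ, 1 ≤ R → R * (1 / ((i : ℝ) + 2)) < 1 → R * (1 / ((i : ℝ) + 2)) ^ 2 ≤ 1 / 2 →
        ∀ w : ℂ, 1 / R ≤ ‖w‖ → ‖w‖ ≤ R → w ∈ U ∧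
        ‖G w - ∑ l ∈ Finset.range (d + 1), w ^ l • b l‖ ≤
          4 * R ^ (d + 1) * (1 / ((i : ℝ) + 2)) ^ 2 := by
    intro i
    have hi : (0 : ℝ) ≤ i := i.cast_nonneg
    obtain ⟨R0, R1, F, a, ⟨hFd, hF⟩, j, e, r, ρ, he, hed, hr, hrρ, hR0, hR1, hj, hk, hfar⟩ :=
      hcon (1 / ((i : ℝ) + 2)) (by positivity)
    have hlt : (1 : ℝ) / ((i : ℝ) + 2) ≤ 1 := by
      rw [div_le_one (by positivity)]
      linarith
    obtain ⟨s, b, hs0, hs1, hs2, hb0e, hb0, hb1, hb2, hest⟩ := zcluster_fun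
      (fun z hz1 hz2 => (hF z hz1 hz2).1) he hed (by positivity) hlt hr hrρ hR0 hR1 hj hk
    have hsC : (s : ℂ) ≠ 0 := by exact_mod_cast hs0.ne'
    have hA : ‖a j‖ ≠ 0 := norm_ne_zero_iff.2 hj.1
    have hAC : (‖a j‖ : ℂ)⁻¹ ≠ 0 := inv_ne_zero (by exact_mod_cast hA)
    refine ⟨fun w => ((‖a j‖ : ℂ)⁻¹ * (((s : ℂ) * w) ^ j)⁻¹) • F ((s : ℂ) * w), b,
      {w | w ≠ 0} ∩ (fun w : ℂ => (s : ℂ) * w) ⁻¹' {z | R0 < ‖z‖ ∧ ‖z‖ < R1}, ?_, ?_, ?_, ?_, hb0, hb1,
      hb2, ?_⟩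
    · exact isOpen_ne.inter ((isOpen_annulus R0 R1).preimage (continuous_const.mul continuous_id))
    · refine DifferentiableOn.fun_smul ?_ ?_
      · intro w hw
        have hsw : (s : ℂ) * w ≠ 0 := mul_ne_zero hsC hw.1
        have h2 : DifferentiableAt ℂ (fun w : ℂ => (s : ℂ) * w) w := differentiableAt_id.const_mul _
        have h3 := (h2.zpow (m := j) (Or.inl hsw)).fun_inv (zpow_ne_zero j hsw)
        exact (h3.const_mul _).differentiableWithinAt
      · exact hFd.comp (differentiable_id.const_mul _).differentiableOn fun w hw => hw.2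
    · intro w hw
      have hsw : (s : ℂ) * w ≠ 0 := mul_ne_zero hsC hw.1
      have h2 := hF _ hw.2.1 hw.2.2
      have h3 : ((‖a j‖ : ℂ)⁻¹ * (((s : ℂ) * w) ^ j)⁻¹) ≠ 0 :=
        mul_ne_zero hAC (inv_ne_zero (zpow_ne_zero j hsw))
      refine ⟨smul_ne_zero h3 h2.2.1, hs _ _ h2.2.2.1, ?_⟩
      obtain ⟨e', he'⟩ := hH
      rw [eval_smul_form he']
      exact mul_ne_zero (pow_ne_zero _ h3) h2.2.2.2
    · intro x hx
      have h2 := hfar ((‖a j‖ : ℂ) • x) (hZs _ _ hx)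
      have h3 : a j - (‖a j‖ : ℂ) • x = (‖a j‖ : ℂ) • (b 0 - x) := by
        rw [smul_sub, hb0e, smul_smul]
        congr 1
        rw [← Complex.ofReal_mul, mul_inv_cancel₀ hA, Complex.ofReal_one, one_smul]
      rw [h3, norm_smul, Complex.norm_real, norm_norm, mul_comm ε] at h2
      exact lt_of_mul_lt_mul_left h2 (norm_nonneg _)
    · intro R hR1' h2 h3 w hw1 hw2
      have hw0 : w ≠ 0 := by
        rw [← norm_pos_iff]
        exact lt_of_lt_of_le (by positivity) hw1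
      obtain ⟨h4, h5⟩ := hest R hR1' h2 h3 w hw1 hw2
      exact ⟨⟨hw0, h4⟩, h5⟩
  choose G b U hUo hGd hG hbZ hb0 hb1 hb2 hest using h1
  -- the limit
  obtain ⟨β, hβ, φ, hφ, hφl⟩ := (compact_window (E := Fin (n + 1) → ℂ) d).tendsto_subseq
    (x := fun i (l : Fin (d + 1)) => b i l) fun i => by
      refine ⟨⟨fun l => hb1 i l (by have := l.2; omega), hb0 i⟩, ?_⟩
      obtain ⟨l, h1, h2, h3⟩ := hb2 i
      refine ⟨⟨l, by omega⟩, ?_, h3⟩
      intro h
      have := congrArg Fin.val h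
      simp only [Fin.val_zero] at this
      omega
  have hφa := hφ.tendsto_atTop
  have hβl : ∀ l, Tendsto (fun i => b (φ i) (l : Fin (d + 1))) atTop (𝓝 (β l)) := fun l =>
    tendsto_pi_nhds.1 hφl l
  set b' : ℕ → Fin (n + 1) → ℂ := fun l => if hl : l < d + 1 then β ⟨l, hl⟩ else 0 with hb'
  have hb'l : ∀ l (hl : l < d + 1), b' l = β ⟨l, hl⟩ := fun l hl => dif_pos hl
  have hb'0 : b' 0 = β 0 := hb'l 0 (by omega)
  set Q : ℂ → Fin (n + 1) → ℂ := fun w => ∑ l ∈ Finset.range (d + 1), w ^ l • b' l with hQ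
  have hconv : ∀ R : ℝ, 1 ≤ R → ∀ ε > 0, ∀ᶠ i in atTop, ∀ w : ℂ, 1 / R ≤ ‖w‖ → ‖w‖ ≤ R →
      w ∈ U (φ i) ∧ ‖G (φ i) w - Q w‖ ≤ ε := by
    intro R hR1 ε hε
    have hR0 : 0 < R := by linarith
    have h2 : Tendsto (fun i : ℕ => (1 : ℝ) / ((i : ℝ) + 2)) atTop (𝓝 0) :=
      tendsto_const_nhds.div_atTop (tendsto_atTop_add_const_right _ _ tendsto_natCast_atTop_atTop)
    have hδt1 : Tendsto (fun i : ℕ => (1 / (((φ i : ℕ) : ℝ) + 2))) atTop (𝓝 0) := h2.comp hφa
    have hδt : Tendsto (fun i : ℕ => (1 / (((φ i : ℕ) : ℝ) + 2)) ^ 2) atTop (𝓝 0) := by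
      have := hδt1.pow 2
      simpa using this
    have e0 : ∀ᶠ i in atTop, R * (1 / (((φ i : ℕ) : ℝ) + 2)) < 1 := by
      have := hδt1.const_mul R
      rw [mul_zero] at this
      exact this.eventually_lt_const (by norm_num)
    have e1 : ∀ᶠ i in atTop, R * (1 / (((φ i : ℕ) : ℝ) + 2)) ^ 2 < 1 / 2 := by
      have := hδt.const_mul R
      rw [mul_zero] at this
      exact this.eventually_lt_const (by norm_num)
    have e2 : ∀ᶠ i in atTop, 4 * R ^ (d + 1) * (1 / (((φ i : ℕ) : ℝ) + 2)) ^ 2 < ε / 2 := by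
      have := hδt.const_mul (4 * R ^ (d + 1))
      rw [mul_zero] at this
      exact this.eventually_lt_const (half_pos hε)
    have e3 : ∀ᶠ i in atTop, ∑ l : Fin (d + 1), R ^ (l : ℕ) * ‖b (φ i) l - β l‖ < ε / 2 := by
      have h2 : ∀ l : Fin (d + 1), Tendsto (fun i => R ^ (l : ℕ) * ‖b (φ i) l - β l‖) atTop (𝓝 0) := by
        intro l
        have := ((hβl l).sub_const (β l)).norm.const_mul (R ^ (l : ℕ))
        rwa [sub_self, norm_zero, mul_zero] at this
      have h3 := tendsto_finsetSum Finset.univ fun l _ => h2 l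
      rw [Finset.sum_const_zero] at h3
      exact h3.eventually_lt_const (half_pos hε)
    filter_upwards [e0, e1, e2, e3] with i h0 h1 h2 h3 w hw1 hw2
    obtain ⟨hU, h4⟩ := hest (φ i) R hR1 h0 h1.le w hw1 hw2
    refine ⟨hU, ?_⟩
    have h5 : ‖∑ l ∈ Finset.range (d + 1), w ^ l • b (φ i) l - Q w‖ ≤ ε / 2 := by
      rw [hQ]
      simp only
      rw [← Finset.sum_sub_distrib]
      refine ((norm_sum_le _ _).trans ?_).trans h3.le
      rw [Finset.sum_range]
      refine Finset.sum_le_sum fun l _ => ?_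
      rw [hb'l l l.2, ← smul_sub, norm_smul, norm_pow]
      exact mul_le_mul_of_nonneg_right (pow_le_pow_left₀ (norm_nonneg _) hw2 _) (norm_nonneg _)
    have h6 := norm_sub_le_norm_sub_add_norm_sub (G (φ i) w)
      (∑ l ∈ Finset.range (d + 1), w ^ l • b (φ i) l) (Q w)
    linarith
  -- neighbourhoods of the points which are not zero
  have hnear : ∀ w0 : ℂ, w0 ≠ 0 → ∀ ε > 0, ∃ g : ℂ → Fin (n + 1) → ℂ,
      DifferentiableOn ℂ g (ball w0 (‖w0‖ / 2)) ∧
      (∀ w ∈ ball w0 (‖w0‖ / 2), g w ≠ 0 ∧ g w ∈ X ∧ eval (g w) H ≠ 0) ∧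
      ∀ w ∈ ball w0 (‖w0‖ / 2), ‖g w - Q w‖ ≤ ε := by
    intro w0 hw0 ε hε
    have hw0n : 0 < ‖w0‖ := norm_pos_iff.2 hw0
    obtain ⟨R, hR1, hR2, hR3⟩ : ∃ R : ℝ, 1 ≤ R ∧ 2 * ‖w0‖ ≤ R ∧ 2 * ‖w0‖⁻¹ ≤ R :=
      ⟨max 1 (max (2 * ‖w0‖) (2 * ‖w0‖⁻¹)), le_max_left _ _, (le_max_left _ _).trans (le_max_right _ _),
        (le_max_right _ _).trans (le_max_right _ _)⟩
    obtain ⟨i, hi⟩ := (hconv R hR1 ε hε).exists
    have hmem : ∀ w ∈ ball w0 (‖w0‖ / 2), 1 / R ≤ ‖w‖ ∧ ‖w‖ ≤ R := by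
      intro w hw
      rw [mem_ball_iff_norm] at hw
      have h2 : ‖w0‖ / 2 ≤ ‖w‖ := by
        have := norm_sub_norm_le w0 w
        rw [norm_sub_rev] at this
        linarith
      have h3 : ‖w‖ ≤ R := by
        have := norm_sub_norm_le w w0
        linarith
      refine ⟨le_trans ?_ h2, h3⟩
      have hR0 : 0 < R := by linarith
      rw [one_div, inv_le_comm₀ hR0 (by positivity), inv_div]
      rw [div_eq_mul_inv]
      exact hR3
    refine ⟨G (φ i), (hGd (φ i)).mono fun w hw => (hi w (hmem w hw).1 (hmem w hw).2).1,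
      fun w hw => hG (φ i) w (hi w (hmem w hw).1 (hmem w hw).2).1,
      fun w hw => (hi w (hmem w hw).1 (hmem w hw).2).2⟩
  -- the limit lies in the cone
  have hQc : Continuous Q := by
    rw [hQ]
    exact continuous_finsetSum _ fun l _ => (continuous_id.pow l).smul continuous_const
  have hQX0 : ∀ w : ℂ, w ≠ 0 → Q w ∈ X := by
    intro w hw
    refine hX.closure_subset (Metric.mem_closure_iff.2 fun ε hε => ?_)
    obtain ⟨g, _, hg2, hg3⟩ := hnear w hw (ε / 2) (half_pos hε)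
    have hw' : w ∈ ball w (‖w‖ / 2) := mem_ball_self (by have := norm_pos_iff.2 hw; positivity)
    refine ⟨g w, (hg2 w hw').2.1, ?_⟩
    rw [dist_comm, dist_eq_norm]
    exact (hg3 w hw').trans_lt (half_lt_self hε)
  have hQX : ∀ w : ℂ, Q w ∈ X := by
    have hcl : IsClosed {w | Q w ∈ X} := hX.preimage hQc
    have hsub : ({0}ᶜ : Set ℂ) ⊆ {w | Q w ∈ X} := fun w hw => hQX0 w hw
    have hd := (dense_compl_singleton (0 : ℂ)).closure_eq
    intro w
    have := closure_minimal hsub hcl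
    rw [hd] at this
    exact this (mem_univ w)
  have hdich : (∀ z : ℂ, eval (∑ i ∈ Finset.range (d + 1), z ^ i • b' i) H = 0) ∨
      ∀ z : ℂ, z ≠ 0 → eval (∑ i ∈ Finset.range (d + 1), z ^ i • b' i) H ≠ 0 := by
    by_cases h0 : ∀ z : ℂ, eval (∑ i ∈ Finset.range (d + 1), z ^ i • b' i) H = 0
    · exact Or.inl h0
    right
    intro z hz
    have hz' : 0 < ‖z‖ := norm_pos_iff.2 hz
    rcases hurwitz H b' d z (ρ := ‖z‖ / 2) (by positivity) (fun ε hε => by
      obtain ⟨g, hg1, hg2, hg3⟩ := hnear z hz ε hε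
      exact ⟨g, hg1, fun w hw => (hg2 w hw).2.2, hg3⟩) with h1 | h1
    · exact absurd h1 h0
    · exact h1
  -- the first coefficient of the limit is not in `Z`
  have hβZ : b' 0 ∉ Z := by
    intro hmem
    have h2 : ∀ i, ε < ‖b (φ i) 0 - β 0‖ := fun i => hbZ (φ i) (β 0) (by rw [← hb'0]; exact hmem)
    have h3 : Tendsto (fun i => ‖b (φ i) 0 - β 0‖) atTop (𝓝 0) := by
      have := ((hβl 0).sub_const (β 0)).norm
      rwa [sub_self, norm_zero] at this
    obtain ⟨i, hi⟩ := (h3.eventually_lt_const hε).exists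
    exact absurd hi (not_lt.2 (h2 i).le)
  have hb'0n : b' 0 ≠ 0 := by
    rw [hb'0, ← norm_ne_zero_iff, hβ.1.2]
    exact one_ne_zero
  rcases hR b' hQX hdich with ⟨v, hv⟩ | hQZ
  · choose! a ha using hv
    have hv0 : v ≠ 0 := by
      rintro rfl
      apply hb'0n
      rw [ha 0 (by omega), smul_zero]
    set q : Polynomial ℂ := ∑ l ∈ Finset.range (d + 1), Polynomial.C (a l) * Polynomial.X ^ l with hq
    have hqc : ∀ l ≤ d, q.coeff l = a l := by
      intro l hl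
      rw [hq, Polynomial.finsetSum_coeff]
      simp only [Polynomial.coeff_C_mul, Polynomial.coeff_X_pow, mul_ite, mul_one, mul_zero]
      rw [Finset.sum_ite_eq]
      simp [Nat.lt_succ_iff.2 hl]
    have hqdeg : q.natDegree ≤ d := by
      rw [hq]
      refine Polynomial.natDegree_sum_le_of_forall_le _ _ fun l hl => ?_
      have := Finset.mem_range.1 hl
      exact (Polynomial.natDegree_C_mul_X_pow_le _ _).trans (by omega)
    have hqe : ∀ w, q.eval w • v = Q w := by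
      intro w
      rw [hq, Polynomial.eval_finsetSum, Finset.sum_smul, hQ]
      refine Finset.sum_congr rfl fun l hl => ?_
      have hl' : l ≤ d := by
        have := Finset.mem_range.1 hl
        omega
      rw [ha l hl', smul_smul, Polynomial.eval_mul, Polynomial.eval_C, Polynomial.eval_pow,
        Polynomial.eval_X, mul_comm]
    have ha0 : a 0 ≠ 0 := by
      intro h0
      apply hb'0n
      rw [ha 0 (by omega), h0, zero_smul]
    obtain ⟨l1, hl10, hl1⟩ := hβ.2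
    have hal1 : q.coeff l1 ≠ 0 := by
      rw [hqc l1 (by have := l1.2; omega)]
      intro h0
      have h2 := ha l1 (by have := l1.2; omega)
      rw [h0, zero_smul, hb'l l1 l1.2] at h2
      have h4 : β l1 = 0 := h2
      rw [h4, norm_zero] at hl1
      exact zero_ne_one hl1
    have hl1' : (l1 : ℕ) ≠ 0 := fun h => hl10 (Fin.ext h)
    have hdeg : q.degree ≠ 0 := by
      intro h0
      rw [Polynomial.eq_C_of_degree_eq_zero h0, Polynomial.coeff_C, if_neg hl1'] at hal1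
      exact hal1 rfl
    obtain ⟨w0, hw0⟩ := IsAlgClosed.exists_root q hdeg
    have hw0' : q.eval w0 = 0 := hw0
    have hw00 : w0 ≠ 0 := by
      rintro rfl
      rw [← Polynomial.coeff_zero_eq_eval_zero, hqc 0 (by omega)] at hw0'
      exact ha0 hw0'
    have hq0 : q ≠ 0 := by rintro h; rw [h] at hal1; simp at hal1
    have htq : Polynomial.taylor w0 q ≠ 0 := by
      intro h
      exact hq0 ((Polynomial.taylor_eq_zero _ _).1 h)
    classical
    have hex : ∃ l, (Polynomial.taylor w0 q).coeff l ≠ 0 := by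
      by_contra h
      push Not at h
      exact htq (Polynomial.ext fun l => by simpa using h l)
    have hge : 1 ≤ Nat.find hex := by
      rw [Nat.one_le_iff_ne_zero]
      intro h0
      have := Nat.find_spec hex
      rw [h0, Polynomial.taylor_coeff_zero] at this
      exact this hw0'
    have hle : Nat.find hex ≤ d := by
      have h2 := Polynomial.le_natDegree_of_ne_zero (Nat.find_spec hex)
      rw [Polynomial.natDegree_taylor] at h2
      omega
    have hw0n : 0 < ‖w0‖ := norm_pos_iff.2 hw00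
    have hvZ := bubble2 hX hZ hs hZs hH hR (Nat.find hex) hge hle v (Polynomial.taylor w0 q)
      (‖w0‖ / 2) hv0 (by positivity) (fun l hl => not_not.1 (Nat.find_min hex hl)) (Nat.find_spec hex)
      fun ε hε => by
        obtain ⟨g, hg1, hg2, hg3⟩ := hnear w0 hw00 ε hε
        have hmem : ∀ z ∈ ball (0 : ℂ) (‖w0‖ / 2), w0 + z ∈ ball w0 (‖w0‖ / 2) := by
          intro z hz
          rw [mem_ball_zero_iff] at hz
          rw [mem_ball_iff_norm, add_sub_cancel_left]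
          exact hz
        refine ⟨fun z => g (w0 + z), ?_, fun z hz => hg2 _ (hmem z hz), fun z hz => ?_⟩
        · exact hg1.comp ((differentiable_const _).add differentiable_id).differentiableOn hmem
        · rw [Polynomial.taylor_eval, add_comm z w0, hqe]
          exact hg3 _ (hmem z hz)
    apply hβZ
    rw [ha 0 (by omega)]
    exact hZs _ _ hvZ
  · apply hβZ
    have h2 := hQZ 0
    rw [Finset.sum_eq_single 0 (fun l _ hl => by rw [zero_pow hl, zero_smul])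
      (fun h => absurd (Finset.mem_range.2 (by omega)) h), pow_zero, one_smul] at h2
    exact h2

end Pool.Agent.R871.SG
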