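import Pool.Agent.R871.SG.LogD

/-!
Isolated terms of Laurent series of holomorphic maps to a closed cone which avoid a hypersurface: the
images of circles.
-/

set_option autoImplicit false

namespace Pool.Agent.R871.SG

open Filter Topology Metric Set MvPolynomial

variable {n : ℕ}

theorem isolatedZ_mono {E : Type} [NormedAddCommGroup E] {a : ℤ → E} {δ δ' r : ℝ} {j : ℤ}
    (hδ0 : 0 ≤ δ) (hδ : δ ≤ δ') (hr : 0 < r) (h : IsolatedZ a δ j r) : IsolatedZ a δ' j r := by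
  refine ⟨h.1, fun m hm => (h.2 m hm).trans ?_⟩
  have : 0 ≤ ‖a j‖ * r ^ j := by positivity
  gcongr

theorem laurentIn_inv {X : Set (Fin (n + 1) → ℂ)} {H : MvPolynomial (Fin (n + 1)) ℂ} {R0 R1 r : ℝ}
    {F : ℂ → Fin (n + 1) → ℂ} {a : ℤ → Fin (n + 1) → ℂ} (h : LaurentIn X H R0 R1 F a) (hr : 0 < r)
    (hR1 : 0 < R1) (hR0 : R0 ≤ r) :
    LaurentIn X H R1⁻¹ r⁻¹ (fun z => F z⁻¹) (fun m => a (-m)) := by
  have hmem : ∀ z : ℂ, R1⁻¹ < ‖z‖ → ‖z‖ < r⁻¹ → R0 < ‖z⁻¹‖ ∧ ‖z⁻¹‖ < R1 := by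
    intro z h1 h2
    have hz : 0 < ‖z‖ := lt_trans (inv_pos.2 hR1) h1
    rw [norm_inv]
    refine ⟨hR0.trans_lt ?_, ?_⟩
    · exact (lt_inv_comm₀ hr hz).2 h2
    · exact (inv_lt_comm₀ hz hR1).2 h1
  refine ⟨?_, fun z h1 h2 => ?_⟩
  · intro z hz
    have hz' : z ≠ 0 := by
      rw [← norm_pos_iff]
      exact lt_trans (inv_pos.2 hR1) hz.1
    have h2 : DifferentiableAt ℂ F z⁻¹ :=
      (h.1 _ (hmem z hz.1 hz.2)).differentiableAt ((isOpen_annulus R0 R1).mem_nhds (hmem z hz.1 hz.2))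
    exact (h2.comp z (differentiableAt_inv hz')).differentiableWithinAt
  · obtain ⟨h3, h4⟩ := h.2 z⁻¹ (hmem z h1 h2).1 (hmem z h1 h2).2
    refine ⟨?_, h4⟩
    have h5 := (Equiv.neg ℤ).hasSum_iff.2 h3
    have h6 : ((fun m : ℤ => z⁻¹ ^ m • a m) ∘ (Equiv.neg ℤ)) = fun m : ℤ => z ^ m • a (-m) := by
      funext m
      simp only [Function.comp, Equiv.neg_apply, zpow_neg, inv_zpow, inv_inv]
    rw [h6] at h5
    exact h5

theorem isolatedZ_inv {E : Type} [NormedAddCommGroup E] {a : ℤ → E} {δ r : ℝ} {j : ℤ}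
    (h : IsolatedZ a δ j r) : IsolatedZ (fun m => a (-m)) δ (-j) r⁻¹ := by
  refine ⟨by simpa using h.1, fun m hm => ?_⟩
  have h1 := h.2 (-m) (fun h => hm (by omega))
  rw [show (-m - j).natAbs = (m - -j).natAbs by omega] at h1
  simpa only [neg_neg, inv_zpow, zpow_neg, inv_inv] using h1

theorem log_both {X Z : Set (Fin (n + 1) → ℂ)} (hX : IsClosed X) (hZ : IsClosed Z)
    (hs : ∀ (a : ℂ), ∀ x ∈ X, a • x ∈ X) (hZs : ∀ (a : ℂ), ∀ x ∈ Z, a • x ∈ Z)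
    {H : MvPolynomial (Fin (n + 1)) ℂ} (hH : ∃ e, H.IsHomogeneous e) {d : ℕ}
    (hR : LogFree X Z H d) {ε : ℝ} (hε : 0 < ε) :
    ∃ δ : ℝ, 0 < δ ∧ ∀ (R0 R1 : ℝ) (F : ℂ → Fin (n + 1) → ℂ) (a : ℤ → Fin (n + 1) → ℂ),
      LaurentIn X H R0 R1 F a → ∀ (j : ℤ) (e : ℕ) (r ρ : ℝ), 1 ≤ e → e ≤ d → 0 < r → r < ρ →
        R0 < r → ρ < R1 → IsolatedZ a δ j r → IsolatedZ a δ (j + e) ρ →
        (∃ x ∈ Z, ‖a j - x‖ ≤ ε * ‖a j‖) ∧ ∃ x ∈ Z, ‖a (j + e) - x‖ ≤ ε * ‖a (j + e)‖ := by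
  obtain ⟨δ, hδ, h⟩ := log_low hX hZ hs hZs hH hR hε
  refine ⟨δ, hδ, fun R0 R1 F a hF j e r ρ he hed hr hrρ hR0 hR1 hj hk =>
    ⟨h R0 R1 F a hF j e r ρ he hed hr hrρ hR0 hR1 hj hk, ?_⟩⟩
  have hρ : 0 < ρ := hr.trans hrρ
  obtain ⟨r', hr'0, hr'1, hr'2⟩ : ∃ r' : ℝ, 0 < r' ∧ R0 ≤ r' ∧ r' < r := by
    refine ⟨max R0 (r / 2), lt_max_of_lt_right (half_pos hr), le_max_left _ _, max_lt hR0 (half_lt_self hr)⟩
  have h1 := h R1⁻¹ r'⁻¹ _ _ (laurentIn_inv hF hr'0 (hρ.trans hR1) hr'1) (-(j + e)) e ρ⁻¹ r⁻¹ he hed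
    (inv_pos.2 hρ) (inv_strictAnti₀ hr hrρ) (inv_strictAnti₀ hρ hR1) (inv_strictAnti₀ hr'0 hr'2)
    (isolatedZ_inv hk) (by
      have h2 := isolatedZ_inv hj
      rwa [show -(j + (e : ℤ)) + e = -j by ring])
  simpa only [neg_neg] using h1

theorem hasSum_absPow {δ : ℝ} (h0 : 0 < δ) (h1 : δ < 1) :
    HasSum (fun t : ℤ => if t = 0 then (0 : ℝ) else δ ^ t.natAbs) (2 * (δ / (1 - δ))) := by
  obtain ⟨g, hg'⟩ : ∃ g : ℤ → ℝ, g = fun t : ℤ => if t = 0 then (0 : ℝ) else δ ^ t.natAbs := ⟨_, rfl⟩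
  rw [← hg']
  have hg0 : g 0 = 0 := by rw [hg']; simp
  have hgt : ∀ t : ℤ, t ≠ 0 → g t = δ ^ t.natAbs := fun t ht => by rw [hg']; simp [ht]
  have hg : HasSum (fun n : ℕ => δ * δ ^ n) (δ * (1 - δ)⁻¹) :=
    (hasSum_geometric_of_lt_one h0.le h1).mul_left δ
  have h2 : HasSum (fun n : ℕ => g (-(n + 1))) (δ * (1 - δ)⁻¹) := by
    have e : (fun n : ℕ => g (-(n + 1))) = fun n : ℕ => δ * δ ^ n := by
      funext n
      rw [hgt _ (by omega), show (-((n : ℤ) + 1)).natAbs = n + 1 by omega, pow_succ]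
      ring
    rw [e]
    exact hg
  have h3 : HasSum (fun n : ℕ => g n) (δ * (1 - δ)⁻¹) := by
    have e : (fun n : ℕ => g ((n + 1 : ℕ) : ℤ)) = fun n : ℕ => δ * δ ^ n := by
      funext n
      rw [hgt _ (by omega), show (((n + 1 : ℕ) : ℤ)).natAbs = n + 1 by omega, pow_succ]
      ring
    rw [← e] at hg
    have h5 := (hasSum_nat_add_iff (f := fun n : ℕ => g (n : ℤ)) 1).1 hg
    rw [Finset.sum_range_one, Nat.cast_zero, hg0, add_zero] at h5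
    exact h5
  have h6 := h3.of_nat_of_neg_add_one h2
  have e : δ * (1 - δ)⁻¹ + δ * (1 - δ)⁻¹ = 2 * (δ / (1 - δ)) := by rw [div_eq_mul_inv]; ring
  rwa [e] at h6

/-- Near an isolated term the function is close to this term. -/
theorem isolatedZ_est {E : Type} [NormedAddCommGroup E] [NormedSpace ℂ E] [CompleteSpace E]
    {a : ℤ → E} {δ : ℝ} {j : ℤ} {z : ℂ} {y : E} (hz : z ≠ 0)
    (hsum : HasSum (fun m : ℤ => z ^ m • a m) y) (hδ0 : 0 < δ) (hδ : δ ≤ 1 / 2)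
    (h : IsolatedZ a δ j ‖z‖) : ‖y - z ^ j • a j‖ ≤ 4 * δ * (‖a j‖ * ‖z‖ ^ j) := by
  have hδ1 : δ < 1 := by linarith
  have h1 := (Equiv.addLeft j).hasSum_iff.2 hsum
  have h2 : HasSum (fun t : ℤ => if t = 0 then z ^ j • a j else 0) (z ^ j • a j) := hasSum_ite_eq 0 _
  have h3 := h1.sub h2
  have h4 : (fun t : ℤ => ((fun m : ℤ => z ^ m • a m) ∘ (Equiv.addLeft j)) t -
      if t = 0 then z ^ j • a j else 0) = fun t : ℤ => if t = 0 then 0 else z ^ (j + t) • a (j + t) := by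
    funext t
    by_cases ht : t = 0
    · subst ht
      simp
    · rw [if_neg ht, if_neg ht, sub_zero]
      simp only [Function.comp, Equiv.coe_addLeft]
  rw [h4] at h3
  have h5 := (hasSum_absPow hδ0 hδ1).mul_right (‖a j‖ * ‖z‖ ^ j)
  have h6 := tsum_of_norm_bounded h5 (f := fun t : ℤ => if t = 0 then 0 else z ^ (j + t) • a (j + t))
    (fun t => by
      by_cases ht : t = 0
      · rw [if_pos ht, if_pos ht, norm_zero, zero_mul]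
      · rw [if_neg ht, if_neg ht, norm_smul, norm_zpow]
        have := h.2 (j + t) (by omega)
        rw [show (j + t - j).natAbs = t.natAbs by congr 1; ring] at this
        rwa [mul_comm (‖z‖ ^ (j + t))])
  rw [h3.tsum_eq] at h6
  refine h6.trans ?_
  have h7 : δ / (1 - δ) ≤ 2 * δ := by
    rw [div_le_iff₀ (by linarith)]
    nlinarith
  have h8 : 0 ≤ ‖a j‖ * ‖z‖ ^ j := by positivity
  nlinarith

/-- **Circles.** -/
theorem log_circles {X Z : Set (Fin (n + 1) → ℂ)} (hX : IsClosed X) (hZ : IsClosed Z)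
    (hs : ∀ (a : ℂ), ∀ x ∈ X, a • x ∈ X) (hZs : ∀ (a : ℂ), ∀ x ∈ Z, a • x ∈ Z)
    {H : MvPolynomial (Fin (n + 1)) ℂ} (hH : ∃ e, H.IsHomogeneous e) {d : ℕ}
    (hR : LogFree X Z H d) {ε : ℝ} (hε : 0 < ε) :
    ∃ δ : ℝ, 0 < δ ∧ δ < 1 ∧ ∀ (R0 R1 : ℝ) (F : ℂ → Fin (n + 1) → ℂ) (a : ℤ → Fin (n + 1) → ℂ),
      LaurentIn X H R0 R1 F a → ∀ (j k : ℤ) (r ρ : ℝ), j < k → k ≤ j + d → 0 < r → r < ρ →
        R0 < r → ρ < R1 → IsolatedZ a δ j r → IsolatedZ a δ k ρ →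
        ∀ z : ℂ, (‖z‖ = r ∨ ‖z‖ = ρ) → ∃ x ∈ Z, ‖F z - x‖ ≤ ε * ‖F z‖ := by
  obtain ⟨δ', hδ', h⟩ := log_both hX hZ hs hZs hH hR (show 0 < ε / 4 by positivity)
  set δ : ℝ := min δ' (min (1 / 8) (ε / 16)) with hδ
  have hδ0 : 0 < δ := lt_min hδ' (lt_min (by norm_num) (by positivity))
  have hδ1 : δ ≤ δ' := min_le_left _ _
  have hδ2 : δ ≤ 1 / 8 := (min_le_right _ _).trans (min_le_left _ _)
  have hδ3 : δ ≤ ε / 16 := (min_le_right _ _).trans (min_le_right _ _)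
  -- one circle
  have key : ∀ (a : ℤ → Fin (n + 1) → ℂ) (j : ℤ) (z : ℂ) (y : Fin (n + 1) → ℂ), z ≠ 0 →
      HasSum (fun m : ℤ => z ^ m • a m) y → IsolatedZ a δ j ‖z‖ →
      (∃ x ∈ Z, ‖a j - x‖ ≤ ε / 4 * ‖a j‖) → ∃ x ∈ Z, ‖y - x‖ ≤ ε * ‖y‖ := by
    rintro a j z y hz hsum hiso ⟨x, hx, hxa⟩
    have h1 := isolatedZ_est hz hsum hδ0 (by linarith) hiso
    set A : ℝ := ‖a j‖ * ‖z‖ ^ j with hA
    have hA0 : 0 ≤ A := by positivity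
    have h2 : ‖z ^ j • a j‖ = A := by rw [norm_smul, norm_zpow, hA, mul_comm]
    have h3 : ‖z ^ j • a j - z ^ j • x‖ ≤ ε / 4 * A := by
      rw [← smul_sub, norm_smul, norm_zpow, hA]
      calc ‖z‖ ^ j * ‖a j - x‖ ≤ ‖z‖ ^ j * (ε / 4 * ‖a j‖) := by gcongr
        _ = _ := by ring
    have h4 : A / 2 ≤ ‖y‖ := by
      have h5 := norm_sub_norm_le (z ^ j • a j) y
      rw [h2, norm_sub_rev] at h5
      nlinarith
    refine ⟨z ^ j • x, hZs _ _ hx, ?_⟩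
    have h5 := norm_sub_le_norm_sub_add_norm_sub y (z ^ j • a j) (z ^ j • x)
    have h6 : 4 * δ * A ≤ ε / 4 * A := by
      have : 4 * δ ≤ ε / 4 := by linarith
      gcongr
    have h7 : ε * (A / 2) ≤ ε * ‖y‖ := by gcongr
    nlinarith
  refine ⟨δ, hδ0, by linarith, fun R0 R1 F a hF j k r ρ hjk hkd hr hrρ hR0 hR1 hj hk z hz => ?_⟩
  obtain ⟨e, rfl⟩ : ∃ e : ℕ, k = j + e := ⟨(k - j).toNat, by omega⟩
  have hρ : 0 < ρ := hr.trans hrρ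
  obtain ⟨h1, h2⟩ := h R0 R1 F a hF j e r ρ (by omega) (by omega) hr hrρ hR0 hR1
    (isolatedZ_mono hδ0.le hδ1 hr hj) (isolatedZ_mono hδ0.le hδ1 hρ hk)
  rcases hz with hz | hz
  · have hz0 : z ≠ 0 := by rw [← norm_pos_iff, hz]; exact hr
    refine key a j z (F z) hz0 (hF.2 z (by rw [hz]; exact hR0) (by rw [hz]; linarith)).1 ?_ h1
    rw [hz]; exact hj
  · have hz0 : z ≠ 0 := by rw [← norm_pos_iff, hz]; exact hρ
    refine key a (j + e) z (F z) hz0 (hF.2 z (by rw [hz]; linarith) (by rw [hz]; exact hR1)).1 ?_ h2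
    rw [hz]; exact hk

end Pool.Agent.R871.SG
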