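import Pool.Agent.R871.SG.LogE

/-!
The central index of Laurent series of holomorphic maps from a punctured disc.
-/

set_option autoImplicit false

namespace Pool.Agent.R871.SG

open Filter Topology Metric Set MvPolynomial

section ind

variable {E : Type} [NormedAddCommGroup E]

/-- The term of index `j` is a maximal term of the Laurent series with the coefficients `a` on the
circle of radius `r`. -/
def MaxTermZ (a : ℤ → E) (j : ℤ) (r : ℝ) : Prop := ∀ m, ‖a m‖ * r ^ m ≤ ‖a j‖ * r ^ j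

/-- The central index: the smallest index of a maximal term on the circle of radius `r`. -/
noncomputable def centralIndexZ (a : ℤ → E) (r : ℝ) : ℤ := sInf {j | MaxTermZ a j r}

theorem centralIndexZ_spec {a : ℤ → E} {r : ℝ} (hr : 0 < r) (h0 : ∃ m, a m ≠ 0)
    (hs : Summable fun m : ℤ => ‖a m‖ * r ^ m) : MaxTermZ a (centralIndexZ a r) r := by
  obtain ⟨m0, hm0⟩ := h0
  have hp : 0 < ‖a m0‖ * r ^ m0 := by
    have := norm_pos_iff.2 hm0
    positivity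
  have ht := hs.tendsto_cofinite_zero
  have hfin : {m : ℤ | ‖a m0‖ * r ^ m0 ≤ ‖a m‖ * r ^ m}.Finite := by
    have := ht.eventually_lt_const hp
    rw [eventually_cofinite] at this
    simpa only [not_lt] using this
  obtain ⟨j, hj, hmax⟩ := Finset.exists_max_image hfin.toFinset (fun m => ‖a m‖ * r ^ m)
    ⟨m0, by simp⟩
  have hj' : MaxTermZ a j r := by
    intro m
    by_cases hm : ‖a m0‖ * r ^ m0 ≤ ‖a m‖ * r ^ m
    · exact hmax m (by simpa using hm)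
    · have h1 : ‖a m0‖ * r ^ m0 ≤ ‖a j‖ * r ^ j := by simpa using hj
      linarith
  have hsub : {j | MaxTermZ a j r} ⊆ {m : ℤ | ‖a m0‖ * r ^ m0 ≤ ‖a m‖ * r ^ m} := fun k hk => hk m0
  exact Int.csInf_mem (s := {j | MaxTermZ a j r}) ⟨j, hj'⟩ (hfin.bddBelow.mono hsub)

theorem maxTermZ_ne {a : ℤ → E} {j : ℤ} {r : ℝ} (hr : 0 < r) (h0 : ∃ m, a m ≠ 0)
    (hj : MaxTermZ a j r) : a j ≠ 0 := by
  obtain ⟨m0, hm0⟩ := h0
  intro h
  have h1 := hj m0
  rw [h, norm_zero, zero_mul] at h1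
  have : 0 < ‖a m0‖ * r ^ m0 := by
    have := norm_pos_iff.2 hm0
    positivity
  linarith

theorem maxTermZ_mono {a : ℤ → E} {j k : ℤ} {r ρ : ℝ} (hr : 0 < r) (hrρ : r < ρ)
    (h0 : ∃ m, a m ≠ 0) (hj : MaxTermZ a j r) (hk : MaxTermZ a k ρ) : j ≤ k := by
  by_contra hcon
  push Not at hcon
  have hA : 0 < ‖a j‖ := norm_pos_iff.2 (maxTermZ_ne hr h0 hj)
  have hρ : 0 < ρ := hr.trans hrρ
  obtain ⟨t, rfl⟩ : ∃ t : ℕ, j = k + t := ⟨(j - k).toNat, by omega⟩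
  have ht : t ≠ 0 := by omega
  have e3 : r ^ (k + (t : ℤ)) = r ^ t * r ^ k := by rw [zpow_add₀ hr.ne', zpow_natCast]; ring
  have e4 : ρ ^ (k + (t : ℤ)) = ρ ^ t * ρ ^ k := by rw [zpow_add₀ hρ.ne', zpow_natCast]; ring
  have h1 := hj k
  have h2 := hk (k + t)
  have h3 : ‖a k‖ ≤ ‖a (k + t)‖ * r ^ t := by
    have : ‖a k‖ * r ^ k ≤ (‖a (k + t)‖ * r ^ t) * r ^ k := by
      calc _ ≤ _ := h1
        _ = _ := by rw [e3]; ring
    exact le_of_mul_le_mul_right this (by positivity)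
  have h4 : ‖a (k + t)‖ * ρ ^ t ≤ ‖a k‖ := by
    have : (‖a (k + t)‖ * ρ ^ t) * ρ ^ k ≤ ‖a k‖ * ρ ^ k := by
      calc _ = ‖a (k + t)‖ * ρ ^ (k + (t : ℤ)) := by rw [e4]; ring
        _ ≤ _ := h2
    exact le_of_mul_le_mul_right this (by positivity)
  have h5 : r ^ t < ρ ^ t := pow_lt_pow_left₀ hrρ hr.le ht
  have h6 : ‖a (k + t)‖ * r ^ t < ‖a (k + t)‖ * ρ ^ t := by gcongr
  linarith

/-- A term which is maximal on two circles is isolated on the circle between them. -/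
theorem maxTermZ_isolated {a : ℤ → E} {j : ℤ} {r δ : ℝ} (hr : 0 < r) (hδ0 : 0 < δ)
    (h0 : ∃ m, a m ≠ 0) (h1 : MaxTermZ a j r) (h2 : MaxTermZ a j (r * (δ ^ 2)⁻¹)) :
    IsolatedZ a δ j (r * δ⁻¹) := by
  refine ⟨maxTermZ_ne hr h0 h1, fun m hm => ?_⟩
  have hδi : 0 < δ⁻¹ := inv_pos.2 hδ0
  rcases lt_or_gt_of_ne hm with h | h
  · obtain ⟨t, rfl⟩ : ∃ t : ℕ, j = m + t := ⟨(j - m).toNat, by omega⟩
    rw [show (m - (m + (t : ℤ))).natAbs = t by omega]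
    have h3 := h1 m
    have e1 : δ ^ t * (δ⁻¹) ^ (m + (t : ℤ)) = (δ⁻¹) ^ m := by
      rw [zpow_add₀ hδi.ne', zpow_natCast]
      have : δ ^ t * δ⁻¹ ^ t = 1 := by rw [← mul_pow, mul_inv_cancel₀ hδ0.ne', one_pow]
      linear_combination (δ⁻¹ ^ m) * this
    calc ‖a m‖ * (r * δ⁻¹) ^ m = (‖a m‖ * r ^ m) * (δ⁻¹) ^ m := by rw [mul_zpow]; ring
      _ ≤ (‖a (m + t)‖ * r ^ (m + (t : ℤ))) * (δ⁻¹) ^ m := by gcongr
      _ = δ ^ t * (‖a (m + t)‖ * (r * δ⁻¹) ^ (m + (t : ℤ))) := by rw [← e1, mul_zpow]; ring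
  · obtain ⟨t, rfl⟩ : ∃ t : ℕ, m = j + t := ⟨(m - j).toNat, by omega⟩
    rw [show (j + (t : ℤ) - j).natAbs = t by omega]
    have h3 := h2 (j + t)
    have e0 : r * (δ ^ 2)⁻¹ = (r * δ⁻¹) * δ⁻¹ := by rw [sq, mul_inv]; ring
    rw [e0, mul_zpow, mul_zpow (r * δ⁻¹)] at h3
    have e1 : (δ⁻¹) ^ (j + (t : ℤ)) = (δ⁻¹) ^ t * (δ⁻¹) ^ j := by
      rw [zpow_add₀ hδi.ne', zpow_natCast]; ring
    have h4 : (‖a (j + t)‖ * (r * δ⁻¹) ^ (j + (t : ℤ)) * (δ⁻¹) ^ t) * (δ⁻¹) ^ j ≤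
        (‖a j‖ * (r * δ⁻¹) ^ j) * (δ⁻¹) ^ j := by
      calc _ = ‖a (j + t)‖ * ((r * δ⁻¹) ^ (j + (t : ℤ)) * (δ⁻¹) ^ (j + (t : ℤ))) := by rw [e1]; ring
        _ ≤ _ := h3
        _ = _ := by ring
    have h5 := le_of_mul_le_mul_right h4 (by positivity)
    calc ‖a (j + t)‖ * (r * δ⁻¹) ^ (j + (t : ℤ))
        = δ ^ t * (‖a (j + t)‖ * (r * δ⁻¹) ^ (j + (t : ℤ)) * (δ⁻¹) ^ t) := by
          have : δ ^ t * (δ⁻¹) ^ t = 1 := by
            rw [← mul_pow, mul_inv_cancel₀ hδ0.ne', one_pow]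
          linear_combination (-(‖a (j + t)‖ * (r * δ⁻¹) ^ (j + (t : ℤ)))) * this
      _ ≤ δ ^ t * (‖a j‖ * (r * δ⁻¹) ^ j) := by gcongr

/-- In a window in which the central index increases by at most `d` there is an isolated term. -/
theorem window_isolatedZ {a : ℤ → E} {δ x : ℝ} {d : ℕ} (hδ0 : 0 < δ) (hδ1 : δ < 1) (hx : 0 < x)
    (h0 : ∃ m, a m ≠ 0)
    (hs : ∀ r, 0 < r → r ≤ x * ((δ ^ 2)⁻¹) ^ (d + 1) → Summable fun m : ℤ => ‖a m‖ * r ^ m)
    (hd : centralIndexZ a (x * ((δ ^ 2)⁻¹) ^ (d + 1)) ≤ centralIndexZ a x + d) :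
    ∃ (j : ℤ) (ρ : ℝ), x < ρ ∧ ρ < x * ((δ ^ 2)⁻¹) ^ (d + 1) ∧ IsolatedZ a δ j ρ ∧
      centralIndexZ a x ≤ j ∧ j ≤ centralIndexZ a (x * ((δ ^ 2)⁻¹) ^ (d + 1)) := by
  set q : ℝ := (δ ^ 2)⁻¹ with hq
  have hq1 : 1 < q := by
    rw [hq]
    refine (one_lt_inv₀ (by positivity)).2 (pow_lt_one₀ hδ0.le hδ1 (by norm_num))
  have hq0 : 0 < q := by linarith
  set ν : ℕ → ℤ := fun i => centralIndexZ a (x * q ^ i) with hν
  have hpos : ∀ i, 0 < x * q ^ i := fun i => by positivity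
  have hspec : ∀ i, i ≤ d + 1 → MaxTermZ a (ν i) (x * q ^ i) := fun i hi => by
    refine centralIndexZ_spec (hpos i) h0 (hs _ (hpos i) ?_)
    have : q ^ i ≤ q ^ (d + 1) := pow_le_pow_right₀ hq1.le hi
    gcongr
  have hlt : ∀ i, x * q ^ i < x * q ^ (i + 1) := fun i => by
    have : q ^ i < q ^ (i + 1) := pow_lt_pow_right₀ hq1 (by omega)
    gcongr
  have hstep : ∀ i, i ≤ d → ν i ≤ ν (i + 1) := fun i hi =>
    maxTermZ_mono (hpos i) (hlt i) h0 (hspec i (by omega)) (hspec _ (by omega))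
  have hmono : ∀ k i, i + k ≤ d + 1 → ν i ≤ ν (i + k) := by
    intro k
    induction k with
    | zero => intro i _; exact le_rfl
    | succ k ih => intro i hi; exact (ih i (by omega)).trans (hstep (i + k) (by omega))
  have hν0 : ν 0 = centralIndexZ a x := by simp [hν]
  obtain ⟨i, hi, hieq⟩ : ∃ i ≤ d, ν i = ν (i + 1) := by
    by_contra hcon
    push Not at hcon
    have h3 : ∀ i ≤ d + 1, ν 0 + i ≤ ν i := by
      intro i
      induction i with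
      | zero => intro _; simp
      | succ i ih =>
        intro hi
        have h4 := ih (by omega)
        have h5 := hcon i (by omega)
        have h6 := hstep i (by omega)
        push_cast
        omega
    have h7 := h3 (d + 1) le_rfl
    rw [hν0] at h7
    have h8 : ν (d + 1) ≤ centralIndexZ a x + d := hd
    push_cast at h7
    omega
  refine ⟨ν i, x * q ^ i * δ⁻¹, ?_, ?_, ?_, ?_, ?_⟩
  · have h1 : 1 < δ⁻¹ := (one_lt_inv₀ hδ0).2 hδ1
    have h2 : 1 ≤ q ^ i := one_le_pow₀ hq1.le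
    calc x = x * 1 * 1 := by ring
      _ < x * q ^ i * δ⁻¹ := by
        refine mul_lt_mul' (by gcongr) h1 zero_le_one (by positivity)
  · have h1 : δ⁻¹ < q := by
      rw [hq]
      refine inv_strictAnti₀ (by positivity) ?_
      nlinarith
    have h2 : q ^ (i + 1) ≤ q ^ (d + 1) := pow_le_pow_right₀ hq1.le (by omega)
    calc x * q ^ i * δ⁻¹ < x * q ^ i * q := by gcongr
      _ = x * q ^ (i + 1) := by rw [pow_succ]; ring
      _ ≤ x * q ^ (d + 1) := by gcongr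
  · refine maxTermZ_isolated (hpos i) hδ0 h0 (hspec i (by omega)) ?_
    have h3 := hspec (i + 1) (by omega)
    rw [← hieq] at h3
    have e : x * q ^ i * (δ ^ 2)⁻¹ = x * q ^ (i + 1) := by rw [← hq, pow_succ]; ring
    rw [e]
    exact h3
  · rw [← hν0]
    have := hmono i 0 (by omega)
    rwa [zero_add] at this
  · have := hmono (d + 1 - i) i (by omega)
    rwa [show i + (d + 1 - i) = d + 1 by omega] at this

end ind

variable {n : ℕ}

theorem laurentIn_summable {X : Set (Fin (n + 1) → ℂ)} {H : MvPolynomial (Fin (n + 1)) ℂ} {R0 R1 : ℝ}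
    {F : ℂ → Fin (n + 1) → ℂ} {a : ℤ → Fin (n + 1) → ℂ} (h : LaurentIn X H R0 R1 F a) {r : ℝ}
    (hr : 0 < r) (h0 : R0 < r) (h1 : r < R1) : Summable fun m : ℤ => ‖a m‖ * r ^ m := by
  have hn : ‖(r : ℂ)‖ = r := by rw [Complex.norm_real, Real.norm_of_nonneg hr.le]
  have h2 := (h.2 (r : ℂ) (by rw [hn]; exact h0) (by rw [hn]; exact h1)).1.summable.norm
  have e : (fun m : ℤ => ‖(r : ℂ) ^ m • a m‖) = fun m : ℤ => ‖a m‖ * r ^ m := by
    funext m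
    rw [norm_smul, norm_zpow, hn, mul_comm]
  rwa [e] at h2

/-- **The central index near an isolated singularity.** -/
theorem log_central {X Z : Set (Fin (n + 1) → ℂ)} {H : MvPolynomial (Fin (n + 1)) ℂ} {d : ℕ}
    {ε δ : ℝ} (hδ0 : 0 < δ) (hδ1 : δ < 1)
    (h : ∀ (R0 R1 : ℝ) (F : ℂ → Fin (n + 1) → ℂ) (a : ℤ → Fin (n + 1) → ℂ),
      LaurentIn X H R0 R1 F a → ∀ (j k : ℤ) (r ρ : ℝ), j < k → k ≤ j + d → 0 < r → r < ρ →
        R0 < r → ρ < R1 → IsolatedZ a δ j r → IsolatedZ a δ k ρ →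
        ∀ z : ℂ, (‖z‖ = r ∨ ‖z‖ = ρ) → ∃ x ∈ Z, ‖F z - x‖ ≤ ε * ‖F z‖) :
    ∃ R : ℝ, 1 < R ∧ ∀ (R1 : ℝ) (F : ℂ → Fin (n + 1) → ℂ) (a : ℤ → Fin (n + 1) → ℂ), 0 < R1 →
      LaurentIn X H 0 R1 F a → (∀ D : ℤ, ∃ m < D, a m ≠ 0) →
      (∀ r₀ > 0, ∃ r : ℝ, 0 < r ∧ r < r₀ ∧ centralIndexZ a (r / R) + d < centralIndexZ a r) ∨
      ∃ r₀ > 0, ∀ r : ℝ, 0 < r → r < r₀ → ∃ ρ : ℝ, r / R < ρ ∧ ρ < r ∧
        ∀ z : ℂ, ‖z‖ = ρ → ∃ x ∈ Z, ‖F z - x‖ ≤ ε * ‖F z‖ := by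
  set q : ℝ := (δ ^ 2)⁻¹ with hq
  have hq1 : 1 < q := by
    rw [hq]
    refine (one_lt_inv₀ (by positivity)).2 (pow_lt_one₀ hδ0.le hδ1 (by norm_num))
  set Q : ℝ := q ^ (d + 1) with hQ
  have hQ1 : 1 < Q := one_lt_pow₀ hq1 (by omega)
  have hQ0 : 0 < Q := by linarith
  refine ⟨Q * Q, by nlinarith, fun R1 F a hR1 hF htail => ?_⟩
  rw [or_iff_not_imp_left]
  intro hcon
  push Not at hcon
  obtain ⟨r₀, hr₀, hcon⟩ := hcon
  have h0 : ∃ m, a m ≠ 0 := by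
    obtain ⟨m, _, hm⟩ := htail 0
    exact ⟨m, hm⟩
  refine ⟨min r₀ R1, lt_min hr₀ hR1, fun r hr hr1 => ?_⟩
  have hrr₀ : r < r₀ := hr1.trans_le (min_le_left _ _)
  have hrR1 : r < R1 := hr1.trans_le (min_le_right _ _)
  -- the grid
  set x : ℕ → ℝ := fun t => r / Q ^ t with hx
  have hx0 : x 0 = r := by simp [hx]
  have hxpos : ∀ t, 0 < x t := fun t => by positivity
  have hstep : ∀ t, x (t + 1) < x t := fun t => by
    rw [hx]
    simp only
    refine div_lt_div_of_pos_left hr (by positivity) (pow_lt_pow_right₀ hQ1 (by omega))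
  have hxr : ∀ t, x t ≤ r := fun t => by
    rw [hx]
    simp only
    exact div_le_self hr.le (one_le_pow₀ hQ1.le)
  have hsum : ∀ s, 0 < s → s ≤ r → Summable fun m : ℤ => ‖a m‖ * s ^ m := fun s hs hsr =>
    laurentIn_summable hF hs hs (hsr.trans_lt hrR1)
  have hspec : ∀ s, 0 < s → s ≤ r → MaxTermZ a (centralIndexZ a s) s := fun s hs hsr =>
    centralIndexZ_spec hs h0 (hsum s hs hsr)
  have hbd : ∀ t, centralIndexZ a (x t) ≤ centralIndexZ a (x (t + 2)) + d := by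
    intro t
    have h1 := hcon (x t) (hxpos t) ((hxr t).trans_lt hrr₀)
    have e : x t / (Q * Q) = x (t + 2) := by
      rw [hx]
      simp only
      rw [div_div, pow_add, sq]
    rw [e] at h1
    exact h1
  have hmono : ∀ t, centralIndexZ a (x (t + 1)) ≤ centralIndexZ a (x t) := fun t =>
    maxTermZ_mono (hxpos _) (hstep t) h0 (hspec _ (hxpos _) (hxr _)) (hspec _ (hxpos _) (hxr _))
  have hw : ∀ t : ℕ, ∃ (j : ℤ) (ρ : ℝ), x (t + 1) < ρ ∧ ρ < x t ∧ IsolatedZ a δ j ρ ∧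
      centralIndexZ a (x (t + 1)) ≤ j ∧ j ≤ centralIndexZ a (x t) := by
    intro t
    have e : x t = x (t + 1) * ((δ ^ 2)⁻¹) ^ (d + 1) := by
      rw [← hq, ← hQ, hx]
      simp only
      rw [pow_succ, ← div_div, div_mul_cancel₀ _ hQ0.ne']
    rw [e]
    refine window_isolatedZ hδ0 hδ1 (hxpos _) h0 (fun s hs hs2 => hsum s hs ?_) ?_
    · rw [← e] at hs2
      exact hs2.trans (hxr t)
    · rw [← e]
      have h1 := hbd t
      have h2 : centralIndexZ a (x (t + 2)) ≤ centralIndexZ a (x (t + 1)) := hmono (t + 1)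
      omega
  choose j ρ hρ1 hρ2 hiso hj1 hj2 using hw
  have hρp : ∀ t, 0 < ρ t := fun t => (hxpos _).trans (hρ1 t)
  have hρs : ∀ t, ρ (t + 1) < ρ t := fun t => (hρ2 (t + 1)).trans (hρ1 t)
  have hρanti : StrictAnti ρ := strictAnti_nat_of_succ_lt hρs
  have hjle : ∀ t, j (t + 1) ≤ j t := fun t => (hj2 (t + 1)).trans (hj1 t)
  have hjd : ∀ t, j t ≤ j (t + 1) + d := fun t => by
    have h1 := hj2 t
    have h2 := hbd t
    have h3 : centralIndexZ a (x (t + 2)) ≤ j (t + 1) := hj1 (t + 1)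
    omega
  -- the indices are not constant
  have hex : ∃ t, j (t + 1) ≠ j 0 := by
    by_contra hall
    push Not at hall
    obtain ⟨m, hm, hm0⟩ := htail (j 0)
    have hA : 0 < ‖a m‖ := norm_pos_iff.2 hm0
    obtain ⟨s, rfl⟩ : ∃ s : ℕ, m = j 0 - (s + 1 : ℕ) := ⟨(j 0 - m - 1).toNat, by omega⟩
    have hρt : Tendsto (fun t => ρ (t + 1)) atTop (𝓝 0) := by
      refine squeeze_zero (fun t => (hρp _).le) (fun t => (hρ2 (t + 1)).le) ?_
      have h1 : Tendsto (fun t : ℕ => r / Q ^ (t + 1)) atTop (𝓝 0) :=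
        tendsto_const_nhds.div_atTop ((tendsto_pow_atTop_atTop_of_one_lt hQ1).comp
          (tendsto_add_atTop_nat 1))
      exact h1
    have hineq : ∀ t, ‖a (j 0 - (s + 1 : ℕ))‖ ≤ ‖a (j 0)‖ * ρ (t + 1) ^ (s + 1) := by
      intro t
      have h1 := (hiso (t + 1)).2 (j 0 - (s + 1 : ℕ)) (by rw [hall t]; omega)
      rw [hall t] at h1
      have h2 : δ ^ (j 0 - ((s + 1 : ℕ) : ℤ) - j 0).natAbs ≤ 1 := pow_le_one₀ hδ0.le hδ1.le
      have hp := hρp (t + 1)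
      have h3 : ‖a (j 0 - (s + 1 : ℕ))‖ * ρ (t + 1) ^ (j 0 - ((s + 1 : ℕ) : ℤ)) ≤
          ‖a (j 0)‖ * ρ (t + 1) ^ j 0 := by
        refine h1.trans ?_
        have : 0 ≤ ‖a (j 0)‖ * ρ (t + 1) ^ j 0 := by positivity
        nlinarith
      rw [zpow_sub₀ hp.ne', zpow_natCast] at h3
      have h4 : (‖a (j 0 - (s + 1 : ℕ))‖ / ρ (t + 1) ^ (s + 1)) * ρ (t + 1) ^ j 0 ≤
          ‖a (j 0)‖ * ρ (t + 1) ^ j 0 := by
        calc _ = ‖a (j 0 - (s + 1 : ℕ))‖ * (ρ (t + 1) ^ j 0 / ρ (t + 1) ^ (s + 1)) := by ring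
          _ ≤ _ := h3
      have h5 := le_of_mul_le_mul_right h4 (by positivity)
      rwa [div_le_iff₀ (by positivity)] at h5
    have hlim : Tendsto (fun t => ‖a (j 0)‖ * ρ (t + 1) ^ (s + 1)) atTop (𝓝 0) := by
      have := (hρt.pow (s + 1)).const_mul ‖a (j 0)‖
      simpa using this
    have := ge_of_tendsto' hlim hineq
    linarith
  classical
  set s := Nat.find hex with hs
  have hs1 : j (s + 1) ≠ j 0 := Nat.find_spec hex
  have hs2 : j s = j 0 := by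
    rcases Nat.eq_zero_or_pos s with h | h
    · rw [h]
    · have h1 := Nat.find_min hex (m := s - 1) (by omega)
      push Not at h1
      rwa [show s - 1 + 1 = s by omega] at h1
  have h3 := hjle s
  have h4 := hjd s
  rw [hs2] at h3 h4
  have h5 := h 0 R1 F a hF (j (s + 1)) (j 0) (ρ (s + 1)) (ρ 0) (lt_of_le_of_ne h3 hs1) h4 (hρp _)
    (hρanti (by omega)) (hρp _) ((hρ2 0).trans_le ((hxr 0).trans hrR1.le)) (hiso _) (hiso _)
  refine ⟨ρ 0, ?_, ?_, fun z hz => h5 z (Or.inr hz)⟩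
  · have h6 := hρ1 0
    have h7 : r / (Q * Q) < r / Q := by
      refine div_lt_div_of_pos_left hr hQ0 ?_
      nlinarith
    have h8 : x (0 + 1) = r / Q := by simp [hx]
    rw [h8] at h6
    exact h7.trans h6
  · have h6 := hρ2 0
    rwa [hx0] at h6

end Pool.Agent.R871.SG
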