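import Pool.Agent.R871.SG.LogF
import Pool.Agent.R871.SG.BubG

/-!
Isolated terms of Laurent series of holomorphic maps to quasi-projective varieties: geometric form.
-/

set_option autoImplicit false

namespace Pool.Agent.R871.SG

open Filter Topology Metric Set MvPolynomial

variable {n : ℕ}

/-- Let `X` be the cone of a closed subset of `ℙⁿ`, let `D = X ∩ {H = 0}` and `V = X ∖ D`. Every
nonconstant algebraic map from the punctured line to `ℙⁿ` with image in `V` or in `D`, which is given
by polynomials of degree at most `d` without common zeros in the punctured line, has its image in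
`Z`. -/
def CurvesIn (X Z : Set (Fin (n + 1) → ℂ)) (H : MvPolynomial (Fin (n + 1)) ℂ) (d : ℕ) : Prop :=
  ∀ P : Fin (n + 1) → Polynomial ℂ, (∀ s, (P s).natDegree ≤ d) →
    (∀ z : ℂ, z ≠ 0 → pv P z ≠ 0 ∧ pv P z ∈ X) →
    ((∀ z : ℂ, z ≠ 0 → eval (pv P z) H ≠ 0) ∨ ∀ z : ℂ, z ≠ 0 → eval (pv P z) H = 0) →
    (∃ z w : ℂ, z ≠ 0 ∧ w ≠ 0 ∧ ∀ a : ℂ, pv P w ≠ a • pv P z) → ∀ z : ℂ, z ≠ 0 → pv P z ∈ Z

theorem logFree_of_curvesIn {X Z : Set (Fin (n + 1) → ℂ)} (hX : IsClosed X) (hZ : IsClosed Z)
    (hs : ∀ (a : ℂ), ∀ x ∈ X, a • x ∈ X) (hZs : ∀ (a : ℂ), ∀ x ∈ Z, a • x ∈ Z)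
    {H : MvPolynomial (Fin (n + 1)) ℂ} (hH : ∃ e, H.IsHomogeneous e) {d : ℕ}
    (h : CurvesIn X Z H d) : LogFree X Z H d := by
  intro b hb hdich
  set P : Fin (n + 1) → Polynomial ℂ := fun s =>
    ∑ i ∈ Finset.range (d + 1), Polynomial.C (b i s) * Polynomial.X ^ i with hP
  have hPv : ∀ z, pv P z = ∑ i ∈ Finset.range (d + 1), z ^ i • b i := by
    intro z
    ext s
    simp only [pv, hP, Polynomial.eval_finsetSum, Polynomial.eval_mul, Polynomial.eval_C,
      Polynomial.eval_pow, Polynomial.eval_X, Finset.sum_apply, Pi.smul_apply, smul_eq_mul]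
    exact Finset.sum_congr rfl fun i _ => mul_comm _ _
  have hPd : ∀ s, (P s).natDegree ≤ d := by
    intro s
    refine Polynomial.natDegree_sum_le_of_forall_le _ _ fun l hl => ?_
    have := Finset.mem_range.1 hl
    exact (Polynomial.natDegree_C_mul_X_pow_le _ _).trans (by omega)
  have hPc : ∀ s, ∀ i ≤ d, (P s).coeff i = b i s := by
    intro s i hi
    rw [hP]
    simp only
    rw [Polynomial.finsetSum_coeff]
    simp only [Polynomial.coeff_C_mul, Polynomial.coeff_X_pow, mul_ite, mul_one, mul_zero]
    rw [Finset.sum_ite_eq]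
    simp [Nat.lt_succ_iff.2 hi]
  by_cases h0 : ∃ z, pv P z ≠ 0
  · obtain ⟨q, P', hP', hq, hne⟩ := clear h0
    have hqP : ∀ z, pv P z = q.eval z • pv P' z := by
      intro z
      ext j
      simp [pv, hP' j]
    have hd' : ∀ j, (P' j).natDegree ≤ d := by
      intro j
      by_cases hj : P' j = 0
      · rw [hj]; simp
      · have h1 := Polynomial.natDegree_mul hq hj
        rw [← hP' j] at h1
        have := hPd j
        omega
    have hdense : Dense {z : ℂ | q.eval z ≠ 0} := by
      have hfin : {z : ℂ | q.eval z = 0}.Finite := by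
        refine (q.roots.toFinset.finite_toSet).subset fun z hz => ?_
        simpa [Polynomial.mem_roots hq] using hz
      have : {z : ℂ | q.eval z ≠ 0} = {z : ℂ | q.eval z = 0}ᶜ := by ext; simp
      rw [this]
      exact hfin.countable.dense_compl ℂ
    have hpc : Continuous (pv P') := continuous_pi fun j => (P' j).continuous
    have hcl : IsClosed {z : ℂ | pv P' z ∈ X} := hX.preimage hpc
    have hin : ∀ z, q.eval z ≠ 0 → pv P' z ∈ X := by
      intro z hz
      have h1 : pv P' z = (q.eval z)⁻¹ • pv P z := by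
        rw [hqP z, smul_smul, inv_mul_cancel₀ hz, one_smul]
      rw [h1, hPv z]
      exact hs _ _ (hb z)
    have hall : ∀ z, pv P' z ∈ X := by
      intro z
      have h1 := closure_minimal (s := {z : ℂ | q.eval z ≠ 0}) (fun w hw => hin w hw) hcl
      rw [hdense.closure_eq] at h1
      exact h1 (mem_univ z)
    obtain ⟨e, he⟩ := hH
    have hHP : ∀ z, eval (pv P z) H = q.eval z ^ e * eval (pv P' z) H := fun z => by
      rw [hqP z, eval_smul_form he]
    have hdich' : (∀ z : ℂ, z ≠ 0 → eval (pv P' z) H ≠ 0) ∨ ∀ z : ℂ, z ≠ 0 → eval (pv P' z) H = 0 := by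
      rcases hdich with h1 | h1
      · right
        intro z _
        have hcl2 : IsClosed {z : ℂ | eval (pv P' z) H = 0} :=
          isClosed_eq ((MvPolynomial.continuous_eval H).comp hpc) continuous_const
        have h2 := closure_minimal (s := {z : ℂ | q.eval z ≠ 0}) (fun w hw => by
          have h3 := h1 w
          rw [← hPv, hHP] at h3
          exact (mul_eq_zero.1 h3).resolve_left (pow_ne_zero _ hw)) hcl2
        rw [hdense.closure_eq] at h2
        exact h2 (mem_univ z)
      · left
        intro z hz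
        have h3 := h1 z hz
        rw [← hPv, hHP] at h3
        exact right_ne_zero_of_mul h3
    by_cases hnc : ∃ z w : ℂ, z ≠ 0 ∧ w ≠ 0 ∧ ∀ a : ℂ, pv P' w ≠ a • pv P' z
    · right
      have hZ' := h P' hd' (fun z _ => ⟨hne z, hall z⟩) hdich' hnc
      have hcl3 : IsClosed {z : ℂ | pv P' z ∈ Z} := hZ.preimage hpc
      have h2 := closure_minimal (s := ({0}ᶜ : Set ℂ)) (fun w hw => hZ' w hw) hcl3
      rw [(dense_compl_singleton (0 : ℂ)).closure_eq] at h2
      intro z
      rw [← hPv, hqP]
      exact hZs _ _ (h2 (mem_univ z))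
    · left
      push Not at hnc
      set v := pv P' 1 with hv
      obtain ⟨t, ht⟩ : ∃ t, v t ≠ 0 := by
        by_contra hcon
        push Not at hcon
        exact hne 1 (funext hcon)
      refine ⟨v, fun i hi => ⟨b i t / v t, ?_⟩⟩
      have hpol : ∀ s, P s * Polynomial.C (v t) = P t * Polynomial.C (v s) := by
        intro s
        have hX0 : (Polynomial.X : Polynomial ℂ) ≠ 0 := Polynomial.X_ne_zero
        refine mul_left_cancel₀ hX0 (Polynomial.funext fun z => ?_)
        by_cases hz : z = 0
        · subst hz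
          simp
        obtain ⟨c, hc⟩ := hnc 1 z one_ne_zero hz
        have e1 : ∀ s, (P s).eval z = q.eval z * (c * v s) := by
          intro s
          have h1 := congrFun (hqP z) s
          rw [hc] at h1
          exact h1
        rw [Polynomial.eval_mul, Polynomial.eval_mul, Polynomial.eval_mul, Polynomial.eval_mul,
          Polynomial.eval_C, Polynomial.eval_C, e1, e1]
        ring
      ext s
      have h1 := congrArg (fun p => Polynomial.coeff p i) (hpol s)
      simp only [Polynomial.coeff_mul_C] at h1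
      rw [hPc s i hi, hPc t i hi] at h1
      simp only [Pi.smul_apply, smul_eq_mul]
      field_simp
      linear_combination h1
  · push Not at h0
    left
    refine ⟨0, fun i hi => ⟨0, ?_⟩⟩
    ext s
    have h1 : P s = 0 := Polynomial.funext fun z => by
      have := congrFun (h0 z) s
      simpa [pv] using this
    rw [← hPc s i hi, h1]
    simp

end Pool.Agent.R871.SG
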