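import Pool.Agent.R871.SG.LogG

/-!
The central index near infinity.
-/

set_option autoImplicit false

namespace Pool.Agent.R871.SG

open Filter Topology Metric Set MvPolynomial

variable {n : ℕ}

/-- `F` is given outside of the closed disc of radius `R0` by the Laurent series with coefficients `a`;
it is holomorphic there, has no zeros, has values in `X` and does not meet `{H = 0}`. -/
def LaurentTop (X : Set (Fin (n + 1) → ℂ)) (H : MvPolynomial (Fin (n + 1)) ℂ) (R0 : ℝ)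
    (F : ℂ → Fin (n + 1) → ℂ) (a : ℤ → Fin (n + 1) → ℂ) : Prop :=
  DifferentiableOn ℂ F {z | R0 < ‖z‖} ∧
    ∀ z : ℂ, R0 < ‖z‖ → HasSum (fun m : ℤ => z ^ m • a m) (F z) ∧ F z ≠ 0 ∧ F z ∈ X ∧
      eval (F z) H ≠ 0

/-- The (upper) central index: the largest index of a maximal term on the circle of radius `r`. -/
noncomputable def upperIndexZ {E : Type} [NormedAddCommGroup E] (a : ℤ → E) (r : ℝ) : ℤ :=
  sSup {j | MaxTermZ a j r}

theorem maxTermZ_inv {E : Type} [NormedAddCommGroup E] {a : ℤ → E} {r : ℝ} {j : ℤ} :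
    MaxTermZ (fun m => a (-m)) (-j) r⁻¹ ↔ MaxTermZ a j r := by
  constructor
  · intro h m
    have := h (-m)
    simpa only [neg_neg, inv_zpow, zpow_neg, inv_inv] using this
  · intro h m
    have := h (-m)
    simpa only [neg_neg, inv_zpow, zpow_neg, inv_inv] using this

theorem upperIndexZ_eq {E : Type} [NormedAddCommGroup E] {a : ℤ → E} {r : ℝ} (hr : 0 < r)
    (h0 : ∃ m, a m ≠ 0) (hs : Summable fun m : ℤ => ‖a m‖ * r ^ m) :
    upperIndexZ a r = - centralIndexZ (fun m => a (-m)) r⁻¹ := by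
  have h0' : ∃ m, (fun m => a (-m)) m ≠ 0 := by
    obtain ⟨m, hm⟩ := h0
    exact ⟨-m, by simpa using hm⟩
  have hs' : Summable fun m : ℤ => ‖(fun m => a (-m)) m‖ * r⁻¹ ^ m := by
    have h1 := (Equiv.neg ℤ).summable_iff.2 hs
    have e : ((fun m : ℤ => ‖a m‖ * r ^ m) ∘ (Equiv.neg ℤ)) =
        fun m : ℤ => ‖(fun m => a (-m)) m‖ * r⁻¹ ^ m := by
      funext m
      simp only [Function.comp, Equiv.neg_apply, inv_zpow, zpow_neg]
    rwa [e] at h1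
  have hspec := centralIndexZ_spec (inv_pos.2 hr) h0' hs'
  have hg : IsGreatest {j | MaxTermZ a j r} (-centralIndexZ (fun m => a (-m)) r⁻¹) := by
    constructor
    · change MaxTermZ a _ r
      rw [← maxTermZ_inv, neg_neg]
      exact hspec
    · intro j hj
      have hj' : MaxTermZ (fun m => a (-m)) (-j) r⁻¹ := maxTermZ_inv.2 hj
      -- finiteness gives boundedness below
      obtain ⟨m0, hm0⟩ := h0'
      have hp : 0 < ‖(fun m => a (-m)) m0‖ * r⁻¹ ^ m0 := by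
        have := norm_pos_iff.2 hm0
        positivity
      have ht := hs'.tendsto_cofinite_zero
      have hfin : {m : ℤ | ‖(fun m => a (-m)) m0‖ * r⁻¹ ^ m0 ≤ ‖(fun m => a (-m)) m‖ * r⁻¹ ^ m}.Finite := by
        have := ht.eventually_lt_const hp
        rw [eventually_cofinite] at this
        simpa only [not_lt] using this
      have hb : BddBelow {j | MaxTermZ (fun m => a (-m)) j r⁻¹} :=
        hfin.bddBelow.mono fun k hk => hk m0
      have := csInf_le hb hj'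
      have h2 : centralIndexZ (fun m => a (-m)) r⁻¹ ≤ -j := this
      omega
  exact hg.csSup_eq

theorem laurentTop_inv {X : Set (Fin (n + 1) → ℂ)} {H : MvPolynomial (Fin (n + 1)) ℂ} {R0 r : ℝ}
    {F : ℂ → Fin (n + 1) → ℂ} {a : ℤ → Fin (n + 1) → ℂ} (h : LaurentTop X H R0 F a) (hr : 0 < r)
    (hR0 : R0 ≤ r) : LaurentIn X H 0 r⁻¹ (fun z => F z⁻¹) (fun m => a (-m)) := by
  have hmem : ∀ z : ℂ, 0 < ‖z‖ → ‖z‖ < r⁻¹ → R0 < ‖z⁻¹‖ := by
    intro z hz h2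
    rw [norm_inv]
    exact hR0.trans_lt ((lt_inv_comm₀ hr hz).2 h2)
  refine ⟨?_, fun z h1 h2 => ?_⟩
  · intro z hz
    have hz' : z ≠ 0 := by
      rw [← norm_pos_iff]
      exact hz.1
    have ho : IsOpen {z : ℂ | R0 < ‖z‖} := isOpen_lt continuous_const continuous_norm
    have h2 : DifferentiableAt ℂ F z⁻¹ :=
      (h.1 _ (hmem z hz.1 hz.2)).differentiableAt (ho.mem_nhds (hmem z hz.1 hz.2))
    exact (h2.comp z (differentiableAt_inv hz')).differentiableWithinAt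
  · obtain ⟨h3, h4⟩ := h.2 z⁻¹ (hmem z h1 h2)
    refine ⟨?_, h4⟩
    have h5 := (Equiv.neg ℤ).hasSum_iff.2 h3
    have h6 : ((fun m : ℤ => z⁻¹ ^ m • a m) ∘ (Equiv.neg ℤ)) = fun m : ℤ => z ^ m • a (-m) := by
      funext m
      simp only [Function.comp, Equiv.neg_apply, zpow_neg, inv_zpow, inv_inv]
    rw [h6] at h5
    exact h5

/-- **The central index near infinity.** -/
theorem log_central_top {X Z : Set (Fin (n + 1) → ℂ)} {H : MvPolynomial (Fin (n + 1)) ℂ} {d : ℕ}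
    {ε δ : ℝ} (hδ0 : 0 < δ) (hδ1 : δ < 1)
    (h : ∀ (R0 R1 : ℝ) (F : ℂ → Fin (n + 1) → ℂ) (a : ℤ → Fin (n + 1) → ℂ),
      LaurentIn X H R0 R1 F a → ∀ (j k : ℤ) (r ρ : ℝ), j < k → k ≤ j + d → 0 < r → r < ρ →
        R0 < r → ρ < R1 → IsolatedZ a δ j r → IsolatedZ a δ k ρ →
        ∀ z : ℂ, (‖z‖ = r ∨ ‖z‖ = ρ) → ∃ x ∈ Z, ‖F z - x‖ ≤ ε * ‖F z‖) :
    ∃ R : ℝ, 1 < R ∧ ∀ (R0 : ℝ) (F : ℂ → Fin (n + 1) → ℂ) (a : ℤ → Fin (n + 1) → ℂ),
      LaurentTop X H R0 F a → (∀ D : ℤ, ∃ m > D, a m ≠ 0) →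
      (∀ r₀, ∃ r : ℝ, r₀ < r ∧ upperIndexZ a r + d < upperIndexZ a (R * r)) ∨
      ∃ r₀, ∀ r : ℝ, r₀ < r → ∃ ρ : ℝ, r < ρ ∧ ρ < R * r ∧
        ∀ z : ℂ, ‖z‖ = ρ → ∃ x ∈ Z, ‖F z - x‖ ≤ ε * ‖F z‖ := by
  obtain ⟨R, hR1, hR⟩ := log_central hδ0 hδ1 h
  have hR0' : 0 < R := by linarith
  refine ⟨R, hR1, fun R0 F a hF htail => ?_⟩
  obtain ⟨c, hc0, hcR⟩ : ∃ c : ℝ, 0 < c ∧ R0 ≤ c := ⟨max R0 1, by positivity, le_max_left _ _⟩
  have hsum : ∀ r, c < r → Summable fun m : ℤ => ‖a m‖ * r ^ m := by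
    intro r hr
    have hr0 : 0 < r := hc0.trans hr
    have hn : ‖(r : ℂ)‖ = r := by rw [Complex.norm_real, Real.norm_of_nonneg hr0.le]
    have h2 := (hF.2 (r : ℂ) (by rw [hn]; linarith)).1.summable.norm
    have e : (fun m : ℤ => ‖(r : ℂ) ^ m • a m‖) = fun m : ℤ => ‖a m‖ * r ^ m := by
      funext m
      rw [norm_smul, norm_zpow, hn, mul_comm]
    rwa [e] at h2
  have h0 : ∃ m, a m ≠ 0 := by
    obtain ⟨m, _, hm⟩ := htail 0
    exact ⟨m, hm⟩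
  rcases hR c⁻¹ _ _ (inv_pos.2 hc0) (laurentTop_inv hF hc0 hcR) (fun D => by
    obtain ⟨m, hm, hm0⟩ := htail (-D)
    exact ⟨-m, by omega, by simpa using hm0⟩) with h1 | h1
  · left
    intro r₀
    have hp : 0 < (max (max r₀ c) 1) := lt_of_lt_of_le one_pos (le_max_right _ _)
    obtain ⟨s, hs0, hs1, hs2⟩ := h1 (max (max r₀ c) 1)⁻¹ (inv_pos.2 hp)
    have hs3 : max (max r₀ c) 1 < s⁻¹ := (lt_inv_comm₀ hp hs0).2 hs1
    have hs4 : r₀ < s⁻¹ := lt_of_le_of_lt ((le_max_left _ _).trans (le_max_left _ _)) hs3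
    have hs5 : c < s⁻¹ := lt_of_le_of_lt ((le_max_right _ _).trans (le_max_left _ _)) hs3
    have hsi : 0 < s⁻¹ := inv_pos.2 hs0
    have hs6 : s⁻¹ < R * s⁻¹ := by nlinarith
    refine ⟨s⁻¹, hs4, ?_⟩
    rw [upperIndexZ_eq hsi h0 (hsum _ hs5), upperIndexZ_eq (by positivity) h0 (hsum _ (hs5.trans hs6)),
      inv_inv, show (R * s⁻¹)⁻¹ = s / R by rw [mul_inv, inv_inv]; ring]
    omega
  · right
    obtain ⟨r₁, hr₁, h2⟩ := h1
    refine ⟨r₁⁻¹ , fun r hr => ?_⟩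
    have hr0 : 0 < r := (inv_pos.2 hr₁).trans hr
    obtain ⟨ρ, hρ1, hρ2, hρ3⟩ := h2 r⁻¹ (inv_pos.2 hr0) ((inv_lt_comm₀ hr₁ hr0).1 hr)
    have hρ0 : 0 < ρ := lt_trans (by positivity) hρ1
    refine ⟨ρ⁻¹, ?_, ?_, fun z hz => ?_⟩
    · exact (lt_inv_comm₀ hρ0 hr0).1 hρ2
    · have h3 : (R * r)⁻¹ < ρ := by
        rw [mul_inv, mul_comm]
        exact hρ1
      exact (inv_lt_comm₀ (by positivity) hρ0).1 h3
    · have h3 := hρ3 z⁻¹ (by rw [norm_inv, hz, inv_inv])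
      simpa only [inv_inv] using h3

end Pool.Agent.R871.SG
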