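import Pool.Agent.R871.SG.GenA

/-!
Power series of entire functions of several variables.
-/

set_option autoImplicit false

namespace Pool.Agent.R871.SG

open Filter Topology Metric Set

/-- The order of a multi-index. -/
def ord {p : ℕ} (α : Fin p → ℕ) : ℕ := ∑ i, α i

/-- Monomials. -/
noncomputable def mon {p : ℕ} (z : Fin p → ℂ) (α : Fin p → ℕ) : ℂ := ∏ i, z i ^ α i

theorem mon_le {p : ℕ} {z : Fin p → ℂ} {r : ℝ} (hz : ‖z‖ ≤ r) (α : Fin p → ℕ) :
    ‖mon z α‖ ≤ r ^ ord α := by
  rw [mon, norm_prod, ord, ← Finset.prod_pow_eq_pow_sum]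
  refine Finset.prod_le_prod (fun i _ => norm_nonneg _) fun i _ => ?_
  rw [norm_pow]
  exact pow_le_pow_left₀ (norm_nonneg _) ((norm_le_pi_norm z i).trans hz) _

theorem ord_cons {p : ℕ} (k : ℕ) (β : Fin p → ℕ) : ord (Fin.cons k β : Fin (p + 1) → ℕ) = k + ord β := by
  simp [ord, Fin.sum_univ_succ]

theorem mon_cons {p : ℕ} (t : ℂ) (z : Fin p → ℂ) (k : ℕ) (β : Fin p → ℕ) :
    mon (Fin.cons t z : Fin (p + 1) → ℂ) (Fin.cons k β) = t ^ k * mon z β := by
  simp [mon, Fin.prod_univ_succ]

/-- Multi-indices as pairs. -/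
def cE (p : ℕ) : ℕ × (Fin p → ℕ) ≃ (Fin (p + 1) → ℕ) := Fin.consEquiv fun _ => ℕ

theorem cE_apply (p : ℕ) (x : ℕ × (Fin p → ℕ)) : cE p x = Fin.cons x.1 x.2 := rfl

theorem ord_summable (p : ℕ) : Summable fun α : Fin p → ℕ => (1 / 2 : ℝ) ^ ord α := by
  induction p with
  | zero => exact (hasSum_fintype _).summable
  | succ p ih =>
    rw [← (cE p).summable_iff]
    have h1 : Summable fun k : ℕ => (1 / 2 : ℝ) ^ k :=
      summable_geometric_of_lt_one (by norm_num) (by norm_num)
    have h2 := h1.mul_of_nonneg ih (fun _ => by positivity) (fun _ => by positivity)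
    refine h2.congr fun x => ?_
    rw [Function.comp_apply, cE_apply, ord_cons, pow_add]

theorem ord_fin (p D : ℕ) : {α : Fin p → ℕ | ord α ≤ D}.Finite := by
  refine (Set.finite_Iic (fun _ : Fin p => D)).subset fun α hα i => ?_
  exact (Finset.single_le_sum (f := α) (fun _ _ => Nat.zero_le _) (Finset.mem_univ i)).trans hα

/-- Coefficients with all Cauchy bounds give absolutely convergent series. -/
theorem cauchy_summable {p : ℕ} {E : Type} [NormedAddCommGroup E] {c : (Fin p → ℕ) → E}
    (h : ∀ r : ℝ, 0 < r → ∃ C, ∀ α, ‖c α‖ ≤ C / r ^ ord α) {A : ℝ} (hA : 0 ≤ A) :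
    Summable fun α => A ^ ord α * ‖c α‖ := by
  obtain ⟨C, hC⟩ := h (2 * A + 1) (by positivity)
  have hC0 : 0 ≤ C := by
    have := (norm_nonneg _).trans (hC 0)
    simpa [ord] using this
  refine Summable.of_nonneg_of_le (fun α => by positivity) (fun α => ?_)
    ((ord_summable p).mul_right C)
  calc A ^ ord α * ‖c α‖ ≤ A ^ ord α * (C / (2 * A + 1) ^ ord α) := by gcongr; exact hC α
    _ = (A / (2 * A + 1)) ^ ord α * C := by rw [div_pow]; ring
    _ ≤ (1 / 2) ^ ord α * C := by
      refine mul_le_mul_of_nonneg_right (pow_le_pow_left₀ (by positivity) ?_ _) hC0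
      rw [div_le_div_iff₀ (by positivity) (by norm_num)]
      linarith

/-- Iterated partial derivatives in the first variable are analytic. -/
theorem partial_analytic {p : ℕ} {E : Type} [NormedAddCommGroup E] [NormedSpace ℂ E]
    [CompleteSpace E] {f : (Fin (p + 1) → ℂ) → E} (hf : AnalyticOnNhd ℂ f univ) (k : ℕ) :
    ∃ g : (Fin (p + 1) → ℂ) → E, AnalyticOnNhd ℂ g univ ∧ ∀ (z : Fin p → ℂ) (t : ℂ),
      iteratedDeriv k (fun t => f (Fin.cons t z)) t = g (Fin.cons t z) := by
  induction k with
  | zero => exact ⟨f, hf, fun z t => by simp⟩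
  | succ k ih =>
    obtain ⟨g, hg, h⟩ := ih
    refine ⟨fun y => fderiv ℂ g y (Fin.cons 1 0), ?_, fun z t => ?_⟩
    · intro y hy
      exact ((ContinuousLinearMap.apply ℂ E (Fin.cons 1 0 : Fin (p + 1) → ℂ)).analyticAt _).fun_comp
        (hg.fderiv y hy)
    · rw [iteratedDeriv_succ]
      have h1 : iteratedDeriv k (fun t => f (Fin.cons t z)) = fun t => g (Fin.cons t z) :=
        funext fun t => h z t
      rw [h1]
      have h2 : HasDerivAt (fun t : ℂ => (Fin.cons t z : Fin (p + 1) → ℂ)) (Fin.cons 1 0) t := by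
        refine hasDerivAt_pi.2 fun i => ?_
        refine Fin.cases ?_ (fun j => ?_) i
        · simpa using hasDerivAt_id' t
        · simpa using hasDerivAt_const t (z j)
      exact ((hg _ (mem_univ _)).differentiableAt.hasFDerivAt.comp_hasDerivAt t h2).deriv

/-- **Power series expansion** of entire functions of several variables, with Cauchy's estimates. -/
theorem expansion (p : ℕ) : ∀ {E : Type} [NormedAddCommGroup E] [NormedSpace ℂ E] [CompleteSpace E]
    (f : (Fin p → ℂ) → E), AnalyticOnNhd ℂ f univ → ∃ c : (Fin p → ℕ) → E,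
      (∀ z, HasSum (fun α => mon z α • c α) (f z)) ∧
      ∀ r C : ℝ, 0 < r → (∀ z, ‖z‖ ≤ r → ‖f z‖ ≤ C) → ∀ α, ‖c α‖ ≤ C / r ^ ord α := by
  induction p with
  | zero =>
    intro E _ _ _ f hf
    refine ⟨fun _ => f 0, fun z => ?_, fun r C hr h α => ?_⟩
    · have h1 : f z = ∑ α : Fin 0 → ℕ, mon z α • f 0 := by
        rw [Subsingleton.elim z 0]
        simp [mon]
      rw [h1]
      exact hasSum_fintype _
    · have := h 0 (by rw [norm_zero]; exact hr.le)
      simpa [ord] using this
  | succ p ih =>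
    intro E _ _ _ f hf
    -- the coefficients in the first variable
    have hline : ∀ z : Fin p → ℂ, Differentiable ℂ fun t : ℂ => f (Fin.cons t z) := by
      intro z t
      have h2 : DifferentiableAt ℂ (fun t : ℂ => (Fin.cons t z : Fin (p + 1) → ℂ)) t := by
        refine differentiableAt_pi.2 fun i => ?_
        refine Fin.cases ?_ (fun j => ?_) i
        · simp
        · simp
      exact (hf _ (mem_univ _)).differentiableAt.comp t h2
    set a : ℕ → (Fin p → ℂ) → E := fun k z => coef (fun t => f (Fin.cons t z)) 0 k with ha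
    have haan : ∀ k, AnalyticOnNhd ℂ (a k) univ := by
      intro k
      obtain ⟨g, hg, h⟩ := partial_analytic hf k
      have h1 : a k = fun z => ((k.factorial : ℂ))⁻¹ • g (Fin.cons 0 z) := by
        funext z
        rw [ha]
        simp only [coef]
        rw [h z 0]
      rw [h1]
      intro z _
      refine AnalyticAt.fun_const_smul ?_
      refine (hg _ (mem_univ _)).fun_comp ?_
      refine (analyticAt_pi_iff).2 fun i => ?_
      refine Fin.cases ?_ (fun j => ?_) i
      · simpa using analyticAt_const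
      · simp only [Fin.cons_succ]
        exact (ContinuousLinearMap.proj (R := ℂ) (φ := fun _ : Fin p => ℂ) j).analyticAt z
    choose c hc1 hc2 using fun k => ih (a k) (haan k)
    have hcb : ∀ r C : ℝ, 0 < r → (∀ z : Fin (p + 1) → ℂ, ‖z‖ ≤ r → ‖f z‖ ≤ C) →
        ∀ k β, ‖c k β‖ ≤ C / r ^ (k + ord β) := by
      intro r C hr h k β
      rw [pow_add, ← div_div]
      refine hc2 k r (C / r ^ k) hr (fun z hz => ?_) β
      refine coef_le (hline z) 0 hr (fun t ht => h _ ?_) k
      rw [mem_sphere_zero_iff_norm] at ht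
      refine (pi_norm_le_iff_of_nonneg hr.le).2 fun i => ?_
      refine Fin.cases ?_ (fun j => ?_) i
      · simpa using ht.le
      · simpa using (norm_le_pi_norm z j).trans hz
    set d : (Fin (p + 1) → ℕ) → E := fun α => c (α 0) (Fin.tail α) with hd
    have hdc : ∀ x : ℕ × (Fin p → ℕ), d (cE p x) = c x.1 x.2 := by
      intro x
      rw [cE_apply, hd]
      simp
    have hdb : ∀ r C : ℝ, 0 < r → (∀ z : Fin (p + 1) → ℂ, ‖z‖ ≤ r → ‖f z‖ ≤ C) →
        ∀ α, ‖d α‖ ≤ C / r ^ ord α := by
      intro r C hr h α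
      obtain ⟨x, rfl⟩ := (cE p).surjective α
      rw [hdc, cE_apply, ord_cons]
      exact hcb r C hr h x.1 x.2
    refine ⟨d, fun z => ?_, hdb⟩
    have hsum : Summable fun α => mon z α • d α := by
      have h1 : ∀ r : ℝ, 0 < r → ∃ C, ∀ α, ‖d α‖ ≤ C / r ^ ord α := by
        intro r hr
        have hcont : Continuous f := continuous_iff_continuousAt.2 fun y =>
          (hf y (mem_univ y)).continuousAt
        obtain ⟨C, hC⟩ := (isCompact_closedBall (0 : Fin (p + 1) → ℂ) r).exists_bound_of_continuousOn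
          hcont.continuousOn
        exact ⟨C, hdb r C hr fun y hy => hC y (by simpa using hy)⟩
      refine Summable.of_norm_bounded (cauchy_summable h1 (norm_nonneg z)) fun α => ?_
      rw [norm_smul]
      exact mul_le_mul_of_nonneg_right (mon_le le_rfl α) (norm_nonneg _)
    have hz : z = Fin.cons (z 0) (Fin.tail z) := (Fin.cons_self_tail z).symm
    rw [← (cE p).hasSum_iff]
    have h2 := ((cE p).summable_iff.2 hsum)
    have h3 : HasSum (fun k => z 0 ^ k • a k (Fin.tail z)) (f z) := by
      have h4 := coef_ser (hline (Fin.tail z)) 0 (z 0) 1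
      have h5 := Complex.hasSum_taylorSeries_of_entire (hline (Fin.tail z)) 0 (z 0)
      have e : (fun k => z 0 ^ k • a k (Fin.tail z)) = fun m : ℕ =>
          ((m.factorial : ℂ))⁻¹ • (z 0 - 0) ^ m • iteratedDeriv m (fun t => f (Fin.cons t (Fin.tail z))) 0 := by
        funext m
        rw [ha]
        simp only [coef]
        rw [sub_zero, smul_comm (z 0 ^ m) ((m.factorial : ℂ))⁻¹]
      rw [e]
      have h6 : f z = f (Fin.cons (z 0) (Fin.tail z)) := by rw [← hz]
      rw [h6]
      exact h5
    have h7 : ∀ k, HasSum (fun β => ((fun α => mon z α • d α) ∘ cE p) (k, β))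
        (z 0 ^ k • a k (Fin.tail z)) := by
      intro k
      have h8 := (hc1 k (Fin.tail z)).const_smul (z 0 ^ k)
      have e : (fun β => ((fun α => mon z α • d α) ∘ cE p) (k, β)) = fun β =>
          z 0 ^ k • mon (Fin.tail z) β • c k β := by
        funext β
        simp only [Function.comp_apply]
        rw [hdc, cE_apply]
        conv_lhs => rw [hz]
        rw [mon_cons, smul_smul]
      rw [e]
      exact h8
    have h9 := h2.hasSum.prod_fiberwise h7
    rw [h3.unique h9]
    exact h2.hasSum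

end Pool.Agent.R871.SG
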