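import Pool.Agent.R871.SG.Rel

/-!
Points on algebraic curves and on entire curves of slow growth: preparations.
-/

set_option autoImplicit false

namespace Pool.Agent.R871.SG

open Filter Topology Metric Set MvPolynomial

variable {n m : ℕ} {ι κ : Type}

/-- The space of homogeneous and affine coordinates. -/
abbrev Crd (n m : ℕ) : Type := (Fin (n + 1) → ℂ) × (Fin m → ℂ)

/-- `p` and `q` are coordinates of the same point. -/
def SamePt (p q : Crd n m) : Prop := ∃ a : ℂ, a ≠ 0 ∧ p.1 = a • q.1 ∧ p.2 = q.2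

/-- The point with coordinates `x` lies on the image of a nonconstant algebraic map from the affine
line to `{F = 0}`. -/
def OnAlg (F : ι → Pol2 n m) (x : Crd n m) : Prop :=
  ∃ (P : Fin (n + 1) → Polynomial ℂ) (R : Fin m → Polynomial ℂ) (w : ℂ),
    HolMap2 F (pv2 P R) ∧ NonConst2 (pv2 P R) ∧ SamePt (pv2 P R w) x

/-- The point with coordinates `x` lies on a nonconstant entire curve in `{F = 0}` which satisfies the
growth condition `Slow φ`. -/
def OnSlow (F : ι → Pol2 n m) (φ : ℝ → ℝ) (x : Crd n m) : Prop :=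
  ∃ (f : ℂ → Crd n m) (w : ℂ), HolMap2 F f ∧ NonConst2 f ∧ Slow φ f ∧ SamePt (f w) x

theorem onSlow_of_onAlg {F : ι → Pol2 n m} {φ : ℝ → ℝ} (hφ : Grows φ) {x : Crd n m}
    (h : OnAlg F x) : OnSlow F φ x := by
  obtain ⟨P, R, w, h1, h2, h3⟩ := h
  exact ⟨pv2 P R, w, h1, h2, pv2_slow hφ P R, h3⟩

/-- Linear functions of `y` which vanish for all `y` proportional to `x`, in the sense of points. -/
noncomputable def nu (s : (Fin (n + 1) × Fin (n + 1)) ⊕ Fin m) (x y : Crd n m) : ℂ :=
  Sum.elim (fun p => x.1 p.1 * y.1 p.2 - x.1 p.2 * y.1 p.1) (fun j => y.2 j) s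

theorem nu_cont (s : (Fin (n + 1) × Fin (n + 1)) ⊕ Fin m) :
    Continuous fun p : Crd n m × Crd n m => nu s p.1 p.2 := by
  rcases s with s | s
  · simp only [nu, Sum.elim_inl]; fun_prop
  · simp only [nu, Sum.elim_inr]; fun_prop

theorem nu_add (s : (Fin (n + 1) × Fin (n + 1)) ⊕ Fin m) (x y y' : Crd n m) :
    nu s x (y + y') = nu s x y + nu s x y' := by
  rcases s with s | s
  · simp only [nu, Sum.elim_inl, Prod.fst_add, Pi.add_apply]; ring
  · simp only [nu, Sum.elim_inr, Prod.snd_add, Pi.add_apply]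

theorem nu_smul (s : (Fin (n + 1) × Fin (n + 1)) ⊕ Fin m) (x y : Crd n m) (a : ℂ) :
    nu s x (a • y) = a * nu s x y := by
  rcases s with s | s
  · simp only [nu, Sum.elim_inl, Prod.smul_fst, Pi.smul_apply, smul_eq_mul]; ring
  · simp only [nu, Sum.elim_inr, Prod.smul_snd, Pi.smul_apply, smul_eq_mul]

/-- `nu s x` as a linear map. -/
noncomputable def nuL (s : (Fin (n + 1) × Fin (n + 1)) ⊕ Fin m) (x : Crd n m) :
    Crd n m →L[ℂ] ℂ :=
  { toFun := nu s x
    map_add' := nu_add s x
    map_smul' := fun a y => nu_smul s x y a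
    cont := (nu_cont s).comp (continuous_const.prodMk continuous_id) }

theorem nuL_apply (s : (Fin (n + 1) × Fin (n + 1)) ⊕ Fin m) (x y : Crd n m) :
    nuL s x y = nu s x y := rfl

/-- The sequences for which one of the first members after `c 0` shows that the power series is not
constant. -/
def NC (τ : ℝ) (D : ℕ) : Set (ℕ → Crd n m) :=
  {c | ∃ k < D, ∃ s, τ ≤ ‖nu s (c 0) (c (k + 1))‖}

theorem nc_closed (τ : ℝ) (D : ℕ) : IsClosed (NC τ D : Set (ℕ → Crd n m)) := by
  have h : (NC τ D : Set (ℕ → Crd n m)) = ⋃ k ∈ Finset.range D,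
      ⋃ s, {c | τ ≤ ‖nu s (c 0) (c (k + 1))‖} := by
    ext c
    simp only [NC, mem_ofPred_eq, mem_iUnion, Finset.mem_range, exists_prop]
  rw [h]
  refine isClosed_biUnion_finset fun k _ => isClosed_iUnion_of_finite fun s => ?_
  refine isClosed_le continuous_const (Continuous.norm ?_)
  have h1 : Continuous fun c : ℕ → Crd n m => (c 0, c (k + 1)) :=
    (continuous_apply 0).prodMk (continuous_apply (k + 1))
  exact (nu_cont s).comp h1

theorem ser_hasSumE {E : Type} [NormedAddCommGroup E] [NormedSpace ℂ E] [CompleteSpace E]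
    {f : ℂ → E} (hf : Differentiable ℂ f) (w z : ℂ) :
    HasSum (fun m => z ^ m • coef f w m) (f (w + z)) := by
  have h := Complex.hasSum_taylorSeries_of_entire hf w (w + z)
  have e : (fun m => z ^ m • coef f w m) = fun m : ℕ =>
      ((m.factorial : ℂ))⁻¹ • (w + z - w) ^ m • iteratedDeriv m f w := by
    funext m
    rw [coef, add_sub_cancel_left, smul_comm (z ^ m) ((m.factorial : ℂ))⁻¹]
  rw [e]
  exact h

theorem coef_clm {E E' : Type} [NormedAddCommGroup E] [NormedSpace ℂ E] [CompleteSpace E]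
    [NormedAddCommGroup E'] [NormedSpace ℂ E'] (L : E →L[ℂ] E') {f : ℂ → E}
    (hf : Differentiable ℂ f) (w : ℂ) (k : ℕ) :
    coef (fun z => L (f z)) w k = L (coef f w k) := by
  have h : ∀ k, iteratedDeriv k (fun z => L (f z)) = fun z => L (iteratedDeriv k f z) := by
    intro k
    induction k with
    | zero => simp
    | succ k ih =>
      rw [iteratedDeriv_succ, ih, iteratedDeriv_succ]
      funext z
      have hd : DifferentiableAt ℂ (iteratedDeriv k f) z :=
        ((hf.contDiff (n := ((k + 1 : ℕ) : WithTop ℕ∞))).differentiable_iteratedDeriv k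
          (by exact_mod_cast Nat.lt_succ_self k)) z
      exact (L.hasFDerivAt.comp_hasDerivAt z hd.hasDerivAt).deriv
  rw [coef, coef, h, map_smul]

/-- A curve is constant if all its Taylor coefficients are, in the sense of `nu`, multiples of the
first one. -/
theorem nu_of_nonConst {F : ι → Pol2 n m} {f : ℂ → Crd n m} (hf : HolMap2 F f)
    (hnc : NonConst2 f) (w : ℂ) : ∃ k s, nu s (coef f w 0) (coef f w (k + 1)) ≠ 0 := by
  by_contra hcon
  push Not at hcon
  have h0 : coef f w 0 = f w := by simp [coef]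
  rw [h0] at hcon
  have hz : ∀ z s, nu s (f w) (f (w + z)) = nu s (f w) (f w) := by
    intro z s
    have h1 : HasSum (fun k => (nuL s (f w)) (z ^ k • coef f w k)) (nu s (f w) (f (w + z))) :=
      (nuL s (f w)).hasSum (ser_hasSumE hf.1 w z)
    have h2 : HasSum (fun k => (nuL s (f w)) (z ^ k • coef f w k)) (nu s (f w) (f w)) := by
      have e : nu s (f w) (f w) = (nuL s (f w)) (z ^ 0 • coef f w 0) := by
        rw [pow_zero, one_smul, h0, nuL_apply]
      rw [e]
      refine hasSum_single 0 fun k hk => ?_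
      obtain ⟨k', rfl⟩ := Nat.exists_eq_succ_of_ne_zero hk
      rw [nuL_apply, nu_smul, hcon k' s, mul_zero]
    exact h1.unique h2
  have hp : ∀ y, (∃ a : ℂ, (f y).1 = a • (f w).1) ∧ (f y).2 = (f w).2 := by
    intro y
    constructor
    · by_contra hno
      push Not at hno
      obtain ⟨i, j, hij⟩ := minors (hf.2.1 w) hno
      have h1 := hz (y - w) (Sum.inl (i, j))
      rw [add_sub_cancel] at h1
      simp only [nu, Sum.elim_inl] at h1
      apply hij
      rw [h1]; ring
    · ext j
      have h1 := hz (y - w) (Sum.inr j)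
      rw [add_sub_cancel] at h1
      simpa only [nu, Sum.elim_inr] using h1
  obtain ⟨y, y', h⟩ := hnc
  obtain ⟨⟨a, ha⟩, h2⟩ := hp y
  obtain ⟨⟨a', ha'⟩, h2'⟩ := hp y'
  rcases h with h | h
  · have ha0 : a ≠ 0 := by
      rintro rfl
      exact hf.2.1 y (by rw [ha, zero_smul])
    refine h (a' / a) ?_
    rw [ha, ha', smul_smul, div_mul_cancel₀ _ ha0]
  · exact h (h2'.trans h2.symm)

/-- The polynomials with the coefficients `c`. -/
noncomputable def cpol {σ : Type} (g : ℕ → σ → ℂ) (D : ℕ) (j : σ) : Polynomial ℂ :=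
  ∑ k ∈ Finset.range (D + 1), Polynomial.C (g k j) * Polynomial.X ^ k

theorem cpol_eval {σ : Type} (g : ℕ → σ → ℂ) (D : ℕ) (j : σ) (z : ℂ) :
    (cpol g D j).eval z = ∑ k ∈ Finset.range (D + 1), z ^ k * g k j := by
  simp only [cpol, Polynomial.eval_finsetSum, Polynomial.eval_mul, Polynomial.eval_C,
    Polynomial.eval_pow, Polynomial.eval_X]
  exact Finset.sum_congr rfl fun k _ => mul_comm _ _

theorem ser_finE {E : Type} [NormedAddCommGroup E] [NormedSpace ℂ E] {c : ℕ → E} {D : ℕ}
    (h : ∀ k, D < k → c k = 0) (z : ℂ) : ser c z = ∑ k ∈ Finset.range (D + 1), z ^ k • c k := by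
  refine tsum_eq_sum fun k hk => ?_
  rw [h k (by simpa using hk), smul_zero]

/-- A finite sequence as an algebraic curve. -/
theorem ser_pv2 {c : ℕ → Crd n m} {D : ℕ} (h : ∀ k, D < k → c k = 0) (z : ℂ) :
    ser c z = pv2 (cpol (fun k => (c k).1) D) (cpol (fun k => (c k).2) D) z := by
  rw [ser_finE h]
  ext j
  · simp only [pv2, cpol_eval, Prod.fst_sum, Finset.sum_apply, Prod.smul_fst, Pi.smul_apply,
      smul_eq_mul]
  · simp only [pv2, cpol_eval, Prod.snd_sum, Finset.sum_apply, Prod.smul_snd, Pi.smul_apply,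
      smul_eq_mul]

theorem diff_ev2 {f : ℂ → Crd n m} (hf : Differentiable ℂ f) (G : Pol2 n m) :
    Differentiable ℂ fun z => ev2 (f z) G := by
  have h : (fun z => ev2 (f z) G) = fun z =>
      eval (Sum.elim (f z).1 (f z).2) (iterToSum ℂ (Fin (n + 1)) (Fin m) G) := by
    funext z; rw [eval_iter]
  rw [h]
  refine diff_ev (differentiable_pi.2 fun s => ?_) _
  rcases s with s | s
  · exact differentiable_pi.1 (differentiable_fst.comp hf) s
  · exact differentiable_pi.1 (differentiable_snd.comp hf) s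

theorem pv2_diff (P : Fin (n + 1) → Polynomial ℂ) (R : Fin m → Polynomial ℂ) :
    Differentiable ℂ (pv2 P R) :=
  (differentiable_pi.2 fun j => (P j).differentiable).prodMk
      (differentiable_pi.2 fun j => (R j).differentiable)

/-- A finite solution gives an algebraic curve through its first member. -/
theorem curve_of_fin (F : ι → Pol2 n m) (hF : ∀ i, ∃ d, (F i).IsHomogeneous d)
    {c : ℕ → Crd n m} {D : ℕ} (h : ∀ k, D < k → c k = 0) (h0 : (c 0).1 ≠ 0)
    (hcF : ∀ z : ℂ, ‖z‖ < 1 → ∀ i, ev2 (ser c z) (F i) = 0) :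
    ∃ (q : Polynomial ℂ) (P : Fin (n + 1) → Polynomial ℂ) (R : Fin m → Polynomial ℂ),
      HolMap2 F (pv2 P R) ∧ (∀ z, ser c z = (q.eval z • (pv2 P R z).1, (pv2 P R z).2)) ∧
      ((∃ k s, nu s (c 0) (c (k + 1)) ≠ 0) → NonConst2 (pv2 P R)) := by
  have he := ser_pv2 h
  have hF' : ∀ z i, ev2 (pv2 (cpol (fun k => (c k).1) D) (cpol (fun k => (c k).2) D) z) (F i) = 0 := by
    intro z i
    refine zero_ball (h := fun z => ev2 (pv2 (cpol (fun k => (c k).1) D)
      (cpol (fun k => (c k).2) D) z) (F i)) (diff_ev2 (pv2_diff _ _) (F i)) (w := 0) one_pos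
      (fun z hz => ?_) z
    rw [← he]
    rw [sub_zero] at hz
    exact hcF z hz i
  have hser0 : ser c 0 = c 0 := ser_zero c
  obtain ⟨q, P, hqP, hP⟩ := reduce2 F hF ⟨0, by rw [← he, hser0]; exact h0⟩ hF'
  have hev : ∀ z, ser c z = (q.eval z • (pv2 P (cpol (fun k => (c k).2) D) z).1,
      (pv2 P (cpol (fun k => (c k).2) D) z).2) := fun z => by
    rw [he, ← hqP]; rfl
  refine ⟨q, P, _, hP, hev, ?_⟩
  rintro ⟨k, s, hks⟩
  by_contra hcon
  unfold NonConst2 at hcon
  push Not at hcon
  -- the linear function `nu s` is constant along the curve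
  have hc : ∀ z, nu s (c 0) (ser c z) = nu s (c 0) (c 0) := by
    intro z
    obtain ⟨⟨a, ha⟩, h2⟩ := hcon 0 z
    have e0 := hev 0
    rw [hser0] at e0
    have ez := hev z
    have hq0 : q.eval 0 ≠ 0 := by
      intro hq
      apply h0
      rw [e0, hq]
      simp
    rcases s with ⟨i, j⟩ | j
    · simp only [nu, Sum.elim_inl]
      rw [ez, e0]
      simp only [ha, Pi.smul_apply, smul_eq_mul]
      ring
    · simp only [nu, Sum.elim_inr]
      rw [ez, e0]
      simp only [h2]
  -- so its coefficients vanish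
  have hpol : (∑ l ∈ Finset.range (D + 1), Polynomial.C (nu s (c 0) (c l)) * Polynomial.X ^ l) =
      Polynomial.C (nu s (c 0) (c 0)) := by
    refine Polynomial.funext fun z => ?_
    rw [Polynomial.eval_C, ← hc z, ser_finE h]
    have : nu s (c 0) (∑ l ∈ Finset.range (D + 1), z ^ l • c l) =
        ∑ l ∈ Finset.range (D + 1), z ^ l * nu s (c 0) (c l) := by
      rw [← nuL_apply, map_sum]
      simp only [nuL_apply, nu_smul]
    rw [this, Polynomial.eval_finsetSum]
    refine Finset.sum_congr rfl fun l _ => ?_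
    rw [Polynomial.eval_mul, Polynomial.eval_C, Polynomial.eval_pow, Polynomial.eval_X]
    exact mul_comm _ _
  have hcoef := congrArg (fun p => p.coeff (k + 1)) hpol
  simp only [Polynomial.finsetSum_coeff, Polynomial.coeff_C_mul, Polynomial.coeff_X_pow,
    Polynomial.coeff_C_succ] at hcoef
  by_cases hkD : k + 1 ≤ D
  · rw [Finset.sum_eq_single (k + 1)] at hcoef
    · simp only [if_true, mul_one] at hcoef
      exact hks hcoef
    · intro l _ hl
      rw [if_neg (Ne.symm hl), mul_zero]
    · intro hl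
      exact absurd (Finset.mem_range.2 (by omega)) hl
  · apply hks
    rw [h (k + 1) (by omega)]
    have := nu_smul s (c 0) 0 0
    rw [zero_smul, zero_mul] at this
    exact this

end Pool.Agent.R871.SG
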