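import Pool.Agent.R871.SG.ProjA
import Pool.Agent.R871.SG.Aff2
import Pool.Agent.R871.SG.PtsA

/-!
Pairs of points on rational curves and on entire curves of slow growth.
-/

set_option autoImplicit false

namespace Pool.Agent.R871.SG

open Filter Topology Metric Set MvPolynomial MeasureTheory

variable {n : ℕ} {ι κ : Type}

/-- `x` and `y` are homogeneous coordinates of the same point. -/
def SameP (x y : Fin (n + 1) → ℂ) : Prop := ∃ a : ℂ, a ≠ 0 ∧ x = a • y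

/-- The points with coordinates `x` and `y` lie on one rational curve in `{F = 0}`. -/
def JoinRat (F : ι → MvPolynomial (Fin (n + 1)) ℂ) (x y : Fin (n + 1) → ℂ) : Prop :=
  ∃ (P : Fin (n + 1) → Polynomial ℂ) (w w' : ℂ), HolMap F (pv P) ∧ SameP (pv P w) x ∧
    SameP (pv P w') y

/-- The points with coordinates `x` and `y` lie on one entire curve in `{F = 0}` which satisfies the
growth condition `Slow φ`. -/
def JoinSlow (F : ι → MvPolynomial (Fin (n + 1)) ℂ) (φ : ℝ → ℝ) (x y : Fin (n + 1) → ℂ) : Prop :=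
  ∃ (f : ℂ → Fin (n + 1) → ℂ) (w w' : ℂ), HolMap F f ∧ Slow φ f ∧ SameP (f w) x ∧ SameP (f w') y

theorem joinSlow_of_joinRat {F : ι → MvPolynomial (Fin (n + 1)) ℂ} {φ : ℝ → ℝ} (hφ : Grows φ)
    {x y : Fin (n + 1) → ℂ} (h : JoinRat F x y) : JoinSlow F φ x y := by
  obtain ⟨P, w, w', h1, h2, h3⟩ := h
  exact ⟨pv P, w, w', h1, slow_polyn hφ P, h2, h3⟩

/-- Pairs of homogeneous coordinates. -/
abbrev Pr (n : ℕ) : Type := (Fin (n + 1) → ℂ) × (Fin (n + 1) → ℂ)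

/-- Power series solutions `c` in the first components, where the constant term of `c` is in `K`, the
second component is constant, and the value at `1 / 2` is proportional to it. -/
def SolQ (F : ι → MvPolynomial (Fin (n + 1)) ℂ) (K : Set (Pr n)) (τ : ℝ) : Set (ℕ → Pr n) :=
  {c | c 0 ∈ K ∧ (∀ k, (c (k + 1)).2 = 0) ∧ (∀ z : ℂ, ‖z‖ < 1 → ∀ i, eval (ser c z).1 (F i) = 0) ∧
    (τ ≤ ‖(ser c (1 / 2)).1‖ ∧ ∀ i j, (c 0).2 i * (ser c (1 / 2)).1 j -
      (c 0).2 j * (ser c (1 / 2)).1 i = 0)}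

theorem solQ_closed (F : ι → MvPolynomial (Fin (n + 1)) ℂ) {K : Set (Pr n)} (hK : IsClosed K)
    (τ B : ℝ) : IsClosed (SolQ F K τ ∩ Bd B) := by
  have hh : ‖(1 / 2 : ℂ)‖ < 1 := by norm_num
  have h : SolQ F K τ ∩ Bd B = ((Bd B ∩ ({c | c 0 ∈ K} ∩ ⋂ k, {c | (c (k + 1)).2 = 0})) ∩
      ⋂ z : ball (0 : ℂ) 1, ⋂ i, (Bd B ∩ (fun c => eval (ser c z).1 (F i)) ⁻¹' {0})) ∩
      ((Bd B ∩ (fun c => ‖(ser c (1 / 2)).1‖) ⁻¹' Ici τ) ∩ ⋂ i, ⋂ j, (Bd B ∩ (fun c =>
        (c 0).2 i * (ser c (1 / 2)).1 j - (c 0).2 j * (ser c (1 / 2)).1 i) ⁻¹' {0})) := by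
    ext c
    simp only [SolQ, mem_inter_iff, mem_ofPred_eq, mem_iInter, mem_preimage, mem_singleton_iff,
      Subtype.forall, mem_ball_zero_iff, mem_Ici]
    constructor
    · rintro ⟨⟨h1, h2, h3, h4, h5⟩, h6⟩
      exact ⟨⟨⟨h6, h1, h2⟩, fun z hz i => ⟨h6, h3 z hz i⟩⟩, ⟨h6, h4⟩, fun i j => ⟨h6, h5 i j⟩⟩
    · rintro ⟨⟨⟨h6, h1, h2⟩, h3⟩, ⟨_, h4⟩, h5⟩
      exact ⟨⟨h1, h2, fun z hz i => (h3 z hz i).2, h4, fun i j => (h5 i j).2⟩, h6⟩
  rw [h]
  have hs1 : ContinuousOn (fun c : ℕ → Pr n => (ser c (1 / 2)).1) (Bd B) :=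
    continuous_fst.comp_continuousOn (ser_cont B hh)
  have hs2 : ∀ j, ContinuousOn (fun c : ℕ → Pr n => (ser c (1 / 2)).1 j) (Bd B) := fun j =>
    (continuous_apply j).comp_continuousOn hs1
  have hc2 : ∀ j, ContinuousOn (fun c : ℕ → Pr n => (c 0).2 j) (Bd B) := fun j =>
    ((continuous_apply j).comp (continuous_snd.comp (continuous_apply 0))).continuousOn
  refine (((bd_closed B).inter ((hK.preimage (continuous_apply 0)).inter
    (isClosed_iInter fun k => ?_))).inter (isClosed_iInter fun z => isClosed_iInter fun i => ?_)).inter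
      (IsClosed.inter ?_ (isClosed_iInter fun i => isClosed_iInter fun j => ?_))
  · exact isClosed_eq (continuous_snd.comp (continuous_apply (k + 1))) continuous_const
  · exact ((cont_ev (F i)).comp_continuousOn (continuous_fst.comp_continuousOn
      (ser_cont B (mem_ball_zero_iff.1 z.2)))).preimage_isClosed_of_isClosed (bd_closed B)
        isClosed_singleton
  · exact hs1.norm.preimage_isClosed_of_isClosed (bd_closed B) isClosed_Ici
  · exact (((hc2 i).mul (hs2 j)).sub ((hc2 j).mul (hs2 i))).preimage_isClosed_of_isClosed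
      (bd_closed B) isClosed_singleton

/-- The pairs of coordinates which are not too small. -/
def Big (n D : ℕ) : Set (Pr n) := {p | 1 / ((D : ℝ) + 1) ≤ ‖p.1‖ ∧ 1 / ((D : ℝ) + 1) ≤ ‖p.2‖}

theorem big_closed (n D : ℕ) : IsClosed (Big n D) :=
  (isClosed_le continuous_const continuous_fst.norm).inter
    (isClosed_le continuous_const continuous_snd.norm)

/-- The pairs of points on rational curves with bounds for the degree and the coefficients. -/
def Prs (F : ι → MvPolynomial (Fin (n + 1)) ℂ) (D : ℕ) : Set (Pr n) :=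
  (fun c : ℕ → Pr n => c 0) '' ((SolQ F (Big n D) (1 / ((D : ℝ) + 1)) ∩ Bd ((D : ℝ) + 1)) ∩
    {c | ∀ k, D < k → c k = 0})

theorem prs_compact (F : ι → MvPolynomial (Fin (n + 1)) ℂ) (D : ℕ) : IsCompact (Prs F D) := by
  refine IsCompact.image ?_ (continuous_apply 0)
  have h2 : IsClosed {c : ℕ → Pr n | ∀ k, D < k → c k = 0} := by
    have : {c : ℕ → Pr n | ∀ k, D < k → c k = 0} = ⋂ k, {c | D < k → c k = 0} := by
      ext; simp
    rw [this]
    refine isClosed_iInter fun k => ?_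
    by_cases hk : D < k
    · simpa [hk] using isClosed_eq (continuous_apply k) continuous_const
    · simp [hk]
  have h3 := (solQ_closed F (big_closed n D) (1 / ((D : ℝ) + 1)) ((D : ℝ) + 1)).inter h2
  exact (bd_compact ((D : ℝ) + 1)).of_isClosed_subset h3 fun c hc => hc.1.2

theorem prs_join (F : ι → MvPolynomial (Fin (n + 1)) ℂ) (hF : ∀ i, ∃ d, (F i).IsHomogeneous d)
    (D : ℕ) : Prs F D ⊆ {p | JoinRat F p.1 p.2} := by
  rintro x ⟨c, ⟨⟨⟨⟨h1, h1'⟩, h2, h3, h4, h5⟩, _⟩, h6⟩, rfl⟩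
  have hD : (0 : ℝ) < 1 / ((D : ℝ) + 1) := by positivity
  have h0 : (c 0).1 ≠ 0 := norm_pos_iff.1 (hD.trans_le h1)
  have h0' : (c 0).2 ≠ 0 := norm_pos_iff.1 (hD.trans_le h1')
  have hh : (ser c (1 / 2)).1 ≠ 0 := norm_pos_iff.1 (hD.trans_le h4)
  have hev : ∀ z, (ser c z).1 = pv (cpol (fun k => (c k).1) D) z := by
    intro z
    rw [ser_finE h6]
    ext j
    simp only [pv, cpol_eval, Prod.fst_sum, Finset.sum_apply, Prod.smul_fst, Pi.smul_apply,
      smul_eq_mul]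
  obtain ⟨q, P, hqP, hP⟩ := reduce F hF ⟨0, by rw [← hev, ser_zero]; exact h0⟩ fun z i =>
    pol_ext (P := cpol (fun k => (c k).1) D) (G := F i) (w := 0) one_pos (fun z hz => by
      rw [sub_zero] at hz
      have := h3 z hz i
      rwa [hev z] at this) z
  have hq : ∀ z, (ser c z).1 ≠ 0 → q.eval z ≠ 0 ∧ pv P z = (q.eval z)⁻¹ • (ser c z).1 := by
    intro z hz
    have hqz : q.eval z ≠ 0 := by
      intro hq0
      rw [hev, hqP, hq0, zero_smul] at hz
      exact hz rfl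
    refine ⟨hqz, ?_⟩
    rw [hev, hqP, smul_smul, inv_mul_cancel₀ hqz, one_smul]
  refine ⟨P, 0, 1 / 2, hP, ?_, ?_⟩
  · obtain ⟨h7, h8⟩ := hq 0 (by rw [ser_zero]; exact h0)
    refine ⟨(q.eval 0)⁻¹, inv_ne_zero h7, ?_⟩
    rw [h8, ser_zero]
  · obtain ⟨h7, h8⟩ := hq (1 / 2) hh
    obtain ⟨a, ha⟩ : ∃ a : ℂ, (ser c (1 / 2)).1 = a • (c 0).2 := by
      by_contra hno
      push Not at hno
      obtain ⟨i, j, hij⟩ := minors h0' hno
      exact hij (h5 i j)
    have ha0 : a ≠ 0 := by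
      rintro rfl
      rw [zero_smul] at ha
      exact hh ha
    refine ⟨(q.eval (1 / 2))⁻¹ * a, mul_ne_zero (inv_ne_zero h7) ha0, ?_⟩
    rw [h8, ha, smul_smul]

/-- **Measure of the pairs of points on rational curves and on entire curves of slow growth.** -/
theorem measure_pairs (F : ι → MvPolynomial (Fin (n + 1)) ℂ) (hF : ∀ i, ∃ d, (F i).IsHomogeneous d)
    (μ : Measure (Pr n)) [IsFiniteMeasureOnCompacts μ] :
    μ {p | JoinRat F p.1 p.2} = 0 ↔
      ∃ φ : ℝ → ℝ, Grows φ ∧ μ {p | JoinSlow F φ p.1 p.2} = 0 := by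
  constructor
  swap
  · rintro ⟨φ, hφ, h⟩
    exact measure_mono_null (fun x hx => joinSlow_of_joinRat hφ hx) h
  intro hμ
  -- thin neighbourhoods
  have h1 : ∀ D : ℕ, ∃ η > 0, μ (cthickening η (Prs F D)) ≤ 2⁻¹ ^ D := by
    intro D
    have h2 : μ (Prs F D) = 0 := measure_mono_null (prs_join F hF D) hμ
    have h3 := tendsto_measure_cthickening_of_isCompact (μ := μ) (prs_compact F D)
    rw [h2] at h3
    have h4 : ∀ᶠ η in 𝓝 (0 : ℝ), μ (cthickening η (Prs F D)) < 2⁻¹ ^ D :=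
      h3.eventually_lt_const (ENNReal.pow_pos (by norm_num) D)
    have h5 : ∀ᶠ η in 𝓝[>] (0 : ℝ), μ (cthickening η (Prs F D)) < 2⁻¹ ^ D :=
      h4.filter_mono nhdsWithin_le_nhds
    obtain ⟨η, hη, hη2⟩ := (h5.and self_mem_nhdsWithin).exists
    exact ⟨η, hη2, hη.le⟩
  choose η hη hηm using h1
  have hae : ∀ᵐ x ∂μ, ∀ᶠ D in atTop, x ∉ cthickening (η D) (Prs F D) := by
    refine ae_eventually_notMem (ne_top_of_le_ne_top ?_ (ENNReal.tsum_le_tsum hηm))
    rw [ENNReal.tsum_geometric]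
    norm_num
  -- compactness
  have h2 : ∀ D : ℕ, ∃ δ > 0, ∀ c ∈ SolQ F (Big n D ∩ (thickening (η D) (Prs F D))ᶜ)
      (1 / ((D : ℝ) + 1)), c ∈ Bd ((D : ℝ) + 1) → ¬ ∀ k, D < k → ‖c k‖ ≤ δ := by
    intro D
    have hc : IsClosed (Big n D ∩ (thickening (η D) (Prs F D))ᶜ) :=
      (big_closed n D).inter isOpen_thickening.isClosed_compl
    obtain ⟨δ, hδ, h3⟩ := approx _ ((D : ℝ) + 1) D
      (solQ_closed F hc (1 / ((D : ℝ) + 1)) ((D : ℝ) + 1)) one_pos
    refine ⟨δ, hδ, fun c hc hB ht => ?_⟩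
    obtain ⟨c', hc'S, hc'B, hc'0, -⟩ := h3 c hc hB ht
    exact hc'S.1.2 (self_subset_thickening (hη D) _ ⟨c', ⟨⟨⟨hc'S.1.1, hc'S.2⟩, hc'B⟩, hc'0⟩, rfl⟩)
  choose δ hδ hno using h2
  obtain ⟨φ, hφ, hgr⟩ := growth2 δ hδ
  refine ⟨φ, hφ, ?_⟩
  -- points which are equal
  have hconst : ∀ x y : Fin (n + 1) → ℂ, ∀ f, HolMap F f → ∀ w, SameP (f w) x → SameP (f w) y →
      JoinRat F x y := by
    intro x y f hf w hx hy
    have hpv : ∀ z, pv (fun j => Polynomial.C (f w j)) z = f w := fun z => by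
      ext j; simp [pv]
    refine ⟨fun j => Polynomial.C (f w j), 0, 0, ⟨?_, fun z => ?_, fun z i => ?_⟩, ?_, ?_⟩
    · exact differentiable_pi.2 fun j => (Polynomial.C (f w j)).differentiable
    · rw [hpv]; exact hf.2.1 w
    · rw [hpv]; exact hf.2.2 w i
    · rw [hpv]; exact hx
    · rw [hpv]; exact hy
  refine measure_mono_null ?_ (measure_union_null (ae_iff.1 hae) hμ)
  rintro ⟨x, y⟩ ⟨f, w, w', hf, hs, ⟨a, ha, hx⟩, ⟨b, hb, hy⟩⟩
  by_cases hww : w = w'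
  · subst hww
    exact Or.inr (hconst x y f hf w ⟨a, ha, hx⟩ ⟨b, hb, hy⟩)
  refine Or.inl ?_
  rw [mem_ofPred_eq]
  intro hev
  simp only at hx hy
  set t : ℂ := 2 * (w' - w) with ht
  set c : ℕ → Pr n := fun k => (a⁻¹ • t ^ k • coef f w k, if k = 0 then y else 0) with hc
  have hc0 : c 0 = (x, y) := by
    rw [hc]
    simp only [pow_zero, one_smul, if_true]
    rw [coef_zero, hx, smul_smul, inv_mul_cancel₀ ha, one_smul]
  have hser : ∀ z, (ser c z).1 = a⁻¹ • f (w + t * z) := by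
    intro z
    have h3 : HasSum (fun k => z ^ k • a⁻¹ • t ^ k • coef f w k) (a⁻¹ • f (w + t * z)) := by
      have h4 := (ser_hasSum hf.1 w (t * z)).const_smul a⁻¹
      have e : (fun k => z ^ k • a⁻¹ • t ^ k • coef f w k) = fun k =>
          a⁻¹ • (t * z) ^ k • coef f w k := by
        funext k
        have e2 : (t * z) ^ k = z ^ k * t ^ k := by rw [mul_pow t z, mul_comm]
        rw [e2, smul_comm (z ^ k) a⁻¹, smul_smul (z ^ k)]
      rw [e]
      exact h4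
    have h5 : HasSum (fun k : ℕ => z ^ k • (if k = 0 then y else 0)) y := by
      have : (fun k : ℕ => z ^ k • (if k = 0 then y else (0 : Fin (n + 1) → ℂ))) = fun k =>
          if k = 0 then y else 0 := by
        funext k
        by_cases hk : k = 0 <;> simp [hk]
      rw [this]
      exact hasSum_ite_eq 0 y
    have h6 : HasSum (fun k => z ^ k • c k) (a⁻¹ • f (w + t * z), y) := h3.prodMk h5
    rw [ser, h6.tsum_eq]
  have hhalf : (ser c (1 / 2)).1 = (a⁻¹ * b) • y := by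
    rw [hser, ht]
    have : w + 2 * (w' - w) * (1 / 2) = w' := by ring
    rw [this, hy, smul_smul]
  have hx0 : 0 < ‖x‖ := by
    refine norm_pos_iff.2 fun h => hf.2.1 w ?_
    rw [hx, h, smul_zero]
  have hy0 : 0 < ‖y‖ := by
    refine norm_pos_iff.2 fun h => hf.2.1 w' ?_
    rw [hy, h, smul_zero]
  have hh0 : 0 < ‖(ser c (1 / 2)).1‖ := by
    rw [hhalf]
    exact norm_pos_iff.2 (smul_ne_zero (mul_ne_zero (inv_ne_zero ha) hb) (norm_pos_iff.1 hy0))
  -- bounds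
  obtain ⟨C, hC⟩ : ∃ C : ℝ, ∀ k, ‖c k‖ ≤ C := by
    have hs1 := coef_summable hf.1 w (norm_nonneg t)
    obtain ⟨C1, hC1⟩ : ∃ C1 : ℝ, ∀ k, ‖t‖ ^ k * ‖coef f w k‖ ≤ C1 :=
      ⟨_, fun k => hs1.le_tsum k fun j _ => by positivity⟩
    refine ⟨max (‖a⁻¹‖ * C1) ‖y‖, fun k => (Prod.norm_def _).trans_le (max_le_max ?_ ?_)⟩
    · rw [hc]
      simp only
      rw [norm_smul, norm_smul, norm_pow]
      exact mul_le_mul_of_nonneg_left (hC1 k) (norm_nonneg _)
    · rw [hc]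
      by_cases hk : k = 0 <;> simp [hk]
  set A : ℝ := max 1 ‖a‖⁻¹ * max 1 ‖t‖ with hA
  have hA1 : 1 ≤ max 1 ‖a‖⁻¹ := le_max_left _ _
  have hA2 : 1 ≤ max 1 ‖t‖ := le_max_left _ _
  have hck : ∀ k, 0 < k → ‖c k‖ ≤ A ^ k * ‖coef f w k‖ := by
    intro k hk
    have h3 : ‖c k‖ = ‖a‖⁻¹ * (‖t‖ ^ k * ‖coef f w k‖) := by
      rw [hc]
      simp only
      rw [if_neg hk.ne', Prod.norm_def]
      simp only [norm_zero]
      rw [max_eq_left (norm_nonneg _), norm_smul, norm_smul, norm_pow, norm_inv]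
    rw [h3, hA, mul_pow, mul_assoc]
    have h4 : ‖a‖⁻¹ ≤ (max 1 ‖a‖⁻¹) ^ k := (le_max_right _ _).trans (le_self_pow₀ hA1 hk.ne')
    have h5 : ‖t‖ ^ k ≤ (max 1 ‖t‖) ^ k := pow_le_pow_left₀ (norm_nonneg _) (le_max_right _ _) k
    gcongr
  have hsm : ∀ t : ℝ, 0 < t → ∀ᶠ D : ℕ in atTop, 1 / ((D : ℝ) + 1) ≤ t := fun t ht =>
    (tendsto_one_div_add_atTop_nhds_zero_nat.eventually_lt_const ht).mono fun D h => h.le
  obtain ⟨D0, hD0⟩ := eventually_atTop.1 (hev.and ((hsm _ hx0).and ((hsm _ hy0).and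
    ((hsm _ hh0).and (eventually_ge_atTop ⌈C⌉₊)))))
  obtain ⟨D, hD, htl⟩ := hgr f hf.1 hs w A D0 (by positivity)
  obtain ⟨h3, h4, h5, h6, h7⟩ := hD0 D hD
  have hCD : C ≤ D := (Nat.le_ceil C).trans (by exact_mod_cast h7)
  refine hno D c ⟨⟨?_, ?_⟩, fun k => ?_, fun z _ i => ?_, h6, fun i j => ?_⟩
    (fun k => (hC k).trans (by linarith)) (fun k hk => (hck k (by omega)).trans (htl k hk))
  · rw [hc0]; exact ⟨h4, h5⟩
  · rw [hc0]
    exact fun h => h3 (thickening_subset_cthickening _ _ h)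
  · rw [hc]; simp
  · rw [hser]
    obtain ⟨d, hd⟩ := hF i
    rw [eval_smul_form hd, hf.2.2, mul_zero]
  · rw [hhalf, hc0]
    simp only [Pi.smul_apply, smul_eq_mul]
    ring

end Pool.Agent.R871.SG
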