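import Pool.Agent.R871.SG.Aff
import Pool.Agent.R871.SG.Proj

/-!
Entire curves of slow growth in projective varieties are limits of rational curves.
-/

set_option autoImplicit false

namespace Pool.Agent.R871.SG

open Filter Topology Metric Set MvPolynomial

variable {n : ℕ} {ι κ : Type}

/-- `f` is not constant as a map to the projective space. -/
def NonConst (f : ℂ → Fin (n + 1) → ℂ) : Prop := ∃ z w, ∀ a : ℂ, f w ≠ a • f z

/-- `f` consists of homogeneous coordinates of a holomorphic map from the plane to the projective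
variety `{F = 0}` in `ℙⁿ`. -/
def HolMap (F : ι → MvPolynomial (Fin (n + 1)) ℂ) (f : ℂ → Fin (n + 1) → ℂ) : Prop :=
  Differentiable ℂ f ∧ (∀ z, f z ≠ 0) ∧ ∀ z i, eval (f z) (F i) = 0

/-- The values of polynomials. -/
noncomputable def pv (P : Fin (n + 1) → Polynomial ℂ) (z : ℂ) : Fin (n + 1) → ℂ :=
  fun j => (P j).eval z

theorem minors {x y : Fin (n + 1) → ℂ} (hx : x ≠ 0) (h : ∀ a : ℂ, y ≠ a • x) :
    ∃ i j, x i * y j - x j * y i ≠ 0 := by
  by_contra hcon
  push Not at hcon
  obtain ⟨j0, hj0⟩ : ∃ j, x j ≠ 0 := by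
    by_contra h
    push Not at h
    exact hx (funext h)
  refine h (y j0 / x j0) ?_
  ext i
  have := hcon i j0
  simp only [Pi.smul_apply, smul_eq_mul]
  field_simp
  linear_combination -this

/-- Dividing by the greatest common divisor gives a rational curve in reduced form. -/
theorem reduce (F : ι → MvPolynomial (Fin (n + 1)) ℂ) (hF : ∀ i, ∃ d, (F i).IsHomogeneous d)
    {P : Fin (n + 1) → Polynomial ℂ} (hP : ∃ z, pv P z ≠ 0) (hPF : ∀ z i, eval (pv P z) (F i) = 0) :
    ∃ (q : Polynomial ℂ) (P' : Fin (n + 1) → Polynomial ℂ), (∀ z, pv P z = q.eval z • pv P' z) ∧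
      HolMap F (pv P') := by
  obtain ⟨q, P', hP', hq, hne⟩ := clear hP
  have hqP : ∀ z, pv P z = q.eval z • pv P' z := by
    intro z
    ext j
    simp [pv, hP' j]
  refine ⟨q, P', hqP, differentiable_pi.2 fun j => (P' j).differentiable, hne, fun z i => ?_⟩
  obtain ⟨d, hd⟩ := hF i
  -- `q ^ d * F i (P') = 0`
  have h1 : ∀ z, q.eval z ≠ 0 → eval (pv P' z) (F i) = 0 := by
    intro z hz
    have h2 := hPF z i
    rw [hqP z, eval_smul_form hd] at h2
    exact (mul_eq_zero.1 h2).resolve_left (pow_ne_zero _ hz)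
  have hcont : Continuous fun z => eval (pv P' z) (F i) :=
    (cont_ev (F i)).comp (continuous_pi fun j => (P' j).continuous)
  have hdense : Dense {z : ℂ | q.eval z ≠ 0} := by
    have hfin : {z : ℂ | q.eval z = 0}.Finite := by
      refine (q.roots.toFinset.finite_toSet).subset fun z hz => ?_
      simpa [Polynomial.mem_roots hq] using hz
    have : {z : ℂ | q.eval z ≠ 0} = {z : ℂ | q.eval z = 0}ᶜ := by ext; simp
    rw [this]
    exact hfin.countable.dense_compl ℂ
  have h3 : (fun z => eval (pv P' z) (F i)) = fun _ => 0 :=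
    hcont.ext_on hdense continuous_const h1
  exact congrFun h3 z

theorem slow_polyn {φ : ℝ → ℝ} (hφ : Grows φ) (P : Fin (n + 1) → Polynomial ℂ) :
    Slow φ (pv P) := by
  -- a bound for polynomials
  have h1 : ∀ j, ∃ C : ℝ, ∃ d : ℕ, 0 ≤ C ∧ ∀ r : ℝ, 1 ≤ r → ∀ z : ℂ, ‖z‖ ≤ r →
      ‖(P j).eval z‖ ≤ C * r ^ d := by
    intro j
    refine ⟨∑ m ∈ Finset.range ((P j).natDegree + 1), ‖(P j).coeff m‖, (P j).natDegree,
      by positivity, fun r hr z hz => ?_⟩
    rw [Polynomial.eval_eq_sum_range, Finset.sum_mul]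
    refine (norm_sum_le _ _).trans (Finset.sum_le_sum fun m hm => ?_)
    rw [norm_mul, norm_pow]
    refine mul_le_mul_of_nonneg_left ?_ (norm_nonneg _)
    calc ‖z‖ ^ m ≤ r ^ m := pow_le_pow_left₀ (norm_nonneg z) hz m
      _ ≤ r ^ (P j).natDegree := pow_le_pow_right₀ hr (by simp at hm; omega)
  choose C d hC hb using h1
  set C0 : ℝ := 1 + ∑ j, C j
  set d0 : ℕ := ∑ j, d j
  have hC0 : 1 ≤ C0 := by
    have : 0 ≤ ∑ j, C j := Finset.sum_nonneg fun j _ => hC j
    linarith
  have hb0 : ∀ r : ℝ, 1 ≤ r → ∀ z : ℂ, ‖z‖ ≤ r → ‖pv P z‖ ≤ C0 * r ^ d0 := by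
    intro r hr z hz
    refine (pi_norm_le_iff_of_nonneg (by positivity)).2 fun j => ?_
    refine (hb j r hr z hz).trans ?_
    have h3 : C j ≤ C0 := by
      have := Finset.single_le_sum (f := C) (fun j _ => hC j) (Finset.mem_univ j)
      linarith
    have h4 : r ^ d j ≤ r ^ d0 := pow_le_pow_right₀ hr
      (Finset.single_le_sum (f := d) (fun j _ => Nat.zero_le _) (Finset.mem_univ j))
    exact mul_le_mul h3 h4 (by positivity) (by linarith)
  intro R
  have h5 : ∀ᶠ r in atTop, ((d0 : ℝ) + 1) ≤ φ r / Real.log r := hφ.eventually_ge_atTop _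
  obtain ⟨r, hr1, hr2, hr3, hr4⟩ := (h5.and ((eventually_gt_atTop R).and
    ((eventually_ge_atTop C0).and (eventually_gt_atTop (1 : ℝ))))).exists
  refine ⟨r, hr2, fun z hz => ?_⟩
  have hlog : 0 < Real.log r := Real.log_pos hr4
  rw [le_div_iff₀ hlog] at hr1
  refine le_trans ?_ hr1
  rcases eq_or_lt_of_le (norm_nonneg (pv P z)) with h6 | h6
  · rw [← h6, Real.log_zero]
    positivity
  · rw [Real.log_le_iff_le_exp h6]
    refine (hb0 r hr4.le z hz).trans ?_
    have h7 : Real.exp (((d0 : ℝ) + 1) * Real.log r) = r ^ d0 * r := by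
      rw [add_mul, Real.exp_add, mul_comm (d0 : ℝ), Real.exp_mul, Real.exp_log (by linarith),
        Real.rpow_natCast, one_mul, Real.exp_log (by linarith)]
    rw [h7, mul_comm]
    gcongr

/-- Approximation of entire curves of slow growth by rational curves. -/
theorem approx_rational (F : ι → MvPolynomial (Fin (n + 1)) ℂ)
    (hF : ∀ i, ∃ d, (F i).IsHomogeneous d) {K : Set (Fin (n + 1) → ℂ)} (hK : IsClosed K)
    (hKs : ∀ (a : ℂ), ∀ x ∈ K, a • x ∈ K) : ∃ φ : ℝ → ℝ, Grows φ ∧
      ∀ f, HolMap F f → Slow φ f → ∀ w, f w ∈ K → ∀ ρ η : ℝ, 0 < η →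
        ∃ (q : Polynomial ℂ) (P : Fin (n + 1) → Polynomial ℂ), HolMap F (pv P) ∧ pv P w ∈ K ∧
          ∀ z, ‖z‖ ≤ ρ → ‖q.eval z • pv P z - f z‖ ≤ η := by
  obtain ⟨φ, hφ, h⟩ := approx_poly F (fun m => if m = 0 then K else univ) (by
    intro m
    by_cases hm : m = 0
    · simpa [hm] using hK
    · simp [hm])
  refine ⟨φ, hφ, fun f hf hs w hw ρ η hη => ?_⟩
  have hfw : 0 < ‖f w‖ := norm_pos_iff.2 (hf.2.1 w)
  obtain ⟨c, D, hc0, hcL, hcF, hcc⟩ := h f w hf.1 hf.2.2 hs (by
    intro m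
    by_cases hm : m = 0
    · simpa [hm, coef_zero] using hw
    · simp [hm]) (ρ + ‖w‖) (min η (‖f w‖ / 2)) (lt_min hη (by positivity))
  have hev : ∀ z, pv (polA c D w) z = ser c (z - w) := fun z => polA_eval hc0 w z
  by_cases hρ : 0 ≤ ρ + ‖w‖
  swap
  · -- no condition on the disc
    exact ⟨0, fun j => Polynomial.C (f w j), by
      refine ⟨differentiable_pi.2 fun j => (Polynomial.C (f w j)).differentiable, fun z => ?_,
        fun z i => ?_⟩
      · have : pv (fun j => Polynomial.C (f w j)) z = f w := by ext j; simp [pv]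
        rw [this]; exact hf.2.1 w
      · have : pv (fun j => Polynomial.C (f w j)) z = f w := by ext j; simp [pv]
        rw [this]; exact hf.2.2 w i, by
      have : pv (fun j => Polynomial.C (f w j)) w = f w := by ext j; simp [pv]
      rw [this]; exact hw, fun z hz => by
      have h1 := norm_nonneg z
      have h2 := norm_nonneg w
      linarith⟩
  have hcw : ‖ser c 0 - f w‖ ≤ ‖f w‖ / 2 := by
    have := (hcc 0 (by simpa using hρ)).trans (min_le_right _ _)
    rwa [add_zero] at this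
  have hne : pv (polA c D w) w ≠ 0 := by
    rw [hev, sub_self]
    intro h0
    rw [h0, zero_sub, norm_neg] at hcw
    linarith
  obtain ⟨q, P, hqP, hP⟩ := reduce F hF ⟨w, hne⟩ fun z i => by rw [hev]; exact hcF _ i
  have hqw : q.eval w ≠ 0 := by
    intro h0
    rw [hqP, h0, zero_smul] at hne
    exact hne rfl
  refine ⟨q, P, hP, ?_, fun z hz => ?_⟩
  · have h1 : pv P w = (q.eval w)⁻¹ • pv (polA c D w) w := by
      rw [hqP, smul_smul, inv_mul_cancel₀ hqw, one_smul]
    rw [h1]
    refine hKs _ _ ?_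
    rw [hev, sub_self, ser_zero]
    simpa using hcL 0
  · rw [← hqP, hev]
    have h2 := hcc (z - w) ((norm_sub_le z w).trans (by linarith))
    rw [add_sub_cancel] at h2
    exact h2.trans (min_le_left _ _)

/-- If `f` is a limit of rational curves in the sense of `approx_rational` and if the rational curves
in question lie in `{G = 0}`, then so does `f`. -/
theorem closed_of_approx (F : ι → MvPolynomial (Fin (n + 1)) ℂ)
    (G : κ → MvPolynomial (Fin (n + 1)) ℂ) (hG : ∀ k, ∃ d, (G k).IsHomogeneous d)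
    {K : Set (Fin (n + 1) → ℂ)} {f : ℂ → Fin (n + 1) → ℂ} (hf : HolMap F f) (hnc : NonConst f)
    {w : ℂ} (hap : ∀ ρ η : ℝ, 0 < η →
        ∃ (q : Polynomial ℂ) (P : Fin (n + 1) → Polynomial ℂ), HolMap F (pv P) ∧ pv P w ∈ K ∧
          ∀ z, ‖z‖ ≤ ρ → ‖q.eval z • pv P z - f z‖ ≤ η)
    (hR : ∀ P, HolMap F (pv P) → NonConst (pv P) → pv P w ∈ K → ∀ z k, eval (pv P z) (G k) = 0)
    (z : ℂ) (k : κ) : eval (f z) (G k) = 0 := by
  obtain ⟨za, zb, hab⟩ := hnc
  obtain ⟨i, j, hij⟩ := minors (hf.2.1 za) hab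
  have hcont : Continuous fun p : (Fin (n + 1) → ℂ) × (Fin (n + 1) → ℂ) =>
      p.1 i * p.2 j - p.1 j * p.2 i := by fun_prop
  have hnb := hcont.continuousAt (x := (f za, f zb)) |>.eventually_ne hij
  rw [Metric.eventually_nhds_iff] at hnb
  obtain ⟨ε, hε, hnb⟩ := hnb
  obtain ⟨e, he⟩ := hG k
  have h3 : ∀ m : ℕ, ∃ x' : Fin (n + 1) → ℂ, ‖x' - f z‖ ≤ 1 / ((m : ℝ) + 1) ∧
      eval x' (G k) = 0 := by
    intro m
    obtain ⟨q, P, hP, hPK, hc⟩ := hap (‖za‖ + ‖zb‖ + ‖z‖) (min (1 / ((m : ℝ) + 1)) (ε / 2))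
      (lt_min (by positivity) (by positivity))
    have hna := norm_nonneg za
    have hnb' := norm_nonneg zb
    have hnz := norm_nonneg z
    have hca := (hc za (by linarith)).trans (min_le_right _ _)
    have hcb := (hc zb (by linarith)).trans (min_le_right _ _)
    have hne := hnb (y := (q.eval za • pv P za, q.eval zb • pv P zb)) (by
      rw [Prod.dist_eq, max_lt_iff, dist_eq_norm, dist_eq_norm]
      exact ⟨by simp only; linarith, by simp only; linarith⟩)
    have hncP : NonConst (pv P) := by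
      refine ⟨za, zb, fun a ha => hne ?_⟩
      simp only [ha, Pi.smul_apply, smul_eq_mul]
      ring
    refine ⟨q.eval z • pv P z, (hc z (by linarith)).trans (min_le_left _ _), ?_⟩
    rw [eval_smul_form he, hR P hP hncP hPK z k, mul_zero]
  choose x hx1 hx2 using h3
  have h4 : Tendsto x atTop (𝓝 (f z)) := by
    rw [tendsto_iff_norm_sub_tendsto_zero]
    exact squeeze_zero (fun _ => norm_nonneg _) hx1 tendsto_one_div_add_atTop_nhds_zero_nat
  have h5 := ((cont_ev (G k)).tendsto _).comp h4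
  refine tendsto_nhds_unique h5 ?_
  simp only [Function.comp_def, hx2]
  exact tendsto_const_nhds

end Pool.Agent.R871.SG
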