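import Pool.Agent.R871.SG.PtsA

/-!
The set of points on algebraic curves has measure zero if and only if, for some growth function, the
set of points on entire curves of such slow growth has measure zero.
-/

set_option autoImplicit false

namespace Pool.Agent.R871.SG

open Filter Topology Metric Set MvPolynomial MeasureTheory

variable {n m : ℕ} {ι κ : Type}

/-- The power series solutions with constant term in `K`, not constant in the sense of `NC`. -/
def SolP (F : ι → Pol2 n m) (K : Set (Crd n m)) (τ : ℝ) (D : ℕ) : Set (ℕ → Crd n m) :=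
  {c | c 0 ∈ K ∧ c ∈ NC τ D ∧ ∀ z : ℂ, ‖z‖ < 1 → ∀ i, ev2 (ser c z) (F i) = 0}

theorem solP_closed (F : ι → Pol2 n m) {K : Set (Crd n m)} (hK : IsClosed K) (τ : ℝ) (D : ℕ)
    (B : ℝ) : IsClosed (SolP F K τ D ∩ Bd B) := by
  have h : SolP F K τ D ∩ Bd B = (Bd B ∩ ({c | c 0 ∈ K} ∩ NC τ D)) ∩
      ⋂ z : ball (0 : ℂ) 1, ⋂ i, (Bd B ∩ (fun c => ev2 (ser c z) (F i)) ⁻¹' {0}) := by
    ext c
    simp only [SolP, mem_inter_iff, mem_ofPred_eq, mem_iInter, mem_preimage, mem_singleton_iff,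
      Subtype.forall, mem_ball_zero_iff]
    constructor
    · rintro ⟨⟨h1, h2, h3⟩, h4⟩
      exact ⟨⟨h4, h1, h2⟩, fun z hz i => ⟨h4, h3 z hz i⟩⟩
    · rintro ⟨⟨h4, h1, h2⟩, h3⟩
      exact ⟨⟨h1, h2, fun z hz i => (h3 z hz i).2⟩, h4⟩
  rw [h]
  refine ((bd_closed B).inter ((hK.preimage (continuous_apply 0)).inter (nc_closed τ D))).inter
    (isClosed_iInter fun z => isClosed_iInter fun i => ?_)
  exact ((cont_ev2 (F i)).comp_continuousOn
      (ser_cont B (mem_ball_zero_iff.1 z.2))).preimage_isClosed_of_isClosed (bd_closed B)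
        isClosed_singleton

/-- The points on algebraic curves with bounds for the degree and the coefficients. -/
def Pts (F : ι → Pol2 n m) (D : ℕ) : Set (Crd n m) :=
  (fun c : ℕ → Crd n m => c 0) '' ((SolP F {x | 1 / ((D : ℝ) + 1) ≤ ‖x.1‖} (1 / ((D : ℝ) + 1)) D ∩
    Bd ((D : ℝ) + 1)) ∩ {c | ∀ k, D < k → c k = 0})

theorem pts_compact (F : ι → Pol2 n m) (D : ℕ) : IsCompact (Pts F D) := by
  refine IsCompact.image ?_ (continuous_apply 0)
  have h1 : IsClosed {x : Crd n m | 1 / ((D : ℝ) + 1) ≤ ‖x.1‖} :=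
    isClosed_le continuous_const (continuous_fst.norm)
  have h2 : IsClosed {c : ℕ → Crd n m | ∀ k, D < k → c k = 0} := by
    have : {c : ℕ → Crd n m | ∀ k, D < k → c k = 0} = ⋂ k, {c | D < k → c k = 0} := by
      ext; simp
    rw [this]
    refine isClosed_iInter fun k => ?_
    by_cases hk : D < k
    · simpa [hk] using isClosed_eq (continuous_apply k) continuous_const
    · simp [hk]
  have h3 := (solP_closed F h1 (1 / ((D : ℝ) + 1)) D ((D : ℝ) + 1)).inter h2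
  exact (bd_compact ((D : ℝ) + 1)).of_isClosed_subset h3 fun c hc => hc.1.2

theorem pts_onAlg (F : ι → Pol2 n m) (hF : ∀ i, ∃ d, (F i).IsHomogeneous d) (D : ℕ) :
    Pts F D ⊆ {x | OnAlg F x} := by
  rintro x ⟨c, ⟨⟨⟨h1, ⟨k, _, s, hs⟩, h3⟩, _⟩, h4⟩, rfl⟩
  have hD : (0 : ℝ) < 1 / ((D : ℝ) + 1) := by positivity
  have h0 : (c 0).1 ≠ 0 := norm_pos_iff.1 (hD.trans_le h1)
  obtain ⟨q, P, R, hP, he, hn⟩ := curve_of_fin F hF h4 h0 h3
  have e0 := he 0
  rw [ser_zero] at e0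
  have hq : q.eval 0 ≠ 0 := by
    intro hq
    apply h0
    rw [e0, hq]
    simp
  refine ⟨P, R, 0, hP, hn ⟨k, s, norm_pos_iff.1 (hD.trans_le hs)⟩, (q.eval 0)⁻¹, inv_ne_zero hq, ?_, ?_⟩
  · simp only
    rw [e0, smul_smul, inv_mul_cancel₀ hq, one_smul]
  · simp only
    rw [e0]

/-- **Measure of the points on algebraic curves and on entire curves of slow growth.** -/
theorem measure_iff (F : ι → Pol2 n m) (hF : ∀ i, ∃ d, (F i).IsHomogeneous d)
    (μ : Measure (Crd n m)) [IsFiniteMeasureOnCompacts μ] :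
    μ {x | OnAlg F x} = 0 ↔ ∃ φ : ℝ → ℝ, Grows φ ∧ μ {x | OnSlow F φ x} = 0 := by
  constructor
  swap
  · rintro ⟨φ, hφ, h⟩
    exact measure_mono_null (fun x hx => onSlow_of_onAlg hφ hx) h
  intro hμ
  -- thin neighbourhoods
  have h1 : ∀ D : ℕ, ∃ η > 0, μ (cthickening η (Pts F D)) ≤ 2⁻¹ ^ D := by
    intro D
    have h2 : μ (Pts F D) = 0 := measure_mono_null (pts_onAlg F hF D) hμ
    have h3 := tendsto_measure_cthickening_of_isCompact (μ := μ) (pts_compact F D)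
    rw [h2] at h3
    have h4 : ∀ᶠ η in 𝓝 (0 : ℝ), μ (cthickening η (Pts F D)) < 2⁻¹ ^ D :=
      h3.eventually_lt_const (ENNReal.pow_pos (by norm_num) D)
    have h5 : ∀ᶠ η in 𝓝[>] (0 : ℝ), μ (cthickening η (Pts F D)) < 2⁻¹ ^ D :=
      h4.filter_mono nhdsWithin_le_nhds
    obtain ⟨η, hη, hη2⟩ := (h5.and self_mem_nhdsWithin).exists
    exact ⟨η, hη2, hη.le⟩
  choose η hη hηm using h1
  have hae : ∀ᵐ x ∂μ, ∀ᶠ D in atTop, x ∉ cthickening (η D) (Pts F D) := by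
    refine ae_eventually_notMem (ne_top_of_le_ne_top ?_ (ENNReal.tsum_le_tsum hηm))
    rw [ENNReal.tsum_geometric]
    norm_num
  -- compactness
  have h2 : ∀ D : ℕ, ∃ δ > 0, ∀ c ∈ SolP F ({x | 1 / ((D : ℝ) + 1) ≤ ‖x.1‖} ∩
      (thickening (η D) (Pts F D))ᶜ) (1 / ((D : ℝ) + 1)) D, c ∈ Bd ((D : ℝ) + 1) →
      ¬ ∀ k, D < k → ‖c k‖ ≤ δ := by
    intro D
    have hc : IsClosed ({x : Crd n m | 1 / ((D : ℝ) + 1) ≤ ‖x.1‖} ∩
        (thickening (η D) (Pts F D))ᶜ) :=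
      (isClosed_le continuous_const (continuous_fst.norm)).inter isOpen_thickening.isClosed_compl
    obtain ⟨δ, hδ, h3⟩ := approx _ ((D : ℝ) + 1) D
      (solP_closed F hc (1 / ((D : ℝ) + 1)) D ((D : ℝ) + 1)) one_pos
    refine ⟨δ, hδ, fun c hc hB ht => ?_⟩
    obtain ⟨c', hc'S, hc'B, hc'0, -⟩ := h3 c hc hB ht
    refine hc'S.1.2 (self_subset_thickening (hη D) _ ⟨c', ⟨⟨⟨hc'S.1.1, hc'S.2⟩, hc'B⟩, hc'0⟩, rfl⟩)
  choose δ hδ hno using h2
  obtain ⟨φ, hφ, hgr⟩ := growth δ hδ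
  refine ⟨φ, hφ, ?_⟩
  refine measure_mono_null ?_ (ae_iff.1 hae)
  rintro x ⟨f, w, hf, hnc, hs, a, ha, hx1, hx2⟩
  rw [mem_ofPred_eq]
  intro hev
  -- rescaling of the homogeneous coordinates
  set g : ℂ → Crd n m := fun z => (a⁻¹ • (f z).1, (f z).2) with hg
  have hgd : Differentiable ℂ g := by
    refine Differentiable.prodMk ?_ (differentiable_snd.comp hf.1)
    exact (differentiable_fst.comp hf.1).const_smul a⁻¹
  have hgm : HolMap2 F g := by
    refine ⟨hgd, fun z => smul_ne_zero (inv_ne_zero ha) (hf.2.1 z), fun z i => ?_⟩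
    obtain ⟨d, hd⟩ := hF i
    have := hf.2.2 z i
    rw [hg]
    simp only
    rw [ev2_smul hd]
    rw [show ((f z).1, (f z).2) = f z from rfl, this, mul_zero]
  have hgx : g w = x := by
    rw [hg]
    simp only
    rw [hx1, hx2, smul_smul, inv_mul_cancel₀ ha, one_smul]
  have hgn : NonConst2 g := by
    obtain ⟨z, z', h⟩ := hnc
    refine ⟨z, z', h.imp (fun h b hb => h b ?_) id⟩
    rw [hg] at hb
    simp only at hb
    have h3 : a • a⁻¹ • (f z').1 = a • b • a⁻¹ • (f z).1 := by rw [hb]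
    rwa [smul_smul, mul_inv_cancel₀ ha, one_smul, smul_comm b a⁻¹, smul_smul a a⁻¹,
      mul_inv_cancel₀ ha, one_smul] at h3
  have hgc : ∀ k, ‖coef g w k‖ ≤ max ‖a‖⁻¹ 1 * ‖coef f w k‖ := by
    intro k
    have hL : coef g w k = (a⁻¹ • (coef f w k).1, (coef f w k).2) := by
      exact coef_clm (((a⁻¹ • ContinuousLinearMap.fst ℂ (Fin (n + 1) → ℂ) (Fin m → ℂ))).prod
        (ContinuousLinearMap.snd ℂ (Fin (n + 1) → ℂ) (Fin m → ℂ))) hf.1 w k
    rw [hL]
    refine (Prod.norm_def _).trans_le (max_le ?_ ?_)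
    · simp only
      rw [norm_smul, norm_inv]
      exact mul_le_mul (le_max_left _ _) (norm_fst_le _) (norm_nonneg _) (by positivity)
    · simp only
      calc ‖(coef f w k).2‖ ≤ 1 * ‖coef f w k‖ := by rw [one_mul]; exact norm_snd_le _
        _ ≤ _ := mul_le_mul_of_nonneg_right (le_max_right _ _) (norm_nonneg _)
  obtain ⟨k0, s0, hk0⟩ := nu_of_nonConst hgm hgn w
  obtain ⟨C, hC⟩ := (isCompact_sphere w 1).exists_bound_of_continuousOn hgd.continuous.continuousOn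
  have hbd : ∀ k, ‖coef g w k‖ ≤ C := by
    intro k
    have := coef_le hgd w one_pos hC k
    rwa [one_pow, div_one] at this
  have hg0 : coef g w 0 = x := by simp [coef, hgx]
  have hx0 : 0 < ‖x.1‖ := by
    rw [← hgx]
    exact norm_pos_iff.2 (hgm.2.1 w)
  have hnu : 0 < ‖nu s0 (coef g w 0) (coef g w (k0 + 1))‖ := norm_pos_iff.2 hk0
  have hsm : ∀ t : ℝ, 0 < t → ∀ᶠ D : ℕ in atTop, 1 / ((D : ℝ) + 1) ≤ t := fun t ht =>
    (tendsto_one_div_add_atTop_nhds_zero_nat.eventually_lt_const ht).mono fun D h => h.le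
  obtain ⟨D0, hD0⟩ := eventually_atTop.1 (hev.and ((hsm _ hx0).and ((hsm _ hnu).and
    ((eventually_ge_atTop ⌈C⌉₊).and (eventually_gt_atTop k0)))))
  obtain ⟨D, hD, ht⟩ := hgr f hf.1 hs w (max ‖a‖⁻¹ 1) D0
  obtain ⟨h3, h4, h5, h6, h7⟩ := hD0 D hD
  have hCD : C ≤ D := (Nat.le_ceil C).trans (by exact_mod_cast h6)
  refine hno D (coef g w) ⟨⟨?_, ?_⟩, ⟨k0, h7, s0, h5⟩, fun z _ i => ?_⟩
    (fun k => (hbd k).trans (by linarith)) (fun k hk => (hgc k).trans (ht k hk))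
  · rw [hg0]; exact h4
  · rw [hg0]
    exact fun h => h3 (thickening_subset_cthickening _ _ h)
  · have : ser (coef g w) z = g (w + z) := (ser_hasSumE hgd w z).tsum_eq
    rw [this]
    exact hgm.2.2 _ i

end Pool.Agent.R871.SG
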