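import Pool.Agent.R871.SG.LacG

/-!
Power series whose exponents form a `B_d`-set: homogeneous relations of degree at most `d`.
-/

set_option autoImplicit false

namespace Pool.Agent.R871.SG.LF

open MvPolynomial

variable {K : Type} [Field K] {s : ℕ}

/-- Two different multisets of the same size, at most `d`, of elements of `E` have different sums. -/
def SumsDistinct (d : ℕ) (E : Set ℕ) : Prop :=
  ∀ μ ν : ℕ →₀ ℕ, (↑μ.support : Set ℕ) ⊆ E → (↑ν.support : Set ℕ) ⊆ E → μ.degree ≤ d →
    ν.degree = μ.degree → (μ.sum fun i k => k * i) = (ν.sum fun i k => k * i) → μ = ν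

/-- The generic combination of the first coefficient vectors. -/
noncomputable def gen (f : Fin s → PowerSeries K) (N : ℕ) : Fin s → MvPolynomial ℕ K := fun j =>
  ∑ i ∈ Finset.range (N + 1), C (PowerSeries.coeff i (f j)) * X i

theorem gen_hom (f : Fin s → PowerSeries K) (N : ℕ) (j : Fin s) : (gen f N j).IsHomogeneous 1 := by
  refine IsHomogeneous.sum _ _ _ fun i _ => ?_
  have := (isHomogeneous_C ℕ (PowerSeries.coeff i (f j))).mul (isHomogeneous_X K i)
  simpa using this

theorem gen_supp {f : Fin s → PowerSeries K} {E : Set ℕ}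
    (hE : ∀ m, m ∉ E → ∀ i, PowerSeries.coeff m (f i) = 0) (N : ℕ) (j : Fin s) :
    gen f N j ∈ supported K E := by
  refine Subalgebra.sum_mem _ fun i _ => ?_
  by_cases hi : i ∈ E
  · exact Subalgebra.mul_mem _ (Subalgebra.algebraMap_mem _ _) (X_mem_supported.2 hi)
  · rw [hE i hi j, C_0, zero_mul]
    exact Subalgebra.zero_mem _

theorem aeval_supp {E : Set ℕ} {w : Fin s → MvPolynomial ℕ K} (hw : ∀ j, w j ∈ supported K E)
    (F : MvPolynomial (Fin s) K) : aeval w F ∈ supported K E := by
  induction F using MvPolynomial.induction_on with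
  | C a =>
    rw [aeval_C]
    exact Subalgebra.algebraMap_mem _ _
  | add p q hp hq =>
    rw [map_add]
    exact Subalgebra.add_mem _ hp hq
  | mul_X p i hp =>
    rw [map_mul, aeval_X]
    exact Subalgebra.mul_mem _ hp (hw i)

/-- The substitution `T i ↦ z ^ i`. -/
theorem sub_coeff (G : MvPolynomial ℕ K) (k : ℕ) :
    (aeval (fun i : ℕ => (Polynomial.X : Polynomial K) ^ i) G).coeff k =
      ∑ μ ∈ G.support, if (μ.sum fun i k => k * i) = k then coeff μ G else 0 := by
  classical
  rw [aeval_def, eval₂_eq, Polynomial.finsetSum_coeff]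
  refine Finset.sum_congr rfl fun μ _ => ?_
  have h1 : ∏ i ∈ μ.support, ((Polynomial.X : Polynomial K) ^ i) ^ μ i =
      Polynomial.X ^ (μ.sum fun i k => k * i) := by
    rw [Finsupp.sum, ← Finset.prod_pow_eq_pow_sum]
    refine Finset.prod_congr rfl fun i _ => ?_
    rw [← pow_mul, mul_comm]
  rw [h1, Polynomial.algebraMap_eq, Polynomial.coeff_C_mul, Polynomial.coeff_X_pow]
  by_cases h : k = μ.sum fun i k => k * i
  · rw [if_pos h, if_pos h.symm, mul_one]
  · rw [if_neg h, if_neg (fun h' => h h'.symm), mul_zero]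

theorem gen_tr (f : Fin s → PowerSeries K) (N : ℕ) (F : MvPolynomial (Fin s) K) :
    aeval (fun i : ℕ => (Polynomial.X : Polynomial K) ^ i) (aeval (gen f N) F) =
      aeval (tr f N) F := by
  have h3 := comp_aeval (R := K) (gen f N)
    (aeval (fun i : ℕ => (Polynomial.X : Polynomial K) ^ i) : MvPolynomial ℕ K →ₐ[K] Polynomial K)
  have h4 := congrArg (fun h => h F) h3
  have h5 : (fun j => (aeval (fun i : ℕ => (Polynomial.X : Polynomial K) ^ i) :
      MvPolynomial ℕ K →ₐ[K] Polynomial K) (gen f N j)) = tr f N := by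
    funext j
    refine Polynomial.ext fun m => ?_
    rw [tr_coeff, gen, map_sum, Polynomial.finsetSum_coeff]
    simp only [map_mul, aeval_X]
    have h6 : ∀ i, ((aeval (fun i : ℕ => (Polynomial.X : Polynomial K) ^ i) :
        MvPolynomial ℕ K →ₐ[K] Polynomial K) (C (PowerSeries.coeff i (f j))) *
        Polynomial.X ^ i).coeff m = if m = i then PowerSeries.coeff i (f j) else 0 := by
      intro i
      rw [aeval_C, Polynomial.algebraMap_eq, Polynomial.coeff_C_mul, Polynomial.coeff_X_pow]
      split_ifs <;> simp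
    simp only [h6]
    rw [Finset.sum_ite_eq]
    simp only [Finset.mem_range]
  rw [h5] at h4
  exact h4

theorem gen_eval (f : Fin s → PowerSeries K) (N : ℕ) (t : ℕ → K) (F : MvPolynomial (Fin s) K) :
    eval t (aeval (gen f N) F) = eval (∑ i ∈ Finset.range (N + 1), t i • cv f i) F := by
  have h3 := comp_aeval (R := K) (gen f N) (aeval t : MvPolynomial ℕ K →ₐ[K] K)
  have h4 := congrArg (fun h => h F) h3
  have h5 : (fun j => (aeval t : MvPolynomial ℕ K →ₐ[K] K) (gen f N j)) =
      ∑ i ∈ Finset.range (N + 1), t i • cv f i := by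
    funext j
    rw [gen, map_sum, Finset.sum_apply]
    refine Finset.sum_congr rfl fun i _ => ?_
    simp [cv, mul_comm]
  rw [h5] at h4
  have hx : ∀ {σ : Type} (v : σ → K) (g : MvPolynomial σ K), aeval v g = eval v g := fun v g =>
    DFunLike.congr_fun (coe_aeval_eq_eval v) g
  rw [← hx, ← hx]
  exact h4

/-- **Exponents in a `B_d`-set.** -/
theorem sidon_span {d : ℕ} {f : Fin s → PowerSeries K} {E : Set ℕ} (hE : SumsDistinct d E)
    (hf : ∀ m, m ∉ E → ∀ i, PowerSeries.coeff m (f i) = 0) {F : MvPolynomial (Fin s) K} {e : ℕ}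
    (hF : F.IsHomogeneous e) (hed : e ≤ d) (h : aeval f F = 0) (M : ℕ) (t : ℕ → K) :
    eval (∑ i ∈ Finset.range (M + 1), t i • cv f i) F = 0 := by
  classical
  set N : ℕ := max M (d * M) with hN
  set G : MvPolynomial ℕ K := aeval (gen f N) F with hG
  have hGh : G.IsHomogeneous e := by
    have := hF.aeval (gen f N) (fun j => gen_hom f N j)
    rwa [one_mul] at this
  have hGs : ∀ μ ∈ G.support, (↑μ.support : Set ℕ) ⊆ E := by
    intro μ hμ i hi
    have h1 : G ∈ supported K E := aeval_supp (gen_supp hf N) F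
    rw [mem_supported] at h1
    exact h1 (Finset.mem_coe.2 ((mem_vars_iff_mem_support i).2 ⟨μ, hμ, hi⟩))
  have hGd : ∀ μ ∈ G.support, μ.degree = e := by
    intro μ hμ
    have h1 := hGh (mem_support_iff.1 hμ)
    rw [Finsupp.weight_apply] at h1
    have h2 : (μ.sum fun i c => c • (1 : ℕ → ℕ) i) = ∑ i ∈ μ.support, μ i := by
      rw [Finsupp.sum]
      exact Finset.sum_congr rfl fun i _ => by simp
    rw [← h1, h2]
    rfl
  have hcoef : ∀ k ≤ N, (aeval (tr f N) F : Polynomial K).coeff k = 0 := by
    intro k hk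
    have h1 := cong f N F
    rw [h, zero_sub, dvd_neg] at h1
    have h2 := (PowerSeries.X_pow_dvd_iff.1 h1) k (by omega)
    rwa [Polynomial.coeff_coe] at h2
  have hbig : ∀ μ ∈ G.support, N < μ.sum fun i k => k * i := by
    intro μ hμ
    by_contra hcon
    rw [not_lt] at hcon
    have h1 := hcoef _ hcon
    rw [← gen_tr, ← hG, sub_coeff, Finset.sum_eq_single μ] at h1
    · rw [if_pos rfl] at h1
      exact (mem_support_iff.1 hμ) h1
    · intro ν hν hne
      rw [if_neg]
      intro heq
      exact hne (hE ν μ (hGs ν hν) (hGs μ hμ) ((hGd ν hν).le.trans hed)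
        ((hGd μ hμ).trans (hGd ν hν).symm) heq)
    · intro h2
      exact absurd hμ h2
  -- the point
  set t' : ℕ → K := fun i => if i < M + 1 then t i else 0 with ht'
  have h1 : ∑ i ∈ Finset.range (M + 1), t i • cv f i =
      ∑ i ∈ Finset.range (N + 1), t' i • cv f i := by
    have hMN : M ≤ N := le_max_left _ _
    rw [← Finset.sum_subset (Finset.range_mono (by omega : M + 1 ≤ N + 1)) (f := fun i =>
      t' i • cv f i) (fun i _ hi => by
        have h2 : t' i = 0 := if_neg fun h => hi (Finset.mem_range.2 h)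
        rw [h2, zero_smul])]
    refine Finset.sum_congr rfl fun i hi => ?_
    have h2 : t' i = t i := if_pos (Finset.mem_range.1 hi)
    rw [h2]
  rw [h1, ← gen_eval, ← hG, eval_eq]
  refine Finset.sum_eq_zero fun μ hμ => ?_
  obtain ⟨i, hi, hiM⟩ : ∃ i ∈ μ.support, M < i := by
    by_contra hcon
    push Not at hcon
    have h2 : (μ.sum fun i k => k * i) ≤ d * M := by
      rw [Finsupp.sum]
      refine (Finset.sum_le_sum fun i hi => Nat.mul_le_mul_left (μ i) (hcon i hi)).trans ?_
      rw [← Finset.sum_mul]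
      refine Nat.mul_le_mul_right _ ?_
      have h3 := (hGd μ hμ).le.trans hed
      rwa [Finsupp.degree] at h3
    have h3 := hbig μ hμ
    have h4 : d * M ≤ N := le_max_right _ _
    omega
  have h2 : ∏ i ∈ μ.support, t' i ^ μ i = 0 := by
    refine Finset.prod_eq_zero hi ?_
    have h3 : t' i = 0 := if_neg (by omega)
    rw [h3]
    exact zero_pow (Finsupp.mem_support_iff.1 hi)
  rw [h2, mul_zero]

end Pool.Agent.R871.SG.LF
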