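import Pool.Agent.R871.SG.AlgF

/-!
Plane curves which are finite over the affine line, and maps on them, with varying coefficients.
-/

set_option autoImplicit false

namespace Pool.Agent.R871.SG

open Filter Topology Metric Set

variable {d m s : ℕ}

/-- The value at `y` of the monic polynomial of degree `d` with the lower coefficients `a`. -/
noncomputable def hv (a : Fin d → ℂ) (y : ℂ) : ℂ := y ^ d + ∑ j : Fin d, a j * y ^ (j : ℕ)

/-- The values at `x` of the polynomials with the coefficients `c j`. -/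
noncomputable def cf (c : Fin d → Fin (m + 1) → ℂ) (x : ℂ) (j : Fin d) : ℂ :=
  ∑ i : Fin (m + 1), c j i * x ^ (i : ℕ)

/-- The value at `y` of the polynomial of degree less than `d` with the vectors `v` as coefficients. -/
noncomputable def fv (v : Fin d → Fin s → ℂ) (y : ℂ) : Fin s → ℂ := ∑ j : Fin d, y ^ (j : ℕ) • v j

theorem hv_cont : Continuous fun p : (Fin d → ℂ) × ℂ => hv p.1 p.2 := by
  unfold hv; fun_prop

theorem fv_cont : Continuous fun p : (Fin d → Fin s → ℂ) × ℂ => fv p.1 p.2 := by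
  unfold fv; fun_prop

theorem cf_cont (x : ℂ) : Continuous fun c : Fin d → Fin (m + 1) → ℂ => cf c x := by
  unfold cf; fun_prop

/-- The monic polynomial with the lower coefficients `a`. -/
noncomputable def hp {R : Type} [CommRing R] (a : Fin d → R) : Polynomial R :=
  Polynomial.X ^ d + ∑ j : Fin d, Polynomial.C (a j) * Polynomial.X ^ (j : ℕ)

theorem hp_monic {R : Type} [CommRing R] (a : Fin d → R) : (hp a).Monic :=
  Polynomial.monic_X_pow_add (Polynomial.degree_sum_fin_lt a)

theorem hp_natDegree (a : Fin d → ℂ) : (hp a).natDegree = d := by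
  unfold hp
  rw [Polynomial.natDegree_add_eq_left_of_degree_lt, Polynomial.natDegree_X_pow]
  rw [Polynomial.degree_X_pow]
  exact Polynomial.degree_sum_fin_lt a

theorem hp_eval (a : Fin d → ℂ) (y : ℂ) : (hp a).eval y = hv a y := by
  simp [hp, hv, Polynomial.eval_finsetSum]

theorem hv_zero_pos {a : Fin d → ℂ} {y : ℂ} (h : hv a y = 0) : d ≠ 0 := by
  rintro rfl
  simp [hv] at h

/-- Roots near to a point where the value is small. -/
theorem root_near {a : Fin d → ℂ} {y0 : ℂ} {ε : ℝ} (hε : 0 < ε) (h : ‖hv a y0‖ < ε ^ d) :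
    ∃ y, hv a y = 0 ∧ ‖y - y0‖ < ε := by
  by_contra hcon
  push Not at hcon
  have hs := IsAlgClosed.splits (hp a)
  have h1 : hp a = ((hp a).roots.map fun r => Polynomial.X - Polynomial.C r).prod :=
    hs.eq_prod_roots_of_monic (hp_monic a)
  have h2 : Multiset.card (hp a).roots = d := by
    rw [← hs.natDegree_eq_card_roots, hp_natDegree]
  have h3 : ∀ R : Multiset ℂ, (∀ r ∈ R, ε ≤ ‖r - y0‖) → ε ^ Multiset.card R ≤
      ‖((R.map fun r => Polynomial.X - Polynomial.C r).prod).eval y0‖ := by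
    intro R
    induction R using Multiset.induction_on with
    | empty => intro _; simp
    | cons r R ih =>
      intro hR
      rw [Multiset.card_cons, Multiset.map_cons, Multiset.prod_cons, Polynomial.eval_mul, norm_mul,
        pow_succ, mul_comm]
      refine mul_le_mul ?_ (ih fun r' hr' => hR r' (Multiset.mem_cons_of_mem hr')) (by positivity)
        (norm_nonneg _)
      have := hR r (Multiset.mem_cons_self r R)
      rw [Polynomial.eval_sub, Polynomial.eval_X, Polynomial.eval_C, norm_sub_rev]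
      exact this
  have h4 := h3 (hp a).roots fun r hr => hcon r (by
    rw [← hp_eval]
    exact (Polynomial.mem_roots'.1 hr).2)
  rw [← h1, h2, hp_eval] at h4
  exact absurd h (not_lt.2 h4)

/-- A bound for the roots. -/
theorem root_bound {a : Fin d → ℂ} {y : ℂ} (h : hv a y = 0) : ‖y‖ ≤ 1 + ∑ j, ‖a j‖ := by
  have hS : 0 ≤ ∑ j, ‖a j‖ := Finset.sum_nonneg fun j _ => norm_nonneg _
  by_cases hy : ‖y‖ ≤ 1
  · linarith
  push Not at hy
  have hd := hv_zero_pos h
  obtain ⟨k, rfl⟩ := Nat.exists_eq_succ_of_ne_zero hd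
  have h1 : ‖y‖ ^ (k + 1) ≤ (∑ j, ‖a j‖) * ‖y‖ ^ k := by
    have h2 : y ^ (k + 1) = -∑ j : Fin (k + 1), a j * y ^ (j : ℕ) := by
      unfold hv at h
      exact eq_neg_of_add_eq_zero_left h
    rw [← norm_pow, h2, norm_neg, Finset.sum_mul]
    refine (norm_sum_le _ _).trans (Finset.sum_le_sum fun j _ => ?_)
    rw [norm_mul, norm_pow]
    exact mul_le_mul_of_nonneg_left (pow_le_pow_right₀ hy.le (Nat.lt_succ_iff.1 j.2))
      (norm_nonneg _)
  rw [pow_succ'] at h1
  have h3 := le_of_mul_le_mul_right h1 (by positivity)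
  linarith

/-- The condition that the values at all roots are in a closed set is closed. -/
theorem all_closed {K : Set (Fin s → ℂ)} (hK : IsClosed K) :
    IsClosed {p : (Fin d → ℂ) × (Fin d → Fin s → ℂ) | ∀ y, hv p.1 y = 0 → fv p.2 y ∈ K} := by
  rw [← isOpen_compl_iff, isOpen_iff_mem_nhds]
  rintro ⟨a, v⟩ hav
  simp only [mem_compl_iff, mem_ofPred_eq, not_forall] at hav
  obtain ⟨y, hy, hyK⟩ := hav
  have h1 : ∀ᶠ q : (Fin d → Fin s → ℂ) × ℂ in 𝓝 (v, y), fv q.1 q.2 ∈ Kᶜ :=
    (fv_cont.tendsto (v, y)).eventually (hK.isOpen_compl.mem_nhds hyK)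
  rw [nhds_prod_eq, eventually_prod_iff] at h1
  obtain ⟨pv, hpv, py, hpy, hall⟩ := h1
  obtain ⟨ε, hε, hεy⟩ := Metric.eventually_nhds_iff.1 hpy
  have h2 : ∀ᶠ a' : Fin d → ℂ in 𝓝 a, ‖hv a' y‖ < ε ^ d := by
    have h3 : Tendsto (fun a' : Fin d → ℂ => ‖hv a' y‖) (𝓝 a) (𝓝 ‖hv a y‖) := by
      have h4 : Continuous fun a' : Fin d → ℂ => hv a' y :=
        hv_cont.comp (continuous_id.prodMk continuous_const)
      exact (h4.norm).tendsto a
    rw [hy, norm_zero] at h3
    exact h3.eventually_lt_const (by positivity)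
  rw [nhds_prod_eq]
  filter_upwards [h2.prod_mk hpv] with q hq hqall
  obtain ⟨y', hy', hyy⟩ := root_near hε hq.1
  exact hall hq.2 (hεy (by rwa [dist_eq_norm])) (hqall y' hy')

theorem fv_tendsto {T : Type} {l : Filter T} {v : T → Fin d → Fin s → ℂ} {v0 : Fin d → Fin s → ℂ}
    (hv' : Tendsto v l (𝓝 v0)) {y : T → ℂ} {y0 : ℂ} (hlim : Tendsto y l (𝓝 y0)) :
    Tendsto (fun n => fv (v n) (y n)) l (𝓝 (fv v0 y0)) := by
  unfold fv
  exact tendsto_finsetSum _ fun j _ => (hlim.pow (j : ℕ)).smul ((tendsto_pi_nhds.1 hv') j)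

theorem exists_limit {U : Set (Fin s → ℂ)} (hU : IsOpen U) {a : ℕ → Fin d → ℂ}
    {v : ℕ → Fin d → Fin s → ℂ} {a0 : Fin d → ℂ} {v0 : Fin d → Fin s → ℂ}
    (ha : Tendsto a atTop (𝓝 a0)) (hv' : Tendsto v atTop (𝓝 v0))
    (h : ∀ n, ∃ y, hv (a n) y = 0 ∧ fv (v n) y ∈ Uᶜ) : ∃ y, hv a0 y = 0 ∧ fv v0 y ∈ Uᶜ := by
  choose y hy hyU using h
  obtain ⟨B, hB⟩ : ∃ B : ℝ, ∀ n, ‖y n‖ ≤ B := by
    have h3 : Tendsto (fun n => 1 + ∑ j, ‖a n j‖) atTop (𝓝 (1 + ∑ j, ‖a0 j‖)) :=
      tendsto_const_nhds.add (tendsto_finsetSum _ fun j _ => ((tendsto_pi_nhds.1 ha) j).norm)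
    obtain ⟨B, hB⟩ := h3.bddAbove_range
    exact ⟨B, fun n => (root_bound (hy n)).trans (hB (mem_range_self n))⟩
  obtain ⟨y0, -, θ, hθ, hlim⟩ := (isCompact_closedBall (0 : ℂ) B).tendsto_subseq
    (x := y) fun n => by simpa using hB n
  have h4 : Tendsto (fun n => hv (a (θ n)) (y (θ n))) atTop (𝓝 (hv a0 y0)) :=
    (hv_cont.tendsto (a0, y0)).comp ((ha.comp hθ.tendsto_atTop).prodMk_nhds hlim)
  have h5 : Tendsto (fun n => fv (v (θ n)) (y (θ n))) atTop (𝓝 (fv v0 y0)) :=
    fv_tendsto (hv'.comp hθ.tendsto_atTop) hlim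
  have h6 : (fun n => hv (a (θ n)) (y (θ n))) = fun _ => 0 := funext fun n => hy (θ n)
  rw [h6] at h4
  have h7 : fv v0 y0 ∈ Uᶜ :=
    hU.isClosed_compl.mem_of_tendsto h5 (Eventually.of_forall fun n => hyU (θ n))
  exact ⟨y0, tendsto_nhds_unique h4 tendsto_const_nhds, h7⟩

theorem dvd_pow_of_roots {p u : Polynomial ℂ} (hp : p.Monic)
    (h : ∀ y, p.eval y = 0 → u.eval y = 0) : p ∣ u ^ p.natDegree := by
  have hs := IsAlgClosed.splits p
  have h1 : p = (p.roots.map fun r => Polynomial.X - Polynomial.C r).prod :=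
    hs.eq_prod_roots_of_monic hp
  have h3 : ∀ R : Multiset ℂ, (∀ r ∈ R, u.eval r = 0) →
      (R.map fun r => Polynomial.X - Polynomial.C r).prod ∣ u ^ Multiset.card R := by
    intro R
    induction R using Multiset.induction_on with
    | empty => intro _; simp
    | cons r R ih =>
      intro hR
      rw [Multiset.card_cons, Multiset.map_cons, Multiset.prod_cons, pow_succ']
      exact mul_dvd_mul (Polynomial.dvd_iff_isRoot.2 (hR r (Multiset.mem_cons_self r R)))
        (ih fun r' hr' => hR r' (Multiset.mem_cons_of_mem hr'))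
  have h4 := h3 p.roots fun r hr => h r (Polynomial.mem_roots'.1 hr).2
  rw [← h1, ← hs.natDegree_eq_card_roots] at h4
  exact h4

/-- The values of polynomials. -/
noncomputable def pe (P : Fin d → Fin s → Polynomial ℂ) (x : ℂ) : Fin d → Fin s → ℂ :=
  fun j k => (P j k).eval x

/-- Equations which hold over a disc hold everywhere. -/
theorem ext_all (c : Fin d → Fin (m + 1) → ℂ) (P : Fin d → Fin s → Polynomial ℂ)
    (F : MvPolynomial (Fin s) ℂ)
    (h : ∀ x, ‖x‖ < 1 → ∀ y, hv (cf c x) y = 0 → MvPolynomial.eval (fv (pe P x) y) F = 0) (x y : ℂ)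
    (hxy : hv (cf c x) y = 0) : MvPolynomial.eval (fv (pe P x) y) F = 0 := by
  set cp : Fin d → Polynomial ℂ := fun j =>
    ∑ i : Fin (m + 1), Polynomial.C (c j i) * Polynomial.X ^ (i : ℕ) with hcp
  set W : Polynomial (Polynomial ℂ) := MvPolynomial.eval₂
    (Polynomial.C.comp Polynomial.C) (fun k => ∑ j : Fin d, Polynomial.C (P j k) *
      Polynomial.X ^ (j : ℕ)) F with hW
  have hcpx : ∀ x j, (cp j).eval x = cf c x j := by
    intro x j
    simp [hcp, cf, Polynomial.eval_finsetSum]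
  have hH : ∀ x, (hp cp).map (Polynomial.evalRingHom x) = hp (cf c x) := by
    intro x
    simp only [hp, Polynomial.map_add, Polynomial.map_pow, Polynomial.map_X, Polynomial.map_sum,
      Polynomial.map_mul, Polynomial.map_C, Polynomial.coe_evalRingHom, hcpx]
  have hWxy : ∀ x y, (W.map (Polynomial.evalRingHom x)).eval y =
      MvPolynomial.eval (fv (pe P x) y) F := by
    intro x y
    set θ : Polynomial (Polynomial ℂ) →+* ℂ :=
      (Polynomial.evalRingHom y).comp (Polynomial.mapRingHom (Polynomial.evalRingHom x)) with hθ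
    have h1 : (W.map (Polynomial.evalRingHom x)).eval y = θ W := rfl
    rw [h1, hW, MvPolynomial.eval₂_comp_left]
    have h2 : θ.comp (Polynomial.C.comp Polynomial.C) = RingHom.id ℂ := by
      ext a
      simp [hθ]
    have h3 : (θ ∘ fun k => ∑ j : Fin d, Polynomial.C (P j k) * Polynomial.X ^ (j : ℕ)) =
        fv (pe P x) y := by
      funext k
      simp only [Function.comp_apply, map_sum, map_mul, map_pow, hθ, RingHom.comp_apply,
        Polynomial.coe_mapRingHom, Polynomial.map_C, Polynomial.map_X, Polynomial.coe_evalRingHom,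
        Polynomial.eval_C, Polynomial.eval_X, fv, pe, Finset.sum_apply, Pi.smul_apply, smul_eq_mul]
      exact Finset.sum_congr rfl fun j _ => mul_comm _ _
    rw [h2, h3]
    rfl
  have hR : W ^ d %ₘ hp cp = 0 := by
    ext k : 1
    rw [Polynomial.coeff_zero]
    refine Polynomial.funext fun x => ?_
    rw [Polynomial.eval_zero]
    refine zero_ball (h := fun x => ((W ^ d %ₘ hp cp).coeff k).eval x)
      (Polynomial.differentiable _) (w := 0) (r := 1) one_pos (fun x hx => ?_) x
    rw [sub_zero] at hx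
    have h1 : (W ^ d %ₘ hp cp).map (Polynomial.evalRingHom x) = 0 := by
      rw [Polynomial.map_modByMonic _ (hp_monic cp), hH, Polynomial.map_pow,
        (Polynomial.modByMonic_eq_zero_iff_dvd (hp_monic _))]
      have h2 := dvd_pow_of_roots (p := hp (cf c x)) (u := W.map (Polynomial.evalRingHom x))
        (hp_monic _) (fun y hy => by
          rw [hWxy]
          rw [hp_eval] at hy
          exact h x hx y hy)
      rwa [hp_natDegree] at h2
    have h3 := congrArg (fun q => Polynomial.coeff q k) h1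
    simpa [Polynomial.coeff_map] using h3
  have hdvd : hp cp ∣ W ^ d := (Polynomial.modByMonic_eq_zero_iff_dvd (hp_monic cp)).1 hR
  obtain ⟨V, hV⟩ := hdvd
  have h1 := congrArg (fun q => (q.map (Polynomial.evalRingHom x)).eval y) hV
  simp only [Polynomial.map_pow, Polynomial.map_mul, Polynomial.eval_pow, Polynomial.eval_mul,
    hWxy, hH, hp_eval, hxy, zero_mul] at h1
  exact (pow_eq_zero_iff (hv_zero_pos hxy)).1 h1

end Pool.Agent.R871.SG
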