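import Pool.Agent.R871.SG.UniA

/-!
Holomorphic maps of slow growth from affine curves, with one growth condition for all curves, are limits
of algebraic maps from affine curves.
-/

set_option autoImplicit false

namespace Pool.Agent.R871.SG

open Filter Topology Metric Set

variable {d m s : ℕ} {ι κ : Type}

theorem growth1 (δ : ℕ → ℝ) (hδ : ∀ D, 0 < δ D) : ∃ φ : ℝ → ℝ, Grows φ ∧
    ∀ {E : Type} [NormedAddCommGroup E] [NormedSpace ℂ E] [CompleteSpace E] (f : ℂ → E),
      Differentiable ℂ f → Slow φ f → ∀ (A : ℝ) (D₀ : ℕ), 0 ≤ A → ∃ D ≥ D₀, ∀ m, D < m →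
        A ^ m * ‖coef f 0 m‖ ≤ δ D := by
  obtain ⟨φ, hφ, h⟩ := growthM δ hδ
  refine ⟨φ, hφ, fun f hf hs A D₀ hA => ?_⟩
  obtain ⟨D, hD, hb⟩ := h (p := 1) (fun z => f (z 0)) (fun α => coef f 0 (α 0))
    (fun r C hr hC α => by
      have := coef_le hf 0 hr (fun z hz => hC (fun _ => z) (by
        refine (pi_norm_le_iff_of_nonneg hr.le).2 fun _ => ?_
        simpa using (mem_sphere_zero_iff_norm.1 hz).le)) (α 0)
      simpa [ord] using this)
    (fun R => by
      obtain ⟨r, hr, h⟩ := hs R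
      exact ⟨r, hr, fun z hz => h (z 0) ((norm_le_pi_norm z 0).trans hz)⟩) A D₀ hA
  refine ⟨D, hD, fun m hm => ?_⟩
  have := hb (fun _ => m) (by simpa [ord] using hm)
  simpa [ord] using this

theorem min_delta (δ : ℕ → ℕ → ℕ → ℝ) (h : ∀ d m D, 0 < δ d m D) : ∃ ε : ℕ → ℝ,
    (∀ D, 0 < ε D) ∧ ∀ d m D, d ≤ D → m ≤ D → ε D ≤ δ d m D := by
  refine ⟨fun D => (∑ d ∈ Finset.range (D + 1), ∑ m ∈ Finset.range (D + 1), (δ d m D)⁻¹)⁻¹,
    fun D => ?_, fun d m D hd hm => ?_⟩
  · refine inv_pos.2 (Finset.sum_pos (fun d _ => Finset.sum_pos (fun m _ => inv_pos.2 (h d m D))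
      ⟨0, by simp⟩) ⟨0, by simp⟩)
  · have h1 : (δ d m D)⁻¹ ≤ ∑ m ∈ Finset.range (D + 1), (δ d m D)⁻¹ :=
      Finset.single_le_sum (f := fun m => (δ d m D)⁻¹) (fun m _ => (inv_pos.2 (h d m D)).le)
        (Finset.mem_range.2 (Nat.lt_succ_of_le hm))
    have h2 : ∑ m ∈ Finset.range (D + 1), (δ d m D)⁻¹ ≤
        ∑ d ∈ Finset.range (D + 1), ∑ m ∈ Finset.range (D + 1), (δ d m D)⁻¹ :=
      Finset.single_le_sum (f := fun d => ∑ m ∈ Finset.range (D + 1), (δ d m D)⁻¹)
        (fun d _ => Finset.sum_nonneg fun m _ => (inv_pos.2 (h d m D)).le)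
        (Finset.mem_range.2 (Nat.lt_succ_of_le hd))
    exact inv_le_of_inv_le₀ (h d m D) (h1.trans h2)

theorem coef_summableU {E : Type} [NormedAddCommGroup E] [NormedSpace ℂ E] [CompleteSpace E]
    {f : ℂ → E} (hf : Differentiable ℂ f) {A : ℝ} (hA : 0 ≤ A) :
    Summable fun k : ℕ => A ^ k * ‖coef f 0 k‖ := by
  set r : ℝ := 2 * A + 1 with hr
  have hr0 : 0 < r := by positivity
  obtain ⟨C, hC⟩ := (isCompact_closedBall (0 : ℂ) r).exists_bound_of_continuousOn
    hf.continuous.continuousOn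
  have hc : ∀ k, ‖coef f 0 k‖ ≤ C / r ^ k := fun k => coef_le hf 0 hr0 (fun z hz =>
    hC z (sphere_subset_closedBall hz)) k
  have hq : A / r < 1 := (div_lt_one hr0).2 (by rw [hr]; linarith)
  refine Summable.of_nonneg_of_le (fun k => by positivity) (fun k => ?_)
    ((summable_geometric_of_lt_one (by positivity) hq).mul_left C)
  calc A ^ k * ‖coef f 0 k‖ ≤ A ^ k * (C / r ^ k) := by gcongr; exact hc k
    _ = C * (A / r) ^ k := by rw [div_pow]; ring

theorem ser_hasSumU {E : Type} [NormedAddCommGroup E] [NormedSpace ℂ E] [CompleteSpace E]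
    {f : ℂ → E} (hf : Differentiable ℂ f) (w z : ℂ) :
    HasSum (fun m => z ^ m • coef f w m) (f (w + z)) := by
  have h := Complex.hasSum_taylorSeries_of_entire hf w (w + z)
  have e : (fun m => z ^ m • coef f w m) = fun m : ℕ =>
      ((m.factorial : ℂ))⁻¹ • (w + z - w) ^ m • iteratedDeriv m f w := by
    funext m
    rw [coef, add_sub_cancel_left, smul_comm (z ^ m) ((m.factorial : ℂ))⁻¹]
  rw [e]
  exact h

/-- **Holomorphic maps of slow growth from affine curves are limits of algebraic maps from affine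
curves.** -/
theorem approx_uni (F : ι → MvPolynomial (Fin s) ℂ) : ∃ φ : ℝ → ℝ, Grows φ ∧
    ∀ (d m : ℕ) (c : Fin d → Fin (m + 1) → ℂ) (f : ℂ → Fin d → Fin s → ℂ), Differentiable ℂ f →
      (∀ x y, hv (cf c x) y = 0 → ∀ i, MvPolynomial.eval (fv (f x) y) (F i) = 0) → Slow φ f →
      ∀ ρ η : ℝ, 0 ≤ ρ → 0 < η → ∃ (c' : Fin d → Fin (m + 1) → ℂ)
        (P : Fin d → Fin s → Polynomial ℂ),
        (∀ x y, hv (cf c' x) y = 0 → ∀ i, MvPolynomial.eval (fv (pe P x) y) (F i) = 0) ∧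
        ‖c' - c‖ ≤ η ∧ ∀ x, ‖x‖ ≤ ρ → ‖pe P x - f x‖ ≤ η := by
  set L : ∀ d m : ℕ, ℕ → Set ((Fin d → Fin (m + 1) → ℂ) × (Fin d → Fin s → ℂ)) :=
    fun d m k => {p | k ≠ 0 → p.1 = 0} with hL
  set e : {x : ℂ // ‖x‖ ≤ 1} → ℕ → ℂ := fun t k => t.1 ^ k with he
  set Z : Set (Fin s → ℂ) := {v | ∀ i, MvPolynomial.eval v (F i) = 0} with hZ
  have hZc : IsClosed Z := by
    have : Z = ⋂ i, {x | MvPolynomial.eval x (F i) = 0} := by
      ext x; simp [hZ]
    rw [this]
    exact isClosed_iInter fun i => isClosed_eq (cont_ev (F i)) continuous_const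
  have hsum : Summable fun k : ℕ => (1 / 2 : ℝ) ^ k := summable_geometric_two
  have key : ∀ d m : ℕ, ∃ δ : ℕ → ℝ, (∀ D, 0 < δ D) ∧
      ∀ c : ℕ → (Fin d → Fin (m + 1) → ℂ) × (Fin d → Fin s → ℂ), (∀ j, c j ∈ L d m j) →
      (∀ t : {x : ℂ // ‖x‖ ≤ 1}, ∀ y, hv (cf (∑' j, e t j • c j).1 t.1) y = 0 →
        fv (∑' j, e t j • c j).2 y ∈ Z) → (∀ A : ℝ, 0 ≤ A → Summable fun j => A ^ j * ‖c j‖) →
      (∀ D₀, ∃ D ≥ D₀, ∀ j, D < j → 4 ^ j * ‖c j‖ ≤ δ D) → ∀ ρ η : ℝ, 0 ≤ ρ → 0 < η →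
      ∃ (c' : ℕ → (Fin d → Fin (m + 1) → ℂ) × (Fin d → Fin s → ℂ)) (D : ℕ),
        (∀ j, D < j → c' j = 0) ∧ (∀ j, c' j ∈ L d m j) ∧
        (∀ t : {x : ℂ // ‖x‖ ≤ 1}, ∀ y, hv (cf (∑' j, e t j • c' j).1 t.1) y = 0 →
          fv (∑' j, e t j • c' j).2 y ∈ Z) ∧ (Summable fun j => ρ ^ j * ‖c' j - c j‖) ∧
        ∑' j, ρ ^ j * ‖c' j - c j‖ ≤ η := by
    intro d m
    refine approx_gen (J := ℕ) (fun k => k) (fun D => Set.finite_le_nat D) hsum (L d m) (fun k => ?_)
      e (fun t k => ?_) (fun t => {p | ∀ y, hv (cf p.1 t.1) y = 0 → fv p.2 y ∈ Z}) fun t => ?_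
    · by_cases hk : k = 0
      · have : L d m k = univ := by
          ext p
          simp [hL, hk]
        rw [this]
        exact isClosed_univ
      · have : L d m k = Prod.fst ⁻¹' {0} := by
          ext p
          simp [hL, hk]
        rw [this]
        exact isClosed_singleton.preimage continuous_fst
    · rw [he]
      simp only
      rw [norm_pow]
      exact (pow_le_one₀ (norm_nonneg _) t.2).trans (one_le_pow₀ (by norm_num))
    · exact (all_closed hZc).preimage (((cf_cont t.1).comp continuous_fst).prodMk continuous_snd)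
  choose δ hδ hap using key
  obtain ⟨ε, hε, hεδ⟩ := min_delta δ hδ
  obtain ⟨φ, hφ, hgr⟩ := growth1 ε hε
  refine ⟨φ, hφ, fun d m c f hf hfF hs ρ η hρ hη => ?_⟩
  set b : ℕ → (Fin d → Fin (m + 1) → ℂ) × (Fin d → Fin s → ℂ) := fun k =>
    (if k = 0 then c else 0, coef f 0 k) with hb
  have hbn : ∀ k, ‖b k‖ ≤ (if k = 0 then ‖c‖ else 0) + ‖coef f 0 k‖ := by
    intro k
    rw [hb]
    simp only [Prod.norm_mk]
    by_cases hk : k = 0
    · simp only [hk, if_true]
      exact max_le (le_add_of_nonneg_right (norm_nonneg _)) (le_add_of_nonneg_left (norm_nonneg _))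
    · simp [hk]
  have hbs : ∀ x : ℂ, HasSum (fun k => x ^ k • b k) (c, f x) := by
    intro x
    have h1 : HasSum (fun k : ℕ => x ^ k • (if k = 0 then c else 0)) c := by
      have h2 := hasSum_single (f := fun k : ℕ => x ^ k • (if k = 0 then c else 0)) 0
        (fun k hk => by simp [hk])
      simpa using h2
    have h2 := ser_hasSumU hf 0 x
    rw [zero_add] at h2
    exact h1.prodMk h2
  obtain ⟨b', D, hb'0, hb'L, hb'C, hb's, hb'η⟩ := hap d m b (fun k hk => by simp [hb, hk])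
    (fun t y hy => by
      have h1 : ∑' j, e t j • b j = (c, f t.1) := (hbs t.1).tsum_eq
      rw [h1] at hy ⊢
      exact hfF t.1 y hy)
    (fun A hA => by
      have h1 : Summable fun k : ℕ => A ^ k * (if k = 0 then ‖c‖ else 0) :=
        summable_of_ne_finset_zero (s := {0}) fun k hk => by
          have : k ≠ 0 := by simpa using hk
          simp [this]
      refine Summable.of_nonneg_of_le (fun k => by positivity) (fun k => ?_)
        (h1.add (coef_summableU hf hA))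
      rw [← mul_add]
      exact mul_le_mul_of_nonneg_left (hbn k) (by positivity))
    (fun D₀ => by
      obtain ⟨D, hD, h⟩ := hgr f hf hs 4 (max D₀ (max d m)) (by norm_num)
      refine ⟨D, (le_max_left _ _).trans hD, fun j hj => ?_⟩
      have hj0 : j ≠ 0 := by omega
      have h1 : ‖b j‖ ≤ ‖coef f 0 j‖ := by
        have := hbn j
        rwa [if_neg hj0, zero_add] at this
      have h2 : ε D ≤ δ d m D := hεδ d m D
        (((le_max_left _ _).trans (le_max_right _ _)).trans hD)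
        (((le_max_right _ _).trans (le_max_right _ _)).trans hD)
      exact ((mul_le_mul_of_nonneg_left h1 (by positivity)).trans (h j hj)).trans h2) ρ η hρ hη
  set P : Fin d → Fin s → Polynomial ℂ := fun j l =>
    ∑ k ∈ Finset.range (D + 1), Polynomial.C ((b' k).2 j l) * Polynomial.X ^ k with hP
  have hPe : ∀ x, pe P x = ∑ k ∈ Finset.range (D + 1), x ^ k • (b' k).2 := by
    intro x
    funext j l
    simp only [pe, hP, Polynomial.eval_finsetSum, Polynomial.eval_mul, Polynomial.eval_C,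
      Polynomial.eval_pow, Polynomial.eval_X, Finset.sum_apply, Pi.smul_apply, smul_eq_mul]
    exact Finset.sum_congr rfl fun k _ => mul_comm _ _
  have hb's' : ∀ x : ℂ, HasSum (fun k => x ^ k • b' k) ((b' 0).1, pe P x) := by
    intro x
    have h1 : HasSum (fun k => x ^ k • b' k) (∑ k ∈ Finset.range (D + 1), x ^ k • b' k) :=
      hasSum_sum_of_ne_finset_zero fun k hk => by
        rw [hb'0 k (by simpa using hk), smul_zero]
    have h2 : ∑ k ∈ Finset.range (D + 1), x ^ k • b' k = ((b' 0).1, pe P x) := by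
      refine Prod.ext ?_ ?_
      · rw [Prod.fst_sum, Finset.sum_eq_single 0]
        · simp
        · intro k _ hk
          rw [Prod.smul_fst, hb'L k hk, smul_zero]
        · intro h; simp at h
      · rw [Prod.snd_sum, hPe]
        rfl
    rwa [h2] at h1
  refine ⟨(b' 0).1, P, ?_, ?_, fun x hx => ?_⟩
  · have h1 : ∀ x, ‖x‖ < 1 → ∀ y, hv (cf (b' 0).1 x) y = 0 → fv (pe P x) y ∈ Z := by
      intro x hx y hy
      have h2 := hb'C ⟨x, hx.le⟩ y
      have h3 : ∑' j, e ⟨x, hx.le⟩ j • b' j = ((b' 0).1, pe P x) := (hb's' x).tsum_eq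
      rw [h3] at h2
      exact h2 hy
    intro x y hy i
    exact ext_all (b' 0).1 P (F i) (fun x hx y hy => h1 x hx y hy i) x y hy
  · have h1 : ‖(b' 0).1 - c‖ ≤ ‖b' 0 - b 0‖ := by
      have h2 : (b' 0 - b 0).1 = (b' 0).1 - c := by simp [hb]
      rw [← h2]
      exact norm_fst_le _
    have h2 : ρ ^ 0 * ‖b' 0 - b 0‖ ≤ ∑' j, ρ ^ j * ‖b' j - b j‖ :=
      hb's.le_tsum 0 fun j _ => by positivity
    rw [pow_zero, one_mul] at h2
    exact (h1.trans h2).trans hb'η
  · have h1 := (hb's' x).sub (hbs x)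
    have hdif : ∀ k, ‖x ^ k • b' k - x ^ k • b k‖ ≤ ρ ^ k * ‖b' k - b k‖ := by
      intro k
      rw [← smul_sub, norm_smul, norm_pow]
      gcongr
    have h2 : ‖(((b' 0).1, pe P x) : (Fin d → Fin (m + 1) → ℂ) × (Fin d → Fin s → ℂ)) - (c, f x)‖ ≤
        η := (h1.tsum_eq ▸ tsum_of_norm_bounded hb's.hasSum hdif).trans hb'η
    exact (norm_snd_le _).trans h2

end Pool.Agent.R871.SG
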