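import Pool.Agent.R871.SG.UniB

/-!
Degrees of the images of algebraic maps from all affine curves, and holomorphic maps of slow growth.
-/

set_option autoImplicit false

namespace Pool.Agent.R871.SG

open Filter Topology Metric Set MvPolynomial

variable {d m s : ℕ} {ι κ : Type}

/-- The map `(x, y) ↦ ∑ j, y ^ j • f x j` maps the plane curve with the coefficients `c` to
`{F = 0}`. -/
def OnPlane (F : ι → MvPolynomial (Fin s) ℂ) (c : Fin d → Fin (m + 1) → ℂ)
    (f : ℂ → Fin d → Fin s → ℂ) : Prop :=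
  ∀ x y, hv (cf c x) y = 0 → ∀ i, eval (fv (f x) y) (F i) = 0

/-- No component of the plane curve with the coefficients `c` is mapped to `{G = 0}`: over some point
`x`, no point of the curve is mapped to `{G = 0}`. -/
def OutPlane (G : κ → MvPolynomial (Fin s) ℂ) (c : Fin d → Fin (m + 1) → ℂ)
    (f : ℂ → Fin d → Fin s → ℂ) : Prop :=
  ∃ x, ∀ y, hv (cf c x) y = 0 → ∃ k, eval (fv (f x) y) (G k) ≠ 0

/-- Every linear projection to the plane of the image of the plane curve with the coefficients `c` is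
contained in a plane curve of degree `D`. -/
def ImDeg (D : ℕ) (c : Fin d → Fin (m + 1) → ℂ) (f : ℂ → Fin d → Fin s → ℂ) : Prop :=
  ∀ L : (Fin s → ℂ) →ₗ[ℂ] (Fin 3 → ℂ), ∃ Q : MvPolynomial (Fin 3) ℂ, Q ≠ 0 ∧ Q.IsHomogeneous D ∧
    ∀ x y, hv (cf c x) y = 0 → eval (L (fv (f x) y)) Q = 0

/-- Limits of polynomial relations in a space of finite dimension. -/
theorem limit_sub {Y τ : Type} (V : Submodule ℂ (MvPolynomial τ ℂ)) [FiniteDimensional ℂ V]
    {x : ℕ → Y → τ → ℂ} {x0 : Y → τ → ℂ} (hlim : ∀ z, Tendsto (fun k => x k z) atTop (𝓝 (x0 z)))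
    (h : ∀ k, ∃ Q ∈ V, Q ≠ 0 ∧ ∀ z, eval (x k z) Q = 0) :
    ∃ Q ∈ V, Q ≠ 0 ∧ ∀ z, eval (x0 z) Q = 0 := by
  let bs := Module.finBasis ℂ V
  have hval : ∀ (Q : V) (v : τ → ℂ), eval v Q.1 = ∑ i, bs.equivFun Q i * eval v (bs i).1 := by
    intro Q v
    have h1 := congrArg V.subtype (bs.sum_equivFun Q)
    rw [map_sum] at h1
    have h2 : Q.1 = ∑ i, bs.equivFun Q i • (bs i).1 :=
      h1.symm.trans (Finset.sum_congr rfl fun i _ => by rw [map_smul]; rfl)
    refine (congrArg (eval v) h2).trans ?_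
    rw [map_sum]
    exact Finset.sum_congr rfl fun i _ => smul_eval _ _ _
  obtain ⟨c, hc0, hc⟩ := limit_relations (M := Module.finrank ℂ V)
    (b := fun i v => eval v (bs i).1) (fun i => MvPolynomial.continuous_eval _) hlim (fun k => by
      obtain ⟨Q, hQV, hQ0, hQ⟩ := h k
      let Q' : V := ⟨Q, hQV⟩
      refine ⟨bs.equivFun Q', fun h0 => hQ0 ?_, fun z => ?_⟩
      · have h1 : Q' = 0 := (LinearEquiv.map_eq_zero_iff bs.equivFun).1 h0
        exact congrArg Subtype.val h1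
      · rw [← hval Q']
        exact hQ z)
  refine ⟨(bs.equivFun.symm c).1, (bs.equivFun.symm c).2, fun h0 => hc0 ?_, fun z => ?_⟩
  · have h1 : bs.equivFun.symm c = 0 := Subtype.ext h0
    exact (LinearEquiv.map_eq_zero_iff _).1 h1
  · rw [hval, LinearEquiv.apply_symm_apply]
    exact hc z

/-- Roots of converging polynomials. -/
theorem root_seq {a : ℕ → Fin d → ℂ} {a0 : Fin d → ℂ} (ha : Tendsto a atTop (𝓝 a0)) {y : ℂ}
    (hy : hv a0 y = 0) : ∃ y' : ℕ → ℂ, (∀ n, hv (a n) (y' n) = 0) ∧ Tendsto y' atTop (𝓝 y) := by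
  have hd := hv_zero_pos hy
  set t : ℕ → ℝ := fun n => ‖hv (a n) y‖ + 1 / ((n : ℝ) + 1) with ht
  have ht0 : ∀ n, 0 < t n := fun n => by rw [ht]; positivity
  have htl : Tendsto t atTop (𝓝 0) := by
    have h4 : Continuous fun a' : Fin d → ℂ => hv a' y :=
      hv_cont.comp (continuous_id.prodMk continuous_const)
    have h5 : Tendsto (fun n => ‖hv (a n) y‖) atTop (𝓝 ‖hv a0 y‖) := (h4.norm.tendsto a0).comp ha
    have h6 := h5.add tendsto_one_div_add_atTop_nhds_zero_nat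
    rw [hy, norm_zero, add_zero] at h6
    exact h6
  have h1 : ∀ n, ∃ y', hv (a n) y' = 0 ∧ ‖y' - y‖ < t n ^ ((d : ℝ)⁻¹) := by
    intro n
    refine root_near (Real.rpow_pos_of_pos (ht0 n) _) ?_
    rw [Real.rpow_inv_natCast_pow (ht0 n).le hd, ht]
    simp only
    linarith [show (0 : ℝ) < 1 / ((n : ℝ) + 1) by positivity]
  choose y' hy1 hy2 using h1
  refine ⟨y', hy1, ?_⟩
  rw [tendsto_iff_norm_sub_tendsto_zero]
  refine squeeze_zero (fun n => norm_nonneg _) (fun n => (hy2 n).le) ?_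
  have h7 : (0 : ℝ) < (d : ℝ)⁻¹ := by
    have : (0 : ℝ) < d := by exact_mod_cast Nat.pos_of_ne_zero hd
    positivity
  have h8 := htl.rpow_const (p := (d : ℝ)⁻¹) (Or.inr h7.le)
  rwa [Real.zero_rpow h7.ne'] at h8

/-- Approximating sequences. -/
theorem uni_seq {F : ι → MvPolynomial (Fin s) ℂ} {c : Fin d → Fin (m + 1) → ℂ}
    {f : ℂ → Fin d → Fin s → ℂ}
    (h : ∀ ρ η : ℝ, 0 ≤ ρ → 0 < η → ∃ (c' : Fin d → Fin (m + 1) → ℂ)
        (P : Fin d → Fin s → Polynomial ℂ),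
        (∀ x y, hv (cf c' x) y = 0 → ∀ i, eval (fv (pe P x) y) (F i) = 0) ∧
        ‖c' - c‖ ≤ η ∧ ∀ x, ‖x‖ ≤ ρ → ‖pe P x - f x‖ ≤ η) :
    ∃ (c' : ℕ → Fin d → Fin (m + 1) → ℂ) (P : ℕ → Fin d → Fin s → Polynomial ℂ),
      (∀ k, OnPlane F (c' k) (pe (P k))) ∧ Tendsto c' atTop (𝓝 c) ∧
      ∀ x, Tendsto (fun k => pe (P k) x) atTop (𝓝 (f x)) := by
  choose c' P h1 h2 h3 using fun k : ℕ => h k (1 / ((k : ℝ) + 1)) k.cast_nonneg (by positivity)
  refine ⟨c', P, h1, ?_, fun x => ?_⟩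
  · rw [tendsto_iff_norm_sub_tendsto_zero]
    exact squeeze_zero (fun k => norm_nonneg _) h2 tendsto_one_div_add_atTop_nhds_zero_nat
  · rw [tendsto_iff_norm_sub_tendsto_zero]
    refine squeeze_zero' (Eventually.of_forall fun k => norm_nonneg _) ?_
      tendsto_one_div_add_atTop_nhds_zero_nat
    obtain ⟨N, hN⟩ := exists_nat_ge ‖x‖
    filter_upwards [eventually_ge_atTop N] with k hk
    exact h3 k x (hN.trans (by exact_mod_cast hk))

/-- The property to be outside of `{G = 0}` is open. -/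
theorem outPlane_eventually {G : κ → MvPolynomial (Fin s) ℂ} {c : Fin d → Fin (m + 1) → ℂ}
    {f : ℂ → Fin d → Fin s → ℂ} (hout : OutPlane G c f) {c' : ℕ → Fin d → Fin (m + 1) → ℂ}
    {g : ℕ → ℂ → Fin d → Fin s → ℂ} (hc : Tendsto c' atTop (𝓝 c))
    (hg : ∀ x, Tendsto (fun k => g k x) atTop (𝓝 (f x))) :
    ∀ᶠ k in atTop, OutPlane G (c' k) (g k) := by
  obtain ⟨x, hx⟩ := hout
  by_contra hcon
  have hfr : ∃ᶠ k in atTop, ¬ OutPlane G (c' k) (g k) := not_eventually.1 hcon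
  obtain ⟨θ, hθ, hθQ⟩ := extraction_of_frequently_atTop hfr
  set U : Set (Fin s → ℂ) := {v | ∃ k, eval v (G k) ≠ 0} with hU
  have hUo : IsOpen U := by
    have : U = ⋃ k, {v | eval v (G k) ≠ 0} := by
      ext v; simp [hU]
    rw [this]
    exact isOpen_iUnion fun k => isOpen_ne_fun (cont_ev (G k)) continuous_const
  have h1 : Tendsto (fun n => cf (c' (θ n)) x) atTop (𝓝 (cf c x)) :=
    ((cf_cont x).tendsto c).comp (hc.comp hθ.tendsto_atTop)
  obtain ⟨y, hy, hyU⟩ := exists_limit hUo h1 ((hg x).comp hθ.tendsto_atTop) fun n => by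
    by_contra hno
    push Not at hno
    refine hθQ n ⟨x, fun y hy => ?_⟩
    have h2 := hno y hy
    rw [notMem_compl_iff] at h2
    exact h2
  exact hyU (hx y hy)

/-- The condition on the image is preserved by limits. -/
theorem imDeg_closed {D : ℕ} {c : Fin d → Fin (m + 1) → ℂ} {f : ℂ → Fin d → Fin s → ℂ}
    {c' : ℕ → Fin d → Fin (m + 1) → ℂ} {g : ℕ → ℂ → Fin d → Fin s → ℂ}
    (hc : Tendsto c' atTop (𝓝 c)) (hg : ∀ x, Tendsto (fun k => g k x) atTop (𝓝 (f x)))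
    (h : ∀ k, ImDeg D (c' k) (g k)) : ImDeg D c f := by
  intro L
  have hL : Continuous L := L.continuous_of_finiteDimensional
  have hfin : FiniteDimensional ℂ (homogeneousSubmodule (Fin 3) ℂ D) := by
    have hle : homogeneousSubmodule (Fin 3) ℂ D ≤ restrictTotalDegree (Fin 3) ℂ D := fun Q hQ =>
      (mem_restrictTotalDegree _ _ _).2 (IsHomogeneous.totalDegree_le
        ((mem_homogeneousSubmodule _ _).1 hQ))
    exact Submodule.finiteDimensional_of_le hle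
  have h1 : ∀ z : {z : ℂ × ℂ // hv (cf c z.1) z.2 = 0}, ∃ y' : ℕ → ℂ,
      (∀ n, hv (cf (c' n) z.1.1) (y' n) = 0) ∧ Tendsto y' atTop (𝓝 z.1.2) := fun z =>
    root_seq (((cf_cont z.1.1).tendsto c).comp hc) z.2
  choose y' hy1 hy2 using h1
  obtain ⟨Q, hQV, hQ0, hQ⟩ := limit_sub (homogeneousSubmodule (Fin 3) ℂ D)
    (Y := {z : ℂ × ℂ // hv (cf c z.1) z.2 = 0})
    (x := fun k z => L (fv (g k z.1.1) (y' z k))) (x0 := fun z => L (fv (f z.1.1) z.1.2))
    (fun z => (hL.tendsto _).comp (fv_tendsto (hg z.1.1) (hy2 z))) (fun k => by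
      obtain ⟨Q, hQ0, hQh, hQ⟩ := h k L
      exact ⟨Q, (mem_homogeneousSubmodule _ _).2 hQh, hQ0, fun z => hQ _ _ (hy1 z k)⟩)
  exact ⟨Q, hQ0, (mem_homogeneousSubmodule _ _).1 hQV, fun x y hxy => hQ ⟨(x, y), hxy⟩⟩

theorem pe_diff (P : Fin d → Fin s → Polynomial ℂ) : Differentiable ℂ (pe P) := by
  refine differentiable_pi.2 fun j => differentiable_pi.2 fun k => ?_
  exact (P j k).differentiable

theorem pe_slow {φ : ℝ → ℝ} (hφ : Grows φ) (P : Fin d → Fin s → Polynomial ℂ) : Slow φ (pe P) := by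
  have h1 : SlowM φ (mv (p := 1) (σ := Fin d × Fin s) fun t =>
      (P t.1 t.2).eval₂ MvPolynomial.C (MvPolynomial.X 0)) := mv_slow hφ _
  intro R
  obtain ⟨r, hr, h⟩ := h1 R
  have hr0 : ∀ z : ℂ, ‖z‖ ≤ r → ‖(fun _ => z : Fin 1 → ℂ)‖ ≤ r := fun z hz =>
    (pi_norm_le_iff_of_nonneg ((norm_nonneg z).trans hz)).2 fun _ => hz
  refine ⟨r, hr, fun z hz => ?_⟩
  have h2 := h (fun _ => z) (hr0 z hz)
  have h3 : ∀ t : Fin d × Fin s, mv (p := 1) (σ := Fin d × Fin s) (fun t =>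
      (P t.1 t.2).eval₂ MvPolynomial.C (MvPolynomial.X 0)) (fun _ => z) t = pe P z t.1 t.2 := by
    intro t
    simp only [mv, pe]
    rw [Polynomial.hom_eval₂]
    have h4 : ((eval (fun _ : Fin 1 => z)).comp MvPolynomial.C : ℂ →+* ℂ) = RingHom.id ℂ := by
      ext a; simp
    rw [h4, eval_X]
    simp
  have h5 : ‖mv (p := 1) (σ := Fin d × Fin s) (fun t =>
      (P t.1 t.2).eval₂ MvPolynomial.C (MvPolynomial.X 0)) (fun _ => z)‖ = ‖pe P z‖ := by
    refine le_antisymm ?_ ?_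
    · refine (pi_norm_le_iff_of_nonneg (norm_nonneg _)).2 fun t => ?_
      rw [h3]
      exact (norm_le_pi_norm (pe P z t.1) t.2).trans (norm_le_pi_norm (pe P z) t.1)
    · refine (pi_norm_le_iff_of_nonneg (norm_nonneg _)).2 fun j => ?_
      refine (pi_norm_le_iff_of_nonneg (norm_nonneg _)).2 fun k => ?_
      rw [← h3 (j, k)]
      exact norm_le_pi_norm _ (j, k)
  rwa [h5] at h2

/-- **Degrees of images of curves, and holomorphic maps of slow growth.** -/
theorem imDeg_iff (F : ι → MvPolynomial (Fin s) ℂ) : ∃ φ : ℝ → ℝ, Grows φ ∧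
    ∀ (κ : Type) (G : κ → MvPolynomial (Fin s) ℂ) (d m D : ℕ),
      (∀ (c : Fin d → Fin (m + 1) → ℂ) (P : Fin d → Fin s → Polynomial ℂ),
        OnPlane F c (pe P) → OutPlane G c (pe P) → ImDeg D c (pe P)) ↔
      ∀ (c : Fin d → Fin (m + 1) → ℂ) (f : ℂ → Fin d → Fin s → ℂ), Differentiable ℂ f →
        Slow φ f → OnPlane F c f → OutPlane G c f → ImDeg D c f := by
  obtain ⟨φ, hφ, h⟩ := approx_uni F
  refine ⟨φ, hφ, fun κ G d m D => ⟨fun hD c f hf hs hF hout => ?_, fun hD c P hP hout =>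
    hD c (pe P) (pe_diff P) (pe_slow hφ P) hP hout⟩⟩
  obtain ⟨c', P, hP, hc, hlim⟩ := uni_seq (h d m c f hf hF hs)
  obtain ⟨N, hN⟩ := eventually_atTop.1 (outPlane_eventually hout hc hlim)
  have h2 : Tendsto (fun k : ℕ => N + k) atTop atTop :=
    tendsto_atTop_mono (fun k => Nat.le_add_left k N) tendsto_id
  exact imDeg_closed (hc.comp h2) (fun x => (hlim x).comp h2) fun k =>
    hD _ (P (N + k)) (hP _) (hN (N + k) (Nat.le_add_right _ _))

end Pool.Agent.R871.SG
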