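import Pool.Agent.R871.SG.UniC

/-!
Holomorphic maps of slow growth from the affine curves of a closed family.
-/

set_option autoImplicit false

namespace Pool.Agent.R871.SG

open Filter Topology Metric Set

variable {d m s : ℕ} {ι κ : Type}

/-- **Holomorphic maps of slow growth from the affine curves of a closed family are limits of algebraic
maps from affine curves of the family.** -/
theorem approx_fam (F : ι → MvPolynomial (Fin s) ℂ) (T : ∀ d m : ℕ, Set (Fin d → Fin (m + 1) → ℂ))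
    (hT : ∀ d m, IsClosed (T d m)) : ∃ φ : ℝ → ℝ, Grows φ ∧
    ∀ (d m : ℕ), ∀ c ∈ T d m, ∀ f : ℂ → Fin d → Fin s → ℂ, Differentiable ℂ f →
      (∀ x y, hv (cf c x) y = 0 → ∀ i, MvPolynomial.eval (fv (f x) y) (F i) = 0) → Slow φ f →
      ∀ ρ η : ℝ, 0 ≤ ρ → 0 < η → ∃ c' ∈ T d m, ∃ P : Fin d → Fin s → Polynomial ℂ,
        (∀ x y, hv (cf c' x) y = 0 → ∀ i, MvPolynomial.eval (fv (pe P x) y) (F i) = 0) ∧
        ‖c' - c‖ ≤ η ∧ ∀ x, ‖x‖ ≤ ρ → ‖pe P x - f x‖ ≤ η := by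
  set L : ∀ d m : ℕ, ℕ → Set ((Fin d → Fin (m + 1) → ℂ) × (Fin d → Fin s → ℂ)) :=
    fun d m k => {p | (k = 0 → p.1 ∈ T d m) ∧ (k ≠ 0 → p.1 = 0)} with hL
  set e : {x : ℂ // ‖x‖ ≤ 1} → ℕ → ℂ := fun t k => t.1 ^ k with he
  set Z : Set (Fin s → ℂ) := {v | ∀ i, MvPolynomial.eval v (F i) = 0} with hZ
  have hZc : IsClosed Z := by
    have : Z = ⋂ i, {x | MvPolynomial.eval x (F i) = 0} := by
      ext x; simp [hZ]
    rw [this]
    exact isClosed_iInter fun i => isClosed_eq (cont_ev (F i)) continuous_const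
  have hsum : Summable fun k : ℕ => (1 / 2 : ℝ) ^ k := summable_geometric_two
  have key : ∀ d m : ℕ, ∃ δ : ℕ → ℝ, (∀ D, 0 < δ D) ∧
      ∀ c : ℕ → (Fin d → Fin (m + 1) → ℂ) × (Fin d → Fin s → ℂ), (∀ j, c j ∈ L d m j) →
      (∀ t : {x : ℂ // ‖x‖ ≤ 1}, ∀ y, hv (cf (∑' j, e t j • c j).1 t.1) y = 0 →
        fv (∑' j, e t j • c j).2 y ∈ Z) → (∀ A : ℝ, 0 ≤ A → Summable fun j => A ^ j * ‖c j‖) →
      (∀ D₀, ∃ D ≥ D₀, ∀ j, D < j → 4 ^ j * ‖c j‖ ≤ δ D) → ∀ ρ η : ℝ, 0 ≤ ρ → 0 < η →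
      ∃ (c' : ℕ → (Fin d → Fin (m + 1) → ℂ) × (Fin d → Fin s → ℂ)) (D : ℕ),
        (∀ j, D < j → c' j = 0) ∧ (∀ j, c' j ∈ L d m j) ∧
        (∀ t : {x : ℂ // ‖x‖ ≤ 1}, ∀ y, hv (cf (∑' j, e t j • c' j).1 t.1) y = 0 →
          fv (∑' j, e t j • c' j).2 y ∈ Z) ∧ (Summable fun j => ρ ^ j * ‖c' j - c j‖) ∧
        ∑' j, ρ ^ j * ‖c' j - c j‖ ≤ η := by
    intro d m
    refine approx_gen (J := ℕ) (fun k => k) (fun D => Set.finite_le_nat D) hsum (L d m) (fun k => ?_)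
      e (fun t k => ?_) (fun t => {p | ∀ y, hv (cf p.1 t.1) y = 0 → fv p.2 y ∈ Z}) fun t => ?_
    · by_cases hk : k = 0
      · have : L d m k = Prod.fst ⁻¹' (T d m) := by
          ext p
          simp [hL, hk]
        rw [this]
        exact (hT d m).preimage continuous_fst
      · have : L d m k = Prod.fst ⁻¹' {0} := by
          ext p
          simp [hL, hk]
        rw [this]
        exact isClosed_singleton.preimage continuous_fst
    · rw [he]
      simp only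
      rw [norm_pow]
      exact (pow_le_one₀ (norm_nonneg _) t.2).trans (one_le_pow₀ (by norm_num))
    · exact (all_closed hZc).preimage (((cf_cont t.1).comp continuous_fst).prodMk continuous_snd)
  choose δ hδ hap using key
  obtain ⟨ε, hε, hεδ⟩ := min_delta δ hδ
  obtain ⟨φ, hφ, hgr⟩ := growth1 ε hε
  refine ⟨φ, hφ, fun d m c hcT f hf hfF hs ρ η hρ hη => ?_⟩
  set b : ℕ → (Fin d → Fin (m + 1) → ℂ) × (Fin d → Fin s → ℂ) := fun k =>
    (if k = 0 then c else 0, coef f 0 k) with hb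
  have hbn : ∀ k, ‖b k‖ ≤ (if k = 0 then ‖c‖ else 0) + ‖coef f 0 k‖ := by
    intro k
    rw [hb]
    simp only [Prod.norm_mk]
    by_cases hk : k = 0
    · simp only [hk, if_true]
      exact max_le (le_add_of_nonneg_right (norm_nonneg _)) (le_add_of_nonneg_left (norm_nonneg _))
    · simp [hk]
  have hbs : ∀ x : ℂ, HasSum (fun k => x ^ k • b k) (c, f x) := by
    intro x
    have h1 : HasSum (fun k : ℕ => x ^ k • (if k = 0 then c else 0)) c := by
      have h2 := hasSum_single (f := fun k : ℕ => x ^ k • (if k = 0 then c else 0)) 0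
        (fun k hk => by simp [hk])
      simpa using h2
    have h2 := ser_hasSumU hf 0 x
    rw [zero_add] at h2
    exact h1.prodMk h2
  obtain ⟨b', D, hb'0, hb'L, hb'C, hb's, hb'η⟩ := hap d m b (fun k => ⟨fun hk => by simpa [hb, hk] using hcT, fun hk => by simp [hb, hk]⟩)
    (fun t y hy => by
      have h1 : ∑' j, e t j • b j = (c, f t.1) := (hbs t.1).tsum_eq
      rw [h1] at hy ⊢
      exact hfF t.1 y hy)
    (fun A hA => by
      have h1 : Summable fun k : ℕ => A ^ k * (if k = 0 then ‖c‖ else 0) :=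
        summable_of_ne_finset_zero (s := {0}) fun k hk => by
          have : k ≠ 0 := by simpa using hk
          simp [this]
      refine Summable.of_nonneg_of_le (fun k => by positivity) (fun k => ?_)
        (h1.add (coef_summableU hf hA))
      rw [← mul_add]
      exact mul_le_mul_of_nonneg_left (hbn k) (by positivity))
    (fun D₀ => by
      obtain ⟨D, hD, h⟩ := hgr f hf hs 4 (max D₀ (max d m)) (by norm_num)
      refine ⟨D, (le_max_left _ _).trans hD, fun j hj => ?_⟩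
      have hj0 : j ≠ 0 := by omega
      have h1 : ‖b j‖ ≤ ‖coef f 0 j‖ := by
        have := hbn j
        rwa [if_neg hj0, zero_add] at this
      have h2 : ε D ≤ δ d m D := hεδ d m D
        (((le_max_left _ _).trans (le_max_right _ _)).trans hD)
        (((le_max_right _ _).trans (le_max_right _ _)).trans hD)
      exact ((mul_le_mul_of_nonneg_left h1 (by positivity)).trans (h j hj)).trans h2) ρ η hρ hη
  set P : Fin d → Fin s → Polynomial ℂ := fun j l =>
    ∑ k ∈ Finset.range (D + 1), Polynomial.C ((b' k).2 j l) * Polynomial.X ^ k with hP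
  have hPe : ∀ x, pe P x = ∑ k ∈ Finset.range (D + 1), x ^ k • (b' k).2 := by
    intro x
    funext j l
    simp only [pe, hP, Polynomial.eval_finsetSum, Polynomial.eval_mul, Polynomial.eval_C,
      Polynomial.eval_pow, Polynomial.eval_X, Finset.sum_apply, Pi.smul_apply, smul_eq_mul]
    exact Finset.sum_congr rfl fun k _ => mul_comm _ _
  have hb's' : ∀ x : ℂ, HasSum (fun k => x ^ k • b' k) ((b' 0).1, pe P x) := by
    intro x
    have h1 : HasSum (fun k => x ^ k • b' k) (∑ k ∈ Finset.range (D + 1), x ^ k • b' k) :=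
      hasSum_sum_of_ne_finset_zero fun k hk => by
        rw [hb'0 k (by simpa using hk), smul_zero]
    have h2 : ∑ k ∈ Finset.range (D + 1), x ^ k • b' k = ((b' 0).1, pe P x) := by
      refine Prod.ext ?_ ?_
      · rw [Prod.fst_sum, Finset.sum_eq_single 0]
        · simp
        · intro k _ hk
          rw [Prod.smul_fst, (hb'L k).2 hk, smul_zero]
        · intro h; simp at h
      · rw [Prod.snd_sum, hPe]
        rfl
    rwa [h2] at h1
  refine ⟨(b' 0).1, (hb'L 0).1 rfl, P, ?_, ?_, fun x hx => ?_⟩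
  · have h1 : ∀ x, ‖x‖ < 1 → ∀ y, hv (cf (b' 0).1 x) y = 0 → fv (pe P x) y ∈ Z := by
      intro x hx y hy
      have h2 := hb'C ⟨x, hx.le⟩ y
      have h3 : ∑' j, e ⟨x, hx.le⟩ j • b' j = ((b' 0).1, pe P x) := (hb's' x).tsum_eq
      rw [h3] at h2
      exact h2 hy
    intro x y hy i
    exact ext_all (b' 0).1 P (F i) (fun x hx y hy => h1 x hx y hy i) x y hy
  · have h1 : ‖(b' 0).1 - c‖ ≤ ‖b' 0 - b 0‖ := by
      have h2 : (b' 0 - b 0).1 = (b' 0).1 - c := by simp [hb]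
      rw [← h2]
      exact norm_fst_le _
    have h2 : ρ ^ 0 * ‖b' 0 - b 0‖ ≤ ∑' j, ρ ^ j * ‖b' j - b j‖ :=
      hb's.le_tsum 0 fun j _ => by positivity
    rw [pow_zero, one_mul] at h2
    exact (h1.trans h2).trans hb'η
  · have h1 := (hb's' x).sub (hbs x)
    have hdif : ∀ k, ‖x ^ k • b' k - x ^ k • b k‖ ≤ ρ ^ k * ‖b' k - b k‖ := by
      intro k
      rw [← smul_sub, norm_smul, norm_pow]
      gcongr
    have h2 : ‖(((b' 0).1, pe P x) : (Fin d → Fin (m + 1) → ℂ) × (Fin d → Fin s → ℂ)) - (c, f x)‖ ≤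
        η := (h1.tsum_eq ▸ tsum_of_norm_bounded hb's.hasSum hdif).trans hb'η
    exact (norm_snd_le _).trans h2

/-- Approximating sequences. -/
theorem fam_seq {F : ι → MvPolynomial (Fin s) ℂ} {T : Set (Fin d → Fin (m + 1) → ℂ)}
    {c : Fin d → Fin (m + 1) → ℂ} {f : ℂ → Fin d → Fin s → ℂ}
    (h : ∀ ρ η : ℝ, 0 ≤ ρ → 0 < η → ∃ c' ∈ T, ∃ P : Fin d → Fin s → Polynomial ℂ,
        (∀ x y, hv (cf c' x) y = 0 → ∀ i, MvPolynomial.eval (fv (pe P x) y) (F i) = 0) ∧
        ‖c' - c‖ ≤ η ∧ ∀ x, ‖x‖ ≤ ρ → ‖pe P x - f x‖ ≤ η) :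
    ∃ (c' : ℕ → Fin d → Fin (m + 1) → ℂ) (P : ℕ → Fin d → Fin s → Polynomial ℂ),
      (∀ k, c' k ∈ T) ∧ (∀ k, OnPlane F (c' k) (pe (P k))) ∧ Tendsto c' atTop (𝓝 c) ∧
      ∀ x, Tendsto (fun k => pe (P k) x) atTop (𝓝 (f x)) := by
  choose c' h0 P h1 h2 h3 using fun k : ℕ => h k (1 / ((k : ℝ) + 1)) k.cast_nonneg (by positivity)
  refine ⟨c', P, h0, h1, ?_, fun x => ?_⟩
  · rw [tendsto_iff_norm_sub_tendsto_zero]
    exact squeeze_zero (fun k => norm_nonneg _) h2 tendsto_one_div_add_atTop_nhds_zero_nat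
  · rw [tendsto_iff_norm_sub_tendsto_zero]
    refine squeeze_zero' (Eventually.of_forall fun k => norm_nonneg _) ?_
      tendsto_one_div_add_atTop_nhds_zero_nat
    obtain ⟨N, hN⟩ := exists_nat_ge ‖x‖
    filter_upwards [eventually_ge_atTop N] with k hk
    exact h3 k x (hN.trans (by exact_mod_cast hk))

/-- The map to the projective space is not constant on the plane curve: at two of its points, where the
homogeneous coordinates do not all vanish, the values are different. -/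
def NonConstPlane (c : Fin d → Fin (m + 1) → ℂ) (f : ℂ → Fin d → Fin s → ℂ) : Prop :=
  ∃ x y x' y', hv (cf c x) y = 0 ∧ hv (cf c x') y' = 0 ∧ ∃ i j,
    fv (f x) y i * fv (f x') y' j ≠ fv (f x) y j * fv (f x') y' i

/-- The plane curve is mapped to `{G = 0}`. -/
def InZ (G : κ → MvPolynomial (Fin s) ℂ) (c : Fin d → Fin (m + 1) → ℂ)
    (f : ℂ → Fin d → Fin s → ℂ) : Prop :=
  ∀ x y, hv (cf c x) y = 0 → ∀ k, MvPolynomial.eval (fv (f x) y) (G k) = 0

theorem nonConst_eventually {c : Fin d → Fin (m + 1) → ℂ} {f : ℂ → Fin d → Fin s → ℂ}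
    (hnc : NonConstPlane c f) {c' : ℕ → Fin d → Fin (m + 1) → ℂ} {g : ℕ → ℂ → Fin d → Fin s → ℂ}
    (hc : Tendsto c' atTop (𝓝 c)) (hg : ∀ x, Tendsto (fun k => g k x) atTop (𝓝 (f x))) :
    ∀ᶠ k in atTop, NonConstPlane (c' k) (g k) := by
  obtain ⟨x, y, x', y', hy, hy', i, j, hij⟩ := hnc
  obtain ⟨u, hu1, hu2⟩ := root_seq (((cf_cont x).tendsto c).comp hc) hy
  obtain ⟨u', hu1', hu2'⟩ := root_seq (((cf_cont x').tendsto c).comp hc) hy'
  have h1 := tendsto_pi_nhds.1 (fv_tendsto (hg x) hu2)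
  have h2 := tendsto_pi_nhds.1 (fv_tendsto (hg x') hu2')
  have h3 := ((h1 i).mul (h2 j)).sub ((h1 j).mul (h2 i))
  filter_upwards [h3.eventually_ne (sub_ne_zero.2 hij)] with k hk
  exact ⟨x, u k, x', u' k, hu1 k, hu1' k, i, j, sub_ne_zero.1 hk⟩

theorem notInZ_eventually {G : κ → MvPolynomial (Fin s) ℂ} {c : Fin d → Fin (m + 1) → ℂ}
    {f : ℂ → Fin d → Fin s → ℂ} (hZ : ¬ InZ G c f) {c' : ℕ → Fin d → Fin (m + 1) → ℂ}
    {g : ℕ → ℂ → Fin d → Fin s → ℂ} (hc : Tendsto c' atTop (𝓝 c))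
    (hg : ∀ x, Tendsto (fun k => g k x) atTop (𝓝 (f x))) :
    ∀ᶠ k in atTop, ¬ InZ G (c' k) (g k) := by
  unfold InZ at hZ
  push Not at hZ
  obtain ⟨x, y, hy, k0, hk0⟩ := hZ
  obtain ⟨u, hu1, hu2⟩ := root_seq (((cf_cont x).tendsto c).comp hc) hy
  have h1 : Tendsto (fun k => MvPolynomial.eval (fv (g k x) (u k)) (G k0)) atTop
      (𝓝 (MvPolynomial.eval (fv (f x) y) (G k0))) :=
    ((cont_ev (G k0)).tendsto _).comp (fv_tendsto (hg x) hu2)
  filter_upwards [h1.eventually_ne hk0] with k hk hin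
  exact hk (hin x (u k) (hu1 k) k0)

/-- **Maps from the affine curves of a closed family, and holomorphic maps of slow growth.** -/
theorem fam_iff (F : ι → MvPolynomial (Fin s) ℂ) (T : ∀ d m : ℕ, Set (Fin d → Fin (m + 1) → ℂ))
    (hT : ∀ d m, IsClosed (T d m)) : ∃ φ : ℝ → ℝ, Grows φ ∧
    ∀ (κ : Type) (G : κ → MvPolynomial (Fin s) ℂ) (d m : ℕ),
      (∀ c ∈ T d m, ∀ P : Fin d → Fin s → Polynomial ℂ, OnPlane F c (pe P) →
        NonConstPlane c (pe P) → InZ G c (pe P)) ↔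
      ∀ c ∈ T d m, ∀ f : ℂ → Fin d → Fin s → ℂ, Differentiable ℂ f → Slow φ f → OnPlane F c f →
        NonConstPlane c f → InZ G c f := by
  obtain ⟨φ, hφ, h⟩ := approx_fam F T hT
  refine ⟨φ, hφ, fun κ G d m => ⟨fun hD c hc f hf hs hF hnc => ?_, fun hD c hc P hP hnc =>
    hD c hc (pe P) (pe_diff P) (pe_slow hφ P) hP hnc⟩⟩
  obtain ⟨c', P, hT', hP, hcl, hlim⟩ := fam_seq (h d m c hc f hf hF hs)
  by_contra hno
  obtain ⟨k, h1, h2⟩ := ((nonConst_eventually hnc hcl hlim).and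
    (notInZ_eventually hno hcl hlim)).exists
  exact h2 (hD (c' k) (hT' k) (P k) (hP k) h1)

end Pool.Agent.R871.SG
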