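import Pool.Agent.R871.SG.UniD

/-!
Maps of bounded degree from all affine curves, and holomorphic maps of slow growth.
-/

set_option autoImplicit false

namespace Pool.Agent.R871.SG

open Filter Topology Metric Set MvPolynomial

variable {d m s : ℕ} {ι κ : Type}

/-- For every linear map `L = (u, v)` to the plane, the function `u / v` satisfies on the plane curve
with the coefficients `c` an algebraic equation over the rational functions of `x`, of degree `d` and
with polynomials of degree at most `D` in `x` as coefficients: `∑ i, x ^ i * R i (u, v) = 0`, `i ≤ D`,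
`R i` homogeneous of degree `d`, not all zero. -/
def RelDeg (D : ℕ) (c : Fin d → Fin (m + 1) → ℂ) (f : ℂ → Fin d → Fin s → ℂ) : Prop :=
  ∀ L : (Fin s → ℂ) →ₗ[ℂ] (Fin 2 → ℂ), ∃ R : Fin (D + 1) → MvPolynomial (Fin 2) ℂ, R ≠ 0 ∧
    (∀ i, (R i).IsHomogeneous d) ∧
    ∀ x y, hv (cf c x) y = 0 → ∑ i : Fin (D + 1), x ^ (i : ℕ) * eval (L (fv (f x) y)) (R i) = 0

/-- The condition on the degree is preserved by limits. -/
theorem relDeg_closed {D : ℕ} {c : Fin d → Fin (m + 1) → ℂ} {f : ℂ → Fin d → Fin s → ℂ}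
    {c' : ℕ → Fin d → Fin (m + 1) → ℂ} {g : ℕ → ℂ → Fin d → Fin s → ℂ}
    (hc : Tendsto c' atTop (𝓝 c)) (hg : ∀ x, Tendsto (fun k => g k x) atTop (𝓝 (f x)))
    (h : ∀ k, RelDeg D (c' k) (g k)) : RelDeg D c f := by
  intro L
  have hL : Continuous L := L.continuous_of_finiteDimensional
  let V := homogeneousSubmodule (Fin 2) ℂ d
  have hfin : FiniteDimensional ℂ V := by
    have hle : homogeneousSubmodule (Fin 2) ℂ d ≤ restrictTotalDegree (Fin 2) ℂ d := fun Q hQ =>
      (mem_restrictTotalDegree _ _ _).2 (IsHomogeneous.totalDegree_le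
        ((mem_homogeneousSubmodule _ _).1 hQ))
    exact Submodule.finiteDimensional_of_le hle
  let bs := Module.finBasis ℂ V
  have hval : ∀ (Q : V) (v : Fin 2 → ℂ), eval v Q.1 = ∑ i, bs.equivFun Q i * eval v (bs i).1 := by
    intro Q v
    have h1 := congrArg V.subtype (bs.sum_equivFun Q)
    rw [map_sum] at h1
    have h2 : Q.1 = ∑ i, bs.equivFun Q i • (bs i).1 :=
      h1.symm.trans (Finset.sum_congr rfl fun i _ => by rw [map_smul]; rfl)
    refine (congrArg (eval v) h2).trans ?_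
    rw [map_sum]
    exact Finset.sum_congr rfl fun i _ => smul_eval _ _ _
  have h1 : ∀ z : {z : ℂ × ℂ // hv (cf c z.1) z.2 = 0}, ∃ y' : ℕ → ℂ,
      (∀ n, hv (cf (c' n) z.1.1) (y' n) = 0) ∧ Tendsto y' atTop (𝓝 z.1.2) := fun z =>
    root_seq (((cf_cont z.1.1).tendsto c).comp hc) z.2
  choose y' hy1 hy2 using h1
  let A := Fin (D + 1) × Fin (Module.finrank ℂ V)
  have hsum : ∀ (r : A → ℂ) (x : ℂ) (w : Fin 2 → ℂ),
      ∑ a : A, r a * (x ^ (a.1 : ℕ) * eval w (bs a.2).1) =
        ∑ i : Fin (D + 1), x ^ (i : ℕ) * ∑ l, r (i, l) * eval w (bs l).1 := by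
    intro r x w
    rw [Fintype.sum_prod_type]
    refine Finset.sum_congr rfl fun i _ => ?_
    rw [Finset.mul_sum]
    exact Finset.sum_congr rfl fun l _ => by ring
  obtain ⟨r, hr0, hr⟩ := limit_lin (Y := {z : ℂ × ℂ // hv (cf c z.1) z.2 = 0}) (A := A)
    (v := fun k z a => z.1.1 ^ (a.1 : ℕ) * eval (L (fv (g k z.1.1) (y' z k))) (bs a.2).1)
    (v0 := fun z a => z.1.1 ^ (a.1 : ℕ) * eval (L (fv (f z.1.1) z.1.2)) (bs a.2).1)
    (fun z => tendsto_pi_nhds.2 fun a => Tendsto.const_mul _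
      (((cont_ev (bs a.2).1).tendsto _).comp ((hL.tendsto _).comp
        (fv_tendsto (hg z.1.1) (hy2 z))))) (fun k => by
      obtain ⟨R, hR0, hRh, hR⟩ := h k L
      refine ⟨fun a => bs.equivFun ⟨R a.1, (mem_homogeneousSubmodule _ _).2 (hRh a.1)⟩ a.2,
        fun h0 => hR0 ?_, fun z => ?_⟩
      · funext i
        have h2 : bs.equivFun ⟨R i, (mem_homogeneousSubmodule _ _).2 (hRh i)⟩ = 0 :=
          funext fun l => congrFun h0 (i, l)
        have h3 := (LinearEquiv.map_eq_zero_iff bs.equivFun).1 h2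
        exact congrArg Subtype.val h3
      · rw [hsum]
        refine (Finset.sum_congr rfl fun i _ => ?_).trans (hR _ _ (hy1 z k))
        rw [← hval ⟨R i, (mem_homogeneousSubmodule _ _).2 (hRh i)⟩])
  refine ⟨fun i => (bs.equivFun.symm fun l => r (i, l)).1, fun h0 => hr0 ?_, fun i =>
    (mem_homogeneousSubmodule _ _).1 (bs.equivFun.symm fun l => r (i, l)).2, fun x y hxy => ?_⟩
  · funext a
    have h2 : bs.equivFun.symm (fun l => r (a.1, l)) = 0 := Subtype.ext (congrFun h0 a.1)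
    exact congrFun ((LinearEquiv.map_eq_zero_iff _).1 h2) a.2
  · have h2 := hr ⟨(x, y), hxy⟩
    rw [hsum] at h2
    refine (Finset.sum_congr rfl fun i _ => ?_).trans h2
    rw [hval, LinearEquiv.apply_symm_apply]

/-- **Maps of bounded degree from the curves of a closed family, and holomorphic maps of slow
growth.** -/
theorem relDeg_iff (F : ι → MvPolynomial (Fin s) ℂ) (T : ∀ d m : ℕ, Set (Fin d → Fin (m + 1) → ℂ))
    (hT : ∀ d m, IsClosed (T d m)) : ∃ φ : ℝ → ℝ, Grows φ ∧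
    ∀ (κ : Type) (G : κ → MvPolynomial (Fin s) ℂ) (d m D : ℕ),
      (∀ c ∈ T d m, ∀ P : Fin d → Fin s → Polynomial ℂ, OnPlane F c (pe P) →
        OutPlane G c (pe P) → RelDeg D c (pe P)) ↔
      ∀ c ∈ T d m, ∀ f : ℂ → Fin d → Fin s → ℂ, Differentiable ℂ f → Slow φ f → OnPlane F c f →
        OutPlane G c f → RelDeg D c f := by
  obtain ⟨φ, hφ, h⟩ := approx_fam F T hT
  refine ⟨φ, hφ, fun κ G d m D => ⟨fun hD c hcT f hf hs hF hout => ?_, fun hD c hcT P hP hout =>
    hD c hcT (pe P) (pe_diff P) (pe_slow hφ P) hP hout⟩⟩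
  obtain ⟨c', P, hT', hP, hc, hlim⟩ := fam_seq (h d m c hcT f hf hF hs)
  obtain ⟨N, hN⟩ := eventually_atTop.1 (outPlane_eventually hout hc hlim)
  have h2 : Tendsto (fun k : ℕ => N + k) atTop atTop :=
    tendsto_atTop_mono (fun k => Nat.le_add_left k N) tendsto_id
  exact relDeg_closed (hc.comp h2) (fun x => (hlim x).comp h2) fun k =>
    hD _ (hT' _) (P (N + k)) (hP _) (hN (N + k) (Nat.le_add_right _ _))

end Pool.Agent.R871.SG
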