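import Pool.Agent.R871.SG.UniE

/-!
Holomorphic multisections of slow growth of a family of varieties over the affine line.
-/

set_option autoImplicit false

namespace Pool.Agent.R871.SG

open Filter Topology Metric Set

variable {d m s : ℕ} {ι κ : Type}

/-- Equations which hold over a disc hold everywhere. -/
theorem ext_multi (c : Fin d → Fin (m + 1) → ℂ) (P : Fin d → Fin s → Polynomial ℂ)
    (F : MvPolynomial (Fin 1 ⊕ Fin s) ℂ)
    (h : ∀ x, ‖x‖ < 1 → ∀ y, hv (cf c x) y = 0 → MvPolynomial.eval (Sum.elim (fun _ => x) (fv (pe P x) y)) F = 0) (x y : ℂ)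
    (hxy : hv (cf c x) y = 0) : MvPolynomial.eval (Sum.elim (fun _ => x) (fv (pe P x) y)) F = 0 := by
  set cp : Fin d → Polynomial ℂ := fun j =>
    ∑ i : Fin (m + 1), Polynomial.C (c j i) * Polynomial.X ^ (i : ℕ) with hcp
  set W : Polynomial (Polynomial ℂ) := MvPolynomial.eval₂
    (Polynomial.C.comp Polynomial.C) (Sum.elim (fun _ => Polynomial.C Polynomial.X)
      (fun k => ∑ j : Fin d, Polynomial.C (P j k) * Polynomial.X ^ (j : ℕ))) F with hW
  have hcpx : ∀ x j, (cp j).eval x = cf c x j := by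
    intro x j
    simp [hcp, cf, Polynomial.eval_finsetSum]
  have hH : ∀ x, (hp cp).map (Polynomial.evalRingHom x) = hp (cf c x) := by
    intro x
    simp only [hp, Polynomial.map_add, Polynomial.map_pow, Polynomial.map_X, Polynomial.map_sum,
      Polynomial.map_mul, Polynomial.map_C, Polynomial.coe_evalRingHom, hcpx]
  have hWxy : ∀ x y, (W.map (Polynomial.evalRingHom x)).eval y =
      MvPolynomial.eval (Sum.elim (fun _ => x) (fv (pe P x) y)) F := by
    intro x y
    set θ : Polynomial (Polynomial ℂ) →+* ℂ :=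
      (Polynomial.evalRingHom y).comp (Polynomial.mapRingHom (Polynomial.evalRingHom x)) with hθ
    have h1 : (W.map (Polynomial.evalRingHom x)).eval y = θ W := rfl
    rw [h1, hW, MvPolynomial.eval₂_comp_left]
    have h2 : θ.comp (Polynomial.C.comp Polynomial.C) = RingHom.id ℂ := by
      ext a
      simp [hθ]
    have h3 : (θ ∘ (Sum.elim (fun _ => Polynomial.C Polynomial.X)
        (fun k => ∑ j : Fin d, Polynomial.C (P j k) * Polynomial.X ^ (j : ℕ)) :
          Fin 1 ⊕ Fin s → Polynomial (Polynomial ℂ))) = Sum.elim (fun _ => x) (fv (pe P x) y) := by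
      funext k
      rcases k with k | k
      · simp only [Function.comp_apply, Sum.elim_inl, hθ, RingHom.comp_apply,
          Polynomial.coe_mapRingHom, Polynomial.map_C, Polynomial.coe_evalRingHom,
          Polynomial.eval_C, Polynomial.eval_X]
      · simp only [Function.comp_apply, Sum.elim_inr, map_sum, map_mul, map_pow, hθ,
          RingHom.comp_apply, Polynomial.coe_mapRingHom, Polynomial.map_C, Polynomial.map_X,
          Polynomial.coe_evalRingHom, Polynomial.eval_C, Polynomial.eval_X, fv, pe,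
          Finset.sum_apply, Pi.smul_apply, smul_eq_mul]
        exact Finset.sum_congr rfl fun j _ => mul_comm _ _
    rw [h2, h3]
    rfl
  have hR : W ^ d %ₘ hp cp = 0 := by
    ext k : 1
    rw [Polynomial.coeff_zero]
    refine Polynomial.funext fun x => ?_
    rw [Polynomial.eval_zero]
    refine zero_ball (h := fun x => ((W ^ d %ₘ hp cp).coeff k).eval x)
      (Polynomial.differentiable _) (w := 0) (r := 1) one_pos (fun x hx => ?_) x
    rw [sub_zero] at hx
    have h1 : (W ^ d %ₘ hp cp).map (Polynomial.evalRingHom x) = 0 := by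
      rw [Polynomial.map_modByMonic _ (hp_monic cp), hH, Polynomial.map_pow,
        (Polynomial.modByMonic_eq_zero_iff_dvd (hp_monic _))]
      have h2 := dvd_pow_of_roots (p := hp (cf c x)) (u := W.map (Polynomial.evalRingHom x))
        (hp_monic _) (fun y hy => by
          rw [hWxy]
          rw [hp_eval] at hy
          exact h x hx y hy)
      rwa [hp_natDegree] at h2
    have h3 := congrArg (fun q => Polynomial.coeff q k) h1
    simpa [Polynomial.coeff_map] using h3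
  have hdvd : hp cp ∣ W ^ d := (Polynomial.modByMonic_eq_zero_iff_dvd (hp_monic cp)).1 hR
  obtain ⟨V, hV⟩ := hdvd
  have h1 := congrArg (fun q => (q.map (Polynomial.evalRingHom x)).eval y) hV
  simp only [Polynomial.map_pow, Polynomial.map_mul, Polynomial.eval_pow, Polynomial.eval_mul,
    hWxy, hH, hp_eval, hxy, zero_mul] at h1
  exact (pow_eq_zero_iff (hv_zero_pos hxy)).1 h1

/-- **Holomorphic maps of slow growth from the affine curves of a closed family are limits of algebraic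
maps from affine curves of the family.** -/
theorem approx_multi (F : ι → MvPolynomial (Fin 1 ⊕ Fin s) ℂ) 
    (T : ∀ d m : ℕ, Set (Fin d → Fin (m + 1) → ℂ))
    (hT : ∀ d m, IsClosed (T d m)) : ∃ φ : ℝ → ℝ, Grows φ ∧
    ∀ (d m : ℕ), ∀ c ∈ T d m, ∀ f : ℂ → Fin d → Fin s → ℂ, Differentiable ℂ f →
      (∀ x y, hv (cf c x) y = 0 → ∀ i, MvPolynomial.eval (Sum.elim (fun _ => x) (fv (f x) y)) (F i) = 0) → Slow φ f →
      ∀ ρ η : ℝ, 0 ≤ ρ → 0 < η → ∃ c' ∈ T d m, ∃ P : Fin d → Fin s → Polynomial ℂ,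
        (∀ x y, hv (cf c' x) y = 0 → ∀ i, MvPolynomial.eval (Sum.elim (fun _ => x) (fv (pe P x) y)) (F i) = 0) ∧
        ‖c' - c‖ ≤ η ∧ ∀ x, ‖x‖ ≤ ρ → ‖pe P x - f x‖ ≤ η := by
  set L : ∀ d m : ℕ, ℕ → Set ((Fin d → Fin (m + 1) → ℂ) × (Fin d → Fin s → ℂ)) :=
    fun d m k => {p | (k = 0 → p.1 ∈ T d m) ∧ (k ≠ 0 → p.1 = 0)} with hL
  set e : {x : ℂ // ‖x‖ ≤ 1} → ℕ → ℂ := fun t k => t.1 ^ k with he
  set Z : ℂ → Set (Fin s → ℂ) := fun x =>
    {v | ∀ i, MvPolynomial.eval (Sum.elim (fun _ => x) v) (F i) = 0} with hZ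
  have hZc : ∀ x, IsClosed (Z x) := by
    intro x
    have : Z x = ⋂ i, {v | MvPolynomial.eval (Sum.elim (fun _ => x) v) (F i) = 0} := by
      ext v; simp [hZ]
    rw [this]
    exact isClosed_iInter fun i => isClosed_eq (cont_sec (F i) _) continuous_const
  have hsum : Summable fun k : ℕ => (1 / 2 : ℝ) ^ k := summable_geometric_two
  have key : ∀ d m : ℕ, ∃ δ : ℕ → ℝ, (∀ D, 0 < δ D) ∧
      ∀ c : ℕ → (Fin d → Fin (m + 1) → ℂ) × (Fin d → Fin s → ℂ), (∀ j, c j ∈ L d m j) →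
      (∀ t : {x : ℂ // ‖x‖ ≤ 1}, ∀ y, hv (cf (∑' j, e t j • c j).1 t.1) y = 0 →
        fv (∑' j, e t j • c j).2 y ∈ Z t.1) → (∀ A : ℝ, 0 ≤ A → Summable fun j => A ^ j * ‖c j‖) →
      (∀ D₀, ∃ D ≥ D₀, ∀ j, D < j → 4 ^ j * ‖c j‖ ≤ δ D) → ∀ ρ η : ℝ, 0 ≤ ρ → 0 < η →
      ∃ (c' : ℕ → (Fin d → Fin (m + 1) → ℂ) × (Fin d → Fin s → ℂ)) (D : ℕ),
        (∀ j, D < j → c' j = 0) ∧ (∀ j, c' j ∈ L d m j) ∧
        (∀ t : {x : ℂ // ‖x‖ ≤ 1}, ∀ y, hv (cf (∑' j, e t j • c' j).1 t.1) y = 0 →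
          fv (∑' j, e t j • c' j).2 y ∈ Z t.1) ∧ (Summable fun j => ρ ^ j * ‖c' j - c j‖) ∧
        ∑' j, ρ ^ j * ‖c' j - c j‖ ≤ η := by
    intro d m
    refine approx_gen (J := ℕ) (fun k => k) (fun D => Set.finite_le_nat D) hsum (L d m) (fun k => ?_)
      e (fun t k => ?_) (fun t => {p | ∀ y, hv (cf p.1 t.1) y = 0 → fv p.2 y ∈ Z t.1}) fun t => ?_
    · by_cases hk : k = 0
      · have : L d m k = Prod.fst ⁻¹' (T d m) := by
          ext p
          simp [hL, hk]
        rw [this]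
        exact (hT d m).preimage continuous_fst
      · have : L d m k = Prod.fst ⁻¹' {0} := by
          ext p
          simp [hL, hk]
        rw [this]
        exact isClosed_singleton.preimage continuous_fst
    · rw [he]
      simp only
      rw [norm_pow]
      exact (pow_le_one₀ (norm_nonneg _) t.2).trans (one_le_pow₀ (by norm_num))
    · exact (all_closed (hZc t.1)).preimage (((cf_cont t.1).comp continuous_fst).prodMk continuous_snd)
  choose δ hδ hap using key
  obtain ⟨ε, hε, hεδ⟩ := min_delta δ hδ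
  obtain ⟨φ, hφ, hgr⟩ := growth1 ε hε
  refine ⟨φ, hφ, fun d m c hcT f hf hfF hs ρ η hρ hη => ?_⟩
  set b : ℕ → (Fin d → Fin (m + 1) → ℂ) × (Fin d → Fin s → ℂ) := fun k =>
    (if k = 0 then c else 0, coef f 0 k) with hb
  have hbn : ∀ k, ‖b k‖ ≤ (if k = 0 then ‖c‖ else 0) + ‖coef f 0 k‖ := by
    intro k
    rw [hb]
    simp only [Prod.norm_mk]
    by_cases hk : k = 0
    · simp only [hk, if_true]
      exact max_le (le_add_of_nonneg_right (norm_nonneg _)) (le_add_of_nonneg_left (norm_nonneg _))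
    · simp [hk]
  have hbs : ∀ x : ℂ, HasSum (fun k => x ^ k • b k) (c, f x) := by
    intro x
    have h1 : HasSum (fun k : ℕ => x ^ k • (if k = 0 then c else 0)) c := by
      have h2 := hasSum_single (f := fun k : ℕ => x ^ k • (if k = 0 then c else 0)) 0
        (fun k hk => by simp [hk])
      simpa using h2
    have h2 := ser_hasSumU hf 0 x
    rw [zero_add] at h2
    exact h1.prodMk h2
  obtain ⟨b', D, hb'0, hb'L, hb'C, hb's, hb'η⟩ := hap d m b (fun k => ⟨fun hk => by simpa [hb, hk] using hcT, fun hk => by simp [hb, hk]⟩)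
    (fun t y hy => by
      have h1 : ∑' j, e t j • b j = (c, f t.1) := (hbs t.1).tsum_eq
      rw [h1] at hy ⊢
      exact hfF t.1 y hy)
    (fun A hA => by
      have h1 : Summable fun k : ℕ => A ^ k * (if k = 0 then ‖c‖ else 0) :=
        summable_of_ne_finset_zero (s := {0}) fun k hk => by
          have : k ≠ 0 := by simpa using hk
          simp [this]
      refine Summable.of_nonneg_of_le (fun k => by positivity) (fun k => ?_)
        (h1.add (coef_summableU hf hA))
      rw [← mul_add]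
      exact mul_le_mul_of_nonneg_left (hbn k) (by positivity))
    (fun D₀ => by
      obtain ⟨D, hD, h⟩ := hgr f hf hs 4 (max D₀ (max d m)) (by norm_num)
      refine ⟨D, (le_max_left _ _).trans hD, fun j hj => ?_⟩
      have hj0 : j ≠ 0 := by omega
      have h1 : ‖b j‖ ≤ ‖coef f 0 j‖ := by
        have := hbn j
        rwa [if_neg hj0, zero_add] at this
      have h2 : ε D ≤ δ d m D := hεδ d m D
        (((le_max_left _ _).trans (le_max_right _ _)).trans hD)
        (((le_max_right _ _).trans (le_max_right _ _)).trans hD)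
      exact ((mul_le_mul_of_nonneg_left h1 (by positivity)).trans (h j hj)).trans h2) ρ η hρ hη
  set P : Fin d → Fin s → Polynomial ℂ := fun j l =>
    ∑ k ∈ Finset.range (D + 1), Polynomial.C ((b' k).2 j l) * Polynomial.X ^ k with hP
  have hPe : ∀ x, pe P x = ∑ k ∈ Finset.range (D + 1), x ^ k • (b' k).2 := by
    intro x
    funext j l
    simp only [pe, hP, Polynomial.eval_finsetSum, Polynomial.eval_mul, Polynomial.eval_C,
      Polynomial.eval_pow, Polynomial.eval_X, Finset.sum_apply, Pi.smul_apply, smul_eq_mul]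
    exact Finset.sum_congr rfl fun k _ => mul_comm _ _
  have hb's' : ∀ x : ℂ, HasSum (fun k => x ^ k • b' k) ((b' 0).1, pe P x) := by
    intro x
    have h1 : HasSum (fun k => x ^ k • b' k) (∑ k ∈ Finset.range (D + 1), x ^ k • b' k) :=
      hasSum_sum_of_ne_finset_zero fun k hk => by
        rw [hb'0 k (by simpa using hk), smul_zero]
    have h2 : ∑ k ∈ Finset.range (D + 1), x ^ k • b' k = ((b' 0).1, pe P x) := by
      refine Prod.ext ?_ ?_
      · rw [Prod.fst_sum, Finset.sum_eq_single 0]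
        · simp
        · intro k _ hk
          rw [Prod.smul_fst, (hb'L k).2 hk, smul_zero]
        · intro h; simp at h
      · rw [Prod.snd_sum, hPe]
        rfl
    rwa [h2] at h1
  refine ⟨(b' 0).1, (hb'L 0).1 rfl, P, ?_, ?_, fun x hx => ?_⟩
  · have h1 : ∀ x, ‖x‖ < 1 → ∀ y, hv (cf (b' 0).1 x) y = 0 → fv (pe P x) y ∈ Z x := by
      intro x hx y hy
      have h2 := hb'C ⟨x, hx.le⟩ y
      have h3 : ∑' j, e ⟨x, hx.le⟩ j • b' j = ((b' 0).1, pe P x) := (hb's' x).tsum_eq
      rw [h3] at h2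
      exact h2 hy
    intro x y hy i
    exact ext_multi (b' 0).1 P (F i) (fun x hx y hy => h1 x hx y hy i) x y hy
  · have h1 : ‖(b' 0).1 - c‖ ≤ ‖b' 0 - b 0‖ := by
      have h2 : (b' 0 - b 0).1 = (b' 0).1 - c := by simp [hb]
      rw [← h2]
      exact norm_fst_le _
    have h2 : ρ ^ 0 * ‖b' 0 - b 0‖ ≤ ∑' j, ρ ^ j * ‖b' j - b j‖ :=
      hb's.le_tsum 0 fun j _ => by positivity
    rw [pow_zero, one_mul] at h2
    exact (h1.trans h2).trans hb'η
  · have h1 := (hb's' x).sub (hbs x)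
    have hdif : ∀ k, ‖x ^ k • b' k - x ^ k • b k‖ ≤ ρ ^ k * ‖b' k - b k‖ := by
      intro k
      rw [← smul_sub, norm_smul, norm_pow]
      gcongr
    have h2 : ‖(((b' 0).1, pe P x) : (Fin d → Fin (m + 1) → ℂ) × (Fin d → Fin s → ℂ)) - (c, f x)‖ ≤
        η := (h1.tsum_eq ▸ tsum_of_norm_bounded hb's.hasSum hdif).trans hb'η
    exact (norm_snd_le _).trans h2

/-- The map `(x, y) ↦ (x, ∑ j, y ^ j • f x j)` maps the plane curve with the coefficients `c` to the
family `{F = 0}` over the affine line: a multisection of degree `d`. -/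
def OnMulti (F : ι → MvPolynomial (Fin 1 ⊕ Fin s) ℂ) (c : Fin d → Fin (m + 1) → ℂ)
    (f : ℂ → Fin d → Fin s → ℂ) : Prop :=
  ∀ x y, hv (cf c x) y = 0 → ∀ i, MvPolynomial.eval (Sum.elim (fun _ => x) (fv (f x) y)) (F i) = 0

/-- No component of the multisection is contained in `{G = 0}`: over some point `x`, no point of the
multisection is in `{G = 0}`. -/
def OutMulti (G : κ → MvPolynomial (Fin 1 ⊕ Fin s) ℂ) (c : Fin d → Fin (m + 1) → ℂ)
    (f : ℂ → Fin d → Fin s → ℂ) : Prop :=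
  ∃ x, ∀ y, hv (cf c x) y = 0 →
    ∃ k, MvPolynomial.eval (Sum.elim (fun _ => x) (fv (f x) y)) (G k) ≠ 0

theorem multi_seq {F : ι → MvPolynomial (Fin 1 ⊕ Fin s) ℂ} {T : Set (Fin d → Fin (m + 1) → ℂ)}
    {c : Fin d → Fin (m + 1) → ℂ} {f : ℂ → Fin d → Fin s → ℂ}
    (h : ∀ ρ η : ℝ, 0 ≤ ρ → 0 < η → ∃ c' ∈ T, ∃ P : Fin d → Fin s → Polynomial ℂ,
        (∀ x y, hv (cf c' x) y = 0 → ∀ i,
          MvPolynomial.eval (Sum.elim (fun _ => x) (fv (pe P x) y)) (F i) = 0) ∧
        ‖c' - c‖ ≤ η ∧ ∀ x, ‖x‖ ≤ ρ → ‖pe P x - f x‖ ≤ η) :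
    ∃ (c' : ℕ → Fin d → Fin (m + 1) → ℂ) (P : ℕ → Fin d → Fin s → Polynomial ℂ),
      (∀ k, c' k ∈ T) ∧ (∀ k, OnMulti F (c' k) (pe (P k))) ∧ Tendsto c' atTop (𝓝 c) ∧
      ∀ x, Tendsto (fun k => pe (P k) x) atTop (𝓝 (f x)) := by
  choose c' h0 P h1 h2 h3 using fun k : ℕ => h k (1 / ((k : ℝ) + 1)) k.cast_nonneg (by positivity)
  refine ⟨c', P, h0, h1, ?_, fun x => ?_⟩
  · rw [tendsto_iff_norm_sub_tendsto_zero]
    exact squeeze_zero (fun k => norm_nonneg _) h2 tendsto_one_div_add_atTop_nhds_zero_nat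
  · rw [tendsto_iff_norm_sub_tendsto_zero]
    refine squeeze_zero' (Eventually.of_forall fun k => norm_nonneg _) ?_
      tendsto_one_div_add_atTop_nhds_zero_nat
    obtain ⟨N, hN⟩ := exists_nat_ge ‖x‖
    filter_upwards [eventually_ge_atTop N] with k hk
    exact h3 k x (hN.trans (by exact_mod_cast hk))

theorem outMulti_eventually {G : κ → MvPolynomial (Fin 1 ⊕ Fin s) ℂ} {c : Fin d → Fin (m + 1) → ℂ}
    {f : ℂ → Fin d → Fin s → ℂ} (hout : OutMulti G c f) {c' : ℕ → Fin d → Fin (m + 1) → ℂ}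
    {g : ℕ → ℂ → Fin d → Fin s → ℂ} (hc : Tendsto c' atTop (𝓝 c))
    (hg : ∀ x, Tendsto (fun k => g k x) atTop (𝓝 (f x))) :
    ∀ᶠ k in atTop, OutMulti G (c' k) (g k) := by
  obtain ⟨x, hx⟩ := hout
  by_contra hcon
  have hfr : ∃ᶠ k in atTop, ¬ OutMulti G (c' k) (g k) := not_eventually.1 hcon
  obtain ⟨θ, hθ, hθQ⟩ := extraction_of_frequently_atTop hfr
  set U : Set (Fin s → ℂ) :=
    {v | ∃ k, MvPolynomial.eval (Sum.elim (fun _ => x) v) (G k) ≠ 0} with hU
  have hUo : IsOpen U := by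
    have : U = ⋃ k, {v | MvPolynomial.eval (Sum.elim (fun _ => x) v) (G k) ≠ 0} := by
      ext v; simp [hU]
    rw [this]
    exact isOpen_iUnion fun k => isOpen_ne_fun (cont_sec (G k) _) continuous_const
  have h1 : Tendsto (fun n => cf (c' (θ n)) x) atTop (𝓝 (cf c x)) :=
    ((cf_cont x).tendsto c).comp (hc.comp hθ.tendsto_atTop)
  obtain ⟨y, hy, hyU⟩ := exists_limit hUo h1 ((hg x).comp hθ.tendsto_atTop) fun n => by
    by_contra hno
    push Not at hno
    refine hθQ n ⟨x, fun y hy => ?_⟩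
    have h2 := hno y hy
    rw [notMem_compl_iff] at h2
    exact h2
  exact hyU (hx y hy)

/-- **Multisections of bounded height, and holomorphic multisections of slow growth.** -/
theorem multi_iff (F : ι → MvPolynomial (Fin 1 ⊕ Fin s) ℂ)
    (T : ∀ d m : ℕ, Set (Fin d → Fin (m + 1) → ℂ)) (hT : ∀ d m, IsClosed (T d m)) :
    ∃ φ : ℝ → ℝ, Grows φ ∧
    ∀ (κ : Type) (G : κ → MvPolynomial (Fin 1 ⊕ Fin s) ℂ) (d m D : ℕ),
      (∀ c ∈ T d m, ∀ P : Fin d → Fin s → Polynomial ℂ, OnMulti F c (pe P) →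
        OutMulti G c (pe P) → RelDeg D c (pe P)) ↔
      ∀ c ∈ T d m, ∀ f : ℂ → Fin d → Fin s → ℂ, Differentiable ℂ f → Slow φ f → OnMulti F c f →
        OutMulti G c f → RelDeg D c f := by
  obtain ⟨φ, hφ, h⟩ := approx_multi F T hT
  refine ⟨φ, hφ, fun κ G d m D => ⟨fun hD c hcT f hf hs hF hout => ?_, fun hD c hcT P hP hout =>
    hD c hcT (pe P) (pe_diff P) (pe_slow hφ P) hP hout⟩⟩
  obtain ⟨c', P, hT', hP, hc, hlim⟩ := multi_seq (h d m c hcT f hf hF hs)
  obtain ⟨N, hN⟩ := eventually_atTop.1 (outMulti_eventually hout hc hlim)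
  have h2 : Tendsto (fun k : ℕ => N + k) atTop atTop :=
    tendsto_atTop_mono (fun k => Nat.le_add_left k N) tendsto_id
  exact relDeg_closed (hc.comp h2) (fun x => (hlim x).comp h2) fun k =>
    hD _ (hT' _) (P (N + k)) (hP _) (hN (N + k) (Nat.le_add_right _ _))

end Pool.Agent.R871.SG
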