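import Mathlib

/-!
Systems of polynomial equations without solutions at the generic parameter have no solutions at
general parameters.
-/

set_option autoImplicit false

namespace Pool.Agent.R871.SG

open MvPolynomial

section

attribute [local instance] MvPolynomial.algebraMvPolynomial

theorem exists_const_mem {R K A τ J : Type} [CommRing R] [IsDomain R] [Field K] [Algebra R K]
    [IsFractionRing R K] [Field A] [IsAlgClosed A] [Algebra K A] [Finite τ]
    (E : J → MvPolynomial τ R)
    (h : ∀ y : τ → A, ∃ j, eval₂ ((algebraMap K A).comp (algebraMap R K)) y (E j) ≠ 0) :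
    ∃ P : R, P ≠ 0 ∧ (C P : MvPolynomial τ R) ∈ Ideal.span (Set.range E) := by
  classical
  set J0 : Ideal (MvPolynomial τ R) := Ideal.span (Set.range E) with hJ0
  set I : Ideal (MvPolynomial τ K) := J0.map (algebraMap (MvPolynomial τ R) (MvPolynomial τ K))
    with hI
  have h1 : (1 : MvPolynomial τ K) ∈ vanishingIdeal K (zeroLocus A I) := by
    rw [mem_vanishingIdeal_iff]
    intro y hy
    exfalso
    rw [mem_zeroLocus_iff] at hy
    obtain ⟨j, hj⟩ := h y
    apply hj
    have h2 := hy (algebraMap _ _ (E j))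
      (Ideal.mem_map_of_mem _ (Ideal.subset_span (Set.mem_range_self j)))
    rw [← h2, algebraMap_def, aeval_def, eval₂_map]
  rw [vanishingIdeal_zeroLocus_eq_radical] at h1
  obtain ⟨M, hM⟩ := h1
  rw [one_pow, hI, IsLocalization.mem_map_algebraMap_iff
    (Submonoid.map (C : R →+* MvPolynomial τ R) (nonZeroDivisors R))] at hM
  obtain ⟨⟨⟨a, ha⟩, ⟨b, hb⟩⟩, hab⟩ := hM
  obtain ⟨P, hP, rfl⟩ := hb
  simp only [one_mul] at hab
  have hinj' : Function.Injective (algebraMap (MvPolynomial τ R) (MvPolynomial τ K)) :=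
    map_injective _ (IsFractionRing.injective _ _)
  have hPa : C P = a := hinj' hab
  exact ⟨P, nonZeroDivisors.ne_zero hP, by rw [hPa]; exact ha⟩

end

theorem exists_const_mem' {R A τ J : Type} [CommRing R] [IsDomain R] [Field A] [IsAlgClosed A]
    [Finite τ] (E : J → MvPolynomial τ R) {u : R →+* A} (hu : Function.Injective u)
    (h : ∀ y : τ → A, ∃ j, eval₂ u y (E j) ≠ 0) :
    ∃ P : R, P ≠ 0 ∧ ∀ (u' : R →+* A) (y : τ → A), (∀ j, eval₂ u' y (E j) = 0) → u' P = 0 := by
  let g : FractionRing R →+* A := IsFractionRing.lift hu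
  let : Algebra (FractionRing R) A := g.toAlgebra
  have hg : (algebraMap (FractionRing R) A).comp (algebraMap R (FractionRing R)) = u := by
    refine RingHom.ext fun a => ?_
    exact IsFractionRing.lift_algebraMap hu a
  obtain ⟨P, hP, hPm⟩ := exists_const_mem (K := FractionRing R) (A := A) E (by rw [hg]; exact h)
  refine ⟨P, hP, fun u' y hxy => ?_⟩
  have h4 : Ideal.span (Set.range E) ≤ RingHom.ker (eval₂Hom u' y) := by
    rw [Ideal.span_le]
    rintro _ ⟨j, rfl⟩
    exact hxy j
  have h5 := RingHom.mem_ker.1 (h4 hPm)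
  rw [coe_eval₂Hom, eval₂_C] at h5
  exact h5

/-- A system of polynomial equations depending on parameters, which has no complex solution for one
family of parameters that is algebraically independent over the field of definition `k`, has no
solutions outside the zeros of a nonzero polynomial in the parameters. -/
theorem generic_empty {k : Subfield ℂ} {σ τ J : Type} [Finite τ]
    (E : J → MvPolynomial τ (MvPolynomial σ k)) {x : σ → ℂ} (hx : AlgebraicIndependent k x)
    (h : ∀ y : τ → ℂ, ∃ j, eval₂ (eval₂Hom k.subtype x) y (E j) ≠ 0) :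
    ∃ P : MvPolynomial σ k, P ≠ 0 ∧ ∀ (x' : σ → ℂ) (y : τ → ℂ),
      (∀ j, eval₂ (eval₂Hom k.subtype x') y (E j) = 0) → eval₂ k.subtype x' P = 0 := by
  have hinj : Function.Injective (eval₂Hom k.subtype x) := hx
  obtain ⟨P, hP, hP'⟩ := exists_const_mem' E hinj h
  exact ⟨P, hP, fun x' y hxy => hP' (eval₂Hom k.subtype x') y hxy⟩

end Pool.Agent.R871.SG
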