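import Pool.Agent.R871.SG.VgA
import Pool.Agent.TH182.VD.Main

/-!
Forms with given coefficients, and generic coefficients.
-/

set_option autoImplicit false

namespace Pool.Agent.R871.SG

open MvPolynomial
open Pool.Agent.TH182.VD (CI)

variable {N q : ℕ}

theorem finite_mon (N e : ℕ) : Finite {α : Fin (N + 1) →₀ ℕ // α.degree = e} := by
  have h1 : {m : Fin (N + 1) →₀ ℕ | m.degree = e}.Finite := by
    refine (Finsupp.finite_of_degree_le e).subset ?_
    intro m hm
    exact le_of_eq hm
  exact h1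

noncomputable instance monFintype (N e : ℕ) : Fintype {α : Fin (N + 1) →₀ ℕ // α.degree = e} :=
  @Fintype.ofFinite _ (finite_mon N e)

/-- the forms with given coefficients -/
noncomputable def form {d : Fin q → ℕ} (x : CI N d → ℂ) (i : Fin q) :
    MvPolynomial (Fin (N + 1)) ℂ :=
  ∑ α : {α : Fin (N + 1) →₀ ℕ // α.degree = d i}, monomial α.1 (x ⟨i, α⟩)

theorem form_homog {d : Fin q → ℕ} (x : CI N d → ℂ) (i : Fin q) :
    (form x i).IsHomogeneous (d i) :=
  IsHomogeneous.sum _ _ _ fun α _ => isHomogeneous_monomial _ α.2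

theorem coeff_form {d : Fin q → ℕ} (x : CI N d → ℂ) (i : Fin q)
    (α : {α : Fin (N + 1) →₀ ℕ // α.degree = d i}) : coeff α.1 (form x i) = x ⟨i, α⟩ := by
  classical
  rw [form, coeff_sum, Finset.sum_eq_single α]
  · rw [coeff_monomial, if_pos rfl]
  · intro β _ hβ
    rw [coeff_monomial, if_neg]
    intro h
    exact hβ (Subtype.ext h)
  · intro h
    exact absurd (Finset.mem_univ α) h

/-- the coefficients of a family of forms -/
def coeffs (d : Fin q → ℕ) (F : Fin q → MvPolynomial (Fin (N + 1)) ℂ) : CI N d → ℂ :=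
  fun x => coeff x.2.1 (F x.1)

theorem coeffs_form {d : Fin q → ℕ} (x : CI N d → ℂ) : coeffs d (form x) = x := by
  funext ⟨i, α⟩
  exact coeff_form x i α

theorem form_coeffs {d : Fin q → ℕ} {F : Fin q → MvPolynomial (Fin (N + 1)) ℂ}
    (hF : ∀ i, (F i).IsHomogeneous (d i)) : form (coeffs d F) = F := by
  funext i
  ext α
  by_cases h : α.degree = d i
  · exact coeff_form _ i ⟨α, h⟩
  · rw [(form_homog _ i).coeff_eq_zero h, (hF i).coeff_eq_zero h]

theorem eval_form {d : Fin q → ℕ} (x : CI N d → ℂ) (i : Fin q) (v : Fin (N + 1) → ℂ) :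
    eval v (form x i) = ∑ α : {α : Fin (N + 1) →₀ ℕ // α.degree = d i},
      x ⟨i, α⟩ * ∏ j, v j ^ α.1 j := by
  rw [form, map_sum]
  refine Finset.sum_congr rfl fun α _ => ?_
  rw [eval_monomial, Finsupp.prod_fintype _ _ fun j => pow_zero _]

theorem exists_algInd (k : Subfield ℂ) [Countable k] (σ : Type) [Finite σ] :
    ∃ x : σ → ℂ, AlgebraicIndependent k x := by
  obtain ⟨s, hs⟩ := exists_isTranscendenceBasis k ℂ
  have hinf : Infinite s := by
    by_contra hcon
    rw [not_infinite_iff_finite] at hcon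
    have h1 := IsAlgClosed.cardinal_le_max_transcendence_basis (R := k) (K := ℂ) _ hs
    have h2 : Cardinal.mk k ≤ Cardinal.aleph0 := Cardinal.mk_le_aleph0
    have h3 : Cardinal.mk s ≤ Cardinal.aleph0 := Cardinal.mk_le_aleph0
    have h4 := h1.trans (max_le (max_le (by simp) (by simp)) le_rfl)
    have h5 : Cardinal.mk ℂ = Cardinal.continuum := Cardinal.mk_complex
    rw [h5] at h4
    exact absurd h4 (not_le.2 (by simpa using Cardinal.aleph0_lt_continuum))
  have e1 : σ ≃ Fin (Nat.card σ) := Finite.equivFin σ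
  have e2 : ℕ ↪ s := Infinite.natEmbedding s
  exact ⟨_, hs.1.comp (fun a => e2 (e1 a).1) (e2.injective.comp
    (Fin.val_injective.comp e1.injective))⟩

theorem algInd_mono {k₁ k : Subfield ℂ} (hk : k₁ ≤ k) {σ : Type} {x : σ → ℂ}
    (hx : AlgebraicIndependent k x) : AlgebraicIndependent k₁ x := by
  rw [algebraicIndependent_iff] at hx ⊢
  intro p hp
  have h1 : aeval x (map (Subfield.inclusion hk) p) = aeval x p := by
    rw [aeval_def, eval₂_map]
    rfl
  have h2 := hx _ (h1.trans hp)
  exact map_injective _ (Subfield.inclusion hk).injective (h2.trans (map_zero _).symm)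

theorem trdeg_empty : Algebra.trdeg ℂ (MvPolynomial (Fin (N + 1)) ℂ ⧸
    Ideal.span (Set.range (Empty.elim : Empty → MvPolynomial (Fin (N + 1)) ℂ))) ≤ N + 1 := by
  have h1 := _root_.trdeg_le_of_surjective (Ideal.Quotient.mkₐ ℂ (Ideal.span (Set.range
    (Empty.elim : Empty → MvPolynomial (Fin (N + 1)) ℂ)))) (Ideal.Quotient.mkₐ_surjective ℂ _)
  refine h1.trans ?_
  rw [MvPolynomial.trdeg_of_isDomain]
  simp

end Pool.Agent.R871.SG
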