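import Pool.Agent.R871.SG.VgB
import Pool.Agent.R871.SG.LineC

/-!
Polynomial curves of bounded degree in the strata of general divisors.
-/

set_option autoImplicit false

namespace Pool.Agent.R871.SG

open MvPolynomial
open Pool.Agent.TH143 (IsGmCurve On)
open Pool.Agent.TH182.VD (CI)

variable {N q : ℕ} {κ : Type}

/-- The point with homogeneous coordinates `x` lies on all `G i = 0` and on the hypersurfaces
`F i = 0` with `i ∈ Z`, and on no hypersurface `F i = 0` with `i ∉ Z`. -/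
def InStratum (G : κ → MvPolynomial (Fin (N + 1)) ℂ) (F : Fin q → MvPolynomial (Fin (N + 1)) ℂ)
    (Z : Finset (Fin q)) (x : Fin (N + 1) → ℂ) : Prop :=
  (∀ i, eval x (G i) = 0) ∧ (∀ i ∈ Z, eval x (F i) = 0) ∧ ∀ i, i ∉ Z → eval x (F i) ≠ 0

/-- the unknowns: the coefficients of the curve, and two families of auxiliary numbers -/
abbrev Unk (N q e : ℕ) : Type :=
  (Fin (e + 1) × Fin (N + 1)) ⊕
    (((Fin (e + 1) × Fin (e + 1)) × (Fin (N + 1) × Fin (N + 1))) ⊕ Fin q)

/-- the points of the generic curve -/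
noncomputable def bz (k : Subfield ℂ) (d : Fin q → ℕ) (e : ℕ) (z : ℤ) (j : Fin (N + 1)) :
    MvPolynomial (Unk N q e) (MvPolynomial (CI N d) k) :=
  ∑ m : Fin (e + 1), C (C ((z : k) ^ (m : ℕ))) * X (Sum.inl (m, j))

/-- the values of the generic forms -/
noncomputable def Phi (k : Subfield ℂ) (d : Fin q → ℕ) (e : ℕ) (i : Fin q)
    (v : Fin (N + 1) → MvPolynomial (Unk N q e) (MvPolynomial (CI N d) k)) :
    MvPolynomial (Unk N q e) (MvPolynomial (CI N d) k) :=
  ∑ α : {α : Fin (N + 1) →₀ ℕ // α.degree = d i}, C (X ⟨i, α⟩) * ∏ j, v j ^ α.1 j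

/-- indices of the equations -/
inductive Idx (κ : Type) (q : ℕ) : Type
  | g : κ → ℤ → Idx κ q
  | f : Fin q → ℤ → Idx κ q
  | c : Fin q → Idx κ q
  | u : Idx κ q

/-- the system of equations for polynomial curves of degree at most `e` in the stratum -/
noncomputable def sys {k : Subfield ℂ} (d : Fin q → ℕ) (G' : κ → MvPolynomial (Fin (N + 1)) k)
    (Z : Finset (Fin q)) (e : ℕ) : Idx κ q → MvPolynomial (Unk N q e) (MvPolynomial (CI N d) k)
  | .g i z => eval₂ ((C : MvPolynomial (CI N d) k →+* _).comp C) (bz k d e z) (G' i)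
  | .f i z => Phi k d e i (bz k d e z) - if i ∈ Z then 0 else Phi k d e i (bz k d e 0)
  | .c i => if i ∈ Z then 0 else X (Sum.inr (Sum.inr i)) * Phi k d e i (bz k d e 0) - 1
  | .u => (∑ p : (Fin (e + 1) × Fin (e + 1)) × (Fin (N + 1) × Fin (N + 1)),
      X (Sum.inr (Sum.inl p)) *
        (bz k d e (p.1.1.1 + 1 : ℕ) p.2.1 * bz k d e (p.1.2.1 + 1 : ℕ) p.2.2 -
          bz k d e (p.1.1.1 + 1 : ℕ) p.2.2 * bz k d e (p.1.2.1 + 1 : ℕ) p.2.1)) - 1

section

variable {k : Subfield ℂ} {d : Fin q → ℕ} {e : ℕ} (x : CI N d → ℂ) (y : Unk N q e → ℂ)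

/-- evaluation -/
noncomputable abbrev evs : MvPolynomial (Unk N q e) (MvPolynomial (CI N d) k) →+* ℂ :=
  eval₂Hom (eval₂Hom k.subtype x) y

/-- the curve with coefficients `y` -/
noncomputable def cv {N q e : ℕ} (y : Unk N q e → ℂ) (j : Fin (N + 1)) : Polynomial ℂ :=
  ∑ m : Fin (e + 1), Polynomial.C (y (Sum.inl (m, j))) * Polynomial.X ^ (m : ℕ)

theorem evs_bz (z : ℤ) (j : Fin (N + 1)) :
    evs x y (bz k d e z j) = (cv y j).eval (z : ℂ) := by
  simp only [evs, bz, cv, map_sum, map_mul, coe_eval₂Hom, eval₂_X,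
    Polynomial.eval_finsetSum, Polynomial.eval_mul, Polynomial.eval_C, Polynomial.eval_pow,
    Polynomial.eval_X, map_pow, map_intCast]
  exact Finset.sum_congr rfl fun m _ => mul_comm _ _

theorem evs_Phi (i : Fin q) (v : Fin (N + 1) → MvPolynomial (Unk N q e) (MvPolynomial (CI N d) k)) :
    evs x y (Phi k d e i v) = eval (fun j => evs x y (v j)) (form x i) := by
  rw [eval_form, Phi, map_sum]
  refine Finset.sum_congr rfl fun α _ => ?_
  rw [map_mul, map_prod]
  simp only [map_pow, evs, coe_eval₂Hom, eval₂_C, eval₂_X]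

theorem evs_G (G' : κ → MvPolynomial (Fin (N + 1)) k) (i : κ) (z : ℤ) :
    evs x y (eval₂ ((C : MvPolynomial (CI N d) k →+* _).comp C) (bz k d e z) (G' i)) =
      eval (pv (cv y) z) (map k.subtype (G' i)) := by
  rw [eval_map, ← coe_eval₂Hom, ← RingHom.comp_apply]
  have h : (evs x y).comp (eval₂Hom ((C : MvPolynomial (CI N d) k →+* _).comp C) (bz k d e z)) =
      eval₂Hom k.subtype (pv (cv y) z) := by
    refine ringHom_ext (fun a => ?_) fun j => ?_
    · simp
    · rw [RingHom.comp_apply, eval₂Hom_X', evs_bz, eval₂Hom_X']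
      rfl
  rw [h, coe_eval₂Hom]

theorem evs_Phi' (i : Fin q) (z : ℤ) :
    evs x y (Phi k d e i (bz k d e z)) = eval (pv (cv y) z) (form x i) := by
  rw [evs_Phi]
  simp only [evs_bz]
  rfl

/-- the meaning of the system -/
theorem sys_iff (G' : κ → MvPolynomial (Fin (N + 1)) k) (Z : Finset (Fin q)) :
    (∀ j, evs x y (sys d G' Z e j) = 0) ↔
      (∀ i, ∀ z : ℤ, eval (pv (cv y) z) (map k.subtype (G' i)) = 0) ∧
      (∀ i, ∀ z : ℤ, eval (pv (cv y) z) (form x i) =
        if i ∈ Z then 0 else eval (pv (cv y) 0) (form x i)) ∧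
      (∀ i, i ∉ Z → y (Sum.inr (Sum.inr i)) * eval (pv (cv y) 0) (form x i) = 1) ∧
      ∑ p : (Fin (e + 1) × Fin (e + 1)) × (Fin (N + 1) × Fin (N + 1)), y (Sum.inr (Sum.inl p)) *
        (pv (cv y) ((p.1.1.1 + 1 : ℕ) : ℂ) p.2.1 * pv (cv y) ((p.1.2.1 + 1 : ℕ) : ℂ) p.2.2 -
          pv (cv y) ((p.1.1.1 + 1 : ℕ) : ℂ) p.2.2 * pv (cv y) ((p.1.2.1 + 1 : ℕ) : ℂ) p.2.1) = 1 := by
  have hg : ∀ i (z : ℤ), evs x y (sys d G' Z e (.g i z)) =
      eval (pv (cv y) z) (map k.subtype (G' i)) := fun i z => evs_G x y G' i z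
  have hf : ∀ i (z : ℤ), evs x y (sys d G' Z e (.f i z)) = eval (pv (cv y) z) (form x i) -
      if i ∈ Z then 0 else eval (pv (cv y) 0) (form x i) := by
    intro i z
    rw [sys, map_sub, evs_Phi', apply_ite (evs x y), map_zero, evs_Phi', Int.cast_zero]
  have hc : ∀ i, evs x y (sys d G' Z e (.c i)) =
      if i ∈ Z then 0 else y (Sum.inr (Sum.inr i)) * eval (pv (cv y) 0) (form x i) - 1 := by
    intro i
    rw [sys, apply_ite (evs x y), map_zero, map_sub, map_mul, evs_Phi', Int.cast_zero, map_one,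
      evs, eval₂Hom_X']
  have hu : evs x y (sys d G' Z e .u) =
      (∑ p : (Fin (e + 1) × Fin (e + 1)) × (Fin (N + 1) × Fin (N + 1)), y (Sum.inr (Sum.inl p)) *
        (pv (cv y) ((p.1.1.1 + 1 : ℕ) : ℂ) p.2.1 * pv (cv y) ((p.1.2.1 + 1 : ℕ) : ℂ) p.2.2 -
          pv (cv y) ((p.1.1.1 + 1 : ℕ) : ℂ) p.2.2 * pv (cv y) ((p.1.2.1 + 1 : ℕ) : ℂ) p.2.1)) - 1 := by
    rw [sys, map_sub, map_one, map_sum]
    congr 1
    refine Finset.sum_congr rfl fun p _ => ?_
    simp only [map_mul, map_sub, evs_bz, Int.cast_natCast]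
    rw [evs, eval₂Hom_X']
    rfl
  constructor
  · intro h
    refine ⟨fun i z => ?_, fun i z => ?_, fun i hi => ?_, ?_⟩
    · rw [← hg]; exact h _
    · have h1 := h (.f i z)
      rw [hf] at h1
      exact sub_eq_zero.1 h1
    · have h1 := h (.c i)
      rw [hc, if_neg hi] at h1
      exact sub_eq_zero.1 h1
    · have h1 := h .u
      rw [hu] at h1
      exact sub_eq_zero.1 h1
  · rintro ⟨h1, h2, h3, h4⟩ j
    cases j with
    | g i z => rw [hg]; exact h1 i z
    | f i z => rw [hf, h2 i z, sub_self]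
    | c i =>
      rw [hc]
      split_ifs with hi
      · rfl
      · rw [h3 i hi, sub_self]
    | u => rw [hu, h4, sub_self]

end

end Pool.Agent.R871.SG
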