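import Pool.Agent.R871.SG.VgC

/-!
There are no polynomial curves of bounded degree in the strata of general divisors.
-/

set_option autoImplicit false

namespace Pool.Agent.R871.SG

open MvPolynomial
open Pool.Agent.TH143 (IsGmCurve On)
open Pool.Agent.TH182.VD (CI eval_aeval)

variable {N q : ℕ} {κ : Type}

theorem poly_zero_int {p : Polynomial ℂ} (h : ∀ z : ℤ, p.eval (z : ℂ) = 0) : p = 0 := by
  refine Polynomial.eq_zero_of_infinite_isRoot _ (Set.Infinite.mono
    (s := Set.range fun z : ℤ => (z : ℂ)) ?_ (Set.infinite_range_of_injective Int.cast_injective))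
  rintro _ ⟨z, rfl⟩
  exact h z

theorem eval_int {P : Fin (N + 1) → Polynomial ℂ} {F : MvPolynomial (Fin (N + 1)) ℂ} {c : ℂ}
    (h : ∀ z : ℤ, eval (pv P z) F = c) (z : ℂ) : eval (pv P z) F = c := by
  have h1 : aeval P F - Polynomial.C c = 0 := by
    refine poly_zero_int fun z => ?_
    rw [Polynomial.eval_sub, Polynomial.eval_C, eval_aeval]
    exact sub_eq_zero.2 (h z)
  have h2 := congrArg (Polynomial.eval z) h1
  rw [Polynomial.eval_sub, Polynomial.eval_C, eval_aeval, Polynomial.eval_zero] at h2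
  exact sub_eq_zero.1 h2

theorem sys_sound {k : Subfield ℂ} {d : Fin q → ℕ} {e : ℕ} {x : CI N d → ℂ}
    {y : Unk N q e → ℂ} {G' : κ → MvPolynomial (Fin (N + 1)) k} {Z : Finset (Fin q)}
    {G : κ → MvPolynomial (Fin (N + 1)) ℂ} (hGG : ∀ i, map k.subtype (G' i) = G i)
    (hG : ∀ i, ∃ n, (G i).IsHomogeneous n) (h : ∀ j, evs x y (sys d G' Z e j) = 0) :
    ∃ P, IsGmCurve (Sum.elim G (fun i : {i // i ∈ Z} => form x i.1))
      (∏ i ∈ Finset.univ \ Z, form x i) P := by
  obtain ⟨h1, h2, h3, h4⟩ := (sys_iff x y G' Z).1 h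
  have h1' : ∀ i z, eval (pv (cv y) z) (G i) = 0 := by
    intro i z
    refine eval_int (fun z => ?_) z
    rw [← hGG]
    exact h1 i z
  have h2' : ∀ i z, eval (pv (cv y) z) (form x i) =
      if i ∈ Z then 0 else eval (pv (cv y) 0) (form x i) := fun i z => eval_int (h2 i) z
  obtain ⟨p, hp⟩ : ∃ p : (Fin (e + 1) × Fin (e + 1)) × (Fin (N + 1) × Fin (N + 1)),
      pv (cv y) ((p.1.1.1 + 1 : ℕ) : ℂ) p.2.1 * pv (cv y) ((p.1.2.1 + 1 : ℕ) : ℂ) p.2.2 -
        pv (cv y) ((p.1.1.1 + 1 : ℕ) : ℂ) p.2.2 * pv (cv y) ((p.1.2.1 + 1 : ℕ) : ℂ) p.2.1 ≠ 0 := by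
    by_contra hcon
    push Not at hcon
    simp only [hcon, mul_zero, Finset.sum_const_zero] at h4
    exact zero_ne_one h4
  obtain ⟨⟨s, t⟩, i, j⟩ := p
  simp only at hp
  set s' : ℂ := ((s.1 + 1 : ℕ) : ℂ) with hs'
  set t' : ℂ := ((t.1 + 1 : ℕ) : ℂ) with ht'
  have hs0 : s' ≠ 0 := Nat.cast_ne_zero.2 (Nat.succ_ne_zero _)
  have ht0 : t' ≠ 0 := Nat.cast_ne_zero.2 (Nat.succ_ne_zero _)
  obtain ⟨g, P', hP', hg, hne⟩ := clear (P := cv y) ⟨s', fun h0 => hp (by
    have e1 : ∀ l, pv (cv y) s' l = 0 := fun l => congrFun h0 l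
    rw [e1, e1]
    ring)⟩
  have hgP : ∀ z, pv (cv y) z = g.eval z • pv P' z := by
    intro z
    ext j
    simp [pv, hP' j]
  refine ⟨P', ⟨fun z _ => ?_, fun z _ => ⟨?_, ?_⟩, s', t', hs0, ht0, i, j, fun h0 => hp ?_⟩⟩
  · obtain ⟨j, hj⟩ := Function.ne_iff.1 (hne z)
    exact ⟨j, hj⟩
  · have key : ∀ F : MvPolynomial (Fin (N + 1)) ℂ, (∃ n, F.IsHomogeneous n) →
        (∀ z, eval (pv (cv y) z) F = 0) → ∀ z, eval (pv P' z) F = 0 := by
      rintro F ⟨n, hn⟩ hF z
      have e1 : g ^ n * aeval P' F = 0 := by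
        refine Polynomial.funext fun z => ?_
        rw [Polynomial.eval_mul, Polynomial.eval_pow, eval_aeval, Polynomial.eval_zero]
        have e2 := hF z
        rw [hgP z, eval_smul_form hn] at e2
        exact e2
      have e2 := (mul_eq_zero.1 e1).resolve_left (pow_ne_zero _ hg)
      have e3 := congrArg (Polynomial.eval z) e2
      rw [eval_aeval, Polynomial.eval_zero] at e3
      exact e3
    rintro (l | l)
    · exact key (G l) (hG l) (h1' l) z
    · refine key (form x l.1) ⟨_, form_homog x l.1⟩ (fun z => ?_) z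
      rw [h2', if_pos l.2]
  · rw [map_prod, Finset.prod_ne_zero_iff]
    intro l hl
    have hl' : l ∉ Z := (Finset.mem_sdiff.mp hl).2
    have e1 := h2' l z
    rw [if_neg hl', hgP z, eval_smul_form (form_homog x l)] at e1
    have e2 : eval (pv (cv y) 0) (form x l) ≠ 0 := by
      intro e3
      have e4 := h3 l hl'
      rw [e3, mul_zero] at e4
      exact zero_ne_one e4
    rw [← e1] at e2
    exact right_ne_zero_of_mul e2
  · rw [hgP s', hgP t']
    simp only [Pi.smul_apply, smul_eq_mul]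
    simp only [pv] at h0 ⊢
    linear_combination (g.eval s' * g.eval t') * h0

theorem grid {P : Fin (N + 1) → Polynomial ℂ} {e : ℕ} (hPe : ∀ s, (P s).natDegree ≤ e)
    (hne : ∀ z, pv P z ≠ 0) (hnc : NonConst (pv P)) :
    ∃ (s t : Fin (e + 1)) (i j : Fin (N + 1)),
      pv P ((s.1 + 1 : ℕ) : ℂ) i * pv P ((t.1 + 1 : ℕ) : ℂ) j -
        pv P ((s.1 + 1 : ℕ) : ℂ) j * pv P ((t.1 + 1 : ℕ) : ℂ) i ≠ 0 := by
  by_contra hcon
  push Not at hcon
  have hinj : Function.Injective fun s : Fin (e + 1) => ((s.1 + 1 : ℕ) : ℂ) := by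
    intro s t hst
    have := Nat.cast_injective (R := ℂ) hst
    exact Fin.ext (by omega)
  have hdeg : ∀ (i j : Fin (N + 1)) (a b : ℂ),
      (P i * Polynomial.C a - P j * Polynomial.C b).natDegree < Fintype.card (Fin (e + 1)) := by
    intro i j a b
    rw [Fintype.card_fin]
    refine Nat.lt_succ_of_le ((Polynomial.natDegree_sub_le _ _).trans (max_le ?_ ?_))
    · exact (Polynomial.natDegree_mul_C_le _ _).trans (hPe i)
    · exact (Polynomial.natDegree_mul_C_le _ _).trans (hPe j)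
  have h1 : ∀ (z : ℂ) (t : Fin (e + 1)) (i j : Fin (N + 1)),
      pv P z i * pv P ((t.1 + 1 : ℕ) : ℂ) j - pv P z j * pv P ((t.1 + 1 : ℕ) : ℂ) i = 0 := by
    intro z t i j
    have h2 := Polynomial.eq_zero_of_natDegree_lt_card_of_eval_eq_zero
      (P i * Polynomial.C (pv P ((t.1 + 1 : ℕ) : ℂ) j) -
        P j * Polynomial.C (pv P ((t.1 + 1 : ℕ) : ℂ) i)) hinj (fun s => by
        simpa [pv] using hcon s t i j) (hdeg _ _ _ _)
    have h3 := congrArg (Polynomial.eval z) h2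
    simpa [pv] using h3
  have h2 : ∀ (z w : ℂ) (i j : Fin (N + 1)), pv P z i * pv P w j - pv P z j * pv P w i = 0 := by
    intro z w i j
    have h2 := Polynomial.eq_zero_of_natDegree_lt_card_of_eval_eq_zero
      (P j * Polynomial.C (pv P z i) - P i * Polynomial.C (pv P z j)) hinj (fun t => by
        have := h1 z t i j
        simp only [pv, Polynomial.eval_sub, Polynomial.eval_mul, Polynomial.eval_C] at this ⊢
        linear_combination this) (hdeg _ _ _ _)
    have h3 := congrArg (Polynomial.eval w) h2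
    simp only [pv, Polynomial.eval_sub, Polynomial.eval_mul, Polynomial.eval_C,
      Polynomial.eval_zero] at h3 ⊢
    linear_combination h3
  obtain ⟨z, w, hzw⟩ := hnc
  obtain ⟨i, j, hij⟩ := minors (hne z) hzw
  exact hij (h2 z w i j)

theorem const_of_ne {p : Polynomial ℂ} (h : ∀ z, p.eval z ≠ 0) (z w : ℂ) :
    p.eval z = p.eval w := by
  have h1 : p.degree = 0 := by
    by_contra hcon
    obtain ⟨z, hz⟩ := IsAlgClosed.exists_root p hcon
    exact h z hz
  rw [Polynomial.eq_C_of_degree_eq_zero h1, Polynomial.eval_C, Polynomial.eval_C]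

theorem sys_complete {k : Subfield ℂ} {d : Fin q → ℕ} {e : ℕ} {x : CI N d → ℂ}
    {G' : κ → MvPolynomial (Fin (N + 1)) k} {Z : Finset (Fin q)}
    {G : κ → MvPolynomial (Fin (N + 1)) ℂ} (hGG : ∀ i, map k.subtype (G' i) = G i)
    {P : Fin (N + 1) → Polynomial ℂ} (hPe : ∀ s, (P s).natDegree ≤ e)
    (hP : ∀ z, pv P z ≠ 0 ∧ InStratum G (form x) Z (pv P z)) (hnc : NonConst (pv P)) :
    ∃ y : Unk N q e → ℂ, ∀ j, evs x y (sys d G' Z e j) = 0 := by
  classical
  obtain ⟨s, t, i, j, hst⟩ := grid hPe (fun z => (hP z).1) hnc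
  set p0 : (Fin (e + 1) × Fin (e + 1)) × (Fin (N + 1) × Fin (N + 1)) := ((s, t), (i, j)) with hp0
  set y : Unk N q e → ℂ := Sum.elim (fun p => (P p.2).coeff p.1) (Sum.elim
    (Pi.single p0 (pv P ((s.1 + 1 : ℕ) : ℂ) i * pv P ((t.1 + 1 : ℕ) : ℂ) j -
        pv P ((s.1 + 1 : ℕ) : ℂ) j * pv P ((t.1 + 1 : ℕ) : ℂ) i)⁻¹)
    fun l => (eval (pv P 0) (form x l))⁻¹) with hy
  have hcv : cv y = P := by
    funext l
    rw [cv]
    have h1 : ∀ m : Fin (e + 1), y (Sum.inl (m, l)) = (P l).coeff m := fun m => rfl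
    simp only [h1]
    rw [Fin.sum_univ_eq_sum_range
      (fun m => Polynomial.C ((P l).coeff m) * Polynomial.X ^ m) (e + 1)]
    exact ((P l).as_sum_range_C_mul_X_pow' (Nat.lt_succ_of_le (hPe l))).symm
  refine ⟨y, (sys_iff x y G' Z).2 ⟨fun l z => ?_, fun l z => ?_, fun l hl => ?_, ?_⟩⟩
  · rw [hGG, hcv]
    exact (hP z).2.1 l
  · rw [hcv]
    split_ifs with hl
    · exact (hP z).2.2.1 l hl
    · have h1 : ∀ w : ℂ, (aeval P (form x l)).eval w ≠ 0 := by
        intro w
        rw [eval_aeval]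
        exact (hP w).2.2.2 l hl
      have h2 := const_of_ne h1 z 0
      rw [eval_aeval, eval_aeval] at h2
      exact h2
  · rw [hcv]
    exact inv_mul_cancel₀ ((hP 0).2.2.2 l hl)
  · rw [hcv, Finset.sum_eq_single p0]
    · have h1 : y (Sum.inr (Sum.inl p0)) = (pv P ((s.1 + 1 : ℕ) : ℂ) i *
        pv P ((t.1 + 1 : ℕ) : ℂ) j - pv P ((s.1 + 1 : ℕ) : ℂ) j * pv P ((t.1 + 1 : ℕ) : ℂ) i)⁻¹ :=
        Pi.single_eq_same _ _
      rw [h1]
      exact inv_mul_cancel₀ hst
    · intro p _ hp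
      have h1 : y (Sum.inr (Sum.inl p)) = 0 := Pi.single_eq_of_ne hp _
      rw [h1, zero_mul]
    · intro h
      exact absurd (Finset.mem_univ _) h

/-- Let `X ⊂ ℙᴺ` be an algebraic set of dimension at most `m`. For general forms `F i` of degrees
`d i` and a set `Z` of indices with `2 m + 1 ≤ ∑ d i + #Z` there are no nonconstant algebraic maps of
degree at most `e` from the affine line to the stratum of `Z`. -/
theorem vg_lines {m : ℕ} [Countable κ] (G : κ → MvPolynomial (Fin (N + 1)) ℂ)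
    (hG : ∀ i, ∃ n, (G i).IsHomogeneous n)
    (hdim : Algebra.trdeg ℂ (MvPolynomial (Fin (N + 1)) ℂ ⧸ Ideal.span (Set.range G)) ≤ m + 1)
    (d : Fin q → ℕ) (Z : Finset (Fin q)) (hZ : 2 * m + 1 ≤ ∑ i, d i + Z.card) (e : ℕ) :
    ∃ Pc : MvPolynomial (CI N d) ℂ, Pc ≠ 0 ∧ ∀ F : Fin q → MvPolynomial (Fin (N + 1)) ℂ,
      (∀ i, (F i).IsHomogeneous (d i)) → eval (coeffs d F) Pc ≠ 0 →
      ∀ P : Fin (N + 1) → Polynomial ℂ, (∀ s, (P s).natDegree ≤ e) →
        (∀ z, pv P z ≠ 0 ∧ InStratum G F Z (pv P z)) → ¬ NonConst (pv P) := by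
  classical
  obtain ⟨k₁, hk₁, hmain⟩ := Pool.Agent.TH182.VD.main G hG hdim
  set S : Set ℂ := (k₁ : Set ℂ) ∪ ⋃ i : κ, (fun α => coeff α (G i)) '' (G i).support with hS
  have hSc : S.Countable := by
    refine Set.Countable.union (Set.to_countable _) (Set.countable_iUnion fun i => ?_)
    exact ((G i).support.countable_toSet.image _)
  set k : Subfield ℂ := Subfield.closure S with hk
  have hkc : Countable k := by
    rw [← Cardinal.mk_le_aleph0_iff]
    refine (Subfield.cardinalMk_closure_le_max S).trans ?_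
    rw [max_le_iff]
    exact ⟨hSc.le_aleph0, le_rfl⟩
  have hk1 : k₁ ≤ k := fun a ha => Subfield.subset_closure (Or.inl ha)
  have hGk : ∀ i α, coeff α (G i) ∈ k := by
    intro i α
    by_cases h : α ∈ (G i).support
    · exact Subfield.subset_closure (Or.inr (Set.mem_iUnion.mpr ⟨i, ⟨α, h, rfl⟩⟩))
    · rw [notMem_support_iff.mp h]
      exact k.zero_mem
  set G' : κ → MvPolynomial (Fin (N + 1)) k := fun i =>
    ∑ α ∈ (G i).support, monomial α ⟨coeff α (G i), hGk i α⟩ with hG'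
  have hGG : ∀ i, map k.subtype (G' i) = G i := by
    intro i
    rw [hG', map_sum]
    conv_rhs => rw [(G i).as_sum]
    refine Finset.sum_congr rfl fun α _ => ?_
    rw [map_monomial]
    rfl
  have hfin : Finite (CI N d) := inferInstance
  obtain ⟨x, hx⟩ := exists_algInd k (CI N d)
  obtain ⟨Pk, hPk, hPk'⟩ := generic_empty (sys d G' Z e) hx (fun y => by
    by_contra hcon
    push Not at hcon
    obtain ⟨P, hP⟩ := sys_sound hGG hG (x := x) (y := y) hcon
    refine hmain q d (form x) (fun i => form_homog x i) ?_ Z hZ P hP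
    have h1 : (fun a : CI N d => coeff a.2.1 (form x a.1)) = x := coeffs_form x
    rw [h1]
    exact algInd_mono hk1 hx)
  refine ⟨map k.subtype Pk, ?_, fun F hF hFP P hPe hP hnc => ?_⟩
  · intro h0
    exact hPk (map_injective _ k.subtype.injective (h0.trans (map_zero _).symm))
  · rw [← form_coeffs hF] at hP
    obtain ⟨y, hy⟩ := sys_complete hGG hPe hP hnc
    apply hFP
    rw [eval_map]
    exact hPk' _ y hy

end Pool.Agent.R871.SG
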