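import Pool.Agent.R871.SG.FamA

/-!
Entire curves whose coefficients `a j`, `D < j ≤ d D`, are very small for infinitely many `D`, in
varieties given by equations of degree at most `d`. First part: substitution of polynomials.
-/

set_option autoImplicit false

namespace Pool.Agent.R871.SG

open Filter Topology Metric Set MvPolynomial

variable {q s : ℕ} {ι κ : Type}

/-- The polynomial has degree at most `d` in the second group of variables. -/
def DegFib (F : MvPolynomial (Fin q ⊕ Fin s) ℂ) (d : ℕ) : Prop :=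
  ∀ m ∈ F.support, ∑ j : Fin s, m (Sum.inr j) ≤ d

/-- The polynomial `F(t, P(z))` in `z`. -/
noncomputable def plug (t : Fin q → ℂ) (P : Fin s → Polynomial ℂ)
    (F : MvPolynomial (Fin q ⊕ Fin s) ℂ) : Polynomial ℂ :=
  aeval (Sum.elim (fun a => Polynomial.C (t a)) P : Fin q ⊕ Fin s → Polynomial ℂ) F

theorem plug_eval (t : Fin q → ℂ) (P : Fin s → Polynomial ℂ) (F : MvPolynomial (Fin q ⊕ Fin s) ℂ)
    (z : ℂ) : (plug t P F).eval z = eval (Sum.elim t (pc P z)) F := by
  have h3 := comp_aeval (R := ℂ) (Sum.elim (fun a => Polynomial.C (t a)) P)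
    (Polynomial.aeval z : Polynomial ℂ →ₐ[ℂ] ℂ)
  have h4 := congrArg (fun h => h F) h3
  have h5 : (fun i => (Polynomial.aeval z : Polynomial ℂ →ₐ[ℂ] ℂ)
      (Sum.elim (fun a => Polynomial.C (t a)) P i)) = Sum.elim t (pc P z) := by
    funext i
    rcases i with i | i
    · simp
    · simp [pc, Polynomial.coe_aeval_eq_eval]
  rw [h5] at h4
  simpa [Polynomial.coe_aeval_eq_eval, plug] using h4

theorem plug_degree {F : MvPolynomial (Fin q ⊕ Fin s) ℂ} {d D : ℕ} (hF : DegFib F d)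
    (t : Fin q → ℂ) {P : Fin s → Polynomial ℂ} (hP : ∀ j, (P j).natDegree ≤ D) :
    (plug t P F).natDegree ≤ d * D := by
  classical
  rw [plug, aeval_def, eval₂_eq']
  refine Polynomial.natDegree_sum_le_of_forall_le _ _ fun m hm => ?_
  rw [Fintype.prod_sum_type]
  simp only [Sum.elim_inl, Sum.elim_inr]
  have h1 : (∏ a : Fin q, (Polynomial.C (t a)) ^ m (Sum.inl a)).natDegree ≤ 0 := by
    refine (Polynomial.natDegree_prod_le _ _).trans ?_
    refine (Finset.sum_le_sum fun a _ => (Polynomial.natDegree_pow_le (n := m (Sum.inl a)))).trans ?_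
    simp
  have h2 : (∏ j : Fin s, (P j) ^ m (Sum.inr j)).natDegree ≤ d * D := by
    refine (Polynomial.natDegree_prod_le _ _).trans ?_
    refine (Finset.sum_le_sum fun j _ => (Polynomial.natDegree_pow_le (n := m (Sum.inr j)))).trans ?_
    refine (Finset.sum_le_sum fun j _ => Nat.mul_le_mul_left _ (hP j)).trans ?_
    rw [← Finset.sum_mul]
    exact Nat.mul_le_mul_right _ (hF m hm)
  have h3 : ((algebraMap ℂ (Polynomial ℂ)) (coeff m F)).natDegree ≤ 0 := by
    rw [Polynomial.algebraMap_eq, Polynomial.natDegree_C]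
  refine (Polynomial.natDegree_mul_le).trans ?_
  have h4 := (Polynomial.natDegree_mul_le (p := ∏ a : Fin q, (Polynomial.C (t a)) ^ m (Sum.inl a))
    (q := ∏ j : Fin s, (P j) ^ m (Sum.inr j)))
  omega

/-- The polynomials with given coefficients. -/
noncomputable def trf {N : ℕ} (c : Fin (N + 1) → Fin s → ℂ) : Fin s → Polynomial ℂ := fun j =>
  ∑ m : Fin (N + 1), Polynomial.C (c m j) * Polynomial.X ^ (m : ℕ)

theorem trf_eval {N : ℕ} (c : Fin (N + 1) → Fin s → ℂ) (z : ℂ) :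
    pc (trf c) z = ∑ m : Fin (N + 1), z ^ (m : ℕ) • c m := by
  funext j
  simp only [pc, trf, Polynomial.eval_finsetSum, Polynomial.eval_mul, Polynomial.eval_C,
    Polynomial.eval_pow, Polynomial.eval_X, Finset.sum_apply, Pi.smul_apply, smul_eq_mul]
  exact Finset.sum_congr rfl fun m _ => mul_comm _ _

theorem trf_degree {N D : ℕ} {c : Fin (N + 1) → Fin s → ℂ} (hc : ∀ m : Fin (N + 1), D < (m : ℕ) → c m = 0)
    (j : Fin s) : (trf c j).natDegree ≤ D := by
  rw [trf]
  refine Polynomial.natDegree_sum_le_of_forall_le _ _ fun m _ => ?_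
  by_cases h : D < (m : ℕ)
  · rw [hc m h]
    simp
  · exact (Polynomial.natDegree_C_mul_X_pow_le _ _).trans (not_lt.1 h)

/-- The coefficients of `F(t, P(z))` are polynomials in `t` and the coefficients of `P`. -/
theorem plug_coeff (N : ℕ) (F : MvPolynomial (Fin q ⊕ Fin s) ℂ) (k : ℕ) :
    ∃ g : MvPolynomial (Fin q ⊕ (Fin (N + 1) × Fin s)) ℂ, ∀ (t : Fin q → ℂ)
      (c : Fin (N + 1) → Fin s → ℂ),
      (plug t (trf c) F).coeff k = eval (Sum.elim t fun p => c p.1 p.2) g := by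
  set w : Fin q ⊕ Fin s → Polynomial (MvPolynomial (Fin q ⊕ (Fin (N + 1) × Fin s)) ℂ) :=
    Sum.elim (fun a => Polynomial.C (X (Sum.inl a))) (fun j => ∑ m : Fin (N + 1),
      Polynomial.C (X (Sum.inr (m, j))) * Polynomial.X ^ (m : ℕ)) with hw
  refine ⟨(aeval w F).coeff k, fun t c => ?_⟩
  set v : Fin q ⊕ (Fin (N + 1) × Fin s) → ℂ := Sum.elim t fun p => c p.1 p.2 with hv
  have h1 := comp_aeval (R := ℂ) w (Polynomial.mapAlgHom (aeval v))
  have h2 := congrArg (fun h => h F) h1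
  have h3 : (fun i => Polynomial.mapAlgHom (aeval v : MvPolynomial _ ℂ →ₐ[ℂ] ℂ) (w i)) =
      Sum.elim (fun a => Polynomial.C (t a)) (trf c) := by
    funext i
    rcases i with i | i
    · simp [hw, hv]
    · simp [hw, hv, trf, Polynomial.map_sum]
  rw [h3] at h2
  have h4 : plug t (trf c) F = Polynomial.map (aeval v : MvPolynomial _ ℂ →ₐ[ℂ] ℂ) (aeval w F) := by
    rw [plug, ← h2]
    rfl
  rw [h4, Polynomial.coeff_map]
  exact DFunLike.congr_fun (coe_aeval_eq_eval v) _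

theorem coeff_tendsto {N : ℕ} (F : MvPolynomial (Fin q ⊕ Fin s) ℂ) (k : ℕ) {t : ℕ → Fin q → ℂ}
    {t0 : Fin q → ℂ} (ht : Tendsto t atTop (𝓝 t0)) {c : ℕ → Fin (N + 1) → Fin s → ℂ}
    {c0 : Fin (N + 1) → Fin s → ℂ} (hc : Tendsto c atTop (𝓝 c0)) :
    Tendsto (fun n => (plug (t n) (trf (c n)) F).coeff k) atTop
      (𝓝 ((plug t0 (trf c0) F).coeff k)) := by
  obtain ⟨g, hg⟩ := plug_coeff (q := q) N F k
  simp only [hg]
  refine ((MvPolynomial.continuous_eval g).tendsto _).comp (tendsto_pi_nhds.2 fun i => ?_)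
  rcases i with i | i
  · exact tendsto_pi_nhds.1 ht i
  · exact tendsto_pi_nhds.1 (tendsto_pi_nhds.1 hc i.1) i.2

/-- **The compactness argument.** -/
theorem window {F : ι → MvPolynomial (Fin q ⊕ Fin s) ℂ} {d : ℕ} (hF : ∀ i, DegFib (F i) d)
    {K : Set (Fin q → ℂ)} (hK : IsClosed K) (D N : ℕ) (R η : ℝ) (hη : 0 < η) :
    ∃ δ : ℝ, 0 < δ ∧ ∀ t ∈ K, ‖t‖ ≤ R → ∀ c : Fin (N + 1) → Fin s → ℂ, ‖c‖ ≤ R →
      (∀ m : Fin (N + 1), D < (m : ℕ) → ‖c m‖ ≤ δ) → (∀ i, ∀ m ≤ d * D, (plug t (trf c) (F i)).coeff m = 0) →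
      ∃ t' ∈ K, ∃ c' : Fin (N + 1) → Fin s → ℂ, (∀ m : Fin (N + 1), D < (m : ℕ) → c' m = 0) ∧
        (∀ i, plug t' (trf c') (F i) = 0) ∧ ‖t' - t‖ ≤ η ∧ ‖c' - c‖ ≤ η := by
  by_contra hcon
  push Not at hcon
  choose t htK htR c hcR hcδ hc0 hbad using fun n : ℕ => hcon (1 / ((n : ℝ) + 1)) (by positivity)
  have hcomp : IsCompact ((closedBall (0 : Fin q → ℂ) R) ×ˢ
      (closedBall (0 : Fin (N + 1) → Fin s → ℂ) R)) :=
    (isCompact_closedBall _ _).prod (isCompact_closedBall _ _)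
  obtain ⟨p, hp, φ, hφ, hlim⟩ := hcomp.tendsto_subseq (x := fun n => (t n, c n)) fun n =>
    ⟨by simpa using htR n, by simpa using hcR n⟩
  have h1 : Tendsto (fun n => t (φ n)) atTop (𝓝 p.1) := (continuous_fst.tendsto p).comp hlim
  have h2 : Tendsto (fun n => c (φ n)) atTop (𝓝 p.2) := (continuous_snd.tendsto p).comp hlim
  have hpK : p.1 ∈ K := hK.mem_of_tendsto h1 (Eventually.of_forall fun n => htK _)
  have hp0 : ∀ m : Fin (N + 1), D < (m : ℕ) → p.2 m = 0 := by
    intro m hm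
    have h3 : Tendsto (fun n => c (φ n) m) atTop (𝓝 (p.2 m)) := tendsto_pi_nhds.1 h2 m
    have h4 : Tendsto (fun n => c (φ n) m) atTop (𝓝 0) := by
      rw [tendsto_zero_iff_norm_tendsto_zero]
      refine squeeze_zero (fun n => norm_nonneg _) (fun n => hcδ (φ n) m hm) ?_
      exact (tendsto_one_div_add_atTop_nhds_zero_nat (𝕜 := ℝ)).comp hφ.tendsto_atTop
    exact tendsto_nhds_unique h3 h4
  have hpF : ∀ i, plug p.1 (trf p.2) (F i) = 0 := by
    intro i
    refine Polynomial.ext fun m => ?_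
    rw [Polynomial.coeff_zero]
    by_cases hm : m ≤ d * D
    · refine tendsto_nhds_unique (coeff_tendsto (F i) m h1 h2) ?_
      simp only [hc0 _ i m hm]
      exact tendsto_const_nhds
    · exact Polynomial.coeff_eq_zero_of_natDegree_lt
        (lt_of_le_of_lt (plug_degree (hF i) p.1 (trf_degree hp0)) (not_le.1 hm))
  have h5 : ∀ᶠ n in atTop, ‖p.1 - t (φ n)‖ ≤ η := by
    have : Tendsto (fun n => ‖p.1 - t (φ n)‖) atTop (𝓝 0) := by
      have := (tendsto_const_nhds (x := p.1)).sub h1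
      rw [sub_self] at this
      simpa using this.norm
    exact this.eventually_le_const hη
  have h6 : ∀ᶠ n in atTop, ‖p.2 - c (φ n)‖ ≤ η := by
    have : Tendsto (fun n => ‖p.2 - c (φ n)‖) atTop (𝓝 0) := by
      have := (tendsto_const_nhds (x := p.2)).sub h2
      rw [sub_self] at this
      simpa using this.norm
    exact this.eventually_le_const hη
  obtain ⟨n, hn1, hn2⟩ := (h5.and h6).exists
  exact absurd hn2 (not_le.2 (hbad (φ n) p.1 hpK p.2 hp0 hpF hn1))

end Pool.Agent.R871.SG
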