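import Pool.Agent.R871.SG.WinA

/-!
Entire curves whose coefficients `a j`, `D < j ≤ d D`, are very small for infinitely many `D`: they are
limits of polynomial curves.
-/

set_option autoImplicit false

namespace Pool.Agent.R871.SG

open Filter Topology Metric Set MvPolynomial

variable {q s : ℕ} {ι κ : Type}

theorem mv_diff {σ : Type} (F : MvPolynomial σ ℂ) {x y : ℂ → σ → ℂ} {B C : ℝ} {N : ℕ}
    (hx : ∀ z, ‖z‖ ≤ 1 → ∀ i, ‖x z i‖ ≤ B) (hy : ∀ z, ‖z‖ ≤ 1 → ∀ i, ‖y z i‖ ≤ B)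
    (hxy : ∀ z, ‖z‖ ≤ 1 → ∀ i, ‖x z i - y z i‖ ≤ C * ‖z‖ ^ N) :
    ∃ B' C' : ℝ, 0 ≤ B' ∧ 0 ≤ C' ∧ ∀ z, ‖z‖ ≤ 1 → ‖eval (x z) F‖ ≤ B' ∧ ‖eval (y z) F‖ ≤ B' ∧
      ‖eval (x z) F - eval (y z) F‖ ≤ C' * ‖z‖ ^ N := by
  induction F using MvPolynomial.induction_on with
  | C a => exact ⟨‖a‖, 0, norm_nonneg _, le_rfl, fun z hz => by simp⟩
  | add p q hp hq =>
    obtain ⟨B1, C1, hB1, hC1, h1⟩ := hp
    obtain ⟨B2, C2, hB2, hC2, h2⟩ := hq
    refine ⟨B1 + B2, C1 + C2, by positivity, by positivity, fun z hz => ?_⟩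
    obtain ⟨a1, a2, a3⟩ := h1 z hz
    obtain ⟨b1, b2, b3⟩ := h2 z hz
    refine ⟨?_, ?_, ?_⟩
    · rw [map_add]; exact (norm_add_le _ _).trans (add_le_add a1 b1)
    · rw [map_add]; exact (norm_add_le _ _).trans (add_le_add a2 b2)
    · rw [map_add, map_add, add_sub_add_comm, add_mul]
      exact (norm_add_le _ _).trans (add_le_add a3 b3)
  | mul_X p i hp =>
    obtain ⟨B1, C1, hB1, hC1, h1⟩ := hp
    refine ⟨B1 * |B|, C1 * |B| + B1 * |C|, by positivity, by positivity, fun z hz => ?_⟩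
    obtain ⟨a1, a2, a3⟩ := h1 z hz
    have b1 := (hx z hz i).trans (le_abs_self B)
    have b2 := (hy z hz i).trans (le_abs_self B)
    have b3 : ‖x z i - y z i‖ ≤ |C| * ‖z‖ ^ N :=
      (hxy z hz i).trans (mul_le_mul_of_nonneg_right (le_abs_self C) (by positivity))
    refine ⟨?_, ?_, ?_⟩
    · rw [map_mul, eval_X, norm_mul]; gcongr
    · rw [map_mul, eval_X, norm_mul]; gcongr
    · rw [map_mul, map_mul, eval_X, eval_X]
      have h3 : eval (x z) p * x z i - eval (y z) p * y z i =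
          (eval (x z) p - eval (y z) p) * x z i + eval (y z) p * (x z i - y z i) := by ring
      rw [h3]
      refine (norm_add_le _ _).trans ?_
      rw [norm_mul, norm_mul]
      have h4 : ‖eval (x z) p - eval (y z) p‖ * ‖x z i‖ ≤ C1 * ‖z‖ ^ N * |B| := by gcongr
      have h5 : ‖eval (y z) p‖ * ‖x z i - y z i‖ ≤ B1 * (|C| * ‖z‖ ^ N) := by gcongr
      linarith

theorem low_coeff {Q : Polynomial ℂ} {C : ℝ} {N : ℕ}
    (h : ∀ z : ℂ, ‖z‖ ≤ 1 → ‖Q.eval z‖ ≤ C * ‖z‖ ^ (N + 1)) (m : ℕ) (hm : m ≤ N) :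
    Q.coeff m = 0 := by
  have key : ∀ k, k ≤ N + 1 → Polynomial.X ^ k ∣ Q := by
    intro k
    induction k with
    | zero => intro _; simp
    | succ k ih =>
      intro hk
      obtain ⟨R, hR⟩ := ih (by omega)
      have hR0 : R.eval 0 = 0 := by
        have h1 : Tendsto (fun n : ℕ => R.eval (((1 / ((n : ℝ) + 1) : ℝ) : ℂ))) atTop
            (𝓝 (R.eval 0)) := by
          refine (R.continuous.tendsto 0).comp ?_
          have := (tendsto_one_div_add_atTop_nhds_zero_nat (𝕜 := ℝ)).ofReal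
          simpa using this
        have h2 : Tendsto (fun n : ℕ => R.eval (((1 / ((n : ℝ) + 1) : ℝ) : ℂ))) atTop (𝓝 0) := by
          rw [tendsto_zero_iff_norm_tendsto_zero]
          have h3 : Tendsto (fun n : ℕ => |C| * (1 / ((n : ℝ) + 1))) atTop (𝓝 0) := by
            simpa using (tendsto_one_div_add_atTop_nhds_zero_nat (𝕜 := ℝ)).const_mul |C|
          refine squeeze_zero (fun n => norm_nonneg _) (fun n => ?_) h3
          set r : ℝ := 1 / ((n : ℝ) + 1) with hr
          have hr0 : 0 < r := by rw [hr]; positivity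
          have hr1 : r ≤ 1 := by
            rw [hr, div_le_one (by positivity)]
            have := n.cast_nonneg (α := ℝ)
            linarith
          have hnr : ‖(r : ℂ)‖ = r := by
            rw [Complex.norm_real, Real.norm_of_nonneg hr0.le]
          have h4 := h (r : ℂ) (by rw [hnr]; exact hr1)
          rw [hR, Polynomial.eval_mul, Polynomial.eval_pow, Polynomial.eval_X, norm_mul, norm_pow,
            hnr] at h4
          have h5 : N + 1 = k + (N + 1 - k) := by omega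
          rw [h5, pow_add] at h4
          have h6 : ‖R.eval (r : ℂ)‖ ≤ C * r ^ (N + 1 - k) := by
            have hrk : 0 < r ^ k := by positivity
            have h7 : r ^ k * ‖R.eval (r : ℂ)‖ ≤ r ^ k * (C * r ^ (N + 1 - k)) := by
              calc _ ≤ _ := h4
                _ = _ := by ring
            exact le_of_mul_le_mul_left h7 hrk
          refine h6.trans ?_
          have h8 : r ^ (N + 1 - k) ≤ r := by
            have : r ^ (N + 1 - k) ≤ r ^ 1 := pow_le_pow_of_le_one hr0.le hr1 (by omega)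
            simpa using this
          calc C * r ^ (N + 1 - k) ≤ |C| * r ^ (N + 1 - k) :=
                mul_le_mul_of_nonneg_right (le_abs_self C) (by positivity)
            _ ≤ |C| * r := mul_le_mul_of_nonneg_left h8 (abs_nonneg C)
        exact tendsto_nhds_unique h1 h2
      have hX : Polynomial.X ∣ R := by
        rw [Polynomial.X_dvd_iff, Polynomial.coeff_zero_eq_eval_zero, hR0]
      obtain ⟨S, hS⟩ := hX
      exact ⟨S, by rw [hR, hS, pow_succ]; ring⟩
  exact (Polynomial.X_pow_dvd_iff.1 (key (N + 1) le_rfl)) m (by omega)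

/-- The series converges absolutely. -/
theorem ser_norm {a : ℕ → Fin s → ℂ} {f : ℂ → Fin s → ℂ}
    (ha : ∀ z : ℂ, HasSum (fun j => z ^ j • a j) (f z)) {A : ℝ} (hA : 0 ≤ A) :
    Summable fun j => A ^ j * ‖a j‖ := by
  have h1 := (ha (A : ℂ)).summable.norm
  refine h1.congr fun j => ?_
  rw [norm_smul, norm_pow, Complex.norm_real, Real.norm_of_nonneg hA]

/-- The remainder of the series. -/
theorem ser_tail {a : ℕ → Fin s → ℂ} {f : ℂ → Fin s → ℂ}
    (ha : ∀ z : ℂ, HasSum (fun j => z ^ j • a j) (f z)) (N : ℕ) (z : ℂ) :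
    f z - pc (trf fun m : Fin (N + 1) => a m) z = ∑' j, z ^ (j + (N + 1)) • a (j + (N + 1)) := by
  have h1 := (ha z).summable.sum_add_tsum_nat_add (N + 1)
  rw [(ha z).tsum_eq] at h1
  rw [trf_eval, ← h1, Finset.sum_range]
  exact add_sub_cancel_left _ _

theorem trunc_coeff {a : ℕ → Fin s → ℂ} {f : ℂ → Fin s → ℂ}
    (ha : ∀ z : ℂ, HasSum (fun j => z ^ j • a j) (f z)) {F : MvPolynomial (Fin q ⊕ Fin s) ℂ}
    {t : Fin q → ℂ} (hF : ∀ z, eval (Sum.elim t (f z)) F = 0) {N m : ℕ} (hm : m ≤ N) :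
    (plug t (trf fun m : Fin (N + 1) => a m) F).coeff m = 0 := by
  have h1 := ser_norm ha (A := 1) zero_le_one
  simp only [one_pow, one_mul] at h1
  set S : ℝ := ∑' j, ‖a j‖ with hS
  have hS0 : 0 ≤ S := tsum_nonneg fun _ => norm_nonneg _
  have hf : ∀ z : ℂ, ‖z‖ ≤ 1 → ‖f z‖ ≤ S := by
    intro z hz
    rw [← (ha z).tsum_eq]
    refine (tsum_of_norm_bounded h1.hasSum fun j => ?_)
    rw [norm_smul, norm_pow]
    exact mul_le_of_le_one_left (norm_nonneg _) (pow_le_one₀ (norm_nonneg _) hz)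
  have h2 : Summable fun j => ‖a (j + (N + 1))‖ := (summable_nat_add_iff (N + 1)).2 h1
  set S' : ℝ := ∑' j, ‖a (j + (N + 1))‖ with hS'
  have hS'0 : 0 ≤ S' := tsum_nonneg fun _ => norm_nonneg _
  have hd : ∀ z : ℂ, ‖z‖ ≤ 1 → ‖f z - pc (trf fun m : Fin (N + 1) => a m) z‖ ≤
      S' * ‖z‖ ^ (N + 1) := by
    intro z hz
    rw [ser_tail ha N z]
    have h3 : HasSum (fun j => ‖a (j + (N + 1))‖ * ‖z‖ ^ (N + 1)) (S' * ‖z‖ ^ (N + 1)) :=
      h2.hasSum.mul_right _
    refine tsum_of_norm_bounded h3 fun j => ?_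
    rw [norm_smul, norm_pow, pow_add, mul_comm ‖a (j + (N + 1))‖]
    refine mul_le_mul_of_nonneg_right ?_ (norm_nonneg _)
    exact mul_le_of_le_one_left (by positivity) (pow_le_one₀ (norm_nonneg _) hz)
  have hp : ∀ z : ℂ, ‖z‖ ≤ 1 → ‖pc (trf fun m : Fin (N + 1) => a m) z‖ ≤ S + S' := by
    intro z hz
    have h3 := hd z hz
    have h4 : ‖z‖ ^ (N + 1) ≤ 1 := pow_le_one₀ (norm_nonneg _) hz
    have h5 : S' * ‖z‖ ^ (N + 1) ≤ S' := mul_le_of_le_one_right hS'0 h4
    have h6 := norm_sub_norm_le (pc (trf fun m : Fin (N + 1) => a m) z) (f z)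
    rw [norm_sub_rev] at h6
    have h7 := hf z hz
    linarith
  set x : ℂ → Fin q ⊕ Fin s → ℂ := fun z => Sum.elim t (f z) with hx
  set y : ℂ → Fin q ⊕ Fin s → ℂ := fun z => Sum.elim t (pc (trf fun m : Fin (N + 1) => a m) z)
    with hy
  obtain ⟨B', C', hB', hC', h⟩ := mv_diff F (x := x) (y := y) (B := ‖t‖ + S + S') (C := S')
    (N := N + 1) (fun z hz i => by
      rcases i with i | i
      · have := norm_le_pi_norm t i
        simp only [hx, Sum.elim_inl]
        linarith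
      · have h3 := norm_le_pi_norm (f z) i
        have h4 := hf z hz
        simp only [hx, Sum.elim_inr]
        linarith [norm_nonneg t]) (fun z hz i => by
      rcases i with i | i
      · have := norm_le_pi_norm t i
        simp only [hy, Sum.elim_inl]
        linarith
      · have h3 := norm_le_pi_norm (pc (trf fun m : Fin (N + 1) => a m) z) i
        have h4 := hp z hz
        simp only [hy, Sum.elim_inr]
        linarith [norm_nonneg t]) (fun z hz i => by
      rcases i with i | i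
      · simp only [hx, hy, Sum.elim_inl, sub_self, norm_zero]
        positivity
      · have h3 := norm_le_pi_norm (f z - pc (trf fun m : Fin (N + 1) => a m) z) i
        exact h3.trans (hd z hz))
  refine low_coeff (C := C') (N := N) (fun z hz => ?_) m hm
  rw [plug_eval]
  have h3 := (h z hz).2.2
  simp only [hx] at h3
  rw [hF z, zero_sub, norm_neg] at h3
  exact h3

/-- **Entire curves with windows of very small coefficients are limits of polynomial curves.** -/
theorem approx_window {F : ι → MvPolynomial (Fin q ⊕ Fin s) ℂ} {d : ℕ} (hF : ∀ i, DegFib (F i) d)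
    (K : ℕ → Set (Fin q → ℂ)) (hK : ∀ l, IsClosed (K l)) : ∃ ε : ℕ → ℝ, (∀ D, 0 < ε D) ∧
    ∀ (l : ℕ), ∀ t ∈ K l, ∀ (f : ℂ → Fin s → ℂ) (a : ℕ → Fin s → ℂ),
      (∀ z : ℂ, HasSum (fun j => z ^ j • a j) (f z)) → InFib F t f →
      (∀ D₀, ∃ D ≥ D₀, ∀ j, D < j → j ≤ d * D → ‖a j‖ ≤ ε D) →
      ∀ ρ η : ℝ, 0 ≤ ρ → 0 < η → ∃ t' ∈ K l, ∃ P : Fin s → Polynomial ℂ,
        InFib F t' (pc P) ∧ ‖t' - t‖ ≤ η ∧ ∀ x, ‖x‖ ≤ ρ → ‖pc P x - f x‖ ≤ η := by
  set M : ℕ → ℕ := fun D => max D (d * D) with hM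
  set θ : ℕ → ℝ := fun D => 1 / (((M D : ℝ) + 1) * ((D : ℝ) + 1) ^ (M D + 1)) with hθ
  have hθ0 : ∀ D, 0 < θ D := fun D => by rw [hθ]; positivity
  choose δ hδ0 hδ using fun (l D : ℕ) => window hF (hK l) D (M D) (D : ℝ) (θ D) (hθ0 D)
  obtain ⟨ε, hε, hεδ⟩ := min_delta1 δ hδ0
  refine ⟨ε, hε, fun l t ht f a ha hfF hw ρ η hρ hη => ?_⟩
  have hsum1 := ser_norm ha (A := 1) zero_le_one
  simp only [one_pow, one_mul] at hsum1
  have hB : ∀ j, ‖a j‖ ≤ ∑' j, ‖a j‖ := fun j => hsum1.le_tsum j fun _ _ => norm_nonneg _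
  have htail := tendsto_sum_nat_add fun j => ρ ^ j * ‖a j‖
  obtain ⟨D1, hD1⟩ := (htail.eventually_le_const (half_pos hη)).exists_forall_of_atTop
  obtain ⟨D2, hD2⟩ := exists_nat_ge (‖t‖ + (∑' j, ‖a j‖) + ρ + 2 / η)
  obtain ⟨D, hD, hwD⟩ := hw (max (max l D1) D2)
  have hDl : l ≤ D := (le_max_left _ _).trans ((le_max_left _ _).trans hD)
  have hDD1 : D1 ≤ D := (le_max_right _ _).trans ((le_max_left _ _).trans hD)
  have hDD2 : (D2 : ℝ) ≤ D := by exact_mod_cast (le_max_right _ _).trans hD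
  have hS0 : 0 ≤ ∑' j, ‖a j‖ := tsum_nonneg fun _ => norm_nonneg _
  have h2η : 0 < 2 / η := by positivity
  have ht0 := norm_nonneg t
  set c : Fin (M D + 1) → Fin s → ℂ := fun m => a m with hc
  obtain ⟨t', ht', c', hc'0, hc'F, hc't, hc'c⟩ := hδ l D t ht (by linarith) c
    ((pi_norm_le_iff_of_nonneg (by positivity)).2 fun m => (hB m).trans (by linarith))
    (fun m hm => by
      have h1 : (m : ℕ) ≤ d * D := by
        have h2 := m.2
        have h3 : (m : ℕ) ≤ M D := by omega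
        rcases le_max_iff.1 h3 with h4 | h4
        · omega
        · exact h4
      exact (hwD m hm h1).trans (hεδ l D hDl))
    (fun i m hm => trunc_coeff ha (fun z => hfF z i) (hm.trans (le_max_right _ _)))
  have hθD : ((M D : ℝ) + 1) * ((D : ℝ) + 1) ^ (M D) * θ D = 1 / ((D : ℝ) + 1) := by
    have e1 : ((M D : ℝ) + 1) ≠ 0 := by positivity
    have e2 : ((D : ℝ) + 1) ≠ 0 := by positivity
    have e3 : θ D = 1 / (((M D : ℝ) + 1) * ((D : ℝ) + 1) ^ (M D + 1)) := rfl
    have e4 : ((D : ℝ) + 1) ^ (M D) ≠ 0 := by positivity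
    rw [e3, pow_succ]
    generalize ((D : ℝ) + 1) ^ (M D) = u at e4 ⊢
    field_simp
  have hDη : 1 / ((D : ℝ) + 1) ≤ η / 2 := by
    rw [div_le_div_iff₀ (by positivity) (by positivity)]
    have h1 : 2 / η ≤ D := by linarith
    rw [div_le_iff₀ hη] at h1
    linarith
  have hD1' : (1 : ℝ) ≤ (D : ℝ) + 1 := by
    have := D.cast_nonneg (α := ℝ); linarith
  have hθ1 : θ D ≤ 1 / ((D : ℝ) + 1) := by
    rw [← hθD]
    have h1 : (1 : ℝ) ≤ ((M D : ℝ) + 1) * ((D : ℝ) + 1) ^ (M D) := by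
      have h2 : (1 : ℝ) ≤ (M D : ℝ) + 1 := by
        have := (M D).cast_nonneg (α := ℝ); linarith
      have h3 : (1 : ℝ) ≤ ((D : ℝ) + 1) ^ (M D) := one_le_pow₀ hD1'
      nlinarith
    have := mul_le_mul_of_nonneg_right h1 (hθ0 D).le
    rwa [one_mul] at this
  refine ⟨t', ht', trf c', fun z i => ?_, ?_, fun x hx => ?_⟩
  · rw [← plug_eval, hc'F i, Polynomial.eval_zero]
  · exact hc't.trans (hθ1.trans (hDη.trans (by linarith)))
  · have h1 : f x - pc (trf c) x = ∑' j, x ^ (j + (M D + 1)) • a (j + (M D + 1)) :=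
      ser_tail ha (M D) x
    have h2 : ‖f x - pc (trf c) x‖ ≤ η / 2 := by
      rw [h1]
      have h3 : Summable fun j => ρ ^ (j + (M D + 1)) * ‖a (j + (M D + 1))‖ :=
        (summable_nat_add_iff (f := fun j => ρ ^ j * ‖a j‖) (M D + 1)).2 (ser_norm ha hρ)
      refine (tsum_of_norm_bounded h3.hasSum fun j => ?_).trans (hD1 (M D + 1) ?_)
      · rw [norm_smul, norm_pow]
        gcongr
      · have : D ≤ M D := le_max_left _ _
        omega
    have h3 : ‖pc (trf c') x - pc (trf c) x‖ ≤ η / 2 := by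
      rw [trf_eval, trf_eval, ← Finset.sum_sub_distrib]
      have h4 : ∀ m : Fin (M D + 1), ‖x ^ (m : ℕ) • c' m - x ^ (m : ℕ) • c m‖ ≤
          ((D : ℝ) + 1) ^ (M D) * θ D := by
        intro m
        rw [← smul_sub, norm_smul, norm_pow]
        have h5 : ‖x‖ ≤ (D : ℝ) + 1 := by linarith
        have h6 : ‖x‖ ^ (m : ℕ) ≤ ((D : ℝ) + 1) ^ (M D) := by
          calc ‖x‖ ^ (m : ℕ) ≤ ((D : ℝ) + 1) ^ (m : ℕ) := by gcongr
            _ ≤ ((D : ℝ) + 1) ^ (M D) := pow_le_pow_right₀ hD1' (by omega)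
        have h7 : ‖c' m - c m‖ ≤ θ D := (norm_le_pi_norm (c' - c) m).trans hc'c
        gcongr
      refine (norm_sum_le _ _).trans ((Finset.sum_le_sum fun m _ => h4 m).trans ?_)
      rw [Finset.sum_const, Finset.card_univ, Fintype.card_fin, nsmul_eq_mul]
      push_cast
      have h8 : ((M D : ℝ) + 1) * (((D : ℝ) + 1) ^ (M D) * θ D) = 1 / ((D : ℝ) + 1) := by
        rw [← hθD]; ring
      rw [h8]
      exact hDη
    have h4 : pc (trf c') x - f x = (pc (trf c') x - pc (trf c) x) - (f x - pc (trf c) x) := by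
      abel
    rw [h4]
    refine (norm_sub_le _ _).trans ?_
    linarith

end Pool.Agent.R871.SG
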